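import Mathlib

set_option autoImplicit false

namespace Pool.Agent.H48.AsDefs

open MeasureTheory
open scoped ENNReal ContDiff

/-- least number of sets of diameter at most `r` needed to cover `A` -/
noncomputable def covN (r : ℝ) (A : Set ℂ) : ℝ≥0∞ :=
  ⨅ (m : ℕ) (_ : ∃ U : Fin m → Set ℂ, (∀ i, ∀ x ∈ U i, ∀ y ∈ U i, dist x y ≤ r) ∧ A ⊆ ⋃ i, U i),
    (m : ℝ≥0∞)

/-- Assouad dimension of a planar set -/
noncomputable def dimA (E : Set ℂ) : ℝ≥0∞ :=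
  ⨅ (α : ℝ) (_ : 0 ≤ α) (_ : ∃ C > (0 : ℝ), ∀ x ∈ E, ∀ r R : ℝ, 0 < r → r < R →
    covN r (Metric.ball x R ∩ E) ≤ ENNReal.ofReal (C * (R / r) ^ α)), ENNReal.ofReal α

/-- quasiconformality (analytic definition): the differential exists almost everywhere, is locally
square integrable, is the distributional derivative, and satisfies the distortion inequality -/
def QC (f : ℂ ≃ₜ ℂ) : Prop :=
  (∀ᵐ x, DifferentiableAt ℝ f x) ∧ LocallyIntegrable (fun x => ‖fderiv ℝ f x‖ ^ 2) ∧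
  (∀ φ : ℂ → ℝ, ContDiff ℝ ∞ φ → HasCompactSupport φ → ∀ v : ℂ,
    ∫ x, φ x • fderiv ℝ f x v = - ∫ x, fderiv ℝ φ x v • f x) ∧
  ∃ K ≥ (1 : ℝ), ∀ᵐ x, ‖fderiv ℝ f x‖ ^ 2 ≤ K * (fderiv ℝ f x).det

end Pool.Agent.H48.AsDefs
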