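import Pool.Agent.H48.HoB
import Pool.Agent.H48.AsDefs

set_option autoImplicit false

namespace Pool.Agent.H48.AsA

open Set Filter Topology Complex MeasureTheory Pool.Agent.H48.AsDefs
open scoped ComplexConjugate

noncomputable def B (r : ℝ) : ℝ := √(√(1 + r ^ 2))

noncomputable def h (r : ℝ) : ℝ := (B r)⁻¹

lemma B_pos (r : ℝ) : 0 < B r := by unfold B; positivity

lemma B4 (r : ℝ) : B r ^ 4 = 1 + r ^ 2 := by
  have : B r ^ 2 = √(1 + r ^ 2) := Real.sq_sqrt (Real.sqrt_nonneg _)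
  rw [show B r ^ 4 = (B r ^ 2) ^ 2 by ring, this, Real.sq_sqrt (by positivity)]

lemma le4 {a b : ℝ} (hb : 0 ≤ b) (h : a ^ 4 ≤ b ^ 4) : a ≤ b :=
  le_of_pow_le_pow_left₀ (by norm_num) hb h

lemma h_pos (r : ℝ) : 0 < h r := inv_pos.2 (B_pos r)

lemma h_le {r s : ℝ} (hs : 0 < s) (h1 : s ^ 4 ≤ 1 + r ^ 2) : h r ≤ s⁻¹ :=
  inv_anti₀ hs (le4 (B_pos r).le (by rwa [B4]))

lemma h_anti {a b : ℝ} (ha : 0 ≤ a) (hab : a ≤ b) : h b ≤ h a :=
  h_le (B_pos a) (by rw [B4]; nlinarith)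

lemma h_shift {r s : ℝ} (hs : 0 ≤ s) (h1 : s ≤ r + 1) : h r ≤ 2 * h s := by
  have := h_le (r := r) (half_pos (B_pos s)) (by
    rw [div_pow, B4]; nlinarith [sq_nonneg (r - 1), pow_le_pow_left₀ hs h1 2])
  rwa [inv_div, div_eq_mul_inv] at this

lemma h_diff {a b : ℝ} (ha : 0 ≤ a) (hab : a ≤ b) : |h b - h a| * a ≤ 1 / 2 * h b * (b - a) := by
  rw [abs_of_nonpos (sub_nonpos.2 (h_anti ha hab))]
  have hA := B_pos a
  have hB := B_pos b
  have e1 : 2 * a * B b ≤ (a + b) * B a := le4 (by nlinarith) (by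
    rw [mul_pow, mul_pow (a + b), B4, B4]
    have f1 : (2 * a) ^ 4 ≤ (a + b) ^ 4 := pow_le_pow_left₀ (by linarith) (by linarith) 4
    have f2 : (4 * a * b) ^ 2 ≤ ((a + b) ^ 2) ^ 2 :=
      pow_le_pow_left₀ (by nlinarith) (by nlinarith [sq_nonneg (a - b)]) 2
    nlinarith [mul_le_mul_of_nonneg_left f2 (sq_nonneg a)])
  have e2 : 1 / 2 * h b * (b - a) - -(h b - h a) * a = ((a + b) * B a - 2 * a * B b) / (2 * B a * B b) := by
    unfold h; field_simp; ring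
  rw [← sub_nonneg, e2]
  exact div_nonneg (sub_nonneg.2 e1) (by positivity)

lemma h_mul_le {r s : ℝ} (hr : 0 ≤ r) (hs : 0 ≤ s) (h1 : r ≤ s ^ 2) : h r * r ≤ s := by
  rw [h, inv_mul_le_iff₀ (B_pos r)]
  refine le4 (mul_nonneg (B_pos r).le hs) ?_
  rw [mul_pow, B4]
  nlinarith [mul_le_mul_of_nonneg_left (pow_le_pow_left₀ hr h1 2) (sq_nonneg r), sq_nonneg (s ^ 2)]

lemma le_h_mul {r s : ℝ} (hr : 1 ≤ r) (h1 : 2 * s ^ 2 ≤ r) : s ≤ h r * r := by
  rw [h, le_inv_mul_iff₀ (B_pos r)]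
  refine le4 (by linarith) ?_
  rw [mul_pow, B4]
  have f1 := pow_le_pow_left₀ (by positivity) h1 2
  have f2 : 1 + r ^ 2 ≤ 4 * r ^ 2 := by nlinarith
  nlinarith [mul_le_mul_of_nonneg_left f1 (sq_nonneg r),
    mul_le_mul_of_nonneg_right f2 (show 0 ≤ s ^ 4 by positivity)]

noncomputable def G (w : ℂ) : ℂ := h ‖w‖ • w

lemma G_chord' {w w' : ℂ} (h1 : ‖w'‖ ≤ ‖w‖) :
    ‖G w - G w' - h ‖w‖ • (w - w')‖ ≤ 1 / 2 * h ‖w‖ * ‖w - w'‖ := by
  have e : G w - G w' - h ‖w‖ • (w - w') = (h ‖w‖ - h ‖w'‖) • w' := by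
    simp only [G, smul_sub, sub_smul]; abel
  rw [e, norm_smul, Real.norm_eq_abs]
  exact (h_diff (norm_nonneg _) h1).trans (mul_le_mul_of_nonneg_left (norm_sub_norm_le _ _)
    (by linarith [h_pos ‖w‖]))

lemma G_chord (z z' q : ℂ) : ‖G (z - q) - G (z' - q) - h (max ‖z - q‖ ‖z' - q‖) • (z - z')‖ ≤
    1 / 2 * h (max ‖z - q‖ ‖z' - q‖) * ‖z - z'‖ := by
  rw [← sub_sub_sub_cancel_right z z' q]
  rcases le_total ‖z' - q‖ ‖z - q‖ with h1 | h1
  · rw [max_eq_left h1]; exact G_chord' h1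
  · rw [max_eq_right h1, norm_sub_rev (z - q), ← norm_neg]
    refine le_trans (le_of_eq ?_) (G_chord' h1)
    congr 1
    simp only [smul_sub]; abel

lemma G_c1 : ContDiff ℝ 1 G := by
  have h1 : ContDiff ℝ 1 fun w : ℂ => 1 + ‖w‖ ^ 2 := contDiff_const.add (contDiff_norm_sq ℝ)
  exact (((h1.sqrt fun w => by positivity).sqrt fun w => by positivity).inv
    fun w => (B_pos _).ne').smul contDiff_id

lemma up {W u : ℂ} {l : ℝ} (hl : 0 ≤ l) (h1 : ‖W - l • u‖ ≤ 1 / 2 * l * ‖u‖) :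
    ‖W‖ ≤ 3 / 2 * l * ‖u‖ := by
  have := norm_add_le (W - l • u) (l • u)
  rw [sub_add_cancel, norm_smul, Real.norm_of_nonneg hl] at this
  linarith

lemma lo {W u : ℂ} {l : ℝ} (hl : 0 ≤ l) (h1 : ‖W - l • u‖ ≤ 1 / 2 * l * ‖u‖) :
    1 / 2 * l * ‖u‖ ≤ ‖W‖ := by
  have := norm_sub_le W (W - l • u)
  rw [sub_sub_cancel, norm_smul, Real.norm_of_nonneg hl] at this
  linarith

lemma homeo {F : ℂ → ℂ} {C : ℝ} (hc : Continuous F)
    (h1 : ∀ z z', ∃ l > 0, l ≤ C ∧ ‖F z - F z' - l • (z - z')‖ ≤ 1 / 2 * l * ‖z - z'‖)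
    (h2 : Tendsto F (cocompact ℂ) (cocompact ℂ)) : ∃ f : ℂ ≃ₜ ℂ, ⇑f = F := by
  have hi : Function.Injective F := fun a b e => by
    obtain ⟨l, l0, -, h3⟩ := h1 a b
    have := lo l0.le h3
    rw [e, sub_self, norm_zero] at this
    exact sub_eq_zero.1 (norm_le_zero_iff.1 (le_of_mul_le_mul_left (by linarith) l0))
  have hs : Function.Surjective F := by
    intro y
    obtain ⟨x, hx⟩ := (show Continuous fun z => dist (F z) y by fun_prop).exists_forall_le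
      ((tendsto_dist_right_cocompact_atTop y).comp h2)
    refine ⟨x, by_contra fun h0 => ?_⟩
    set ρ := y - F x with hρ
    have hρ' : 0 < ‖ρ‖ := norm_pos_iff.2 (sub_ne_zero.2 (Ne.symm h0))
    obtain ⟨l0, k0, k1, -⟩ := h1 0 0
    have C0 : 0 < C := k0.trans_le k1
    obtain ⟨l, hl, l1, e2⟩ := h1 (x + C⁻¹ • ρ) x
    have ht := inv_pos.2 C0
    rw [add_sub_cancel_left, norm_smul, Real.norm_of_nonneg ht.le] at e2
    have e4 : l * C⁻¹ ≤ 1 := by rwa [mul_inv_le_iff₀ C0, one_mul]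
    have e5 : y - F (x + C⁻¹ • ρ) = (1 - l * C⁻¹) • ρ - (F (x + C⁻¹ • ρ) - F x - l • C⁻¹ • ρ) := by
      rw [sub_smul, one_smul, smul_smul, hρ]; abel
    have e6 := hx (x + C⁻¹ • ρ)
    rw [dist_comm, dist_eq_norm, dist_comm, dist_eq_norm, ← hρ] at e6
    have e7 := norm_sub_le ((1 - l * C⁻¹) • ρ) (F (x + C⁻¹ • ρ) - F x - l • C⁻¹ • ρ)
    rw [← e5, norm_smul, Real.norm_of_nonneg (sub_nonneg.2 e4)] at e7
    nlinarith [mul_pos hl (mul_pos ht hρ')]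
  exact ⟨(Equiv.ofBijective F ⟨hi, hs⟩).toHomeomorphOfContinuousClosed hc
    (isProperMap_iff_tendsto_cocompact.2 ⟨hc, h2⟩).isClosedMap, rfl⟩

lemma cone {W u : ℂ} {l : ℝ} (hl : 0 ≤ l) (h1 : ‖W - l • u‖ ≤ 1 / 2 * l * ‖u‖) :
    5 * |(W * conj u).im| ≤ 3 * (W * conj u).re := by
  have e1 : ‖W * conj u - (l * ‖u‖ ^ 2 : ℝ)‖ ≤ 1 / 2 * (l * ‖u‖ ^ 2) := by
    have : W * conj u - (l * ‖u‖ ^ 2 : ℝ) = (W - l • u) * conj u := by
      rw [sub_mul, real_smul, mul_assoc, mul_conj']; push_cast; ring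
    rw [this, norm_mul, norm_conj]
    nlinarith [mul_le_mul_of_nonneg_right h1 (norm_nonneg u)]
  have m0 : 0 ≤ l * ‖u‖ ^ 2 := by positivity
  generalize l * ‖u‖ ^ 2 = m at e1 m0
  generalize W * conj u = a at e1
  have e2 := pow_le_pow_left₀ (norm_nonneg _) e1 2
  rw [Complex.sq_norm, normSq_apply] at e2
  have e3 := (abs_le.1 ((abs_re_le_norm _).trans e1)).1
  simp only [sub_re, ofReal_re, sub_im, ofReal_im, sub_zero] at e2 e3
  refine le_of_pow_le_pow_left₀ two_ne_zero (by linarith) ?_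
  rw [mul_pow, sq_abs]
  nlinarith [sq_nonneg (3 * m - 4 * a.re), sq_nonneg a.re]

lemma dist_ineq {F : ℂ → ℂ} {D : ℂ →L[ℝ] ℂ} {x : ℂ} (hD : HasFDerivAt F D x)
    (h1 : ∀ z, 5 * |((F z - F x) * conj (z - x)).im| ≤ 3 * ((F z - F x) * conj (z - x)).re) :
    ‖D‖ ^ 2 ≤ 40 * D.det := by
  have h2 : ∀ v, 5 * |(D v * conj v).im| ≤ 3 * (D v * conj v).re := by
    intro v
    refine (isClosed_le (f := fun a : ℂ => 5 * |(a * conj v).im|) (g := fun a => 3 * (a * conj v).re)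
      (by fun_prop) (by fun_prop)).mem_of_tendsto
      ((hD.hasLineDerivAt v).tendsto_slope_zero_right) ?_
    filter_upwards [self_mem_nhdsWithin] with t (ht : 0 < t)
    have e1 := h1 (x + t • v)
    have e2 : (F (x + t • v) - F x) * conj (x + t • v - x)
        = ((t ^ 2 : ℝ) : ℂ) * ((t⁻¹ • (F (x + t • v) - F x)) * conj v) := by
      have : (t : ℂ) ≠ 0 := by exact_mod_cast ht.ne'
      rw [add_sub_cancel_left, real_smul, real_smul, map_mul, conj_ofReal]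
      push_cast; field_simp
    rw [e2, re_ofReal_mul, im_ofReal_mul, abs_mul, abs_of_pos (pow_pos ht 2)] at e1
    exact le_of_mul_le_mul_left (by linarith) (pow_pos ht 2)
  have d1 : D.det = (D 1).re * (D I).im - (D I).re * (D 1).im := by
    rw [ContinuousLinearMap.det, ← LinearMap.det_toMatrix basisOneI, Matrix.det_fin_two]
    simp [LinearMap.toMatrix_apply]
  have d2 : ‖D‖ ≤ ‖D 1‖ + ‖D I‖ := D.opNorm_le_bound (by positivity) fun v => by
    have : D v = v.re • D 1 + v.im • D I := by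
      rw [← map_smul, ← map_smul, ← map_add]
      congr 1
      simp
    rw [this]
    refine (norm_add_le _ _).trans ?_
    rw [norm_smul, norm_smul, Real.norm_eq_abs, Real.norm_eq_abs]
    nlinarith [abs_re_le_norm v, abs_im_le_norm v, norm_nonneg (D 1), norm_nonneg (D I)]
  have a1 := h2 1
  have a2 := h2 I
  have a3 := h2 (1 + I)
  have a4 := h2 (1 - I)
  have d3 := pow_le_pow_left₀ (norm_nonneg _) d2 2
  have d4 : (‖D 1‖ + ‖D I‖) ^ 2 ≤ 2 * (‖D 1‖ ^ 2 + ‖D I‖ ^ 2) := by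
    nlinarith [sq_nonneg (‖D 1‖ - ‖D I‖)]
  rw [Complex.sq_norm, Complex.sq_norm, normSq_apply, normSq_apply] at d4
  rw [d1]
  simp only [map_add, map_sub, map_one, conj_I, mul_one, mul_re, mul_im, add_re, add_im, sub_re,
    sub_im, neg_re, neg_im, I_re, I_im, one_re, one_im] at a1 a2 a3 a4
  generalize (D 1).re = p at *
  generalize (D 1).im = r at *
  generalize (D I).re = q at *
  generalize (D I).im = s at *
  have b1 := abs_le.1 (show |r| ≤ 3 / 5 * p by linarith)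
  simp only [neg_zero, mul_zero, add_zero, sub_zero, zero_add, zero_sub, neg_neg, mul_one, mul_neg,
    sub_neg_eq_add] at a2 a3 a4
  have b2 := abs_le.1 ((le_div_iff₀' (by norm_num)).2 a2)
  have b3 := abs_le.1 ((le_div_iff₀' (by norm_num)).2 a3)
  have b4 := abs_le.1 ((le_div_iff₀' (by norm_num)).2 a4)
  have p0 : 0 ≤ p := by linarith
  have s0 : 0 ≤ s := by linarith
  have c1 : s ≤ 4 * p := by linarith
  have c2 : p ≤ 4 * s := by linarith
  have c3 : r * r ≤ 9 / 25 * (p * p) := by nlinarith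
  have c4 : q * q ≤ 9 / 25 * (s * s) := by nlinarith
  have c5 : q * r ≤ 9 / 25 * (p * s) := by nlinarith
  nlinarith [mul_le_mul_of_nonneg_left c1 s0, mul_le_mul_of_nonneg_left c2 p0, mul_nonneg p0 s0]

end Pool.Agent.H48.AsA
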