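import Pool.Agent.H48.AsA

set_option autoImplicit false

namespace Pool.Agent.H48.AsB

open Set Filter Topology Complex MeasureTheory Pool.Agent.H48.AsDefs Pool.Agent.H48.AsA
open scoped ComplexConjugate ENNReal

def e (k : ℕ) : ℕ := Nat.ofDigits 16 (Nat.digits 2 k)

lemma e0 : e 0 = 0 := by simp [e]

lemma e_eq (k : ℕ) : e k = 16 * e (k / 2) + k % 2 := by
  rcases k.eq_zero_or_pos with rfl | hk
  · simp [e]
  · rw [e, Nat.digits_def' one_lt_two hk, Nat.ofDigits_cons, add_comm]; rfl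

lemma e_sep (k : ℕ) : ∀ j m, k = j + m → 1 ≤ m → 7 * (m + 1) ^ 4 + 8 + 120 * e j ≤ 120 * e k := by
  induction k using Nat.strong_induction_on with
  | _ k ih =>
    intro j m h1 h2
    have a1 := e_eq k
    have a2 := e_eq j
    rcases (show k / 2 = j / 2 ∨ j / 2 < k / 2 by omega) with h3 | h3
    · obtain rfl : m = 1 := by omega
      rw [h3] at a1
      omega
    · obtain ⟨μ, hμ⟩ := Nat.exists_eq_add_of_le h3.le
      have a3 := ih (k / 2) (by omega) _ μ hμ (by omega)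
      have a4 : (m + 1) ^ 4 ≤ (2 * (μ + 1)) ^ 4 := Nat.pow_le_pow_left (by omega) 4
      rw [mul_pow] at a4
      omega

lemma e_real (j k : ℕ) : ((j : ℝ) - k) ^ 4 ≤ 18 * |(e j : ℝ) - e k| ∧
    (j ≠ k → 1 ≤ |(e j : ℝ) - e k|) := by
  have h1 : ∀ j k : ℕ, k < j → ((j : ℝ) - k) ^ 4 ≤ 18 * ((e j : ℝ) - e k) ∧ 1 ≤ (e j : ℝ) - e k := by
    intro j k h
    obtain ⟨m, rfl⟩ := Nat.exists_eq_add_of_le h.le
    have a1 := e_sep _ k m rfl (by omega)
    have a2 : m ^ 4 ≤ (m + 1) ^ 4 := Nat.pow_le_pow_left (by omega) 4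
    have a3 : ((m ^ 4 + 18 * e k : ℕ) : ℝ) ≤ (18 * e (k + m) : ℕ) := Nat.cast_le.2 (by omega)
    have a4 : ((1 + e k : ℕ) : ℝ) ≤ (e (k + m) : ℕ) := Nat.cast_le.2 (by omega)
    push_cast at a3 a4 ⊢
    rw [add_sub_cancel_left]
    constructor <;> linarith
  rcases lt_trichotomy j k with h | rfl | h
  · rw [abs_sub_comm, ← Even.neg_pow (by decide), neg_sub]
    obtain ⟨a1, a2⟩ := h1 k j h
    rw [abs_of_nonneg (by linarith)]
    exact ⟨a1, fun _ => a2⟩
  · simp
  · obtain ⟨a1, a2⟩ := h1 j k h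
    rw [abs_of_nonneg (by linarith)]
    exact ⟨a1, fun _ => a2⟩

lemma e_blk (n : ℕ) : ∀ k, 16 ^ n * e (k / 2 ^ n) ≤ e k ∧ e k + 1 ≤ 16 ^ n * e (k / 2 ^ n) + 16 ^ n := by
  induction n with
  | zero => simp
  | succ n ih =>
    intro k
    have a1 := ih (k / 2)
    have a2 := e_eq k
    rw [Nat.div_div_eq_div_mul, ← pow_succ'] at a1
    rw [pow_succ' 16, mul_assoc]
    omega

lemma nd (j k : ℕ) : ‖(e j : ℂ) - e k‖ = |(e j : ℝ) - e k| := by
  rw [← Real.norm_eq_abs, ← norm_real]; push_cast; rfl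

lemma h_sq {r d : ℝ} (hd : d ≠ 0) (h1 : d ^ 4 ≤ 36 * r) : h r ≤ 6 * (1 / d ^ 2) := by
  have := h_le (r := r) (s := d ^ 2 / 6) (by positivity) (by
    nlinarith [pow_le_pow_left₀ (by positivity) h1 2])
  rwa [inv_div, div_eq_mul_one_div] at this

lemma sum_bd : ∃ C : ℝ, ∀ (z : ℂ) (s : Finset ℕ), ∑ k ∈ s, h ‖z - e k‖ ≤ C := by
  have hs := Real.summable_one_div_int_pow.2 one_lt_two
  have h0 : 0 ≤ ∑' j : ℤ, 1 / (j : ℝ) ^ 2 := tsum_nonneg fun _ => by positivity
  refine ⟨1 + 6 * ∑' j : ℤ, 1 / (j : ℝ) ^ 2, fun z s => ?_⟩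
  rcases s.eq_empty_or_nonempty with rfl | hne
  · rw [Finset.sum_empty]; positivity
  obtain ⟨k0, k1, k2⟩ := s.exists_min_image (fun k => ‖z - e k‖) hne
  rw [← Finset.add_sum_erase _ _ k1]
  refine add_le_add ((h_le one_pos (by nlinarith [sq_nonneg ‖z - e k0‖])).trans inv_one.le) ?_
  refine (Finset.sum_le_sum (g := fun k : ℕ => 6 * (1 / (((k : ℤ) - k0 : ℤ) : ℝ) ^ 2))
    fun k hk => ?_).trans ?_
  · rw [Finset.mem_erase] at hk
    push_cast
    refine h_sq (sub_ne_zero.2 (Nat.cast_injective.ne hk.1)) ((e_real k k0).1.trans ?_)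
    have := norm_sub_le (z - e k0) (z - e k)
    rw [sub_sub_sub_cancel_left, nd] at this
    linarith [k2 k hk.2]
  · rw [← Finset.mul_sum, ← Finset.sum_image (s := s.erase k0) (g := fun k : ℕ => (k : ℤ) - k0)
      (f := fun j : ℤ => 1 / (j : ℝ) ^ 2) (fun a _ b _ hab => by simpa using hab)]
    exact mul_le_mul_of_nonneg_left (hs.sum_le_tsum _ fun _ _ => by positivity) (by norm_num)

lemma dim_le : dimA (range fun k => (e k : ℂ)) ≤ ENNReal.ofReal (1 / 4) := by
  refine iInf_le_of_le (1 / 4) (iInf_le_of_le (by norm_num) (iInf_le _ ⟨13, by norm_num, ?_⟩))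
  rintro _ ⟨k0, rfl⟩ r R hr hR
  obtain ⟨n, n1, n2⟩ := exists_nat_pow_near (show 1 ≤ r + 1 by linarith) (show (1 : ℝ) < 16 by norm_num)
  have q1 : 1 ≤ R / r := (one_le_div hr).2 hR.le
  set t := (R / r) ^ (1 / 4 : ℝ)
  have t1 : 1 ≤ t := Real.one_le_rpow q1 (by norm_num)
  have t4 : t ^ 4 = R / r := by
    rw [← Real.rpow_natCast, ← Real.rpow_mul (by linarith)]; norm_num
  have M1 := Nat.le_ceil (5 * t)
  have M2 := Nat.ceil_lt_add_one (show 0 ≤ 5 * t by linarith)
  generalize ⌈5 * t⌉₊ = M at M1 M2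
  have b : ∀ k, (16 : ℝ) ^ n * e (k / 2 ^ n) ≤ e k ∧
      (e k : ℝ) + 1 ≤ 16 ^ n * e (k / 2 ^ n) + 16 ^ n := fun k => by exact_mod_cast e_blk n k
  refine iInf_le_of_le (2 * M + 1) (iInf_le_of_le
    ⟨fun i => (fun k => (e k : ℂ)) '' {k | k / 2 ^ n + M = k0 / 2 ^ n + i}, ?_, ?_⟩ ?_)
  · rintro i _ ⟨j, hj, rfl⟩ _ ⟨k, hk, rfl⟩
    have : j / 2 ^ n = k / 2 ^ n := Nat.add_right_cancel (hj.trans hk.symm)
    have b1 := b j
    rw [this] at b1
    rw [dist_eq_norm, nd, abs_le]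
    constructor <;> linarith [b k]
  · rintro _ ⟨h1, k, rfl⟩
    rw [Metric.mem_ball, dist_eq_norm, nd, abs_lt] at h1
    have p0 : (0 : ℝ) < 16 ^ n := by positivity
    have a1 : |(e (k / 2 ^ n) : ℝ) - e (k0 / 2 ^ n)| ≤ 17 * (R / r) := by
      have a2 : R ≤ 16 ^ n * (16 * (R / r)) := by
        rw [pow_succ] at n2
        have : R = r * (R / r) := by field_simp
        nlinarith
      refine le_of_mul_le_mul_left ?_ p0
      rw [← abs_of_pos p0, ← abs_mul, abs_of_pos p0, abs_le]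
      constructor <;> nlinarith [b k, b k0]
    have a2 : |((k / 2 ^ n : ℕ) : ℝ) - (k0 / 2 ^ n : ℕ)| ≤ 5 * t := le4 (by linarith) (by
      rw [Even.pow_abs (by decide), mul_pow, t4]
      linarith [(e_real (k / 2 ^ n) (k0 / 2 ^ n)).1])
    generalize hk : k / 2 ^ n = a at a2
    generalize k0 / 2 ^ n = a0 at a2
    rw [abs_le] at a2
    have a3 : a0 ≤ a + M := by exact_mod_cast (show (a0 : ℝ) ≤ a + M by linarith)
    have a4 : a ≤ a0 + M := by exact_mod_cast (show (a : ℝ) ≤ a0 + M by linarith)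
    exact mem_iUnion.2 ⟨⟨a + M - a0, by omega⟩, k, by simp only [mem_ofPred_eq, hk]; omega, rfl⟩
  · rw [← ENNReal.ofReal_natCast]
    refine ENNReal.ofReal_le_ofReal ?_
    push_cast
    linarith

lemma dim_ge {p : ℕ → ℂ} (h1 : ∀ j k, j ≠ k → 1 / 4 ≤ ‖p j - p k‖)
    (h2 : ∀ n k, k < 2 ^ n → ‖p k - p 0‖ ≤ 21 * 8 ^ n) : ENNReal.ofReal (1 / 3) ≤ dimA (range p) := by
  refine le_iInf fun α => le_iInf fun α0 => le_iInf ?_
  rintro ⟨C, C0, hC⟩
  refine ENNReal.ofReal_le_ofReal (not_lt.1 fun hα => ?_)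
  have h3 : ∀ n : ℕ, (2 : ℝ) ^ n ≤ C * 110 ^ α * (8 ^ α) ^ n := by
    intro n
    have p1 : (1 : ℝ) ≤ 8 ^ n := one_le_pow₀ (by norm_num)
    have a1 := hC _ ⟨0, rfl⟩ (1 / 5) (22 * 8 ^ n) (by norm_num) (by linarith)
    have a2 : ((2 ^ n : ℕ) : ℝ≥0∞) ≤ covN (1 / 5) (Metric.ball (p 0) (22 * 8 ^ n) ∩ range p) := by
      refine le_iInf fun m => le_iInf ?_
      rintro ⟨U, U1, U2⟩
      choose ι hι using fun k : Fin (2 ^ n) => mem_iUnion.1 (U2 (show p k ∈ _ from
        ⟨by rw [Metric.mem_ball, dist_eq_norm]; linarith [h2 n k k.2], k, rfl⟩))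
      have : Function.Injective ι := fun j k hjk => by
        by_contra hne
        have b1 := U1 _ _ (hι j) _ (hjk ▸ hι k)
        rw [dist_eq_norm] at b1
        linarith [h1 j k (Fin.val_ne_of_ne hne)]
      exact Nat.cast_le.2 (by simpa using Fintype.card_le_of_injective ι this)
    have a3 := a2.trans a1
    rw [← ENNReal.ofReal_natCast, ENNReal.ofReal_le_ofReal_iff (by positivity)] at a3
    push_cast at a3
    refine a3.trans (le_of_eq ?_)
    rw [show (22 * 8 ^ n / (1 / 5) : ℝ) = 110 * 8 ^ n by ring, Real.mul_rpow (by norm_num)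
      (by positivity), ← Real.rpow_natCast, ← Real.rpow_natCast, ← Real.rpow_mul (by norm_num),
      ← Real.rpow_mul (by norm_num), mul_comm α, mul_assoc]
  have h4 : (8 : ℝ) ^ α < 2 := by
    refine (Real.rpow_lt_rpow_of_exponent_lt (by norm_num) hα).trans_le (le_of_eq ?_)
    rw [show (8 : ℝ) = 2 ^ (3 : ℝ) by norm_num, ← Real.rpow_mul (by norm_num)]
    norm_num
  have h5 : (0 : ℝ) < 8 ^ α := by positivity
  obtain ⟨n, hn⟩ := ((tendsto_pow_atTop_atTop_of_one_lt ((one_lt_div h5).2 h4)).eventually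
    (eventually_gt_atTop (C * 110 ^ α))).exists
  rw [div_pow, lt_div_iff₀ (by positivity)] at hn
  linarith [h3 n]

theorem main : ∃ (f : ℂ ≃ₜ ℂ) (E : Set ℂ), QC f ∧ (∃ L, LipschitzWith L f) ∧
    dimA E < dimA (f '' E) := by
  obtain ⟨C, hC⟩ := sum_bd
  have s0 : ∀ z : ℂ, Summable fun k => h ‖z - e k‖ := fun z =>
    summable_of_sum_le (fun k => (h_pos _).le) (hC z)
  have m1 : ∀ z z' q : ℂ, h (max ‖z - q‖ ‖z' - q‖) ≤ h ‖z - q‖ := fun z z' q =>
    h_anti (norm_nonneg _) (le_max_left _ _)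
  have s1 : ∀ z z' : ℂ, Summable fun k => h (max ‖z - e k‖ ‖z' - e k‖) := fun z z' =>
    Summable.of_nonneg_of_le (fun k => (h_pos _).le) (fun k => m1 _ _ _) (s0 z)
  let t : ℕ → ℂ → ℂ := fun k z => G (z - e k) - G (0 - e k)
  have s2 : ∀ z, Summable fun k => t k z := fun z => Summable.of_norm_bounded
    (((s1 z 0).mul_left (3 / 2)).mul_right ‖z - 0‖) fun k => up (h_pos _).le (G_chord _ _ _)
  let F : ℂ → ℂ := fun z => ∑' k, t k z
  let Λ : ℂ → ℂ → ℝ := fun z z' => ∑' k, h (max ‖z - e k‖ ‖z' - e k‖)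
  have l1 : ∀ (z z' : ℂ) k, h (max ‖z - e k‖ ‖z' - e k‖) ≤ Λ z z' := fun z z' k =>
    (s1 z z').le_tsum k fun _ _ => (h_pos _).le
  have l0 : ∀ z z', 0 < Λ z z' := fun z z' => (h_pos _).trans_le (l1 z z' 0)
  have l2 : ∀ z z', Λ z z' ≤ C := fun z z' => (s1 z z').tsum_le_of_sum_le fun s =>
    (Finset.sum_le_sum fun k _ => m1 _ _ _).trans (hC z s)
  have ch : ∀ z z', ‖F z - F z' - Λ z z' • (z - z')‖ ≤ 1 / 2 * Λ z z' * ‖z - z'‖ := fun z z' =>
    (((s2 z).hasSum.sub (s2 z').hasSum).sub ((s1 z z').hasSum.smul_const (z - z'))).norm_le_of_bounded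
      (((s1 z z').hasSum.mul_left (1 / 2)).mul_right ‖z - z'‖) fun k => by
        simpa only [t, sub_sub_sub_cancel_right] using G_chord z z' (e k)
  have C0 : 0 ≤ 3 / 2 * C := by linarith [l0 0 0, l2 0 0]
  have hL : LipschitzWith ⟨_, C0⟩ F := LipschitzWith.of_dist_le_mul fun z z' => by
    rw [dist_eq_norm, dist_eq_norm]
    exact (up (l0 _ _).le (ch z z')).trans (mul_le_mul_of_nonneg_right (by
      show _ ≤ 3 / 2 * C
      linarith [l2 z z']) (norm_nonneg _))
  have lw : ∀ (z : ℂ) k s, 1 ≤ ‖z - e k‖ → 2 * s ^ 2 ≤ ‖z - e k‖ → s / 2 ≤ ‖F z - F (e k)‖ := by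
    intro z k s a1 a2
    have a3 := l1 z (e k) k
    rw [sub_self, norm_zero, max_eq_left (norm_nonneg _)] at a3
    linarith [le_h_mul a1 a2, lo (l0 _ _).le (ch z (e k)),
      mul_le_mul_of_nonneg_right a3 (norm_nonneg (z - e k))]
  obtain ⟨f, hf⟩ := homeo hL.continuous (fun z z' => ⟨_, l0 z z', l2 z z', ch z z'⟩)
    (tendsto_cocompact_of_tendsto_dist_comp_atTop (F (e 0)) (tendsto_atTop.2 fun b => by
      filter_upwards [(tendsto_dist_right_cocompact_atTop (e 0 : ℂ)).eventually_ge_atTop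
        (max 1 (2 * (2 * b) ^ 2))] with z hz
      rw [dist_eq_norm, max_le_iff] at hz
      rw [dist_eq_norm]
      linarith [lw z 0 _ hz.1 hz.2]))
  have hd : ∀ x, DifferentiableAt ℝ F x := fun x => by
    obtain ⟨M, hM⟩ := HoB.strict_tsum (f := t) (x := x) one_pos ((s0 x).mul_left 3)
      (fun k => by linarith [h_pos ‖x - e k‖])
      (fun k => ⟨_, (((G_c1.comp (contDiff_id.sub contDiff_const)).sub
        contDiff_const).contDiffAt (x := x)).hasStrictFDerivAt one_ne_zero⟩)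
      (fun k a b ha _ => by
        simp only [t, sub_sub_sub_cancel_right]
        refine (up (h_pos _).le (G_chord _ _ _)).trans (mul_le_mul_of_nonneg_right ?_ (norm_nonneg _))
        have := h_shift (r := ‖a - e k‖) (norm_nonneg (x - e k)) (by
          linarith [norm_sub_le_norm_sub_add_norm_sub x a (e k), norm_sub_rev x a])
        linarith [m1 a b (e k)]) s2
    exact hM.hasFDerivAt.differentiableAt
  have hb : ∀ x, ‖fderiv ℝ F x‖ ≤ 3 / 2 * C := fun x => norm_fderiv_le_of_lipschitz ℝ hL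
  refine ⟨f, range fun k => (e k : ℂ), ?_, ⟨_, hf ▸ hL⟩, dim_le.trans_lt (lt_of_lt_of_le
    ((ENNReal.ofReal_lt_ofReal_iff (q := 1 / 3) (by norm_num)).2 (by norm_num)) ?_)⟩
  · rw [QC, hf]
    refine ⟨Eventually.of_forall hd, ?_, fun φ φ1 φ2 v => ?_, 40, by norm_num,
      Eventually.of_forall fun x => dist_ineq (hd x).hasFDerivAt fun z => cone (l0 _ _).le (ch z x)⟩
    · refine (locallyIntegrable_const ((3 / 2 * C) ^ 2)).mono
        ((measurable_fderiv ℝ F).norm.pow_const 2).aestronglyMeasurable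
        (Eventually.of_forall fun x => ?_)
      rw [Real.norm_of_nonneg (sq_nonneg _), Real.norm_of_nonneg (sq_nonneg _)]
      exact pow_le_pow_left₀ (norm_nonneg _) (hb x) 2
    · have c1 : Continuous fun x => fderiv ℝ φ x v :=
        (φ1.continuous_fderiv (by simp)).clm_apply continuous_const
      refine integral_smul_fderiv_eq_neg_fderiv_smul_of_integrable
        ((c1.smul hL.continuous).integrable_of_hasCompactSupport
          (φ2.fderiv_apply ℝ v).smul_right) ?_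
        ((φ1.continuous.smul hL.continuous).integrable_of_hasCompactSupport φ2.smul_right)
        (fun x _ => φ1.differentiable (by simp) x) fun x _ => hd x
      refine (φ1.continuous.integrable_of_hasCompactSupport φ2).smul_bdd (3 / 2 * C * ‖v‖)
        (measurable_fderiv_apply_const ℝ F v).aestronglyMeasurable
        (Eventually.of_forall fun x => (fderiv ℝ F x).le_of_opNorm_le (hb x) v)
  · rw [← range_comp, hf]
    refine dim_ge (fun j k hjk => ?_) fun n k hk => ?_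
    · have := (e_real j k).2 hjk
      rw [← nd] at this
      have := lw (e j) k (1 / 2) this (by linarith)
      simp only [Function.comp_apply]
      linarith
    · have a1 : (e k : ℝ) ≤ 16 ^ n := by
        have := (e_blk n k).2
        rw [Nat.div_eq_of_lt hk, e0] at this
        exact_mod_cast (show e k ≤ 16 ^ n by omega)
      have a2 : ‖(e k : ℂ) - e 0‖ = e k := by simp [e0]
      refine (up (l0 _ _).le (ch (e k) (e 0))).trans ?_
      rw [a2, mul_assoc]
      suffices Λ (e k) (e 0) * e k ≤ 14 * 8 ^ n by linarith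
      rw [← tsum_mul_right]
      have nn : ∀ j, 0 ≤ h (max ‖(e k : ℂ) - e j‖ ‖(e 0 : ℂ) - e j‖) * e k := fun j =>
        mul_nonneg (h_pos _).le (Nat.cast_nonneg _)
      refine Real.tsum_le_of_sum_range_le nn fun N => ?_
      have p1 : 1 ≤ 2 ^ n := Nat.one_le_two_pow
      refine (Finset.sum_le_sum_of_subset_of_nonneg (t := Finset.range (2 ^ n) ∪
        Finset.Ioo (2 ^ n - 1) N) (fun j hj => by simp at hj ⊢; omega) fun j _ _ => nn j).trans ?_
      rw [Finset.sum_union (Finset.disjoint_left.2 fun j h1 h2 => by simp at h1 h2; omega)]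
      have b1 : ∑ j ∈ Finset.range (2 ^ n), h (max ‖(e k : ℂ) - e j‖ ‖(e 0 : ℂ) - e j‖) * e k
          ≤ 2 * 8 ^ n := by
        refine (Finset.sum_le_card_nsmul _ _ (2 * 4 ^ n) fun j _ => ?_).trans (le_of_eq ?_)
        · have c1 := norm_sub_le ((e k : ℂ) - e j) (e 0 - e j)
          rw [sub_sub_sub_cancel_right, a2] at c1
          have c0 : (0 : ℝ) ≤ e k / 2 := by positivity
          have c2 := h_anti c0 (b := max ‖(e k : ℂ) - e j‖ ‖(e 0 : ℂ) - e j‖) (by
            linarith [le_max_left ‖(e k : ℂ) - e j‖ ‖(e 0 : ℂ) - e j‖,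
              le_max_right ‖(e k : ℂ) - e j‖ ‖(e 0 : ℂ) - e j‖])
          have c3 := h_mul_le c0 (s := 4 ^ n) (by positivity) (by
            rw [← pow_mul, mul_comm, pow_mul]; norm_num; linarith)
          nlinarith [mul_le_mul_of_nonneg_right c2 c0]
        · rw [Finset.card_range, nsmul_eq_mul, show (8 : ℝ) = 2 * 4 by norm_num, mul_pow]
          push_cast; ring
      have b2 : ∑ j ∈ Finset.Ioo (2 ^ n - 1) N, h (max ‖(e k : ℂ) - e j‖ ‖(e 0 : ℂ) - e j‖) * e k
          ≤ 12 * 8 ^ n := by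
        refine (Finset.sum_le_sum (g := fun j : ℕ => 6 * 16 ^ n * ((j : ℝ) ^ 2)⁻¹)
          fun j hj => ?_).trans ?_
        · have c0 : (j : ℝ) ≠ 0 := Nat.cast_ne_zero.2 (by simp at hj; omega)
          have c1 := (e_real 0 j).1
          rw [← nd, Nat.cast_zero, zero_sub, Even.neg_pow (by decide)] at c1
          have c2 := h_sq c0 (r := max ‖(e k : ℂ) - e j‖ ‖(e 0 : ℂ) - e j‖) (by
            linarith [le_max_right ‖(e k : ℂ) - e j‖ ‖(e 0 : ℂ) - e j‖,
              norm_nonneg ((e 0 : ℂ) - e j)])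
          refine (mul_le_mul c2 a1 (Nat.cast_nonneg _) (by positivity)).trans (le_of_eq ?_)
          ring
        · rw [← Finset.mul_sum]
          refine (mul_le_mul_of_nonneg_left (sum_Ioo_inv_sq_le _ _) (by positivity)).trans
            (le_of_eq ?_)
          rw [Nat.cast_sub p1, show (16 : ℝ) = 2 * 8 by norm_num, mul_pow]
          push_cast; field_simp; ring
      linarith

end Pool.Agent.H48.AsB
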