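import Mathlib

set_option autoImplicit false

namespace Pool.Agent.H48.BAlg

universe u v

variable {K : Type u} {V : Type v} [CommRing K] [AddCommGroup V] [Module K V]

/-- The module `V` with the product given by the bilinear map `m`. -/
def Alg (_m : V →ₗ[K] V →ₗ[K] V) : Type v := V

variable (m : V →ₗ[K] V →ₗ[K] V)

instance : AddCommGroup (Alg m) := inferInstanceAs (AddCommGroup V)
instance : Module K (Alg m) := inferInstanceAs (Module K V)

/-- The identity map into the algebra. -/
def mk : V ≃ₗ[K] Alg m := LinearEquiv.refl K V

instance : NonUnitalNonAssocRing (Alg m) where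
  mul a b := mk m (m ((mk m).symm a) ((mk m).symm b))
  left_distrib a b c := by
    change mk m (m _ ((mk m).symm (b + c))) = mk m _ + mk m _
    simp only [map_add]
  right_distrib a b c := by
    change mk m (m ((mk m).symm (a + b)) _) = mk m _ + mk m _
    simp only [map_add, LinearMap.add_apply]
  zero_mul a := by
    change mk m (m ((mk m).symm 0) _) = 0
    simp
  mul_zero a := by
    change mk m (m _ ((mk m).symm 0)) = 0
    simp

theorem mul_def (a b : Alg m) : a * b = mk m (m ((mk m).symm a) ((mk m).symm b)) := rfl

theorem mk_mul (a b : V) : mk m a * mk m b = mk m (m a b) := rfl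

theorem symm_mul (a b : Alg m) : (mk m).symm (a * b) = m ((mk m).symm a) ((mk m).symm b) := rfl

instance : IsScalarTower K (Alg m) (Alg m) where
  smul_assoc k a b := by
    simp only [smul_eq_mul, mul_def, map_smul, LinearMap.smul_apply]

instance : SMulCommClass K (Alg m) (Alg m) where
  smul_comm k a b := by
    simp only [smul_eq_mul, mul_def, map_smul]

end Pool.Agent.H48.BAlg
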