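import Mathlib
import Pool.Agent.H48.BAlg

set_option autoImplicit false

namespace Pool.Agent.H48.Axial

open Pool.Agent.H48.BAlg

variable (F : Type) [Field F]

/-- basis: 0 = a, 1 = b, 2 = s, 3 = a', 4 = b', 5 = s', 6 = u -/
def prod (x y : Fin 7 → F) : Fin 7 → F :=
  ![x 0 * y 0 + 2 * (x 1 * y 2 + x 2 * y 1) + 2 * (x 2 * y 2),
    x 1 * y 1 + 2 * (x 0 * y 2 + x 2 * y 0) + 2 * (x 2 * y 2),
    x 0 * y 1 + x 1 * y 0 + (x 0 * y 2 + x 2 * y 0) + (x 1 * y 2 + x 2 * y 1) + x 2 * y 2,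
    x 3 * y 3 + 2 * (x 4 * y 5 + x 5 * y 4) + 2 * (x 5 * y 5),
    x 4 * y 4 + 2 * (x 3 * y 5 + x 5 * y 3) + 2 * (x 5 * y 5),
    x 3 * y 4 + x 4 * y 3 + (x 3 * y 5 + x 5 * y 3) + (x 4 * y 5 + x 5 * y 4) + x 5 * y 5,
    x 2 * y 2 + x 5 * y 5 + x 6 * y 6]

def pm : (Fin 7 → F) →ₗ[F] (Fin 7 → F) →ₗ[F] (Fin 7 → F) :=
  LinearMap.mk₂ F (prod F)
    (by intro a a' b; ext i; fin_cases i <;> simp [prod] <;> ring)
    (by intro c a b; ext i; fin_cases i <;> simp [prod] <;> ring)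
    (by intro a b b'; ext i; fin_cases i <;> simp [prod] <;> ring)
    (by intro c a b; ext i; fin_cases i <;> simp [prod] <;> ring)

abbrev A : Type := Alg (pm F)

theorem prod_comm (x y : Fin 7 → F) : prod F x y = prod F y x := by
  ext i; fin_cases i <;> simp [prod] <;> ring

instance : NonUnitalNonAssocCommRing (A F) :=
  { (inferInstance : NonUnitalNonAssocRing (Alg (pm F))) with
    mul_comm := fun a b => prod_comm F a b }

def co : A F ≃ₗ[F] (Fin 7 → F) := (mk (pm F)).symm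

instance : FiniteDimensional F (A F) := (co F).symm.finiteDimensional

variable {F}

theorem co_mul (a b : A F) : co F (a * b) = prod F (co F a) (co F b) := rfl

def v (x0 x1 x2 x3 x4 x5 x6 : F) : A F := (co F).symm ![x0, x1, x2, x3, x4, x5, x6]

theorem co_v (x0 x1 x2 x3 x4 x5 x6 : F) :
    co F (v x0 x1 x2 x3 x4 x5 x6) = ![x0, x1, x2, x3, x4, x5, x6] := rfl

theorem eq_v (x : A F) : ∃ x0 x1 x2 x3 x4 x5 x6 : F, x = v x0 x1 x2 x3 x4 x5 x6 := by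
  refine ⟨co F x 0, co F x 1, co F x 2, co F x 3, co F x 4, co F x 5, co F x 6, ?_⟩
  apply (co F).injective
  rw [co_v]
  ext i; fin_cases i <;> rfl

theorem v_inj {x0 x1 x2 x3 x4 x5 x6 y0 y1 y2 y3 y4 y5 y6 : F} :
    v x0 x1 x2 x3 x4 x5 x6 = v y0 y1 y2 y3 y4 y5 y6 ↔
      x0 = y0 ∧ x1 = y1 ∧ x2 = y2 ∧ x3 = y3 ∧ x4 = y4 ∧ x5 = y5 ∧ x6 = y6 := by
  constructor
  · intro h
    have h' := congrArg (co F) h
    rw [co_v, co_v] at h'
    exact ⟨congrFun h' 0, congrFun h' 1, congrFun h' 2, congrFun h' 3, congrFun h' 4,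
      congrFun h' 5, congrFun h' 6⟩
  · rintro ⟨rfl, rfl, rfl, rfl, rfl, rfl, rfl⟩; rfl

theorem v_mul (x0 x1 x2 x3 x4 x5 x6 y0 y1 y2 y3 y4 y5 y6 : F) :
    v x0 x1 x2 x3 x4 x5 x6 * v y0 y1 y2 y3 y4 y5 y6 =
      v (x0 * y0 + 2 * (x1 * y2 + x2 * y1) + 2 * (x2 * y2))
        (x1 * y1 + 2 * (x0 * y2 + x2 * y0) + 2 * (x2 * y2))
        (x0 * y1 + x1 * y0 + (x0 * y2 + x2 * y0) + (x1 * y2 + x2 * y1) + x2 * y2)
        (x3 * y3 + 2 * (x4 * y5 + x5 * y4) + 2 * (x5 * y5))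
        (x4 * y4 + 2 * (x3 * y5 + x5 * y3) + 2 * (x5 * y5))
        (x3 * y4 + x4 * y3 + (x3 * y5 + x5 * y3) + (x4 * y5 + x5 * y4) + x5 * y5)
        (x2 * y2 + x5 * y5 + x6 * y6) := rfl

theorem v_add (x0 x1 x2 x3 x4 x5 x6 y0 y1 y2 y3 y4 y5 y6 : F) :
    v x0 x1 x2 x3 x4 x5 x6 + v y0 y1 y2 y3 y4 y5 y6 =
      v (x0 + y0) (x1 + y1) (x2 + y2) (x3 + y3) (x4 + y4) (x5 + y5) (x6 + y6) := by
  apply (co F).injective
  rw [map_add]
  simp only [co_v]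
  ext i; fin_cases i <;> rfl

theorem v_smul (c x0 x1 x2 x3 x4 x5 x6 : F) :
    c • v x0 x1 x2 x3 x4 x5 x6 =
      v (c * x0) (c * x1) (c * x2) (c * x3) (c * x4) (c * x5) (c * x6) := by
  apply (co F).injective
  rw [map_smul]
  simp only [co_v]
  ext i; fin_cases i <;> rfl

theorem v_zero : (0 : A F) = v 0 0 0 0 0 0 0 := by
  apply (co F).injective
  rw [map_zero, co_v]
  ext i; fin_cases i <;> rfl

def a : A F := v 1 0 0 0 0 0 0
def b : A F := v 0 1 0 0 0 0 0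
def s : A F := v 0 0 1 0 0 0 0
def a' : A F := v 0 0 0 1 0 0 0
def b' : A F := v 0 0 0 0 1 0 0
def s' : A F := v 0 0 0 0 0 1 0
def u : A F := v 0 0 0 0 0 0 1

/-- permutation of coordinates -/
def perm (σ : Equiv.Perm (Fin 7)) : A F ≃ₗ[F] A F :=
  (co F).trans ((LinearEquiv.funCongrLeft F F σ).trans (co F).symm)

theorem co_perm (σ : Equiv.Perm (Fin 7)) (x : A F) : co F (perm σ x) = fun i => co F x (σ i) := rfl

def σ1 : Equiv.Perm (Fin 7) := Equiv.swap 0 1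
def σ2 : Equiv.Perm (Fin 7) := Equiv.swap 0 3 * Equiv.swap 1 4 * Equiv.swap 2 5

theorem perm1_v (x0 x1 x2 x3 x4 x5 x6 : F) :
    perm σ1 (v x0 x1 x2 x3 x4 x5 x6) = v x1 x0 x2 x3 x4 x5 x6 := by
  apply (co F).injective
  rw [co_perm, co_v, co_v]
  ext i; fin_cases i <;> rfl

theorem perm2_v (x0 x1 x2 x3 x4 x5 x6 : F) :
    perm σ2 (v x0 x1 x2 x3 x4 x5 x6) = v x3 x4 x5 x0 x1 x2 x6 := by
  apply (co F).injective
  rw [co_perm, co_v, co_v]
  ext i; fin_cases i <;> rfl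

theorem perm1_mul (x y : A F) : perm σ1 (x * y) = perm σ1 x * perm σ1 y := by
  obtain ⟨x0, x1, x2, x3, x4, x5, x6, rfl⟩ := eq_v x
  obtain ⟨y0, y1, y2, y3, y4, y5, y6, rfl⟩ := eq_v y
  simp only [v_mul, perm1_v]
  rw [v_inj]
  refine ⟨?_, ?_, ?_, ?_, ?_, ?_, ?_⟩ <;> ring

theorem perm2_mul (x y : A F) : perm σ2 (x * y) = perm σ2 x * perm σ2 y := by
  obtain ⟨x0, x1, x2, x3, x4, x5, x6, rfl⟩ := eq_v x
  obtain ⟨y0, y1, y2, y3, y4, y5, y6, rfl⟩ := eq_v y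
  simp only [v_mul, perm2_v]
  rw [v_inj]
  refine ⟨?_, ?_, ?_, ?_, ?_, ?_, ?_⟩ <;> ring

/-- a submodule closed under multiplication by arbitrary elements -/
def Idl (I : Submodule F (A F)) : Prop := ∀ x ∈ I, ∀ y : A F, y * x ∈ I

theorem idl_a {I : Submodule F (A F)} [CharZero F] (hI : Idl I) (h : a ∈ I) :
    b ∈ I ∧ s ∈ I ∧ u ∈ I := by
  have hs : s ∈ I := by
    have := hI _ h b
    convert this using 1
    simp [a, b, s, v_mul]
  have hb : b ∈ I := by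
    have := I.smul_mem (1 / 2 : F) (I.add_mem (hI _ hs a) (I.smul_mem (-1) hs))
    convert this using 1
    simp [a, b, s, v_mul, v_add, v_smul, -neg_smul]
  refine ⟨hb, hs, ?_⟩
  have := I.add_mem (I.add_mem (I.add_mem (hI _ hs s) (I.smul_mem (-1) hs)) (I.smul_mem (-2) h))
    (I.smul_mem (-2) hb)
  convert this using 1
  simp [a, b, s, u, v_mul, v_add, v_smul, -neg_smul]

theorem idl_a' {I : Submodule F (A F)} [CharZero F] (hI : Idl I) (h : a' ∈ I) :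
    b' ∈ I ∧ s' ∈ I ∧ u ∈ I := by
  have hs : s' ∈ I := by
    have := hI _ h b'
    convert this using 1
    simp [a', b', s', v_mul]
  have hb : b' ∈ I := by
    have := I.smul_mem (1 / 2 : F) (I.add_mem (hI _ hs a') (I.smul_mem (-1) hs))
    convert this using 1
    simp [a', b', s', v_mul, v_add, v_smul, -neg_smul]
  refine ⟨hb, hs, ?_⟩
  have := I.add_mem (I.add_mem (I.add_mem (hI _ hs s') (I.smul_mem (-1) hs)) (I.smul_mem (-2) h))
    (I.smul_mem (-2) hb)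
  convert this using 1
  simp [a', b', s', u, v_mul, v_add, v_smul, -neg_smul]

theorem top_of {I : Submodule F (A F)} (h0 : a ∈ I) (h1 : b ∈ I) (h2 : s ∈ I) (h3 : a' ∈ I)
    (h4 : b' ∈ I) (h5 : s' ∈ I) (h6 : u ∈ I) : I = ⊤ := by
  rw [eq_top_iff]
  intro x _
  obtain ⟨x0, x1, x2, x3, x4, x5, x6, rfl⟩ := eq_v x
  have := I.add_mem (I.add_mem (I.add_mem (I.add_mem (I.add_mem (I.add_mem (I.smul_mem x0 h0)
    (I.smul_mem x1 h1)) (I.smul_mem x2 h2)) (I.smul_mem x3 h3)) (I.smul_mem x4 h4))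
    (I.smul_mem x5 h5)) (I.smul_mem x6 h6)
  convert this using 1
  simp [a, b, s, a', b', s', u, v_add, v_smul]

theorem idl_coord0 {I : Submodule F (A F)} [CharZero F] (hI : Idl I) {x : A F} (hx : x ∈ I)
    (h : co F x 0 ≠ 0) : a ∈ I := by
  obtain ⟨x0, x1, x2, x3, x4, x5, x6, rfl⟩ := eq_v x
  have h' : x0 ≠ 0 := h
  have h1 := hI _ hx a
  have h2 := hI _ h1 a
  have h3 := hI _ h2 a
  have := I.smul_mem (-1 / (2 * x0))
    (I.add_mem (I.add_mem h3 (I.smul_mem (-1) h2)) (I.smul_mem (-2) h1))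
  convert this using 1
  simp only [a, v_mul, v_add, v_smul, v_inj]
  refine ⟨?_, ?_, ?_, ?_, ?_, ?_, ?_⟩ <;> field_simp <;> ring

theorem idl_coord3 {I : Submodule F (A F)} [CharZero F] (hI : Idl I) {x : A F} (hx : x ∈ I)
    (h : co F x 3 ≠ 0) : a' ∈ I := by
  obtain ⟨x0, x1, x2, x3, x4, x5, x6, rfl⟩ := eq_v x
  have h' : x3 ≠ 0 := h
  have h1 := hI _ hx a'
  have h2 := hI _ h1 a'
  have h3 := hI _ h2 a'
  have := I.smul_mem (-1 / (2 * x3))
    (I.add_mem (I.add_mem h3 (I.smul_mem (-1) h2)) (I.smul_mem (-2) h1))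
  convert this using 1
  simp only [a', v_mul, v_add, v_smul, v_inj]
  refine ⟨?_, ?_, ?_, ?_, ?_, ?_, ?_⟩ <;> field_simp <;> ring

theorem ann_zero [CharZero F] {x : A F} (h : ∀ y : A F, y * x = 0) : x = 0 := by
  obtain ⟨x0, x1, x2, x3, x4, x5, x6, rfl⟩ := eq_v x
  have h0 := h a
  have h3 := h a'
  have h6 := h u
  simp only [a, a', u, v_mul, v_zero, v_inj] at h0 h3 h6 ⊢
  simp at h0 h3 h6
  obtain ⟨e0, e2, e1⟩ := h0
  obtain ⟨e3, e5, e4⟩ := h3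
  simp_all

theorem exists_coord {ι : Type} (I : ι → Submodule F (A F)) (h : ⨆ i, I i = ⊤) (k : Fin 7) :
    ∃ i, ∃ x ∈ I i, co F x k ≠ 0 := by
  by_contra hc
  push Not at hc
  have hle : ⨆ i, I i ≤ LinearMap.ker ((LinearMap.proj k).comp (co F).toLinearMap) :=
    iSup_le fun i x hx => hc i x hx
  rw [h] at hle
  have := hle (Submodule.mem_top (x := (co F).symm (Pi.single k 1)))
  simp at this

/-- Any family of ideals that spans the algebra and annihilates pairwise is trivial. -/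
theorem family [CharZero F] {ι : Type} (I : ι → Submodule F (A F)) (hI : ∀ i, Idl (I i))
    (h : ⨆ i, I i = ⊤) (hz : ∀ i j, i ≠ j → ∀ x ∈ I i, ∀ y ∈ I j, x * y = 0) :
    ∃ i, I i = ⊤ ∧ ∀ j, j ≠ i → I j = ⊥ := by
  obtain ⟨i, x, hx, hx0⟩ := exists_coord I h 0
  obtain ⟨j, y, hy, hy0⟩ := exists_coord I h 3
  have ha := idl_coord0 (hI i) hx hx0
  have ha' := idl_coord3 (hI j) hy hy0
  obtain ⟨hb, hs, hu⟩ := idl_a (hI i) ha
  obtain ⟨hb', hs', hu'⟩ := idl_a' (hI j) ha'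
  have hij : i = j := by
    by_contra hne
    have := hz i j hne _ hu _ hu'
    simp [u, v_mul, v_zero, v_inj] at this
  subst hij
  have ht := top_of ha hb hs ha' hb' hs' hu
  refine ⟨i, ht, fun j hj => ?_⟩
  rw [eq_bot_iff]
  intro z hz'
  rw [Submodule.mem_bot]
  exact ann_zero fun w => hz i j (Ne.symm hj) w (by simp [ht]) z hz'

end Pool.Agent.H48.Axial
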