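import Mathlib

set_option autoImplicit false

namespace Pool.Agent.H48.BB

variable {V : Type} [AddCommGroup V] [Module ℚ V]

/-- Localization of a lattice at `p`. -/
def I (L : AddSubgroup V) (p : ℕ) : AddSubgroup V where
  carrier := {v | ∃ m : ℕ, m.Coprime p ∧ (m : ℚ) • v ∈ L}
  zero_mem' := ⟨1, by simp, by simp⟩
  add_mem' := by
    rintro v w ⟨m, h1, h2⟩ ⟨n, h3, h4⟩
    refine ⟨m * n, Nat.Coprime.mul_left h1 h3, ?_⟩
    have := L.add_mem (L.nsmul_mem h2 n) (L.nsmul_mem h4 m)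
    rw [← Nat.cast_smul_eq_nsmul ℚ, ← Nat.cast_smul_eq_nsmul ℚ, smul_smul, smul_smul,
      mul_comm (n : ℚ), ← smul_add] at this
    rwa [Nat.cast_mul]
  neg_mem' := by
    rintro v ⟨m, h1, h2⟩
    exact ⟨m, h1, by rw [smul_neg]; exact L.neg_mem h2⟩

theorem I_of {L : AddSubgroup V} (p : ℕ) {v : V} (h : v ∈ L) : v ∈ I L p := ⟨1, by simp, by simpa⟩

theorem I_div {L : AddSubgroup V} {p q : ℕ} (hq : q ≠ 0) (h : q.Coprime p) {v : V}
    (hv : v ∈ I L p) : (q : ℚ)⁻¹ • v ∈ I L p := by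
  obtain ⟨m, h1, h2⟩ := hv
  refine ⟨m * q, Nat.Coprime.mul_left h1 h, ?_⟩
  rwa [smul_smul, Nat.cast_mul, mul_assoc, mul_inv_cancel₀ (by exact_mod_cast hq), mul_one]

/-- Operators that are integral away from two. -/
def Good (L : AddSubgroup V) (α : Module.End ℚ V) : Prop :=
  ∃ c : ℕ, ∀ v ∈ L, ((2 ^ c : ℕ) : ℚ) • α v ∈ L

theorem Good.map {L : AddSubgroup V} {α : Module.End ℚ V} (h : Good L α) {p : ℕ}
    (hp : Nat.Coprime 2 p) {v : V} (hv : v ∈ I L p) : α v ∈ I L p := by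
  obtain ⟨c, hc⟩ := h
  obtain ⟨m, h1, h2⟩ := hv
  refine ⟨2 ^ c * m, Nat.Coprime.mul_left (hp.pow_left c) h1, ?_⟩
  have := hc _ h2
  rwa [map_smul, smul_smul, ← Nat.cast_mul] at this

theorem rat_red {p : ℕ} (hp : p.Prime) {r : ℚ}
    (h : ∀ n : ℕ, ∃ m : ℕ, m.Coprime p ∧ ∃ z : ℤ, m * (((p ^ n : ℕ) : ℚ)⁻¹ * r) = z) : r = 0 := by
  obtain ⟨m, h1, z, h2⟩ := h r.num.natAbs
  have h0 : ((p ^ r.num.natAbs : ℕ) : ℚ) ≠ 0 := by exact_mod_cast pow_ne_zero _ hp.ne_zero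
  have h3 : (m : ℚ) * r.num = (p ^ r.num.natAbs : ℕ) * (z * r.den) := by
    rw [← h2, ← Rat.mul_den_eq_num]
    field_simp
  have h4 : (m : ℤ) * r.num = (p ^ r.num.natAbs : ℕ) * (z * r.den) := by exact_mod_cast h3
  have h5 : p ^ r.num.natAbs ∣ m * r.num.natAbs := by
    have := Int.natAbs_dvd_natAbs.mpr (Dvd.intro _ h4.symm)
    simpa [Int.natAbs_mul] using this
  have h6 := Nat.eq_zero_of_dvd_of_lt ((h1.symm.pow_left _).dvd_of_dvd_mul_left h5)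
    (Nat.lt_pow_self hp.one_lt)
  simpa using h6

/-- The lattice of vectors with integral coordinates. -/
def lat {J : Type} (l : J → V →ₗ[ℚ] ℚ) : AddSubgroup V where
  carrier := {v | ∀ j, ∃ z : ℤ, l j v = z}
  zero_mem' := fun _ => ⟨0, by simp⟩
  add_mem' := fun hv hw j => by
    obtain ⟨z, hz⟩ := hv j
    obtain ⟨z', hz'⟩ := hw j
    exact ⟨z + z', by simp [hz, hz']⟩
  neg_mem' := fun hv j => by
    obtain ⟨z, hz⟩ := hv j
    exact ⟨-z, by simp [hz]⟩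

theorem lat_red {J : Type} {l : J → V →ₗ[ℚ] ℚ} (sep : ∀ v, (∀ j, l j v = 0) → v = 0) (p : ℕ)
    (hp : p.Prime) (v : V) (h : ∀ n : ℕ, ((p ^ n : ℕ) : ℚ)⁻¹ • v ∈ I (lat l) p) : v = 0 := by
  refine sep v fun j => rat_red hp fun n => ?_
  obtain ⟨m, h1, h2⟩ := h n
  obtain ⟨z, hz⟩ := h2 j
  exact ⟨m, h1, z, by simpa using hz⟩

variable {K : Type} [Countable K]

/-- The primes. -/
noncomputable def pr (i : K ⊕ Fin 3) : ℕ :=
  Nat.nth Nat.Prime ((Encodable.ofCountable (K ⊕ Fin 3)).encode i + 3)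

theorem pr_prime (i : K ⊕ Fin 3) : (pr i).Prime := Nat.prime_nth_prime _

theorem pr_ge (i : K ⊕ Fin 3) : 5 ≤ pr i := le_trans (by omega) (Nat.add_two_le_nth_prime _)

theorem pr_cop {i j : K ⊕ Fin 3} (h : i ≠ j) : (pr i).Coprime (pr j) :=
  (Nat.coprime_primes (pr_prime i) (pr_prime j)).mpr fun e => h
    ((Encodable.ofCountable (K ⊕ Fin 3)).encode_injective (Nat.add_right_cancel
      (Nat.nth_injective Nat.infinite_setOfPred_prime e)))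

theorem pr_two (i : K ⊕ Fin 3) : Nat.Coprime 2 (pr i) :=
  (Nat.coprime_primes Nat.prime_two (pr_prime i)).mpr (by have := pr_ge i; omega)

theorem pr_three (i : K ⊕ Fin 3) : (pr i).Coprime 3 :=
  (Nat.coprime_primes (pr_prime i) Nat.prime_three).mpr (by have := pr_ge i; omega)

/-- The projections. -/
def π (T : K → Module.End ℚ V) : K ⊕ Fin 3 → V × V →ₗ[ℚ] V
  | .inl k => .snd ℚ V V - T k ∘ₗ .fst ℚ V V
  | .inr 0 => .fst ℚ V V
  | .inr 1 => .snd ℚ V V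
  | .inr 2 => .snd ℚ V V - .fst ℚ V V

/-- The group. -/
def G (L : AddSubgroup V) (T : K → Module.End ℚ V) : AddSubgroup (V × V) where
  carrier := {v | (∀ i, π T i v ∈ I L (pr i)) ∧ v.1 ∈ I L 3 ∧ v.2 ∈ I L 3}
  zero_mem' := ⟨fun i => by simp, zero_mem _, zero_mem _⟩
  add_mem' := fun hv hw => ⟨fun i => by rw [map_add]; exact add_mem (hv.1 i) (hw.1 i),
    add_mem hv.2.1 hw.2.1, add_mem hv.2.2 hw.2.2⟩
  neg_mem' := fun hv => ⟨fun i => by rw [map_neg]; exact neg_mem (hv.1 i), neg_mem hv.2.1,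
    neg_mem hv.2.2⟩

variable {L : AddSubgroup V} {T : K → Module.End ℚ V}

theorem G_of (hT : ∀ k, ∀ v ∈ L, T k v ∈ L) {v : V × V} (h1 : v.1 ∈ L) (h2 : v.2 ∈ L) :
    v ∈ G L T := by
  refine ⟨fun i => I_of _ ?_, I_of _ h1, I_of _ h2⟩
  match i with
  | .inl k => exact sub_mem h2 (hT k _ h1)
  | .inr 0 => exact h1
  | .inr 1 => exact h2
  | .inr 2 => exact sub_mem h2 h1

theorem G_span (hT : ∀ k, ∀ v ∈ L, T k v ∈ L) (sp : ∀ v, ∃ N : ℕ, N ≠ 0 ∧ (N : ℚ) • v ∈ L)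
    (v : V × V) : ∃ N : ℚ, N ≠ 0 ∧ N • v ∈ G L T := by
  obtain ⟨m, h1, h2⟩ := sp v.1
  obtain ⟨n, h3, h4⟩ := sp v.2
  refine ⟨m * n, by positivity, G_of hT ?_ ?_⟩
  · have := L.nsmul_mem h2 n
    rwa [← Nat.cast_smul_eq_nsmul ℚ, smul_smul, mul_comm] at this
  · have := L.nsmul_mem h4 m
    rwa [← Nat.cast_smul_eq_nsmul ℚ, smul_smul] at this

theorem G_div (i : K ⊕ Fin 3) {v : V × V} (hv : v ∈ G L T) (h : π T i v = 0) (n : ℕ) :
    ((pr i ^ n : ℕ) : ℚ)⁻¹ • v ∈ G L T := by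
  have h0 := pow_ne_zero n (pr_prime i).ne_zero
  refine ⟨fun j => ?_, I_div h0 ((pr_three i).pow_left n) hv.2.1,
    I_div h0 ((pr_three i).pow_left n) hv.2.2⟩
  rw [map_smul]
  by_cases e : i = j
  · subst e
    rw [h, smul_zero]
    exact zero_mem _
  · exact I_div h0 ((pr_cop e).pow_left n) (hv.1 j)

theorem ext_ex (hT : ∀ k, ∀ v ∈ L, T k v ∈ L) (sp : ∀ v, ∃ N : ℕ, N ≠ 0 ∧ (N : ℚ) • v ∈ L)
    (red : ∀ p : ℕ, p.Prime → ∀ v, (∀ n : ℕ, ((p ^ n : ℕ) : ℚ)⁻¹ • v ∈ I L p) → v = 0)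
    (ψ : AddMonoid.End (G L T)) : ∃ α : Module.End ℚ V, (∀ k, α * T k = T k * α) ∧
      ∀ x : G L T, (ψ x).1 = (α x.1.1, α x.1.2) := by
  let _ : DivisibleBy (V × V) ℤ := ⟨fun v n => (n : ℚ)⁻¹ • v, by simp, fun {n} v hn => by
    rw [← Int.cast_smul_eq_zsmul ℚ, smul_smul, mul_inv_cancel₀ (by exact_mod_cast hn), one_smul]⟩
  obtain ⟨Ψ₀, h0⟩ := (Module.Baer.of_divisible (V × V)).extension_property_addMonoidHom
    (G L T).subtype Subtype.val_injective ((G L T).subtype.comp ψ)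
  set Ψ := Ψ₀.toRatLinearMap
  have h1 : ∀ x : G L T, Ψ x = ψ x := fun x => DFunLike.congr_fun h0 x
  have h2 : ∀ i v, π T i v = 0 → π T i (Ψ v) = 0 := fun i v hv => by
    obtain ⟨N, h3, h4⟩ := G_span hT sp v
    have h5 : π T i (Ψ (N • v)) = 0 := red _ (pr_prime i) _ fun n => by
      rw [← map_smul, ← map_smul, h1 ⟨_, G_div i h4 (by rw [map_smul, hv, smul_zero]) n⟩]
      exact (ψ _).2.1 i
    rwa [map_smul, map_smul, smul_eq_zero, or_iff_right h3] at h5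
  let α : Module.End ℚ V := .fst ℚ V V ∘ₗ Ψ ∘ₗ .inl ℚ V V
  have h3 : ∀ a, Ψ (a, 0) = (α a, 0) := fun a => Prod.ext rfl (h2 (.inr 1) (a, 0) rfl)
  have h4 : ∀ a, Ψ (0, a) = (0, α a) := fun a => by
    have e1 : (Ψ (0, a)).1 = 0 := h2 (.inr 0) (0, a) rfl
    have e2 : (Ψ (a, a)).2 - (Ψ (a, a)).1 = 0 := h2 (.inr 2) (a, a) (sub_self a)
    rw [show (a, a) = (a, (0 : V)) + (0, a) by simp, map_add, h3] at e2
    exact Prod.ext e1 (by simpa [e1, sub_eq_zero] using e2)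
  have h5 : ∀ a b, Ψ (a, b) = (α a, α b) := fun a b => by
    rw [show (a, b) = (a, (0 : V)) + (0, b) by simp, map_add, h3, h4]
    simp
  refine ⟨α, fun k => LinearMap.ext fun a => ?_, fun x => by rw [← h1, ← h5]⟩
  have := h2 (.inl k) (a, T k a) (sub_self _)
  rw [h5] at this
  exact sub_eq_zero.mp this

/-- The endomorphism induced by a good operator. -/
def ind (α : Module.End ℚ V) (h : ∀ k, α * T k = T k * α) (hα : Good L α) :
    AddMonoid.End (G L T) :=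
  ((α.prodMap α).toAddMonoidHom.comp (G L T).subtype).codRestrict (G L T) fun x => by
    refine ⟨fun i => ?_, hα.map (by norm_num) x.2.2.1, hα.map (by norm_num) x.2.2.2⟩
    have : π T i (α x.1.1, α x.1.2) = α (π T i x.1) := by
      match i with
      | .inl k =>
        exact (congrArg (α x.1.2 - ·) (LinearMap.congr_fun (h k) x.1.1).symm).trans
          (map_sub α _ _).symm
      | .inr 0 => rfl
      | .inr 1 => rfl
      | .inr 2 => exact (map_sub α _ _).symm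
    exact this ▸ hα.map (pr_two i) (x.2.1 i)

theorem main (hT : ∀ k, ∀ v ∈ L, T k v ∈ L) (sp : ∀ v, ∃ N : ℕ, N ≠ 0 ∧ (N : ℚ) • v ∈ L)
    (red : ∀ p : ℕ, p.Prime → ∀ v, (∀ n : ℕ, ((p ^ n : ℕ) : ℚ)⁻¹ • v ∈ I L p) → v = 0) :
    ∃ Φ : AddMonoid.End (G L T) →+* Module.End ℚ V, Function.Injective Φ ∧
      (∀ ψ k, Φ ψ * T k = T k * Φ ψ) ∧
      ∀ α, (∀ k, α * T k = T k * α) → Good L α → ∃ ψ, Φ ψ = α := by
  choose Φ h1 h2 using ext_ex hT sp red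
  have u : ∀ ψ α, (∀ x : G L T, (ψ x).1.1 = α x.1.1) → Φ ψ = α := fun ψ α h =>
    LinearMap.ext fun a => by
      obtain ⟨N, h3, h4⟩ := G_span hT sp (a, 0)
      have := h ⟨_, h4⟩
      rw [h2] at this
      simpa [h3] using this
  refine ⟨⟨⟨⟨Φ, u _ _ fun _ => rfl⟩, fun ψ φ => u _ _ fun x => ?_⟩, u _ _ fun _ => rfl,
    fun ψ φ => u _ _ fun x => ?_⟩, fun ψ φ (e : Φ ψ = Φ φ) => ?_, h1,
    fun α h hα => ⟨ind α h hα, u _ _ fun _ => rfl⟩⟩
  · change (ψ (φ x)).1.1 = _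
    rw [h2, h2]
    rfl
  · change (ψ x).1.1 + (φ x).1.1 = _
    rw [h2, h2]
    rfl
  · exact AddMonoidHom.ext fun x => Subtype.ext ((h2 ψ x).trans (e ▸ (h2 φ x).symm))

end Pool.Agent.H48.BB
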