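import Mathlib

set_option autoImplicit false

namespace Pool.Agent.H48.BSDefs

/-- `bs r n` says `b^(r)_n = 1`: cutting the binary digits of `n` at the digits `1` leaves the
maximal blocks of zeros (and empty blocks), and each has length divisible by `r`. -/
def bs (r n : ℕ) : Prop := ∀ l ∈ (Nat.digits 2 n).splitOn 1, r ∣ l.length

/-- The increasing enumeration of the zeros of `b^(r)`. -/
noncomputable def hz (r n : ℕ) : ℕ := Nat.nth (fun m => ¬ bs r m) n

/-- `u` is `k`-regular: the `ℤ`-module spanned by its `k`-kernel is finitely generated. -/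
def Regular (k : ℕ) (u : ℕ → ℤ) : Prop :=
  (Submodule.span ℤ {v : ℕ → ℤ | ∃ i j : ℕ, j < k ^ i ∧ v = fun n => u (k ^ i * n + j)}).FG

end Pool.Agent.H48.BSDefs
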