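import Mathlib
import Pool.Agent.H48.BSDefs

set_option autoImplicit false

namespace Pool.Agent.H48.BS

open BSDefs Classical

variable {r : ℕ}

theorem bs_zero : bs r 0 := by simp [bs]

theorem bs_key (t y : ℕ) : bs r (2 ^ t * (2 * y + 1)) ↔ r ∣ t ∧ bs r y := by
  have e : Nat.digits 2 (2 * y + 1) = 1 :: Nat.digits 2 y := by
    rw [add_comm]
    exact Nat.digits_add 2 (by norm_num) 1 y (by norm_num) (Or.inl one_ne_zero)
  rw [bs, Nat.digits_base_pow_mul (by norm_num) (by omega), e, List.splitOn,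
    List.splitOnP_append_cons_of_forall_mem (by simp) _ (by simp)]
  simp [bs, List.splitOn]

theorem bs_odd (y : ℕ) : bs r (2 * y + 1) ↔ bs r y := by simpa using bs_key (r := r) 0 y

theorem bs_pow (t : ℕ) : bs r (2 ^ t) ↔ r ∣ t := by simpa [bs_zero] using bs_key (r := r) t 0

theorem decomp {v : ℕ} (hv : v ≠ 0) : ∃ t y, v = 2 ^ t * (2 * y + 1) := by
  obtain ⟨t, m, ⟨y, rfl⟩, h⟩ := Nat.exists_eq_two_pow_mul_odd hv
  exact ⟨t, y, h⟩

theorem bs_prod (w c : ℕ) : ∀ v < 2 ^ c,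
    bs r (2 ^ c * (2 * w + 1) + v) ↔ bs r w ∧ bs r (2 ^ c + v) := by
  induction c using Nat.strong_induction_on with
  | _ c ih =>
  intro v hv
  by_cases h0 : v = 0
  · subst h0
    rw [add_zero, add_zero, bs_key, bs_pow, and_comm]
  · obtain ⟨t, y, rfl⟩ := decomp h0
    have h1 : t < c := by
      by_contra hc
      have : 2 ^ c ≤ 2 ^ t := Nat.pow_le_pow_right (by norm_num) (by omega)
      nlinarith [Nat.zero_le (2 ^ t * (2 * y))]
    obtain ⟨d, rfl⟩ : ∃ d, c = t + 1 + d := ⟨c - t - 1, by omega⟩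
    have h2 : y < 2 ^ d := by
      have : 2 ^ (t + 1 + d) = 2 ^ t * (2 * 2 ^ d) := by ring
      rw [this] at hv
      have := Nat.lt_of_mul_lt_mul_left hv
      omega
    have e1 : 2 ^ (t + 1 + d) * (2 * w + 1) + 2 ^ t * (2 * y + 1)
        = 2 ^ t * (2 * (2 ^ d * (2 * w + 1) + y) + 1) := by ring
    have e2 : 2 ^ (t + 1 + d) + 2 ^ t * (2 * y + 1) = 2 ^ t * (2 * (2 ^ d + y) + 1) := by ring
    rw [e1, e2, bs_key, bs_key, ih d (by omega) y h2]
    tauto

theorem bs_ones (a : ℕ) : bs r (2 ^ a - 1) := by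
  induction a with
  | zero => exact bs_zero
  | succ a ih =>
    have : 2 ^ (a + 1) - 1 = 2 * (2 ^ a - 1) + 1 := by
      have := Nat.one_le_two_pow (n := a)
      rw [pow_succ]; omega
    rw [this, bs_odd]
    exact ih

theorem not_bs_two (hr : 2 ≤ r) (y : ℕ) : ¬ bs r (4 * y + 2) := by
  have : 4 * y + 2 = 2 ^ 1 * (2 * y + 1) := by ring
  rw [this, bs_key]
  rintro ⟨h, -⟩
  have := Nat.le_of_dvd one_pos h
  omega

theorem not_bs_five (hr : 2 ≤ r) {a m : ℕ} (h1 : 5 * 2 ^ a ≤ m) (h2 : m < 6 * 2 ^ a) :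
    ¬ bs r m := by
  have e : m = 2 ^ a * (2 * 2 + 1) + (m - 5 * 2 ^ a) := by omega
  rw [e, bs_prod _ _ _ (by omega)]
  exact fun h => not_bs_two hr 0 h.1

theorem bs_small {c v : ℕ} (h1 : 2 * v < 2 ^ c) (h2 : bs r (2 ^ c + v)) : 2 ^ r * v ≤ 2 ^ c := by
  by_cases h0 : v = 0
  · simp [h0]
  have k1 := Nat.pow_log_le_self 2 h0
  have k2 := Nat.lt_pow_succ_log_self (b := 2) (by norm_num) v
  generalize Nat.log 2 v = e at k1 k2
  have k3 : e + 1 < c := by
    have : 2 ^ (e + 1) < 2 ^ c := by rw [pow_succ]; omega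
    exact (Nat.pow_lt_pow_iff_right (by norm_num)).mp this
  obtain ⟨d, rfl⟩ : ∃ d, c = e + 1 + (d + 1) := ⟨c - e - 2, by omega⟩
  have e1 : 2 ^ (e + 1 + (d + 1)) + v = 2 ^ e * (2 * 2 ^ (d + 1) + 1) + (v - 2 ^ e) := by
    have : 2 ^ (e + 1 + (d + 1)) = 2 ^ e * (2 * 2 ^ (d + 1)) := by ring
    rw [this, mul_add]
    omega
  rw [e1, bs_prod _ _ _ (by rw [pow_succ] at k2; omega), bs_pow] at h2
  have k4 := Nat.le_of_dvd (by omega) h2.1
  calc 2 ^ r * v ≤ 2 ^ (d + 1) * 2 ^ (e + 1) :=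
        Nat.mul_le_mul (Nat.pow_le_pow_right (by norm_num) k4) k2.le
    _ = _ := by ring

/-- The number of ones below `x`. -/
noncomputable def P (r x : ℕ) : ℕ := Nat.count (bs r) x

/-- The number of zeros below `x`. -/
noncomputable def Z (r x : ℕ) : ℕ := Nat.count (fun m => ¬ bs r m) x

theorem PZ (x : ℕ) : P r x + Z r x = x := by
  induction x with
  | zero => simp [P, Z]
  | succ x ih =>
    simp only [P, Z, Nat.count_succ] at ih ⊢
    split_ifs <;> omega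

theorem P_mono {x y : ℕ} (h : x ≤ y) : P r x ≤ P r y := Nat.count_monotone _ h

theorem Z_mono {x y : ℕ} (h : x ≤ y) : Z r x ≤ Z r y := Nat.count_monotone _ h

theorem P_succ (x : ℕ) : P r (x + 1) = P r x + if bs r x then 1 else 0 := Nat.count_succ _ x

theorem P_window (w c : ℕ) :
    P r (2 ^ c * (2 * w + 1) + 2 ^ c) ≤ P r (2 ^ c * (2 * w + 1)) + P r (2 ^ (c + 1)) := by
  have e : 2 ^ (c + 1) = 2 ^ c + 2 ^ c := by ring
  rw [e, P, P, P, Nat.count_add, Nat.count_add]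
  have : Nat.count (fun k => bs r (2 ^ c * (2 * w + 1) + k)) (2 ^ c)
      ≤ Nat.count (fun k => bs r (2 ^ c + k)) (2 ^ c) := by
    rw [Nat.count_eq_card_filter_range, Nat.count_eq_card_filter_range]
    refine Finset.card_le_card fun v hv => ?_
    simp only [Finset.mem_filter, Finset.mem_range] at hv ⊢
    exact ⟨hv.1, ((bs_prod w c v hv.1).mp hv.2).2⟩
  omega

theorem P_rec (s a : ℕ) :
    P (s + 1) (2 ^ (a + s + 1)) = P (s + 1) (2 ^ (a + s)) + P (s + 1) (2 ^ a) := by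
  simp only [P, Nat.count_eq_card_filter_range]
  have i1 : Function.Injective (fun y : ℕ => 2 * y + 1) := fun x y h => by simp only at h; omega
  have i2 : Function.Injective (fun y : ℕ => 2 ^ (s + 1) * y) :=
    fun x y h => Nat.eq_of_mul_eq_mul_left (by positivity) h
  rw [← Finset.card_image_of_injective ((Finset.range (2 ^ (a + s))).filter _) i1,
    ← Finset.card_image_of_injective ((Finset.range (2 ^ a)).filter _) i2,
    ← Finset.card_union_of_disjoint]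
  · congr 1
    ext m
    simp only [Finset.mem_filter, Finset.mem_range, Finset.mem_union, Finset.mem_image]
    have sh : ∀ y, bs (s + 1) (2 ^ (s + 1) * y) ↔ bs (s + 1) y := by
      intro y
      by_cases h0 : y = 0
      · simp [h0]
      · obtain ⟨t, z, rfl⟩ := decomp h0
        rw [← mul_assoc, ← pow_add, bs_key, bs_key, Nat.dvd_add_right (dvd_refl _)]
    have e : 2 ^ (a + s + 1) = 2 ^ (s + 1) * 2 ^ a := by ring
    constructor
    · rintro ⟨h1, h2⟩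
      by_cases h0 : m = 0
      · exact Or.inr ⟨0, ⟨by positivity, bs_zero⟩, by simp [h0]⟩
      · obtain ⟨t, z, rfl⟩ := decomp h0
        by_cases ht : t = 0
        · subst ht
          refine Or.inl ⟨z, ⟨by rw [pow_succ] at h1; omega, ((bs_key 0 z).mp h2).2⟩, by simp⟩
        · have := Nat.le_of_dvd (by omega) ((bs_key t z).mp h2).1
          obtain ⟨d, rfl⟩ := Nat.exists_eq_add_of_le this
          rw [pow_add 2 (s + 1) d, mul_assoc] at h1 h2 ⊢
          rw [e] at h1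
          exact Or.inr ⟨_, ⟨Nat.lt_of_mul_lt_mul_left h1, (sh _).mp h2⟩, rfl⟩
    · rintro (⟨y, ⟨h1, h2⟩, rfl⟩ | ⟨y, ⟨h1, h2⟩, rfl⟩)
      · exact ⟨by rw [pow_succ]; omega, (bs_odd y).mpr h2⟩
      · exact ⟨by rw [e]; exact Nat.mul_lt_mul_of_pos_left h1 (by positivity), (sh y).mpr h2⟩
  · rw [Finset.disjoint_left]
    intro m h1 h2
    simp only [Finset.mem_image] at h1 h2
    obtain ⟨x, -, rfl⟩ := h1
    obtain ⟨y, -, h⟩ := h2
    have : 2 ^ (s + 1) * y = 2 * (2 ^ s * y) := by ring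
    omega

theorem F_mono {a b : ℕ} (h : a ≤ b) : P r (2 ^ a) ≤ P r (2 ^ b) :=
  P_mono (Nat.pow_le_pow_right (by norm_num) h)

theorem F_lt (a : ℕ) : P r (2 ^ a) < P r (2 ^ (a + 1)) := by
  have h0 := Nat.one_le_two_pow (n := a)
  have h1 : 2 ^ (a + 1) = (2 ^ (a + 1) - 1) + 1 := by rw [pow_succ]; omega
  have h2 : 2 ^ a ≤ 2 ^ (a + 1) - 1 := by rw [pow_succ]; omega
  rw [h1, P_succ, if_pos (bs_ones _)]
  have := P_mono (r := r) h2
  omega

theorem F_ge (a : ℕ) : a ≤ P r (2 ^ a) := by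
  induction a with
  | zero => simp
  | succ a ih => have := F_lt (r := r) a; omega

theorem F_small (hr : 2 ≤ r) (K : ℕ) : ∃ c0, ∀ c, c0 ≤ c → K * P r (2 ^ c) ≤ 2 ^ c := by
  obtain ⟨s, rfl⟩ : ∃ s, r = s + 1 + 1 := ⟨r - 2, by omega⟩
  have h1 : ∀ c : ℕ, (P (s + 1 + 1) (2 ^ (c + s + 1)) : ℝ) ≤ 2 ^ (s + 2) * (7 / 4) ^ c := by
    intro c
    induction c using Nat.twoStepInduction with
    | zero =>
      have := PZ (r := s + 1 + 1) (2 ^ (0 + s + 1))
      have h2 : P (s + 1 + 1) (2 ^ (0 + s + 1)) ≤ 2 ^ (s + 2) := by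
        have : 2 ^ (0 + s + 1) ≤ 2 ^ (s + 2) := Nat.pow_le_pow_right (by norm_num) (by omega)
        omega
      rw [pow_zero, mul_one]
      exact_mod_cast h2
    | one =>
      have := PZ (r := s + 1 + 1) (2 ^ (1 + s + 1))
      have h2 : P (s + 1 + 1) (2 ^ (1 + s + 1)) ≤ 2 ^ (s + 2) := by
        have : 2 ^ (1 + s + 1) ≤ 2 ^ (s + 2) := Nat.pow_le_pow_right (by norm_num) (by omega)
        omega
      have h3 : (P (s + 1 + 1) (2 ^ (1 + s + 1)) : ℝ) ≤ 2 ^ (s + 2) := by exact_mod_cast h2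
      have : (0 : ℝ) < 2 ^ (s + 2) := by positivity
      nlinarith
    | more c ih1 ih2 =>
      have e1 := P_rec (s + 1) (c + 1)
      have e2 := F_mono (r := s + 1 + 1) (by omega : c + 1 ≤ c + s + 1)
      have e3 : P (s + 1 + 1) (2 ^ (c + 2 + s + 1)) ≤
          P (s + 1 + 1) (2 ^ (c + 1 + s + 1)) + P (s + 1 + 1) (2 ^ (c + s + 1)) := by
        rw [show c + 2 + s + 1 = c + 1 + (s + 1) + 1 by ring, e1,
          show c + 1 + (s + 1) = c + 1 + s + 1 by ring]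
        omega
      have e4 : (P (s + 1 + 1) (2 ^ (c + 2 + s + 1)) : ℝ) ≤
          P (s + 1 + 1) (2 ^ (c + 1 + s + 1)) + P (s + 1 + 1) (2 ^ (c + s + 1)) := by
        exact_mod_cast e3
      have : (0 : ℝ) < 2 ^ (s + 2) * (7 / 4) ^ c := by positivity
      rw [pow_succ (7 / 4 : ℝ)] at ih2
      rw [pow_succ (7 / 4 : ℝ), pow_succ (7 / 4 : ℝ)]
      nlinarith
  have h2 := tendsto_pow_atTop_nhds_zero_of_lt_one (r := (7 / 8 : ℝ)) (by norm_num) (by norm_num)
  obtain ⟨c0, hc0⟩ := Filter.eventually_atTop.mp (h2.eventually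
    (gt_mem_nhds (show (0 : ℝ) < 1 / (2 * K + 1) by positivity)))
  refine ⟨c0 + s + 1, fun c hc => ?_⟩
  obtain ⟨d, rfl⟩ : ∃ d, c = d + s + 1 := ⟨c - s - 1, by omega⟩
  have h3 := hc0 d (by omega)
  have h4 := h1 d
  rw [lt_div_iff₀ (by positivity)] at h3
  have e1 : (7 / 4 : ℝ) ^ d = (7 / 8) ^ d * 2 ^ d := by rw [← mul_pow]; norm_num
  have : (K : ℝ) * P (s + 1 + 1) (2 ^ (d + s + 1)) ≤ 2 ^ (d + s + 1) := by
    have e2 : (2 : ℝ) ^ (d + s + 1) = 2 ^ (s + 1) * 2 ^ d := by ring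
    have e3 : (2 : ℝ) ^ (s + 2) = 2 ^ (s + 1) * 2 := by ring
    have p1 : (0 : ℝ) < 2 ^ (s + 1) * 2 ^ d := by positivity
    have p2 : (0 : ℝ) < (7 / 8) ^ d := by positivity
    calc (K : ℝ) * P (s + 1 + 1) (2 ^ (d + s + 1)) ≤ K * (2 ^ (s + 2) * (7 / 4) ^ d) := by gcongr
      _ = (2 ^ (s + 1) * 2 ^ d) * ((7 / 8) ^ d * (2 * K)) := by rw [e1, e3]; ring
      _ ≤ (2 ^ (s + 1) * 2 ^ d) * 1 := by gcongr; nlinarith
      _ = _ := by rw [e2, mul_one]
  exact_mod_cast this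

end Pool.Agent.H48.BS
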