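import Mathlib
import Pool.Agent.H48.BS1

set_option autoImplicit false

namespace Pool.Agent.H48.BS

open BSDefs Classical

variable {r : ℕ}

theorem zinf (hr : 2 ≤ r) : (Set.ofPred fun m => ¬ bs r m).Infinite :=
  Set.infinite_of_injective_forall_mem (f := fun y : ℕ => 4 * y + 2)
    (fun x y h => by simp only at h; omega) (fun y => not_bs_two hr y)

theorem hz_not (hr : 2 ≤ r) (n : ℕ) : ¬ bs r (hz r n) := Nat.nth_mem_of_infinite (zinf hr) n

theorem Z_hz (hr : 2 ≤ r) (n : ℕ) : Z r (hz r n) = n := Nat.count_nth_of_infinite (zinf hr) n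

theorem hz_Z {m : ℕ} (h : ¬ bs r m) : hz r (Z r m) = m := Nat.nth_count h

theorem Z_succ (hr : 2 ≤ r) (n : ℕ) : Z r (hz r n + 1) = n + 1 := by
  have := Z_hz hr n
  rw [Z] at this ⊢
  rw [Nat.count_succ, this, if_pos (hz_not hr n)]

/-- The zero with index `n` is followed by a one. -/
def Jump (r n : ℕ) : Prop := bs r (hz r n + 1)

theorem hz_lt (hr : 2 ≤ r) (n : ℕ) : hz r n < hz r (n + 1) :=
  Nat.nth_strictMono (zinf hr) (Nat.lt_succ_self n)

theorem nojump (hr : 2 ≤ r) {n : ℕ} (h : ¬ Jump r n) : hz r (n + 1) = hz r n + 1 := by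
  rw [← Z_succ hr n]
  exact hz_Z h

theorem jump (hr : 2 ≤ r) {n : ℕ} (h : Jump r n) :
    hz r n + 2 ≤ hz r (n + 1) ∧ hz r (n + 1) ≤ hz r n + 4 := by
  constructor
  · have h1 := hz_lt hr n
    have h2 : hz r (n + 1) ≠ hz r n + 1 := fun e => hz_not hr (n + 1) (e ▸ h)
    omega
  · obtain ⟨y, h1, h2⟩ : ∃ y, hz r n + 1 ≤ 4 * y + 2 ∧ 4 * y + 2 ≤ hz r n + 4 :=
      ⟨(hz r n + 2) / 4, by omega, by omega⟩
    have h3 := Z_mono (r := r) h1
    rw [Z_succ hr] at h3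
    have h4 : hz r (n + 1) ≤ hz r (Z r (4 * y + 2)) := Nat.nth_monotone (zinf hr) h3
    rw [hz_Z (not_bs_two hr y)] at h4
    omega

/-- The right congruence attached to the jumps. -/
def Eqv (r k n n' : ℕ) : Prop :=
  ∀ e j, j < k ^ e → (Jump r (k ^ e * n + j) ↔ Jump r (k ^ e * n' + j))

theorem classes (hr : 2 ≤ r) {k : ℕ} (h : Regular k fun n => (hz r n : ℤ)) :
    ∃ (T : Type) (_ : Fintype T) (cls : ℕ → T), ∀ n n', cls n = cls n' → Eqv r k n n' := by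
  obtain ⟨S, hS⟩ := h
  refine ⟨(S → ZMod 4) × (S → ZMod 4), inferInstance,
    fun n => (fun g => (g.1 n : ZMod 4), fun g => (g.1 (n + 1) : ZMod 4)), ?_⟩
  have key : ∀ n n' : ℕ, (fun g : S => (g.1 n : ZMod 4)) = (fun g : S => (g.1 n' : ZMod 4)) →
      ∀ e j, j < k ^ e → ((hz r (k ^ e * n + j) : ℤ) : ZMod 4) = (hz r (k ^ e * n' + j) : ℤ) := by
    intro n n' hn e j hj
    have h1 : ∀ v ∈ Submodule.span ℤ (S : Set (ℕ → ℤ)), (v n : ZMod 4) = v n' := by
      intro v hv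
      induction hv using Submodule.span_induction with
      | mem x hx => exact congrFun hn ⟨x, hx⟩
      | zero => simp
      | add x y _ _ hx hy => simp [hx, hy]
      | smul a x _ hx => simp [hx]
    refine h1 (fun n => (hz r (k ^ e * n + j) : ℤ)) ?_
    rw [hS]
    exact Submodule.subset_span ⟨e, j, hj, rfl⟩
  have one : ∀ n n' : ℕ, ((hz r n : ℤ) : ZMod 4) = (hz r n' : ℤ) →
      ((hz r (n + 1) : ℤ) : ZMod 4) = (hz r (n' + 1) : ℤ) → Jump r n → Jump r n' := by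
    intro n n' h1 h2 h3
    by_contra h4
    have k1 := jump hr h3
    have k2 := nojump hr h4
    rw [ZMod.intCast_eq_intCast_iff_dvd_sub] at h1 h2
    omega
  intro n n' hn e j hj
  obtain ⟨h1, h2⟩ := Prod.mk.inj hn
  have a1 := key n n' h1 e j hj
  have a2 : ((hz r (k ^ e * n + j + 1) : ℤ) : ZMod 4) = (hz r (k ^ e * n' + j + 1) : ℤ) := by
    by_cases hc : j + 1 < k ^ e
    · exact key n n' h1 e (j + 1) hc
    · have := key (n + 1) (n' + 1) h2 e 0 (by omega)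
      have e1 : k ^ e = j + 1 := by omega
      rwa [add_zero, add_zero, mul_add, mul_add, mul_one, e1, ← add_assoc, ← add_assoc,
        ← e1] at this
  exact ⟨one _ _ a1 a2, one _ _ a1.symm a2.symm⟩

theorem jump_ones (hr : 2 ≤ r) (a : ℕ) :
    Jump r (2 ^ (a + 2) - 1 - P r (2 ^ (a + 2))) := by
  have h0 := Nat.one_le_two_pow (n := a)
  have e0 : 2 ^ (a + 2) = 4 * 2 ^ a := by ring
  have h1 : ¬ bs r (2 ^ (a + 2) - 2) := by
    have := not_bs_two hr (2 ^ a - 1)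
    rwa [show 4 * (2 ^ a - 1) + 2 = 2 ^ (a + 2) - 2 by omega] at this
  have h2 : bs r (2 ^ (a + 2) - 2 + 1) := by
    have := bs_ones (r := r) (a + 2)
    rwa [show 2 ^ (a + 2) - 1 = 2 ^ (a + 2) - 2 + 1 by omega] at this
  have h3 := P_succ (r := r) (2 ^ (a + 2) - 2)
  have h4 := P_succ (r := r) (2 ^ (a + 2) - 2 + 1)
  rw [if_neg h1] at h3
  rw [if_pos h2, show 2 ^ (a + 2) - 2 + 1 + 1 = 2 ^ (a + 2) by omega] at h4
  have h5 := PZ (r := r) (2 ^ (a + 2) - 2)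
  have h6 : 2 ^ (a + 2) - 1 - P r (2 ^ (a + 2)) = Z r (2 ^ (a + 2) - 2) := by omega
  rw [h6, Jump, hz_Z h1]
  exact h2

theorem allowed (hr : 2 ≤ r) : ∃ G0, ∀ a A G : ℕ, G0 ≤ G → A = P r (2 ^ a) + G →
    2 * A ≤ 2 ^ a → Jump r (2 ^ a - 1 - A) →
    ∃ c, G ≤ 2 ^ c ∧ 5 * 2 ^ r * 2 ^ c ≤ 5 * 2 ^ r * G + 6 * 2 ^ c := by
  obtain ⟨c0, hc0⟩ := F_small hr (10 * 2 ^ r)
  refine ⟨2 ^ c0 + 2, fun a A G h1 h2 h3 h4 => ?_⟩
  have p0 := Nat.one_le_two_pow (n := c0)
  set m := hz r (2 ^ a - 1 - A) + 1 with hm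
  have k1 : Z r m = 2 ^ a - 1 - A + 1 := Z_succ hr _
  have k2 := PZ (r := r) m
  have k3 := PZ (r := r) (2 ^ a)
  have k4 : m < 2 ^ a := by
    by_contra hc
    have := Z_mono (r := r) (not_lt.mp hc)
    omega
  have k5 := P_mono (r := r) k4.le
  obtain ⟨s, hs⟩ : ∃ s, s + m = 2 ^ a := ⟨2 ^ a - m, by omega⟩
  have k6 : s + P r m = A := by omega
  have l1 : s ≤ 2 ^ Nat.clog 2 s := Nat.le_pow_clog (by norm_num) s
  have l2 : 2 ^ (Nat.clog 2 s).pred < s := Nat.pow_pred_clog_lt_self (by norm_num) (by omega)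
  have l0 : 0 < Nat.clog 2 s := Nat.clog_pos (by norm_num) (by omega)
  obtain ⟨c, hc⟩ : ∃ c, Nat.clog 2 s = c + 1 := ⟨Nat.clog 2 s - 1, by omega⟩
  rw [hc] at l1 l2
  simp only [Nat.pred_succ] at l2
  have l3 : c + 1 < a := by
    have : 2 ^ (c + 1) < 2 ^ a := by rw [pow_succ]; omega
    exact (Nat.pow_lt_pow_iff_right (by norm_num)).mp this
  have l4 : c0 ≤ c + 1 + 1 := by
    have : 2 ^ c0 < 2 ^ (c + 1) := by omega
    have := (Nat.pow_lt_pow_iff_right (by norm_num)).mp this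
    omega
  obtain ⟨d, rfl⟩ : ∃ d, a = c + 1 + (d + 1) := ⟨a - c - 2, by omega⟩
  have p1 := Nat.one_le_two_pow (n := d)
  have e1 : 2 ^ (c + 1) * (2 * (2 ^ d - 1) + 1) + 2 ^ (c + 1) = 2 ^ (c + 1 + (d + 1)) := by
    have : 2 * (2 ^ d - 1) + 1 + 1 = 2 ^ (d + 1) := by rw [pow_succ]; omega
    rw [← mul_add_one, this, ← pow_add]
  have e2 : m = 2 ^ (c + 1) * (2 * (2 ^ d - 1) + 1) + (2 ^ (c + 1) - s) := by omega
  have e3 : 2 ^ (c + 1) = 2 * 2 ^ c := by ring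
  have m1 : bs r m := h4
  rw [e2, bs_prod _ _ _ (by omega)] at m1
  have m2 := bs_small (by omega) m1.2
  have m3 := P_window (r := r) (2 ^ d - 1) (c + 1)
  have m4 := P_mono (r := r) (by omega : 2 ^ (c + 1) * (2 * (2 ^ d - 1) + 1) ≤ m)
  have m5 := hc0 _ l4
  rw [e1] at m3
  refine ⟨c + 1, by omega, ?_⟩
  have m6 : s ≤ G + P r (2 ^ (c + 1 + 1)) := by omega
  have e4 : 2 ^ (c + 1 + 1) = 2 * 2 ^ (c + 1) := by ring
  generalize P r (2 ^ (c + 1 + 1)) = W at *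
  obtain ⟨v, hv⟩ : ∃ v, v + s = 2 ^ (c + 1) := ⟨2 ^ (c + 1) - s, by omega⟩
  rw [show 2 ^ (c + 1) - s = v by omega] at m2
  rw [e4] at m5
  generalize 2 ^ (c + 1) = C at *
  generalize 2 ^ r = R at *
  have : R * C ≤ R * v + R * G + R * W := by
    rw [← mul_add, ← mul_add]
    exact Nat.mul_le_mul_left _ (by omega)
  nlinarith

theorem pow_case (hr : 2 ≤ r) {g : ℕ} (hg : 1 ≤ g) {T : Type} [Fintype T] (cls : ℕ → T)
    (hc : ∀ n n', cls n = cls n' → Eqv r (2 ^ g) n n') : False := by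
  obtain ⟨i1, i2, hlt, he⟩ : ∃ i1 i2 : ℕ, i1 < i2 ∧
      ∀ t : Fin 4, cls (2 ^ (i1 + 1 + t) - 1) = cls (2 ^ (i2 + 1 + t) - 1) := by
    obtain ⟨x, y, h1, h2⟩ := Finite.exists_ne_map_eq_of_infinite
      (fun i : ℕ => fun t : Fin 4 => cls (2 ^ (i + 1 + t) - 1))
    rcases lt_or_gt_of_ne h1 with h | h
    · exact ⟨x, y, h, congrFun h2⟩
    · exact ⟨y, x, h, congrFun h2.symm⟩
  obtain ⟨d, rfl⟩ : ∃ d, i2 = i1 + (d + 1) := ⟨i2 - i1 - 1, by omega⟩
  obtain ⟨G0, hG⟩ := allowed hr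
  obtain ⟨c0, hc0⟩ := F_small hr (2 ^ (i1 + d + 6))
  obtain ⟨s, rfl⟩ : ∃ s, r = s + 1 + 1 := ⟨r - 2, by omega⟩
  set F := fun a => P (s + 1 + 1) (2 ^ a) with hF
  set G := fun a => F (a + (d + 1)) - F a with hG'
  have FG : ∀ a, F (a + (d + 1)) = F a + G a := fun a => by
    have : F a ≤ F (a + (d + 1)) := F_mono (by omega)
    simp only [hG']
    omega
  have Frec : ∀ a, F (a + s + 2) = F (a + s + 1) + F a := fun a => P_rec (s + 1) a
  have Grec : ∀ a, G (a + s + 2) = G (a + s + 1) + G a := fun a => by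
    have h1 := FG (a + s + 2)
    have h2 := FG (a + s + 1)
    have h3 := FG a
    have h4 := Frec a
    have h5 := Frec (a + (d + 1))
    rw [show a + (d + 1) + s + 2 = a + s + 2 + (d + 1) by ring,
      show a + (d + 1) + s + 1 = a + s + 1 + (d + 1) by ring] at h5
    omega
  have Gm : ∀ a j, G (a + s + 1) ≤ G (a + s + 1 + j) := fun a j => by
    induction j with
    | zero => exact le_rfl
    | succ j ih =>
      have := Grec (a + j)
      rw [show a + j + s + 2 = a + s + 1 + (j + 1) by ring,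
        show a + j + s + 1 = a + s + 1 + j by ring] at this
      omega
  have Gd : ∀ a j, G (a + 2 * s + 2 + j) ≤ 2 ^ j * G (a + 2 * s + 2) := fun a j => by
    induction j with
    | zero => simp
    | succ j ih =>
      have h1 := Grec (a + s + 1 + j)
      have h2 := Gm (a + j) (s + 1)
      rw [show a + s + 1 + j + s + 2 = a + 2 * s + 2 + (j + 1) by ring,
        show a + s + 1 + j + s + 1 = a + 2 * s + 2 + j by ring] at h1
      rw [show a + j + s + 1 + (s + 1) = a + 2 * s + 2 + j by ring,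
        show a + j + s + 1 = a + s + 1 + j by ring] at h2
      rw [pow_succ', mul_assoc]
      omega
  have Gb : ∀ a, a ≤ G (a + s + 1) := fun a => by
    have h1 := FG (a + s + 1)
    have h2 : F (a + s + 2) ≤ F (a + s + 1 + (d + 1)) := F_mono (by omega)
    have h3 := Frec a
    have h4 : a ≤ F a := F_ge a
    omega
  obtain ⟨e, he1⟩ : ∃ e, c0 + G0 + 3 * s + 5 ≤ g * e := ⟨c0 + G0 + 3 * s + 5, by nlinarith⟩
  have all : ∀ t : Fin 4, ∃ c, G (g * e + i1 + 1 + t) ≤ 2 ^ c ∧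
      5 * 2 ^ (s + 1 + 1) * 2 ^ c ≤ 5 * 2 ^ (s + 1 + 1) * G (g * e + i1 + 1 + t) + 6 * 2 ^ c := by
    intro t
    have ht := t.2
    set a := g * e + i1 + 1 + t with ha
    have h1 := hc0 (a + (d + 1)) (by omega)
    have h2 : 2 * F (a + (d + 1)) ≤ 2 ^ (g * e) := by
      have e1 : 2 ^ (a + (d + 1)) ≤ 2 ^ (i1 + d + 5) * 2 ^ (g * e) := by
        rw [← pow_add]
        exact Nat.pow_le_pow_right (by norm_num) (by omega)
      have e2 : 2 ^ (i1 + d + 6) * F (a + (d + 1))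
          = 2 ^ (i1 + d + 5) * (2 * F (a + (d + 1))) := by ring
      exact Nat.le_of_mul_le_mul_left (e2 ▸ h1.trans e1) (by positivity)
    have h3 : 2 ^ (g * e) ≤ 2 ^ a := Nat.pow_le_pow_right (by norm_num) (by omega)
    have h4 : G0 ≤ G a := by
      have := Gb (a - s - 1)
      rw [show a - s - 1 + s + 1 = a by omega] at this
      omega
    have p1 := Nat.one_le_two_pow (n := g * e)
    have j1 := jump_ones hr (a + d - 1)
    rw [show a + d - 1 + 2 = a + (d + 1) by omega] at j1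
    have q : ∀ i : ℕ, (2 ^ g) ^ e * (2 ^ i - 1) + (2 ^ (g * e) - 1 - F (a + (d + 1)))
        = 2 ^ (g * e + i) - 1 - F (a + (d + 1)) := by
      intro i
      have := Nat.one_le_two_pow (n := i)
      rw [← pow_mul, pow_add, Nat.mul_sub_one]
      have : 2 ^ (g * e) ≤ 2 ^ (g * e) * 2 ^ i := Nat.le_mul_of_pos_right _ this
      omega
    have j2 := hc _ _ (he t) e (2 ^ (g * e) - 1 - F (a + (d + 1))) (by rw [← pow_mul]; omega)
    rw [q, q, show g * e + (i1 + 1 + t) = a by omega,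
      show g * e + (i1 + (d + 1) + 1 + t) = a + (d + 1) by omega] at j2
    exact hG a _ _ h4 (FG a) (h2.trans h3) (j2.mpr j1)
  obtain ⟨b, hb⟩ : ∃ b, g * e + i1 + 1 = b + 3 * s + 3 := ⟨g * e + i1 + 1 - 3 * s - 3, by omega⟩
  rw [hb] at all
  have R4 : 4 ≤ 2 ^ (s + 1 + 1) := by
    have := Nat.one_le_two_pow (n := s)
    rw [pow_succ, pow_succ]; omega
  have step : ∀ a c c' : ℕ, G (a + 3 * s + 3) ≤ 2 ^ c → G (a + 3 * s + 3 + 1) ≤ 2 ^ c' →
      5 * 2 ^ (s + 1 + 1) * 2 ^ c ≤ 5 * 2 ^ (s + 1 + 1) * G (a + 3 * s + 3) + 6 * 2 ^ c →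
      2 * 2 ^ c ≤ 2 ^ c' := by
    intro a c c' h1 h2 h3
    have k1 := Grec (a + 2 * s + 2)
    have k2 := Gd a (s + 1)
    rw [show a + 2 * s + 2 + s + 2 = a + 3 * s + 3 + 1 by ring,
      show a + 2 * s + 2 + s + 1 = a + 3 * s + 3 by ring] at k1
    rw [show a + 2 * s + 2 + (s + 1) = a + 3 * s + 3 by ring] at k2
    have k3 : 2 ^ c < 2 ^ c' := by
      have e1 : 2 ^ (s + 1 + 1) = 2 * 2 ^ (s + 1) := by ring
      have p := Nat.one_le_two_pow (n := c)
      rw [e1] at h3 R4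
      generalize 2 ^ (s + 1) = R at *
      generalize G (a + 3 * s + 3) = x at *
      generalize G (a + 2 * s + 2) = y at *
      generalize 2 ^ c = C at *
      by_contra hcon
      have k4 : x + y ≤ C := by omega
      have k5 : R * x + x ≤ R * C := by nlinarith
      have k6 : (10 * R * C) * (R + 1) ≤ (10 * R * x + 6 * C) * (R + 1) := by
        apply Nat.mul_le_mul_right; linarith
      have k7 : 10 * R * (R * x + x) ≤ 10 * R * (R * C) := Nat.mul_le_mul_left _ k5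
      have k8 : 2 * C ≤ R * C := Nat.mul_le_mul_right _ (by omega)
      nlinarith
    have := (Nat.pow_lt_pow_iff_right (by norm_num)).mp k3
    rw [← pow_succ']
    exact Nat.pow_le_pow_right (by norm_num) this
  obtain ⟨x0, a0, b0⟩ := all 0
  obtain ⟨x1, a1, b1⟩ := all 1
  obtain ⟨x2, a2, b2⟩ := all 2
  obtain ⟨x3, a3, b3⟩ := all 3
  simp only [Fin.val_zero, Fin.val_one, Fin.val_two, add_zero,
    show ((3 : Fin 4) : ℕ) = 3 from rfl] at a0 b0 a1 b1 a2 b2 a3 b3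
  have s0 := step b x0 x1 a0 a1 b0
  have s1 := step (b + 1) x1 x2 (by convert a1 using 2; ring) (by convert a2 using 2; ring)
    (by convert b1 using 4; ring)
  have s2 := step (b + 2) x2 x3 (by convert a2 using 2; ring) (by convert a3 using 2; ring)
    (by convert b2 using 4; ring)
  have r1 := Grec (b + 2 * s + 4)
  have r2 := Grec (b + 2 * s + 3)
  have r3 := Gm (b + s + 3) s
  have r4 := Gm (b + s + 2) s
  rw [show b + 2 * s + 4 + s + 2 = b + 3 * s + 3 + 3 by ring,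
    show b + 2 * s + 4 + s + 1 = b + 3 * s + 3 + 2 by ring] at r1
  rw [show b + 2 * s + 3 + s + 2 = b + 3 * s + 3 + 2 by ring,
    show b + 2 * s + 3 + s + 1 = b + 3 * s + 3 + 1 by ring] at r2
  rw [show b + s + 3 + s + 1 + s = b + 3 * s + 3 + 1 by ring,
    show b + s + 3 + s + 1 = b + 2 * s + 4 by ring] at r3
  rw [show b + s + 2 + s + 1 + s = b + 3 * s + 3 by ring,
    show b + s + 2 + s + 1 = b + 2 * s + 3 by ring] at r4
  have p := Nat.one_le_two_pow (n := x0)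
  generalize 2 ^ (s + 1 + 1) = R at *
  have k1 : 8 * G (b + 3 * s + 3 + 3) ≤ 5 * 2 ^ x3 := by omega
  have k2 : 4 * 2 ^ x3 ≤ R * 2 ^ x3 := Nat.mul_le_mul_right _ R4
  have k3 : R * (8 * G (b + 3 * s + 3 + 3)) ≤ R * (5 * 2 ^ x3) := Nat.mul_le_mul_left _ k1
  have p3 := Nat.one_le_two_pow (n := x3)
  nlinarith

end Pool.Agent.H48.BS
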