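import Mathlib
import Pool.Agent.H48.BS2

set_option autoImplicit false

namespace Pool.Agent.H48.BS

open BSDefs Classical

variable {r : ℕ}

theorem rot {θ : ℝ} (hθ : Irrational θ) (x A η : ℝ) (hη : 0 < η) (L : ℕ) :
    ∃ i : ℕ, L ≤ i ∧ ∃ z : ℤ, A ≤ x + i * θ - z ∧ x + i * θ - z ≤ A + η := by
  obtain ⟨n, hn⟩ := exists_nat_one_div_lt hη
  obtain ⟨p, p1, -, p2⟩ := Real.exists_nat_abs_mul_sub_round_le θ (Nat.succ_pos n)
  set q := round (p * θ) with hq
  set ε := p * θ - q with hε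
  have h0 : ε ≠ 0 := by
    have : Irrational (p * θ - q) := (hθ.natCast_mul p1.ne').sub_intCast q
    exact this.ne_zero
  have h1 : |ε| ≤ η := by
    refine p2.trans (le_trans ?_ hn.le)
    push_cast
    apply one_div_le_one_div_of_le <;> linarith [Nat.cast_nonneg (α := ℝ) n]
  have main : ∀ (y B δ : ℝ), 0 < δ → ∃ j : ℕ, L ≤ j ∧ ∃ M : ℤ, B ≤ y + j * δ - M ∧
      y + j * δ - M ≤ B + δ := by
    intro y B δ hδ
    obtain ⟨M, hM⟩ := exists_nat_ge (L * δ + y - B)
    have k0 : (L : ℝ) ≤ (B + M - y) / δ := by rw [le_div_iff₀ hδ]; linarith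
    have k1 := Nat.le_ceil ((B + M - y) / δ)
    have k2 := Nat.ceil_lt_add_one ((Nat.cast_nonneg L).trans k0)
    refine ⟨⌈(B + M - y) / δ⌉₊, by exact_mod_cast k0.trans k1, M, ?_, ?_⟩
    · rw [div_le_iff₀ hδ] at k1
      push_cast
      linarith
    · rw [← sub_lt_iff_lt_add, lt_div_iff₀ hδ] at k2
      push_cast
      linarith
  rcases lt_or_gt_of_ne h0 with h | h
  · obtain ⟨j, j1, M, m1, m2⟩ := main (-x) (-A - η) (-ε) (by linarith)
    rw [abs_of_neg h] at h1
    refine ⟨j * p, j1.trans (Nat.le_mul_of_pos_right _ p1), j * q - M, ?_, ?_⟩ <;> push_cast <;>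
      nlinarith
  · obtain ⟨j, j1, M, m1, m2⟩ := main x A ε h
    rw [abs_of_pos h] at h1
    refine ⟨j * p, j1.trans (Nat.le_mul_of_pos_right _ p1), j * q + M, ?_, ?_⟩ <;> push_cast <;>
      nlinarith

theorem gap (hr : 2 ≤ r) : ∃ a0, ∀ a n : ℕ, a0 ≤ a → 5 * 2 ^ a ≤ n + 1 →
    10 * (n + 1) < 59 * 2 ^ a → ¬ Jump r n := by
  obtain ⟨c0, hc0⟩ := F_small hr 80
  refine ⟨c0, fun a n h1 h2 h3 h4 => ?_⟩
  have k1 := Z_succ hr n
  have k2 := PZ (r := r) (hz r n + 1)
  refine not_bs_five hr (a := a) (by omega) ?_ h4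
  by_contra hc
  have k3 := Z_mono (r := r) (not_lt.mp hc)
  have k4 := PZ (r := r) (6 * 2 ^ a)
  have e : 2 ^ (a + 3) = 8 * 2 ^ a := by ring
  have k5 := P_mono (r := r) (by omega : 6 * 2 ^ a ≤ 2 ^ (a + 3))
  have k6 := hc0 (a + 3) (by omega)
  omega

theorem other_case (hr : 2 ≤ r) {k : ℕ} (hk : 2 ≤ k) (hg : ∀ g, k ≠ 2 ^ g) {T : Type} [Fintype T]
    (cls : ℕ → T) (hc : ∀ n n', cls n = cls n' → Eqv r k n n') : False := by
  obtain ⟨N, hN, hJ⟩ : ∃ N, k ^ Fintype.card T ≤ N ∧ Jump r N := by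
    obtain ⟨c0, hc0⟩ := F_small hr 2
    refine ⟨_, ?_, jump_ones hr (c0 + k ^ Fintype.card T)⟩
    have h1 := hc0 (c0 + k ^ Fintype.card T + 2) (by omega)
    have h2 : c0 + k ^ Fintype.card T < 2 ^ (c0 + k ^ Fintype.card T) := Nat.lt_two_pow_self
    have e : 2 ^ (c0 + k ^ Fintype.card T + 2) = 4 * 2 ^ (c0 + k ^ Fintype.card T) := by ring
    omega
  obtain ⟨e, f, hf, hle, he⟩ : ∃ e f : ℕ, 0 < f ∧ e + f ≤ Fintype.card T ∧
      cls (N / k ^ e) = cls (N / k ^ (e + f)) := by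
    obtain ⟨x, y, h1, h2⟩ := Fintype.exists_ne_map_eq_of_card_lt
      (fun i : Fin (Fintype.card T + 1) => cls (N / k ^ (i : ℕ))) (by simp)
    have hx := x.2
    have hy := y.2
    rcases lt_or_gt_of_ne (Fin.val_ne_of_ne h1) with h | h
    · exact ⟨x, y - x, by omega, by omega, by rw [show (x : ℕ) + (y - x) = y by omega]; exact h2⟩
    · exact ⟨y, x - y, by omega, by omega,
        by rw [show (y : ℕ) + (x - y) = x by omega]; exact h2.symm⟩
  set p := N / k ^ (e + f) with hp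
  set K := k ^ f with hK
  set w := N / k ^ e % K with hw
  have hK1 : 1 < K := Nat.one_lt_pow hf.ne' (by omega)
  have hw1 : w < K := Nat.mod_lt _ (by omega)
  have hp1 : 1 ≤ p := by
    rw [hp, Nat.le_div_iff_mul_le (by positivity), one_mul]
    exact (Nat.pow_le_pow_right (by omega) hle).trans hN
  have e1 : N / k ^ e = K * p + w := by
    rw [hp, pow_add, ← Nat.div_div_eq_div_mul, hw, Nat.div_add_mod]
  have cong : ∀ n n', Eqv r k n n' → Eqv r k (K * n + w) (K * n' + w) := by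
    intro n n' h e' j hj
    have := h (e' + f) (k ^ e' * w + j) (by
      rw [pow_add]
      calc k ^ e' * w + j < k ^ e' * w + k ^ e' := by omega
        _ = k ^ e' * (w + 1) := by ring
        _ ≤ k ^ e' * K := Nat.mul_le_mul_left _ hw1)
    rw [pow_add] at this
    convert this using 2 <;> ring
  let s : ℕ → ℕ := fun i => (fun x => K * x + w)^[i] p
  have s1 : ∀ i, s (i + 1) = K * s i + w := fun i => Function.iterate_succ_apply' _ _ _
  have s2 : ∀ i, Eqv r k (s (i + 1)) (s i) := by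
    intro i
    induction i with
    | zero => exact hc _ _ (by rw [e1] at he; rw [s1]; exact he)
    | succ i ih => rw [s1 (i + 1), s1 i]; rw [s1 i] at ih; exact cong _ _ ih
  set j := N % k ^ e with hj
  have hj1 : j < k ^ e := Nat.mod_lt _ (by positivity)
  have s3 : ∀ i, Jump r (k ^ e * s (i + 1) + j) := by
    intro i
    induction i with
    | zero =>
      have : s 1 = N / k ^ e := by rw [s1, e1]; rfl
      rw [zero_add, this, hj, Nat.div_add_mod]
      exact hJ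
    | succ i ih => exact (s2 (i + 1) e j hj1).mpr ih
  have hK2 : (1 : ℝ) < K := by exact_mod_cast hK1
  set γ : ℝ := w / (K - 1) with hγ
  have hγ0 : 0 ≤ γ := div_nonneg (Nat.cast_nonneg _) (by linarith)
  have s4 : ∀ i, (s i : ℝ) = K ^ i * (p + γ) - γ := by
    intro i
    induction i with
    | zero => simp [s]
    | succ i ih =>
      rw [s1]
      push_cast
      rw [ih]
      have : (w : ℝ) = γ * (K - 1) := by rw [hγ, div_mul_cancel₀ _ (by linarith)]
      rw [this]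
      ring
  have hθ : Irrational (Real.logb 2 K) := by
    rintro ⟨q, hq⟩
    have q0 : (0 : ℝ) < q := by rw [hq]; exact Real.logb_pos (by norm_num) hK2
    have q1 : 0 < q := by exact_mod_cast q0
    have h1 : (2 : ℝ) ^ (q : ℝ) = K := by
      rw [hq, Real.rpow_logb (by norm_num) (by norm_num) (by linarith)]
    have h2 : (K : ℝ) ^ q.den = 2 ^ q.num.natAbs := by
      rw [← h1, ← Real.rpow_natCast, ← Real.rpow_mul (by norm_num), ← Real.rpow_natCast]
      congr 1
      have := Rat.mul_den_eq_num q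
      have h3 : ((q.num.natAbs : ℕ) : ℝ) = q.num := by
        rw [Nat.cast_natAbs, abs_of_pos (Rat.num_pos.mpr q1)]
      rw [h3]
      exact_mod_cast this
    have h3 : K ^ q.den = 2 ^ q.num.natAbs := by exact_mod_cast h2
    have h4 : k ∣ 2 ^ q.num.natAbs := by
      rw [← h3, hK, ← pow_mul]
      exact dvd_pow_self k (Nat.mul_ne_zero hf.ne' q.den_nz)
    obtain ⟨g, -, h5⟩ := (Nat.dvd_prime_pow Nat.prime_two).mp h4
    exact hg g h5
  obtain ⟨a0, ha0⟩ := gap hr
  set α : ℝ := k ^ e * (p + γ) with hα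
  have hke : (1 : ℝ) ≤ k ^ e := one_le_pow₀ (by exact_mod_cast (by omega : 1 ≤ k))
  have hp2 : (1 : ℝ) ≤ p := by exact_mod_cast hp1
  have hα1 : 1 ≤ α := by nlinarith
  set β : ℝ := j + 1 - k ^ e * γ with hβ
  obtain ⟨L, hL⟩ := pow_unbounded_of_one_lt (6 * (2 ^ a0 + 10 * |β|)) hK2
  have l1 : Real.logb 2 (53 / 10) < Real.logb 2 (56 / 10) :=
    Real.logb_lt_logb (by norm_num) (by norm_num) (by norm_num)
  obtain ⟨i, i1, z, z1, z2⟩ := rot hθ (Real.logb 2 α) (Real.logb 2 (53 / 10))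
    (Real.logb 2 (56 / 10) - Real.logb 2 (53 / 10)) (by linarith) (L + 1)
  have hX : (0 : ℝ) < α * K ^ i := by positivity
  have e2 : Real.logb 2 α + i * Real.logb 2 K - z = Real.logb 2 (α * K ^ i / 2 ^ z) := by
    rw [Real.logb_div hX.ne' (by positivity), Real.logb_mul (x := α) (by positivity) (by positivity),
      Real.logb_pow, ← Real.rpow_intCast, Real.logb_rpow (by norm_num) (by norm_num)]
  rw [e2] at z1 z2
  rw [add_sub_cancel] at z2
  rw [Real.logb_le_logb (by norm_num) (by norm_num) (by positivity),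
    le_div_iff₀ (by positivity)] at z1
  rw [Real.logb_le_logb (by norm_num) (by positivity) (by norm_num),
    div_le_iff₀ (by positivity)] at z2
  have b1 : (K : ℝ) ^ L ≤ α * K ^ i :=
    (pow_le_pow_right₀ hK2.le (by omega : L ≤ i)).trans (le_mul_of_one_le_left (by positivity) hα1)
  have b0 : (0 : ℝ) < 2 ^ z := by positivity
  have b2 : (2 : ℝ) ^ a0 + 10 * |β| < 2 ^ z := by linarith
  have b3 : (a0 : ℤ) < z := by
    have : (2 : ℝ) ^ (a0 : ℤ) < 2 ^ z := by
      rw [zpow_natCast]; linarith [abs_nonneg β]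
    exact (zpow_lt_zpow_iff_right₀ (by norm_num)).mp this
  obtain ⟨a, rfl⟩ := Int.eq_ofNat_of_zero_le (by omega : 0 ≤ z)
  rw [zpow_natCast] at z1 z2 b2 b0
  obtain ⟨i, rfl⟩ : ∃ i', i = i' + 1 := ⟨i - 1, by omega⟩
  have e3 : ((k ^ e * s (i + 1) + j + 1 : ℕ) : ℝ) = α * K ^ (i + 1) + β := by
    push_cast
    rw [s4, hα, hβ]
    ring
  have b4 := abs_le.mp (le_refl |β|)
  have b5 : (0 : ℝ) < 2 ^ a0 := by positivity
  refine ha0 a _ (by omega) ?_ ?_ (s3 i)
  · have : ((5 * 2 ^ a : ℕ) : ℝ) ≤ ((k ^ e * s (i + 1) + j + 1 : ℕ) : ℝ) := by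
      rw [e3]; push_cast; linarith
    exact_mod_cast this
  · have : ((10 * (k ^ e * s (i + 1) + j + 1) : ℕ) : ℝ) < ((59 * 2 ^ a : ℕ) : ℝ) := by
      rw [Nat.cast_mul, e3]; push_cast; linarith
    exact_mod_cast this

theorem not_regular (hr : 2 ≤ r) {k : ℕ} (hk : 2 ≤ k) : ¬ Regular k fun n => (hz r n : ℤ) := by
  intro h
  obtain ⟨T, _, cls, hc⟩ := classes hr h
  by_cases hg : ∃ g, k = 2 ^ g
  · obtain ⟨g, rfl⟩ := hg
    refine pow_case hr (g := g) ?_ cls hc
    rcases g with _ | g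
    · simp at hk
    · omega
  · push Not at hg
    exact other_case hr hk hg cls hc

end Pool.Agent.H48.BS
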