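import Mathlib
import Pool.Agent.H48.BAlg

set_option autoImplicit false

namespace Pool.Agent.H48.BinLie

open Pool.Agent.H48.BAlg

theorem mul1 {R : Type} [CommRing R] (a b c d α β γ δ ε α' β' γ' δ' ε' : R)
    (ha : a * a = 0) (hb : b * b = 0) (hc : c * c = 0) (hd : d * d = 0) :
    (α * a + β * b + γ * (c * d) + δ * (a * b * c) + ε * (a * b * d)) *
    (α' * a + β' * b + γ' * (c * d) + δ' * (a * b * c) + ε' * (a * b * d)) =
    (α * β' + β * α') * (a * b) + (α * γ' + γ * α') * (c * d * a)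
      + (β * γ' + γ * β') * (c * d * b) := by
  grind

theorem mul2 {R : Type} [CommRing R] (a b c d α β γ δ ε X Y Z : R)
    (ha : a * a = 0) (hb : b * b = 0) (hc : c * c = 0) (hd : d * d = 0) :
    (α * c + β * d + γ * (a * b) + δ * (c * d * a) + ε * (c * d * b)) *
    (X * (a * b) + Y * (c * d * a) + Z * (c * d * b)) =
    X * α * (a * b * c) + X * β * (a * b * d) := by
  grind

abbrev F : Type := AlgebraicClosure (ZMod 2)

theorem two_F : (2 : F) = 0 := by
  have : CharP F 2 := inferInstance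
  exact_mod_cast CharP.cast_eq_zero F 2

theorem exists_omega : ∃ ω : F, ω ^ 2 + ω + 1 = 0 := by
  obtain ⟨x, hx⟩ := IsAlgClosed.exists_root (Polynomial.X ^ 2 + Polynomial.X + 1 : Polynomial F)
    (by
      have : (Polynomial.X ^ 2 + Polynomial.X + 1 : Polynomial F).degree = 2 := by
        compute_degree!
      rw [this]; decide)
  exact ⟨x, by simpa using hx⟩

noncomputable def I : Ideal (MvPolynomial ℕ F) :=
  Ideal.span ((fun s => MvPolynomial.monomial s (1 : F)) '' {s | ∃ i : ℕ, s = Finsupp.single i 2})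

def R : Type := MvPolynomial ℕ F ⧸ I

noncomputable instance : CommRing R := inferInstanceAs (CommRing (MvPolynomial ℕ F ⧸ I))
noncomputable instance : Algebra F R := inferInstanceAs (Algebra F (MvPolynomial ℕ F ⧸ I))

noncomputable def q : MvPolynomial ℕ F →+* R := Ideal.Quotient.mk I

theorem q_eq {p : MvPolynomial ℕ F} : q p = 0 ↔ p ∈ I := Ideal.Quotient.eq_zero_iff_mem

noncomputable def x (i : ℕ) : R := q (MvPolynomial.X i)

theorem x_sq (i : ℕ) : x i * x i = 0 := by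
  rw [x, ← map_mul, q_eq]
  apply Ideal.subset_span
  refine ⟨Finsupp.single i 2, ⟨i, rfl⟩, ?_⟩
  simp only
  rw [← pow_two, MvPolynomial.X_pow_eq_monomial]

theorem prod_ne (s : Finset ℕ) : ∏ i ∈ s, x i ≠ 0 := by
  intro h
  simp only [x] at h
  rw [← map_prod, q_eq, I,
    MvPolynomial.mem_ideal_span_monomial_image] at h
  have e : (∏ i ∈ s, MvPolynomial.X i : MvPolynomial ℕ F) =
      MvPolynomial.monomial (∑ i ∈ s, Finsupp.single i 1) 1 := by
    rw [MvPolynomial.monomial_sum_one]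
    rfl
  rw [e] at h
  obtain ⟨_, ⟨i, rfl⟩, hi⟩ := h (∑ i ∈ s, Finsupp.single i 1)
    (by classical rw [MvPolynomial.support_monomial]; simp)
  have := hi i
  simp only [Finsupp.single_eq_same, Finsupp.coe_finsetSum, Finset.sum_apply,
    Finsupp.single_apply] at this
  rw [Finset.sum_ite_eq'] at this
  split_ifs at this <;> omega

theorem two_R : (2 : R) = 0 := by
  have : (2 : R) = algebraMap F R 2 := (map_ofNat _ 2).symm
  rw [this, two_F, map_zero]

/-- the square-zero elements -/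
def B : Submodule F R where
  carrier := {u | u * u = 0}
  add_mem' := by
    intro u v hu hv
    simp only [Set.mem_ofPred_eq] at *
    linear_combination hu + hv + u * v * two_R
  zero_mem' := by simp
  smul_mem' := by
    intro c u hu
    simp only [Set.mem_ofPred_eq] at *
    rw [smul_mul_smul_comm, hu, smul_zero]

theorem B_sq (u : B) : (u : R) * u = 0 := u.2

noncomputable def bmul (u v : B) : B := ⟨u * v, by
  change (u * v : R) * (u * v) = 0
  linear_combination (v * v : R) * B_sq u⟩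

@[simp] theorem coe_bmul (u v : B) : (bmul u v : R) = u * v := rfl

noncomputable def pm : (B × B) →ₗ[F] (B × B) →ₗ[F] (B × B) :=
  LinearMap.mk₂ F (fun a b => (bmul a.2 b.2, bmul a.1 b.1))
    (by intro a a' b; ext <;> simp [add_mul])
    (by intro c a b; ext <;> simp)
    (by intro a b b'; ext <;> simp [mul_add])
    (by intro c a b; ext <;> simp)

abbrev A := Alg pm

noncomputable def c1 (a : A) : R := ((mk pm).symm a).1
noncomputable def c2 (a : A) : R := ((mk pm).symm a).2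

theorem c1_mul (a b : A) : c1 (a * b) = c2 a * c2 b := rfl
theorem c2_mul (a b : A) : c2 (a * b) = c1 a * c1 b := rfl
theorem c1_add (a b : A) : c1 (a + b) = c1 a + c1 b := rfl
theorem c2_add (a b : A) : c2 (a + b) = c2 a + c2 b := rfl
theorem c1_smul (k : F) (a : A) : c1 (k • a) = k • c1 a := rfl
theorem c2_smul (k : F) (a : A) : c2 (k • a) = k • c2 a := rfl
theorem c1_zero : c1 0 = 0 := rfl
theorem c2_zero : c2 0 = 0 := rfl
theorem c1_sq (a : A) : c1 a * c1 a = 0 := B_sq _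
theorem c2_sq (a : A) : c2 a * c2 a = 0 := B_sq _

theorem A_ext {a b : A} (h1 : c1 a = c1 b) (h2 : c2 a = c2 b) : a = b := by
  apply (mk pm).symm.injective
  exact Prod.ext (Subtype.ext h1) (Subtype.ext h2)

theorem A_sq (a : A) : a * a = 0 :=
  A_ext (by rw [c1_mul, c1_zero, c2_sq]) (by rw [c2_mul, c2_zero, c1_sq])

def Par (a b u : A) (α β γ δ ε : R) : Prop :=
  c1 u = α * c1 a + β * c1 b + γ * (c2 a * c2 b) + δ * (c1 a * c1 b * c2 a)
      + ε * (c1 a * c1 b * c2 b) ∧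
  c2 u = α * c2 a + β * c2 b + γ * (c1 a * c1 b) + δ * (c2 a * c2 b * c1 a)
      + ε * (c2 a * c2 b * c1 b)

noncomputable def T (a b : A) : NonUnitalSubalgebra F A where
  carrier := {u | ∃ α β γ δ ε, Par a b u α β γ δ ε}
  add_mem' := by
    rintro u v ⟨α, β, γ, δ, ε, h1, h2⟩ ⟨α', β', γ', δ', ε', k1, k2⟩
    refine ⟨α + α', β + β', γ + γ', δ + δ', ε + ε', ?_, ?_⟩
    · rw [c1_add, h1, k1]; ring
    · rw [c2_add, h2, k2]; ring
  zero_mem' := ⟨0, 0, 0, 0, 0, by simp [c1_zero], by simp [c2_zero]⟩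
  mul_mem' := by
    rintro u v ⟨α, β, γ, δ, ε, h1, h2⟩ ⟨α', β', γ', δ', ε', k1, k2⟩
    refine ⟨0, 0, α * β' + β * α', α * γ' + γ * α', β * γ' + γ * β', ?_, ?_⟩
    · rw [c1_mul, h2, k2, mul1 _ _ _ _ _ _ _ _ _ _ _ _ _ _ (c2_sq a) (c2_sq b) (c1_sq a) (c1_sq b)]
      ring
    · rw [c2_mul, h1, k1, mul1 _ _ _ _ _ _ _ _ _ _ _ _ _ _ (c1_sq a) (c1_sq b) (c2_sq a) (c2_sq b)]
      ring
  smul_mem' := by
    rintro c u ⟨α, β, γ, δ, ε, h1, h2⟩
    refine ⟨algebraMap F R c * α, algebraMap F R c * β, algebraMap F R c * γ,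
      algebraMap F R c * δ, algebraMap F R c * ε, ?_, ?_⟩
    · rw [c1_smul, Algebra.smul_def, h1]; ring
    · rw [c2_smul, Algebra.smul_def, h2]; ring

theorem adjoin_le (a b : A) : NonUnitalAlgebra.adjoin F ({a, b} : Set A) ≤ T a b := by
  apply NonUnitalAlgebra.adjoin_le
  rintro u (rfl | rfl)
  · exact ⟨1, 0, 0, 0, 0, by simp, by simp⟩
  · exact ⟨0, 1, 0, 0, 0, by simp, by simp⟩

theorem triple {a b u v w : A} {α β γ δ ε α' β' γ' δ' ε' α'' β'' γ'' δ'' ε'' : R}
    (hu : Par a b u α β γ δ ε) (hv : Par a b v α' β' γ' δ' ε')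
    (hw : Par a b w α'' β'' γ'' δ'' ε'') :
    c1 (u * (v * w)) = (α' * β'' + β' * α'') * α * (c1 a * c1 b * c2 a)
        + (α' * β'' + β' * α'') * β * (c1 a * c1 b * c2 b) ∧
    c2 (u * (v * w)) = (α' * β'' + β' * α'') * α * (c2 a * c2 b * c1 a)
        + (α' * β'' + β' * α'') * β * (c2 a * c2 b * c1 b) := by
  constructor
  · rw [c1_mul, c2_mul, hu.2, hv.1, hw.1,
      mul1 _ _ _ _ _ _ _ _ _ _ _ _ _ _ (c1_sq a) (c1_sq b) (c2_sq a) (c2_sq b),
      mul2 _ _ _ _ _ _ _ _ _ _ _ _ (c1_sq a) (c1_sq b) (c2_sq a) (c2_sq b)]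
  · rw [c2_mul, c1_mul, hu.1, hv.2, hw.2,
      mul1 _ _ _ _ _ _ _ _ _ _ _ _ _ _ (c2_sq a) (c2_sq b) (c1_sq a) (c1_sq b),
      mul2 _ _ _ _ _ _ _ _ _ _ _ _ (c2_sq a) (c2_sq b) (c1_sq a) (c1_sq b)]

theorem jacobi (a b u v w : A) (hu : u ∈ T a b) (hv : v ∈ T a b) (hw : w ∈ T a b) :
    u * (v * w) + v * (w * u) + w * (u * v) = 0 := by
  obtain ⟨α, β, γ, δ, ε, hu⟩ := hu
  obtain ⟨α', β', γ', δ', ε', hv⟩ := hv
  obtain ⟨α'', β'', γ'', δ'', ε'', hw⟩ := hw
  have h1 := triple hu hv hw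
  have h2 := triple hv hw hu
  have h3 := triple hw hu hv
  apply A_ext
  · rw [c1_add, c1_add, h1.1, h2.1, h3.1, c1_zero]
    linear_combination ((α * α' * β'' + α * β' * α'' + β * α' * α'') * (c1 a * c1 b * c2 a)
      + (β * α' * β'' + β * β' * α'' + α * β' * β'') * (c1 a * c1 b * c2 b)) * two_R
  · rw [c2_add, c2_add, h1.2, h2.2, h3.2, c2_zero]
    linear_combination ((α * α' * β'' + α * β' * α'' + β * α' * α'') * (c2 a * c2 b * c1 a)
      + (β * α' * β'' + β * β' * α'' + α * β' * β'') * (c2 a * c2 b * c1 b)) * two_R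

noncomputable def phi (ω : F) (hω : ω ^ 2 + ω + 1 = 0) : A →ₙₐ[F] A where
  toFun a := mk pm (ω • ((mk pm).symm a).1, ω ^ 2 • ((mk pm).symm a).2)
  map_smul' k a := by
    apply A_ext
    · change ω • (k • c1 a) = k • (ω • c1 a)
      rw [smul_comm]
    · change ω ^ 2 • (k • c2 a) = k • (ω ^ 2 • c2 a)
      rw [smul_comm]
  map_zero' := by
    apply A_ext
    · change ω • (0 : R) = 0
      simp
    · change ω ^ 2 • (0 : R) = 0
      simp
  map_add' a b := by
    apply A_ext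
    · change ω • (c1 a + c1 b) = ω • c1 a + ω • c1 b
      rw [smul_add]
    · change ω ^ 2 • (c2 a + c2 b) = ω ^ 2 • c2 a + ω ^ 2 • c2 b
      rw [smul_add]
  map_mul' a b := by
    apply A_ext
    · change ω • (c2 a * c2 b) = (ω ^ 2 • c2 a) * (ω ^ 2 • c2 b)
      rw [smul_mul_smul_comm]
      congr 1
      linear_combination (ω - ω ^ 2) * hω
    · change ω ^ 2 • (c1 a * c1 b) = (ω • c1 a) * (ω • c1 b)
      rw [smul_mul_smul_comm, pow_two]

theorem c1_phi (ω : F) (hω : ω ^ 2 + ω + 1 = 0) (a : A) : c1 (phi ω hω a) = ω • c1 a := rfl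
theorem c2_phi (ω : F) (hω : ω ^ 2 + ω + 1 = 0) (a : A) : c2 (phi ω hω a) = ω ^ 2 • c2 a := rfl

theorem fix_aux {k : F} (hk : k ≠ 1) {r : R} (h : k • r = r) : r = 0 := by
  have h1 : (k - 1) • r = 0 := by rw [sub_smul, h, one_smul, sub_self]
  exact (smul_eq_zero.mp h1).resolve_left (sub_ne_zero.mpr hk)

theorem phi_regular (ω : F) (hω : ω ^ 2 + ω + 1 = 0) (a : A) (h : phi ω hω a = a) : a = 0 := by
  have h1 : ω ≠ 1 := by
    intro e
    rw [e] at hω
    have : (1 : F) = 0 := by linear_combination hω - two_F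
    exact one_ne_zero this
  have h2 : ω ^ 2 ≠ 1 := by
    intro e
    have h0 : ω = 0 := by linear_combination hω - e - two_F
    rw [h0] at e
    simp at e
  apply A_ext
  · exact fix_aux h1 (by rw [← c1_phi ω hω, h])
  · exact fix_aux h2 (by rw [← c2_phi ω hω, h])

theorem phi_three (ω : F) (hω : ω ^ 2 + ω + 1 = 0) (a : A) : (phi ω hω)^[3] a = a := by
  change phi ω hω (phi ω hω (phi ω hω a)) = a
  apply A_ext
  · simp only [c1_phi, smul_smul]
    have : ω * (ω * ω) = 1 := by linear_combination (ω - 1) * hω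
    rw [this, one_smul]
  · simp only [c2_phi, smul_smul]
    have : ω ^ 2 * (ω ^ 2 * ω ^ 2) = 1 := by linear_combination (ω - 1) * (ω ^ 3 + 1) * hω
    rw [this, one_smul]

noncomputable def P (a k : ℕ) : R := ∏ i ∈ Finset.range (2 ^ k), x (a + i)

theorem P_succ (a k : ℕ) : P a (k + 1) = P a k * P (a + 2 ^ k) k := by
  simp only [P, pow_succ, mul_two, Finset.prod_range_add, add_assoc]

theorem P_ne (k : ℕ) : P 0 k ≠ 0 := by
  simpa [P] using prod_ne (Finset.range (2 ^ k))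

theorem derived (D : ℕ → Submodule F A) (h0 : D 0 = ⊤)
    (hs : ∀ i : ℕ, D (i + 1) = Submodule.span F {z : A | ∃ x ∈ D i, ∃ y ∈ D i, x * y = z})
    (k : ℕ) : ∀ a : ℕ, ∃ u ∈ D k, c1 u = P a k ∧ c2 u = P a k := by
  induction k with
  | zero =>
    intro a
    refine ⟨mk pm (⟨x a, x_sq a⟩, ⟨x a, x_sq a⟩), by simp [h0], ?_, ?_⟩
    · simp [P]; rfl
    · simp [P]; rfl
  | succ k ih =>
    intro a
    obtain ⟨u, hu, u1, u2⟩ := ih a
    obtain ⟨v, hv, v1, v2⟩ := ih (a + 2 ^ k)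
    refine ⟨u * v, ?_, ?_, ?_⟩
    · rw [hs]; exact Submodule.subset_span ⟨u, hu, v, hv, rfl⟩
    · rw [c1_mul, u2, v2, P_succ]
    · rw [c2_mul, u1, v1, P_succ]

end Pool.Agent.H48.BinLie
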