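import Mathlib

/-! Schur-type trace domination of eigenvalues and the de Bruijn-Springer inequality. -/

namespace Pool.Agent.H48.Borcea

open Matrix Polynomial Finset

lemma exists_unitary {n : ℕ} (A : Matrix (Fin (n + 1)) (Fin (n + 1)) ℂ) :
    ∃ U : Matrix (Fin (n + 1)) (Fin (n + 1)) ℂ, star U * U = 1 ∧ U * star U = 1 ∧
      ∀ i : Fin n, (star U * A * U) i.succ 0 = 0 := by
  classical
  obtain ⟨μ, hμ⟩ := Module.End.exists_eigenvalue (Matrix.toLin' A)
  obtain ⟨v, hv⟩ := hμ.exists_hasEigenvector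
  have hv0 : v ≠ 0 := hv.2
  have hv1 : A *ᵥ v = μ • v := by simpa using hv.apply_eq_smul
  let w : EuclideanSpace ℂ (Fin (n + 1)) := WithLp.toLp 2 v
  have hw0 : w ≠ 0 := by
    intro h
    apply hv0
    have := congrArg (fun x : EuclideanSpace ℂ (Fin (n + 1)) => x.ofLp) h
    simpa [w] using this
  let u : EuclideanSpace ℂ (Fin (n + 1)) := ((‖w‖⁻¹ : ℝ) : ℂ) • w
  have hu : ‖u‖ = 1 := by
    simp only [u, norm_smul, Complex.norm_real, norm_inv, norm_norm]
    exact inv_mul_cancel₀ (norm_ne_zero_iff.2 hw0)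
  have ho : Orthonormal ℂ (({0} : Set (Fin (n + 1))).domRestrict fun _ => u) := by
    constructor
    · intro i; exact hu
    · intro i j hij
      exact absurd (Subtype.ext (i.2.trans j.2.symm)) hij
  obtain ⟨b, hb⟩ := ho.exists_orthonormalBasis_extension_of_card_eq (ι := Fin (n + 1)) (by simp)
  have hb0 : b 0 = u := hb 0 rfl
  let U : Matrix (Fin (n + 1)) (Fin (n + 1)) ℂ := Matrix.of fun i j => b j i
  have h1 : star U * U = 1 := by
    ext i j
    have := (orthonormal_iff_ite.1 b.orthonormal) i j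
    rw [EuclideanSpace.inner_eq_star_dotProduct] at this
    simp only [Matrix.mul_apply, Matrix.star_apply, U, Matrix.of_apply, Matrix.one_apply]
    rw [← this]
    simp [dotProduct, mul_comm]
  refine ⟨U, h1, mul_eq_one_comm.1 h1, fun i => ?_⟩
  have h2 : ∀ k, (A * U) k 0 = μ * U k 0 := by
    intro k
    have := congrFun hv1 k
    simp only [Matrix.mulVec, dotProduct, Pi.smul_apply, smul_eq_mul] at this
    simp only [Matrix.mul_apply, U, Matrix.of_apply, hb0, u, w, PiLp.smul_apply, smul_eq_mul]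
    rw [← mul_assoc, mul_comm μ, mul_assoc, ← this, Finset.mul_sum]
    exact Finset.sum_congr rfl fun x _ => by ring
  rw [Matrix.mul_assoc, Matrix.mul_apply]
  simp only [h2]
  have h3 := congrFun (congrFun h1 i.succ) 0
  rw [Matrix.mul_apply, Matrix.one_apply_ne (Fin.succ_ne_zero i)] at h3
  calc ∑ x, star U i.succ x * (μ * U x 0) = μ * ∑ x, star U i.succ x * U x 0 := by
        rw [Finset.mul_sum]; exact Finset.sum_congr rfl fun x _ => by ring
    _ = 0 := by rw [h3, mul_zero]

lemma charpoly_col {n : ℕ} (A : Matrix (Fin (n + 1)) (Fin (n + 1)) ℂ)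
    (h : ∀ i : Fin n, A i.succ 0 = 0) :
    A.charpoly = (X - C (A 0 0)) * (A.submatrix Fin.succ Fin.succ).charpoly := by
  unfold Matrix.charpoly
  rw [Matrix.det_succ_column_zero, Fin.sum_univ_succ, Finset.sum_eq_zero]
  · simp only [Fin.val_zero, pow_zero, one_mul, add_zero, charmatrix_apply_eq, Fin.succAbove_zero]
    congr 2
    ext i j : 2
    by_cases hij : i = j
    · subst hij; simp
    · rw [Matrix.submatrix_apply, charmatrix_apply_ne _ _ _ hij,
        charmatrix_apply_ne _ _ _ (fun e => hij (Fin.succ_injective _ e))]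
      rfl
  · intro i _
    rw [charmatrix_apply_ne _ _ _ (Fin.succ_ne_zero i), h i]
    simp

lemma form_conj {m : Type*} [Fintype m] (U A : Matrix m m ℂ) (u : m → ℂ) :
    star u ⬝ᵥ (star U * A * U) *ᵥ u = star (U *ᵥ u) ⬝ᵥ A *ᵥ (U *ᵥ u) := by
  rw [Matrix.star_mulVec, ← Matrix.mulVec_mulVec, ← Matrix.mulVec_mulVec, Matrix.dotProduct_mulVec]
  rfl

lemma form_cons {n : ℕ} (A : Matrix (Fin (n + 1)) (Fin (n + 1)) ℂ) (u : Fin n → ℂ) :
    star u ⬝ᵥ (A.submatrix Fin.succ Fin.succ) *ᵥ u =
      star (Fin.cons 0 u : Fin (n + 1) → ℂ) ⬝ᵥ A *ᵥ (Fin.cons 0 u : Fin (n + 1) → ℂ) := by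
  simp [dotProduct, Matrix.mulVec, Fin.sum_univ_succ]

theorem schur_dom (n : ℕ) : ∀ A H : Matrix (Fin n) (Fin n) ℂ,
    (∀ u : Fin n → ℂ, ‖star u ⬝ᵥ A *ᵥ u‖ ≤ (star u ⬝ᵥ H *ᵥ u).re) →
    (A.charpoly.roots.map fun x => ‖x‖).sum ≤ H.trace.re := by
  induction n with
  | zero => intro A H _; simp [Matrix.charpoly, Matrix.trace]
  | succ n ih =>
    intro A H h
    obtain ⟨U, h1, h2, h3⟩ := exists_unitary A
    have e1 : A.charpoly = (star U * A * U).charpoly := by
      rw [Matrix.charpoly_mul_comm, ← Matrix.mul_assoc, h2, Matrix.one_mul]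
    have e2 : H.trace = (star U * H * U).trace := by
      rw [Matrix.trace_mul_comm, ← Matrix.mul_assoc, h2, Matrix.one_mul]
    have h' : ∀ u : Fin (n + 1) → ℂ, ‖star u ⬝ᵥ (star U * A * U) *ᵥ u‖ ≤
        (star u ⬝ᵥ (star U * H * U) *ᵥ u).re := fun u => by
      rw [form_conj, form_conj]; exact h _
    rw [e1, e2]
    generalize star U * A * U = A' at *
    generalize star U * H * U = H' at *
    have i1 := ih (A'.submatrix Fin.succ Fin.succ) (H'.submatrix Fin.succ Fin.succ) fun u => by
      rw [form_cons, form_cons]; exact h' _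
    have i2 := h' (Pi.single 0 1)
    simp only [Matrix.mulVec_single_one, Pi.star_single, star_one, single_one_dotProduct,
      Matrix.col_apply] at i2
    rw [charpoly_col A' h3, Polynomial.roots_mul
      (mul_ne_zero (X_sub_C_ne_zero _) (Matrix.charpoly_monic _).ne_zero), roots_X_sub_C]
    simp only [Multiset.singleton_add, Multiset.map_cons, Multiset.sum_cons]
    have e3 : H'.trace = H' 0 0 + (H'.submatrix Fin.succ Fin.succ).trace := by
      simp [Matrix.trace, Fin.sum_univ_succ]
    rw [e3, Complex.add_re]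
    linarith

lemma det_rank_one {n : ℕ} (a s : Fin n → ℂ) (κ : ℂ) (ha : ∀ k, a k ≠ 0) :
    (Matrix.diagonal a + Matrix.of fun _ k => κ * s k).det =
      (∏ k, a k) * (1 + ∑ k, κ * s k / a k) := by
  have : (Matrix.diagonal a + Matrix.of fun _ k => κ * s k) = Matrix.diagonal a *
      (1 + replicateCol Unit (fun k => κ / a k) * replicateRow Unit s) := by
    ext i j
    have := ha i
    rw [Matrix.diagonal_mul]
    by_cases hij : i = j
    · subst hij
      simp [Matrix.mul_apply]
      field_simp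
    · simp [Matrix.mul_apply, hij]
      field_simp
  rw [this, det_mul, det_diagonal, det_one_add_replicateCol_mul_replicateRow]
  congr 2
  exact Finset.sum_congr rfl fun k _ => by ring

lemma eval_deriv {n : ℕ} (z : Fin n → ℂ) (x : ℂ) (ha : ∀ k, x - z k ≠ 0) :
    (derivative (∏ k, (X - C (z k)))).eval x = (∏ k, (x - z k)) * ∑ k, 1 / (x - z k) := by
  classical
  rw [Polynomial.derivative_prod_finset, Polynomial.eval_finsetSum, Finset.mul_sum]
  refine Finset.sum_congr rfl fun k _ => ?_
  rw [← Finset.mul_prod_erase Finset.univ (fun k => x - z k) (Finset.mem_univ k)]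
  have := ha k
  simp only [derivative_sub, derivative_X, derivative_C, sub_zero, mul_one, eval_prod, eval_sub,
    eval_X, eval_C]
  field_simp

theorem dBS {n : ℕ} (hn : 0 < n) (z : Fin n → ℂ) (c : ℂ) {ι : Type*} [Fintype ι] (w : ι → ℂ)
    (hw : derivative (∏ k, (X - C (z k))) = C (n : ℂ) * ∏ j, (X - C (w j))) :
    ∑ j, ‖w j - c‖ ≤ (1 - 1 / n) * ∑ k, ‖z k - c‖ := by
  classical
  have hn' : (n : ℂ) ≠ 0 := by exact_mod_cast hn.ne'
  let P : Matrix (Fin n) (Fin n) ℂ := 1 - Matrix.of fun _ _ => (n : ℂ)⁻¹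
  have hP : star P = P := by
    ext i j
    simp [P, Matrix.star_apply, Matrix.one_apply, eq_comm]
  have hPP : P * P = P := by
    have : (Matrix.of fun _ _ => (n : ℂ)⁻¹ : Matrix (Fin n) (Fin n) ℂ) *
        (Matrix.of fun _ _ => (n : ℂ)⁻¹ : Matrix (Fin n) (Fin n) ℂ) =
        Matrix.of fun _ _ => (n : ℂ)⁻¹ := by
      ext i j
      simp [Matrix.mul_apply]
      field_simp
    simp only [P, Matrix.sub_mul, Matrix.mul_sub, Matrix.one_mul, Matrix.mul_one, this]
    simp
  let T : Matrix (Fin n) (Fin n) ℂ := Matrix.diagonal fun k => z k - c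
  let D : Matrix (Fin n) (Fin n) ℂ := Matrix.diagonal fun k => ((‖z k - c‖ : ℝ) : ℂ)
  have key := schur_dom n (star P * T * P) (star P * D * P) fun u => by
    rw [form_conj, form_conj]
    generalize P *ᵥ u = v
    simp only [T, D, dotProduct, Matrix.mulVec_diagonal, Pi.star_apply, Complex.re_sum]
    refine (norm_sum_le _ _).trans (le_of_eq (Finset.sum_congr rfl fun k _ => ?_))
    rw [mul_left_comm, mul_left_comm (star (v k)), Complex.star_def, Complex.conj_mul']
    rw [norm_mul, ← Complex.ofReal_pow, ← Complex.ofReal_mul, Complex.ofReal_re, Complex.norm_real]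
    simp
  have e1 : (star P * T * P).charpoly = X * ∏ j, (X - C (w j - c)) := by
    rw [Matrix.charpoly_mul_comm, ← Matrix.mul_assoc, hP, hPP]
    apply Polynomial.eq_of_infinite_eval_eq
    refine Set.Infinite.mono ?_ (Set.finite_range fun k => z k - c).infinite_compl
    intro x hx
    have ha : ∀ k, x - (z k - c) ≠ 0 := fun k e => hx ⟨k, (sub_eq_zero.1 e).symm⟩
    have hb : ∀ k, x + c - z k ≠ 0 := fun k e => ha k (by rw [← e]; ring)
    have e2 : Matrix.scalar (Fin n) x - P * T = Matrix.diagonal (fun k => x - (z k - c)) +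
        Matrix.of fun _ k => (n : ℂ)⁻¹ * (z k - c) := by
      ext i j
      by_cases hij : i = j
      · subst hij
        simp [P, T, Matrix.mul_diagonal]
        ring
      · simp [P, T, Matrix.mul_diagonal, hij]
    have e3 := congrArg (Polynomial.eval (x + c)) hw
    rw [eval_deriv z _ hb] at e3
    simp only [eval_mul, eval_C, eval_prod, eval_sub, eval_X] at e3
    simp only [Set.mem_ofPred_eq, Matrix.eval_charpoly, e2, det_rank_one _ _ _ ha, eval_mul, eval_X,
      eval_prod, eval_sub, eval_C]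
    have e4 : ∀ y : ℂ, x - (y - c) = x + c - y := fun y => by ring
    simp only [e4]
    have e5 : (1 : ℂ) + ∑ k, (n : ℂ)⁻¹ * (z k - c) / (x + c - z k) =
        (n : ℂ)⁻¹ * x * ∑ k, 1 / (x + c - z k) := by
      have : (1 : ℂ) = ∑ _k : Fin n, (n : ℂ)⁻¹ := by simp [hn']
      rw [Finset.mul_sum]
      conv_lhs => rw [this]
      rw [← Finset.sum_add_distrib]
      refine Finset.sum_congr rfl fun k _ => ?_
      have := hb k
      field_simp
      ring
    rw [e5, mul_left_comm, e3]
    field_simp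
  have e6 : (star P * D * P).trace.re = (1 - 1 / n) * ∑ k, ‖z k - c‖ := by
    rw [Matrix.trace_mul_comm, ← Matrix.mul_assoc, hP, hPP]
    simp only [Matrix.trace, Matrix.diag, D, Matrix.mul_diagonal, P, Matrix.sub_apply,
      Matrix.one_apply_eq, Matrix.of_apply, Complex.re_sum, Finset.mul_sum]
    refine Finset.sum_congr rfl fun k _ => ?_
    have : (1 - (n : ℂ)⁻¹) = ((1 - 1 / n : ℝ) : ℂ) := by push_cast; simp
    rw [this, ← Complex.ofReal_mul, Complex.ofReal_re]
  rw [e1, e6, Polynomial.roots_mul (mul_ne_zero X_ne_zero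
    (Finset.prod_ne_zero_iff.2 fun j _ => X_sub_C_ne_zero _)), roots_X,
    Finset.prod_eq_multiset_prod, ← Function.comp_def (fun y => X - C y) (fun j => w j - c),
    ← Multiset.map_map, Polynomial.roots_multiset_prod_X_sub_C] at key
  rw [Multiset.singleton_add, Multiset.map_cons, Multiset.sum_cons, norm_zero, zero_add,
    Multiset.map_map] at key
  exact key

end Pool.Agent.H48.Borcea
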