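import Mathlib
import Pool.Agent.H48.Borcea1

/-! Laguerre's theorem, the Grace-Walsh-Szego coincidence theorem for a disc and an
Enestrom-Kakeya estimate. -/

namespace Pool.Agent.H48.Borcea

open Polynomial Finset

lemma exists_fact (P : ℂ[X]) :
    ∃ r : Fin P.natDegree → ℂ, P = C P.leadingCoeff * ∏ i, (X - C (r i)) := by
  have hs := IsAlgClosed.splits P
  have h1 := hs.eq_prod_roots
  have h2 := hs.natDegree_eq_card_roots
  obtain ⟨l, hl⟩ := Quot.exists_rep P.roots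
  have hl' : (l : Multiset ℂ) = P.roots := hl
  have h3 : P.natDegree = l.length := by rw [h2, ← hl']; simp
  refine ⟨fun i => l[(i : ℕ)]'(h3 ▸ i.2), ?_⟩
  conv_lhs => rw [h1, ← hl']
  congr 1
  rw [Multiset.map_coe, Multiset.prod_coe, ← Fin.prod_univ_fun_getElem l fun a => X - C a]
  exact Fintype.prod_equiv (finCongr h3.symm) _ _ fun i => rfl

lemma laguerre (P : ℂ[X]) (m : ℕ) (hm : 0 < m) (hP : P.natDegree ≤ m) (ρ : ℝ)
    (h : ∀ z : ℂ, ‖z‖ ≤ ρ → P.eval z ≠ 0) (ζ z : ℂ) (hζ : ‖ζ‖ ≤ ρ) (hz : ‖z‖ ≤ ρ) :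
    m * P.eval z + (ζ - z) * (derivative P).eval z ≠ 0 := by
  obtain ⟨r, hr⟩ := exists_fact P
  generalize P.leadingCoeff = a at hr
  generalize P.natDegree = k at r hr hP
  subst hr
  have hρ : 0 ≤ ρ := (norm_nonneg _).trans hz
  have hr : ∀ i, ρ < ‖r i‖ := fun i => lt_of_not_ge fun hi => h _ hi (by
    simp only [eval_mul, eval_prod, eval_sub, eval_X, eval_C]
    rw [Finset.prod_eq_zero (Finset.mem_univ i) (sub_self _), mul_zero])
  have hb : ∀ i, z - r i ≠ 0 := fun i e => by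
    have := hr i
    rw [← sub_eq_zero.1 e] at this
    linarith
  have h0 := h z hz
  rw [derivative_C_mul, eval_mul, eval_mul, eval_deriv r z hb]
  simp only [eval_mul, eval_prod, eval_sub, eval_X, eval_C] at h0 ⊢
  intro e
  set σ := ∑ i, 1 / (z - r i) with hσ
  have e1 : (z - ζ) * σ = m := by
    apply mul_left_cancel₀ h0
    linear_combination -e
  have hm' : (0 : ℝ) < m := by exact_mod_cast hm
  have φ : ∀ (u : ℂ) (t : ℝ), ‖z * u - t‖ ^ 2 = t ^ 2 - 2 * t * (z * u).re + ‖z‖ ^ 2 * ‖u‖ ^ 2 := by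
    intro u t
    rw [← mul_pow, ← norm_mul, Complex.sq_norm, Complex.sq_norm, Complex.normSq_apply,
      Complex.normSq_apply]
    simp only [Complex.sub_re, Complex.sub_im, Complex.ofReal_re, Complex.ofReal_im]
    ring
  have hβ : 0 ≤ ρ ^ 2 - ‖z‖ ^ 2 := sub_nonneg.2 (pow_le_pow_left₀ (norm_nonneg _) hz 2)
  have h1 : ∀ i, (ρ ^ 2 - ‖z‖ ^ 2) * ‖1 / (z - r i)‖ ^ 2 < 1 - 2 * (z * (1 / (z - r i))).re := by
    intro i
    have a1 := φ (1 / (z - r i)) 1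
    have a2 : z * (1 / (z - r i)) - ((1 : ℝ) : ℂ) = r i * (1 / (z - r i)) := by
      have := hb i
      push_cast
      field_simp
      ring
    rw [a2, norm_mul, mul_pow] at a1
    have a3 : 0 < ‖1 / (z - r i)‖ ^ 2 := pow_pos (norm_pos_iff.2 (one_div_ne_zero (hb i))) 2
    have a4 : ρ ^ 2 < ‖r i‖ ^ 2 := pow_lt_pow_left₀ (hr i) hρ two_ne_zero
    nlinarith
  have h2 : (m : ℝ) ^ 2 - 2 * m * (z * σ).re ≤ (ρ ^ 2 - ‖z‖ ^ 2) * ‖σ‖ ^ 2 := by
    have a1 := φ σ m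
    have a2 : z * σ - ((m : ℝ) : ℂ) = ζ * σ := by push_cast; linear_combination e1
    rw [a2, norm_mul, mul_pow] at a1
    have a4 : ‖ζ‖ ^ 2 ≤ ρ ^ 2 := pow_le_pow_left₀ (norm_nonneg _) hζ 2
    nlinarith [sq_nonneg ‖σ‖]
  have h3 : ‖σ‖ ^ 2 ≤ m * ∑ i, ‖1 / (z - r i)‖ ^ 2 := by
    have a1 : ‖σ‖ ≤ ∑ i, ‖1 / (z - r i)‖ := norm_sum_le _ _
    have a2 := sq_sum_le_card_mul_sum_sq (s := Finset.univ) (f := fun i => ‖1 / (z - r i)‖)
    simp only [Finset.card_univ, Fintype.card_fin] at a2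
    have a3 : (k : ℝ) ≤ m := by exact_mod_cast hP
    have a4 : 0 ≤ ∑ i, ‖1 / (z - r i)‖ ^ 2 := Finset.sum_nonneg fun _ _ => sq_nonneg _
    calc ‖σ‖ ^ 2 ≤ (∑ i, ‖1 / (z - r i)‖) ^ 2 := pow_le_pow_left₀ (norm_nonneg _) a1 2
      _ ≤ _ := a2
      _ ≤ _ := mul_le_mul_of_nonneg_right a3 a4
  rcases Nat.eq_zero_or_pos k with rfl | hk
  · simp [hσ] at e1
    exact hm.ne (by exact_mod_cast e1)
  have : Nonempty (Fin k) := ⟨⟨0, hk⟩⟩
  have h4 := Finset.sum_lt_sum_of_nonempty (Finset.univ_nonempty) fun i _ => h1 i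
  rw [← Finset.mul_sum, Finset.sum_sub_distrib, ← Finset.mul_sum, ← Complex.re_sum,
    ← Finset.mul_sum, ← hσ] at h4
  simp only [Finset.sum_const, Finset.card_univ, Fintype.card_fin, nsmul_eq_mul, mul_one] at h4
  have a3 : (k : ℝ) ≤ m := by exact_mod_cast hP
  have h5 := mul_le_mul_of_nonneg_left h3 hβ
  nlinarith

section GWS
variable {R : Type*} [CommRing R] [Algebra ℂ R]

/-- Apply a functional to the coefficients. -/
noncomputable def coefMap (Λ : R →ₗ[ℂ] ℂ) (G : R[X]) : ℂ[X] :=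
  G.sum fun k a => monomial k (Λ a)

lemma coeff_coefMap (Λ : R →ₗ[ℂ] ℂ) (G : R[X]) (k : ℕ) :
    (coefMap Λ G).coeff k = Λ (G.coeff k) := by
  classical
  simp only [coefMap, Polynomial.sum, finsetSum_coeff, coeff_monomial, Finset.sum_ite_eq']
  split_ifs with h
  · rfl
  · rw [notMem_support_iff.1 h, map_zero]

lemma eval_coefMap (Λ : R →ₗ[ℂ] ℂ) (G : R[X]) (z : ℂ) :
    (coefMap Λ G).eval z = Λ (G.eval (algebraMap ℂ R z)) := by
  simp only [coefMap, Polynomial.sum, eval_finsetSum, eval_monomial]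
  rw [eval_eq_sum, Polynomial.sum, map_sum]
  refine Finset.sum_congr rfl fun k _ => ?_
  rw [← map_pow, mul_comm (G.coeff k), ← Algebra.smul_def, map_smul, smul_eq_mul, mul_comm]

lemma deriv_coefMap (Λ : R →ₗ[ℂ] ℂ) (G : R[X]) :
    derivative (coefMap Λ G) = coefMap Λ (derivative G) := by
  ext k
  rw [coeff_derivative, coeff_coefMap, coeff_coefMap, coeff_derivative]
  have : ((k : R) + 1) = algebraMap ℂ R ((k : ℂ) + 1) := by simp
  rw [this, mul_comm (G.coeff _), ← Algebra.smul_def, map_smul, smul_eq_mul, mul_comm]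

lemma gws_step (Λ : R →ₗ[ℂ] ℂ) (u s : R) (ρ : ℝ) (m : ℕ)
    (h : ∀ z : ℂ, ‖z‖ ≤ ρ → Λ ((u + z • s) ^ (m + 1)) ≠ 0) (ζ z : ℂ) (hζ : ‖ζ‖ ≤ ρ)
    (hz : ‖z‖ ≤ ρ) : Λ ((u + ζ • s) * (u + z • s) ^ m) ≠ 0 := by
  have ev : ∀ y : ℂ, (C u + X * C s).eval (algebraMap ℂ R y) = u + y • s := fun y => by
    rw [eval_add, eval_mul, eval_C, eval_C, eval_X, Algebra.smul_def]
  have := laguerre (coefMap Λ ((C u + X * C s) ^ (m + 1))) (m + 1) m.succ_pos ?_ ρ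
    (fun y hy => by rw [eval_coefMap, eval_pow, ev]; exact h y hy) ζ z hζ hz
  · intro e
    apply this
    rw [deriv_coefMap, eval_coefMap, eval_coefMap, eval_pow, ev, derivative_pow_succ]
    simp only [derivative_add, derivative_C, derivative_mul, derivative_X, one_mul, mul_zero,
      add_zero, zero_add, eval_mul, eval_pow, ev, eval_C]
    have e2 : ((m : R) + 1) = algebraMap ℂ R ((m : ℂ) + 1) := by simp
    rw [e2, mul_assoc, ← Algebra.smul_def, map_smul, smul_eq_mul, mul_left_comm]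
    push_cast
    rw [← mul_add, ← smul_eq_mul (ζ - z), ← map_smul, ← map_add]
    have e3 : (u + z • s) ^ (m + 1) + (ζ - z) • ((u + z • s) ^ m * s) =
        (u + ζ • s) * (u + z • s) ^ m := by
      simp only [Algebra.smul_def, map_sub]
      ring
    rw [e3, e, mul_zero]
  · rw [natDegree_le_iff_coeff_eq_zero]
    intro N hN
    rw [coeff_coefMap, coeff_eq_zero_of_natDegree_lt, map_zero]
    refine lt_of_le_of_lt natDegree_pow_le (lt_of_le_of_lt ?_ hN)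
    have : (C u + X * C s).natDegree ≤ 1 := by compute_degree
    nlinarith

theorem gws {ι : Type*} (u s : R) (ρ : ℝ) (d : ι → ℂ) (A : Finset ι) :
    ∀ Λ : R →ₗ[ℂ] ℂ, (∀ j ∈ A, ‖d j‖ ≤ ρ) → 0 ≤ ρ →
      (∀ z : ℂ, ‖z‖ ≤ ρ → Λ ((u + z • s) ^ A.card) ≠ 0) → Λ (∏ j ∈ A, (u + d j • s)) ≠ 0 := by
  classical
  induction A using Finset.induction_on with
  | empty => intro Λ _ hρ h; simpa using h 0 (by simpa using hρ)
  | insert a A ha ih =>
    intro Λ hd hρ h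
    rw [Finset.card_insert_of_notMem ha] at h
    rw [Finset.prod_insert ha]
    exact ih (Λ ∘ₗ LinearMap.mulLeft ℂ (u + d a • s))
      (fun j hj => hd j (Finset.mem_insert_of_mem hj)) hρ
      fun z hz => gws_step Λ u s ρ _ h _ z (hd a (Finset.mem_insert_self _ _)) hz

end GWS

lemma ek (γ : ℕ → ℝ) (μ : ℝ) (z : ℂ) (h0 : ∀ k, 0 ≤ γ k) (h1 : ∀ k, γ (k + 1) ≤ μ * γ k)
    (hz : μ * ‖z‖ ≤ 1) (K : ℕ) :
    ‖(1 - μ * z) * ∑ k ∈ range (K + 1), (γ k : ℂ) * z ^ k - γ 0 + μ * γ K * z ^ (K + 1)‖ +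
      μ * γ K * ‖z‖ ^ (K + 1) ≤ μ * ‖z‖ * γ 0 := by
  induction K with
  | zero =>
    have : (1 - μ * z) * ∑ k ∈ range (0 + 1), (γ k : ℂ) * z ^ k - γ 0 + μ * γ 0 * z ^ (0 + 1) = 0 := by
      simp; ring
    rw [this, norm_zero]
    exact le_of_eq (by ring)
  | succ K ih =>
    have : (1 - μ * z) * ∑ k ∈ range (K + 1 + 1), (γ k : ℂ) * z ^ k - γ 0 +
        μ * γ (K + 1) * z ^ (K + 1 + 1) =
        ((1 - μ * z) * ∑ k ∈ range (K + 1), (γ k : ℂ) * z ^ k - γ 0 + μ * γ K * z ^ (K + 1)) -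
          ((μ * γ K - γ (K + 1) : ℝ) : ℂ) * z ^ (K + 1) := by
      rw [Finset.sum_range_succ _ (K + 1)]
      push_cast
      ring
    rw [this]
    refine le_trans (add_le_add_left (norm_sub_le _ _) _) ?_
    rw [norm_mul, Complex.norm_real, Real.norm_of_nonneg (sub_nonneg.2 (h1 K)), norm_pow]
    have a1 : 0 ≤ γ (K + 1) * ‖z‖ ^ (K + 1) := mul_nonneg (h0 _) (by positivity)
    have a2 := mul_le_mul_of_nonneg_left hz a1
    rw [pow_succ ‖z‖ (K + 1)]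
    nlinarith

lemma ek' (γ : ℕ → ℝ) (μ θ : ℝ) (z : ℂ) (hμ : 0 ≤ μ) (h0 : ∀ k, 0 ≤ γ k)
    (h1 : ∀ k, γ (k + 1) ≤ μ * γ k) (hθ : θ ≤ 1) (hz : μ * ‖z‖ ≤ θ) (K : ℕ) :
    (1 - θ) / 2 * γ 0 ≤ ‖∑ k ∈ range (K + 1), (γ k : ℂ) * z ^ k‖ := by
  have h := ek γ μ z h0 h1 (hz.trans hθ) K
  set q := ∑ k ∈ range (K + 1), (γ k : ℂ) * z ^ k
  have a1 : ‖(γ 0 : ℂ)‖ ≤ ‖(1 - μ * z) * q‖ + ‖(μ * γ K * z ^ (K + 1) : ℂ)‖ +
      ‖(1 - μ * z) * q - γ 0 + μ * γ K * z ^ (K + 1)‖ := by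
    refine le_trans (le_of_eq ?_) ((norm_sub_le _ _).trans (add_le_add_left (norm_add_le _ _) _))
    congr 1
    ring
  have a2 : ‖(1 - μ * z : ℂ)‖ ≤ 2 := by
    refine (norm_sub_le _ _).trans ?_
    rw [norm_one, norm_mul, Complex.norm_real, Real.norm_of_nonneg hμ]
    linarith
  rw [norm_mul, norm_mul, norm_mul, norm_pow, Complex.norm_real, Complex.norm_real,
    Complex.norm_real, Real.norm_of_nonneg hμ, Real.norm_of_nonneg (h0 _),
    Real.norm_of_nonneg (h0 _)] at a1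
  have a3 := mul_le_mul_of_nonneg_right a2 (norm_nonneg q)
  have a4 := mul_le_mul_of_nonneg_right hz (h0 0)
  nlinarith

end Pool.Agent.H48.Borcea
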