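import Mathlib
import Pool.Agent.H48.Borcea2

/-! Lower bounds for the integral of a product of linear factors. -/

namespace Pool.Agent.H48.Borcea

open Finset intervalIntegral

/-- Beta integral. -/
noncomputable def bI (a b : ℕ) : ℝ := ∫ t in (0 : ℝ)..1, t ^ a * (1 - t) ^ b

lemma bI_nonneg (a b : ℕ) : 0 ≤ bI a b :=
  integral_nonneg zero_le_one fun _ ht =>
    mul_nonneg (pow_nonneg ht.1 _) (pow_nonneg (sub_nonneg.2 ht.2) _)

lemma bI_zero (b : ℕ) : (b + 1) * bI 0 b = 1 := by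
  have := integral_comp_sub_left (fun t : ℝ => t ^ b) (a := 0) (b := 1) 1
  simp only [bI, pow_zero, one_mul]
  rw [this, integral_pow]
  simp
  field_simp

lemma bI_rec (a b : ℕ) : (b + 1) * bI (a + 1) b = (a + 1) * bI a (b + 1) := by
  have h : ∀ t ∈ Set.uIcc (0 : ℝ) 1, HasDerivAt (fun t : ℝ => t ^ (a + 1) * (1 - t) ^ (b + 1))
      ((a + 1) * (t ^ a * (1 - t) ^ (b + 1)) - (b + 1) * (t ^ (a + 1) * (1 - t) ^ b)) t := by
    intro t _
    have h1 := (hasDerivAt_pow (a + 1) t).fun_mul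
      (((hasDerivAt_id' t).const_sub 1).fun_pow (b + 1))
    exact h1.congr_deriv (by simp; ring)
  have := integral_eq_sub_of_hasDerivAt h (by apply Continuous.intervalIntegrable; fun_prop)
  rw [integral_sub (by apply Continuous.intervalIntegrable; fun_prop)
    (by apply Continuous.intervalIntegrable; fun_prop), integral_const_mul, integral_const_mul] at this
  simp only [bI]
  simp at this
  linarith

lemma diag_bound (N m : ℕ) (hm : m ≤ N) (hN : 0 < N) (θ : ℝ) (hθ : θ ≤ 1) (z : ℂ)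
    (hz : m * ‖z‖ ≤ N * θ) :
    (1 - θ) / 2 ≤ ‖((N : ℂ) + 1) * ∫ t in (0 : ℝ)..1, (1 - t : ℂ) ^ (N - m) * (1 - t + z * t) ^ m‖ := by
  have hN' : (0 : ℝ) < N := by exact_mod_cast hN
  let γ : ℕ → ℝ := fun k => (N + 1) * (m.choose k * bI k (N - k))
  have h0 : ∀ k, 0 ≤ γ k := fun k => by have := bI_nonneg k (N - k); positivity
  have key := ek' γ (m / N) θ z (by positivity) h0 ?_ hθ
    (by rw [div_mul_eq_mul_div, div_le_iff₀ hN']; linarith) m
  · have g0 : γ 0 = 1 := by simpa [γ] using bI_zero N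
    rw [g0, mul_one] at key
    convert key using 2
    have : ∀ t : ℝ, (1 - t : ℂ) ^ (N - m) * (1 - t + z * t) ^ m =
        ∑ k ∈ range (m + 1), (m.choose k * z ^ k) * ((t ^ k * (1 - t) ^ (N - k) : ℝ) : ℂ) := by
      intro t
      rw [add_comm (1 - t : ℂ), add_pow, Finset.mul_sum]
      refine Finset.sum_congr rfl fun k hk => ?_
      have hk' : N - k = (N - m) + (m - k) := by have := Finset.mem_range.1 hk; omega
      rw [hk', pow_add]
      push_cast
      ring
    simp only [this]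
    rw [integral_finsetSum fun k _ => by apply Continuous.intervalIntegrable; fun_prop,
      Finset.mul_sum]
    refine Finset.sum_congr rfl fun k _ => ?_
    rw [integral_const_mul, integral_ofReal]
    simp only [γ, bI]
    push_cast
    ring
  · intro k
    by_cases hk : k < m
    · have a1 : ((m.choose (k + 1) : ℕ) : ℝ) * (k + 1) = m.choose k * (m - k) := by
        have := Nat.choose_succ_right_eq m k
        have h2 := congrArg (fun x : ℕ => (x : ℝ)) this
        simpa [Nat.cast_sub hk.le] using h2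
      obtain ⟨b, hb⟩ : ∃ b, N = k + b + 1 := ⟨N - k - 1, by omega⟩
      have a2 := bI_rec k b
      have e1 : N - (k + 1) = b := by omega
      have e2 : N - k = b + 1 := by omega
      have e3 : (N : ℝ) = k + b + 1 := by exact_mod_cast hb
      have a3 : γ (k + 1) * (b + 1) = γ k * (m - k) := by
        simp only [γ, e1, e2]
        linear_combination (N + 1) * (m.choose (k + 1) : ℝ) * a2 + (N + 1) * bI k (b + 1) * a1
      have hb' : (0 : ℝ) < b + 1 := by positivity
      have hmN : (m : ℝ) ≤ N := by exact_mod_cast hm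
      rw [div_mul_eq_mul_div, le_div_iff₀ hN']
      refine le_of_mul_le_mul_right ?_ hb'
      have a4 : (m - k) * (N : ℝ) ≤ m * (b + 1) := by
        have : (0 : ℝ) ≤ k := by positivity
        nlinarith
      have a5 := mul_le_mul_of_nonneg_left a4 (h0 k)
      nlinarith
    · have : γ (k + 1) = 0 := by simp [γ, Nat.choose_eq_zero_of_lt (by omega : m < k + 1)]
      rw [this]
      exact mul_nonneg (by positivity) (h0 k)

lemma gws_bound {ι : Type*} (N : ℕ) (A : Finset ι) (hm : A.card ≤ N) (hN : 0 < N) (θ ρ : ℝ)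
    (hθ : θ ≤ 1) (hρ : 0 ≤ ρ) (hz : A.card * ρ ≤ N * θ) (d : ι → ℂ) (hd : ∀ j ∈ A, ‖d j‖ ≤ ρ) :
    (1 - θ) / 2 ≤ ‖((N : ℂ) + 1) *
      ∫ t in (0 : ℝ)..1, (1 - t : ℂ) ^ (N - A.card) * ∏ j ∈ A, (1 - t + d j * t)‖ := by
  by_contra hc
  set v := ((N : ℂ) + 1) *
      ∫ t in (0 : ℝ)..1, (1 - t : ℂ) ^ (N - A.card) * ∏ j ∈ A, (1 - t + d j * t) with hv
  let Λ : C(ℝ, ℂ) →ₗ[ℂ] ℂ :=
    { toFun := fun f => ((N : ℂ) + 1) * (∫ t in (0 : ℝ)..1, (1 - t : ℂ) ^ (N - A.card) * f t) -
        v * f 0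
      map_add' := fun f g => by
        simp only [ContinuousMap.add_apply, mul_add]
        rw [integral_add (by apply Continuous.intervalIntegrable; fun_prop)
          (by apply Continuous.intervalIntegrable; fun_prop)]
        ring
      map_smul' := fun c f => by
        simp only [ContinuousMap.smul_apply, smul_eq_mul, RingHom.id_apply, mul_left_comm _ c]
        rw [integral_const_mul]
        ring }
  let u : C(ℝ, ℂ) := ⟨fun t => 1 - t, by fun_prop⟩
  let s : C(ℝ, ℂ) := ⟨fun t => t, by fun_prop⟩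
  refine gws u s ρ d A Λ hd hρ (fun z hz' e => hc ?_) ?_
  · have := diag_bound N A.card hm hN θ hθ z
      ((mul_le_mul_of_nonneg_left hz' (by positivity)).trans hz)
    simp [Λ, u, s, sub_eq_zero] at e
    rwa [e] at this
  · simp [Λ, u, s, hv]

lemma tele {ι : Type*} (A : Finset ι) (x y : ι → ℂ) (b : ι → ℝ) (E : ℝ)
    (hx : ∀ j, ‖x j‖ ≤ b j) (hy : ∀ j, ‖y j‖ ≤ b j) (hb : ∀ j, 1 ≤ E * b j) :
    ‖∏ j ∈ A, x j - ∏ j ∈ A, y j‖ ≤ E * (∑ j ∈ A, ‖x j - y j‖) * ∏ j ∈ A, b j := by
  classical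
  induction A using Finset.induction_on with
  | empty => simp
  | insert a A ha ih =>
    rw [Finset.prod_insert ha, Finset.prod_insert ha, Finset.prod_insert ha, Finset.sum_insert ha]
    have e : x a * ∏ j ∈ A, x j - y a * ∏ j ∈ A, y j =
        (x a - y a) * ∏ j ∈ A, x j + y a * (∏ j ∈ A, x j - ∏ j ∈ A, y j) := by ring
    rw [e]
    refine (norm_add_le _ _).trans ?_
    rw [norm_mul, norm_mul]
    have a1 : ‖∏ j ∈ A, x j‖ ≤ ∏ j ∈ A, b j := by
      rw [norm_prod]
      exact Finset.prod_le_prod (fun _ _ => norm_nonneg _) fun j _ => hx j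
    have a0 : 0 ≤ ∏ j ∈ A, b j := (norm_nonneg _).trans a1
    have a2 := mul_le_mul (hy a) ih (norm_nonneg _) ((norm_nonneg _).trans (hy a))
    have a3 := mul_le_mul_of_nonneg_left a1 (norm_nonneg (x a - y a))
    have a4 := mul_le_mul_of_nonneg_left (hb a) (mul_nonneg (norm_nonneg (x a - y a)) a0)
    nlinarith

lemma int_bound (k : ℕ) (μ K : ℝ) (hμ : 0 < μ) (hK : 0 ≤ K) (f : ℝ → ℂ)
    (hf : ∀ t ∈ Set.Icc (0 : ℝ) 1, ‖f t‖ ≤ K * t ^ k * Real.exp (-(μ * t))) :
    ‖∫ t in (0 : ℝ)..1, f t‖ ≤ K * k.factorial * (2 / μ) ^ (k + 1) := by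
  have h1 : ‖∫ t in (0 : ℝ)..1, f t‖ ≤
      ∫ t in (0 : ℝ)..1, K * k.factorial * (2 / μ) ^ k * Real.exp (-(μ / 2) * t) := by
    refine norm_integral_le_of_norm_le zero_le_one (Filter.Eventually.of_forall fun t ht => ?_)
      (by apply Continuous.intervalIntegrable; fun_prop)
    refine (hf t ⟨ht.1.le, ht.2⟩).trans ?_
    have ht0 := ht.1.le
    have a1 := Real.pow_div_factorial_le_exp (μ / 2 * t) (by positivity) k
    rw [div_le_iff₀ (by positivity)] at a1
    have a2 : t ^ k = (2 / μ) ^ k * (μ / 2 * t) ^ k := by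
      rw [← mul_pow]; congr 1; field_simp
    have a3 : Real.exp (-(μ / 2) * t) = Real.exp (μ / 2 * t) * Real.exp (-(μ * t)) := by
      rw [← Real.exp_add]; congr 1; ring
    rw [a2, a3]
    have a4 := mul_le_mul_of_nonneg_left a1
      (show 0 ≤ K * (2 / μ) ^ k * Real.exp (-(μ * t)) by positivity)
    nlinarith
  refine h1.trans ?_
  rw [integral_const_mul, pow_succ, ← mul_assoc]
  refine mul_le_mul_of_nonneg_left ?_ (by positivity)
  have hc : -(μ / 2) ≠ 0 := by linarith
  rw [integral_comp_mul_left (fun x => Real.exp x) hc, integral_exp]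
  simp only [mul_one, mul_zero, Real.exp_zero, smul_eq_mul]
  have a1 := Real.exp_pos (-(μ / 2))
  have a2 : (-(μ / 2))⁻¹ = -(2 / μ) := by rw [inv_neg, inv_div]
  rw [a2]
  have a3 : 0 < 2 / μ := by positivity
  nlinarith

end Pool.Agent.H48.Borcea
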