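import Mathlib
import Pool.Agent.H48.Borcea3

/-! The core lower bound. -/

namespace Pool.Agent.H48.Borcea

open Finset intervalIntegral

lemma lin_le (t : ℝ) (ht : t ∈ Set.Icc (0 : ℝ) 1) (d : ℂ) :
    ‖1 - t + d * t‖ ≤ Real.exp (-(t * (1 - ‖d‖))) := by
  refine (norm_add_le _ _).trans (le_trans ?_ (Real.add_one_le_exp _))
  have : (1 - t : ℂ) = ((1 - t : ℝ) : ℂ) := by push_cast; rfl
  rw [this, norm_mul, Complex.norm_real, Complex.norm_real, Real.norm_of_nonneg ht.1,
    Real.norm_of_nonneg (sub_nonneg.2 ht.2)]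
  exact le_of_eq (by ring)

lemma cmp {ι : Type*} [Fintype ι] (d : ι → ℂ) (lam K : ℝ) (k : ℕ) (hl : 0 < lam) (hK : 0 ≤ K)
    (hN : 0 < Fintype.card ι) (hd : ∑ j, ‖d j‖ ≤ Fintype.card ι * (1 - lam)) (y : ι → ℝ → ℂ)
    (hc : ∀ j, Continuous (y j))
    (hy : ∀ j, ∀ t ∈ Set.Icc (0 : ℝ) 1, ‖y j t‖ ≤ Real.exp (-(t * (1 - ‖d j‖))))
    (hs : ∀ t ∈ Set.Icc (0 : ℝ) 1, ∑ j, ‖1 - t + d j * t - y j t‖ ≤ K * t ^ k) :
    ‖(∫ t in (0 : ℝ)..1, ∏ j, (1 - t + d j * t)) - ∫ t in (0 : ℝ)..1, ∏ j, y j t‖ ≤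
      3 * K * k.factorial * (2 / (Fintype.card ι * lam)) ^ (k + 1) := by
  have hN' : (0 : ℝ) < Fintype.card ι := by exact_mod_cast hN
  rw [← integral_sub (by apply Continuous.intervalIntegrable; fun_prop)
    (by apply Continuous.intervalIntegrable; fun_prop)]
  refine int_bound k _ _ (by positivity) (by positivity) _ fun t ht => ?_
  refine (tele Finset.univ (fun j => 1 - t + d j * t) (fun j => y j t)
    (fun j => Real.exp (-(t * (1 - ‖d j‖)))) 3 (fun j => lin_le t ht _) (fun j => hy j t ht)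
    fun j => ?_).trans ?_
  · have a1 : Real.exp (-1) ≤ Real.exp (-(t * (1 - ‖d j‖))) := by
      apply Real.exp_le_exp.2
      nlinarith [ht.1, ht.2, norm_nonneg (d j)]
    have a2 := Real.exp_neg_one_gt_d9
    linarith
  · rw [← Real.exp_sum, mul_assoc 3 K]
    refine mul_le_mul (mul_le_mul_of_nonneg_left (hs t ht) (by norm_num)) ?_ (Real.exp_pos _).le
      (by have := ht.1; positivity)
    apply Real.exp_le_exp.2
    rw [Finset.sum_neg_distrib, ← Finset.mul_sum, Finset.sum_sub_distrib]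
    simp only [Finset.sum_const, Finset.card_univ, nsmul_eq_mul, mul_one]
    nlinarith [ht.1]

lemma case_small {ι : Type*} [Fintype ι] (d : ι → ℂ) (lam B : ℝ) (hl : 0 < lam) (hl1 : lam ≤ 1)
    (hN : 1 ≤ Fintype.card ι * lam) (hN2 : 768 * (B ^ 2 * Real.exp B) ≤ Fintype.card ι * lam ^ 3)
    (hd : ∑ j, ‖d j‖ ≤ Fintype.card ι * (1 - lam)) (hB : ∀ j, ‖1 - d j‖ ≤ B) :
    lam / 8 ≤ ‖((Fintype.card ι : ℂ) + 1) * ∫ t in (0 : ℝ)..1, ∏ j, (1 - t + d j * t)‖ := by
  have hN' : (0 : ℝ) < Fintype.card ι := (mul_pos_iff_of_pos_right hl).1 (by linarith)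
  have hN1 : (1 : ℝ) ≤ Fintype.card ι := by nlinarith
  have key := cmp d lam (Fintype.card ι * (B ^ 2 * Real.exp B)) 2 hl (by positivity)
    (by exact_mod_cast hN') hd (fun j t => Complex.exp (-(1 - d j) * t)) (fun j => by fun_prop)
    (fun j t ht => by
      rw [Complex.norm_exp]
      apply Real.exp_le_exp.2
      have := Complex.re_le_norm (d j)
      simp only [Complex.mul_re, Complex.neg_re, Complex.sub_re, Complex.one_re, Complex.ofReal_re,
        Complex.ofReal_im, mul_zero, sub_zero]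
      nlinarith [ht.1])
    (fun t ht => by
      rw [mul_assoc, ← nsmul_eq_mul, ← Finset.card_univ, ← Finset.sum_const]
      refine Finset.sum_le_sum fun j _ => ?_
      have h1 := Complex.norm_exp_sub_sum_le_norm_mul_exp (-(1 - d j) * t) 2
      rw [norm_sub_rev]
      have h2 : ‖-(1 - d j) * t‖ ≤ B * t := by
        rw [norm_mul, norm_neg, Complex.norm_real, Real.norm_of_nonneg ht.1]
        exact mul_le_mul_of_nonneg_right (hB j) ht.1
      have hB0 : 0 ≤ B := (norm_nonneg _).trans (hB j)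
      have h3 : ‖-(1 - d j) * t‖ ≤ B := h2.trans (by nlinarith [ht.2])
      have h4 : ∑ m ∈ range 2, (-(1 - d j) * t) ^ m / (m.factorial : ℂ) = 1 - t + d j * t := by
        simp [Finset.sum_range_succ]
        ring
      rw [h4] at h1
      refine h1.trans ?_
      calc _ ≤ (B * t) ^ 2 * Real.exp B := by gcongr
        _ = _ := by ring)
  set N : ℝ := (Fintype.card ι : ℝ) with hNd
  set α : ℂ := ∑ j, -(1 - d j) with hα
  have e1 : ∀ t : ℝ, ∏ j, Complex.exp (-(1 - d j) * t) = Complex.exp (α * t) := fun t => by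
    rw [← Complex.exp_sum, hα, Finset.sum_mul]
  have hα1 : α = ∑ j, d j - N := by
    simp [hα, hNd]
  have hs : ‖∑ j, d j‖ ≤ N * (1 - lam) := (norm_sum_le _ _).trans hd
  have hre : α.re ≤ -1 := by
    have := Complex.re_le_norm (∑ j, d j)
    rw [hα1, Complex.sub_re, Complex.ofReal_re]
    linarith
  have hα0 : α ≠ 0 := fun e => by rw [e] at hre; simp at hre; linarith
  have hα2 : ‖α‖ ≤ 2 * N := by
    rw [hα1]
    refine (norm_sub_le _ _).trans ?_
    rw [Complex.norm_real, Real.norm_of_nonneg hN'.le]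
    nlinarith
  simp only [e1] at key
  rw [integral_exp_mul_complex hα0] at key
  simp only [Complex.ofReal_one, mul_one, Complex.ofReal_zero, mul_zero, Complex.exp_zero] at key
  have m1 : 1 / (4 * N) ≤ ‖(Complex.exp α - 1) / α‖ := by
    rw [norm_div, div_le_div_iff₀ (by positivity) (norm_pos_iff.2 hα0)]
    have a1 : ‖Complex.exp α‖ ≤ 1 / 2 := by
      rw [Complex.norm_exp]
      have := Real.exp_le_exp.2 hre
      have := Real.exp_neg_one_lt_d9
      linarith
    have a2 := norm_sub_norm_le (1 : ℂ) (Complex.exp α)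
    rw [norm_sub_rev, norm_one] at a2
    nlinarith
  have m2 : 3 * (N * (B ^ 2 * Real.exp B)) * (Nat.factorial 2 : ℕ) * (2 / (N * lam)) ^ (2 + 1) ≤
      1 / (8 * N) := by
    rw [div_pow, ← mul_div_assoc, div_le_div_iff₀ (by positivity) (by positivity)]
    have : (Nat.factorial 2 : ℕ) = 2 := rfl
    rw [this]
    have a1 := mul_le_mul_of_nonneg_left hN2 (show 0 ≤ N ^ 2 by positivity)
    have a2 : 0 ≤ N ^ 2 * (B ^ 2 * Real.exp B) := by positivity
    push_cast
    nlinarith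
  set I := ∫ t in (0 : ℝ)..1, ∏ j, (1 - t + d j * t : ℂ)
  have m3 := norm_sub_norm_le ((Complex.exp α - 1) / α) I
  rw [norm_sub_rev] at m3
  have m4 : 1 / (8 * N) ≤ ‖I‖ := by
    have : 1 / (4 * N) = 1 / (8 * N) + 1 / (8 * N) := by field_simp; norm_num
    linarith
  have e2 : ((Fintype.card ι : ℂ) + 1) = ((N + 1 : ℝ) : ℂ) := by simp [hNd]
  rw [norm_mul, e2, Complex.norm_real, Real.norm_of_nonneg (by positivity)]
  rw [div_le_iff₀ (by positivity)] at m4
  nlinarith [norm_nonneg I]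

lemma case_large {ι : Type*} [Fintype ι] (W : ι → ℂ) (γ : ℂ) (lam : ℝ) (hl : 0 < lam)
    (hl1 : lam ≤ 1) (hN : 0 < Fintype.card ι) (hW : ∀ j, 1 ≤ ‖W j‖)
    (hs : ∑ j, ‖W j - γ‖ ≤ Fintype.card ι * (1 - lam))
    (hγ : 2 * (1 + 192 / lam ^ 3) / lam ≤ ‖γ‖) :
    lam / 8 ≤
      ‖((Fintype.card ι : ℂ) + 1) * ∫ t in (0 : ℝ)..1, ∏ j, (1 - t + (1 - γ / W j) * t)‖ := by
  classical
  set M : ℝ := 192 / lam ^ 3 with hM
  have hM0 : 0 < M := by positivity
  have hN' : (0 : ℝ) < Fintype.card ι := by exact_mod_cast hN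
  have hN1 : (1 : ℝ) ≤ Fintype.card ι := by exact_mod_cast hN
  have hW0 : ∀ j, W j ≠ 0 := fun j e => by have := hW j; rw [e, norm_zero] at this; linarith
  have hd0 : ∀ j, ‖1 - γ / W j‖ * ‖W j‖ = ‖W j - γ‖ := fun j => by
    rw [← norm_mul]; congr 1; have := hW0 j; field_simp
  have hd : ∑ j, ‖1 - γ / W j‖ ≤ Fintype.card ι * (1 - lam) :=
    le_trans (Finset.sum_le_sum fun j _ => by
      rw [← hd0 j]; exact le_mul_of_one_le_right (norm_nonneg _) (hW j)) hs
  let A : Finset ι := Finset.univ.filter fun j => ‖W j‖ < M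
  have key := cmp (fun j => 1 - γ / W j) lam (Fintype.card ι / M) 1 hl (by positivity) hN hd
    (fun j t => if j ∈ A then 1 - t + (1 - γ / W j) * t else 1 - t)
    (fun j => by split_ifs <;> fun_prop)
    (fun j t ht => by
      split_ifs
      · exact lin_le t ht _
      · have := lin_le t ht 0
        rw [zero_mul, add_zero] at this
        refine this.trans (Real.exp_le_exp.2 ?_)
        rw [norm_zero]
        nlinarith [ht.1, norm_nonneg (1 - γ / W j)])
    (fun t ht => by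
      have : ∀ j, ‖1 - t + (1 - γ / W j) * t -
          (if j ∈ A then 1 - t + (1 - γ / W j) * t else 1 - t : ℂ)‖ ≤ ‖W j - γ‖ * (t / M) := by
        intro j
        split_ifs with h
        · rw [sub_self, norm_zero]; have := ht.1; positivity
        · have h' : M ≤ ‖W j‖ := by simpa [A] using h
          rw [add_sub_cancel_left, norm_mul, Complex.norm_real, Real.norm_of_nonneg ht.1, ← hd0,
            ← mul_div_assoc, le_div_iff₀ hM0]
          have := mul_le_mul_of_nonneg_left h' (mul_nonneg (norm_nonneg (1 - γ / W j)) ht.1)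
          nlinarith
      refine (Finset.sum_le_sum fun j _ => this j).trans ?_
      rw [← Finset.sum_mul]
      have a1 : ∑ j, ‖W j - γ‖ ≤ Fintype.card ι := hs.trans (by nlinarith)
      have a2 := mul_le_mul_of_nonneg_right a1 (show 0 ≤ t / M by have := ht.1; positivity)
      refine a2.trans (le_of_eq (by ring)))
  have e1 : ∀ t : ℝ, ∏ j, (if j ∈ A then 1 - t + (1 - γ / W j) * t else 1 - t : ℂ) =
      (1 - t : ℂ) ^ (Fintype.card ι - A.card) * ∏ j ∈ A, (1 - t + (1 - γ / W j) * t) := fun t => by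
    rw [Finset.prod_ite, mul_comm, Finset.prod_const, Finset.filter_mem_eq_inter, Finset.univ_inter,
      ← Finset.card_compl]
    congr 3
    ext j
    simp
  simp only [e1] at key
  rw [div_le_iff₀ hl] at hγ
  have hA : A.card * (‖γ‖ - M) ≤ Fintype.card ι * (1 - lam) := by
    refine le_trans ?_ ((Finset.sum_le_sum_of_subset_of_nonneg (Finset.subset_univ A)
      fun _ _ _ => norm_nonneg _).trans hs)
    rw [← nsmul_eq_mul, ← Finset.sum_const]
    refine Finset.sum_le_sum fun j hj => ?_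
    have h' : ‖W j‖ < M := by simpa [A] using hj
    have := norm_sub_norm_le γ (W j)
    rw [norm_sub_rev] at this
    linarith
  have hγM : 0 < ‖γ‖ - M := by nlinarith [norm_nonneg γ]
  have g := gws_bound (Fintype.card ι) A (Finset.card_le_univ A) hN (1 - lam / 2) (1 + ‖γ‖)
    (by linarith) (by positivity) ?_ (fun j => 1 - γ / W j) fun j _ => by
      refine (norm_sub_le _ _).trans ?_
      rw [norm_one, norm_div]
      have := div_le_self (norm_nonneg γ) (hW j)
      linarith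
  · set N : ℝ := (Fintype.card ι : ℝ) with hNd
    have e2 : ((Fintype.card ι : ℂ) + 1) = ((N + 1 : ℝ) : ℂ) := by simp [hNd]
    rw [norm_mul, e2, Complex.norm_real, Real.norm_of_nonneg (by positivity)] at g ⊢
    have m2 : (N + 1) * (3 * (N / M) * (Nat.factorial 1 : ℕ) * (2 / (N * lam)) ^ (1 + 1)) ≤
        lam / 8 := by
      have : (N + 1) * (3 * (N / M) * (Nat.factorial 1 : ℕ) * (2 / (N * lam)) ^ (1 + 1)) =
          (N + 1) / N * (lam / 16) := by
        rw [hM]; simp only [Nat.factorial_one]; push_cast; field_simp; norm_num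
      rw [this, div_mul_eq_mul_div, div_le_iff₀ hN']
      nlinarith
    have m3 := norm_sub_norm_le (∫ t in (0 : ℝ)..1, (1 - t : ℂ) ^ (Fintype.card ι - A.card) *
      ∏ j ∈ A, (1 - t + (1 - γ / W j) * t)) (∫ t in (0 : ℝ)..1, ∏ j, (1 - t + (1 - γ / W j) * t))
    rw [norm_sub_rev] at m3
    have m4 := mul_le_mul_of_nonneg_left (m3.trans key) (show 0 ≤ N + 1 by positivity)
    linarith
  · refine le_of_mul_le_mul_right ?_ hγM
    have a1 := mul_le_mul_of_nonneg_right hA (show 0 ≤ 1 + ‖γ‖ by positivity)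
    have a2 : (1 - lam) * (1 + ‖γ‖) ≤ (1 - lam / 2) * (‖γ‖ - M) := by nlinarith
    have a3 := mul_le_mul_of_nonneg_left a2 hN'.le
    nlinarith

theorem core (lam : ℝ) (hl : 0 < lam) (hl1 : lam ≤ 1) : ∃ N₀ : ℕ, ∀ N : ℕ, N₀ ≤ N →
    ∀ (W : Fin N → ℂ) (γ : ℂ), (∀ j, 1 ≤ ‖W j‖) → ∑ j, ‖W j - γ‖ ≤ N * (1 - lam) →
    lam / 8 ≤ ‖((N : ℂ) + 1) * ∫ t in (0 : ℝ)..1, ∏ j, (1 - t + (1 - γ / W j) * t)‖ := by
  set B := 2 * (1 + 192 / lam ^ 3) / lam with hB
  obtain ⟨N₀, h⟩ := exists_nat_ge (1 / lam + 768 * (B ^ 2 * Real.exp B) / lam ^ 3)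
  refine ⟨N₀, fun N hN W γ hW hs => ?_⟩
  have hN' : (N₀ : ℝ) ≤ N := by exact_mod_cast hN
  have a1 : 1 / lam ≤ N := by
    have : 0 ≤ 768 * (B ^ 2 * Real.exp B) / lam ^ 3 := by positivity
    linarith
  have a2 : 768 * (B ^ 2 * Real.exp B) / lam ^ 3 ≤ N := by
    have : 0 ≤ 1 / lam := by positivity
    linarith
  rw [div_le_iff₀ (by positivity)] at a1 a2
  have hN0 : 0 < N := by
    rcases Nat.eq_zero_or_pos N with rfl | h
    · simp at a1; linarith
    · exact h
  by_cases hγ : B ≤ ‖γ‖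
  · simpa using case_large W γ lam hl hl1 (by simpa using hN0) hW (by simpa using hs) hγ
  · have hW0 : ∀ j, W j ≠ 0 := fun j e => by have := hW j; rw [e, norm_zero] at this; linarith
    have hd0 : ∀ j, ‖1 - γ / W j‖ * ‖W j‖ = ‖W j - γ‖ := fun j => by
      rw [← norm_mul]; congr 1; have := hW0 j; field_simp
    have hd : ∑ j, ‖1 - γ / W j‖ ≤ N * (1 - lam) :=
      le_trans (Finset.sum_le_sum fun j _ => by
        rw [← hd0 j]; exact le_mul_of_one_le_right (norm_nonneg _) (hW j)) hs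
    simpa using case_small (fun j => 1 - γ / W j) lam B hl hl1 (by simpa using a1)
      (by simpa using a2) (by simpa using hd) fun j => by
        rw [sub_sub_cancel, norm_div]
        exact (div_le_self (norm_nonneg γ) (hW j)).trans (le_of_not_ge hγ)

end Pool.Agent.H48.Borcea
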