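import Mathlib
import Pool.Agent.H48.Borcea4

/-! The asymptotic variance bound for products over `Fin n`. -/

namespace Pool.Agent.H48.Borcea

open Polynomial Finset intervalIntegral

lemma exists_crit {N : ℕ} (z : Fin (N + 1) → ℂ) : ∃ w : Fin N → ℂ,
    derivative (∏ k, (X - C (z k))) = C ((N + 1 : ℕ) : ℂ) * ∏ j, (X - C (w j)) := by
  have h1 : (∏ k, (X - C (z k))).natDegree = N + 1 := by
    rw [natDegree_prod_of_monic _ _ fun k _ => monic_X_sub_C _]; simp
  have h2 : (∏ k, (X - C (z k))).Monic := monic_prod_of_monic _ _ fun k _ => monic_X_sub_C _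
  generalize ∏ k, (X - C (z k)) = F at h1 h2
  have h3 : (derivative F).natDegree = N := by rw [natDegree_derivative, h1]; rfl
  have h4 : (derivative F).leadingCoeff = ((N + 1 : ℕ) : ℂ) := by
    rw [leadingCoeff, h3, coeff_derivative, ← h1, h2.coeff_natDegree, h1]; simp
  obtain ⟨r, hr⟩ := exists_fact (derivative F)
  rw [h4] at hr
  refine ⟨fun j => r (Fin.cast h3.symm j), hr.trans ?_⟩
  congr 1
  exact Fintype.prod_equiv (finCongr h3) _ _ fun i => rfl

lemma prod_le_exp {ι : Type*} (A : Finset ι) (x : ι → ℝ) (r : ℝ) (hr : 0 < r)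
    (hx : ∀ j, 0 ≤ x j) : ∏ j ∈ A, x j ≤ r ^ A.card * Real.exp ((∑ j ∈ A, x j) / r - A.card) := by
  have : (∑ j ∈ A, x j) / r - A.card = ∑ j ∈ A, (x j / r - 1) := by
    rw [Finset.sum_sub_distrib, Finset.sum_div]; simp
  rw [this, Real.exp_sum, ← Finset.prod_const, ← Finset.prod_mul_distrib]
  refine Finset.prod_le_prod (fun j _ => hx j) fun j _ => ?_
  have := Real.add_one_le_exp (x j / r - 1)
  rw [sub_add_cancel, div_le_iff₀ hr] at this
  linarith

/-- The bound with constant `K` in degree `n`. -/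
def Good (n : ℕ) (K : ℝ) : Prop :=
  ∀ (z : Fin n → ℂ) (c : ℂ) (k : Fin n), ∃ w : ℂ, (derivative (∏ k, (X - C (z k)))).IsRoot w ∧
    ‖z k - w‖ ≤ K * (1 / n * ∑ j, ‖z j - c‖)

lemma isRoot_crit {N : ℕ} {F : ℂ[X]} {a : ℂ} {w : Fin N → ℂ} (h : F = C a * ∏ j, (X - C (w j)))
    (j : Fin N) : F.IsRoot (w j) := by
  rw [h, IsRoot.def, eval_mul, eval_prod, Finset.prod_eq_zero (Finset.mem_univ j) (by simp),
    mul_zero]

lemma good_crude (N : ℕ) (hN : 0 < N) : Good (N + 1) (2 * (N + 1)) := by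
  intro z c k
  obtain ⟨w, hw⟩ := exists_crit z
  refine ⟨w ⟨0, hN⟩, isRoot_crit hw _, ?_⟩
  have h1 := dBS N.succ_pos z c w hw
  have h2 : ‖w ⟨0, hN⟩ - c‖ ≤ ∑ j, ‖w j - c‖ :=
    Finset.single_le_sum (f := fun j => ‖w j - c‖) (fun _ _ => norm_nonneg _) (Finset.mem_univ _)
  have h3 : ‖z k - c‖ ≤ ∑ j, ‖z j - c‖ :=
    Finset.single_le_sum (f := fun j => ‖z j - c‖) (fun _ _ => norm_nonneg _) (Finset.mem_univ _)
  have h4 := norm_sub_le_norm_sub_add_norm_sub (z k) c (w ⟨0, hN⟩)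
  rw [norm_sub_rev c] at h4
  have h5 : 2 * ((N : ℝ) + 1) * (1 / ((N + 1 : ℕ) : ℝ) * ∑ j, ‖z j - c‖) = 2 * ∑ j, ‖z j - c‖ := by
    push_cast; field_simp
  have h6 : 0 ≤ 1 / ((N.succ : ℕ) : ℝ) * ∑ j, ‖z j - c‖ :=
    mul_nonneg (by positivity) ((norm_nonneg _).trans h3)
  rw [h5]
  nlinarith

lemma good_asym (ε : ℝ) (hε : 0 < ε) : ∃ N₀ : ℕ, ∀ N, N₀ ≤ N → Good (N + 1) (1 + ε) := by
  set lam := ε / (1 + ε) with hlam
  have hl : 0 < lam := by positivity
  have hl1 : lam ≤ 1 := by rw [hlam, div_le_one (by positivity)]; linarith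
  have hle : (1 - lam) * (1 + ε) = 1 := by rw [hlam]; field_simp; ring
  obtain ⟨N₀, h₀⟩ := core lam hl hl1
  obtain ⟨N₁, h₁⟩ := exists_nat_gt (24 / lam ^ 2)
  refine ⟨N₀ + N₁ + 1, fun N hN z c k => ?_⟩
  have hN0 : 0 < N := by omega
  have hN' : (0 : ℝ) < N := by exact_mod_cast hN0
  set D := 1 / ((N + 1 : ℕ) : ℝ) * ∑ j, ‖z j - c‖ with hD
  have hS0 : 0 ≤ ∑ j, ‖z j - c‖ := Finset.sum_nonneg fun _ _ => norm_nonneg _
  have hD0 : 0 ≤ D := by positivity
  rcases hD0.eq_or_lt with h | hDpos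
  · obtain ⟨w, h1, h2⟩ := good_crude N hN0 z c k
    exact ⟨w, h1, by rw [← hD, ← h, mul_zero] at h2; rw [← h, mul_zero]; exact h2⟩
  by_contra hcon
  obtain ⟨w, hw⟩ := exists_crit z
  set r := (1 + ε) * D with hr
  have hr0 : 0 < r := by positivity
  have hwr : ∀ j, r < ‖w j - z k‖ := fun j => by
    rw [norm_sub_rev]
    exact lt_of_not_ge fun h => hcon ⟨w j, isRoot_crit hw j, h⟩
  have hw0 : ∀ j, w j - z k ≠ 0 := fun j e => by
    have := hwr j; rw [e, norm_zero] at this; linarith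
  have hrc : (r : ℂ) ≠ 0 := by exact_mod_cast hr0.ne'
  have hSD : ∑ j, ‖z j - c‖ = (N + 1) * D := by rw [hD]; push_cast; field_simp
  have hDr : D = (1 - lam) * r := by rw [hr, ← mul_assoc, hle, one_mul]
  have h1 : ∑ j, ‖w j - c‖ ≤ N * D := by
    refine (dBS N.succ_pos z c w hw).trans (le_of_eq ?_)
    rw [hSD]; push_cast; field_simp; ring
  have key := h₀ N (by omega) (fun j => (w j - z k) / r) ((c - z k) / r)
    (fun j => by
      rw [norm_div, Complex.norm_real, Real.norm_of_nonneg hr0.le, one_le_div hr0]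
      exact (hwr j).le)
    (by
      simp only [← sub_div, sub_sub_sub_cancel_right, norm_div, Complex.norm_real,
        Real.norm_of_nonneg hr0.le]
      rw [← Finset.sum_div, div_le_iff₀ hr0, mul_assoc, ← hDr]
      exact h1)
  have hc : c - z k ≠ 0 := fun e => by
    have a1 : ∑ _j : Fin N, r ≤ ∑ j, ‖w j - c‖ :=
      Finset.sum_le_sum fun j _ => by rw [sub_eq_zero.1 e]; exact (hwr j).le
    simp only [Finset.sum_const, Finset.card_univ, Fintype.card_fin, nsmul_eq_mul] at a1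
    have a2 := mul_pos hN' (mul_pos hl hr0)
    rw [hDr] at h1
    nlinarith
  set F := ∏ k, (X - C (z k)) with hF
  have hder : ∀ t ∈ Set.uIcc (0 : ℝ) 1, HasDerivAt (fun t : ℝ => F.eval (z k + t * (c - z k)))
      (((c - z k) * (N + 1) * ∏ j, (z k - w j)) *
        ∏ j, (1 - t + (1 - (c - z k) / r / ((w j - z k) / r)) * t)) t := by
    intro t _
    have a1 : HasDerivAt (fun s : ℂ => F.eval (z k + s * (c - z k)))
        ((derivative F).eval (z k + t * (c - z k)) * (c - z k)) (t : ℂ) := by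
      have := (F.hasDerivAt (z k + t * (c - z k))).comp (t : ℂ)
        (((hasDerivAt_id' (t : ℂ)).mul_const (c - z k)).const_add (z k))
      simpa [Function.comp_def] using this
    refine a1.comp_ofReal.congr_deriv ?_
    rw [hw, mul_assoc, ← Finset.prod_mul_distrib]
    simp only [eval_mul, eval_C, eval_prod, eval_sub, eval_X]
    push_cast
    rw [mul_comm _ (c - z k), ← mul_assoc]
    congr 1
    refine Finset.prod_congr rfl fun j _ => ?_
    have := hw0 j
    field_simp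
    ring
  have hint := integral_eq_sub_of_hasDerivAt hder (by apply Continuous.intervalIntegrable; fun_prop)
  rw [integral_const_mul] at hint
  set I := ∫ t in (0 : ℝ)..1, ∏ j, (1 - t + (1 - (c - z k) / r / ((w j - z k) / r)) * t : ℂ)
  have e0 : F.eval (z k) = 0 := by
    rw [hF, eval_prod, Finset.prod_eq_zero (Finset.mem_univ k) (by simp)]
  have e1 : F.eval c = (c - z k) * ∏ j ∈ Finset.univ.erase k, (c - z j) := by
    rw [hF, eval_prod, ← Finset.mul_prod_erase _ _ (Finset.mem_univ k)]; simp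
  simp only [Complex.ofReal_one, one_mul, add_sub_cancel, Complex.ofReal_zero, zero_mul, add_zero,
    e0, e1, sub_zero] at hint
  have e2 : (∏ j, (z k - w j)) * ((N + 1) * I) = ∏ j ∈ Finset.univ.erase k, (c - z j) := by
    apply mul_left_cancel₀ hc
    rw [← hint]; ring
  have e3 := congrArg norm e2
  rw [norm_mul, norm_prod, norm_prod] at e3
  have b1 : r ^ N ≤ ∏ j, ‖z k - w j‖ := by
    have : r ^ N = ∏ _j : Fin N, r := by simp
    rw [this]
    exact Finset.prod_le_prod (fun _ _ => hr0.le) fun j _ => by rw [norm_sub_rev]; exact (hwr j).le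
  have b2 := prod_le_exp (Finset.univ.erase k) (fun j => ‖c - z j‖) r hr0 fun _ => norm_nonneg _
  have b3 : (Finset.univ.erase k).card = N := by simp
  have b4 : (∑ j ∈ Finset.univ.erase k, ‖c - z j‖) / r ≤ (N + 1) * (1 - lam) := by
    rw [div_le_iff₀ hr0, mul_assoc, ← hDr, ← hSD]
    simp only [norm_sub_rev c]
    exact Finset.sum_le_sum_of_subset_of_nonneg (Finset.erase_subset _ _) fun _ _ _ => norm_nonneg _
  rw [b3, ← e3] at b2
  have b5 : r ^ N * (lam / 8) ≤ r ^ N * Real.exp (1 - N * lam) := by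
    refine (mul_le_mul b1 key (by positivity) ((pow_nonneg hr0.le _).trans b1)).trans
      (b2.trans (mul_le_mul_of_nonneg_left (Real.exp_le_exp.2 ?_) (by positivity)))
    nlinarith
  have b6 := le_of_mul_le_mul_left b5 (by positivity)
  rw [Real.exp_sub, le_div_iff₀ (Real.exp_pos _)] at b6
  have b7 := Real.add_one_le_exp (N * lam)
  have b8 := Real.exp_one_lt_d9
  have b9 : (N₁ : ℝ) ≤ N := by exact_mod_cast (by omega : N₁ ≤ N)
  rw [div_lt_iff₀ (by positivity)] at h₁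
  have c1 := mul_le_mul_of_nonneg_left b7 hl.le
  have c2 := mul_le_mul_of_nonneg_right b9 (sq_nonneg lam)
  nlinarith

lemma Good.mono {n : ℕ} {K L : ℝ} (h : Good n K) (hKL : K ≤ L) : Good n L := fun z c k => by
  obtain ⟨w, h1, h2⟩ := h z c k
  refine ⟨w, h1, h2.trans (mul_le_mul_of_nonneg_right hKL ?_)⟩
  have : 0 ≤ ∑ j, ‖z j - c‖ := Finset.sum_nonneg fun _ _ => norm_nonneg _
  positivity

theorem exists_const : ∃ K : ℕ → ℝ, (∀ n, 1 ≤ K n) ∧ Filter.Tendsto K Filter.atTop (nhds 1) ∧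
    ∀ n, 2 ≤ n → Good n (K n) := by
  let S : ℕ → Set ℝ := fun n => {x | 1 ≤ x ∧ (2 ≤ n → Good n x)}
  have hne : ∀ n, (S n).Nonempty := fun n => by
    refine ⟨2 * n + 1, by have : (0 : ℝ) ≤ n := n.cast_nonneg; linarith, fun hn => ?_⟩
    obtain ⟨N, rfl⟩ : ∃ N, n = N + 1 := ⟨n - 1, by omega⟩
    exact (good_crude N (by omega)).mono (by push_cast; linarith)
  have hbd : ∀ n, BddBelow (S n) := fun n => ⟨1, fun x hx => hx.1⟩
  have h1 : ∀ n, 1 ≤ sInf (S n) := fun n => le_csInf (hne n) fun x hx => hx.1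
  refine ⟨fun n => sInf (S n) + 1 / ((n : ℝ) + 1), fun n => ?_, ?_, fun n hn => ?_⟩
  · have : 0 ≤ 1 / ((n : ℝ) + 1) := by positivity
    have := h1 n
    linarith
  · have : Filter.Tendsto (fun n => sInf (S n)) Filter.atTop (nhds 1) := by
      rw [Metric.tendsto_atTop]
      intro ε hε
      obtain ⟨N₀, h₀⟩ := good_asym (ε / 2) (by positivity)
      refine ⟨N₀ + 1, fun n hn => ?_⟩
      obtain ⟨N, rfl⟩ : ∃ N, n = N + 1 := ⟨n - 1, by omega⟩
      have a1 : sInf (S (N + 1)) ≤ 1 + ε / 2 :=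
        csInf_le (hbd _) ⟨by linarith, fun _ => h₀ N (by omega)⟩
      have a2 := h1 (N + 1)
      rw [Real.dist_eq, abs_lt]
      constructor <;> linarith
    simpa using this.add tendsto_one_div_add_atTop_nhds_zero_nat
  · have : 0 < 1 / ((n : ℝ) + 1) := by positivity
    obtain ⟨x, hx, hx'⟩ := exists_lt_of_csInf_lt (hne n) (lt_add_of_pos_right _ this)
    exact (hx.2 hn).mono hx'.le

end Pool.Agent.H48.Borcea
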