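import Pool.Agent.H48.RDist

set_option autoImplicit false

namespace Pool.Agent.H48.Cliff

open HahnSeries

abbrev G : Type := Lex (ℕ →₀ ℤ)
abbrev H : Type := HahnSeries G ℚ

def sg (n : ℤ) : ℤ := (n.negOnePow : ℤ)

lemma sg_add (a b : ℤ) : sg (a + b) = sg a * sg b := by simp [sg, Int.negOnePow_add]
lemma sg_even (a : ℤ) (h : Even a) : sg a = 1 := by simp [sg, Int.negOnePow_even a h]
lemma sg_odd (a : ℤ) (h : Odd a) : sg a = -1 := by simp [sg, Int.negOnePow_odd a h]
lemma sg_ne (a : ℤ) : sg a ≠ 0 := by simp [sg]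
@[simp] lemma sg_zero : sg 0 = 1 := by simp [sg]

noncomputable def tw0 (φ : G →+ ℤ) (h : H) : H where
  coeff γ := (sg (φ γ) : ℚ) * h.coeff γ
  isPWO_support' := h.isPWO_support.mono (by
    intro γ hγ
    simp only [Function.mem_support] at hγ
    exact right_ne_zero_of_mul hγ)

lemma coeff_tw0 (φ : G →+ ℤ) (h : H) (γ : G) :
    (tw0 φ h).coeff γ = (sg (φ γ) : ℚ) * h.coeff γ := rfl

lemma support_tw0 (φ : G →+ ℤ) (h : H) : (tw0 φ h).support = h.support := by
  ext γ
  simp [coeff_tw0, sg_ne]

noncomputable def tw (φ : G →+ ℤ) : H →+* H where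
  toFun := tw0 φ
  map_one' := by
    ext γ
    rw [coeff_tw0]
    by_cases h : γ = 0 <;> simp [h]
  map_zero' := by
    ext γ
    simp [coeff_tw0]
  map_add' a b := by
    ext γ
    simp [coeff_tw0, mul_add]
  map_mul' a b := by
    ext γ
    rw [coeff_tw0, coeff_mul, coeff_mul_left' a.isPWO_support (support_tw0 φ a).subset]
    simp only [support_tw0, Finset.mul_sum]
    apply Finset.sum_congr rfl
    intro ij hij
    rw [Finset.mem_antidiagonal] at hij
    rw [coeff_tw0, coeff_tw0, ← hij.2.2, map_add, sg_add]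
    push_cast
    ring

lemma coeff_tw (φ : G →+ ℤ) (h : H) (γ : G) :
    (tw φ h).coeff γ = (sg (φ γ) : ℚ) * h.coeff γ := rfl

lemma tw_tw (φ ψ : G →+ ℤ) (h : H) : tw φ (tw ψ h) = tw (φ + ψ) h := by
  ext γ
  simp [coeff_tw, sg_add, mul_assoc]

lemma tw_single (φ : G →+ ℤ) (γ : G) : tw φ (single γ 1) = sg (φ γ) • single γ (1 : ℚ) := by
  ext δ
  rw [coeff_tw, coeff_smul]
  by_cases h : δ = γ <;> simp [h]

lemma tw_ne (φ : G →+ ℤ) (w : H) (hw : w ≠ 0) : tw φ w ≠ 0 := by
  simpa using hw

lemma order_tw (φ : G →+ ℤ) (w : H) : (tw φ w).order = w.order := by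
  by_cases hw : w = 0
  · simp [hw]
  apply le_antisymm
  · apply order_le_of_coeff_ne_zero
    rw [coeff_tw]
    exact mul_ne_zero (by simpa using sg_ne _) (by simpa using hw)
  · apply order_le_of_coeff_ne_zero
    have := (coeff_order_eq_zero (x := tw φ w)).not.mpr (tw_ne φ w hw)
    rw [coeff_tw] at this
    exact right_ne_zero_of_mul this

noncomputable def F : Subfield H where
  carrier := {h | ∀ φ, tw φ h = h}
  mul_mem' := fun ha hb φ => by rw [map_mul, ha φ, hb φ]
  one_mem' := fun φ => map_one _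
  add_mem' := fun ha hb φ => by rw [map_add, ha φ, hb φ]
  zero_mem' := fun φ => map_zero _
  neg_mem' := fun ha φ => by rw [map_neg, ha φ]
  inv_mem' := fun a ha φ => by rw [map_inv₀, ha φ]

lemma even_order (f : F) (hf : f ≠ 0) (φ : G →+ ℤ) : Even (φ (f : H).order) := by
  by_contra h
  have h1 := congrArg (fun z : H => z.coeff (f : H).order) (f.2 φ)
  simp only [coeff_tw, sg_odd _ (Int.not_even_iff_odd.mp h)] at h1
  have h2 := (coeff_order_eq_zero (x := (f : H))).not.mpr (by simpa using hf)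
  apply h2
  push_cast at h1
  linarith

def co (i : ℕ) : G →+ ℤ where
  toFun γ := ofLex γ i
  map_zero' := rfl
  map_add' _ _ := rfl

noncomputable def e (i : ℕ) : G := toLex (Finsupp.single i 1)

lemma co_e (i j : ℕ) : co i (e j) = if j = i then 1 else 0 := by
  show (Finsupp.single j (1 : ℤ)) i = _
  rw [Finsupp.single_apply]

lemma G_ext (γ δ : G) (h : ∀ i, co i γ = co i δ) : γ = δ := by
  apply ofLex.injective
  ext i
  exact h i

noncomputable def L (i : ℕ) : G →+ ℤ := ∑ j ∈ Finset.range i, co j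

noncomputable def B : G →+ (G →+ ℤ) where
  toFun γ := Finsupp.liftAddHom (fun i => zmultiplesHom _ (L i)) (ofLex γ)
  map_zero' := by simp
  map_add' a b := by simp

lemma B_e (i : ℕ) : B (e i) = L i := by
  simp [B, e]

abbrev E : Type := Module.End F H

noncomputable def M (γ : G) : E where
  toFun h := single γ 1 * tw (B γ) h
  map_add' a b := by simp [mul_add]
  map_smul' f h := by
    simp only [Subfield.smul_def, smul_eq_mul, map_mul, RingHom.id_apply]
    rw [f.2]
    ring

lemma M_apply (γ : G) (h : H) : M γ h = single γ 1 * tw (B γ) h := rfl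

lemma M_mul (γ δ : G) : M γ * M δ = sg (B γ δ) • M (γ + δ) := by
  ext1 h
  simp only [Module.End.mul_apply, M_apply, map_mul, tw_tw, tw_single, LinearMap.smul_apply,
    map_add]
  rw [← mul_assoc, mul_smul_comm, single_mul_single, smul_mul_assoc, one_mul]

lemma M_zero : M 0 = 1 := by
  ext1 h
  have : tw 0 h = h := by
    ext γ
    simp [coeff_tw]
  simp [M_apply, this]

noncomputable def sq (γ : G) : F := ⟨single (γ + γ) 1, fun φ => by
  rw [tw_single, sg_even _ (by rw [map_add]; exact Even.add_self _), one_smul]⟩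

lemma M_two (γ δ : G) : M (γ + γ + δ) = sq γ • M δ := by
  ext1 h
  have : tw (B (γ + γ + δ)) h = tw (B δ) h := by
    ext x
    simp only [coeff_tw, map_add, AddMonoidHom.add_apply]
    rw [sg_add, sg_even _ (Even.add_self _), one_mul]
  simp only [M_apply, this, LinearMap.smul_apply, Subfield.smul_def, smul_eq_mul, sq]
  rw [← mul_assoc, single_mul_single, one_mul]

noncomputable def ind (S : Finset ℕ) : G := ∑ i ∈ S, e i

lemma co_ind (i : ℕ) (S : Finset ℕ) : co i (ind S) = if i ∈ S then 1 else 0 := by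
  simp [ind, co_e]

noncomputable def P (n : ℕ) : Submodule F E :=
  Submodule.span F (M '' {γ | ∀ i, n ≤ i → co i γ = 0})

lemma P_le (n : ℕ) : P n ≤ Submodule.span F
    ((fun S => M (ind S)) '' ((Finset.range n).powerset : Set (Finset ℕ))) := by
  rw [P, Submodule.span_le]
  rintro _ ⟨γ, hγ, rfl⟩
  let γ' : G := toLex (Finsupp.mapRange (fun x => x / 2) (by simp) (ofLex γ))
  have h1 : γ = γ' + γ' + ind ((Finset.range n).filter fun i => Odd (co i γ)) := by
    apply G_ext
    intro i
    have : co i γ' = co i γ / 2 := rfl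
    rw [map_add, map_add, this, co_ind]
    by_cases hi : n ≤ i
    · simp [hγ i hi]
    · split_ifs with h
      · have := Int.odd_iff.mp (Finset.mem_filter.mp h).2
        omega
      · have : ¬ Odd (co i γ) := fun h' => h (Finset.mem_filter.mpr ⟨by simpa using hi, h'⟩)
        have := Int.even_iff.mp (Int.not_odd_iff_even.mp this)
        omega
  rw [h1, M_two]
  apply Submodule.smul_mem
  apply Submodule.subset_span
  exact ⟨_, Finset.mem_coe.mpr (Finset.mem_powerset.mpr (Finset.filter_subset _ _)), rfl⟩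

lemma P_mono (n m : ℕ) (h : n ≤ m) : P n ≤ P m :=
  Submodule.span_mono (Set.image_mono fun _ hγ i hi => hγ i (h.trans hi))

lemma P_one (n : ℕ) : (1 : E) ∈ P n :=
  Submodule.subset_span ⟨0, fun _ _ => map_zero _, M_zero⟩

lemma P_mul (n : ℕ) (a b : E) (ha : a ∈ P n) (hb : b ∈ P n) : a * b ∈ P n := by
  have : P n * P n ≤ P n := by
    rw [P, Submodule.span_mul_span, Submodule.span_le]
    rintro _ ⟨_, ⟨γ, hγ, rfl⟩, _, ⟨δ, hδ, rfl⟩, rfl⟩
    simp only [M_mul]
    apply zsmul_mem
    exact Submodule.subset_span ⟨γ + δ, fun i hi => by rw [map_add, hγ i hi, hδ i hi, add_zero], rfl⟩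
  exact this (Submodule.mul_mem_mul ha hb)

lemma P_inj (n : ℕ) (z : E) (hz : z ∈ P n) (hz0 : z ≠ 0) (w : H) (hw : w ≠ 0) : z w ≠ 0 := by
  classical
  obtain ⟨f, rfl⟩ := (Submodule.mem_span_image_finset_iff_exists_fun' _).mp (P_le n hz)
  set T := (Finset.range n).powerset
  have hne : (T.filter fun S => f S ≠ 0).Nonempty := by
    by_contra h
    apply hz0
    apply Finset.sum_eq_zero
    intro S hS
    have : f S = 0 := by
      by_contra h'
      exact h ⟨S, Finset.mem_filter.mpr ⟨hS, h'⟩⟩
    simp [this]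
  obtain ⟨S0, hS0, hmin⟩ := Finset.exists_min_image _ (fun S => (f S : H).order + ind S) hne
  obtain ⟨hS0T, hf0⟩ := Finset.mem_filter.mp hS0
  have hne2 : ∀ S, f S ≠ 0 → (f S • M (ind S)) w ≠ 0 ∧
      ((f S • M (ind S)) w).order = (f S : H).order + ind S + w.order := by
    intro S hS
    have h1 : (f S : H) ≠ 0 := by simpa using hS
    have h2 : (single (ind S) (1 : ℚ) : H) ≠ 0 := single_ne_zero one_ne_zero
    have h3 := tw_ne (B (ind S)) w hw
    simp only [LinearMap.smul_apply, M_apply, Subfield.smul_def, smul_eq_mul]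
    refine ⟨mul_ne_zero h1 (mul_ne_zero h2 h3), ?_⟩
    rw [order_mul h1 (mul_ne_zero h2 h3), order_mul h2 h3, order_single one_ne_zero, order_tw,
      add_assoc]
  intro h0
  have h1 := congrArg (fun z : H => z.coeff ((f S0 : H).order + ind S0 + w.order)) h0
  simp only [LinearMap.sum_apply, coeff_sum, coeff_zero, Pi.zero_apply] at h1
  rw [Finset.sum_eq_single S0] at h1
  · rw [← (hne2 S0 hf0).2, coeff_order_eq_zero] at h1
    exact (hne2 S0 hf0).1 h1
  · intro S hS hSS
    by_cases hf : f S = 0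
    · simp [hf]
    apply coeff_eq_zero_of_lt_order
    rw [(hne2 S hf).2]
    apply add_lt_add_left
    refine lt_of_le_of_ne (hmin S (Finset.mem_filter.mpr ⟨hS, hf⟩)) ?_
    intro h2
    apply hSS
    ext i
    have h3 := congrArg (co i) h2
    rw [map_add, map_add, co_ind, co_ind] at h3
    have h4 := Int.even_iff.mp (even_order _ hf (co i))
    have h5 := Int.even_iff.mp (even_order _ hf0 (co i))
    split_ifs at h3 with h6 h7 h7
    · simp [h6, h7]
    · omega
    · omega
    · simp [h6, h7]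
  · intro h
    exact absurd hS0T h

end Pool.Agent.H48.Cliff
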