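import Pool.Agent.H48.RDist

set_option autoImplicit false

namespace Pool.Agent.H48.RDist

lemma w_rel {F D : Type} [Field F] [Ring D] [Algebra F D] (u v : D) (a b : F)
    (h1 : u * u = a • 1) (h2 : v * v = b • 1) (h3 : v * u = -(u * v)) (hc : 1 + a * b ≠ 0) :
    u * (1 + u * v) = (1 + u * v) * ((1 + a * b)⁻¹ • ((1 - a * b) • u + (2 * a) • v)) := by
  have e1 : u * (u * v) = a • v := by rw [← mul_assoc, h1]; simp
  have e2 : u * v * u = -(a • v) := by rw [mul_assoc, h3, mul_neg, e1]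
  have e3 : u * v * v = b • u := by rw [mul_assoc, h2]; simp
  rw [mul_smul_comm, eq_inv_smul_iff₀ hc]
  simp only [mul_add, add_mul, mul_one, one_mul, mul_smul_comm, e1, e2, e3]
  module

theorem gen1 {F D : Type} [Field F] [Ring D] [IsDomain D] [Algebra F D]
    (P : ℕ → Submodule F D) (mono : ∀ n m, n ≤ m → P n ≤ P m) (one : ∀ n, (1 : D) ∈ P n)
    (all : ∀ d, ∃ n, d ∈ P n) (hint : ∀ d : D, IsIntegral F d)
    (x : ℕ → D) (a : ℕ → F) (xsq : ∀ i, x i * x i = a i • 1)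
    (xanti : ∀ i, x (i + 1) * x i = -(x i * x (i + 1))) (xmem : ∀ i, x i ∈ P (i + 1))
    (xcomm : ∀ k, ∀ z ∈ P k, Commute (x k * x (k + 1)) z) (xnot : ∀ n, x n ∉ P n)
    (cne : ∀ k, 1 + a k * a (k + 1) ≠ 0) (ane : ∀ k, a k ≠ 0) (two : (2 : F) ≠ 0) :
    ¬ (∀ (R : Type) [Ring R],
      (∀ a b c : Submodule Rᵐᵒᵖ R, a ⊓ (b ⊔ c) = (a ⊓ b) ⊔ (a ⊓ c)) →
      (∀ x : R, ∃ p : Polynomial (Subring.center R),
          p.Monic ∧ Polynomial.eval₂ (Subring.center R).subtype x p = 0) →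
      ∀ a b c : Submodule R R, a ⊓ (b ⊔ c) = (a ⊓ b) ⊔ (a ⊓ c)) := by
  have w_ne : ∀ k, 1 + x k * x (k + 1) ≠ 0 := by
    intro k h0
    have h1 : x k * (1 + x k * x (k + 1)) = x k + a k • x (k + 1) := by
      rw [mul_add, ← mul_assoc, xsq]; simp
    rw [h0, mul_zero] at h1
    apply xnot (k + 1)
    have h2 : x (k + 1) = (-(a k)⁻¹) • x k := by
      rw [eq_neg_of_add_eq_zero_left h1.symm, smul_neg, neg_smul, neg_neg, smul_smul,
        inv_mul_cancel₀ (ane _), one_smul]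
    rw [h2]
    exact Submodule.smul_mem _ _ (xmem k)
  let W : ℕ → Dˣ := fun k => ((hint _).isUnit (w_ne k)).unit
  have W_val : ∀ k, (W k : D) = 1 + x k * x (k + 1) := fun k => IsUnit.unit_spec _
  let U : ℕ → Dˣ := fun n => Nat.rec 1 (fun n u => u * W n) n
  have hU : ∀ n, U (n + 1) = U n * W n := fun _ => rfl
  have hU0 : U 0 = 1 := rfl
  have W_comm : ∀ n, ∀ d ∈ P n, Commute (W n : D) d := by
    intro n d hd
    rw [W_val]
    exact (Commute.one_left _).add_left (xcomm n _ hd)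
  have conj_form : ∀ n : ℕ, ∃ (v : D) (c : F), v ∈ P n ∧ c ≠ 0 ∧
      x 0 * (U n).val = (U n).val * (v + c • x n) := by
    intro n
    induction n with
    | zero => exact ⟨0, 1, zero_mem _, one_ne_zero, by simp [hU0]⟩
    | succ n ih =>
      obtain ⟨v, c, hv, hc, h⟩ := ih
      have hw := w_rel (x n) (x (n + 1)) _ _ (xsq n) (xsq (n + 1)) (xanti n) (cne n)
      rw [← W_val] at hw
      refine ⟨v + (c * (1 + a n * a (n + 1))⁻¹ * (1 - a n * a (n + 1))) • x n,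
        c * (1 + a n * a (n + 1))⁻¹ * (2 * a n), ?_, ?_, ?_⟩
      · exact add_mem (mono _ _ (by omega) hv) (Submodule.smul_mem _ _ (xmem n))
      · exact mul_ne_zero (mul_ne_zero hc (inv_ne_zero (cne n))) (mul_ne_zero two (ane _))
      · rw [hU, Units.val_mul, ← mul_assoc, h, mul_assoc, mul_assoc, add_mul, smul_mul_assoc, hw,
          ← (W_comm n v hv).eq, ← mul_smul_comm, ← mul_add]
        congr 2
        module
  obtain ⟨σ, hσ⟩ := limit_hom (fun n => (P n : Set D)) mono all W W_comm U hU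
  apply abstract (F := F) σ (fun d hd => (hint d).isUnit hd) hint _ (x 0)
  · intro d hd
    obtain ⟨n, hn⟩ := all d
    obtain ⟨v, c, hv, hc, h⟩ := conj_form n
    rw [← hd, hσ n d hn, Units.inv_mul_cancel_right, Units.mul_right_inj] at h
    apply xnot n
    have h2 : x n = c⁻¹ • (d - v) := by
      rw [h, add_sub_cancel_left, smul_smul, inv_mul_cancel₀ hc, one_smul]
    rw [h2]
    exact Submodule.smul_mem _ _ (sub_mem hn hv)
  · intro f
    rw [hσ 0 _ (show algebraMap F D f ∈ P 0 from by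
      rw [Algebra.algebraMap_eq_smul_one]
      exact Submodule.smul_mem _ _ (one 0))]
    simp [hU0]

theorem gen2 {F E : Type} [Field F] [Ring E] [Nontrivial E] [Algebra F E]
    (P : ℕ → Submodule F E) (mono : ∀ n m, n ≤ m → P n ≤ P m) (one : ∀ n, (1 : E) ∈ P n)
    (mul : ∀ n a b, a ∈ P n → b ∈ P n → a * b ∈ P n) (fg : ∀ n, (P n).FG)
    (dom : ∀ n m a b, a ∈ P n → b ∈ P m → a ≠ 0 → b ≠ 0 → a * b ≠ 0)
    (x : ℕ → E) (a : ℕ → F) (xsq : ∀ i, x i * x i = a i • 1)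
    (xanti : ∀ i, x (i + 1) * x i = -(x i * x (i + 1))) (xmem : ∀ i, x i ∈ P (i + 1))
    (xcomm : ∀ k, ∀ z ∈ P k, Commute (x k * x (k + 1)) z) (xnot : ∀ n, x n ∉ P n)
    (cne : ∀ k, 1 + a k * a (k + 1) ≠ 0) (ane : ∀ k, a k ≠ 0) (two : (2 : F) ≠ 0) :
    ¬ (∀ (R : Type) [Ring R],
      (∀ a b c : Submodule Rᵐᵒᵖ R, a ⊓ (b ⊔ c) = (a ⊓ b) ⊔ (a ⊓ c)) →
      (∀ x : R, ∃ p : Polynomial (Subring.center R),
          p.Monic ∧ Polynomial.eval₂ (Subring.center R).subtype x p = 0) →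
      ∀ a b c : Submodule R R, a ⊓ (b ⊔ c) = (a ⊓ b) ⊔ (a ⊓ c)) := by
  let D : Subalgebra F E :=
    { carrier := {z | ∃ n, z ∈ P n}
      mul_mem' := by
        rintro a b ⟨n, hn⟩ ⟨m, hm⟩
        exact ⟨max n m, mul _ _ _ (mono _ _ (le_max_left _ _) hn) (mono _ _ (le_max_right _ _) hm)⟩
      add_mem' := by
        rintro a b ⟨n, hn⟩ ⟨m, hm⟩
        exact ⟨max n m, add_mem (mono _ _ (le_max_left _ _) hn) (mono _ _ (le_max_right _ _) hm)⟩
      algebraMap_mem' := fun r => ⟨0, by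
        rw [Algebra.algebraMap_eq_smul_one]
        exact Submodule.smul_mem _ _ (one 0)⟩ }
  have : NoZeroDivisors D := ⟨by
    rintro ⟨a, n, hn⟩ ⟨b, m, hm⟩ h
    by_contra h'
    push Not at h'
    exact dom n m a b hn hm (fun h0 => h'.1 (Subtype.ext h0)) (fun h0 => h'.2 (Subtype.ext h0))
      (congrArg Subtype.val h)⟩
  have : IsDomain D := NoZeroDivisors.to_isDomain _
  refine gen1 (F := F) (D := D) (fun n => (P n).comap D.val.toLinearMap)
    (fun n m h => Submodule.comap_mono (mono n m h)) one (fun d => d.2) ?_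
    (fun i => ⟨x i, i + 1, xmem i⟩) a (fun i => Subtype.ext (xsq i))
    (fun i => Subtype.ext (xanti i)) xmem (fun k z hz => Subtype.ext (xcomm k z hz)) xnot
    cne ane two
  rintro ⟨d, n, hn⟩
  rw [← isIntegral_algHom_iff D.val Subtype.val_injective]
  exact IsIntegral.of_mem_of_fg ((P n).toSubalgebra (one n) (mul n)) (fg n) _ hn

end Pool.Agent.H48.RDist
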