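import Pool.Agent.H48.Cliff
import Pool.Agent.H48.RDist2

set_option autoImplicit false

namespace Pool.Agent.H48.Cliff

open HahnSeries

noncomputable def x (i : ℕ) : E := M (e i)

lemma L_e (i j : ℕ) : L i (e j) = if j < i then 1 else 0 := by
  simp [L, co_e]

lemma x_sq (i : ℕ) : x i * x i = sq (e i) • (1 : E) := by
  rw [x, M_mul, B_e, L_e, ← M_zero, ← M_two]
  simp

lemma x_anti (i k : ℕ) (h : i < k) : x k * x i = -(x i * x k) := by
  rw [x, x, M_mul, M_mul, B_e, B_e, L_e, L_e, if_pos h, if_neg (by omega), sg_odd 1 odd_one,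
    add_comm]
  simp

lemma x_mem (i : ℕ) : x i ∈ P (i + 1) :=
  Submodule.subset_span ⟨e i, fun j hj => by rw [co_e, if_neg (by omega)], rfl⟩

lemma B_e_zero (k j : ℕ) (h : k ≤ j) (γ : G) (hγ : ∀ i, k ≤ i → co i γ = 0) : B γ (e j) = 0 := by
  show (Finsupp.liftAddHom (fun i => zmultiplesHom _ (L i)) (ofLex γ)) (e j) = 0
  rw [Finsupp.liftAddHom_apply, Finsupp.sum, AddMonoidHom.finsetSum_apply]
  apply Finset.sum_eq_zero
  intro i _
  by_cases hi : k ≤ i
  · have : ofLex γ i = 0 := hγ i hi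
    simp [this]
  · simp [L_e, show ¬ j < i by omega]

lemma x_comm (k j : ℕ) (h : k ≤ j) (γ : G) (hγ : ∀ i, k ≤ i → co i γ = 0) :
    x j * M γ = sg (L j γ) • (M γ * x j) := by
  rw [x, M_mul, M_mul, B_e, B_e_zero k j h γ hγ, add_comm]
  simp

lemma xx_comm (k : ℕ) (z : E) (hz : z ∈ P k) : Commute (x k * x (k + 1)) z := by
  induction hz using Submodule.span_induction with
  | mem z hz =>
    obtain ⟨γ, hγ, rfl⟩ := hz
    have h1 : L (k + 1) γ = L k γ := by
      simp [L, Finset.sum_range_succ, hγ k le_rfl]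
    show _ = _
    rw [mul_assoc, x_comm k (k + 1) (by omega) γ hγ, mul_smul_comm, ← mul_assoc,
      x_comm k k le_rfl γ hγ, h1, smul_mul_assoc, smul_smul, ← sg_add,
      sg_even _ (Even.add_self _), one_smul, mul_assoc]
  | zero => exact Commute.zero_right _
  | add a b _ _ ha hb => exact ha.add_right hb
  | smul c a _ ha => exact ha.smul_right c

lemma x_notMem (n : ℕ) : x n ∉ P n := by
  have key : ∀ z ∈ P n, tw (co n) (z 1) = z 1 := by
    intro z hz
    induction hz using Submodule.span_induction with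
    | mem z hz =>
      obtain ⟨γ, hγ, rfl⟩ := hz
      simp [M_apply, tw_single, hγ n le_rfl]
    | zero => simp
    | add a b _ _ ha hb => simp [ha, hb]
    | smul c a _ ha =>
      simp only [LinearMap.smul_apply, Subfield.smul_def, smul_eq_mul, map_mul, ha]
      rw [c.2]
  intro h
  have h1 := key _ h
  simp only [x, M_apply, map_one, mul_one, tw_single, co_e, if_true, sg_odd 1 odd_one] at h1
  have h2 := congrArg (fun z : H => z.coeff (e n)) h1
  simp at h2
  norm_num at h2

lemma c_ne (k : ℕ) : 1 + sq (e k) * sq (e (k + 1)) ≠ 0 := by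
  intro h
  have h1 := congrArg (fun z : F => (z : H).coeff 0) h
  have h2 : e k + e k + (e (k + 1) + e (k + 1)) ≠ 0 := by
    intro h3
    have := congrArg (co k) h3
    simp [co_e] at this
  simp [sq, single_mul_single, coeff_single_of_ne h2.symm] at h1

lemma sq_ne (γ : G) : sq γ ≠ 0 := by
  intro h
  have h1 := congrArg (fun z : F => (z : H).coeff (γ + γ)) h
  simp [sq] at h1

lemma P_fg (n : ℕ) : (P n).FG :=
  (Submodule.fg_span (Set.toFinite _)).of_le (P_le n)

theorem main :
    ¬ (∀ (R : Type) [Ring R],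
      (∀ a b c : Submodule Rᵐᵒᵖ R, a ⊓ (b ⊔ c) = (a ⊓ b) ⊔ (a ⊓ c)) →
      (∀ x : R, ∃ p : Polynomial (Subring.center R),
          p.Monic ∧ Polynomial.eval₂ (Subring.center R).subtype x p = 0) →
      ∀ a b c : Submodule R R, a ⊓ (b ⊔ c) = (a ⊓ b) ⊔ (a ⊓ c)) := by
  refine RDist.gen2 (F := F) (E := E) P P_mono P_one P_mul P_fg ?_ x (fun i => sq (e i)) x_sq
    (fun i => x_anti i (i + 1) (by omega)) x_mem xx_comm x_notMem c_ne (fun _ => sq_ne _) ?_
  · intro n m a b ha hb ha0 hb0 h
    apply P_inj n a ha ha0 _ (P_inj m b hb hb0 1 one_ne_zero)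
    rw [← Module.End.mul_apply, h]
    rfl
  · intro h
    have h1 : ((2 : F) : H) = 0 := congrArg Subtype.val h
    have h2 : ((2 : F) : H) = 1 + 1 := by
      rw [← one_add_one_eq_two]
      rfl
    have h3 := congrArg (fun z : H => z.coeff 0) (h2.symm.trans h1)
    simp at h3

end Pool.Agent.H48.Cliff
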