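import Mathlib

set_option autoImplicit false

namespace Pool.Agent.H48.Cum

open Classical in
/-- indicator -/
noncomputable def ind (P : Prop) : ℝ := if P then 1 else 0

theorem ind_true : ind True = 1 := by simp [ind]
theorem ind_true' {P : Prop} (h : P) : ind P = 1 := by simp [ind, h]
theorem ind_false {P : Prop} (h : ¬ P) : ind P = 0 := by simp [ind, h]
theorem ind_nonneg (P : Prop) : 0 ≤ ind P := by unfold ind; split_ifs <;> norm_num
theorem ind_le (P : Prop) : ind P ≤ 1 := by unfold ind; split_ifs <;> norm_num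
theorem ind_eq (P : Prop) [Decidable P] : ind P = ((decide P).toNat : ℝ) := by
  by_cases h : P <;> simp [ind, h]
theorem ind_and (P Q : Prop) : ind (P ∧ Q) = ind P * ind Q := by
  by_cases h : P <;> by_cases h' : Q <;> simp [ind, h, h']
theorem ind_or (P Q : Prop) : ind (P ∨ Q) ≤ ind P + ind Q := by
  by_cases h : P <;> by_cases h' : Q <;> simp [ind, h, h']

/-- comparable sizes -/
def nr (v w : ℤ) : Prop := v ≠ 0 ∧ v.natAbs ≤ 12 * w.natAbs ∧ w.natAbs ≤ 12 * v.natAbs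

/-- chain-determined tuples -/
def Ch (a b c d e f : ℤ) : Prop :=
  nr a b ∧ (nr a c ∨ nr (a + b) c) ∧ (nr a d ∨ nr (a + b + c) d) ∧
    (nr a e ∨ nr b e ∨ nr c e ∨ nr d e) ∧ (nr d f ∨ nr e f)

/-- not bad -/
def NB (y : Fin 6 → ℤ) : Prop := ∀ g : Fin 6 → Fin 6, Function.Injective g →
  ¬ Ch (y (g 0)) (y (g 1)) (y (g 2)) (y (g 3)) (y (g 4)) (y (g 5))

/-- separation -/
def Sep {I : Type} (y : I → ℤ) : Prop :=
  ∀ i j, y i + y j ≠ 0 → (y i).natAbs ≤ 12 * (y i + y j).natAbs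

theorem tot_comp (y : Fin 6 → ℤ) (f : Fin 6 → Fin 6) (hf : Function.Injective f) :
    ∑ p, y (f p) = ∑ p, y p :=
  Function.Bijective.sum_comp (Finite.injective_iff_bijective.1 hf) y

theorem L1' (z : Fin 6 → ℤ) (h0 : ∀ i, z i ≠ 0) (hs : Sep z) (ht : ∑ p, z p = 0) (hb : NB z)
    (h : z 0 + z 1 + z 2 = 0) : z 0 ≠ z 3 ∧ z 0 + z 3 ≠ 0 := by
  rw [Fin.sum_univ_six] at ht
  by_contra hn
  have n0 := h0 0
  have n1 := h0 1
  have n2 := h0 2
  have n3 := h0 3
  have n4 := h0 4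
  have n5 := h0 5
  have a1 := hs 0 2 (by omega)
  have a2 := hs 1 2 (by omega)
  have a3 := hs 0 1 (by omega)
  have a4 := hs 2 1 (by omega)
  have b1 := hs 3 5 (by omega)
  have b2 := hs 4 5 (by omega)
  have b3 := hs 3 4 (by omega)
  have b4 := hs 5 4 (by omega)
  refine hb id Function.injective_id ⟨⟨n0, ?_, ?_⟩, Or.inl ⟨n0, ?_, ?_⟩, Or.inl ⟨n0, ?_, ?_⟩,
    Or.inr (Or.inr (Or.inr ⟨n3, ?_, ?_⟩)), Or.inl ⟨n3, ?_, ?_⟩⟩ <;> simp only [id] <;> omega

theorem ch2 (a b c d e f : ℤ) (hab : a + b ≠ 0) (ha : a ≠ 0) (hd : d ≠ 0)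
    (hs : a + b + c + d = 0) (o1 : c.natAbs ≤ a.natAbs) (o2 : c.natAbs ≤ b.natAbs)
    (o3 : d.natAbs ≤ c.natAbs) (hc : c.natAbs ≤ 12 * (c + d).natAbs)
    (he : e + a = 0 ∨ e + b = 0 ∨ e + c = 0 ∨ e + d = 0) (hf : e + f = 0) :
    Ch a b c d e f := by
  refine ⟨⟨ha, by omega, by omega⟩, Or.inr ⟨hab, by omega, by omega⟩,
    Or.inr ⟨by omega, by omega, by omega⟩, ?_, Or.inr ⟨by omega, by omega, by omega⟩⟩
  rcases he with he | he | he | he
  · exact Or.inl ⟨ha, by omega, by omega⟩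
  · exact Or.inr (Or.inl ⟨by omega, by omega, by omega⟩)
  · exact Or.inr (Or.inr (Or.inl ⟨by omega, by omega, by omega⟩))
  · exact Or.inr (Or.inr (Or.inr ⟨by omega, by omega, by omega⟩))

theorem L2' (z : Fin 6 → ℤ) (h0 : ∀ i, z i ≠ 0) (hs : Sep z) (ht : ∑ p, z p = 0) (hb : NB z) :
    ¬ z 4 + z 5 = 0 ∨ ¬ z 4 + z 0 = 0 ∨ z 0 + z 1 = 0 ∨ z 0 + z 2 = 0 ∨ z 0 + z 3 = 0 ∨
      z 1 + z 2 = 0 ∨ z 1 + z 3 = 0 ∨ z 2 + z 3 = 0 := by
  rw [Fin.sum_univ_six] at ht
  by_contra hn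
  simp only [not_or, not_not] at hn
  obtain ⟨e1, e2, e3, e4, e5, e6, e7, e8⟩ := hn
  have hc : ((z 2).natAbs ≤ (z 0).natAbs ∧ (z 2).natAbs ≤ (z 1).natAbs ∧ (z 3).natAbs ≤ (z 2).natAbs) ∨
      ((z 3).natAbs ≤ (z 0).natAbs ∧ (z 3).natAbs ≤ (z 1).natAbs ∧ (z 2).natAbs ≤ (z 3).natAbs) ∨
      ((z 1).natAbs ≤ (z 0).natAbs ∧ (z 1).natAbs ≤ (z 2).natAbs ∧ (z 3).natAbs ≤ (z 1).natAbs) ∨
      ((z 3).natAbs ≤ (z 0).natAbs ∧ (z 3).natAbs ≤ (z 2).natAbs ∧ (z 1).natAbs ≤ (z 3).natAbs) ∨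
      ((z 1).natAbs ≤ (z 0).natAbs ∧ (z 1).natAbs ≤ (z 3).natAbs ∧ (z 2).natAbs ≤ (z 1).natAbs) ∨
      ((z 2).natAbs ≤ (z 0).natAbs ∧ (z 2).natAbs ≤ (z 3).natAbs ∧ (z 1).natAbs ≤ (z 2).natAbs) ∨
      ((z 0).natAbs ≤ (z 1).natAbs ∧ (z 0).natAbs ≤ (z 2).natAbs ∧ (z 3).natAbs ≤ (z 0).natAbs) ∨
      ((z 3).natAbs ≤ (z 1).natAbs ∧ (z 3).natAbs ≤ (z 2).natAbs ∧ (z 0).natAbs ≤ (z 3).natAbs) ∨
      ((z 0).natAbs ≤ (z 1).natAbs ∧ (z 0).natAbs ≤ (z 3).natAbs ∧ (z 2).natAbs ≤ (z 0).natAbs) ∨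
      ((z 2).natAbs ≤ (z 1).natAbs ∧ (z 2).natAbs ≤ (z 3).natAbs ∧ (z 0).natAbs ≤ (z 2).natAbs) ∨
      ((z 0).natAbs ≤ (z 2).natAbs ∧ (z 0).natAbs ≤ (z 3).natAbs ∧ (z 1).natAbs ≤ (z 0).natAbs) ∨
      ((z 1).natAbs ≤ (z 2).natAbs ∧ (z 1).natAbs ≤ (z 3).natAbs ∧ (z 0).natAbs ≤ (z 1).natAbs) := by omega
  rcases hc with ⟨o1, o2, o3⟩ | ⟨o1, o2, o3⟩ | ⟨o1, o2, o3⟩ | ⟨o1, o2, o3⟩ |
    ⟨o1, o2, o3⟩ | ⟨o1, o2, o3⟩ | ⟨o1, o2, o3⟩ | ⟨o1, o2, o3⟩ |
    ⟨o1, o2, o3⟩ | ⟨o1, o2, o3⟩ | ⟨o1, o2, o3⟩ | ⟨o1, o2, o3⟩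
  · exact hb ![0, 1, 2, 3, 4, 5] (by decide) (show Ch (z 0) (z 1) (z 2) (z 3) (z 4) (z 5) from
      ch2 _ _ _ _ _ _ (by omega) (h0 _) (h0 _) (by omega) o1 o2 o3 (hs 2 3 (by omega))
        (by omega) e1)
  · exact hb ![0, 1, 3, 2, 4, 5] (by decide) (show Ch (z 0) (z 1) (z 3) (z 2) (z 4) (z 5) from
      ch2 _ _ _ _ _ _ (by omega) (h0 _) (h0 _) (by omega) o1 o2 o3 (hs 3 2 (by omega))
        (by omega) e1)
  · exact hb ![0, 2, 1, 3, 4, 5] (by decide) (show Ch (z 0) (z 2) (z 1) (z 3) (z 4) (z 5) from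
      ch2 _ _ _ _ _ _ (by omega) (h0 _) (h0 _) (by omega) o1 o2 o3 (hs 1 3 (by omega))
        (by omega) e1)
  · exact hb ![0, 2, 3, 1, 4, 5] (by decide) (show Ch (z 0) (z 2) (z 3) (z 1) (z 4) (z 5) from
      ch2 _ _ _ _ _ _ (by omega) (h0 _) (h0 _) (by omega) o1 o2 o3 (hs 3 1 (by omega))
        (by omega) e1)
  · exact hb ![0, 3, 1, 2, 4, 5] (by decide) (show Ch (z 0) (z 3) (z 1) (z 2) (z 4) (z 5) from
      ch2 _ _ _ _ _ _ (by omega) (h0 _) (h0 _) (by omega) o1 o2 o3 (hs 1 2 (by omega))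
        (by omega) e1)
  · exact hb ![0, 3, 2, 1, 4, 5] (by decide) (show Ch (z 0) (z 3) (z 2) (z 1) (z 4) (z 5) from
      ch2 _ _ _ _ _ _ (by omega) (h0 _) (h0 _) (by omega) o1 o2 o3 (hs 2 1 (by omega))
        (by omega) e1)
  · exact hb ![1, 2, 0, 3, 4, 5] (by decide) (show Ch (z 1) (z 2) (z 0) (z 3) (z 4) (z 5) from
      ch2 _ _ _ _ _ _ (by omega) (h0 _) (h0 _) (by omega) o1 o2 o3 (hs 0 3 (by omega))
        (by omega) e1)
  · exact hb ![1, 2, 3, 0, 4, 5] (by decide) (show Ch (z 1) (z 2) (z 3) (z 0) (z 4) (z 5) from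
      ch2 _ _ _ _ _ _ (by omega) (h0 _) (h0 _) (by omega) o1 o2 o3 (hs 3 0 (by omega))
        (by omega) e1)
  · exact hb ![1, 3, 0, 2, 4, 5] (by decide) (show Ch (z 1) (z 3) (z 0) (z 2) (z 4) (z 5) from
      ch2 _ _ _ _ _ _ (by omega) (h0 _) (h0 _) (by omega) o1 o2 o3 (hs 0 2 (by omega))
        (by omega) e1)
  · exact hb ![1, 3, 2, 0, 4, 5] (by decide) (show Ch (z 1) (z 3) (z 2) (z 0) (z 4) (z 5) from
      ch2 _ _ _ _ _ _ (by omega) (h0 _) (h0 _) (by omega) o1 o2 o3 (hs 2 0 (by omega))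
        (by omega) e1)
  · exact hb ![2, 3, 0, 1, 4, 5] (by decide) (show Ch (z 2) (z 3) (z 0) (z 1) (z 4) (z 5) from
      ch2 _ _ _ _ _ _ (by omega) (h0 _) (h0 _) (by omega) o1 o2 o3 (hs 0 1 (by omega))
        (by omega) e1)
  · exact hb ![2, 3, 1, 0, 4, 5] (by decide) (show Ch (z 2) (z 3) (z 1) (z 0) (z 4) (z 5) from
      ch2 _ _ _ _ _ _ (by omega) (h0 _) (h0 _) (by omega) o1 o2 o3 (hs 1 0 (by omega))
        (by omega) e1)

theorem L1 (y : Fin 6 → ℤ) (h0 : ∀ i, y i ≠ 0) (hs : Sep y) (ht : ∑ p, y p = 0) (hb : NB y)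
    (i j k l m n : Fin 6) (hf : Function.Injective ![i, j, k, l, m, n])
    (h : y i + y j + y k = 0) : y i ≠ y l ∧ y i + y l ≠ 0 :=
  L1' (fun p => y (![i, j, k, l, m, n] p)) (fun _ => h0 _) (fun _ _ => hs _ _)
    (by rw [tot_comp y _ hf, ht]) (fun g hg => hb _ (hf.comp hg)) h

theorem L2 (y : Fin 6 → ℤ) (h0 : ∀ i, y i ≠ 0) (hs : Sep y) (ht : ∑ p, y p = 0) (hb : NB y)
    (i j k l m n : Fin 6) (hf : Function.Injective ![i, j, k, l, m, n]) :
    ¬ y m + y n = 0 ∨ ¬ y m + y i = 0 ∨ y i + y j = 0 ∨ y i + y k = 0 ∨ y i + y l = 0 ∨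
      y j + y k = 0 ∨ y j + y l = 0 ∨ y k + y l = 0 :=
  L2' (fun p => y (![i, j, k, l, m, n] p)) (fun _ => h0 _) (fun _ _ => hs _ _)
    (by rw [tot_comp y _ hf, ht]) (fun g hg => hb _ (hf.comp hg))

/-- boolean constraints -/
def chk (e01 e02 e03 e04 e05 e12 e13 e14 e15 e23 e24 e25 e34 e35 e45 : Bool) : Bool :=
  (!e01 || !e02 || e23 || e24 || e25 || e34 || e35 || e45) &&
  (!e01 || !e03 || e23 || e34 || e35 || e24 || e25 || e45) &&
  (!e01 || !e04 || e24 || e34 || e45 || e23 || e25 || e35) &&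
  (!e01 || !e05 || e25 || e35 || e45 || e23 || e24 || e34) &&
  (!e02 || !e03 || e13 || e34 || e35 || e14 || e15 || e45) &&
  (!e02 || !e04 || e14 || e34 || e45 || e13 || e15 || e35) &&
  (!e02 || !e05 || e15 || e35 || e45 || e13 || e14 || e34) &&
  (!e03 || !e04 || e14 || e24 || e45 || e12 || e15 || e25) &&
  (!e03 || !e05 || e15 || e25 || e45 || e12 || e14 || e24) &&
  (!e04 || !e05 || e15 || e25 || e35 || e12 || e13 || e23) &&
  (!e01 || !e12 || e23 || e24 || e25 || e34 || e35 || e45) &&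
  (!e01 || !e13 || e23 || e34 || e35 || e24 || e25 || e45) &&
  (!e01 || !e14 || e24 || e34 || e45 || e23 || e25 || e35) &&
  (!e01 || !e15 || e25 || e35 || e45 || e23 || e24 || e34) &&
  (!e12 || !e13 || e03 || e34 || e35 || e04 || e05 || e45) &&
  (!e12 || !e14 || e04 || e34 || e45 || e03 || e05 || e35) &&
  (!e12 || !e15 || e05 || e35 || e45 || e03 || e04 || e34) &&
  (!e13 || !e14 || e04 || e24 || e45 || e02 || e05 || e25) &&
  (!e13 || !e15 || e05 || e25 || e45 || e02 || e04 || e24) &&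
  (!e14 || !e15 || e05 || e25 || e35 || e02 || e03 || e23) &&
  (!e02 || !e12 || e13 || e14 || e15 || e34 || e35 || e45) &&
  (!e02 || !e23 || e13 || e34 || e35 || e14 || e15 || e45) &&
  (!e02 || !e24 || e14 || e34 || e45 || e13 || e15 || e35) &&
  (!e02 || !e25 || e15 || e35 || e45 || e13 || e14 || e34) &&
  (!e12 || !e23 || e03 || e34 || e35 || e04 || e05 || e45) &&
  (!e12 || !e24 || e04 || e34 || e45 || e03 || e05 || e35) &&
  (!e12 || !e25 || e05 || e35 || e45 || e03 || e04 || e34) &&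
  (!e23 || !e24 || e04 || e14 || e45 || e01 || e05 || e15) &&
  (!e23 || !e25 || e05 || e15 || e45 || e01 || e04 || e14) &&
  (!e24 || !e25 || e05 || e15 || e35 || e01 || e03 || e13) &&
  (!e03 || !e13 || e12 || e14 || e15 || e24 || e25 || e45) &&
  (!e03 || !e23 || e12 || e24 || e25 || e14 || e15 || e45) &&
  (!e03 || !e34 || e14 || e24 || e45 || e12 || e15 || e25) &&
  (!e03 || !e35 || e15 || e25 || e45 || e12 || e14 || e24) &&
  (!e13 || !e23 || e02 || e24 || e25 || e04 || e05 || e45) &&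
  (!e13 || !e34 || e04 || e24 || e45 || e02 || e05 || e25) &&
  (!e13 || !e35 || e05 || e25 || e45 || e02 || e04 || e24) &&
  (!e23 || !e34 || e04 || e14 || e45 || e01 || e05 || e15) &&
  (!e23 || !e35 || e05 || e15 || e45 || e01 || e04 || e14) &&
  (!e34 || !e35 || e05 || e15 || e25 || e01 || e02 || e12) &&
  (!e04 || !e14 || e12 || e13 || e15 || e23 || e25 || e35) &&
  (!e04 || !e24 || e12 || e23 || e25 || e13 || e15 || e35) &&
  (!e04 || !e34 || e13 || e23 || e35 || e12 || e15 || e25) &&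
  (!e04 || !e45 || e15 || e25 || e35 || e12 || e13 || e23) &&
  (!e14 || !e24 || e02 || e23 || e25 || e03 || e05 || e35) &&
  (!e14 || !e34 || e03 || e23 || e35 || e02 || e05 || e25) &&
  (!e14 || !e45 || e05 || e25 || e35 || e02 || e03 || e23) &&
  (!e24 || !e34 || e03 || e13 || e35 || e01 || e05 || e15) &&
  (!e24 || !e45 || e05 || e15 || e35 || e01 || e03 || e13) &&
  (!e34 || !e45 || e05 || e15 || e25 || e01 || e02 || e12) &&
  (!e05 || !e15 || e12 || e13 || e14 || e23 || e24 || e34) &&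
  (!e05 || !e25 || e12 || e23 || e24 || e13 || e14 || e34) &&
  (!e05 || !e35 || e13 || e23 || e34 || e12 || e14 || e24) &&
  (!e05 || !e45 || e14 || e24 || e34 || e12 || e13 || e23) &&
  (!e15 || !e25 || e02 || e23 || e24 || e03 || e04 || e34) &&
  (!e15 || !e35 || e03 || e23 || e34 || e02 || e04 || e24) &&
  (!e15 || !e45 || e04 || e24 || e34 || e02 || e03 || e23) &&
  (!e25 || !e35 || e03 || e13 || e34 || e01 || e04 || e14) &&
  (!e25 || !e45 || e04 || e14 || e34 || e01 || e03 || e13) &&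
  (!e35 || !e45 || e04 || e14 || e24 || e01 || e02 || e12)

/-- two edges of a matching force the third -/
def mm (a b c : Bool) : Bool := (!a || !b || c) && (!a || !c || b) && (!b || !c || a)

theorem hm (P Q R : Prop) [Decidable P] [Decidable Q] [Decidable R] (h1 : P → Q → R)
    (h2 : P → R → Q) (h3 : Q → R → P) : mm (decide P) (decide Q) (decide R) = true := by
  by_cases p : P <;> by_cases q : Q <;> by_cases r : R <;> simp_all [mm]

set_option synthInstance.maxSize 100000 in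
theorem comb : ∀ e01 : Bool, ∀ e23 : Bool, ∀ e45 : Bool, mm e01 e23 e45 = true →
    ∀ e24 : Bool, ∀ e35 : Bool, mm e01 e24 e35 = true →
    ∀ e25 : Bool, ∀ e34 : Bool, mm e01 e25 e34 = true →
    ∀ e02 : Bool, ∀ e13 : Bool, mm e02 e13 e45 = true →
    ∀ e14 : Bool, mm e02 e14 e35 = true →
    ∀ e15 : Bool, mm e02 e15 e34 = true →
    ∀ e03 : Bool, mm e03 e14 e25 = true →
    mm e03 e15 e24 = true →
    ∀ e12 : Bool, mm e03 e12 e45 = true →
    ∀ e04 : Bool, mm e04 e12 e35 = true →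
    mm e04 e13 e25 = true →
    mm e04 e15 e23 = true →
    ∀ e05 : Bool, mm e05 e12 e34 = true →
    mm e05 e13 e24 = true →
    mm e05 e14 e23 = true →
    chk e01 e02 e03 e04 e05 e12 e13 e14 e15 e23 e24 e25 e34 e35 e45 = true →
    e01.toNat + e02.toNat + e03.toNat + e04.toNat + e05.toNat + e12.toNat + e13.toNat +
    e14.toNat + e15.toNat + e23.toNat + e24.toNat + e25.toNat + e34.toNat + e35.toNat +
    e45.toNat ≤
    1 + 2 * ((e01 && (e23 && e45)).toNat + (e01 && (e24 && e35)).toNat + (e01 && (e25 && e34)).toNat +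
      (e02 && (e13 && e45)).toNat + (e02 && (e14 && e35)).toNat + (e02 && (e15 && e34)).toNat +
      (e03 && (e12 && e45)).toNat + (e03 && (e14 && e25)).toNat + (e03 && (e15 && e24)).toNat +
      (e04 && (e12 && e35)).toNat + (e04 && (e13 && e25)).toNat + (e04 && (e15 && e23)).toNat +
      (e05 && (e12 && e34)).toNat + (e05 && (e13 && e24)).toNat + (e05 && (e14 && e23)).toNat) := by
  decide +kernel

/-- the joint cumulant weight -/
noncomputable def KK (y : Fin 6 → ℤ) : ℝ :=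
  ind (∑ p, y p = 0) - (ind (∑ p, y p = 0 ∧ y 0 + y 1 = 0) + ind (∑ p, y p = 0 ∧ y 0 + y 2 = 0) +
    ind (∑ p, y p = 0 ∧ y 0 + y 3 = 0) + ind (∑ p, y p = 0 ∧ y 0 + y 4 = 0) +
    ind (∑ p, y p = 0 ∧ y 0 + y 5 = 0) + ind (∑ p, y p = 0 ∧ y 1 + y 2 = 0) +
    ind (∑ p, y p = 0 ∧ y 1 + y 3 = 0) + ind (∑ p, y p = 0 ∧ y 1 + y 4 = 0) +
    ind (∑ p, y p = 0 ∧ y 1 + y 5 = 0) + ind (∑ p, y p = 0 ∧ y 2 + y 3 = 0) +
    ind (∑ p, y p = 0 ∧ y 2 + y 4 = 0) + ind (∑ p, y p = 0 ∧ y 2 + y 5 = 0) +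
    ind (∑ p, y p = 0 ∧ y 3 + y 4 = 0) + ind (∑ p, y p = 0 ∧ y 3 + y 5 = 0) +
    ind (∑ p, y p = 0 ∧ y 4 + y 5 = 0))
  - (ind (∑ p, y p = 0 ∧ y 0 + y 1 + y 2 = 0) + ind (∑ p, y p = 0 ∧ y 0 + y 1 + y 3 = 0) +
    ind (∑ p, y p = 0 ∧ y 0 + y 1 + y 4 = 0) + ind (∑ p, y p = 0 ∧ y 0 + y 1 + y 5 = 0) +
    ind (∑ p, y p = 0 ∧ y 0 + y 2 + y 3 = 0) + ind (∑ p, y p = 0 ∧ y 0 + y 2 + y 4 = 0) +
    ind (∑ p, y p = 0 ∧ y 0 + y 2 + y 5 = 0) + ind (∑ p, y p = 0 ∧ y 0 + y 3 + y 4 = 0) +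
    ind (∑ p, y p = 0 ∧ y 0 + y 3 + y 5 = 0) + ind (∑ p, y p = 0 ∧ y 0 + y 4 + y 5 = 0))
  + 2 * (ind (∑ p, y p = 0 ∧ y 0 + y 1 = 0 ∧ y 2 + y 3 = 0 ∧ y 4 + y 5 = 0) +
    ind (∑ p, y p = 0 ∧ y 0 + y 1 = 0 ∧ y 2 + y 4 = 0 ∧ y 3 + y 5 = 0) +
    ind (∑ p, y p = 0 ∧ y 0 + y 1 = 0 ∧ y 2 + y 5 = 0 ∧ y 3 + y 4 = 0) +
    ind (∑ p, y p = 0 ∧ y 0 + y 2 = 0 ∧ y 1 + y 3 = 0 ∧ y 4 + y 5 = 0) +
    ind (∑ p, y p = 0 ∧ y 0 + y 2 = 0 ∧ y 1 + y 4 = 0 ∧ y 3 + y 5 = 0) +
    ind (∑ p, y p = 0 ∧ y 0 + y 2 = 0 ∧ y 1 + y 5 = 0 ∧ y 3 + y 4 = 0) +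
    ind (∑ p, y p = 0 ∧ y 0 + y 3 = 0 ∧ y 1 + y 2 = 0 ∧ y 4 + y 5 = 0) +
    ind (∑ p, y p = 0 ∧ y 0 + y 3 = 0 ∧ y 1 + y 4 = 0 ∧ y 2 + y 5 = 0) +
    ind (∑ p, y p = 0 ∧ y 0 + y 3 = 0 ∧ y 1 + y 5 = 0 ∧ y 2 + y 4 = 0) +
    ind (∑ p, y p = 0 ∧ y 0 + y 4 = 0 ∧ y 1 + y 2 = 0 ∧ y 3 + y 5 = 0) +
    ind (∑ p, y p = 0 ∧ y 0 + y 4 = 0 ∧ y 1 + y 3 = 0 ∧ y 2 + y 5 = 0) +
    ind (∑ p, y p = 0 ∧ y 0 + y 4 = 0 ∧ y 1 + y 5 = 0 ∧ y 2 + y 3 = 0) +
    ind (∑ p, y p = 0 ∧ y 0 + y 5 = 0 ∧ y 1 + y 2 = 0 ∧ y 3 + y 4 = 0) +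
    ind (∑ p, y p = 0 ∧ y 0 + y 5 = 0 ∧ y 1 + y 3 = 0 ∧ y 2 + y 4 = 0) +
    ind (∑ p, y p = 0 ∧ y 0 + y 5 = 0 ∧ y 1 + y 4 = 0 ∧ y 2 + y 3 = 0))

/-- primitive relation -/
def Good (y : Fin 6 → ℤ) : Prop :=
  ∑ p, y p = 0 ∧ (¬ y 0 + y 1 = 0 ∧ ¬ y 0 + y 2 = 0 ∧ ¬ y 0 + y 3 = 0 ∧ ¬ y 0 + y 4 = 0 ∧ ¬ y 0 + y 5 = 0 ∧
    ¬ y 1 + y 2 = 0 ∧ ¬ y 1 + y 3 = 0 ∧ ¬ y 1 + y 4 = 0 ∧ ¬ y 1 + y 5 = 0 ∧ ¬ y 2 + y 3 = 0 ∧
    ¬ y 2 + y 4 = 0 ∧ ¬ y 2 + y 5 = 0 ∧ ¬ y 3 + y 4 = 0 ∧ ¬ y 3 + y 5 = 0 ∧ ¬ y 4 + y 5 = 0) ∧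
  (¬ y 0 + y 1 + y 2 = 0 ∧ ¬ y 0 + y 1 + y 3 = 0 ∧ ¬ y 0 + y 1 + y 4 = 0 ∧
    ¬ y 0 + y 1 + y 5 = 0 ∧ ¬ y 0 + y 2 + y 3 = 0 ∧ ¬ y 0 + y 2 + y 4 = 0 ∧
    ¬ y 0 + y 2 + y 5 = 0 ∧ ¬ y 0 + y 3 + y 4 = 0 ∧ ¬ y 0 + y 3 + y 5 = 0 ∧
    ¬ y 0 + y 4 + y 5 = 0)

theorem nonneg (y : Fin 6 → ℤ) (h0 : ∀ i, y i ≠ 0) (hs : Sep y) (ht : ∑ p, y p = 0)
    (hb : NB y) : 0 ≤ KK y := by
  have ht' := ht
  rw [Fin.sum_univ_six] at ht'
  have n0 := h0 0
  have n1 := h0 1
  have n2 := h0 2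
  have n3 := h0 3
  have n4 := h0 4
  have n5 := h0 5
  unfold KK
  simp only [eq_true ht, true_and, ind_true]
  by_cases s0 : y 0 + y 1 + y 2 = 0
  · have c03 := L1 y h0 hs ht hb 0 1 2 3 4 5 (by decide) (by linarith only [s0])
    have c04 := L1 y h0 hs ht hb 0 1 2 4 3 5 (by decide) (by linarith only [s0])
    have c05 := L1 y h0 hs ht hb 0 1 2 5 3 4 (by decide) (by linarith only [s0])
    have c13 := L1 y h0 hs ht hb 1 0 2 3 4 5 (by decide) (by linarith only [s0])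
    have c14 := L1 y h0 hs ht hb 1 0 2 4 3 5 (by decide) (by linarith only [s0])
    have c15 := L1 y h0 hs ht hb 1 0 2 5 3 4 (by decide) (by linarith only [s0])
    have c23 := L1 y h0 hs ht hb 2 0 1 3 4 5 (by decide) (by linarith only [s0])
    have c24 := L1 y h0 hs ht hb 2 0 1 4 3 5 (by decide) (by linarith only [s0])
    have c25 := L1 y h0 hs ht hb 2 0 1 5 3 4 (by decide) (by linarith only [s0])
    rw [ind_false (show ¬ y 0 + y 1 = 0 from
        fun h => n2 (by linarith only [ht', s0, h])),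
      ind_false (show ¬ y 0 + y 2 = 0 from
        fun h => n1 (by linarith only [ht', s0, h])),
      ind_false (show ¬ y 0 + y 3 = 0 from
        fun h => c03.2 (by linarith only [ht', s0, h])),
      ind_false (show ¬ y 0 + y 4 = 0 from
        fun h => c04.2 (by linarith only [ht', s0, h])),
      ind_false (show ¬ y 0 + y 5 = 0 from
        fun h => c05.2 (by linarith only [ht', s0, h])),
      ind_false (show ¬ y 1 + y 2 = 0 from
        fun h => n0 (by linarith only [ht', s0, h])),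
      ind_false (show ¬ y 1 + y 3 = 0 from
        fun h => c13.2 (by linarith only [ht', s0, h])),
      ind_false (show ¬ y 1 + y 4 = 0 from
        fun h => c14.2 (by linarith only [ht', s0, h])),
      ind_false (show ¬ y 1 + y 5 = 0 from
        fun h => c15.2 (by linarith only [ht', s0, h])),
      ind_false (show ¬ y 2 + y 3 = 0 from
        fun h => c23.2 (by linarith only [ht', s0, h])),
      ind_false (show ¬ y 2 + y 4 = 0 from
        fun h => c24.2 (by linarith only [ht', s0, h])),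
      ind_false (show ¬ y 2 + y 5 = 0 from
        fun h => c25.2 (by linarith only [ht', s0, h])),
      ind_false (show ¬ y 3 + y 4 = 0 from
        fun h => n5 (by linarith only [ht', s0, h])),
      ind_false (show ¬ y 3 + y 5 = 0 from
        fun h => n4 (by linarith only [ht', s0, h])),
      ind_false (show ¬ y 4 + y 5 = 0 from
        fun h => n3 (by linarith only [ht', s0, h])),
      ind_false (show ¬ y 0 + y 1 + y 3 = 0 from
        fun h => c23.1 (by linarith only [ht', s0, h])),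
      ind_false (show ¬ y 0 + y 1 + y 4 = 0 from
        fun h => c24.1 (by linarith only [ht', s0, h])),
      ind_false (show ¬ y 0 + y 1 + y 5 = 0 from
        fun h => c25.1 (by linarith only [ht', s0, h])),
      ind_false (show ¬ y 0 + y 2 + y 3 = 0 from
        fun h => c13.1 (by linarith only [ht', s0, h])),
      ind_false (show ¬ y 0 + y 2 + y 4 = 0 from
        fun h => c14.1 (by linarith only [ht', s0, h])),
      ind_false (show ¬ y 0 + y 2 + y 5 = 0 from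
        fun h => c15.1 (by linarith only [ht', s0, h])),
      ind_false (show ¬ y 0 + y 3 + y 4 = 0 from
        fun h => c05.1 (by linarith only [ht', s0, h])),
      ind_false (show ¬ y 0 + y 3 + y 5 = 0 from
        fun h => c04.1 (by linarith only [ht', s0, h])),
      ind_false (show ¬ y 0 + y 4 + y 5 = 0 from
        fun h => c03.1 (by linarith only [ht', s0, h])),
      ind_true' s0]
    linarith [ind_nonneg (y 0 + y 1 = 0 ∧ y 2 + y 3 = 0 ∧ y 4 + y 5 = 0),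
      ind_nonneg (y 0 + y 1 = 0 ∧ y 2 + y 4 = 0 ∧ y 3 + y 5 = 0),
      ind_nonneg (y 0 + y 1 = 0 ∧ y 2 + y 5 = 0 ∧ y 3 + y 4 = 0),
      ind_nonneg (y 0 + y 2 = 0 ∧ y 1 + y 3 = 0 ∧ y 4 + y 5 = 0),
      ind_nonneg (y 0 + y 2 = 0 ∧ y 1 + y 4 = 0 ∧ y 3 + y 5 = 0),
      ind_nonneg (y 0 + y 2 = 0 ∧ y 1 + y 5 = 0 ∧ y 3 + y 4 = 0),
      ind_nonneg (y 0 + y 3 = 0 ∧ y 1 + y 2 = 0 ∧ y 4 + y 5 = 0),
      ind_nonneg (y 0 + y 3 = 0 ∧ y 1 + y 4 = 0 ∧ y 2 + y 5 = 0),
      ind_nonneg (y 0 + y 3 = 0 ∧ y 1 + y 5 = 0 ∧ y 2 + y 4 = 0),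
      ind_nonneg (y 0 + y 4 = 0 ∧ y 1 + y 2 = 0 ∧ y 3 + y 5 = 0),
      ind_nonneg (y 0 + y 4 = 0 ∧ y 1 + y 3 = 0 ∧ y 2 + y 5 = 0),
      ind_nonneg (y 0 + y 4 = 0 ∧ y 1 + y 5 = 0 ∧ y 2 + y 3 = 0),
      ind_nonneg (y 0 + y 5 = 0 ∧ y 1 + y 2 = 0 ∧ y 3 + y 4 = 0),
      ind_nonneg (y 0 + y 5 = 0 ∧ y 1 + y 3 = 0 ∧ y 2 + y 4 = 0),
      ind_nonneg (y 0 + y 5 = 0 ∧ y 1 + y 4 = 0 ∧ y 2 + y 3 = 0)]
  by_cases s1 : y 0 + y 1 + y 3 = 0
  · have c02 := L1 y h0 hs ht hb 0 1 3 2 4 5 (by decide) (by linarith only [s1])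
    have c04 := L1 y h0 hs ht hb 0 1 3 4 2 5 (by decide) (by linarith only [s1])
    have c05 := L1 y h0 hs ht hb 0 1 3 5 2 4 (by decide) (by linarith only [s1])
    have c12 := L1 y h0 hs ht hb 1 0 3 2 4 5 (by decide) (by linarith only [s1])
    have c14 := L1 y h0 hs ht hb 1 0 3 4 2 5 (by decide) (by linarith only [s1])
    have c15 := L1 y h0 hs ht hb 1 0 3 5 2 4 (by decide) (by linarith only [s1])
    have c32 := L1 y h0 hs ht hb 3 0 1 2 4 5 (by decide) (by linarith only [s1])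
    have c34 := L1 y h0 hs ht hb 3 0 1 4 2 5 (by decide) (by linarith only [s1])
    have c35 := L1 y h0 hs ht hb 3 0 1 5 2 4 (by decide) (by linarith only [s1])
    rw [ind_false (show ¬ y 0 + y 1 = 0 from
        fun h => n3 (by linarith only [ht', s1, h])),
      ind_false (show ¬ y 0 + y 2 = 0 from
        fun h => c02.2 (by linarith only [ht', s1, h])),
      ind_false (show ¬ y 0 + y 3 = 0 from
        fun h => n1 (by linarith only [ht', s1, h])),
      ind_false (show ¬ y 0 + y 4 = 0 from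
        fun h => c04.2 (by linarith only [ht', s1, h])),
      ind_false (show ¬ y 0 + y 5 = 0 from
        fun h => c05.2 (by linarith only [ht', s1, h])),
      ind_false (show ¬ y 1 + y 2 = 0 from
        fun h => c12.2 (by linarith only [ht', s1, h])),
      ind_false (show ¬ y 1 + y 3 = 0 from
        fun h => n0 (by linarith only [ht', s1, h])),
      ind_false (show ¬ y 1 + y 4 = 0 from
        fun h => c14.2 (by linarith only [ht', s1, h])),
      ind_false (show ¬ y 1 + y 5 = 0 from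
        fun h => c15.2 (by linarith only [ht', s1, h])),
      ind_false (show ¬ y 2 + y 3 = 0 from
        fun h => c32.2 (by linarith only [ht', s1, h])),
      ind_false (show ¬ y 2 + y 4 = 0 from
        fun h => n5 (by linarith only [ht', s1, h])),
      ind_false (show ¬ y 2 + y 5 = 0 from
        fun h => n4 (by linarith only [ht', s1, h])),
      ind_false (show ¬ y 3 + y 4 = 0 from
        fun h => c34.2 (by linarith only [ht', s1, h])),
      ind_false (show ¬ y 3 + y 5 = 0 from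
        fun h => c35.2 (by linarith only [ht', s1, h])),
      ind_false (show ¬ y 4 + y 5 = 0 from
        fun h => n2 (by linarith only [ht', s1, h])),
      ind_false (show ¬ y 0 + y 1 + y 2 = 0 from
        fun h => c32.1 (by linarith only [ht', s1, h])),
      ind_false (show ¬ y 0 + y 1 + y 4 = 0 from
        fun h => c34.1 (by linarith only [ht', s1, h])),
      ind_false (show ¬ y 0 + y 1 + y 5 = 0 from
        fun h => c35.1 (by linarith only [ht', s1, h])),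
      ind_false (show ¬ y 0 + y 2 + y 3 = 0 from
        fun h => c12.1 (by linarith only [ht', s1, h])),
      ind_false (show ¬ y 0 + y 2 + y 4 = 0 from
        fun h => c05.1 (by linarith only [ht', s1, h])),
      ind_false (show ¬ y 0 + y 2 + y 5 = 0 from
        fun h => c04.1 (by linarith only [ht', s1, h])),
      ind_false (show ¬ y 0 + y 3 + y 4 = 0 from
        fun h => c14.1 (by linarith only [ht', s1, h])),
      ind_false (show ¬ y 0 + y 3 + y 5 = 0 from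
        fun h => c15.1 (by linarith only [ht', s1, h])),
      ind_false (show ¬ y 0 + y 4 + y 5 = 0 from
        fun h => c02.1 (by linarith only [ht', s1, h])),
      ind_true' s1]
    linarith [ind_nonneg (y 0 + y 1 = 0 ∧ y 2 + y 3 = 0 ∧ y 4 + y 5 = 0),
      ind_nonneg (y 0 + y 1 = 0 ∧ y 2 + y 4 = 0 ∧ y 3 + y 5 = 0),
      ind_nonneg (y 0 + y 1 = 0 ∧ y 2 + y 5 = 0 ∧ y 3 + y 4 = 0),
      ind_nonneg (y 0 + y 2 = 0 ∧ y 1 + y 3 = 0 ∧ y 4 + y 5 = 0),
      ind_nonneg (y 0 + y 2 = 0 ∧ y 1 + y 4 = 0 ∧ y 3 + y 5 = 0),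
      ind_nonneg (y 0 + y 2 = 0 ∧ y 1 + y 5 = 0 ∧ y 3 + y 4 = 0),
      ind_nonneg (y 0 + y 3 = 0 ∧ y 1 + y 2 = 0 ∧ y 4 + y 5 = 0),
      ind_nonneg (y 0 + y 3 = 0 ∧ y 1 + y 4 = 0 ∧ y 2 + y 5 = 0),
      ind_nonneg (y 0 + y 3 = 0 ∧ y 1 + y 5 = 0 ∧ y 2 + y 4 = 0),
      ind_nonneg (y 0 + y 4 = 0 ∧ y 1 + y 2 = 0 ∧ y 3 + y 5 = 0),
      ind_nonneg (y 0 + y 4 = 0 ∧ y 1 + y 3 = 0 ∧ y 2 + y 5 = 0),
      ind_nonneg (y 0 + y 4 = 0 ∧ y 1 + y 5 = 0 ∧ y 2 + y 3 = 0),
      ind_nonneg (y 0 + y 5 = 0 ∧ y 1 + y 2 = 0 ∧ y 3 + y 4 = 0),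
      ind_nonneg (y 0 + y 5 = 0 ∧ y 1 + y 3 = 0 ∧ y 2 + y 4 = 0),
      ind_nonneg (y 0 + y 5 = 0 ∧ y 1 + y 4 = 0 ∧ y 2 + y 3 = 0)]
  by_cases s2 : y 0 + y 1 + y 4 = 0
  · have c02 := L1 y h0 hs ht hb 0 1 4 2 3 5 (by decide) (by linarith only [s2])
    have c03 := L1 y h0 hs ht hb 0 1 4 3 2 5 (by decide) (by linarith only [s2])
    have c05 := L1 y h0 hs ht hb 0 1 4 5 2 3 (by decide) (by linarith only [s2])
    have c12 := L1 y h0 hs ht hb 1 0 4 2 3 5 (by decide) (by linarith only [s2])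
    have c13 := L1 y h0 hs ht hb 1 0 4 3 2 5 (by decide) (by linarith only [s2])
    have c15 := L1 y h0 hs ht hb 1 0 4 5 2 3 (by decide) (by linarith only [s2])
    have c42 := L1 y h0 hs ht hb 4 0 1 2 3 5 (by decide) (by linarith only [s2])
    have c43 := L1 y h0 hs ht hb 4 0 1 3 2 5 (by decide) (by linarith only [s2])
    have c45 := L1 y h0 hs ht hb 4 0 1 5 2 3 (by decide) (by linarith only [s2])
    rw [ind_false (show ¬ y 0 + y 1 = 0 from
        fun h => n4 (by linarith only [ht', s2, h])),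
      ind_false (show ¬ y 0 + y 2 = 0 from
        fun h => c02.2 (by linarith only [ht', s2, h])),
      ind_false (show ¬ y 0 + y 3 = 0 from
        fun h => c03.2 (by linarith only [ht', s2, h])),
      ind_false (show ¬ y 0 + y 4 = 0 from
        fun h => n1 (by linarith only [ht', s2, h])),
      ind_false (show ¬ y 0 + y 5 = 0 from
        fun h => c05.2 (by linarith only [ht', s2, h])),
      ind_false (show ¬ y 1 + y 2 = 0 from
        fun h => c12.2 (by linarith only [ht', s2, h])),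
      ind_false (show ¬ y 1 + y 3 = 0 from
        fun h => c13.2 (by linarith only [ht', s2, h])),
      ind_false (show ¬ y 1 + y 4 = 0 from
        fun h => n0 (by linarith only [ht', s2, h])),
      ind_false (show ¬ y 1 + y 5 = 0 from
        fun h => c15.2 (by linarith only [ht', s2, h])),
      ind_false (show ¬ y 2 + y 3 = 0 from
        fun h => n5 (by linarith only [ht', s2, h])),
      ind_false (show ¬ y 2 + y 4 = 0 from
        fun h => c42.2 (by linarith only [ht', s2, h])),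
      ind_false (show ¬ y 2 + y 5 = 0 from
        fun h => n3 (by linarith only [ht', s2, h])),
      ind_false (show ¬ y 3 + y 4 = 0 from
        fun h => c43.2 (by linarith only [ht', s2, h])),
      ind_false (show ¬ y 3 + y 5 = 0 from
        fun h => n2 (by linarith only [ht', s2, h])),
      ind_false (show ¬ y 4 + y 5 = 0 from
        fun h => c45.2 (by linarith only [ht', s2, h])),
      ind_false (show ¬ y 0 + y 1 + y 2 = 0 from
        fun h => c42.1 (by linarith only [ht', s2, h])),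
      ind_false (show ¬ y 0 + y 1 + y 3 = 0 from
        fun h => c43.1 (by linarith only [ht', s2, h])),
      ind_false (show ¬ y 0 + y 1 + y 5 = 0 from
        fun h => c45.1 (by linarith only [ht', s2, h])),
      ind_false (show ¬ y 0 + y 2 + y 3 = 0 from
        fun h => c05.1 (by linarith only [ht', s2, h])),
      ind_false (show ¬ y 0 + y 2 + y 4 = 0 from
        fun h => c12.1 (by linarith only [ht', s2, h])),
      ind_false (show ¬ y 0 + y 2 + y 5 = 0 from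
        fun h => c03.1 (by linarith only [ht', s2, h])),
      ind_false (show ¬ y 0 + y 3 + y 4 = 0 from
        fun h => c13.1 (by linarith only [ht', s2, h])),
      ind_false (show ¬ y 0 + y 3 + y 5 = 0 from
        fun h => c02.1 (by linarith only [ht', s2, h])),
      ind_false (show ¬ y 0 + y 4 + y 5 = 0 from
        fun h => c15.1 (by linarith only [ht', s2, h])),
      ind_true' s2]
    linarith [ind_nonneg (y 0 + y 1 = 0 ∧ y 2 + y 3 = 0 ∧ y 4 + y 5 = 0),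
      ind_nonneg (y 0 + y 1 = 0 ∧ y 2 + y 4 = 0 ∧ y 3 + y 5 = 0),
      ind_nonneg (y 0 + y 1 = 0 ∧ y 2 + y 5 = 0 ∧ y 3 + y 4 = 0),
      ind_nonneg (y 0 + y 2 = 0 ∧ y 1 + y 3 = 0 ∧ y 4 + y 5 = 0),
      ind_nonneg (y 0 + y 2 = 0 ∧ y 1 + y 4 = 0 ∧ y 3 + y 5 = 0),
      ind_nonneg (y 0 + y 2 = 0 ∧ y 1 + y 5 = 0 ∧ y 3 + y 4 = 0),
      ind_nonneg (y 0 + y 3 = 0 ∧ y 1 + y 2 = 0 ∧ y 4 + y 5 = 0),
      ind_nonneg (y 0 + y 3 = 0 ∧ y 1 + y 4 = 0 ∧ y 2 + y 5 = 0),
      ind_nonneg (y 0 + y 3 = 0 ∧ y 1 + y 5 = 0 ∧ y 2 + y 4 = 0),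
      ind_nonneg (y 0 + y 4 = 0 ∧ y 1 + y 2 = 0 ∧ y 3 + y 5 = 0),
      ind_nonneg (y 0 + y 4 = 0 ∧ y 1 + y 3 = 0 ∧ y 2 + y 5 = 0),
      ind_nonneg (y 0 + y 4 = 0 ∧ y 1 + y 5 = 0 ∧ y 2 + y 3 = 0),
      ind_nonneg (y 0 + y 5 = 0 ∧ y 1 + y 2 = 0 ∧ y 3 + y 4 = 0),
      ind_nonneg (y 0 + y 5 = 0 ∧ y 1 + y 3 = 0 ∧ y 2 + y 4 = 0),
      ind_nonneg (y 0 + y 5 = 0 ∧ y 1 + y 4 = 0 ∧ y 2 + y 3 = 0)]
  by_cases s3 : y 0 + y 1 + y 5 = 0
  · have c02 := L1 y h0 hs ht hb 0 1 5 2 3 4 (by decide) (by linarith only [s3])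
    have c03 := L1 y h0 hs ht hb 0 1 5 3 2 4 (by decide) (by linarith only [s3])
    have c04 := L1 y h0 hs ht hb 0 1 5 4 2 3 (by decide) (by linarith only [s3])
    have c12 := L1 y h0 hs ht hb 1 0 5 2 3 4 (by decide) (by linarith only [s3])
    have c13 := L1 y h0 hs ht hb 1 0 5 3 2 4 (by decide) (by linarith only [s3])
    have c14 := L1 y h0 hs ht hb 1 0 5 4 2 3 (by decide) (by linarith only [s3])
    have c52 := L1 y h0 hs ht hb 5 0 1 2 3 4 (by decide) (by linarith only [s3])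
    have c53 := L1 y h0 hs ht hb 5 0 1 3 2 4 (by decide) (by linarith only [s3])
    have c54 := L1 y h0 hs ht hb 5 0 1 4 2 3 (by decide) (by linarith only [s3])
    rw [ind_false (show ¬ y 0 + y 1 = 0 from
        fun h => n5 (by linarith only [ht', s3, h])),
      ind_false (show ¬ y 0 + y 2 = 0 from
        fun h => c02.2 (by linarith only [ht', s3, h])),
      ind_false (show ¬ y 0 + y 3 = 0 from
        fun h => c03.2 (by linarith only [ht', s3, h])),
      ind_false (show ¬ y 0 + y 4 = 0 from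
        fun h => c04.2 (by linarith only [ht', s3, h])),
      ind_false (show ¬ y 0 + y 5 = 0 from
        fun h => n1 (by linarith only [ht', s3, h])),
      ind_false (show ¬ y 1 + y 2 = 0 from
        fun h => c12.2 (by linarith only [ht', s3, h])),
      ind_false (show ¬ y 1 + y 3 = 0 from
        fun h => c13.2 (by linarith only [ht', s3, h])),
      ind_false (show ¬ y 1 + y 4 = 0 from
        fun h => c14.2 (by linarith only [ht', s3, h])),
      ind_false (show ¬ y 1 + y 5 = 0 from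
        fun h => n0 (by linarith only [ht', s3, h])),
      ind_false (show ¬ y 2 + y 3 = 0 from
        fun h => n4 (by linarith only [ht', s3, h])),
      ind_false (show ¬ y 2 + y 4 = 0 from
        fun h => n3 (by linarith only [ht', s3, h])),
      ind_false (show ¬ y 2 + y 5 = 0 from
        fun h => c52.2 (by linarith only [ht', s3, h])),
      ind_false (show ¬ y 3 + y 4 = 0 from
        fun h => n2 (by linarith only [ht', s3, h])),
      ind_false (show ¬ y 3 + y 5 = 0 from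
        fun h => c53.2 (by linarith only [ht', s3, h])),
      ind_false (show ¬ y 4 + y 5 = 0 from
        fun h => c54.2 (by linarith only [ht', s3, h])),
      ind_false (show ¬ y 0 + y 1 + y 2 = 0 from
        fun h => c52.1 (by linarith only [ht', s3, h])),
      ind_false (show ¬ y 0 + y 1 + y 3 = 0 from
        fun h => c53.1 (by linarith only [ht', s3, h])),
      ind_false (show ¬ y 0 + y 1 + y 4 = 0 from
        fun h => c54.1 (by linarith only [ht', s3, h])),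
      ind_false (show ¬ y 0 + y 2 + y 3 = 0 from
        fun h => c04.1 (by linarith only [ht', s3, h])),
      ind_false (show ¬ y 0 + y 2 + y 4 = 0 from
        fun h => c03.1 (by linarith only [ht', s3, h])),
      ind_false (show ¬ y 0 + y 2 + y 5 = 0 from
        fun h => c12.1 (by linarith only [ht', s3, h])),
      ind_false (show ¬ y 0 + y 3 + y 4 = 0 from
        fun h => c02.1 (by linarith only [ht', s3, h])),
      ind_false (show ¬ y 0 + y 3 + y 5 = 0 from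
        fun h => c13.1 (by linarith only [ht', s3, h])),
      ind_false (show ¬ y 0 + y 4 + y 5 = 0 from
        fun h => c14.1 (by linarith only [ht', s3, h])),
      ind_true' s3]
    linarith [ind_nonneg (y 0 + y 1 = 0 ∧ y 2 + y 3 = 0 ∧ y 4 + y 5 = 0),
      ind_nonneg (y 0 + y 1 = 0 ∧ y 2 + y 4 = 0 ∧ y 3 + y 5 = 0),
      ind_nonneg (y 0 + y 1 = 0 ∧ y 2 + y 5 = 0 ∧ y 3 + y 4 = 0),
      ind_nonneg (y 0 + y 2 = 0 ∧ y 1 + y 3 = 0 ∧ y 4 + y 5 = 0),
      ind_nonneg (y 0 + y 2 = 0 ∧ y 1 + y 4 = 0 ∧ y 3 + y 5 = 0),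
      ind_nonneg (y 0 + y 2 = 0 ∧ y 1 + y 5 = 0 ∧ y 3 + y 4 = 0),
      ind_nonneg (y 0 + y 3 = 0 ∧ y 1 + y 2 = 0 ∧ y 4 + y 5 = 0),
      ind_nonneg (y 0 + y 3 = 0 ∧ y 1 + y 4 = 0 ∧ y 2 + y 5 = 0),
      ind_nonneg (y 0 + y 3 = 0 ∧ y 1 + y 5 = 0 ∧ y 2 + y 4 = 0),
      ind_nonneg (y 0 + y 4 = 0 ∧ y 1 + y 2 = 0 ∧ y 3 + y 5 = 0),
      ind_nonneg (y 0 + y 4 = 0 ∧ y 1 + y 3 = 0 ∧ y 2 + y 5 = 0),
      ind_nonneg (y 0 + y 4 = 0 ∧ y 1 + y 5 = 0 ∧ y 2 + y 3 = 0),
      ind_nonneg (y 0 + y 5 = 0 ∧ y 1 + y 2 = 0 ∧ y 3 + y 4 = 0),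
      ind_nonneg (y 0 + y 5 = 0 ∧ y 1 + y 3 = 0 ∧ y 2 + y 4 = 0),
      ind_nonneg (y 0 + y 5 = 0 ∧ y 1 + y 4 = 0 ∧ y 2 + y 3 = 0)]
  by_cases s4 : y 0 + y 2 + y 3 = 0
  · have c01 := L1 y h0 hs ht hb 0 2 3 1 4 5 (by decide) (by linarith only [s4])
    have c04 := L1 y h0 hs ht hb 0 2 3 4 1 5 (by decide) (by linarith only [s4])
    have c05 := L1 y h0 hs ht hb 0 2 3 5 1 4 (by decide) (by linarith only [s4])
    have c21 := L1 y h0 hs ht hb 2 0 3 1 4 5 (by decide) (by linarith only [s4])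
    have c24 := L1 y h0 hs ht hb 2 0 3 4 1 5 (by decide) (by linarith only [s4])
    have c25 := L1 y h0 hs ht hb 2 0 3 5 1 4 (by decide) (by linarith only [s4])
    have c31 := L1 y h0 hs ht hb 3 0 2 1 4 5 (by decide) (by linarith only [s4])
    have c34 := L1 y h0 hs ht hb 3 0 2 4 1 5 (by decide) (by linarith only [s4])
    have c35 := L1 y h0 hs ht hb 3 0 2 5 1 4 (by decide) (by linarith only [s4])
    rw [ind_false (show ¬ y 0 + y 1 = 0 from
        fun h => c01.2 (by linarith only [ht', s4, h])),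
      ind_false (show ¬ y 0 + y 2 = 0 from
        fun h => n3 (by linarith only [ht', s4, h])),
      ind_false (show ¬ y 0 + y 3 = 0 from
        fun h => n2 (by linarith only [ht', s4, h])),
      ind_false (show ¬ y 0 + y 4 = 0 from
        fun h => c04.2 (by linarith only [ht', s4, h])),
      ind_false (show ¬ y 0 + y 5 = 0 from
        fun h => c05.2 (by linarith only [ht', s4, h])),
      ind_false (show ¬ y 1 + y 2 = 0 from
        fun h => c21.2 (by linarith only [ht', s4, h])),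
      ind_false (show ¬ y 1 + y 3 = 0 from
        fun h => c31.2 (by linarith only [ht', s4, h])),
      ind_false (show ¬ y 1 + y 4 = 0 from
        fun h => n5 (by linarith only [ht', s4, h])),
      ind_false (show ¬ y 1 + y 5 = 0 from
        fun h => n4 (by linarith only [ht', s4, h])),
      ind_false (show ¬ y 2 + y 3 = 0 from
        fun h => n0 (by linarith only [ht', s4, h])),
      ind_false (show ¬ y 2 + y 4 = 0 from
        fun h => c24.2 (by linarith only [ht', s4, h])),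
      ind_false (show ¬ y 2 + y 5 = 0 from
        fun h => c25.2 (by linarith only [ht', s4, h])),
      ind_false (show ¬ y 3 + y 4 = 0 from
        fun h => c34.2 (by linarith only [ht', s4, h])),
      ind_false (show ¬ y 3 + y 5 = 0 from
        fun h => c35.2 (by linarith only [ht', s4, h])),
      ind_false (show ¬ y 4 + y 5 = 0 from
        fun h => n1 (by linarith only [ht', s4, h])),
      ind_false (show ¬ y 0 + y 1 + y 2 = 0 from
        fun h => c31.1 (by linarith only [ht', s4, h])),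
      ind_false (show ¬ y 0 + y 1 + y 3 = 0 from
        fun h => c21.1 (by linarith only [ht', s4, h])),
      ind_false (show ¬ y 0 + y 1 + y 4 = 0 from
        fun h => c05.1 (by linarith only [ht', s4, h])),
      ind_false (show ¬ y 0 + y 1 + y 5 = 0 from
        fun h => c04.1 (by linarith only [ht', s4, h])),
      ind_false (show ¬ y 0 + y 2 + y 4 = 0 from
        fun h => c34.1 (by linarith only [ht', s4, h])),
      ind_false (show ¬ y 0 + y 2 + y 5 = 0 from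
        fun h => c35.1 (by linarith only [ht', s4, h])),
      ind_false (show ¬ y 0 + y 3 + y 4 = 0 from
        fun h => c24.1 (by linarith only [ht', s4, h])),
      ind_false (show ¬ y 0 + y 3 + y 5 = 0 from
        fun h => c25.1 (by linarith only [ht', s4, h])),
      ind_false (show ¬ y 0 + y 4 + y 5 = 0 from
        fun h => c01.1 (by linarith only [ht', s4, h])),
      ind_true' s4]
    linarith [ind_nonneg (y 0 + y 1 = 0 ∧ y 2 + y 3 = 0 ∧ y 4 + y 5 = 0),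
      ind_nonneg (y 0 + y 1 = 0 ∧ y 2 + y 4 = 0 ∧ y 3 + y 5 = 0),
      ind_nonneg (y 0 + y 1 = 0 ∧ y 2 + y 5 = 0 ∧ y 3 + y 4 = 0),
      ind_nonneg (y 0 + y 2 = 0 ∧ y 1 + y 3 = 0 ∧ y 4 + y 5 = 0),
      ind_nonneg (y 0 + y 2 = 0 ∧ y 1 + y 4 = 0 ∧ y 3 + y 5 = 0),
      ind_nonneg (y 0 + y 2 = 0 ∧ y 1 + y 5 = 0 ∧ y 3 + y 4 = 0),
      ind_nonneg (y 0 + y 3 = 0 ∧ y 1 + y 2 = 0 ∧ y 4 + y 5 = 0),
      ind_nonneg (y 0 + y 3 = 0 ∧ y 1 + y 4 = 0 ∧ y 2 + y 5 = 0),
      ind_nonneg (y 0 + y 3 = 0 ∧ y 1 + y 5 = 0 ∧ y 2 + y 4 = 0),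
      ind_nonneg (y 0 + y 4 = 0 ∧ y 1 + y 2 = 0 ∧ y 3 + y 5 = 0),
      ind_nonneg (y 0 + y 4 = 0 ∧ y 1 + y 3 = 0 ∧ y 2 + y 5 = 0),
      ind_nonneg (y 0 + y 4 = 0 ∧ y 1 + y 5 = 0 ∧ y 2 + y 3 = 0),
      ind_nonneg (y 0 + y 5 = 0 ∧ y 1 + y 2 = 0 ∧ y 3 + y 4 = 0),
      ind_nonneg (y 0 + y 5 = 0 ∧ y 1 + y 3 = 0 ∧ y 2 + y 4 = 0),
      ind_nonneg (y 0 + y 5 = 0 ∧ y 1 + y 4 = 0 ∧ y 2 + y 3 = 0)]
  by_cases s5 : y 0 + y 2 + y 4 = 0
  · have c01 := L1 y h0 hs ht hb 0 2 4 1 3 5 (by decide) (by linarith only [s5])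
    have c03 := L1 y h0 hs ht hb 0 2 4 3 1 5 (by decide) (by linarith only [s5])
    have c05 := L1 y h0 hs ht hb 0 2 4 5 1 3 (by decide) (by linarith only [s5])
    have c21 := L1 y h0 hs ht hb 2 0 4 1 3 5 (by decide) (by linarith only [s5])
    have c23 := L1 y h0 hs ht hb 2 0 4 3 1 5 (by decide) (by linarith only [s5])
    have c25 := L1 y h0 hs ht hb 2 0 4 5 1 3 (by decide) (by linarith only [s5])
    have c41 := L1 y h0 hs ht hb 4 0 2 1 3 5 (by decide) (by linarith only [s5])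
    have c43 := L1 y h0 hs ht hb 4 0 2 3 1 5 (by decide) (by linarith only [s5])
    have c45 := L1 y h0 hs ht hb 4 0 2 5 1 3 (by decide) (by linarith only [s5])
    rw [ind_false (show ¬ y 0 + y 1 = 0 from
        fun h => c01.2 (by linarith only [ht', s5, h])),
      ind_false (show ¬ y 0 + y 2 = 0 from
        fun h => n4 (by linarith only [ht', s5, h])),
      ind_false (show ¬ y 0 + y 3 = 0 from
        fun h => c03.2 (by linarith only [ht', s5, h])),
      ind_false (show ¬ y 0 + y 4 = 0 from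
        fun h => n2 (by linarith only [ht', s5, h])),
      ind_false (show ¬ y 0 + y 5 = 0 from
        fun h => c05.2 (by linarith only [ht', s5, h])),
      ind_false (show ¬ y 1 + y 2 = 0 from
        fun h => c21.2 (by linarith only [ht', s5, h])),
      ind_false (show ¬ y 1 + y 3 = 0 from
        fun h => n5 (by linarith only [ht', s5, h])),
      ind_false (show ¬ y 1 + y 4 = 0 from
        fun h => c41.2 (by linarith only [ht', s5, h])),
      ind_false (show ¬ y 1 + y 5 = 0 from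
        fun h => n3 (by linarith only [ht', s5, h])),
      ind_false (show ¬ y 2 + y 3 = 0 from
        fun h => c23.2 (by linarith only [ht', s5, h])),
      ind_false (show ¬ y 2 + y 4 = 0 from
        fun h => n0 (by linarith only [ht', s5, h])),
      ind_false (show ¬ y 2 + y 5 = 0 from
        fun h => c25.2 (by linarith only [ht', s5, h])),
      ind_false (show ¬ y 3 + y 4 = 0 from
        fun h => c43.2 (by linarith only [ht', s5, h])),
      ind_false (show ¬ y 3 + y 5 = 0 from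
        fun h => n1 (by linarith only [ht', s5, h])),
      ind_false (show ¬ y 4 + y 5 = 0 from
        fun h => c45.2 (by linarith only [ht', s5, h])),
      ind_false (show ¬ y 0 + y 1 + y 2 = 0 from
        fun h => c41.1 (by linarith only [ht', s5, h])),
      ind_false (show ¬ y 0 + y 1 + y 3 = 0 from
        fun h => c05.1 (by linarith only [ht', s5, h])),
      ind_false (show ¬ y 0 + y 1 + y 4 = 0 from
        fun h => c21.1 (by linarith only [ht', s5, h])),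
      ind_false (show ¬ y 0 + y 1 + y 5 = 0 from
        fun h => c03.1 (by linarith only [ht', s5, h])),
      ind_false (show ¬ y 0 + y 2 + y 3 = 0 from
        fun h => c43.1 (by linarith only [ht', s5, h])),
      ind_false (show ¬ y 0 + y 2 + y 5 = 0 from
        fun h => c45.1 (by linarith only [ht', s5, h])),
      ind_false (show ¬ y 0 + y 3 + y 4 = 0 from
        fun h => c23.1 (by linarith only [ht', s5, h])),
      ind_false (show ¬ y 0 + y 3 + y 5 = 0 from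
        fun h => c01.1 (by linarith only [ht', s5, h])),
      ind_false (show ¬ y 0 + y 4 + y 5 = 0 from
        fun h => c25.1 (by linarith only [ht', s5, h])),
      ind_true' s5]
    linarith [ind_nonneg (y 0 + y 1 = 0 ∧ y 2 + y 3 = 0 ∧ y 4 + y 5 = 0),
      ind_nonneg (y 0 + y 1 = 0 ∧ y 2 + y 4 = 0 ∧ y 3 + y 5 = 0),
      ind_nonneg (y 0 + y 1 = 0 ∧ y 2 + y 5 = 0 ∧ y 3 + y 4 = 0),
      ind_nonneg (y 0 + y 2 = 0 ∧ y 1 + y 3 = 0 ∧ y 4 + y 5 = 0),
      ind_nonneg (y 0 + y 2 = 0 ∧ y 1 + y 4 = 0 ∧ y 3 + y 5 = 0),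
      ind_nonneg (y 0 + y 2 = 0 ∧ y 1 + y 5 = 0 ∧ y 3 + y 4 = 0),
      ind_nonneg (y 0 + y 3 = 0 ∧ y 1 + y 2 = 0 ∧ y 4 + y 5 = 0),
      ind_nonneg (y 0 + y 3 = 0 ∧ y 1 + y 4 = 0 ∧ y 2 + y 5 = 0),
      ind_nonneg (y 0 + y 3 = 0 ∧ y 1 + y 5 = 0 ∧ y 2 + y 4 = 0),
      ind_nonneg (y 0 + y 4 = 0 ∧ y 1 + y 2 = 0 ∧ y 3 + y 5 = 0),
      ind_nonneg (y 0 + y 4 = 0 ∧ y 1 + y 3 = 0 ∧ y 2 + y 5 = 0),
      ind_nonneg (y 0 + y 4 = 0 ∧ y 1 + y 5 = 0 ∧ y 2 + y 3 = 0),
      ind_nonneg (y 0 + y 5 = 0 ∧ y 1 + y 2 = 0 ∧ y 3 + y 4 = 0),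
      ind_nonneg (y 0 + y 5 = 0 ∧ y 1 + y 3 = 0 ∧ y 2 + y 4 = 0),
      ind_nonneg (y 0 + y 5 = 0 ∧ y 1 + y 4 = 0 ∧ y 2 + y 3 = 0)]
  by_cases s6 : y 0 + y 2 + y 5 = 0
  · have c01 := L1 y h0 hs ht hb 0 2 5 1 3 4 (by decide) (by linarith only [s6])
    have c03 := L1 y h0 hs ht hb 0 2 5 3 1 4 (by decide) (by linarith only [s6])
    have c04 := L1 y h0 hs ht hb 0 2 5 4 1 3 (by decide) (by linarith only [s6])
    have c21 := L1 y h0 hs ht hb 2 0 5 1 3 4 (by decide) (by linarith only [s6])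
    have c23 := L1 y h0 hs ht hb 2 0 5 3 1 4 (by decide) (by linarith only [s6])
    have c24 := L1 y h0 hs ht hb 2 0 5 4 1 3 (by decide) (by linarith only [s6])
    have c51 := L1 y h0 hs ht hb 5 0 2 1 3 4 (by decide) (by linarith only [s6])
    have c53 := L1 y h0 hs ht hb 5 0 2 3 1 4 (by decide) (by linarith only [s6])
    have c54 := L1 y h0 hs ht hb 5 0 2 4 1 3 (by decide) (by linarith only [s6])
    rw [ind_false (show ¬ y 0 + y 1 = 0 from
        fun h => c01.2 (by linarith only [ht', s6, h])),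
      ind_false (show ¬ y 0 + y 2 = 0 from
        fun h => n5 (by linarith only [ht', s6, h])),
      ind_false (show ¬ y 0 + y 3 = 0 from
        fun h => c03.2 (by linarith only [ht', s6, h])),
      ind_false (show ¬ y 0 + y 4 = 0 from
        fun h => c04.2 (by linarith only [ht', s6, h])),
      ind_false (show ¬ y 0 + y 5 = 0 from
        fun h => n2 (by linarith only [ht', s6, h])),
      ind_false (show ¬ y 1 + y 2 = 0 from
        fun h => c21.2 (by linarith only [ht', s6, h])),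
      ind_false (show ¬ y 1 + y 3 = 0 from
        fun h => n4 (by linarith only [ht', s6, h])),
      ind_false (show ¬ y 1 + y 4 = 0 from
        fun h => n3 (by linarith only [ht', s6, h])),
      ind_false (show ¬ y 1 + y 5 = 0 from
        fun h => c51.2 (by linarith only [ht', s6, h])),
      ind_false (show ¬ y 2 + y 3 = 0 from
        fun h => c23.2 (by linarith only [ht', s6, h])),
      ind_false (show ¬ y 2 + y 4 = 0 from
        fun h => c24.2 (by linarith only [ht', s6, h])),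
      ind_false (show ¬ y 2 + y 5 = 0 from
        fun h => n0 (by linarith only [ht', s6, h])),
      ind_false (show ¬ y 3 + y 4 = 0 from
        fun h => n1 (by linarith only [ht', s6, h])),
      ind_false (show ¬ y 3 + y 5 = 0 from
        fun h => c53.2 (by linarith only [ht', s6, h])),
      ind_false (show ¬ y 4 + y 5 = 0 from
        fun h => c54.2 (by linarith only [ht', s6, h])),
      ind_false (show ¬ y 0 + y 1 + y 2 = 0 from
        fun h => c51.1 (by linarith only [ht', s6, h])),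
      ind_false (show ¬ y 0 + y 1 + y 3 = 0 from
        fun h => c04.1 (by linarith only [ht', s6, h])),
      ind_false (show ¬ y 0 + y 1 + y 4 = 0 from
        fun h => c03.1 (by linarith only [ht', s6, h])),
      ind_false (show ¬ y 0 + y 1 + y 5 = 0 from
        fun h => c21.1 (by linarith only [ht', s6, h])),
      ind_false (show ¬ y 0 + y 2 + y 3 = 0 from
        fun h => c53.1 (by linarith only [ht', s6, h])),
      ind_false (show ¬ y 0 + y 2 + y 4 = 0 from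
        fun h => c54.1 (by linarith only [ht', s6, h])),
      ind_false (show ¬ y 0 + y 3 + y 4 = 0 from
        fun h => c01.1 (by linarith only [ht', s6, h])),
      ind_false (show ¬ y 0 + y 3 + y 5 = 0 from
        fun h => c23.1 (by linarith only [ht', s6, h])),
      ind_false (show ¬ y 0 + y 4 + y 5 = 0 from
        fun h => c24.1 (by linarith only [ht', s6, h])),
      ind_true' s6]
    linarith [ind_nonneg (y 0 + y 1 = 0 ∧ y 2 + y 3 = 0 ∧ y 4 + y 5 = 0),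
      ind_nonneg (y 0 + y 1 = 0 ∧ y 2 + y 4 = 0 ∧ y 3 + y 5 = 0),
      ind_nonneg (y 0 + y 1 = 0 ∧ y 2 + y 5 = 0 ∧ y 3 + y 4 = 0),
      ind_nonneg (y 0 + y 2 = 0 ∧ y 1 + y 3 = 0 ∧ y 4 + y 5 = 0),
      ind_nonneg (y 0 + y 2 = 0 ∧ y 1 + y 4 = 0 ∧ y 3 + y 5 = 0),
      ind_nonneg (y 0 + y 2 = 0 ∧ y 1 + y 5 = 0 ∧ y 3 + y 4 = 0),
      ind_nonneg (y 0 + y 3 = 0 ∧ y 1 + y 2 = 0 ∧ y 4 + y 5 = 0),
      ind_nonneg (y 0 + y 3 = 0 ∧ y 1 + y 4 = 0 ∧ y 2 + y 5 = 0),
      ind_nonneg (y 0 + y 3 = 0 ∧ y 1 + y 5 = 0 ∧ y 2 + y 4 = 0),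
      ind_nonneg (y 0 + y 4 = 0 ∧ y 1 + y 2 = 0 ∧ y 3 + y 5 = 0),
      ind_nonneg (y 0 + y 4 = 0 ∧ y 1 + y 3 = 0 ∧ y 2 + y 5 = 0),
      ind_nonneg (y 0 + y 4 = 0 ∧ y 1 + y 5 = 0 ∧ y 2 + y 3 = 0),
      ind_nonneg (y 0 + y 5 = 0 ∧ y 1 + y 2 = 0 ∧ y 3 + y 4 = 0),
      ind_nonneg (y 0 + y 5 = 0 ∧ y 1 + y 3 = 0 ∧ y 2 + y 4 = 0),
      ind_nonneg (y 0 + y 5 = 0 ∧ y 1 + y 4 = 0 ∧ y 2 + y 3 = 0)]
  by_cases s7 : y 0 + y 3 + y 4 = 0
  · have c01 := L1 y h0 hs ht hb 0 3 4 1 2 5 (by decide) (by linarith only [s7])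
    have c02 := L1 y h0 hs ht hb 0 3 4 2 1 5 (by decide) (by linarith only [s7])
    have c05 := L1 y h0 hs ht hb 0 3 4 5 1 2 (by decide) (by linarith only [s7])
    have c31 := L1 y h0 hs ht hb 3 0 4 1 2 5 (by decide) (by linarith only [s7])
    have c32 := L1 y h0 hs ht hb 3 0 4 2 1 5 (by decide) (by linarith only [s7])
    have c35 := L1 y h0 hs ht hb 3 0 4 5 1 2 (by decide) (by linarith only [s7])
    have c41 := L1 y h0 hs ht hb 4 0 3 1 2 5 (by decide) (by linarith only [s7])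
    have c42 := L1 y h0 hs ht hb 4 0 3 2 1 5 (by decide) (by linarith only [s7])
    have c45 := L1 y h0 hs ht hb 4 0 3 5 1 2 (by decide) (by linarith only [s7])
    rw [ind_false (show ¬ y 0 + y 1 = 0 from
        fun h => c01.2 (by linarith only [ht', s7, h])),
      ind_false (show ¬ y 0 + y 2 = 0 from
        fun h => c02.2 (by linarith only [ht', s7, h])),
      ind_false (show ¬ y 0 + y 3 = 0 from
        fun h => n4 (by linarith only [ht', s7, h])),
      ind_false (show ¬ y 0 + y 4 = 0 from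
        fun h => n3 (by linarith only [ht', s7, h])),
      ind_false (show ¬ y 0 + y 5 = 0 from
        fun h => c05.2 (by linarith only [ht', s7, h])),
      ind_false (show ¬ y 1 + y 2 = 0 from
        fun h => n5 (by linarith only [ht', s7, h])),
      ind_false (show ¬ y 1 + y 3 = 0 from
        fun h => c31.2 (by linarith only [ht', s7, h])),
      ind_false (show ¬ y 1 + y 4 = 0 from
        fun h => c41.2 (by linarith only [ht', s7, h])),
      ind_false (show ¬ y 1 + y 5 = 0 from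
        fun h => n2 (by linarith only [ht', s7, h])),
      ind_false (show ¬ y 2 + y 3 = 0 from
        fun h => c32.2 (by linarith only [ht', s7, h])),
      ind_false (show ¬ y 2 + y 4 = 0 from
        fun h => c42.2 (by linarith only [ht', s7, h])),
      ind_false (show ¬ y 2 + y 5 = 0 from
        fun h => n1 (by linarith only [ht', s7, h])),
      ind_false (show ¬ y 3 + y 4 = 0 from
        fun h => n0 (by linarith only [ht', s7, h])),
      ind_false (show ¬ y 3 + y 5 = 0 from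
        fun h => c35.2 (by linarith only [ht', s7, h])),
      ind_false (show ¬ y 4 + y 5 = 0 from
        fun h => c45.2 (by linarith only [ht', s7, h])),
      ind_false (show ¬ y 0 + y 1 + y 2 = 0 from
        fun h => c05.1 (by linarith only [ht', s7, h])),
      ind_false (show ¬ y 0 + y 1 + y 3 = 0 from
        fun h => c41.1 (by linarith only [ht', s7, h])),
      ind_false (show ¬ y 0 + y 1 + y 4 = 0 from
        fun h => c31.1 (by linarith only [ht', s7, h])),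
      ind_false (show ¬ y 0 + y 1 + y 5 = 0 from
        fun h => c02.1 (by linarith only [ht', s7, h])),
      ind_false (show ¬ y 0 + y 2 + y 3 = 0 from
        fun h => c42.1 (by linarith only [ht', s7, h])),
      ind_false (show ¬ y 0 + y 2 + y 4 = 0 from
        fun h => c32.1 (by linarith only [ht', s7, h])),
      ind_false (show ¬ y 0 + y 2 + y 5 = 0 from
        fun h => c01.1 (by linarith only [ht', s7, h])),
      ind_false (show ¬ y 0 + y 3 + y 5 = 0 from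
        fun h => c45.1 (by linarith only [ht', s7, h])),
      ind_false (show ¬ y 0 + y 4 + y 5 = 0 from
        fun h => c35.1 (by linarith only [ht', s7, h])),
      ind_true' s7]
    linarith [ind_nonneg (y 0 + y 1 = 0 ∧ y 2 + y 3 = 0 ∧ y 4 + y 5 = 0),
      ind_nonneg (y 0 + y 1 = 0 ∧ y 2 + y 4 = 0 ∧ y 3 + y 5 = 0),
      ind_nonneg (y 0 + y 1 = 0 ∧ y 2 + y 5 = 0 ∧ y 3 + y 4 = 0),
      ind_nonneg (y 0 + y 2 = 0 ∧ y 1 + y 3 = 0 ∧ y 4 + y 5 = 0),
      ind_nonneg (y 0 + y 2 = 0 ∧ y 1 + y 4 = 0 ∧ y 3 + y 5 = 0),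
      ind_nonneg (y 0 + y 2 = 0 ∧ y 1 + y 5 = 0 ∧ y 3 + y 4 = 0),
      ind_nonneg (y 0 + y 3 = 0 ∧ y 1 + y 2 = 0 ∧ y 4 + y 5 = 0),
      ind_nonneg (y 0 + y 3 = 0 ∧ y 1 + y 4 = 0 ∧ y 2 + y 5 = 0),
      ind_nonneg (y 0 + y 3 = 0 ∧ y 1 + y 5 = 0 ∧ y 2 + y 4 = 0),
      ind_nonneg (y 0 + y 4 = 0 ∧ y 1 + y 2 = 0 ∧ y 3 + y 5 = 0),
      ind_nonneg (y 0 + y 4 = 0 ∧ y 1 + y 3 = 0 ∧ y 2 + y 5 = 0),
      ind_nonneg (y 0 + y 4 = 0 ∧ y 1 + y 5 = 0 ∧ y 2 + y 3 = 0),
      ind_nonneg (y 0 + y 5 = 0 ∧ y 1 + y 2 = 0 ∧ y 3 + y 4 = 0),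
      ind_nonneg (y 0 + y 5 = 0 ∧ y 1 + y 3 = 0 ∧ y 2 + y 4 = 0),
      ind_nonneg (y 0 + y 5 = 0 ∧ y 1 + y 4 = 0 ∧ y 2 + y 3 = 0)]
  by_cases s8 : y 0 + y 3 + y 5 = 0
  · have c01 := L1 y h0 hs ht hb 0 3 5 1 2 4 (by decide) (by linarith only [s8])
    have c02 := L1 y h0 hs ht hb 0 3 5 2 1 4 (by decide) (by linarith only [s8])
    have c04 := L1 y h0 hs ht hb 0 3 5 4 1 2 (by decide) (by linarith only [s8])
    have c31 := L1 y h0 hs ht hb 3 0 5 1 2 4 (by decide) (by linarith only [s8])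
    have c32 := L1 y h0 hs ht hb 3 0 5 2 1 4 (by decide) (by linarith only [s8])
    have c34 := L1 y h0 hs ht hb 3 0 5 4 1 2 (by decide) (by linarith only [s8])
    have c51 := L1 y h0 hs ht hb 5 0 3 1 2 4 (by decide) (by linarith only [s8])
    have c52 := L1 y h0 hs ht hb 5 0 3 2 1 4 (by decide) (by linarith only [s8])
    have c54 := L1 y h0 hs ht hb 5 0 3 4 1 2 (by decide) (by linarith only [s8])
    rw [ind_false (show ¬ y 0 + y 1 = 0 from
        fun h => c01.2 (by linarith only [ht', s8, h])),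
      ind_false (show ¬ y 0 + y 2 = 0 from
        fun h => c02.2 (by linarith only [ht', s8, h])),
      ind_false (show ¬ y 0 + y 3 = 0 from
        fun h => n5 (by linarith only [ht', s8, h])),
      ind_false (show ¬ y 0 + y 4 = 0 from
        fun h => c04.2 (by linarith only [ht', s8, h])),
      ind_false (show ¬ y 0 + y 5 = 0 from
        fun h => n3 (by linarith only [ht', s8, h])),
      ind_false (show ¬ y 1 + y 2 = 0 from
        fun h => n4 (by linarith only [ht', s8, h])),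
      ind_false (show ¬ y 1 + y 3 = 0 from
        fun h => c31.2 (by linarith only [ht', s8, h])),
      ind_false (show ¬ y 1 + y 4 = 0 from
        fun h => n2 (by linarith only [ht', s8, h])),
      ind_false (show ¬ y 1 + y 5 = 0 from
        fun h => c51.2 (by linarith only [ht', s8, h])),
      ind_false (show ¬ y 2 + y 3 = 0 from
        fun h => c32.2 (by linarith only [ht', s8, h])),
      ind_false (show ¬ y 2 + y 4 = 0 from
        fun h => n1 (by linarith only [ht', s8, h])),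
      ind_false (show ¬ y 2 + y 5 = 0 from
        fun h => c52.2 (by linarith only [ht', s8, h])),
      ind_false (show ¬ y 3 + y 4 = 0 from
        fun h => c34.2 (by linarith only [ht', s8, h])),
      ind_false (show ¬ y 3 + y 5 = 0 from
        fun h => n0 (by linarith only [ht', s8, h])),
      ind_false (show ¬ y 4 + y 5 = 0 from
        fun h => c54.2 (by linarith only [ht', s8, h])),
      ind_false (show ¬ y 0 + y 1 + y 2 = 0 from
        fun h => c04.1 (by linarith only [ht', s8, h])),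
      ind_false (show ¬ y 0 + y 1 + y 3 = 0 from
        fun h => c51.1 (by linarith only [ht', s8, h])),
      ind_false (show ¬ y 0 + y 1 + y 4 = 0 from
        fun h => c02.1 (by linarith only [ht', s8, h])),
      ind_false (show ¬ y 0 + y 1 + y 5 = 0 from
        fun h => c31.1 (by linarith only [ht', s8, h])),
      ind_false (show ¬ y 0 + y 2 + y 3 = 0 from
        fun h => c52.1 (by linarith only [ht', s8, h])),
      ind_false (show ¬ y 0 + y 2 + y 4 = 0 from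
        fun h => c01.1 (by linarith only [ht', s8, h])),
      ind_false (show ¬ y 0 + y 2 + y 5 = 0 from
        fun h => c32.1 (by linarith only [ht', s8, h])),
      ind_false (show ¬ y 0 + y 3 + y 4 = 0 from
        fun h => c54.1 (by linarith only [ht', s8, h])),
      ind_false (show ¬ y 0 + y 4 + y 5 = 0 from
        fun h => c34.1 (by linarith only [ht', s8, h])),
      ind_true' s8]
    linarith [ind_nonneg (y 0 + y 1 = 0 ∧ y 2 + y 3 = 0 ∧ y 4 + y 5 = 0),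
      ind_nonneg (y 0 + y 1 = 0 ∧ y 2 + y 4 = 0 ∧ y 3 + y 5 = 0),
      ind_nonneg (y 0 + y 1 = 0 ∧ y 2 + y 5 = 0 ∧ y 3 + y 4 = 0),
      ind_nonneg (y 0 + y 2 = 0 ∧ y 1 + y 3 = 0 ∧ y 4 + y 5 = 0),
      ind_nonneg (y 0 + y 2 = 0 ∧ y 1 + y 4 = 0 ∧ y 3 + y 5 = 0),
      ind_nonneg (y 0 + y 2 = 0 ∧ y 1 + y 5 = 0 ∧ y 3 + y 4 = 0),
      ind_nonneg (y 0 + y 3 = 0 ∧ y 1 + y 2 = 0 ∧ y 4 + y 5 = 0),
      ind_nonneg (y 0 + y 3 = 0 ∧ y 1 + y 4 = 0 ∧ y 2 + y 5 = 0),
      ind_nonneg (y 0 + y 3 = 0 ∧ y 1 + y 5 = 0 ∧ y 2 + y 4 = 0),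
      ind_nonneg (y 0 + y 4 = 0 ∧ y 1 + y 2 = 0 ∧ y 3 + y 5 = 0),
      ind_nonneg (y 0 + y 4 = 0 ∧ y 1 + y 3 = 0 ∧ y 2 + y 5 = 0),
      ind_nonneg (y 0 + y 4 = 0 ∧ y 1 + y 5 = 0 ∧ y 2 + y 3 = 0),
      ind_nonneg (y 0 + y 5 = 0 ∧ y 1 + y 2 = 0 ∧ y 3 + y 4 = 0),
      ind_nonneg (y 0 + y 5 = 0 ∧ y 1 + y 3 = 0 ∧ y 2 + y 4 = 0),
      ind_nonneg (y 0 + y 5 = 0 ∧ y 1 + y 4 = 0 ∧ y 2 + y 3 = 0)]
  by_cases s9 : y 0 + y 4 + y 5 = 0
  · have c01 := L1 y h0 hs ht hb 0 4 5 1 2 3 (by decide) (by linarith only [s9])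
    have c02 := L1 y h0 hs ht hb 0 4 5 2 1 3 (by decide) (by linarith only [s9])
    have c03 := L1 y h0 hs ht hb 0 4 5 3 1 2 (by decide) (by linarith only [s9])
    have c41 := L1 y h0 hs ht hb 4 0 5 1 2 3 (by decide) (by linarith only [s9])
    have c42 := L1 y h0 hs ht hb 4 0 5 2 1 3 (by decide) (by linarith only [s9])
    have c43 := L1 y h0 hs ht hb 4 0 5 3 1 2 (by decide) (by linarith only [s9])
    have c51 := L1 y h0 hs ht hb 5 0 4 1 2 3 (by decide) (by linarith only [s9])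
    have c52 := L1 y h0 hs ht hb 5 0 4 2 1 3 (by decide) (by linarith only [s9])
    have c53 := L1 y h0 hs ht hb 5 0 4 3 1 2 (by decide) (by linarith only [s9])
    rw [ind_false (show ¬ y 0 + y 1 = 0 from
        fun h => c01.2 (by linarith only [ht', s9, h])),
      ind_false (show ¬ y 0 + y 2 = 0 from
        fun h => c02.2 (by linarith only [ht', s9, h])),
      ind_false (show ¬ y 0 + y 3 = 0 from
        fun h => c03.2 (by linarith only [ht', s9, h])),
      ind_false (show ¬ y 0 + y 4 = 0 from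
        fun h => n5 (by linarith only [ht', s9, h])),
      ind_false (show ¬ y 0 + y 5 = 0 from
        fun h => n4 (by linarith only [ht', s9, h])),
      ind_false (show ¬ y 1 + y 2 = 0 from
        fun h => n3 (by linarith only [ht', s9, h])),
      ind_false (show ¬ y 1 + y 3 = 0 from
        fun h => n2 (by linarith only [ht', s9, h])),
      ind_false (show ¬ y 1 + y 4 = 0 from
        fun h => c41.2 (by linarith only [ht', s9, h])),
      ind_false (show ¬ y 1 + y 5 = 0 from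
        fun h => c51.2 (by linarith only [ht', s9, h])),
      ind_false (show ¬ y 2 + y 3 = 0 from
        fun h => n1 (by linarith only [ht', s9, h])),
      ind_false (show ¬ y 2 + y 4 = 0 from
        fun h => c42.2 (by linarith only [ht', s9, h])),
      ind_false (show ¬ y 2 + y 5 = 0 from
        fun h => c52.2 (by linarith only [ht', s9, h])),
      ind_false (show ¬ y 3 + y 4 = 0 from
        fun h => c43.2 (by linarith only [ht', s9, h])),
      ind_false (show ¬ y 3 + y 5 = 0 from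
        fun h => c53.2 (by linarith only [ht', s9, h])),
      ind_false (show ¬ y 4 + y 5 = 0 from
        fun h => n0 (by linarith only [ht', s9, h])),
      ind_false (show ¬ y 0 + y 1 + y 2 = 0 from
        fun h => c03.1 (by linarith only [ht', s9, h])),
      ind_false (show ¬ y 0 + y 1 + y 3 = 0 from
        fun h => c02.1 (by linarith only [ht', s9, h])),
      ind_false (show ¬ y 0 + y 1 + y 4 = 0 from
        fun h => c51.1 (by linarith only [ht', s9, h])),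
      ind_false (show ¬ y 0 + y 1 + y 5 = 0 from
        fun h => c41.1 (by linarith only [ht', s9, h])),
      ind_false (show ¬ y 0 + y 2 + y 3 = 0 from
        fun h => c01.1 (by linarith only [ht', s9, h])),
      ind_false (show ¬ y 0 + y 2 + y 4 = 0 from
        fun h => c52.1 (by linarith only [ht', s9, h])),
      ind_false (show ¬ y 0 + y 2 + y 5 = 0 from
        fun h => c42.1 (by linarith only [ht', s9, h])),
      ind_false (show ¬ y 0 + y 3 + y 4 = 0 from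
        fun h => c53.1 (by linarith only [ht', s9, h])),
      ind_false (show ¬ y 0 + y 3 + y 5 = 0 from
        fun h => c43.1 (by linarith only [ht', s9, h])),
      ind_true' s9]
    linarith [ind_nonneg (y 0 + y 1 = 0 ∧ y 2 + y 3 = 0 ∧ y 4 + y 5 = 0),
      ind_nonneg (y 0 + y 1 = 0 ∧ y 2 + y 4 = 0 ∧ y 3 + y 5 = 0),
      ind_nonneg (y 0 + y 1 = 0 ∧ y 2 + y 5 = 0 ∧ y 3 + y 4 = 0),
      ind_nonneg (y 0 + y 2 = 0 ∧ y 1 + y 3 = 0 ∧ y 4 + y 5 = 0),
      ind_nonneg (y 0 + y 2 = 0 ∧ y 1 + y 4 = 0 ∧ y 3 + y 5 = 0),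
      ind_nonneg (y 0 + y 2 = 0 ∧ y 1 + y 5 = 0 ∧ y 3 + y 4 = 0),
      ind_nonneg (y 0 + y 3 = 0 ∧ y 1 + y 2 = 0 ∧ y 4 + y 5 = 0),
      ind_nonneg (y 0 + y 3 = 0 ∧ y 1 + y 4 = 0 ∧ y 2 + y 5 = 0),
      ind_nonneg (y 0 + y 3 = 0 ∧ y 1 + y 5 = 0 ∧ y 2 + y 4 = 0),
      ind_nonneg (y 0 + y 4 = 0 ∧ y 1 + y 2 = 0 ∧ y 3 + y 5 = 0),
      ind_nonneg (y 0 + y 4 = 0 ∧ y 1 + y 3 = 0 ∧ y 2 + y 5 = 0),
      ind_nonneg (y 0 + y 4 = 0 ∧ y 1 + y 5 = 0 ∧ y 2 + y 3 = 0),
      ind_nonneg (y 0 + y 5 = 0 ∧ y 1 + y 2 = 0 ∧ y 3 + y 4 = 0),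
      ind_nonneg (y 0 + y 5 = 0 ∧ y 1 + y 3 = 0 ∧ y 2 + y 4 = 0),
      ind_nonneg (y 0 + y 5 = 0 ∧ y 1 + y 4 = 0 ∧ y 2 + y 3 = 0)]
  rw [ind_false s0, ind_false s1, ind_false s2, ind_false s3, ind_false s4, ind_false s5,
    ind_false s6, ind_false s7, ind_false s8, ind_false s9]
  have hc := comb (decide (y 0 + y 1 = 0)) (decide (y 2 + y 3 = 0)) (decide (y 4 + y 5 = 0))
    (hm _ _ _ (fun a b => by linarith only [ht', a, b])
      (fun a b => by linarith only [ht', a, b]) (fun a b => by linarith only [ht', a, b]))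
    (decide (y 2 + y 4 = 0)) (decide (y 3 + y 5 = 0))
    (hm _ _ _ (fun a b => by linarith only [ht', a, b])
      (fun a b => by linarith only [ht', a, b]) (fun a b => by linarith only [ht', a, b]))
    (decide (y 2 + y 5 = 0)) (decide (y 3 + y 4 = 0))
    (hm _ _ _ (fun a b => by linarith only [ht', a, b])
      (fun a b => by linarith only [ht', a, b]) (fun a b => by linarith only [ht', a, b]))
    (decide (y 0 + y 2 = 0)) (decide (y 1 + y 3 = 0))
    (hm _ _ _ (fun a b => by linarith only [ht', a, b])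
      (fun a b => by linarith only [ht', a, b]) (fun a b => by linarith only [ht', a, b]))
    (decide (y 1 + y 4 = 0))
    (hm _ _ _ (fun a b => by linarith only [ht', a, b])
      (fun a b => by linarith only [ht', a, b]) (fun a b => by linarith only [ht', a, b]))
    (decide (y 1 + y 5 = 0))
    (hm _ _ _ (fun a b => by linarith only [ht', a, b])
      (fun a b => by linarith only [ht', a, b]) (fun a b => by linarith only [ht', a, b]))
    (decide (y 0 + y 3 = 0))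
    (hm _ _ _ (fun a b => by linarith only [ht', a, b])
      (fun a b => by linarith only [ht', a, b]) (fun a b => by linarith only [ht', a, b]))
    (hm _ _ _ (fun a b => by linarith only [ht', a, b])
      (fun a b => by linarith only [ht', a, b]) (fun a b => by linarith only [ht', a, b]))
    (decide (y 1 + y 2 = 0))
    (hm _ _ _ (fun a b => by linarith only [ht', a, b])
      (fun a b => by linarith only [ht', a, b]) (fun a b => by linarith only [ht', a, b]))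
    (decide (y 0 + y 4 = 0))
    (hm _ _ _ (fun a b => by linarith only [ht', a, b])
      (fun a b => by linarith only [ht', a, b]) (fun a b => by linarith only [ht', a, b]))
    (hm _ _ _ (fun a b => by linarith only [ht', a, b])
      (fun a b => by linarith only [ht', a, b]) (fun a b => by linarith only [ht', a, b]))
    (hm _ _ _ (fun a b => by linarith only [ht', a, b])
      (fun a b => by linarith only [ht', a, b]) (fun a b => by linarith only [ht', a, b]))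
    (decide (y 0 + y 5 = 0))
    (hm _ _ _ (fun a b => by linarith only [ht', a, b])
      (fun a b => by linarith only [ht', a, b]) (fun a b => by linarith only [ht', a, b]))
    (hm _ _ _ (fun a b => by linarith only [ht', a, b])
      (fun a b => by linarith only [ht', a, b]) (fun a b => by linarith only [ht', a, b]))
    (hm _ _ _ (fun a b => by linarith only [ht', a, b])
      (fun a b => by linarith only [ht', a, b]) (fun a b => by linarith only [ht', a, b]))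
    ?_
  · have h' := (Nat.cast_le (α := ℝ)).2 hc
    push_cast at h'
    simp only [ind_eq, Bool.decide_and]
    linarith
  simp only [chk, Bool.and_eq_true, Bool.or_eq_true, Bool.not_eq_true', decide_eq_false_iff_not,
    decide_eq_true_eq, and_assoc, or_assoc]
  refine ⟨?_, ?_, ?_, ?_, ?_, ?_, ?_, ?_, ?_, ?_, ?_, ?_, ?_, ?_, ?_, ?_, ?_, ?_, ?_, ?_, ?_, ?_, ?_,
    ?_, ?_, ?_, ?_, ?_, ?_, ?_, ?_, ?_, ?_, ?_, ?_, ?_, ?_, ?_, ?_, ?_, ?_, ?_, ?_, ?_, ?_, ?_,
    ?_, ?_, ?_, ?_, ?_, ?_, ?_, ?_, ?_, ?_, ?_, ?_, ?_, ?_⟩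
  · have := L2 y h0 hs ht hb 2 3 4 5 0 1 (by decide)
    exact this
  · have := L2 y h0 hs ht hb 3 2 4 5 0 1 (by decide)
    rw [add_comm (y 3) (y 2)] at this
    exact this
  · have := L2 y h0 hs ht hb 4 2 3 5 0 1 (by decide)
    rw [add_comm (y 4) (y 2), add_comm (y 4) (y 3)] at this
    exact this
  · have := L2 y h0 hs ht hb 5 2 3 4 0 1 (by decide)
    rw [add_comm (y 5) (y 2), add_comm (y 5) (y 3), add_comm (y 5) (y 4)] at this
    exact this
  · have := L2 y h0 hs ht hb 3 1 4 5 0 2 (by decide)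
    rw [add_comm (y 3) (y 1)] at this
    exact this
  · have := L2 y h0 hs ht hb 4 1 3 5 0 2 (by decide)
    rw [add_comm (y 4) (y 1), add_comm (y 4) (y 3)] at this
    exact this
  · have := L2 y h0 hs ht hb 5 1 3 4 0 2 (by decide)
    rw [add_comm (y 5) (y 1), add_comm (y 5) (y 3), add_comm (y 5) (y 4)] at this
    exact this
  · have := L2 y h0 hs ht hb 4 1 2 5 0 3 (by decide)
    rw [add_comm (y 4) (y 1), add_comm (y 4) (y 2)] at this
    exact this
  · have := L2 y h0 hs ht hb 5 1 2 4 0 3 (by decide)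
    rw [add_comm (y 5) (y 1), add_comm (y 5) (y 2), add_comm (y 5) (y 4)] at this
    exact this
  · have := L2 y h0 hs ht hb 5 1 2 3 0 4 (by decide)
    rw [add_comm (y 5) (y 1), add_comm (y 5) (y 2), add_comm (y 5) (y 3)] at this
    exact this
  · have := L2 y h0 hs ht hb 2 3 4 5 1 0 (by decide)
    rw [add_comm (y 1) (y 0)] at this
    exact this
  · have := L2 y h0 hs ht hb 3 2 4 5 1 0 (by decide)
    rw [add_comm (y 1) (y 0), add_comm (y 3) (y 2)] at this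
    exact this
  · have := L2 y h0 hs ht hb 4 2 3 5 1 0 (by decide)
    rw [add_comm (y 1) (y 0), add_comm (y 4) (y 2), add_comm (y 4) (y 3)] at this
    exact this
  · have := L2 y h0 hs ht hb 5 2 3 4 1 0 (by decide)
    rw [add_comm (y 1) (y 0), add_comm (y 5) (y 2), add_comm (y 5) (y 3), add_comm (y 5) (y 4)] at this
    exact this
  · have := L2 y h0 hs ht hb 3 0 4 5 1 2 (by decide)
    rw [add_comm (y 3) (y 0)] at this
    exact this
  · have := L2 y h0 hs ht hb 4 0 3 5 1 2 (by decide)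
    rw [add_comm (y 4) (y 0), add_comm (y 4) (y 3)] at this
    exact this
  · have := L2 y h0 hs ht hb 5 0 3 4 1 2 (by decide)
    rw [add_comm (y 5) (y 0), add_comm (y 5) (y 3), add_comm (y 5) (y 4)] at this
    exact this
  · have := L2 y h0 hs ht hb 4 0 2 5 1 3 (by decide)
    rw [add_comm (y 4) (y 0), add_comm (y 4) (y 2)] at this
    exact this
  · have := L2 y h0 hs ht hb 5 0 2 4 1 3 (by decide)
    rw [add_comm (y 5) (y 0), add_comm (y 5) (y 2), add_comm (y 5) (y 4)] at this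
    exact this
  · have := L2 y h0 hs ht hb 5 0 2 3 1 4 (by decide)
    rw [add_comm (y 5) (y 0), add_comm (y 5) (y 2), add_comm (y 5) (y 3)] at this
    exact this
  · have := L2 y h0 hs ht hb 1 3 4 5 2 0 (by decide)
    rw [add_comm (y 2) (y 0), add_comm (y 2) (y 1)] at this
    exact this
  · have := L2 y h0 hs ht hb 3 1 4 5 2 0 (by decide)
    rw [add_comm (y 2) (y 0), add_comm (y 3) (y 1)] at this
    exact this
  · have := L2 y h0 hs ht hb 4 1 3 5 2 0 (by decide)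
    rw [add_comm (y 2) (y 0), add_comm (y 4) (y 1), add_comm (y 4) (y 3)] at this
    exact this
  · have := L2 y h0 hs ht hb 5 1 3 4 2 0 (by decide)
    rw [add_comm (y 2) (y 0), add_comm (y 5) (y 1), add_comm (y 5) (y 3), add_comm (y 5) (y 4)] at this
    exact this
  · have := L2 y h0 hs ht hb 3 0 4 5 2 1 (by decide)
    rw [add_comm (y 2) (y 1), add_comm (y 3) (y 0)] at this
    exact this
  · have := L2 y h0 hs ht hb 4 0 3 5 2 1 (by decide)
    rw [add_comm (y 2) (y 1), add_comm (y 4) (y 0), add_comm (y 4) (y 3)] at this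
    exact this
  · have := L2 y h0 hs ht hb 5 0 3 4 2 1 (by decide)
    rw [add_comm (y 2) (y 1), add_comm (y 5) (y 0), add_comm (y 5) (y 3), add_comm (y 5) (y 4)] at this
    exact this
  · have := L2 y h0 hs ht hb 4 0 1 5 2 3 (by decide)
    rw [add_comm (y 4) (y 0), add_comm (y 4) (y 1)] at this
    exact this
  · have := L2 y h0 hs ht hb 5 0 1 4 2 3 (by decide)
    rw [add_comm (y 5) (y 0), add_comm (y 5) (y 1), add_comm (y 5) (y 4)] at this
    exact this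
  · have := L2 y h0 hs ht hb 5 0 1 3 2 4 (by decide)
    rw [add_comm (y 5) (y 0), add_comm (y 5) (y 1), add_comm (y 5) (y 3)] at this
    exact this
  · have := L2 y h0 hs ht hb 1 2 4 5 3 0 (by decide)
    rw [add_comm (y 3) (y 0), add_comm (y 3) (y 1)] at this
    exact this
  · have := L2 y h0 hs ht hb 2 1 4 5 3 0 (by decide)
    rw [add_comm (y 3) (y 0), add_comm (y 3) (y 2), add_comm (y 2) (y 1)] at this
    exact this
  · have := L2 y h0 hs ht hb 4 1 2 5 3 0 (by decide)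
    rw [add_comm (y 3) (y 0), add_comm (y 4) (y 1), add_comm (y 4) (y 2)] at this
    exact this
  · have := L2 y h0 hs ht hb 5 1 2 4 3 0 (by decide)
    rw [add_comm (y 3) (y 0), add_comm (y 5) (y 1), add_comm (y 5) (y 2), add_comm (y 5) (y 4)] at this
    exact this
  · have := L2 y h0 hs ht hb 2 0 4 5 3 1 (by decide)
    rw [add_comm (y 3) (y 1), add_comm (y 3) (y 2), add_comm (y 2) (y 0)] at this
    exact this
  · have := L2 y h0 hs ht hb 4 0 2 5 3 1 (by decide)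
    rw [add_comm (y 3) (y 1), add_comm (y 4) (y 0), add_comm (y 4) (y 2)] at this
    exact this
  · have := L2 y h0 hs ht hb 5 0 2 4 3 1 (by decide)
    rw [add_comm (y 3) (y 1), add_comm (y 5) (y 0), add_comm (y 5) (y 2), add_comm (y 5) (y 4)] at this
    exact this
  · have := L2 y h0 hs ht hb 4 0 1 5 3 2 (by decide)
    rw [add_comm (y 3) (y 2), add_comm (y 4) (y 0), add_comm (y 4) (y 1)] at this
    exact this
  · have := L2 y h0 hs ht hb 5 0 1 4 3 2 (by decide)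
    rw [add_comm (y 3) (y 2), add_comm (y 5) (y 0), add_comm (y 5) (y 1), add_comm (y 5) (y 4)] at this
    exact this
  · have := L2 y h0 hs ht hb 5 0 1 2 3 4 (by decide)
    rw [add_comm (y 5) (y 0), add_comm (y 5) (y 1), add_comm (y 5) (y 2)] at this
    exact this
  · have := L2 y h0 hs ht hb 1 2 3 5 4 0 (by decide)
    rw [add_comm (y 4) (y 0), add_comm (y 4) (y 1)] at this
    exact this
  · have := L2 y h0 hs ht hb 2 1 3 5 4 0 (by decide)
    rw [add_comm (y 4) (y 0), add_comm (y 4) (y 2), add_comm (y 2) (y 1)] at this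
    exact this
  · have := L2 y h0 hs ht hb 3 1 2 5 4 0 (by decide)
    rw [add_comm (y 4) (y 0), add_comm (y 4) (y 3), add_comm (y 3) (y 1), add_comm (y 3) (y 2)] at this
    exact this
  · have := L2 y h0 hs ht hb 5 1 2 3 4 0 (by decide)
    rw [add_comm (y 4) (y 0), add_comm (y 5) (y 1), add_comm (y 5) (y 2), add_comm (y 5) (y 3)] at this
    exact this
  · have := L2 y h0 hs ht hb 2 0 3 5 4 1 (by decide)
    rw [add_comm (y 4) (y 1), add_comm (y 4) (y 2), add_comm (y 2) (y 0)] at this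
    exact this
  · have := L2 y h0 hs ht hb 3 0 2 5 4 1 (by decide)
    rw [add_comm (y 4) (y 1), add_comm (y 4) (y 3), add_comm (y 3) (y 0), add_comm (y 3) (y 2)] at this
    exact this
  · have := L2 y h0 hs ht hb 5 0 2 3 4 1 (by decide)
    rw [add_comm (y 4) (y 1), add_comm (y 5) (y 0), add_comm (y 5) (y 2), add_comm (y 5) (y 3)] at this
    exact this
  · have := L2 y h0 hs ht hb 3 0 1 5 4 2 (by decide)
    rw [add_comm (y 4) (y 2), add_comm (y 4) (y 3), add_comm (y 3) (y 0), add_comm (y 3) (y 1)] at this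
    exact this
  · have := L2 y h0 hs ht hb 5 0 1 3 4 2 (by decide)
    rw [add_comm (y 4) (y 2), add_comm (y 5) (y 0), add_comm (y 5) (y 1), add_comm (y 5) (y 3)] at this
    exact this
  · have := L2 y h0 hs ht hb 5 0 1 2 4 3 (by decide)
    rw [add_comm (y 4) (y 3), add_comm (y 5) (y 0), add_comm (y 5) (y 1), add_comm (y 5) (y 2)] at this
    exact this
  · have := L2 y h0 hs ht hb 1 2 3 4 5 0 (by decide)
    rw [add_comm (y 5) (y 0), add_comm (y 5) (y 1)] at this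
    exact this
  · have := L2 y h0 hs ht hb 2 1 3 4 5 0 (by decide)
    rw [add_comm (y 5) (y 0), add_comm (y 5) (y 2), add_comm (y 2) (y 1)] at this
    exact this
  · have := L2 y h0 hs ht hb 3 1 2 4 5 0 (by decide)
    rw [add_comm (y 5) (y 0), add_comm (y 5) (y 3), add_comm (y 3) (y 1), add_comm (y 3) (y 2)] at this
    exact this
  · have := L2 y h0 hs ht hb 4 1 2 3 5 0 (by decide)
    rw [add_comm (y 5) (y 0), add_comm (y 5) (y 4), add_comm (y 4) (y 1), add_comm (y 4) (y 2), add_comm (y 4) (y 3)] at this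
    exact this
  · have := L2 y h0 hs ht hb 2 0 3 4 5 1 (by decide)
    rw [add_comm (y 5) (y 1), add_comm (y 5) (y 2), add_comm (y 2) (y 0)] at this
    exact this
  · have := L2 y h0 hs ht hb 3 0 2 4 5 1 (by decide)
    rw [add_comm (y 5) (y 1), add_comm (y 5) (y 3), add_comm (y 3) (y 0), add_comm (y 3) (y 2)] at this
    exact this
  · have := L2 y h0 hs ht hb 4 0 2 3 5 1 (by decide)
    rw [add_comm (y 5) (y 1), add_comm (y 5) (y 4), add_comm (y 4) (y 0), add_comm (y 4) (y 2), add_comm (y 4) (y 3)] at this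
    exact this
  · have := L2 y h0 hs ht hb 3 0 1 4 5 2 (by decide)
    rw [add_comm (y 5) (y 2), add_comm (y 5) (y 3), add_comm (y 3) (y 0), add_comm (y 3) (y 1)] at this
    exact this
  · have := L2 y h0 hs ht hb 4 0 1 3 5 2 (by decide)
    rw [add_comm (y 5) (y 2), add_comm (y 5) (y 4), add_comm (y 4) (y 0), add_comm (y 4) (y 1), add_comm (y 4) (y 3)] at this
    exact this
  · have := L2 y h0 hs ht hb 4 0 1 2 5 3 (by decide)
    rw [add_comm (y 5) (y 3), add_comm (y 5) (y 4), add_comm (y 4) (y 0), add_comm (y 4) (y 1), add_comm (y 4) (y 2)] at this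
    exact this

theorem lowb (y : Fin 6 → ℤ) : -25 ≤ KK y := by
  unfold KK
  linarith [ind_nonneg (∑ p, y p = 0), ind_le (∑ p, y p = 0 ∧ y 0 + y 1 = 0), ind_le (∑ p, y p = 0 ∧ y 0 + y 2 = 0),
    ind_le (∑ p, y p = 0 ∧ y 0 + y 3 = 0), ind_le (∑ p, y p = 0 ∧ y 0 + y 4 = 0),
    ind_le (∑ p, y p = 0 ∧ y 0 + y 5 = 0), ind_le (∑ p, y p = 0 ∧ y 1 + y 2 = 0),
    ind_le (∑ p, y p = 0 ∧ y 1 + y 3 = 0), ind_le (∑ p, y p = 0 ∧ y 1 + y 4 = 0),
    ind_le (∑ p, y p = 0 ∧ y 1 + y 5 = 0), ind_le (∑ p, y p = 0 ∧ y 2 + y 3 = 0),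
    ind_le (∑ p, y p = 0 ∧ y 2 + y 4 = 0), ind_le (∑ p, y p = 0 ∧ y 2 + y 5 = 0),
    ind_le (∑ p, y p = 0 ∧ y 3 + y 4 = 0), ind_le (∑ p, y p = 0 ∧ y 3 + y 5 = 0),
    ind_le (∑ p, y p = 0 ∧ y 4 + y 5 = 0),
    ind_le (∑ p, y p = 0 ∧ y 0 + y 1 + y 2 = 0), ind_le (∑ p, y p = 0 ∧ y 0 + y 1 + y 3 = 0),
    ind_le (∑ p, y p = 0 ∧ y 0 + y 1 + y 4 = 0), ind_le (∑ p, y p = 0 ∧ y 0 + y 1 + y 5 = 0),
    ind_le (∑ p, y p = 0 ∧ y 0 + y 2 + y 3 = 0), ind_le (∑ p, y p = 0 ∧ y 0 + y 2 + y 4 = 0),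
    ind_le (∑ p, y p = 0 ∧ y 0 + y 2 + y 5 = 0), ind_le (∑ p, y p = 0 ∧ y 0 + y 3 + y 4 = 0),
    ind_le (∑ p, y p = 0 ∧ y 0 + y 3 + y 5 = 0), ind_le (∑ p, y p = 0 ∧ y 0 + y 4 + y 5 = 0),
    ind_nonneg (∑ p, y p = 0 ∧ y 0 + y 1 = 0 ∧ y 2 + y 3 = 0 ∧ y 4 + y 5 = 0),
    ind_nonneg (∑ p, y p = 0 ∧ y 0 + y 1 = 0 ∧ y 2 + y 4 = 0 ∧ y 3 + y 5 = 0),
    ind_nonneg (∑ p, y p = 0 ∧ y 0 + y 1 = 0 ∧ y 2 + y 5 = 0 ∧ y 3 + y 4 = 0),
    ind_nonneg (∑ p, y p = 0 ∧ y 0 + y 2 = 0 ∧ y 1 + y 3 = 0 ∧ y 4 + y 5 = 0),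
    ind_nonneg (∑ p, y p = 0 ∧ y 0 + y 2 = 0 ∧ y 1 + y 4 = 0 ∧ y 3 + y 5 = 0),
    ind_nonneg (∑ p, y p = 0 ∧ y 0 + y 2 = 0 ∧ y 1 + y 5 = 0 ∧ y 3 + y 4 = 0),
    ind_nonneg (∑ p, y p = 0 ∧ y 0 + y 3 = 0 ∧ y 1 + y 2 = 0 ∧ y 4 + y 5 = 0),
    ind_nonneg (∑ p, y p = 0 ∧ y 0 + y 3 = 0 ∧ y 1 + y 4 = 0 ∧ y 2 + y 5 = 0),
    ind_nonneg (∑ p, y p = 0 ∧ y 0 + y 3 = 0 ∧ y 1 + y 5 = 0 ∧ y 2 + y 4 = 0),
    ind_nonneg (∑ p, y p = 0 ∧ y 0 + y 4 = 0 ∧ y 1 + y 2 = 0 ∧ y 3 + y 5 = 0),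
    ind_nonneg (∑ p, y p = 0 ∧ y 0 + y 4 = 0 ∧ y 1 + y 3 = 0 ∧ y 2 + y 5 = 0),
    ind_nonneg (∑ p, y p = 0 ∧ y 0 + y 4 = 0 ∧ y 1 + y 5 = 0 ∧ y 2 + y 3 = 0),
    ind_nonneg (∑ p, y p = 0 ∧ y 0 + y 5 = 0 ∧ y 1 + y 2 = 0 ∧ y 3 + y 4 = 0),
    ind_nonneg (∑ p, y p = 0 ∧ y 0 + y 5 = 0 ∧ y 1 + y 3 = 0 ∧ y 2 + y 4 = 0),
    ind_nonneg (∑ p, y p = 0 ∧ y 0 + y 5 = 0 ∧ y 1 + y 4 = 0 ∧ y 2 + y 3 = 0)]

theorem pt (y : Fin 6 → ℤ) (h0 : ∀ i, y i ≠ 0) (hs : Sep y) :
    ind (Good y) - 26 * ind (¬ NB y) ≤ KK y := by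
  by_cases hb : NB y
  · rw [ind_false (not_not.2 hb)]
    by_cases hg : Good y
    · rw [ind_true' hg]
      obtain ⟨ht, h1, h2⟩ := hg
      unfold KK
      simp only [h1, h2, eq_true ht, and_false, false_and, ind_false not_false, ind_true]
      norm_num
    · rw [ind_false hg]
      by_cases ht : ∑ p, y p = 0
      · simpa using nonneg y h0 hs ht hb
      · unfold KK
        simp only [ht, false_and, ind_false not_false]
        norm_num
  · rw [ind_true' hb]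
    linarith [lowb y, ind_le (Good y)]

section counting
variable {I : Type} [Fintype I] [DecidableEq I]

/-- number of zero-sum `k`-tuples -/
noncomputable def Z (x : I → ℤ) (k : ℕ) : ℝ := ∑ t : Fin k → I, ind (∑ p, x (t p) = 0)

theorem sumS (n : ℕ) (F : (Fin (n + 1) → I) → ℝ) :
    ∑ t, F t = ∑ a, ∑ s : Fin n → I, F (Fin.cons a s) := by
  rw [← (Fin.consEquiv (fun _ : Fin (n + 1) => I)).sum_comp, Fintype.sum_prod_type]
  rfl

theorem sum2 (F : I → I → ℝ) : ∑ t : Fin 2 → I, F (t 0) (t 1) = ∑ a, ∑ b, F a b := by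
  simp only [sumS, Finset.univ_unique, Finset.sum_singleton]; rfl

theorem sum3 (F : I → I → I → ℝ) :
    ∑ t : Fin 3 → I, F (t 0) (t 1) (t 2) = ∑ a, ∑ b, ∑ c, F a b c := by
  simp only [sumS, Finset.univ_unique, Finset.sum_singleton]; rfl

theorem sum4 (F : I → I → I → I → ℝ) :
    ∑ t : Fin 4 → I, F (t 0) (t 1) (t 2) (t 3) = ∑ a, ∑ b, ∑ c, ∑ d, F a b c d := by
  simp only [sumS, Finset.univ_unique, Finset.sum_singleton]; rfl

theorem sum6 (F : I → I → I → I → I → I → ℝ) :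
    ∑ t : Fin 6 → I, F (t 0) (t 1) (t 2) (t 3) (t 4) (t 5) =
      ∑ a, ∑ b, ∑ c, ∑ d, ∑ e, ∑ f, F a b c d e f := by
  simp only [sumS, Finset.univ_unique, Finset.sum_singleton]; rfl

theorem perm (f : Fin 6 → Fin 6) (hf : Function.Injective f) (F : (Fin 6 → I) → ℝ) :
    ∑ t : Fin 6 → I, F (fun p => t (f p)) = ∑ t, F t :=
  Equiv.sum_comp ((Equiv.ofBijective f (Finite.injective_iff_bijective.1 hf)).symm.arrowCongr
    (Equiv.refl I)) F

theorem Z2 (x : I → ℤ) : Z x 2 = ∑ a, ∑ b, ind (x a + x b = 0) := by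
  simp only [Z, Fin.sum_univ_two]; exact sum2 (fun a b => ind (x a + x b = 0))

theorem Z3 (x : I → ℤ) : Z x 3 = ∑ a, ∑ b, ∑ c, ind (x a + x b + x c = 0) := by
  simp only [Z, Fin.sum_univ_three]; exact sum3 (fun a b c => ind (x a + x b + x c = 0))

theorem Z4 (x : I → ℤ) : Z x 4 = ∑ a, ∑ b, ∑ c, ∑ d, ind (x a + x b + x c + x d = 0) := by
  simp only [Z, Fin.sum_univ_four]
  exact sum4 (fun a b c d => ind (x a + x b + x c + x d = 0))

theorem sumA (x : I → ℤ) (i j k l m n : Fin 6) (hf : Function.Injective ![i, j, k, l, m, n]) :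
    ∑ t : Fin 6 → I, ind (∑ p, x (t p) = 0 ∧ x (t i) + x (t j) = 0) = Z x 2 * Z x 4 := by
  have h := perm _ hf (fun t : Fin 6 → I => ind (x (t 0) + x (t 1) = 0) *
    ind (x (t 2) + x (t 3) + x (t 4) + x (t 5) = 0))
  rw [sum6 (fun a b c d e f => ind (x a + x b = 0) * ind (x c + x d + x e + x f = 0))] at h
  simp only [← Finset.mul_sum] at h
  simp only [← Finset.sum_mul] at h
  rw [Z2, Z4, ← h]
  refine Finset.sum_congr rfl fun t _ => ?_
  rw [← ind_and, ← tot_comp (fun p => x (t p)) _ hf, Fin.sum_univ_six]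
  congr 1
  apply propext
  show x (t i) + x (t j) + x (t k) + x (t l) + x (t m) + x (t n) = 0 ∧ _ ↔
    x (t i) + x (t j) = 0 ∧ x (t k) + x (t l) + x (t m) + x (t n) = 0
  omega

theorem sumB (x : I → ℤ) (i j k l m n : Fin 6) (hf : Function.Injective ![i, j, k, l, m, n]) :
    ∑ t : Fin 6 → I, ind (∑ p, x (t p) = 0 ∧ x (t i) + x (t j) + x (t k) = 0) =
      Z x 3 * Z x 3 := by
  have h := perm _ hf (fun t : Fin 6 → I => ind (x (t 0) + x (t 1) + x (t 2) = 0) *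
    ind (x (t 3) + x (t 4) + x (t 5) = 0))
  rw [sum6 (fun a b c d e f => ind (x a + x b + x c = 0) * ind (x d + x e + x f = 0))] at h
  simp only [← Finset.mul_sum] at h
  simp only [← Finset.sum_mul] at h
  rw [Z3, ← h]
  refine Finset.sum_congr rfl fun t _ => ?_
  rw [← ind_and, ← tot_comp (fun p => x (t p)) _ hf, Fin.sum_univ_six]
  congr 1
  apply propext
  show x (t i) + x (t j) + x (t k) + x (t l) + x (t m) + x (t n) = 0 ∧ _ ↔
    x (t i) + x (t j) + x (t k) = 0 ∧ x (t l) + x (t m) + x (t n) = 0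
  omega

theorem sumM (x : I → ℤ) (i j k l m n : Fin 6) (hf : Function.Injective ![i, j, k, l, m, n]) :
    ∑ t : Fin 6 → I, ind (∑ p, x (t p) = 0 ∧ x (t i) + x (t j) = 0 ∧ x (t k) + x (t l) = 0 ∧
      x (t m) + x (t n) = 0) = Z x 2 * Z x 2 * Z x 2 := by
  have h := perm _ hf (fun t : Fin 6 → I => ind (x (t 0) + x (t 1) = 0) *
    (ind (x (t 2) + x (t 3) = 0) * ind (x (t 4) + x (t 5) = 0)))
  rw [sum6 (fun a b c d e f => ind (x a + x b = 0) *
    (ind (x c + x d = 0) * ind (x e + x f = 0)))] at h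
  simp only [← Finset.mul_sum] at h
  simp only [← Finset.sum_mul] at h
  rw [Z2, mul_assoc, ← h]
  refine Finset.sum_congr rfl fun t _ => ?_
  rw [← ind_and, ← ind_and, ← tot_comp (fun p => x (t p)) _ hf, Fin.sum_univ_six]
  congr 1
  apply propext
  show x (t i) + x (t j) + x (t k) + x (t l) + x (t m) + x (t n) = 0 ∧ _ ↔
    x (t i) + x (t j) = 0 ∧ x (t k) + x (t l) = 0 ∧ x (t m) + x (t n) = 0
  omega

theorem sumK (x : I → ℤ) : ∑ t : Fin 6 → I, KK (fun p => x (t p)) =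
    Z x 6 - 15 * (Z x 2 * Z x 4) - 10 * (Z x 3 * Z x 3) + 30 * (Z x 2 * Z x 2 * Z x 2) := by
  simp only [KK, Finset.sum_add_distrib, Finset.sum_sub_distrib, ← Finset.mul_sum]
  rw [sumA x 0 1 2 3 4 5 (by decide), sumA x 0 2 1 3 4 5 (by decide),
    sumA x 0 3 1 2 4 5 (by decide), sumA x 0 4 1 2 3 5 (by decide),
    sumA x 0 5 1 2 3 4 (by decide), sumA x 1 2 0 3 4 5 (by decide),
    sumA x 1 3 0 2 4 5 (by decide), sumA x 1 4 0 2 3 5 (by decide),
    sumA x 1 5 0 2 3 4 (by decide), sumA x 2 3 0 1 4 5 (by decide),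
    sumA x 2 4 0 1 3 5 (by decide), sumA x 2 5 0 1 3 4 (by decide),
    sumA x 3 4 0 1 2 5 (by decide), sumA x 3 5 0 1 2 4 (by decide),
    sumA x 4 5 0 1 2 3 (by decide), sumB x 0 1 2 3 4 5 (by decide),
    sumB x 0 1 3 2 4 5 (by decide), sumB x 0 1 4 2 3 5 (by decide),
    sumB x 0 1 5 2 3 4 (by decide), sumB x 0 2 3 1 4 5 (by decide),
    sumB x 0 2 4 1 3 5 (by decide), sumB x 0 2 5 1 3 4 (by decide),
    sumB x 0 3 4 1 2 5 (by decide), sumB x 0 3 5 1 2 4 (by decide),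
    sumB x 0 4 5 1 2 3 (by decide), sumM x 0 1 2 3 4 5 (by decide),
    sumM x 0 1 2 4 3 5 (by decide), sumM x 0 1 2 5 3 4 (by decide),
    sumM x 0 2 1 3 4 5 (by decide), sumM x 0 2 1 4 3 5 (by decide),
    sumM x 0 2 1 5 3 4 (by decide), sumM x 0 3 1 2 4 5 (by decide),
    sumM x 0 3 1 4 2 5 (by decide), sumM x 0 3 1 5 2 4 (by decide),
    sumM x 0 4 1 2 3 5 (by decide), sumM x 0 4 1 3 2 5 (by decide),
    sumM x 0 4 1 5 2 3 (by decide), sumM x 0 5 1 2 3 4 (by decide),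
    sumM x 0 5 1 3 2 4 (by decide), sumM x 0 5 1 4 2 3 (by decide)]
  unfold Z; ring

omit [DecidableEq I] in
theorem lvl (P : I → Prop) (G : I → ℝ) (D B : ℝ) (hP : ∑ i, ind (P i) ≤ D) (hG : ∀ i, G i ≤ B)
    (hB : 0 ≤ B) : ∑ i, ind (P i) * G i ≤ D * B := by
  calc ∑ i, ind (P i) * G i ≤ ∑ i, ind (P i) * B :=
        Finset.sum_le_sum fun i _ => mul_le_mul_of_nonneg_left (hG i) (ind_nonneg _)
    _ = (∑ i, ind (P i)) * B := by rw [Finset.sum_mul]
    _ ≤ D * B := mul_le_mul_of_nonneg_right hP hB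

omit [DecidableEq I] in
theorem lor (P Q : I → Prop) (D E : ℝ) (hP : ∑ i, ind (P i) ≤ D) (hQ : ∑ i, ind (Q i) ≤ E) :
    ∑ i, ind (P i ∨ Q i) ≤ D + E := by
  calc ∑ i, ind (P i ∨ Q i) ≤ ∑ i, (ind (P i) + ind (Q i)) :=
        Finset.sum_le_sum fun i _ => ind_or _ _
    _ ≤ D + E := by rw [Finset.sum_add_distrib]; linarith

theorem chCount (x : I → ℤ) (C : ℝ) (hC0 : 0 ≤ C) (hC : ∀ v, ∑ i, ind (nr v (x i)) ≤ C) :
    ∑ t : Fin 6 → I, ind (Ch (x (t 0)) (x (t 1)) (x (t 2)) (x (t 3)) (x (t 4)) (x (t 5))) ≤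
      Fintype.card I * (C * ((C + C) * ((C + C) * ((C + (C + (C + C))) * (C + C))))) := by
  rw [sum6 (fun a b c d e f => ind (Ch (x a) (x b) (x c) (x d) (x e) (x f)))]
  simp only [Ch, ind_and, ← Finset.mul_sum]
  rw [← nsmul_eq_mul, ← Finset.card_univ]
  refine Finset.sum_le_card_nsmul _ _ _ fun a _ => ?_
  refine lvl _ _ _ _ (hC _) (fun b => ?_) (by positivity)
  refine lvl _ _ _ _ (lor _ _ _ _ (hC _) (hC _)) (fun c => ?_) (by positivity)
  refine lvl _ _ _ _ (lor _ _ _ _ (hC _) (hC _)) (fun d => ?_) (by positivity)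
  refine lvl _ _ _ _ (lor _ _ _ _ (hC _) (lor _ _ _ _ (hC _) (lor _ _ _ _ (hC _) (hC _))))
    (fun e => ?_) (by positivity)
  exact lor _ _ _ _ (hC _) (hC _)

theorem badCount (x : I → ℤ) (C : ℝ) (hC0 : 0 ≤ C) (hC : ∀ v, ∑ i, ind (nr v (x i)) ≤ C) :
    ∑ t : Fin 6 → I, ind (¬ NB (fun p => x (t p))) ≤ 46656 * (Fintype.card I * (32 * C ^ 5)) := by
  calc ∑ t : Fin 6 → I, ind (¬ NB (fun p => x (t p)))
      ≤ ∑ t : Fin 6 → I, ∑ g : Fin 6 → Fin 6, ind (Function.Injective g) *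
          ind (Ch (x (t (g 0))) (x (t (g 1))) (x (t (g 2))) (x (t (g 3))) (x (t (g 4)))
            (x (t (g 5)))) := by
        refine Finset.sum_le_sum fun t _ => ?_
        by_cases h : NB (fun p => x (t p))
        · rw [ind_false (not_not.2 h)]
          exact Finset.sum_nonneg fun g _ => mul_nonneg (ind_nonneg _) (ind_nonneg _)
        · rw [ind_true' h]
          simp only [NB, not_forall, not_not] at h
          obtain ⟨g, hg, hc⟩ := h
          refine le_trans ?_ (Finset.single_le_sum (fun g _ =>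
            mul_nonneg (ind_nonneg _) (ind_nonneg _)) (Finset.mem_univ g))
          rw [ind_true' hg, ind_true' hc]; norm_num
    _ ≤ 46656 * (Fintype.card I * (32 * C ^ 5)) := by
        rw [Finset.sum_comm]
        have e : (46656 : ℝ) = (Finset.univ : Finset (Fin 6 → Fin 6)).card := by
          rw [Finset.card_univ, Fintype.card_fun, Fintype.card_fin]; norm_num
        rw [e, ← nsmul_eq_mul]
        refine Finset.sum_le_card_nsmul _ _ _ fun g _ => ?_
        by_cases hg : Function.Injective g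
        · simp only [ind_true' hg, one_mul]
          rw [perm g hg (fun t : Fin 6 → I =>
            ind (Ch (x (t 0)) (x (t 1)) (x (t 2)) (x (t 3)) (x (t 4)) (x (t 5))))]
          refine (chCount x C hC0 hC).trans (le_of_eq ?_)
          ring
        · simp only [ind_false hg, zero_mul, Finset.sum_const_zero]
          positivity

theorem lower (x : I → ℤ) (h0 : ∀ i, x i ≠ 0) (hs : Sep x) (C : ℝ) (hC0 : 0 ≤ C)
    (hC : ∀ v, ∑ i, ind (nr v (x i)) ≤ C) :
    ∑ t : Fin 6 → I, ind (Good (fun p => x (t p))) - 26 * (46656 * (Fintype.card I * (32 * C ^ 5)))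
      ≤ Z x 6 - 15 * (Z x 2 * Z x 4) - 10 * (Z x 3 * Z x 3) + 30 * (Z x 2 * Z x 2 * Z x 2) := by
  rw [← sumK]
  have h1 := Finset.sum_le_sum (s := Finset.univ) fun (t : Fin 6 → I) _ =>
    pt (fun p => x (t p)) (fun _ => h0 _) (fun _ _ => hs _ _)
  rw [Finset.sum_sub_distrib, ← Finset.mul_sum] at h1
  linarith [badCount x C hC0 hC]

end counting

end Pool.Agent.H48.Cum
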