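import Mathlib

set_option autoImplicit false

namespace H48.DS

open Finset MeasureTheory Filter Topology

lemma CE {ι : Type} (I : Finset ι) (B : ι → Set ℝ) (hm : ∀ i, MeasurableSet (B i))
    (hf : ∀ i, volume (B i) ≠ ⊤) (t : ℝ) :
    2 * t * ∑ i ∈ I, volume.real (B i) - t ^ 2 * ∑ i ∈ I, ∑ j ∈ I, volume.real (B i ∩ B j)
      ≤ volume.real (⋃ i ∈ I, B i) := by
  have hi : ∀ s : Set ℝ, MeasurableSet s → volume s ≠ ⊤ →
      Integrable (s.indicator (1 : ℝ → ℝ)) := fun s h1 h2 =>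
    (integrable_indicator_iff h1).2 (integrableOn_const h2)
  have hU : MeasurableSet (⋃ i ∈ I, B i) := Finset.measurableSet_biUnion _ fun i _ => hm i
  have hUf : volume (⋃ i ∈ I, B i) ≠ ⊤ := measure_biUnion_ne_top I.finite_toSet fun i _ => hf i
  have h2 : ∀ i j, Integrable ((B i ∩ B j).indicator (1 : ℝ → ℝ)) := fun i j =>
    hi _ ((hm i).inter (hm j)) (ne_top_of_le_ne_top (hf i) (measure_mono Set.inter_subset_left))
  have i1 : Integrable (fun x => ∑ i ∈ I, (B i).indicator (1 : ℝ → ℝ) x) :=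
    integrable_finsetSum _ fun i _ => hi _ (hm i) (hf i)
  have i2 : Integrable (fun x => ∑ i ∈ I, ∑ j ∈ I, (B i ∩ B j).indicator (1 : ℝ → ℝ) x) :=
    integrable_finsetSum _ fun i _ => integrable_finsetSum _ fun j _ => h2 i j
  have e1 : ∑ i ∈ I, volume.real (B i) = ∫ x, ∑ i ∈ I, (B i).indicator (1 : ℝ → ℝ) x := by
    rw [integral_finsetSum _ fun i _ => hi _ (hm i) (hf i)]
    exact sum_congr rfl fun i _ => (integral_indicator_one (hm i)).symm
  have e2 : ∑ i ∈ I, ∑ j ∈ I, volume.real (B i ∩ B j)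
      = ∫ x, ∑ i ∈ I, ∑ j ∈ I, (B i ∩ B j).indicator (1 : ℝ → ℝ) x := by
    rw [integral_finsetSum _ fun i _ => integrable_finsetSum _ fun j _ => h2 i j]
    refine sum_congr rfl fun i _ => ?_
    rw [integral_finsetSum _ fun j _ => h2 i j]
    exact sum_congr rfl fun j _ => (integral_indicator_one ((hm i).inter (hm j))).symm
  rw [e1, e2, ← integral_indicator_one hU, ← integral_const_mul, ← integral_const_mul,
    ← integral_sub (i1.const_mul _) (i2.const_mul _)]
  refine integral_mono ((i1.const_mul _).sub (i2.const_mul _)) (hi _ hU hUf) fun x => ?_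
  have e : ∑ i ∈ I, ∑ j ∈ I, (B i ∩ B j).indicator (1 : ℝ → ℝ) x
      = (∑ i ∈ I, (B i).indicator (1 : ℝ → ℝ) x) ^ 2 := by
    rw [sq, sum_mul_sum]
    exact sum_congr rfl fun i _ => sum_congr rfl fun j _ => by
      rw [Set.inter_indicator_one]; rfl
  simp only [e]
  by_cases hx : x ∈ ⋃ i ∈ I, B i
  · rw [Set.indicator_of_mem hx, Pi.one_apply]
    nlinarith [sq_nonneg (t * ∑ i ∈ I, (B i).indicator (1 : ℝ → ℝ) x - 1)]
  · rw [Set.indicator_of_notMem hx, sum_eq_zero fun i hi => Set.indicator_of_notMem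
      (fun h => hx (Set.mem_biUnion (mem_coe.2 hi) h)) _]
    simp

lemma close (n n' : ℕ) (hn : 0 < n) (hn' : 0 < n') (η : ℝ) (hη : 0 ≤ η) (P : Finset (ℕ × ℕ))
    (hP : ∀ x ∈ P, x.1 < n ∧ x.1 * n' ≠ x.2 * n ∧ |(x.1 : ℝ) / n - x.2 / n'| < η) :
    (P.card : ℝ) ≤ 2 * n * n' * η := by
  obtain ⟨g, a, b, hg, hab, rfl, rfl⟩ := Nat.exists_coprime' (Nat.gcd_pos_of_pos_left n' hn)
  have ha : 0 < a := Nat.pos_of_mul_pos_right hn
  have hb : 0 < b := Nat.pos_of_mul_pos_right hn'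
  obtain ⟨U, hU⟩ : ∃ U, U = ⌊g * a * b * η⌋₊ := ⟨_, rfl⟩
  have h1 : P.card ≤ (((Icc (-(U : ℤ)) U).erase 0) ×ˢ range g).card := by
    refine card_le_card_of_injOn (fun x => ((x.1 : ℤ) * b - x.2 * a, x.1 / a)) (fun x hx => ?_) ?_
    · obtain ⟨k1, k2, k3⟩ := hP x hx
      simp only [coe_product, coe_erase, coe_Icc, coe_range, Set.mem_prod, Set.mem_sdiff,
        Set.mem_Icc, Set.mem_singleton_iff, Set.mem_Iio]
      refine ⟨⟨?_, fun h => k2 ?_⟩, Nat.div_lt_of_lt_mul k1⟩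
      · rw [← abs_le, ← Int.natCast_natAbs, Nat.cast_le, hU]
        apply Nat.le_floor
        rw [Nat.cast_natAbs]
        push_cast at k3 ⊢
        have e : (x.1 : ℝ) * b - x.2 * a = g * a * b * ((x.1 : ℝ) / (a * g) - x.2 / (b * g)) := by
          field_simp
        rw [e, abs_mul, abs_of_nonneg (by positivity)]
        gcongr
      · have : x.1 * b = x.2 * a := by exact_mod_cast sub_eq_zero.1 h
        rw [← mul_assoc, this, mul_assoc]
    · intro x _ y _ h
      simp only [Prod.mk.injEq] at h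
      have d : (a : ℤ) ∣ ((x.1 : ℤ) - y.1) * b := ⟨(x.2 : ℤ) - y.2, by linarith [h.1]⟩
      have d2 := (Nat.isCoprime_iff_coprime.2 hab).dvd_of_dvd_mul_right d
      have d3 : x.1 % a = y.1 % a := ((Nat.modEq_iff_dvd).2 d2).symm
      have e1 : x.1 = y.1 := by rw [← Nat.div_add_mod x.1 a, ← Nat.div_add_mod y.1 a, h.2, d3]
      have e2 : (x.2 : ℤ) * a = y.2 * a := by have := h.1; rw [e1] at this; linarith
      exact Prod.ext e1 (by exact_mod_cast mul_right_cancel₀ (by positivity) e2)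
  rw [card_product, card_erase_of_mem (by simp), Int.card_Icc, card_range] at h1
  have h2 : P.card ≤ 2 * U * g := h1.trans (Nat.mul_le_mul_right _ (by omega))
  have h3 : (U : ℝ) ≤ g * a * b * η := hU ▸ Nat.floor_le (by positivity)
  calc (P.card : ℝ) ≤ 2 * U * g := by exact_mod_cast h2
    _ ≤ 2 * (g * a * b * η) * g := by gcongr
    _ = _ := by push_cast; ring

lemma overlap (δ : ℕ → ℝ) (h0 : ∀ n, 0 ≤ δ n) (n n' : ℕ) :
    ∑ m ∈ (range n).filter n.Coprime, ∑ m' ∈ (range n').filter n'.Coprime,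
      volume.real (Metric.ball ((m : ℝ) / n) (δ n) ∩ Metric.ball ((m' : ℝ) / n') (δ n'))
      ≤ 8 * (n * δ n) * (n' * δ n') + if n = n' then 2 * (n.totient * δ n) else 0 := by
  have := h0 n
  have := h0 n'
  rcases Nat.eq_zero_or_pos n with rfl | hn
  · simp
  rcases Nat.eq_zero_or_pos n' with rfl | hn'
  · simp [hn.ne']
  rw [← sum_product', ← sum_filter_add_sum_filter_not _ (fun x : ℕ × ℕ => x.1 * n' ≠ x.2 * n)]
  have b1 : ∀ x y : ℝ, volume.real (Metric.ball x (δ n) ∩ Metric.ball y (δ n')) ≤ 2 * δ n :=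
    fun x y => (measureReal_mono Set.inter_subset_left measure_ball_ne_top).trans
      (Real.volume_real_ball (h0 n)).le
  have b2 : ∀ x y : ℝ, volume.real (Metric.ball x (δ n) ∩ Metric.ball y (δ n')) ≤ 2 * δ n' :=
    fun x y => (measureReal_mono Set.inter_subset_right measure_ball_ne_top).trans
      (Real.volume_real_ball (h0 n')).le
  refine add_le_add ?_ ?_
  · rw [← sum_filter_of_ne (p := fun x : ℕ × ℕ => |(x.1 : ℝ) / n - x.2 / n'| < δ n + δ n')]
    · refine (sum_le_card_nsmul _ _ (2 * min (δ n) (δ n')) fun x _ => ?_).trans ?_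
      · rcases min_choice (δ n) (δ n') with h | h <;> rw [h]
        · exact b1 _ _
        · exact b2 _ _
      · rw [nsmul_eq_mul]
        refine (mul_le_mul_of_nonneg_right (close n n' hn hn' (δ n + δ n') (by positivity) _
          fun x hx => ?_) (by positivity)).trans ?_
        · simp only [mem_filter, mem_product, mem_range] at hx
          exact ⟨hx.1.1.1.1, hx.1.2, hx.2⟩
        · have : (δ n + δ n') * min (δ n) (δ n') ≤ 2 * (δ n * δ n') := by
            rcases le_total (δ n) (δ n') with h | h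
            · rw [min_eq_left h]; nlinarith
            · rw [min_eq_right h]; nlinarith
          calc _ = 4 * n * n' * ((δ n + δ n') * min (δ n) (δ n')) := by ring
            _ ≤ 4 * n * n' * (2 * (δ n * δ n')) := by gcongr
            _ = _ := by ring
    · intro x _ hx
      by_contra h
      apply hx
      rw [(Metric.ball_disjoint_ball (by rw [Real.dist_eq]; exact not_lt.1 h)).inter_eq]
      simp
  · have key : ∀ x ∈ ((range n).filter n.Coprime ×ˢ (range n').filter n'.Coprime).filter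
        (fun x : ℕ × ℕ => ¬ x.1 * n' ≠ x.2 * n), n = n' ∧ x.1 = x.2 := by
      intro x hx
      simp only [mem_filter, mem_product, mem_range, not_not] at hx
      have d1 : n ∣ n' := hx.1.1.2.dvd_of_dvd_mul_left ⟨x.2, by rw [hx.2, mul_comm]⟩
      have d2 : n' ∣ n := hx.1.2.2.dvd_of_dvd_mul_left ⟨x.1, by rw [← hx.2, mul_comm]⟩
      have e := Nat.dvd_antisymm d1 d2
      exact ⟨e, Nat.eq_of_mul_eq_mul_right hn (by rw [← hx.2, e])⟩
    split_ifs with h
    · refine (sum_le_card_nsmul _ _ (2 * δ n) fun x _ => b1 _ _).trans ?_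
      rw [nsmul_eq_mul, mul_left_comm]
      gcongr
      rw [Nat.totient_eq_card_coprime]
      refine card_le_card_of_injOn Prod.fst (fun x hx => (mem_product.1 (mem_filter.1 hx).1).1)
        fun x hx y hy e => Prod.ext e ?_
      rw [← (key x hx).2, ← (key y hy).2, e]
    · rw [sum_eq_zero fun x hx => absurd (key x hx).1 h]

lemma lift {p : UnitAddCircle → Prop} (h : ∀ᵐ x : UnitAddCircle, p x) : ∀ᵐ a : ℝ, p a := by
  have : ∀ᵐ a : ℝ ∂volume.restrict (⋃ n : ℤ, Set.Ioc (n : ℝ) (n + 1)), p a :=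
    (ae_restrict_iUnion_iff _ _).2 fun n =>
      (UnitAddCircle.measurePreserving_mk n).quasiMeasurePreserving.ae h
  rwa [iUnion_Ioc_intCast, Measure.restrict_univ] at this

theorem main (δ : ℕ → ℝ) (h0 : ∀ n, 0 ≤ δ n) (h1 : ∀ n, δ n ≤ 1) (hlim : Tendsto δ atTop (𝓝 0))
    (c : ℝ) (hc : 0 < c) (hc1 : c ≤ 1) (hF : ∀ M, ∃ F : Finset ℕ, (∀ n ∈ F, M ≤ n) ∧
      ∑ n ∈ F, n * δ n ≤ 1 ∧ c ≤ ∑ n ∈ F, n.totient * δ n) :
    ∀ᵐ a : ℝ, {n : ℕ | ∃ m < n, gcd m n = 1 ∧
      ‖(a : UnitAddCircle) - (((m : ℝ) / n : ℝ) : UnitAddCircle)‖ < δ n}.Infinite := by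
  rcases AddCircle.addWellApproximable_ae_empty_or_univ (T := 1) δ hlim with h | h
  swap
  · simpa only [UnitAddCircle.mem_addWellApproximable_iff] using lift h
  exfalso
  have h' := lift h
  simp only [UnitAddCircle.mem_addWellApproximable_iff] at h'
  let U : ℕ → Set ℝ := fun M => ⋃ x : {x : ℕ × ℕ // M ≤ x.1 ∧ x.2 < x.1 ∧ x.1.Coprime x.2},
    Metric.ball ((x.1.2 : ℝ) / x.1.1) (δ x.1.1)
  have hm : ∀ M, MeasurableSet (U M) := fun M => MeasurableSet.iUnion fun _ => measurableSet_ball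
  have ha : Antitone U := fun M M' h => Set.iUnion_subset fun x =>
    Set.subset_iUnion_of_subset ⟨x.1, h.trans x.2.1, x.2.2⟩ subset_rfl
  have hfin : ∀ M, volume (U M) ≠ ⊤ := fun M => by
    refine ne_top_of_le_ne_top (measure_ball_ne_top (x := (0 : ℝ)) (r := 2))
      (measure_mono (Set.iUnion_subset fun x => Metric.ball_subset_ball' ?_))
    have : (0 : ℝ) < x.1.1 := by exact_mod_cast (Nat.zero_le _).trans_lt x.2.2.1
    have : (x.1.2 : ℝ) / x.1.1 ≤ 1 := by
      rw [div_le_one this]; exact_mod_cast x.2.2.1.le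
    rw [Real.dist_eq, sub_zero, abs_of_nonneg (by positivity)]
    linarith [h1 x.1.1]
  have hz : volume (⋂ M, U M) = 0 := by
    refine measure_mono_null (fun a ha => ?_) (ae_iff.1 h')
    simp only [Set.mem_ofPred_eq, not_not]
    refine Set.infinite_of_forall_exists_gt fun M => ?_
    obtain ⟨x, hx⟩ := Set.mem_iUnion.1 (Set.mem_iInter.1 ha (M + 1))
    refine ⟨x.1.1, ⟨x.1.2, x.2.2.1, x.2.2.2.symm, ?_⟩, x.2.1⟩
    rw [← AddCircle.coe_sub]
    exact QuotientAddGroup.norm_mk_le_norm.trans_lt (mem_ball_iff_norm.1 hx)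
  have ht := tendsto_measure_iInter_atTop (μ := volume) (fun M => (hm M).nullMeasurableSet) ha
    ⟨0, hfin 0⟩
  rw [hz] at ht
  have ht2 := (ENNReal.tendsto_toReal ENNReal.zero_ne_top).comp ht
  obtain ⟨M, hM⟩ := (ht2.eventually_lt_const (u := c ^ 2 / 8) (by simp; positivity)).exists
  obtain ⟨F, f1, f2, f3⟩ := hF M
  have k := CE (F.sigma fun n => (range n).filter n.Coprime)
    (fun x => Metric.ball ((x.2 : ℝ) / x.1) (δ x.1)) (fun _ => measurableSet_ball)
    (fun _ => measure_ball_ne_top) (c / 8)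
  have k1 : volume.real (⋃ x ∈ (F.sigma fun n => (range n).filter n.Coprime),
      Metric.ball ((x.2 : ℝ) / x.1) (δ x.1)) ≤ volume.real (U M) := by
    refine measureReal_mono (Set.iUnion₂_subset fun x hx => ?_) (hfin M)
    simp only [mem_sigma, mem_filter, mem_range] at hx
    exact Set.subset_iUnion_of_subset ⟨(x.1, x.2), f1 _ hx.1, hx.2.1, hx.2.2⟩ subset_rfl
  have e1 : ∑ x ∈ (F.sigma fun n => (range n).filter n.Coprime),
      volume.real (Metric.ball ((x.2 : ℝ) / x.1) (δ x.1)) = 2 * ∑ n ∈ F, n.totient * δ n := by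
    rw [sum_sigma, mul_sum]
    refine sum_congr rfl fun n _ => ?_
    simp only [Real.volume_real_ball (h0 n), sum_const, nsmul_eq_mul,
      ← Nat.totient_eq_card_coprime]
    ring
  have e2 : ∑ x ∈ (F.sigma fun n => (range n).filter n.Coprime),
      ∑ y ∈ (F.sigma fun n => (range n).filter n.Coprime),
      volume.real (Metric.ball ((x.2 : ℝ) / x.1) (δ x.1) ∩ Metric.ball ((y.2 : ℝ) / y.1) (δ y.1))
      ≤ 8 + 2 * ∑ n ∈ F, n.totient * δ n := by
    rw [sum_sigma]
    simp only [sum_sigma]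
    refine le_trans (sum_le_sum fun n hn => (sum_comm.le.trans
      (sum_le_sum fun n' _ => overlap δ h0 n n'))) ?_
    simp only [sum_add_distrib]
    refine add_le_add ?_ ?_
    · simp only [mul_assoc (8 : ℝ), ← mul_sum, ← sum_mul]
      have : 0 ≤ ∑ n ∈ F, n * δ n := sum_nonneg fun n _ => mul_nonneg (by positivity) (h0 n)
      nlinarith
    · rw [mul_sum]
      exact sum_le_sum fun n hn => by rw [sum_ite_eq, if_pos hn]
  rw [e1] at k
  obtain ⟨S, hS⟩ : ∃ S, S = ∑ n ∈ F, n.totient * δ n := ⟨_, rfl⟩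
  rw [← hS] at k e2 f3
  have k2 := mul_le_mul_of_nonneg_left e2 (sq_nonneg (c / 8))
  change volume.real (U M) < _ at hM
  have k3 : (c / 8) ^ 2 * S ≤ c / 8 * S := by
    refine mul_le_mul_of_nonneg_right ?_ (by linarith); nlinarith
  nlinarith

lemma phi_ge (q : ℕ) : (q : ℝ) * (1 - ∑ p ∈ q.primeFactors, (p : ℝ)⁻¹) ≤ q.totient := by
  have h := congrArg (fun x : ℚ => (x : ℝ)) (Nat.totient_eq_mul_prod_factors q)
  push_cast at h
  rw [h]
  refine mul_le_mul_of_nonneg_left ?_ (by positivity)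
  induction q.primeFactors using Finset.induction_on with
  | empty => simp
  | insert p s hp ih =>
    rw [sum_insert hp, prod_insert hp]
    have a1 : (0 : ℝ) ≤ (p : ℝ)⁻¹ := by positivity
    have a2 : (p : ℝ)⁻¹ ≤ 1 := Nat.cast_inv_le_one p
    have a3 : (0 : ℝ) ≤ ∑ p ∈ s, (p : ℝ)⁻¹ := by positivity
    nlinarith [mul_le_mul_of_nonneg_left ih (sub_nonneg.2 a2)]

lemma avg (R : ℕ) : (R : ℝ) / 2 ≤ ∑ r ∈ range R, ((2 * r + 1).totient : ℝ) / (2 * r + 1 : ℕ) := by
  have t : ∀ R : ℕ, ∑ s ∈ range R, (((2 * (s + 1) + 1 : ℕ) : ℝ)⁻¹) ^ 2 ≤ 1 / 4 - 1 / (4 * (R + 1)) := by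
    intro R
    induction R with
    | zero => simp
    | succ R ih =>
      rw [sum_range_succ]
      have : (((2 * (R + 1) + 1 : ℕ) : ℝ)⁻¹) ^ 2 ≤ 1 / (4 * (R + 1)) - 1 / (4 * ((R + 1 : ℕ) + 1)) := by
        push_cast
        rw [inv_pow, div_sub_div _ _ (by positivity) (by positivity), inv_eq_one_div,
          div_le_div_iff₀ (by positivity) (by positivity)]
        have : (0 : ℝ) ≤ R := by positivity
        nlinarith [sq_nonneg (R : ℝ)]
      linarith
  have h1 : ∀ r ∈ range R, 1 - ∑ s ∈ range R, (if (2 * (s + 1) + 1) ∣ (2 * r + 1) then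
      ((2 * (s + 1) + 1 : ℕ) : ℝ)⁻¹ else 0) ≤ ((2 * r + 1).totient : ℝ) / (2 * r + 1 : ℕ) := by
    intro r hr
    rw [le_div_iff₀' (by positivity)]
    refine le_trans (mul_le_mul_of_nonneg_left (sub_le_sub_left ?_ 1) (by positivity)) (phi_ge _)
    rw [← sum_filter, ← sum_image (f := fun p : ℕ => (p : ℝ)⁻¹) (g := fun s => 2 * (s + 1) + 1)
      (fun x _ y _ h => by simp only at h; omega)]
    refine sum_le_sum_of_subset_of_nonneg (fun p hp => ?_) fun _ _ _ => by positivity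
    obtain ⟨k1, k2, _⟩ := Nat.mem_primeFactors.1 hp
    have k3 : Odd p := (show Odd (2 * r + 1) from ⟨r, rfl⟩).of_dvd_nat k2
    have k4 := Nat.le_of_dvd (by omega) k2
    have k5 := k1.two_le
    have k6 := mem_range.1 hr
    obtain ⟨s, rfl⟩ := k3
    refine mem_image.2 ⟨s - 1, mem_filter.2 ⟨mem_range.2 (by omega), ?_⟩, by omega⟩
    rwa [show s - 1 + 1 = s by omega]
  refine le_trans ?_ (sum_le_sum h1)
  rw [sum_sub_distrib, sum_comm]
  have h2 : ∀ s ∈ range R, ∑ r ∈ range R, (if (2 * (s + 1) + 1) ∣ (2 * r + 1) then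
      ((2 * (s + 1) + 1 : ℕ) : ℝ)⁻¹ else 0) ≤ 2 * R * (((2 * (s + 1) + 1 : ℕ) : ℝ)⁻¹) ^ 2 := by
    intro s _
    rw [← sum_filter, sum_const, nsmul_eq_mul, sq, ← mul_assoc]
    refine mul_le_mul_of_nonneg_right ?_ (by positivity)
    have : ((range R).filter fun r => (2 * (s + 1) + 1) ∣ (2 * r + 1)).card
        ≤ 2 * R / (2 * (s + 1) + 1) := by
      rw [← Nat.Ioc_filter_dvd_card_eq_div]
      refine card_le_card_of_injOn (fun r => 2 * r + 1) (fun r hr => ?_)
        (fun x _ y _ h => by simp only at h; omega)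
      simp only [coe_filter, mem_range, Set.mem_ofPred_eq, mem_Ioc] at hr ⊢
      exact ⟨by omega, hr.2⟩
    refine (Nat.cast_le.2 this).trans (Nat.cast_div_le.trans ?_)
    rw [div_eq_mul_inv]; simp
  have h3 := sum_le_sum h2
  rw [← mul_sum] at h3
  have h4 := t R
  have h5 : (0 : ℝ) ≤ 1 / (4 * (R + 1)) := by positivity
  have h6 : 2 * (R : ℝ) * ∑ s ∈ range R, (((2 * (s + 1) + 1 : ℕ) : ℝ)⁻¹) ^ 2 ≤ 2 * R * (1 / 4) := by
    gcongr; linarith
  simp only [sum_const, card_range, nsmul_eq_mul, mul_one]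
  linarith

lemma logsum (M : ℕ) : (M : ℝ) / 8 ≤
    ∑ r ∈ range (4 ^ M), ((2 * r + 1).totient : ℝ) / ((2 * r + 1 : ℕ) : ℝ) ^ 2 := by
  induction M with
  | zero => simp
  | succ M ih =>
    obtain ⟨Y, hY⟩ : ∃ Y, Y = 4 ^ M := ⟨_, rfl⟩
    have hY0 : 0 < Y := hY ▸ by positivity
    rw [pow_succ, ← hY, ← sum_range_add_sum_Ico _ (show Y ≤ Y * 4 by omega)]
    rw [← hY] at ih
    have a1 := avg (Y * 4)
    rw [← sum_range_add_sum_Ico _ (show Y ≤ Y * 4 by omega)] at a1
    have a2 : ∑ r ∈ range Y, ((2 * r + 1).totient : ℝ) / (2 * r + 1 : ℕ) ≤ Y := by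
      refine (sum_le_card_nsmul _ _ 1 fun r _ => ?_).trans (by simp)
      rw [div_le_one (by positivity)]
      exact_mod_cast Nat.totient_le _
    have a3 : (∑ r ∈ Ico Y (Y * 4), ((2 * r + 1).totient : ℝ) / (2 * r + 1 : ℕ)) / (8 * Y)
        ≤ ∑ r ∈ Ico Y (Y * 4), ((2 * r + 1).totient : ℝ) / ((2 * r + 1 : ℕ) : ℝ) ^ 2 := by
      rw [sum_div]
      refine sum_le_sum fun r hr => ?_
      rw [div_div, sq]
      have : ((2 * r + 1 : ℕ) : ℝ) ≤ 8 * Y := by
        have := (mem_Ico.1 hr).2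
        exact_mod_cast (by omega : 2 * r + 1 ≤ 8 * Y)
      gcongr
    have a4 : (1 : ℝ) / 8 ≤
        (∑ r ∈ Ico Y (Y * 4), ((2 * r + 1).totient : ℝ) / (2 * r + 1 : ℕ)) / (8 * Y) := by
      rw [le_div_iff₀ (by positivity)]
      push_cast at a1 a2 ⊢
      linarith
    push_cast at ih a3 a4 ⊢
    linarith

end H48.DS
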