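import Mathlib

set_option autoImplicit false

namespace Pool.Agent.H48.GS

open Finset Filter Topology

/-- norm as a monoid hom to the naturals -/
def nm : GaussianInt →* ℕ where
  toFun z := z.norm.natAbs
  map_one' := by simp
  map_mul' x y := by simp [Zsqrtd.norm_mul, Int.natAbs_mul]

theorem nm_cast (z : GaussianInt) : (nm z : ℤ) = z.re * z.re + z.im * z.im := by
  show ((z.norm.natAbs : ℕ) : ℤ) = _
  rw [GaussianInt.abs_natCast_norm, Zsqrtd.norm_def]; ring

theorem nm_pos {z : GaussianInt} (h : z ≠ 0) : 0 < nm z :=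
  Int.natAbs_pos.2 (GaussianInt.norm_pos.2 h).ne'

theorem nm_dvd {a b : GaussianInt} (h : a ∣ b) : nm a ∣ nm b := map_dvd nm h

theorem nm_le {a b : GaussianInt} (h : a ∣ b) (hb : b ≠ 0) : nm a ≤ nm b :=
  Nat.le_of_dvd (nm_pos hb) (nm_dvd h)

theorem nm_unit {a : GaussianInt} (h : IsUnit a) : nm a = 1 :=
  Nat.isUnit_iff.1 (h.map nm)

theorem nm_prime {a : GaussianInt} (h : Prime a) : 2 ≤ nm a := by
  have h1 := nm_pos h.ne_zero
  by_contra hn
  have h2 : nm a = 1 := by omega
  apply h.not_isUnit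
  rw [← Zsqrtd.norm_eq_one_iff' (by norm_num), ← GaussianInt.abs_natCast_norm]
  exact_mod_cast h2

theorem nm_assoc {a b : GaussianInt} (h : Associated a b) : nm a = nm b :=
  Nat.dvd_antisymm (nm_dvd h.dvd) (nm_dvd h.symm.dvd)

theorem nm_nat (p : ℕ) : nm (p : GaussianInt) = p ^ 2 := by
  have := nm_cast (p : GaussianInt)
  simp at this
  rw [sq]; exact_mod_cast this

theorem dc (K : ℕ) (p : ℕ → Prop) [DecidablePred p] (h0 : p 0) (hd : ∀ k l, k ≤ l → p l → p k) :
    p ((Icc 1 K).filter p).card := by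
  rcases ((Icc 1 K).filter p).eq_empty_or_nonempty with h | h
  · rw [h]; exact h0
  · have hm := Finset.max'_mem _ h
    refine hd _ _ ?_ (mem_filter.1 hm).2
    have : (Icc 1 K).filter p ⊆ Icc 1 (((Icc 1 K).filter p).max' h) := by
      intro x hx
      exact mem_Icc.2 ⟨(mem_Icc.1 (mem_filter.1 hx).1).1, Finset.le_max' _ _ hx⟩
    simpa using card_le_card this

open Classical in
/-- truncated multiplicity -/
noncomputable def cnt (K : ℕ) (a n : GaussianInt) : ℕ :=
  ((Icc 1 K).filter (fun k => a ^ k ∣ n)).card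

/-- a set of pairwise non-associated primes -/
def Reps (P : Finset GaussianInt) : Prop :=
  (∀ a ∈ P, Prime a) ∧ ∀ a ∈ P, ∀ b ∈ P, a ∣ b → a = b

theorem prod_dvd (P : Finset GaussianInt) (hP : Reps P) (e : GaussianInt → ℕ) (n : GaussianInt)
    (h : ∀ a ∈ P, a ^ e a ∣ n) : ∏ a ∈ P, a ^ e a ∣ n := by
  refine Finset.prod_dvd_of_coprime ?_ h
  intro a ha b hb hab
  exact IsCoprime.pow ((hP.1 a ha).coprime_iff_not_dvd.2 fun hd => hab (hP.2 a ha b hb hd))

theorem up (P : Finset GaussianInt) (hP : Reps P) (K : ℕ) (n : GaussianInt) (hn : n ≠ 0) :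
    ∑ a ∈ P, (cnt K a n : ℝ) * Real.log (nm a) ≤ Real.log (nm n) := by
  classical
  have h1 := nm_le (prod_dvd P hP (fun a => cnt K a n) n fun a _ => by
    unfold cnt
    convert dc K (fun k => a ^ k ∣ n) (by simp) fun k l hkl h => (pow_dvd_pow a hkl).trans h) hn
  rw [map_prod] at h1
  simp only [map_pow] at h1
  have h2 : ∀ a ∈ P, (0 : ℝ) < nm a := fun a ha => by exact_mod_cast nm_pos (hP.1 a ha).ne_zero
  simp only [← Real.log_pow]
  rw [← Real.log_prod fun a ha => (pow_pos (h2 a ha) _).ne']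
  apply Real.log_le_log (prod_pos fun a ha => pow_pos (h2 a ha) _)
  exact_mod_cast h1

theorem down (P : Finset GaussianInt) (K : ℕ) (n : GaussianInt) :
    n ≠ 0 → nm n ≤ 2 ^ K → (∀ q, Prime q → q ∣ n → ∃ a ∈ P, Associated a q) →
    Real.log (nm n) ≤ ∑ a ∈ P, (cnt K a n : ℝ) * Real.log (nm a) := by
  classical
  induction n using UniqueFactorizationMonoid.induction_on_prime with
  | h₁ => intro h; exact absurd rfl h
  | h₂ x hx =>
    intro _ _ _
    rw [nm_unit hx]
    simp only [Nat.cast_one, Real.log_one]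
    exact sum_nonneg fun a _ => mul_nonneg (by positivity) (Real.log_natCast_nonneg _)
  | h₃ m q hm hq ih =>
    intro h0 hK hs
    have ih := ih hm ((nm_le (dvd_mul_left m q) h0).trans hK)
      fun r hr hd => hs r hr (hd.mul_left q)
    obtain ⟨a, ha, haq⟩ := hs q hq (dvd_mul_right q m)
    have hap : Prime a := haq.symm.prime hq
    have hmono : ∀ b, cnt K b m ≤ cnt K b (q * m) := fun b =>
      card_le_card fun k hk => mem_filter.2 ⟨(mem_filter.1 hk).1, (mem_filter.1 hk).2.mul_left q⟩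
    have hstrict : cnt K a m + 1 ≤ cnt K a (q * m) := by
      obtain ⟨e, c, hc, rfl⟩ := WfDvdMonoid.max_power_factor hm hap.irreducible
      have hd : a ^ (e + 1) ∣ q * (a ^ e * c) := by
        rw [pow_succ']; exact mul_dvd_mul haq.dvd (dvd_mul_right _ _)
      have hle : e + 1 ≤ K := by
        have h1 := (nm_le hd h0).trans hK
        rw [map_pow] at h1
        have h2 : 2 ^ (e + 1) ≤ nm a ^ (e + 1) := Nat.pow_le_pow_left (nm_prime hap) _
        exact (Nat.pow_le_pow_iff_right (by norm_num)).1 (h2.trans h1)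
      apply card_lt_card
      refine ⟨fun k hk => mem_filter.2 ⟨(mem_filter.1 hk).1, (mem_filter.1 hk).2.mul_left q⟩, ?_⟩
      intro hsub
      have := (mem_filter.1 (hsub (mem_filter.2 ⟨mem_Icc.2 ⟨by omega, hle⟩, hd⟩))).2
      rw [pow_succ, mul_dvd_mul_iff_left (pow_ne_zero _ hap.ne_zero)] at this
      exact hc this
    rw [map_mul, Nat.cast_mul, Real.log_mul (by exact_mod_cast (nm_pos hq.ne_zero).ne')
      (by exact_mod_cast (nm_pos hm).ne'), ← nm_assoc haq, ← add_sum_erase _ _ ha]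
    rw [← add_sum_erase _ _ ha] at ih
    have h1 : ∑ b ∈ P.erase a, (cnt K b m : ℝ) * Real.log (nm b) ≤
        ∑ b ∈ P.erase a, (cnt K b (q * m) : ℝ) * Real.log (nm b) :=
      sum_le_sum fun b _ => mul_le_mul_of_nonneg_right (by exact_mod_cast hmono b)
        (Real.log_natCast_nonneg _)
    have h2 : (cnt K a m + 1 : ℝ) ≤ cnt K a (q * m) := by exact_mod_cast hstrict
    nlinarith [Real.log_natCast_nonneg (nm a)]

/-- square with centre `c` -/
noncomputable def Sq (c : GaussianInt) (L : ℕ) : Finset GaussianInt :=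
  (Ioo (-(L : ℤ)) L ×ˢ Ioo (-(L : ℤ)) L).image (fun p => c + ⟨p.1, p.2⟩)

theorem mem_Sq {c z : GaussianInt} {L : ℕ} : z ∈ Sq c L ↔
    -(L : ℤ) < z.re - c.re ∧ z.re - c.re < L ∧ -(L : ℤ) < z.im - c.im ∧ z.im - c.im < L := by
  simp only [Sq, mem_image, mem_product, mem_Ioo]
  constructor
  · rintro ⟨p, ⟨⟨a, b⟩, d, e⟩, rfl⟩
    simp [a, b, d, e]
  · rintro ⟨a, b, d, e⟩
    exact ⟨(z.re - c.re, z.im - c.im), ⟨⟨a, b⟩, d, e⟩, by ext <;> simp⟩

theorem card_Sq (c : GaussianInt) (L : ℕ) : (Sq c L).card = (2 * L - 1) ^ 2 := by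
  rw [Sq, card_image_of_injective, card_product, Int.card_Ioo, sq]
  · congr 1 <;> omega
  · intro p q h
    have h1 := congrArg Zsqrtd.re h
    have h2 := congrArg Zsqrtd.im h
    simp at h1 h2
    exact Prod.ext h1 h2

open Classical in
/-- number of multiples -/
noncomputable def mul (S : Finset GaussianInt) (a : GaussianInt) : ℕ :=
  (S.filter (fun n => a ∣ n)).card

theorem cell (c a : GaussianInt) (N s : ℕ) (hs : 0 < s) (h : 2 * s ^ 2 ≤ nm a) :
    mul (Sq c N) a ≤ (2 * N / s + 1) ^ 2 := by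
  classical
  have : (2 * N / s + 1) ^ 2 = (range (2 * N / s + 1) ×ˢ range (2 * N / s + 1)).card := by
    simp [sq]
  rw [this]
  refine card_le_card_of_injOn
    (fun z => ((z.re - c.re + N).toNat / s, (z.im - c.im + N).toNat / s)) ?_ ?_
  · intro z hz
    have hz := mem_Sq.1 (mem_filter.1 hz).1
    simp only [coe_product, coe_range, Set.mem_prod, Set.mem_Iio, Nat.lt_succ_iff]
    exact ⟨Nat.div_le_div_right (by omega), Nat.div_le_div_right (by omega)⟩
  · intro z hz w hw e
    obtain ⟨hz, dz⟩ := mem_filter.1 hz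
    obtain ⟨hw, dw⟩ := mem_filter.1 hw
    have hz := mem_Sq.1 hz
    have hw := mem_Sq.1 hw
    simp only [Prod.mk.injEq] at e
    have key : ∀ x y : ℕ, x / s = y / s → (x : ℤ) - y < s := by
      intro x y hxy
      have h1 := Nat.div_add_mod x s
      have h2 := Nat.div_add_mod y s
      have h3 := Nat.mod_lt x hs
      rw [hxy] at h1
      omega
    have k1 := key _ _ e.1
    have k2 := key _ _ e.1.symm
    have k3 := key _ _ e.2
    have k4 := key _ _ e.2.symm
    by_contra hne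
    have h1 := (h.trans (nm_le (dvd_sub dz dw) (sub_ne_zero.2 hne)))
    have h2 : ((2 * s ^ 2 : ℕ) : ℤ) ≤ nm (z - w) := by exact_mod_cast h1
    rw [nm_cast] at h2
    simp only [Zsqrtd.re_sub, Zsqrtd.im_sub] at h2
    push_cast at h2
    have a1 : z.re - w.re < s := by omega
    have a2 : -(s : ℤ) < z.re - w.re := by omega
    have a3 : z.im - w.im < s := by omega
    have a4 : -(s : ℤ) < z.im - w.im := by omega
    nlinarith

theorem shift (c a : GaussianInt) (N r : ℕ) (ha : a ≠ 0) (h : nm a ≤ r ^ 2) :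
    mul (Sq c N) a ≤ 1 + mul ((Sq 0 (N + r)).erase 0) a := by
  classical
  have h1 : mul (Sq c N) a ≤ mul (Sq 0 (N + r)) a := by
    have hlt : nm (c % a) < nm a := GaussianInt.natAbs_norm_mod_lt c ha
    have h2 : (nm (c % a) : ℤ) < (r : ℤ) ^ 2 := by exact_mod_cast hlt.trans_le h
    rw [nm_cast] at h2
    have b1 := abs_lt_of_sq_lt_sq' (a := (c % a).re) (b := r)
      (by nlinarith [mul_self_nonneg (c % a).im]) (by positivity)
    have b2 := abs_lt_of_sq_lt_sq' (a := (c % a).im) (b := r)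
      (by nlinarith [mul_self_nonneg (c % a).re]) (by positivity)
    refine card_le_card_of_injOn (fun z => z - c + c % a) ?_ ?_
    · intro z hz
      obtain ⟨hz, dz⟩ := mem_filter.1 hz
      have hz := mem_Sq.1 hz
      refine mem_filter.2 ⟨mem_Sq.2 ?_, ?_⟩
      · simp only [Zsqrtd.re_add, Zsqrtd.re_sub, Zsqrtd.im_add, Zsqrtd.im_sub, Zsqrtd.re_zero,
          Zsqrtd.im_zero]
        push_cast; omega
      · rw [GaussianInt.mod_def]
        have : z - c + (c - a * (c / a)) = z - a * (c / a) := by ring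
        simp only [this]
        exact dvd_sub dz (dvd_mul_right _ _)
    · intro z _ w _ e
      simpa using e
  refine h1.trans ?_
  unfold mul
  rw [filter_erase]
  exact tsub_le_iff_left.1 pred_card_le_card_erase

theorem exP (Y : ℕ) : ∃ P : Finset GaussianInt, Reps P ∧ P.card ≤ 2 * Nat.primeCounting Y ∧
    ∀ q, Prime q → nm q ≤ Y → ∃ a ∈ P, Associated a q := by
  classical
  obtain ⟨rep, hrep⟩ : ∃ rep : Associates GaussianInt → GaussianInt,
      ∀ x, Associates.mk (rep x) = x := ⟨_, Function.rightInverse_surjInv Associates.mk_surjective⟩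
  have hr : ∀ q, Associated (rep (Associates.mk q)) q := fun q =>
    Associates.mk_eq_mk_iff_associated.1 (hrep _)
  obtain ⟨P, hP⟩ : ∃ P : Finset GaussianInt, P = ((Sq 0 (Y + 1)).filter
      (fun q => Prime q ∧ nm q ≤ Y)).image (fun q => rep (Associates.mk q)) := ⟨_, rfl⟩
  have hmem : ∀ a ∈ P, Prime a ∧ nm a ≤ Y ∧ rep (Associates.mk a) = a := by
    intro a ha
    rw [hP, mem_image] at ha
    obtain ⟨q, hq, rfl⟩ := ha
    obtain ⟨-, h1, h2⟩ := mem_filter.1 hq
    exact ⟨(hr q).symm.prime h1, by rwa [nm_assoc (hr q)], by rw [hrep]⟩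
  have hR : Reps P := by
    refine ⟨fun a ha => (hmem a ha).1, fun a ha b hb hab => ?_⟩
    have := Associates.mk_eq_mk_iff_associated.2
      ((hmem a ha).1.associated_of_dvd (hmem b hb).1 hab)
    rw [← (hmem a ha).2.2, this, (hmem b hb).2.2]
  refine ⟨P, hR, ?_, ?_⟩
  · have hex : ∀ a : GaussianInt, ∃ p : ℕ, Prime a → p.Prime ∧ p ≤ nm a ∧ a ∣ p := by
      intro a
      by_cases ha : Prime a
      · have h1 : a ∣ ((nm a : ℕ) : GaussianInt) := by
          refine ⟨star a, ?_⟩
          rw [← Zsqrtd.norm_eq_mul_conj, ← GaussianInt.abs_natCast_norm]; rfl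
        have h0 := nm_pos ha.ne_zero
        rw [← Nat.prod_primeFactorsList h0.ne', Nat.cast_list_prod, ha.dvd_prod_iff] at h1
        obtain ⟨x, hx, hd⟩ := h1
        obtain ⟨p, hp, rfl⟩ := List.mem_map.1 hx
        exact ⟨p, fun _ => ⟨Nat.prime_of_mem_primeFactorsList hp,
          Nat.le_of_mem_primeFactorsList hp, hd⟩⟩
      · exact ⟨0, fun h => absurd h ha⟩
    choose g hg using hex
    rw [← Nat.primesLE_card_eq_primeCounting]
    refine card_le_mul_card_image_of_maps_to (f := g) (fun a ha => ?_) 2 fun p hp => ?_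
    · have := hg a (hmem a ha).1
      exact Nat.mem_primesLE.2 ⟨this.2.1.trans (hmem a ha).2.1, this.1⟩
    · have pp := (Nat.mem_primesLE.1 hp).2
      have hF : Reps (P.filter fun a => g a = p) :=
        ⟨fun a ha => hR.1 a (mem_filter.1 ha).1,
          fun a ha b hb => hR.2 a (mem_filter.1 ha).1 b (mem_filter.1 hb).1⟩
      have hd : ∀ a ∈ P.filter fun a => g a = p, a ∣ (p : GaussianInt) := fun a ha => by
        have := (hg a (hF.1 a ha)).2.2
        rwa [(mem_filter.1 ha).2] at this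
      have h1 := nm_le (prod_dvd _ hF (fun _ => 1) p (by simpa using hd))
        (by exact_mod_cast pp.ne_zero)
      rw [map_prod, nm_nat] at h1
      have h2 := Finset.pow_card_le_prod (P.filter fun a => g a = p) (fun a => nm (a ^ 1)) p (by
        intro a ha
        have h3 := nm_dvd (hd a ha)
        have h4 := nm_prime (hF.1 a ha)
        rw [nm_nat, Nat.dvd_prime_pow pp] at h3
        obtain ⟨i, -, hi⟩ := h3
        rw [pow_one, hi]
        rcases i with _ | i
        · simp at hi; omega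
        · exact Nat.le_self_pow (by omega) p)
      exact (Nat.pow_le_pow_iff_right pp.one_lt).1 (h2.trans h1)
  · intro q hq hY
    refine ⟨_, ?_, hr q⟩
    rw [hP]
    refine mem_image.2 ⟨q, mem_filter.2 ⟨mem_Sq.2 ?_, hq, hY⟩, rfl⟩
    have h1 : (nm q : ℤ) ≤ Y := by exact_mod_cast hY
    rw [nm_cast] at h1
    simp only [Zsqrtd.re_zero, Zsqrtd.im_zero, sub_zero]
    push_cast
    refine ⟨?_, ?_, ?_, ?_⟩ <;> nlinarith [mul_self_nonneg q.re, mul_self_nonneg q.im]

theorem sum_cnt (S : Finset GaussianInt) (K : ℕ) (a : GaussianInt) :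
    ∑ n ∈ S, cnt K a n = ∑ k ∈ Icc 1 K, mul S (a ^ k) := by
  classical
  simp only [cnt, mul, card_filter]
  exact sum_comm

open Classical in
theorem main (c : GaussianInt) (t s Y w W : ℕ) (hs : 0 < s) (hw : 0 < w) (hW : 0 < W)
    (h1 : ∀ n ∈ Sq c (t * s), w ≤ nm n ∧ nm n ≤ W) :
    (((Sq c (t * s)).filter (fun n => ∀ q, Prime q → q ∣ n → nm q ≤ Y)).card : ℝ) * Real.log w ≤
      (2 * t + 1) ^ 2 * (2 * Nat.primeCounting Y) * Real.log W +
      (2 * ((t + 2) * s)) ^ 2 * Real.log (2 * ((t + 2) * s) ^ 2) := by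
  obtain ⟨P, hP, hc, hq⟩ := exP Y
  have h0 : ∀ n ∈ Sq c (t * s), n ≠ 0 := by
    intro n hn e
    have := (h1 n hn).1
    rw [e] at this
    have h2 : nm 0 = 0 := rfl
    omega
  have hl : ∀ a : GaussianInt, 0 ≤ Real.log (nm a) := fun a => Real.log_natCast_nonneg _
  obtain ⟨Q, hQ⟩ : ∃ Q, Q = (Sq 0 (t * s + 2 * s)).erase 0 := ⟨_, rfl⟩
  have s1 : (((Sq c (t * s)).filter (fun n => ∀ q, Prime q → q ∣ n → nm q ≤ Y)).card : ℝ) *
      Real.log w ≤ ∑ n ∈ Sq c (t * s), ∑ a ∈ P, (cnt W a n : ℝ) * Real.log (nm a) := by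
    rw [← nsmul_eq_mul, ← sum_const]
    refine le_trans (sum_le_sum fun n hn => ?_) (sum_le_sum_of_subset_of_nonneg (filter_subset _ _)
      fun n _ _ => sum_nonneg fun a _ => mul_nonneg (by positivity) (hl a))
    obtain ⟨hn, hsm⟩ := mem_filter.1 hn
    refine le_trans (Real.log_le_log (by exact_mod_cast hw) (by exact_mod_cast (h1 n hn).1))
      (down P W n (h0 n hn) ((h1 n hn).2.trans Nat.lt_two_pow_self.le) fun q a b => hq q a (hsm q a b))
  have s2 : ∀ a ∈ P, ∀ k, mul (Sq c (t * s)) (a ^ k) ≤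
      (2 * t + 1) ^ 2 * (if nm a ^ k ≤ W then 1 else 0) + mul Q (a ^ k) := by
    intro a ha k
    split_ifs with hk
    · by_cases h2 : nm (a ^ k) ≤ (2 * s) ^ 2
      · have := shift c (a ^ k) (t * s) (2 * s) (pow_ne_zero _ (hP.1 a ha).ne_zero) h2
        rw [← hQ] at this
        have h3 : 1 ≤ (2 * t + 1) ^ 2 := Nat.one_le_pow _ _ (by omega)
        omega
      · have := cell c (a ^ k) (t * s) s hs (by nlinarith)
        rw [← mul_assoc, Nat.mul_div_cancel _ hs] at this
        omega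
    · have : mul (Sq c (t * s)) (a ^ k) = 0 := by
        unfold mul
        rw [card_eq_zero, filter_eq_empty_iff]
        intro n hn hd
        have := (nm_le hd (h0 n hn)).trans (h1 n hn).2
        rw [map_pow] at this
        exact hk this
      omega
  have s3 : ∀ a ∈ P, (∑ n ∈ Sq c (t * s), (cnt W a n : ℝ)) * Real.log (nm a) ≤
      (2 * t + 1) ^ 2 * Real.log W + (∑ n ∈ Q, (cnt W a n : ℝ)) * Real.log (nm a) := by
    intro a ha
    have e1 := sum_le_sum (s := Icc 1 W) fun k _ => s2 a ha k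
    rw [sum_add_distrib, ← mul_sum, ← sum_cnt, ← sum_cnt, ← card_filter] at e1
    have e2 := dc W (fun k => nm a ^ k ≤ W) (by simp; omega) fun k l hkl h =>
      (Nat.pow_le_pow_right (nm_pos (hP.1 a ha).ne_zero) hkl).trans h
    obtain ⟨e, he⟩ : ∃ e, e = ((Icc 1 W).filter fun k => nm a ^ k ≤ W).card := ⟨_, rfl⟩
    rw [← he] at e1 e2
    have e3 : (e : ℝ) * Real.log (nm a) ≤ Real.log W := by
      rw [← Real.log_pow]
      exact Real.log_le_log (pow_pos (by exact_mod_cast nm_pos (hP.1 a ha).ne_zero) _)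
        (by exact_mod_cast e2)
    have e4 : (∑ n ∈ Sq c (t * s), (cnt W a n : ℝ)) ≤
        (2 * t + 1) ^ 2 * e + ∑ n ∈ Q, (cnt W a n : ℝ) := by exact_mod_cast e1
    have e5 := mul_le_mul_of_nonneg_right e4 (hl a)
    have e6 := mul_le_mul_of_nonneg_left e3 (show (0 : ℝ) ≤ (2 * t + 1) ^ 2 by positivity)
    nlinarith
  have s4 : ∑ a ∈ P, (∑ n ∈ Q, (cnt W a n : ℝ)) * Real.log (nm a) ≤
      (2 * ((t + 2) * s)) ^ 2 * Real.log (2 * ((t + 2) * s) ^ 2) := by
    simp only [sum_mul]
    rw [sum_comm]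
    have hpos : (1 : ℝ) ≤ (t + 2) * s := by exact_mod_cast (show 1 ≤ (t + 2) * s from Nat.mul_pos (by omega) hs)
    have b1 : ∀ n ∈ Q, ∑ a ∈ P, (cnt W a n : ℝ) * Real.log (nm a) ≤
        Real.log (2 * ((t + 2) * s) ^ 2) := by
      intro n hn
      rw [hQ] at hn
      obtain ⟨n0, hn⟩ := mem_erase.1 hn
      refine (up P hP W n n0).trans (Real.log_le_log (by exact_mod_cast nm_pos n0) ?_)
      have hn := mem_Sq.1 hn
      simp only [Zsqrtd.re_zero, Zsqrtd.im_zero, sub_zero] at hn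
      push_cast at hn
      have : (nm n : ℤ) ≤ 2 * ((t + 2) * s) ^ 2 := by rw [nm_cast]; nlinarith
      exact_mod_cast this
    refine (sum_le_card_nsmul _ _ _ b1).trans ?_
    rw [nsmul_eq_mul]
    refine mul_le_mul_of_nonneg_right ?_ (Real.log_nonneg (by nlinarith))
    have : Q.card ≤ (2 * ((t + 2) * s)) ^ 2 := by
      rw [hQ]
      refine card_erase_le.trans ?_
      rw [card_Sq]
      exact Nat.pow_le_pow_left (by rw [add_mul]; omega) 2
    exact_mod_cast this
  rw [sum_comm] at s1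
  simp only [← sum_mul] at s1
  have s5 := sum_le_sum s3
  rw [sum_add_distrib, sum_const, nsmul_eq_mul] at s5
  have s6 : (P.card : ℝ) ≤ 2 * Nat.primeCounting Y := by exact_mod_cast hc
  have s7 := mul_le_mul_of_nonneg_right s6
    (show (0 : ℝ) ≤ (2 * t + 1) ^ 2 * Real.log W from
      mul_nonneg (by positivity) (Real.log_natCast_nonneg _))
  nlinarith

end Pool.Agent.H48.GS
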