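import Mathlib

set_option autoImplicit false

namespace Pool.Agent.H48.GrA

open Polynomial TensorProduct

/-- elements of a finite type unramified algebra over a domain are algebraic -/
lemma alg_of_unram (R B : Type) [CommRing R] [IsDomain R] [CommRing B] [Algebra R B]
    [Algebra.FiniteType R B] [Algebra.FormallyUnramified R B] (b : B) :
    ∃ P : R[X], P ≠ 0 ∧ aeval b P = 0 := by
  let K := FractionRing R
  have : Module.Finite K (K ⊗[R] B) := Algebra.FormallyUnramified.finite_of_free K _
  have h1 : IsIntegral K ((1 : K) ⊗ₜ[R] b) := Algebra.IsIntegral.isIntegral _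
  have h2 : IsAlgebraic R ((1 : K) ⊗ₜ[R] b) :=
    (IsFractionRing.isAlgebraic_iff R K _).2 h1.isAlgebraic
  obtain ⟨P, hP, h0⟩ := h2
  have h3 : (TensorProduct.mk R K B 1) (aeval b P) = 0 := by
    have := Polynomial.aeval_algHom_apply
      (Algebra.TensorProduct.includeRight : B →ₐ[R] K ⊗[R] B) b P
    rw [Algebra.TensorProduct.includeRight_apply, h0] at this
    exact this.symm
  obtain ⟨r, hr⟩ := (IsLocalizedModule.eq_zero_iff (nonZeroDivisors R)
    (TensorProduct.mk R K B 1)).1 h3
  refine ⟨C (r : R) * P, mul_ne_zero (C_ne_zero.2 (nonZeroDivisors.ne_zero r.2)) hP, ?_⟩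
  rw [map_mul, aeval_C, ← Algebra.smul_def]
  exact hr

lemma unram (R B A : Type) [CommRing R] [CommRing B] [Algebra R B] [Fintype A] [DecidableEq A]
    (g : A → B) (N : Matrix A A B) (c : A → R) (μ : A → A → R)
    (heq : ∀ j, g j * (algebraMap R B (c j) + ∑ k, algebraMap R B (μ j k) * g k) = -1)
    (hN : N * (1 - Matrix.of fun j k => g j ^ 2 * algebraMap R B (μ j k)) = 1)
    (s : Set B) (hs : Algebra.adjoin R s = ⊤)
    (hgen : ∀ x ∈ s, (∃ j, x = g j) ∨ ∃ i j, x = N i j) :
    Algebra.FormallyUnramified R B := by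
  set J : Matrix A A B := 1 - Matrix.of fun j k => g j ^ 2 * algebraMap R B (μ j k) with hJ
  have hN' : J * N = 1 := mul_eq_one_comm.1 hN
  let D := KaehlerDifferential.D R B
  have h1 : ∀ j, ∑ k, J j k • D (g k) = 0 := by
    intro j
    have e := congrArg D (heq j)
    have e2 : D (algebraMap R B (c j) + ∑ k, algebraMap R B (μ j k) * g k)
        = ∑ k, algebraMap R B (μ j k) • D (g k) := by
      rw [map_add, map_sum, D.map_algebraMap, zero_add]
      refine Finset.sum_congr rfl fun k _ => ?_
      rw [D.leibniz, D.map_algebraMap, smul_zero, add_zero]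
    rw [D.leibniz, e2, map_neg, D.map_one_eq_zero, neg_zero] at e
    have e3 := congrArg (fun v => g j • v) e
    simp only [smul_add, smul_zero, smul_smul] at e3
    rw [heq j] at e3
    have e4 : ∑ k, J j k • D (g k)
        = D (g j) - (g j * g j) • ∑ k, algebraMap R B (μ j k) • D (g k) := by
      simp only [hJ, Matrix.sub_apply, Matrix.of_apply, sub_smul, Finset.sum_sub_distrib,
        Matrix.one_apply, ite_smul, one_smul, zero_smul, Finset.sum_ite_eq, Finset.mem_univ,
        if_true, Finset.smul_sum, smul_smul, sq]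
    rw [e4]
    have : (-1 : B) • D (g j) = - D (g j) := by simp
    rw [this] at e3
    rw [sub_eq_zero]
    exact (add_neg_eq_zero.1 e3).symm
  have h2 : ∀ i, D (g i) = 0 := by
    intro i
    have : ∑ j, N i j • ∑ k, J j k • D (g k) = 0 := by simp [h1]
    simp only [Finset.smul_sum, smul_smul] at this
    rw [Finset.sum_comm] at this
    simp only [← Finset.sum_smul, ← Matrix.mul_apply, hN, Matrix.one_apply, ite_smul, one_smul,
      zero_smul, Finset.sum_ite_eq, Finset.mem_univ, if_true] at this
    exact this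
  have h3 : ∀ j k, D (J j k) = 0 := by
    intro j k
    simp only [hJ, Matrix.sub_apply, Matrix.of_apply, map_sub, D.leibniz, D.map_algebraMap, sq,
      h2, smul_zero, add_zero, Matrix.one_apply]
    split_ifs <;> simp
  have h4 : ∀ i k, ∑ j, J j k • D (N i j) = 0 := by
    intro i k
    have e := congrArg (fun Z : Matrix A A B => D (Z i k)) hN
    simp only [Matrix.mul_apply, map_sum, D.leibniz, h3, smul_zero, zero_add,
      Matrix.one_apply] at e
    rw [e]
    split_ifs <;> simp
  have h5 : ∀ i l, D (N i l) = 0 := by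
    intro i l
    have : ∑ k, N k l • ∑ j, J j k • D (N i j) = 0 := by simp [h4]
    simp only [Finset.smul_sum, smul_smul] at this
    rw [Finset.sum_comm] at this
    simp only [← Finset.sum_smul, mul_comm (N _ l), ← Matrix.mul_apply, hN', Matrix.one_apply,
      ite_smul, one_smul, zero_smul, Finset.sum_ite_eq', Finset.mem_univ, if_true] at this
    exact this
  have h6 : D = 0 := by
    refine Derivation.ext_of_adjoin_eq_top s hs fun x hx => ?_
    rcases hgen x hx with ⟨j, rfl⟩ | ⟨i, j, rfl⟩
    · simpa using h2 j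
    · simpa using h5 i j
  refine ⟨?_⟩
  have h7 := KaehlerDifferential.span_range_derivation R B
  have h8 : Submodule.span B (Set.range (KaehlerDifferential.D R B)) = ⊥ := by
    rw [Submodule.span_eq_bot]
    rintro _ ⟨x, rfl⟩
    change D x = 0
    rw [h6]; rfl
  rw [h8] at h7
  exact (Submodule.subsingleton_iff B).1 (subsingleton_of_bot_eq_top h7)

/-- algebraicity of a nondegenerate family of solutions -/
lemma alg_fun (S A : Type) [Fintype A] [DecidableEq A] (ζ : S → ℂ) (g : A → S → ℂ)
    (w : A → ℂ) (μ : A → A → ℂ)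
    (heq : ∀ s j, g j s * (ζ s - w j + ∑ k, μ j k * g k s) = -1)
    (hN : ∀ s, ∃ N : Matrix A A ℂ, N * (1 - Matrix.of fun j k => g j s ^ 2 * μ j k) = 1)
    (j : A) :
    ∃ P : ℂ[X][X], P ≠ 0 ∧ ∀ s, (P.map (evalRingHom (ζ s))).eval (g j s) = 0 := by
  choose N hN using hN
  let : Algebra ℂ[X] (S → ℂ) := (Polynomial.aeval (R := ℂ) ζ).toRingHom.toAlgebra
  have ham : ∀ (p : ℂ[X]) s, algebraMap ℂ[X] (S → ℂ) p s = p.eval (ζ s) := by
    intro p s
    change (Polynomial.aeval (R := ℂ) ζ p) s = _
    have := Polynomial.aeval_algHom_apply (Pi.evalAlgHom ℂ (fun _ : S => ℂ) s) ζ p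
    simp
  let T : Set (S → ℂ) := Set.range g ∪ Set.range fun ij : A × A => fun s => N s ij.1 ij.2
  have hT : T.Finite := (Set.finite_range _).union (Set.finite_range _)
  let B := Algebra.adjoin ℂ[X] T
  have : Algebra.FiniteType ℂ[X] B :=
    (Subalgebra.fg_iff_finiteType _).1 (Subalgebra.fg_def.2 ⟨T, hT, rfl⟩)
  let g' : A → B := fun k => ⟨g k, Algebra.subset_adjoin (Or.inl ⟨k, rfl⟩)⟩
  let N' : Matrix A A B := Matrix.of fun i k =>
    ⟨fun s => N s i k, Algebra.subset_adjoin (Or.inr ⟨(i, k), rfl⟩)⟩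
  let ev : S → (B →+* ℂ) := fun s => (Pi.evalRingHom (fun _ : S => ℂ) s).comp B.val.toRingHom
  have hev : ∀ x y : B, (∀ s, ev s x = ev s y) → x = y := fun x y h => Subtype.ext (funext h)
  have hev1 : ∀ s p, ev s (algebraMap ℂ[X] B p) = p.eval (ζ s) := fun s p => ham p s
  have hev2 : ∀ s k, ev s (g' k) = g k s := fun s k => rfl
  have hev3 : ∀ s i k, ev s (N' i k) = N s i k := fun s i k => rfl
  have : Algebra.FormallyUnramified ℂ[X] B := by
    refine unram ℂ[X] B A g' N' (fun k => X - C (w k)) (fun i k => C (μ i k)) ?_ ?_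
      (((↑) : B → (S → ℂ)) ⁻¹' T) Algebra.adjoin_adjoin_coe_preimage ?_
    · intro i
      refine hev _ _ fun s => ?_
      simp only [map_mul, map_add, map_sum, hev1, hev2, map_neg, map_one, eval_sub, eval_X, eval_C]
      exact heq s i
    · ext i k
      refine congrFun (congrArg Subtype.val (hev _ _ fun s => ?_)) _
      have := congrFun (congrFun (hN s) i) k
      simp only [Matrix.mul_apply, Matrix.sub_apply, Matrix.of_apply, Matrix.one_apply] at this
      simp only [Matrix.mul_apply, Matrix.sub_apply, map_sum, map_mul, map_sub, hev3,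
        Matrix.of_apply, map_pow, hev2, hev1, eval_C, Matrix.one_apply, apply_ite (ev s), map_one,
        map_zero]
      exact this
    · rintro x (⟨k, hk⟩ | ⟨⟨i, k⟩, hk⟩)
      · exact Or.inl ⟨k, Subtype.ext hk.symm⟩
      · exact Or.inr ⟨i, k, Subtype.ext hk.symm⟩
  obtain ⟨P, hP, h0⟩ := alg_of_unram ℂ[X] B (g' j)
  refine ⟨P, hP, fun s => ?_⟩
  have := congrArg (ev s) h0
  rw [aeval_def, Polynomial.hom_eval₂, map_zero, hev2] at this
  rw [eval_map, ← this]
  congr 1
  exact RingHom.ext fun p => (hev1 s p).symm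

/-- remove the common factor vanishing at `E` -/
lemma strip (S : Type) (ζ u : S → ℂ) (E : ℂ) (hE : ∀ s, ζ s ≠ E) :
    ∀ (n : ℕ) (P : ℂ[X][X]), P.leadingCoeff.natDegree = n → P ≠ 0 →
      (∀ s, (P.map (evalRingHom (ζ s))).eval (u s) = 0) →
      ∃ Q : ℂ[X][X], Q.map (evalRingHom E) ≠ 0 ∧
        ∀ s, (Q.map (evalRingHom (ζ s))).eval (u s) = 0 := by
  intro n
  induction n using Nat.strong_induction_on with
  | _ n ih =>
    intro P hn hP h
    by_cases h0 : P.map (evalRingHom E) = 0
    · have hd : C (X - C E) ∣ P := by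
        rw [C_dvd_iff_dvd_coeff]
        intro i
        rw [dvd_iff_isRoot]
        have := congrArg (fun Q => coeff Q i) h0
        simpa using this
      obtain ⟨P', rfl⟩ := hd
      have hP' : P' ≠ 0 := right_ne_zero_of_mul hP
      refine ih P'.leadingCoeff.natDegree ?_ P' rfl hP' fun s => ?_
      · rw [← hn, leadingCoeff_mul, leadingCoeff_C,
          natDegree_mul (X_sub_C_ne_zero E) (leadingCoeff_ne_zero.2 hP'), natDegree_X_sub_C]
        omega
      · have := h s
        simp only [Polynomial.map_mul, map_C, eval_mul, eval_C, coe_evalRingHom, eval_sub,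
          eval_X] at this
        exact (mul_eq_zero.1 this).resolve_left (sub_ne_zero.2 (hE s))
    · exact ⟨P, h0, h⟩

end Pool.Agent.H48.GrA
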