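import Mathlib
import Pool.Agent.H48.GrA

set_option autoImplicit false

namespace Pool.Agent.H48.GrB

open Polynomial Filter Topology

variable {A : Type} [Fintype A]

def den (μ : A → A → ℝ) (w : A → ℝ) (z : ℂ) (g : A → ℂ) (j : A) : ℂ :=
  z - w j + ∑ k, (μ j k : ℂ) * g k

def IsSol (μ : A → A → ℝ) (w : A → ℝ) (z : ℂ) (g : A → ℂ) : Prop :=
  ∀ j, 0 < (g j).im ∧ g j * den μ w z g j = -1

lemma den_im (μ : A → A → ℝ) (w : A → ℝ) (z : ℂ) (g : A → ℂ) (j : A) :
    (den μ w z g j).im = z.im + ∑ k, μ j k * (g k).im := by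
  simp [den, Complex.im_sum]

lemma im_neg_inv (a : ℂ) : (-a⁻¹).im = a.im / ‖a‖ ^ 2 := by
  rw [Complex.neg_im, Complex.inv_im, Complex.normSq_eq_norm_sq]; ring

noncomputable def q (u v : ℂ) : ℝ := ‖u - v‖ ^ 2 / (u.im * v.im)

lemma q_inv (a b : ℂ) (ha : 0 < a.im) (hb : 0 < b.im) : q (-a⁻¹) (-b⁻¹) = q a b := by
  have ha0 : a ≠ 0 := by rintro rfl; simp at ha
  have hb0 : b ≠ 0 := by rintro rfl; simp at hb
  have h1 : -a⁻¹ - -b⁻¹ = (a - b) / (a * b) := by field_simp; ring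
  have ha1 : ‖a‖ ≠ 0 := norm_ne_zero_iff.2 ha0
  have hb1 : ‖b‖ ≠ 0 := norm_ne_zero_iff.2 hb0
  rw [q, q, im_neg_inv, im_neg_inv, h1, norm_div, norm_mul]
  field_simp

noncomputable def Phi (μ : A → A → ℝ) (w : A → ℝ) (z : ℂ) (g : A → ℂ) : A → ℂ :=
  fun j => -(den μ w z g j)⁻¹

noncomputable def D (g h : A → ℂ) : ℝ := ‖fun k => q (g k) (h k)‖

lemma contr (μ : A → A → ℝ) (hμ : ∀ j k, 0 ≤ μ j k) (w : A → ℝ) (z : ℂ) (hz : 0 < z.im)
    (g h : A → ℂ) (hg : ∀ k, 0 < (g k).im) (hh : ∀ k, 0 < (h k).im) (hD : 0 < D g h) :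
    D (Phi μ w z g) (Phi μ w z h) < D g h := by
  set δ := D g h with hδ
  have h1 : ∀ k, ‖g k - h k‖ ^ 2 ≤ δ * ((g k).im * (h k).im) := by
    intro k
    have : q (g k) (h k) ≤ δ := (le_abs_self _).trans (norm_le_pi_norm (fun k => q (g k) (h k)) k)
    rwa [q, div_le_iff₀ (mul_pos (hg k) (hh k))] at this
  refine (pi_norm_lt_iff hD).2 fun j => ?_
  set P := ∑ k, μ j k * (g k).im with hP
  set Q := ∑ k, μ j k * (h k).im with hQ
  have hP0 : 0 ≤ P := Finset.sum_nonneg fun k _ => mul_nonneg (hμ j k) (hg k).le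
  have hQ0 : 0 ≤ Q := Finset.sum_nonneg fun k _ => mul_nonneg (hμ j k) (hh k).le
  have ha : (den μ w z g j).im = z.im + P := den_im ..
  have hb : (den μ w z h j).im = z.im + Q := den_im ..
  have ha0 : 0 < (den μ w z g j).im := by rw [ha]; linarith
  have hb0 : 0 < (den μ w z h j).im := by rw [hb]; linarith
  have h2 : ‖den μ w z g j - den μ w z h j‖ ≤ ∑ k, μ j k * ‖g k - h k‖ := by
    have : den μ w z g j - den μ w z h j = ∑ k, (μ j k : ℂ) * (g k - h k) := by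
      simp only [den, mul_sub, Finset.sum_sub_distrib]; ring
    rw [this]
    refine (norm_sum_le _ _).trans (le_of_eq (Finset.sum_congr rfl fun k _ => ?_))
    rw [norm_mul, Complex.norm_real, Real.norm_of_nonneg (hμ j k)]
  have h3 : (∑ k, μ j k * ‖g k - h k‖) ^ 2
      ≤ (∑ k, δ * (μ j k * (g k).im)) * ∑ k, μ j k * (h k).im := by
    refine Finset.sum_sq_le_sum_mul_sum_of_sq_le_mul _
      (fun k _ => mul_nonneg hD.le (mul_nonneg (hμ j k) (hg k).le))
      (fun k _ => mul_nonneg (hμ j k) (hh k).le) fun k _ => ?_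
    have := mul_le_mul_of_nonneg_left (h1 k) (sq_nonneg (μ j k))
    nlinarith [this]
  rw [← Finset.mul_sum] at h3
  have h4 : ‖den μ w z g j - den μ w z h j‖ ^ 2 ≤ δ * P * Q :=
    (pow_le_pow_left₀ (norm_nonneg _) h2 2).trans h3
  change ‖q (-(den μ w z g j)⁻¹) (-(den μ w z h j)⁻¹)‖ < δ
  rw [q_inv _ _ ha0 hb0, q, Real.norm_of_nonneg (div_nonneg (sq_nonneg _) (mul_pos ha0 hb0).le),
    div_lt_iff₀ (mul_pos ha0 hb0), ha, hb]
  have : P * Q < (z.im + P) * (z.im + Q) := by nlinarith [mul_pos hz hz]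
  nlinarith [mul_lt_mul_of_pos_left this hD]

lemma eq_of_D (g h : A → ℂ) (hg : ∀ k, 0 < (g k).im) (hh : ∀ k, 0 < (h k).im)
    (hD : ¬ 0 < D g h) : g = h := by
  have h0 : D g h = 0 := le_antisymm (not_lt.1 hD) (norm_nonneg _)
  funext k
  have := congrFun (norm_eq_zero.1 h0) k
  simp only [q, Pi.zero_apply, div_eq_zero_iff, (mul_pos (hg k) (hh k)).ne', or_false] at this
  simpa [sub_eq_zero] using this

lemma IsSol.fix {μ : A → A → ℝ} {w : A → ℝ} {z : ℂ} {g : A → ℂ} (h : IsSol μ w z g) :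
    Phi μ w z g = g := by
  funext j
  have h1 := (h j).2
  have h2 : den μ w z g j ≠ 0 := by rintro h0; simp [h0] at h1
  simp only [Phi]
  field_simp
  linear_combination -h1

lemma uniq (μ : A → A → ℝ) (hμ : ∀ j k, 0 ≤ μ j k) (w : A → ℝ) (z : ℂ) (hz : 0 < z.im)
    (g h : A → ℂ) (hg : IsSol μ w z g) (hh : IsSol μ w z h) : g = h := by
  refine eq_of_D g h (fun k => (hg k).1) (fun k => (hh k).1) fun hD => ?_
  have := contr μ hμ w z hz g h (fun k => (hg k).1) (fun k => (hh k).1) hD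
  rw [hg.fix, hh.fix] at this
  exact lt_irrefl _ this

lemma den_im_ge (μ : A → A → ℝ) (hμ : ∀ j k, 0 ≤ μ j k) (w : A → ℝ) (z : ℂ)
    (g : A → ℂ) (hg : ∀ k, 0 ≤ (g k).im) (j : A) : z.im ≤ (den μ w z g j).im := by
  rw [den_im]
  exact le_add_of_nonneg_right (Finset.sum_nonneg fun k _ => mul_nonneg (hμ j k) (hg k))

lemma Phi_norm (μ : A → A → ℝ) (hμ : ∀ j k, 0 ≤ μ j k) (w : A → ℝ) (z : ℂ) (hz : 0 < z.im)
    (g : A → ℂ) (hg : ∀ k, 0 ≤ (g k).im) (j : A) : ‖Phi μ w z g j‖ ≤ (z.im)⁻¹ := by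
  simp only [Phi, norm_neg, norm_inv]
  exact inv_anti₀ hz ((den_im_ge μ hμ w z g hg j).trans
    ((le_abs_self _).trans (Complex.abs_im_le_norm _)))

lemma exist (μ : A → A → ℝ) (hμ : ∀ j k, 0 ≤ μ j k) (w : A → ℝ) (z : ℂ) (hz : 0 < z.im) :
    ∃ g, IsSol μ w z g := by
  let R : A → ℝ := fun j => ‖z - w j‖ + ∑ k, μ j k * (z.im)⁻¹
  let K : Set (A → ℂ) := Set.pi Set.univ fun j =>
    Metric.closedBall 0 (z.im)⁻¹ ∩ {u | z.im / R j ^ 2 ≤ u.im}
  have hK : IsCompact K := isCompact_univ_pi fun j =>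
    (isCompact_closedBall _ _).inter_right (isClosed_le continuous_const Complex.continuous_im)
  have hR : ∀ j, 0 < R j := by
    intro j
    have h1 : z.im ≤ ‖z - w j‖ := by
      have := (le_abs_self _).trans (Complex.abs_im_le_norm (z - w j))
      simpa using this
    have h2 : 0 ≤ ∑ k, μ j k * (z.im)⁻¹ :=
      Finset.sum_nonneg fun k _ => mul_nonneg (hμ j k) (inv_pos.2 hz).le
    simp only [R]; linarith
  have hmap : ∀ g : A → ℂ, (∀ k, 0 ≤ (g k).im) → (∀ k, ‖g k‖ ≤ (z.im)⁻¹) → Phi μ w z g ∈ K := by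
    intro g h1 h2 j _
    refine ⟨by simpa using Phi_norm μ hμ w z hz g h1 j, ?_⟩
    change z.im / R j ^ 2 ≤ (-(den μ w z g j)⁻¹).im
    have h3 := den_im_ge μ hμ w z g h1 j
    have h4 : ‖den μ w z g j‖ ≤ R j := by
      refine (norm_add_le _ _).trans (add_le_add_right ((norm_sum_le _ _).trans
        (Finset.sum_le_sum fun k _ => ?_)) _)
      rw [norm_mul, Complex.norm_real, Real.norm_of_nonneg (hμ j k)]
      exact mul_le_mul_of_nonneg_left (h2 k) (hμ j k)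
    have h5 : 0 < ‖den μ w z g j‖ :=
      (hz.trans_le h3).trans_le ((le_abs_self _).trans (Complex.abs_im_le_norm _))
    rw [im_neg_inv]
    exact div_le_div₀ (hz.le.trans h3) h3 (pow_pos h5 2) (pow_le_pow_left₀ h5.le h4 2)
  have hpos : ∀ g ∈ K, ∀ k, 0 < (g k).im := fun g hg k =>
    (div_pos hz (pow_pos (hR k) 2)).trans_le (hg k trivial).2
  have hinv : ∀ g ∈ K, Phi μ w z g ∈ K := fun g hg =>
    hmap g (fun k => (hpos g hg k).le) fun k => by simpa using (hg k trivial).1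
  have hne : K.Nonempty := ⟨_, hmap 0 (by simp) (by simp [hz.le])⟩
  have hden : ∀ g ∈ K, ∀ j, den μ w z g j ≠ 0 := by
    intro g hg j h0
    have := den_im_ge μ hμ w z g (fun k => (hpos g hg k).le) j
    rw [h0] at this
    simp at this
    linarith
  have hc1 : ∀ j, ContinuousOn (fun g => Phi μ w z g j) K := by
    intro j
    refine ContinuousOn.neg (ContinuousOn.inv₀ ?_ fun g hg => hden g hg j)
    unfold den
    fun_prop
  have hc : ContinuousOn (fun g => D g (Phi μ w z g)) K := by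
    refine ContinuousOn.norm (continuousOn_pi.2 fun k => ?_)
    have e1 : ContinuousOn (fun g : A → ℂ => g k) K := (continuous_apply k).continuousOn
    refine ContinuousOn.div ((e1.sub (hc1 k)).norm.pow 2)
      ((Complex.continuous_im.comp_continuousOn e1).mul
        (Complex.continuous_im.comp_continuousOn (hc1 k))) fun g hg => ?_
    exact (mul_pos (hpos g hg k) (hpos _ (hinv g hg) k)).ne'
  obtain ⟨g, hg, hmin⟩ := hK.exists_isMinOn hne hc
  have hfix : g = Phi μ w z g := by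
    refine eq_of_D _ _ (hpos g hg) (hpos _ (hinv g hg)) fun hD => ?_
    have := contr μ hμ w z hz _ _ (hpos g hg) (hpos _ (hinv g hg)) hD
    exact absurd (hmin (hinv g hg)) (not_le.2 this)
  refine ⟨g, fun j => ⟨hpos g hg j, ?_⟩⟩
  have h1 := congrFun hfix j
  simp only [Phi] at h1
  have h2 := hden g hg j
  calc g j * den μ w z g j = -(den μ w z g j)⁻¹ * den μ w z g j := by rw [← h1]
    _ = -1 := by field_simp

lemma IsSol.im_eq {μ : A → A → ℝ} {w : A → ℝ} {z : ℂ} {g : A → ℂ} (h : IsSol μ w z g) (j : A) :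
    (g j).im = ‖g j‖ ^ 2 * (z.im + ∑ k, μ j k * (g k).im) := by
  have h1 := (h j).2
  have h2 : g j ≠ 0 := by rintro h0; simp [h0] at h1
  have h3 : den μ w z g j = -(g j)⁻¹ := by field_simp; linear_combination h1
  rw [← den_im μ w, h3, im_neg_inv]
  have := norm_ne_zero_iff.2 h2
  field_simp

lemma IsSol.bound {μ : A → A → ℝ} (hμ : ∀ j k, 0 ≤ μ j k) {w : A → ℝ} {z : ℂ} (hz : 0 < z.im)
    {g : A → ℂ} (h : IsSol μ w z g) (j : A) (hj : 0 < μ j j) : ‖g j‖ ≤ 1 + (μ j j)⁻¹ := by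
  have h1 := h.im_eq j
  have h2 : μ j j * (g j).im ≤ ∑ k, μ j k * (g k).im :=
    Finset.single_le_sum (f := fun k => μ j k * (g k).im)
      (fun k _ => mul_nonneg (hμ j k) (h k).1.le) (Finset.mem_univ j)
  have h3 : ‖g j‖ ^ 2 * (μ j j * (g j).im) ≤ (g j).im := by
    conv_rhs => rw [h1]
    exact mul_le_mul_of_nonneg_left (by linarith) (sq_nonneg _)
  have h4 : ‖g j‖ ^ 2 * μ j j ≤ 1 := by
    have := (h j).1
    by_contra hc
    nlinarith [mul_lt_mul_of_pos_right (not_le.1 hc) this]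
  have h5 : ‖g j‖ ^ 2 ≤ (μ j j)⁻¹ := by
    rw [← one_div, le_div_iff₀ hj]; exact h4
  nlinarith [sq_nonneg (‖g j‖ - 1), norm_nonneg (g j), inv_pos.2 hj]

lemma IsSol.inv [DecidableEq A] {μ : A → A → ℝ} (hμ : ∀ j k, 0 ≤ μ j k) {w : A → ℝ} {z : ℂ}
    (hz : 0 < z.im) {g : A → ℂ} (h : IsSol μ w z g) :
    ∃ N : Matrix A A ℂ, N * (1 - Matrix.of fun j k => g j ^ 2 * (μ j k : ℂ)) = 1 := by
  set J : Matrix A A ℂ := 1 - Matrix.of fun j k => g j ^ 2 * (μ j k : ℂ) with hJ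
  have hdet : J.det ≠ 0 := by
    intro h0
    obtain ⟨u, hu, hu0⟩ := Matrix.exists_mulVec_eq_zero_iff.2 h0
    have h1 : ∀ j, u j = g j ^ 2 * ∑ k, (μ j k : ℂ) * u k := by
      intro j
      have := congrFun hu0 j
      rw [hJ, Matrix.sub_mulVec, Matrix.one_mulVec] at this
      simp only [Pi.sub_apply, Matrix.mulVec, dotProduct, Matrix.of_apply, Pi.zero_apply] at this
      rw [Finset.mul_sum, sub_eq_zero.1 this]
      exact Finset.sum_congr rfl fun k _ => by ring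
    obtain ⟨k0, hk0⟩ := Function.ne_iff.1 hu
    obtain ⟨j, -, hj⟩ := Finset.exists_max_image Finset.univ (fun k => ‖u k‖ / (g k).im)
      ⟨k0, Finset.mem_univ _⟩
    set c := ‖u j‖ / (g j).im with hc
    have hc0 : 0 < c := (div_pos (norm_pos_iff.2 hk0) (h k0).1).trans_le (hj k0 (Finset.mem_univ _))
    have h2 : ∀ k, ‖u k‖ ≤ c * (g k).im := fun k =>
      (div_le_iff₀ (h k).1).1 (hj k (Finset.mem_univ _))
    have h3 : ‖u j‖ = c * (g j).im := by rw [hc, div_mul_cancel₀ _ (h j).1.ne']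
    have h4 : ‖∑ k, (μ j k : ℂ) * u k‖ ≤ c * ∑ k, μ j k * (g k).im := by
      rw [Finset.mul_sum]
      refine (norm_sum_le _ _).trans (Finset.sum_le_sum fun k _ => ?_)
      rw [norm_mul, Complex.norm_real, Real.norm_of_nonneg (hμ j k)]
      nlinarith [mul_le_mul_of_nonneg_left (h2 k) (hμ j k)]
    have h5 := congrArg norm (h1 j)
    rw [norm_mul, norm_pow, h3, h.im_eq j] at h5
    have h6 : 0 < ‖g j‖ ^ 2 := by
      have : g j ≠ 0 := by
        intro h0
        have := (h j).1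
        simp [h0] at this
      positivity
    nlinarith [mul_le_mul_of_nonneg_left h4 h6.le, mul_pos (mul_pos h6 hc0) hz]
  exact ⟨J⁻¹, Matrix.nonsing_inv_mul _ (Ne.isUnit hdet)⟩

def H : Set ℂ := {z | 0 < z.im}

lemma isOpen_H : IsOpen H := isOpen_lt continuous_const Complex.continuous_im

lemma cont (μ : A → A → ℝ) (hμ : ∀ j k, 0 ≤ μ j k) (hd : ∀ j, 0 < μ j j) (w : A → ℝ)
    (γ : ℂ → A → ℂ) (hγ : ∀ z ∈ H, IsSol μ w z (γ z)) : ContinuousOn γ H := by
  intro z0 hz0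
  let K : Set (A → ℂ) := Set.pi Set.univ fun j => Metric.closedBall 0 (1 + (μ j j)⁻¹)
  have hK : IsCompact K := isCompact_univ_pi fun j => isCompact_closedBall _ _
  refine hK.tendsto_nhds_of_unique_mapClusterPt ?_ fun y _ hy => ?_
  · filter_upwards [self_mem_nhdsWithin] with z hz j _
    simpa using (hγ z hz).bound hμ hz j (hd j)
  · obtain ⟨U, hU, hy⟩ := mapClusterPt_iff_ultrafilter.1 hy
    have hz : Tendsto (fun z : ℂ => z) U (𝓝 z0) := hU.trans nhdsWithin_le_nhds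
    have hH : ∀ᶠ z in (U : Filter ℂ), z ∈ H := hU self_mem_nhdsWithin
    have h1 : ∀ j, 0 ≤ (y j).im := fun j =>
      ge_of_tendsto ((Complex.continuous_im.tendsto _).comp (tendsto_pi_nhds.1 hy j))
        (hH.mono fun z hz => ((hγ z hz) j).1.le)
    have h2 : ∀ j, y j * den μ w z0 y j = -1 := by
      intro j
      have hc : Continuous fun p : ℂ × (A → ℂ) => p.2 j * den μ w p.1 p.2 j := by
        unfold den; fun_prop
      have := (hc.tendsto (z0, y)).comp (hz.prodMk_nhds hy)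
      exact tendsto_nhds_unique this
        (tendsto_const_nhds.congr' (hH.mono fun z hz => ((hγ z hz) j).2.symm))
    refine uniq μ hμ w z0 hz0 _ _ (fun j => ⟨?_, h2 j⟩) (hγ z0 hz0)
    have h3 := (show (0:ℝ) < z0.im from hz0).trans_le (den_im_ge μ hμ w z0 y h1 j)
    have h4 : den μ w z0 y j ≠ 0 := by rintro h0; simp [h0] at h3
    have h5 : y j = -(den μ w z0 y j)⁻¹ := by field_simp; linear_combination h2 j
    rw [h5, im_neg_inv]
    have := norm_pos_iff.2 h4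
    positivity

lemma neBot (E : ℝ) : (𝓝[H] (E : ℂ)).NeBot := by
  refine mem_closure_iff_nhdsWithin_neBot.1 ?_
  rw [H, Complex.closure_setOfPred_lt_im]
  simp

/-- a bounded continuous algebraic function on the half plane has boundary limits -/
lemma lim_of_alg (f : ℂ → ℂ) (hf : ContinuousOn f H) (C : ℝ) (hC : ∀ z ∈ H, ‖f z‖ ≤ C)
    (P : ℂ[X][X]) (hP : P ≠ 0) (h0 : ∀ z : H, (P.map (evalRingHom (z : ℂ))).eval (f z) = 0)
    (E : ℝ) : ∃ y, Tendsto f (𝓝[H] (E : ℂ)) (𝓝 y) := by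
  have := neBot E
  obtain ⟨Q, hQ, hQ0⟩ := GrA.strip H (fun z => z) (fun z => f z) E
    (fun s hs => by have := s.2; rw [hs] at this; simp [H] at this) _ P rfl hP h0
  have hK : IsCompact (Metric.closedBall (0 : ℂ) C) := isCompact_closedBall _ _
  have hmem : ∀ᶠ z in 𝓝[H] (E : ℂ), f z ∈ Metric.closedBall (0 : ℂ) C := by
    filter_upwards [self_mem_nhdsWithin] with z hz
    simpa using hC z hz
  have hroot : ∀ y, MapClusterPt y (𝓝[H] (E : ℂ)) f →
      (Q.map (evalRingHom (E : ℂ))).IsRoot y := by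
    intro y hy
    obtain ⟨U, hU, hy⟩ := mapClusterPt_iff_ultrafilter.1 hy
    have hz : Tendsto (fun z : ℂ => z) U (𝓝 E) := hU.trans nhdsWithin_le_nhds
    have hH : ∀ᶠ z in (U : Filter ℂ), z ∈ H := hU self_mem_nhdsWithin
    have hc : Continuous fun p : ℂ × ℂ => (Q.map (evalRingHom p.1)).eval p.2 := by
      simp only [eval_map, eval₂_eq_sum_range, coe_evalRingHom]
      fun_prop
    have := (hc.tendsto ((E : ℂ), y)).comp (hz.prodMk_nhds hy)
    exact tendsto_nhds_unique this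
      (tendsto_const_nhds.congr' (hH.mono fun z hz => (hQ0 ⟨z, hz⟩).symm))
  obtain ⟨a, -, ha⟩ := hK.exists_mapClusterPt (f := 𝓝[H] (E : ℂ)) (u := f)
    (le_principal_iff.2 (mem_map.2 hmem))
  refine ⟨a, hK.tendsto_nhds_of_unique_mapClusterPt hmem fun b _ hb => ?_⟩
  by_contra hab
  have hfin : {y | (Q.map (evalRingHom (E : ℂ))).IsRoot y}.Finite := finite_setOfPred_isRoot hQ
  have hcl : IsClosed ({y | (Q.map (evalRingHom (E : ℂ))).IsRoot y} \ {a}) :=
    (hfin.subset Set.sdiff_subset).isClosed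
  obtain ⟨ε, hε, hball⟩ := Metric.isOpen_iff.1 hcl.isOpen_compl a (by simp)
  let U := Metric.ball a (ε / 2)
  let W := (Metric.closedBall a (ε / 2))ᶜ
  have hW : ∀ y, (Q.map (evalRingHom (E : ℂ))).IsRoot y → y ≠ a → y ∈ W := by
    intro y hy hya hm
    exact hball (Metric.closedBall_subset_ball (half_lt_self hε) hm) ⟨hy, hya⟩
  have hev : ∀ᶠ z in 𝓝[H] (E : ℂ), f z ∈ U ∪ W := by
    have h1 := hK.tendsto_nhdsSet_of_mapClusterPt (s' := U ∪ W) hmem fun y _ hy => by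
      by_cases hya : y = a
      · exact Or.inl (hya ▸ Metric.mem_ball_self (half_pos hε))
      · exact Or.inr (hW y (hroot y hy) hya)
    exact h1 ((Metric.isOpen_ball.union Metric.isClosed_closedBall.isOpen_compl).mem_nhdsSet_self)
  obtain ⟨ρ, hρ, hsub⟩ := Metric.mem_nhdsWithin_iff.1 hev
  have hpre : IsPreconnected (f '' (Metric.ball (E : ℂ) ρ ∩ H)) :=
    (((convex_ball _ _).inter (convex_halfSpace_im_gt 0)).isPreconnected).image f
      (hf.mono Set.inter_subset_right)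
  have hS : Metric.ball (E : ℂ) ρ ∩ H ∈ 𝓝[H] (E : ℂ) :=
    inter_mem (mem_nhdsWithin_of_mem_nhds (Metric.ball_mem_nhds _ hρ)) self_mem_nhdsWithin
  have hdis : Disjoint U W :=
    Set.disjoint_left.2 fun y hy hy' => hy' (Metric.ball_subset_closedBall hy)
  have fa := (ha.frequently (Metric.ball_mem_nhds a (half_pos hε))).and_eventually hS
  have fb := (hb.frequently (Metric.isClosed_closedBall.isOpen_compl.mem_nhds
    (hW b (hroot b hb) hab))).and_eventually hS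
  obtain ⟨z1, h1, h1'⟩ := fa.exists
  obtain ⟨z2, h2, h2'⟩ := fb.exists
  rcases hpre.subset_or_subset Metric.isOpen_ball Metric.isClosed_closedBall.isOpen_compl hdis
    (by rintro _ ⟨z, hz, rfl⟩; exact hsub hz) with h | h
  · exact Set.disjoint_left.1 hdis (h ⟨z2, h2', rfl⟩) h2
  · exact Set.disjoint_left.1 hdis h1 (h ⟨z1, h1', rfl⟩)

def Nice (f : ℂ → ℂ) : Prop := ∀ E : ℝ, ∃ y, Tendsto f (𝓝[H] (E : ℂ)) (𝓝 y)

lemma main (μ : A → A → ℝ) (hμ : ∀ j k, 0 ≤ μ j k) (hd : ∀ j, 0 < μ j j) (w : A → ℝ) :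
    ∃ γ : ℂ → A → ℂ, (∀ z ∈ H, IsSol μ w z (γ z)) ∧ ∀ j, Nice fun z => γ z j := by
  classical
  have h1 : ∀ z : ℂ, ∃ g, z ∈ H → IsSol μ w z g := by
    intro z
    by_cases hz : z ∈ H
    · obtain ⟨g, hg⟩ := exist μ hμ w z hz
      exact ⟨g, fun _ => hg⟩
    · exact ⟨0, fun h => absurd h hz⟩
  choose γ hγ using h1
  refine ⟨γ, hγ, fun j E => ?_⟩
  obtain ⟨P, hP, h0⟩ := GrA.alg_fun H A (fun z => z) (fun k z => γ z k) (fun k => w k)
    (fun i k => μ i k) (fun s i => (hγ s s.2 i).2) (fun s => (hγ s s.2).inv hμ s.2) j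
  exact lim_of_alg _ ((continuous_apply j).comp_continuousOn (cont μ hμ hd w γ hγ)) _
    (fun z hz => (hγ z hz).bound hμ hz j (hd j)) P hP h0 E

lemma Nice.final {f g : ℂ → ℂ} (hf : Nice f) (hg : ∀ z ∈ H, g z = f z) :
    ∃ L : ℝ → ℂ, Continuous L ∧
      ∀ E : ℝ, Tendsto (fun η : ℝ => g (E + η * Complex.I)) (𝓝[>] 0) (𝓝 (L E)) := by
  have hc : ContinuousOn (extendFrom H f) (Set.range ((↑) : ℝ → ℂ)) := by
    refine continuousOn_extendFrom ?_ ?_
    · rintro _ ⟨E, rfl⟩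
      exact mem_closure_iff_nhdsWithin_neBot.2 (neBot E)
    · rintro _ ⟨E, rfl⟩
      exact hf E
  refine ⟨fun E => extendFrom H f E, hc.comp_continuous Complex.continuous_ofReal
    fun E => ⟨E, rfl⟩, fun E => ?_⟩
  have h1 := tendsto_extendFrom (hf E)
  have hm : ∀ᶠ η : ℝ in 𝓝[>] 0, (E : ℂ) + η * Complex.I ∈ H := by
    filter_upwards [self_mem_nhdsWithin] with η hη
    simpa [H] using hη
  have h2 : Tendsto (fun η : ℝ => (E : ℂ) + η * Complex.I) (𝓝[>] 0) (𝓝[H] (E : ℂ)) := by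
    refine tendsto_nhdsWithin_iff.2 ⟨?_, hm⟩
    have : Continuous fun η : ℝ => (E : ℂ) + η * Complex.I := by fun_prop
    simpa using (this.tendsto 0).mono_left nhdsWithin_le_nhds
  exact (h1.comp h2).congr' (hm.mono fun η hη => (hg _ hη).symm)

end Pool.Agent.H48.GrB
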