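import Mathlib

set_option autoImplicit false

namespace Pool.Agent.H48.GrDefs

open scoped Classical

/-- The labelled rooted tree `T(M,j)` on the vertex type `V`, given by its parent map. -/
structure ConeTree (A : Type) (M : A → A → ℕ) (j : A) (V : Type) where
  root : V
  par : V → V
  lab : V → A
  par_root : par root = root
  reach : ∀ x, ∃ n, par^[n] x = root
  lab_root : lab root = j
  children : ∀ x l, {y | (y ≠ root ∧ par y = x) ∧ lab y = l}.encard = M (lab x) l

variable {A : Type} {M : A → A → ℕ} {j : A} {V : Type}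

/-- `y` is a child of `x`. -/
def ConeTree.Child (T : ConeTree A M j V) (x y : V) : Prop := y ≠ T.root ∧ T.par y = x

/-- adjacency in the tree -/
def ConeTree.Adj (T : ConeTree A M j V) (x y : V) : Prop := T.Child x y ∨ T.Child y x

/-- `V_x`: the vertex `x` and all its descendants. -/
def ConeTree.cone (T : ConeTree A M j V) (x : V) : Set V := {y | ∃ n, T.par^[n] y = x}

/-- The data `(ν, t, w)` of a label invariant operator. -/
structure LabelInv (T : ConeTree A M j V) where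
  ν : V → ℝ
  t : V → V → ℂ
  w : V → ℝ
  ν_pos : ∀ x, 0 < ν x
  ν_lab : ∃ n : A → ℝ, ∀ x, ν x = n (T.lab x)
  t_ne : ∀ x y, t x y ≠ 0 ↔ T.Adj x y
  t_symm : ∀ x y, t x y * ν x = (starRingEnd ℂ) (t y x) * ν y
  inv : ∃ (m₂ : A → A → ℝ) (m₁ : A → ℝ),
    (∀ x y, T.Child x y → ‖t x y‖ ^ 2 * M (T.lab x) (T.lab y) = m₂ (T.lab x) (T.lab y)) ∧
      ∀ x, w x = m₁ (T.lab x)

/-- The operator with the sum restricted to neighbours in `S`. -/
noncomputable def LabelInv.app {T : ConeTree A M j V} (L : LabelInv T) (S : Set V) (φ : V → ℂ)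
    (u : V) : ℂ :=
  (∑ᶠ y ∈ {y | y ∈ S ∧ T.Adj u y}, L.t u y * φ y) + L.w u * φ u

/-- `φ` lies in `ℓ²(S,ν)` (extended by zero) and solves `(T_S - z) φ = δ_x` on `S`. -/
def LabelInv.Sol {T : ConeTree A M j V} (L : LabelInv T) (S : Set V) (x : V) (z : ℂ)
    (φ : V → ℂ) : Prop :=
  (∀ u, u ∉ S → φ u = 0) ∧ Summable (fun u => L.ν u * ‖φ u‖ ^ 2) ∧
    ∀ u ∈ S, L.app S φ u - z * φ u = if u = x then 1 else 0

end Pool.Agent.H48.GrDefs
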