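import Mathlib
import Pool.Agent.H48.GrDefs
import Pool.Agent.H48.GrB

set_option autoImplicit false
set_option linter.unusedSectionVars false

namespace Pool.Agent.H48.GrC

open Pool.Agent.H48.GrDefs Filter Topology
open scoped Classical

variable {A : Type} {M : A → A → ℕ} {j : A} {V : Type} (T : ConeTree A M j V)

noncomputable def dep (x : V) : ℕ := Nat.find (T.reach x)

lemma dep_spec (x : V) : T.par^[dep T x] x = T.root := Nat.find_spec (T.reach x)

lemma dep_root : dep T T.root = 0 := (Nat.find_eq_zero _).2 rfl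

lemma dep_par {y : V} (hy : y ≠ T.root) : dep T y = dep T (T.par y) + 1 := by
  apply le_antisymm
  · exact Nat.find_min' _ (by rw [Function.iterate_succ_apply]; exact dep_spec T _)
  · have h := dep_spec T y
    cases hn : dep T y with
    | zero => rw [hn] at h; exact absurd h hy
    | succ n =>
      rw [hn, Function.iterate_succ_apply] at h
      exact Nat.succ_le_succ (Nat.find_min' _ h)

lemma dep_iter (n : ℕ) (y : V) : dep T (T.par^[n] y) ≤ dep T y := by
  induction n generalizing y with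
  | zero => exact le_rfl
  | succ n ih =>
    rw [Function.iterate_succ_apply]
    refine (ih _).trans ?_
    by_cases hy : y = T.root
    · rw [hy, T.par_root]
    · rw [dep_par T hy]; omega

lemma self_cone (x : V) : x ∈ T.cone x := ⟨0, rfl⟩

lemma cone_of_par {x y : V} (h : T.par y ∈ T.cone x) : y ∈ T.cone x := by
  obtain ⟨n, hn⟩ := h
  exact ⟨n + 1, by rw [Function.iterate_succ_apply]; exact hn⟩

lemma par_cone {x y : V} (h : y ∈ T.cone x) (hy : y ≠ x) :
    T.par y ∈ T.cone x ∧ y ≠ T.root := by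
  obtain ⟨n, hn⟩ := h
  refine ⟨?_, ?_⟩
  · cases n with
    | zero => exact absurd hn hy
    | succ n => exact ⟨n, by rw [← Function.iterate_succ_apply]; exact hn⟩
  · rintro rfl
    exact hy (by rw [← hn, Function.iterate_fixed T.par_root])

lemma par_not_cone {x : V} (hx : x ≠ T.root) : T.par x ∉ T.cone x := by
  rintro ⟨n, hn⟩
  have := dep_iter T n (T.par x)
  rw [hn, dep_par T hx] at this
  omega

lemma cone_root : T.cone T.root = Set.univ := Set.eq_univ_of_forall fun y => T.reach y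

lemma cone_sub {x : V} : T.cone x ⊆ T.cone (T.par x) := by
  rintro y ⟨n, hn⟩
  exact ⟨n + 1, by rw [Function.iterate_succ_apply', hn]⟩

variable [Fintype A]

lemma fin_ch (x : V) : {y | T.Child x y}.Finite := by
  have : {y | T.Child x y} = ⋃ l, {y | (y ≠ T.root ∧ T.par y = x) ∧ T.lab y = l} := by
    ext y; simp [ConeTree.Child]
  rw [this]
  exact Set.finite_iUnion fun l => Set.finite_of_encard_eq_coe (T.children x l)

noncomputable def ch (x : V) : Finset V := (fin_ch T x).toFinset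

lemma mem_ch {x y : V} : y ∈ ch T x ↔ T.Child x y := by simp [ch]

lemma card_ch (x : V) (l : A) : ((ch T x).filter fun y => T.lab y = l).card = M (T.lab x) l := by
  have := T.children x l
  have e : {y | (y ≠ T.root ∧ T.par y = x) ∧ T.lab y = l}
      = ↑((ch T x).filter fun y => T.lab y = l) := by
    ext y; simp [mem_ch, ConeTree.Child]
  rw [e, Set.encard_coe_eq_coe_finsetCard] at this
  exact_mod_cast this

noncomputable def Lv (x : V) : ℕ → Finset V
  | 0 => {x}
  | n + 1 => (Lv x n).biUnion (ch T)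

lemma sum_Lv (x : V) (n : ℕ) (f : V → ℝ) :
    ∑ y ∈ Lv T x (n + 1), f y = ∑ u ∈ Lv T x n, ∑ c ∈ ch T u, f c := by
  rw [Lv, Finset.sum_biUnion]
  intro a _ b _ hab
  refine Finset.disjoint_left.2 fun c h1 h2 => hab ?_
  exact ((mem_ch T).1 h1).2.symm.trans ((mem_ch T).1 h2).2

lemma Lv_prop (x : V) (n : ℕ) : ∀ y ∈ Lv T x n, y ∈ T.cone x ∧ dep T y = dep T x + n := by
  induction n with
  | zero =>
    intro y hy
    rw [Lv, Finset.mem_singleton] at hy
    subst hy
    exact ⟨self_cone T _, rfl⟩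
  | succ n ih =>
    intro y hy
    rw [Lv, Finset.mem_biUnion] at hy
    obtain ⟨u, hu, hy⟩ := hy
    obtain ⟨h1, rfl⟩ := (mem_ch T).1 hy
    exact ⟨cone_of_par T (ih _ hu).1, by rw [dep_par T h1, (ih _ hu).2]; omega⟩

lemma mem_Lv (x : V) : ∀ (d : ℕ) (y : V), dep T y = d → y ∈ T.cone x → ∃ n, y ∈ Lv T x n := by
  intro d
  induction d using Nat.strong_induction_on with
  | _ d ih =>
    intro y hd hy
    by_cases hyx : y = x
    · exact ⟨0, by simp [Lv, hyx]⟩
    · obtain ⟨h1, h2⟩ := par_cone T hy hyx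
      obtain ⟨n, hn⟩ := ih _ (by rw [← hd, dep_par T h2]; omega) _ rfl h1
      exact ⟨n + 1, by
        rw [Lv, Finset.mem_biUnion]
        exact ⟨_, hn, (mem_ch T).2 ⟨h2, rfl⟩⟩⟩

lemma flux (x : V) (K f : V → ℝ) (h : ∀ u ∈ T.cone x, K u = f u + ∑ c ∈ ch T u, K c) (n : ℕ) :
    ∑ i ∈ Finset.range n, ∑ y ∈ Lv T x i, f y + ∑ y ∈ Lv T x n, K y = K x := by
  induction n with
  | zero => simp [Lv]
  | succ n ih =>
    rw [Finset.sum_range_succ, sum_Lv, add_assoc, ← Finset.sum_add_distrib, ← ih]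
    congr 1
    exact Finset.sum_congr rfl fun u hu => (h u (Lv_prop T x n u hu).1).symm

lemma sum_levels (x : V) (f : V → ℝ) (n : ℕ) :
    ∑ i ∈ Finset.range n, ∑ y ∈ Lv T x i, f y = ∑ y ∈ (Finset.range n).biUnion (Lv T x), f y := by
  rw [Finset.sum_biUnion]
  intro a _ b _ hab
  refine Finset.disjoint_left.2 fun c h1 h2 => hab ?_
  have e1 := (Lv_prop T x a c h1).2
  have e2 := (Lv_prop T x b c h2).2
  omega

lemma summable_of_flux (x : V) (K f : V → ℝ) (hK : ∀ u, 0 ≤ K u) (hf : ∀ u, 0 ≤ f u)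
    (hf0 : ∀ u, u ∉ T.cone x → f u = 0)
    (h : ∀ u ∈ T.cone x, K u = f u + ∑ c ∈ ch T u, K c) : Summable f := by
  refine summable_of_sum_le hf (c := K x) fun s => ?_
  have h1 : ∀ y, ∃ n, y ∈ T.cone x → y ∈ Lv T x n := by
    intro y
    by_cases hy : y ∈ T.cone x
    · obtain ⟨n, hn⟩ := mem_Lv T x _ y rfl hy
      exact ⟨n, fun _ => hn⟩
    · exact ⟨0, fun h => absurd h hy⟩
  choose n hn using h1
  have h2 := flux T x K f h (s.sup n + 1)
  rw [sum_levels] at h2
  have h3 : ∑ y ∈ s, f y = ∑ y ∈ s.filter (· ∈ T.cone x), f y :=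
    (Finset.sum_filter_of_ne fun y _ hy => by_contra fun hc => hy (hf0 y hc)).symm
  have h4 : ∑ y ∈ s.filter (· ∈ T.cone x), f y
      ≤ ∑ y ∈ (Finset.range (s.sup n + 1)).biUnion (Lv T x), f y := by
    refine Finset.sum_le_sum_of_subset_of_nonneg (fun y hy => ?_) fun y _ _ => hf y
    rw [Finset.mem_filter] at hy
    exact Finset.mem_biUnion.2 ⟨n y, Finset.mem_range.2 (Nat.lt_succ_of_le
      (Finset.le_sup hy.1)), hn y hy.2⟩
  have h5 : 0 ≤ ∑ y ∈ Lv T x (s.sup n + 1), K y := Finset.sum_nonneg fun y _ => hK y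
  linarith

lemma zero_of_flux (K f : V → ℝ) (η C : ℝ) (hη : 0 < η) (hf : ∀ u, 0 ≤ f u) (hs : Summable f)
    (h0 : K T.root = 0) (h : ∀ u, K u = η * f u + ∑ c ∈ ch T u, K c)
    (hb : ∀ u, ∑ c ∈ ch T u, -K c ≤ C * f u + ∑ c ∈ ch T u, f c) (y : V) : f y = 0 := by
  let e : ℕ → ℝ := fun i => ∑ y ∈ Lv T T.root i, f y
  have he0 : ∀ i, 0 ≤ e i := fun i => Finset.sum_nonneg fun y _ => hf y
  have hes : Summable e := by
    refine summable_of_sum_range_le he0 (c := ∑' y, f y) fun n => ?_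
    rw [sum_levels]
    exact hs.sum_le_tsum _ fun y _ => hf y
  have ht := hes.tendsto_atTop_zero
  have ht2 : Tendsto (fun n => C * e n + e (n + 1)) atTop (𝓝 0) := by
    simpa using (ht.const_mul C).add (ht.comp (tendsto_add_atTop_nat 1))
  obtain ⟨k, hk⟩ := mem_Lv T T.root _ y rfl (T.reach y)
  have h1 : η * f y ≤ 0 := by
    refine ge_of_tendsto ht2 ?_
    filter_upwards [eventually_ge_atTop k] with n hn
    have h2 := flux T T.root K (fun u => η * f u) (fun u _ => h u) (n + 1)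
    rw [h0, sum_Lv] at h2
    have h3 : -∑ u ∈ Lv T T.root n, ∑ c ∈ ch T u, K c ≤ C * e n + e (n + 1) := by
      simp only [e]
      rw [sum_Lv, Finset.mul_sum, ← Finset.sum_add_distrib, ← Finset.sum_neg_distrib]
      refine Finset.sum_le_sum fun u _ => ?_
      rw [← Finset.sum_neg_distrib]
      exact hb u
    have h4 : η * f y ≤ ∑ i ∈ Finset.range (n + 1), ∑ y ∈ Lv T T.root i, η * f y := by
      refine le_trans (Finset.single_le_sum (f := fun y => η * f y)
        (fun y _ => mul_nonneg hη.le (hf y)) hk) ?_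
      exact Finset.single_le_sum (f := fun i => ∑ y ∈ Lv T T.root i, η * f y)
        (fun i _ => Finset.sum_nonneg fun y _ => mul_nonneg hη.le (hf y))
        (Finset.mem_range.2 (Nat.lt_succ_of_le hn))
    linarith
  exact le_antisymm (by by_contra hc; nlinarith [mul_pos hη (not_le.1 hc)]) (hf y)

variable {T} (L : LabelInv T)

noncomputable def op (φ : V → ℂ) (u : V) : ℂ :=
  ∑ c ∈ ch T u, L.t u c * φ c + (if u = T.root then 0 else L.t u (T.par u) * φ (T.par u))
    + L.w u * φ u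

lemma app_eq (S : Set V) (φ : V → ℂ) (hφ : ∀ u, u ∉ S → φ u = 0) (u : V) :
    L.app S φ u = op L φ u := by
  unfold LabelInv.app op
  congr 1
  by_cases hu : u = T.root
  · rw [if_pos hu, add_zero]
    refine finsum_mem_eq_sum_of_inter_support_eq _ ?_
    ext y
    simp only [Set.mem_inter_iff, Set.mem_ofPred_eq, Function.mem_support, Finset.mem_coe, mem_ch]
    constructor
    · rintro ⟨⟨-, h | h⟩, h2⟩
      · exact ⟨h, h2⟩
      · exact absurd hu h.1
    · rintro ⟨h, h2⟩
      exact ⟨⟨by_contra fun hc => h2 (by rw [hφ y hc, mul_zero]), Or.inl h⟩, h2⟩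
  · have hp : T.par u ∉ ch T u := fun h => par_not_cone T hu
      (cone_of_par T (by rw [((mem_ch T).1 h).2]; exact self_cone T u))
    rw [if_neg hu, add_comm, ← Finset.sum_insert (f := fun c => L.t u c * φ c) hp]
    refine finsum_mem_eq_sum_of_inter_support_eq _ ?_
    ext y
    simp only [Set.mem_inter_iff, Set.mem_ofPred_eq, Function.mem_support, Finset.mem_coe,
      Finset.mem_insert, mem_ch]
    constructor
    · rintro ⟨⟨-, h | h⟩, h2⟩
      · exact ⟨Or.inr h, h2⟩
      · exact ⟨Or.inl h.2.symm, h2⟩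
    · rintro ⟨h, h2⟩
      refine ⟨⟨by_contra fun hc => h2 (by rw [hφ y hc, mul_zero]), ?_⟩, h2⟩
      rcases h with rfl | h
      · exact Or.inr ⟨hu, rfl⟩
      · exact Or.inl h

lemma op_lin (φ ψ : V → ℂ) (κ : ℂ) (u : V) :
    op L (fun y => φ y - κ * ψ y) u = op L φ u - κ * op L ψ u := by
  unfold op
  split_ifs
  · simp only [mul_sub, Finset.sum_sub_distrib, mul_add, Finset.mul_sum]
    have : ∀ c, L.t u c * (κ * ψ c) = κ * (L.t u c * ψ c) := fun c => by ring
    simp only [this]; ring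
  · simp only [mul_sub, Finset.sum_sub_distrib, mul_add, Finset.mul_sum]
    have : ∀ c, L.t u c * (κ * ψ c) = κ * (L.t u c * ψ c) := fun c => by ring
    simp only [this]; ring

lemma summ_lin (φ ψ : V → ℂ) (κ : ℂ) (h1 : Summable fun u => L.ν u * ‖φ u‖ ^ 2)
    (h2 : Summable fun u => L.ν u * ‖ψ u‖ ^ 2) :
    Summable fun u => L.ν u * ‖φ u - κ * ψ u‖ ^ 2 := by
  refine Summable.of_nonneg_of_le (fun u => mul_nonneg (L.ν_pos u).le (sq_nonneg _))
    (fun u => ?_) ((h1.mul_left 2).add (h2.mul_left (2 * ‖κ‖ ^ 2)))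
  have e1 : ‖φ u - κ * ψ u‖ ≤ ‖φ u‖ + ‖κ‖ * ‖ψ u‖ := by
    rw [← norm_mul]; exact norm_sub_le _ _
  have e2 : ‖φ u - κ * ψ u‖ ^ 2 ≤ 2 * ‖φ u‖ ^ 2 + 2 * ‖κ‖ ^ 2 * ‖ψ u‖ ^ 2 := by
    nlinarith [pow_le_pow_left₀ (norm_nonneg _) e1 2, sq_nonneg (‖φ u‖ - ‖κ‖ * ‖ψ u‖)]
  nlinarith [mul_le_mul_of_nonneg_left e2 (L.ν_pos u).le]

/-- the real weight `t(u,c) t(c,u)` -/
noncomputable def τ (u c : V) : ℝ := ‖L.t u c‖ ^ 2 * L.ν u / L.ν c

lemma t_rev (u c : V) : L.t c u = (starRingEnd ℂ) (L.t u c) * L.ν u / L.ν c := by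
  have h := L.t_symm c u
  have : (L.ν c : ℂ) ≠ 0 := by exact_mod_cast (L.ν_pos c).ne'
  rw [← h, mul_div_cancel_right₀ _ this]

lemma t_mul (u c : V) : L.t u c * L.t c u = τ L u c := by
  rw [t_rev L u c, τ]
  push_cast
  rw [← Complex.mul_conj']
  ring

lemma t_norm (u c : V) : L.ν c * ‖L.t c u‖ ^ 2 = L.ν u * τ L u c := by
  rw [t_rev L u c, τ, norm_div, norm_mul, Complex.norm_conj, Complex.norm_real,
    Complex.norm_real, Real.norm_of_nonneg (L.ν_pos u).le, Real.norm_of_nonneg (L.ν_pos c).le]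
  have := (L.ν_pos c).ne'
  field_simp

lemma exists_mu (hM : ∀ k, 1 ≤ M k k) : ∃ (μ : A → A → ℝ) (w : A → ℝ), (∀ k l, 0 ≤ μ k l) ∧
    (∀ k, 0 < μ k k) ∧ (∀ u, L.w u = w (T.lab u)) ∧
    ∀ u (G : A → ℂ), ∑ c ∈ ch T u, (τ L u c : ℂ) * G (T.lab c)
      = ∑ l, (μ (T.lab u) l : ℂ) * G l := by
  obtain ⟨n, hn⟩ := L.ν_lab
  obtain ⟨m, w, hm, hw⟩ := L.inv
  refine ⟨fun k l => if M k l = 0 then 0 else if 0 < m k l * n k / n l then m k l * n k / n l
    else 1, w, fun k l => ?_, fun k => ?_, hw, fun u G => ?_⟩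
  · dsimp only
    split_ifs with h1 h2
    exacts [le_rfl, h2.le, zero_le_one]
  · dsimp only
    have := hM k
    split_ifs with h1 h2
    exacts [by omega, h2, one_pos]
  · rw [← Finset.sum_fiberwise (ch T u) T.lab]
    refine Finset.sum_congr rfl fun l _ => ?_
    have hc := card_ch T u l
    by_cases h0 : M (T.lab u) l = 0
    · rw [h0, Finset.card_eq_zero] at hc
      simp [hc, h0]
    · have h1 : ∀ c ∈ (ch T u).filter fun y => T.lab y = l,
          τ L u c * M (T.lab u) l = m (T.lab u) l * n (T.lab u) / n l := by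
        intro c hc
        rw [Finset.mem_filter] at hc
        have := hm u c ((mem_ch T).1 hc.1)
        rw [hc.2] at this
        rw [← this, τ, hn u, hn c, hc.2]; ring
      have hM0 : (0 : ℝ) < M (T.lab u) l := by exact_mod_cast Nat.pos_of_ne_zero h0
      obtain ⟨c0, hc0⟩ := Finset.card_pos.1 (hc ▸ Nat.pos_of_ne_zero h0)
      have h2 : 0 < m (T.lab u) l * n (T.lab u) / n l := by
        rw [← h1 c0 hc0]
        have : L.t u c0 ≠ 0 :=
          (L.t_ne u c0).2 (Or.inl ((mem_ch T).1 (Finset.mem_filter.1 hc0).1))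
        have e1 := L.ν_pos u
        have e2 := L.ν_pos c0
        unfold τ
        positivity
      simp only [if_neg h0, if_pos h2]
      rw [Finset.sum_congr rfl (g := fun _ => ((m (T.lab u) l * n (T.lab u) / n l
        / M (T.lab u) l : ℝ) : ℂ) * G l), Finset.sum_const, hc, nsmul_eq_mul]
      · have : ((M (T.lab u) l : ℕ) : ℂ) ≠ 0 := by exact_mod_cast h0
        push_cast
        field_simp
      · intro c hc
        rw [← h1 c hc, mul_div_cancel_right₀ _ hM0.ne', (Finset.mem_filter.1 hc).2]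

end Pool.Agent.H48.GrC
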