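import Mathlib
import Pool.Agent.H48.GrC

set_option autoImplicit false
set_option linter.unusedSectionVars false

namespace Pool.Agent.H48.GrD

open Pool.Agent.H48.GrDefs Pool.Agent.H48.GrB Pool.Agent.H48.GrC Filter Topology
open scoped Classical

variable {A : Type} [Fintype A] {M : A → A → ℕ} {j : A} {V : Type} {T : ConeTree A M j V}
  (L : LabelInv T) {μ : A → A → ℝ} {w : A → ℝ}

lemma uniq0 (h0 : ∀ k l, 0 ≤ μ k l)
    (hμ : ∀ u (G : A → ℂ), ∑ c ∈ ch T u, (τ L u c : ℂ) * G (T.lab c)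
      = ∑ l, (μ (T.lab u) l : ℂ) * G l) (z : ℂ) (hz : 0 < z.im) (φ : V → ℂ)
    (hs : Summable fun u => L.ν u * ‖φ u‖ ^ 2)
    (h : ∀ u, φ u = 0 ∨ op L φ u - z * φ u = 0) (y : V) : φ y = 0 := by
  let K : V → ℝ := fun u => if u = T.root then 0 else
    ((L.ν u : ℂ) * (starRingEnd ℂ) (φ u) * (L.t u (T.par u) * φ (T.par u))).im
  have hK : ∀ u, ∀ c ∈ ch T u,
      K c = ((L.ν c : ℂ) * (starRingEnd ℂ) (φ c) * (L.t c u * φ u)).im := by
    intro u c hc
    obtain ⟨h1, rfl⟩ := (mem_ch T).1 hc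
    simp only [K, if_neg h1]
  have hK2 : ∀ u, ∀ c ∈ ch T u,
      ((L.ν u : ℂ) * (starRingEnd ℂ) (φ u) * (L.t u c * φ c)).im = -K c := by
    intro u c hc
    rw [hK u c hc, ← Complex.conj_im]
    congr 1
    simp only [map_mul, Complex.conj_conj, Complex.conj_ofReal]
    linear_combination (starRingEnd ℂ) (φ u) * φ c * L.t_symm u c
  have := zero_of_flux T K (fun u => L.ν u * ‖φ u‖ ^ 2) z.im (∑ k, ∑ l, μ k l) hz
    (fun u => mul_nonneg (L.ν_pos u).le (sq_nonneg _)) hs (by simp [K]) (fun u => ?_)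
    (fun u => ?_) y
  · have e := (L.ν_pos y).ne'
    simpa [e] using this
  · have e1 : (L.ν u : ℂ) * (starRingEnd ℂ) (φ u) * (op L φ u - z * φ u) = 0 := by
      rcases h u with h | h <;> simp [h]
    have e2 : (L.ν u : ℂ) * (starRingEnd ℂ) (φ u) * (op L φ u - z * φ u)
        = ∑ c ∈ ch T u, (L.ν u : ℂ) * (starRingEnd ℂ) (φ u) * (L.t u c * φ c)
          + (if u = T.root then 0 else
            (L.ν u : ℂ) * (starRingEnd ℂ) (φ u) * (L.t u (T.par u) * φ (T.par u)))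
          + (L.w u - z) * ((L.ν u * ‖φ u‖ ^ 2 : ℝ) : ℂ) := by
      push_cast
      rw [← Finset.mul_sum, ← Complex.mul_conj', op]
      split_ifs <;> ring
    have e3 := congrArg Complex.im (e2.symm.trans e1)
    rw [Complex.add_im, Complex.add_im, Complex.im_sum, Finset.sum_congr rfl (hK2 u),
      Finset.sum_neg_distrib, Complex.mul_im, Complex.ofReal_im, Complex.ofReal_re,
      apply_ite Complex.im] at e3
    simp only [Complex.zero_im, Complex.sub_im, Complex.ofReal_im] at e3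
    change K u = _
    simp only [K] at e3 ⊢
    linarith
  · have e1 : ∑ c ∈ ch T u, τ L u c = ∑ l, μ (T.lab u) l := by
      have := hμ u fun _ => 1
      simp only [mul_one] at this
      exact_mod_cast this
    have e2 : ∑ l, μ (T.lab u) l ≤ ∑ k, ∑ l, μ k l :=
      Finset.single_le_sum (f := fun k => ∑ l, μ k l)
        (fun k _ => Finset.sum_nonneg fun l _ => h0 k l) (Finset.mem_univ _)
    have e3 : ∀ c ∈ ch T u, -K c ≤ τ L u c * (L.ν u * ‖φ u‖ ^ 2) + L.ν c * ‖φ c‖ ^ 2 := by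
      intro c hc
      rw [hK u c hc]
      refine (neg_le_abs _).trans ((Complex.abs_im_le_norm _).trans ?_)
      rw [norm_mul, norm_mul, norm_mul, Complex.norm_conj, Complex.norm_real,
        Real.norm_of_nonneg (L.ν_pos c).le]
      have e4 := t_norm L u c
      have e5 : τ L u c * (L.ν u * ‖φ u‖ ^ 2) = L.ν c * (‖L.t c u‖ * ‖φ u‖) ^ 2 := by
        linear_combination -‖φ u‖ ^ 2 * e4
      rw [e5]
      have e6 : ‖φ c‖ * (‖L.t c u‖ * ‖φ u‖) ≤ (‖L.t c u‖ * ‖φ u‖) ^ 2 + ‖φ c‖ ^ 2 := by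
        nlinarith [sq_nonneg (‖φ c‖ - ‖L.t c u‖ * ‖φ u‖), sq_nonneg ‖φ c‖,
          sq_nonneg (‖L.t c u‖ * ‖φ u‖)]
      nlinarith [mul_le_mul_of_nonneg_left e6 (L.ν_pos c).le]
    refine (Finset.sum_le_sum e3).trans ?_
    rw [Finset.sum_add_distrib, ← Finset.sum_mul, e1]
    exact add_le_add_left (mul_le_mul_of_nonneg_right e2
      (mul_nonneg (L.ν_pos u).le (sq_nonneg _))) _

lemma uniq (h0 : ∀ k l, 0 ≤ μ k l)
    (hμ : ∀ u (G : A → ℂ), ∑ c ∈ ch T u, (τ L u c : ℂ) * G (T.lab c)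
      = ∑ l, (μ (T.lab u) l : ℂ) * G l) (z : ℂ) (hz : 0 < z.im) (S : Set V) (x : V)
    (φ ψ : V → ℂ) (h1 : L.Sol S x z φ) (h2 : L.Sol S x z ψ) : φ = ψ := by
  funext y
  have := uniq0 L h0 hμ z hz (fun y => φ y - 1 * ψ y) (summ_lin L φ ψ 1 h1.2.1 h2.2.1)
    (fun u => ?_) y
  · simpa [sub_eq_zero] using this
  · by_cases hu : u ∈ S
    · right
      have e1 := h1.2.2 u hu
      have e2 := h2.2.2 u hu
      rw [app_eq L S _ h1.1] at e1
      rw [app_eq L S _ h2.1] at e2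
      rw [op_lin]
      linear_combination e1 - e2
    · left
      simp [h1.1 u hu, h2.1 u hu]

noncomputable def psi (g : A → ℂ) (y : V) : ℂ :=
  ∏ i ∈ Finset.range (dep T y),
    -L.t (T.par^[i] y) (T.par (T.par^[i] y)) * g (T.lab (T.par^[i] y))

lemma psi_rec (g : A → ℂ) {c : V} (hc : c ≠ T.root) :
    psi L g c = -L.t c (T.par c) * g (T.lab c) * psi L g (T.par c) := by
  rw [psi, dep_par T hc, Finset.prod_range_succ', mul_comm]
  rfl

lemma psi_ne (g : A → ℂ) (hg : ∀ k, g k ≠ 0) (y : V) : psi L g y ≠ 0 := by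
  refine Finset.prod_ne_zero_iff.2 fun i hi => mul_ne_zero (neg_ne_zero.2 ?_) (hg _)
  exact (L.t_ne _ _).2 (Or.inr ⟨Nat.find_min (T.reach y) (Finset.mem_range.1 hi), rfl⟩)

/-- the recursion below `x` -/
def Down (g : A → ℂ) (x : V) (φ : V → ℂ) : Prop :=
  ∀ u ∈ T.cone x, ∀ c, T.Child u c → φ c = -L.t c u * g (T.lab c) * φ u

lemma chi (hw : ∀ u, L.w u = w (T.lab u))
    (h0 : ∀ k l, 0 ≤ μ k l)
    (hμ : ∀ u (G : A → ℂ), ∑ c ∈ ch T u, (τ L u c : ℂ) * G (T.lab c)
      = ∑ l, (μ (T.lab u) l : ℂ) * G l) (z : ℂ) (hz : 0 < z.im) (g : A → ℂ)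
    (hg : IsSol μ w z g) (x : V) :
    ∃ χ : V → ℂ, (∀ u, u ∉ T.cone x → χ u = 0) ∧ Summable (fun u => L.ν u * ‖χ u‖ ^ 2) ∧
      χ x = g (T.lab x) ∧ Down L g x χ ∧
      (∀ u ∈ T.cone x, op L χ u - z * χ u = if u = x then 1 else 0) ∧
      ∀ u, u ∉ T.cone x → op L χ u - z * χ u
        = if u = T.par x then L.t u x * g (T.lab x) else 0 := by
  have hg0 : ∀ k, g k ≠ 0 := fun k h => by have := (hg k).1; simp [h] at this
  let χ : V → ℂ := fun y => if y ∈ T.cone x then g (T.lab x) * psi L g y / psi L g x else 0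
  have c1 : ∀ u, u ∉ T.cone x → χ u = 0 := fun u hu => if_neg hu
  have c2 : χ x = g (T.lab x) := by
    simp only [χ, if_pos (self_cone T x)]
    exact mul_div_cancel_right₀ _ (psi_ne L g hg0 x)
  have c3 : Down L g x χ := by
    rintro u hu c ⟨h1, rfl⟩
    simp only [χ, if_pos hu, if_pos (cone_of_par T hu)]
    rw [psi_rec L g h1]; ring
  have c4 : ∀ u ∈ T.cone x,
      g (T.lab u) * (∑ c ∈ ch T u, L.t u c * χ c + L.w u * χ u - z * χ u) = χ u := by
    intro u hu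
    have e1 : ∑ c ∈ ch T u, L.t u c * χ c = -χ u * ∑ l, (μ (T.lab u) l : ℂ) * g l := by
      rw [← hμ u g, Finset.mul_sum]
      refine Finset.sum_congr rfl fun c hc => ?_
      rw [c3 u hu c ((mem_ch T).1 hc), ← t_mul]; ring
    have e2 := (hg (T.lab u)).2
    rw [den] at e2
    rw [e1, hw u]
    linear_combination -χ u * e2
  refine ⟨χ, c1, ?_, c2, c3, fun u hu => ?_, fun u hu => ?_⟩
  · have := summable_of_flux T x
      (fun u => L.ν u * ‖χ u‖ ^ 2 * (z.im + ∑ k, μ (T.lab u) k * (g k).im))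
      (fun u => z.im * (L.ν u * ‖χ u‖ ^ 2))
      (fun u => mul_nonneg (mul_nonneg (L.ν_pos u).le (sq_nonneg _)) (add_nonneg hz.le
        (Finset.sum_nonneg fun k _ => mul_nonneg (h0 _ _) (hg k).1.le)))
      (fun u => mul_nonneg hz.le (mul_nonneg (L.ν_pos u).le (sq_nonneg _)))
      (fun u hu => by simp [c1 u hu]) fun u hu => ?_
    · exact (summable_mul_left_iff hz.ne').1 this
    · have e1 := congrArg Complex.im (hμ u g)
      simp only [Complex.im_sum, Complex.im_ofReal_mul] at e1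
      rw [← e1, mul_add, Finset.mul_sum, mul_comm z.im]
      congr 1
      refine Finset.sum_congr rfl fun c hc => ?_
      rw [c3 u hu c ((mem_ch T).1 hc), hg.im_eq (T.lab c), norm_mul, norm_mul, norm_neg]
      linear_combination -(‖χ u‖ ^ 2 * ‖g (T.lab c)‖ ^ 2
        * (z.im + ∑ k, μ (T.lab c) k * (g k).im)) * t_norm L u c
  · have e1 := c4 u hu
    by_cases hux : u = x
    · subst hux
      rw [if_pos rfl, op]
      have e2 : (if u = T.root then 0 else L.t u (T.par u) * χ (T.par u)) = 0 := by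
        split_ifs with h
        · rfl
        · rw [c1 _ (par_not_cone T h), mul_zero]
      rw [e2, add_zero]
      refine mul_left_cancel₀ (hg0 (T.lab u)) ?_
      rw [e1, c2, mul_one]
    · obtain ⟨h1, h2⟩ := par_cone T hu hux
      rw [if_neg hux, op, if_neg h2]
      refine mul_left_cancel₀ (hg0 (T.lab u)) ?_
      have e2 := c3 _ h1 u ⟨h2, rfl⟩
      linear_combination e1 + e2
  · have hx : x ≠ T.root := by
      rintro rfl
      exact hu (by rw [cone_root]; trivial)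
    have e2 : (if u = T.root then 0 else L.t u (T.par u) * χ (T.par u)) = 0 := by
      split_ifs with h
      · rfl
      · rw [c1 _ fun hp => hu (cone_of_par T hp), mul_zero]
    rw [op, e2, c1 u hu, Finset.sum_congr rfl
      (g := fun c => if c = x then L.t u x * g (T.lab x) else 0)]
    · simp only [Finset.sum_ite_eq', mem_ch, ConeTree.Child, add_zero, mul_zero, sub_zero]
      by_cases h : u = T.par x
      · simp [h, hx]
      · simp [h, Ne.symm h]
    · intro c hc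
      split_ifs with h
      · rw [h, c2]
      · rw [c1 c fun hcc => hu (((mem_ch T).1 hc).2 ▸ (par_cone T hcc h).1), mul_zero]

lemma whole (hw : ∀ u, L.w u = w (T.lab u))
    (h0 : ∀ k l, 0 ≤ μ k l)
    (hμ : ∀ u (G : A → ℂ), ∑ c ∈ ch T u, (τ L u c : ℂ) * G (T.lab c)
      = ∑ l, (μ (T.lab u) l : ℂ) * G l) (γ : ℂ → A → ℂ) (hγ : ∀ z ∈ H, IsSol μ w z (γ z))
    (hn : ∀ k, Nice fun z => γ z k) : ∀ (d : ℕ) (x : V), dep T x = d →
    ∃ F, Nice F ∧ ∀ z ∈ H, ∃ φ : V → ℂ, Summable (fun u => L.ν u * ‖φ u‖ ^ 2) ∧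
      φ x = F z ∧ Down L (γ z) x φ ∧ ∀ u, op L φ u - z * φ u = if u = x then 1 else 0 := by
  intro d
  induction d using Nat.strong_induction_on with
  | _ d ih =>
    intro x hd
    by_cases hx : x = T.root
    · refine ⟨_, hn (T.lab x), fun z hz => ?_⟩
      obtain ⟨χ, -, c2, c3, c4, c5, -⟩ := chi L hw h0 hμ z hz (γ z) (hγ z hz) x
      exact ⟨χ, c2, c3, c4, fun u => c5 u (by rw [hx, cone_root]; trivial)⟩
    · obtain ⟨F, hF, h⟩ := ih _ (by rw [← hd, dep_par T hx]; omega) (T.par x) rfl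
      refine ⟨fun z => γ z (T.lab x) + L.t (T.par x) x * L.t x (T.par x)
        * (γ z (T.lab x) * γ z (T.lab x) * F z), fun E => ?_, fun z hz => ?_⟩
      · obtain ⟨a, ha⟩ := hn (T.lab x) E
        obtain ⟨b, hb⟩ := hF E
        exact ⟨_, ha.add (((ha.mul ha).mul hb).const_mul _)⟩
      · obtain ⟨χ, -, c2, c3, c4, c5, c6⟩ := chi L hw h0 hμ z hz (γ z) (hγ z hz) x
        obtain ⟨ψ, d2, d3, d4, d5⟩ := h z hz
        refine ⟨fun y => χ y - (L.t (T.par x) x * γ z (T.lab x)) * ψ y,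
          summ_lin L χ ψ _ c2 d2, ?_, fun u hu c hc => ?_, fun u => ?_⟩
        · dsimp only
          rw [c3, d4 _ (self_cone T _) x ⟨hx, rfl⟩, d3]; ring
        · dsimp only
          rw [c4 u hu c hc, d4 u (cone_sub T hu) c hc]; ring
        · rw [op_lin]
          have e := d5 u
          by_cases hu : u ∈ T.cone x
          · have e1 := c5 u hu
            rw [if_neg fun h : u = T.par x => par_not_cone T hx (h ▸ hu)] at e
            linear_combination e1 - (L.t (T.par x) x * γ z (T.lab x)) * e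
          · have e1 := c6 u hu
            rw [if_neg fun h : u = x => hu (h ▸ self_cone T x)]
            by_cases h : u = T.par x
            · rw [if_pos h] at e e1
              subst h
              linear_combination e1 - (L.t (T.par x) x * γ z (T.lab x)) * e
            · rw [if_neg h] at e e1
              linear_combination e1 - (L.t (T.par x) x * γ z (T.lab x)) * e

theorem main (hM : ∀ k, 1 ≤ M k k) (x : V) (S : Set V) (hS : S = T.cone x ∨ S = Set.univ) :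
    (∀ z : ℂ, 0 < z.im → ∃! φ, L.Sol S x z φ) ∧
    ∀ Φ : ℂ → V → ℂ, (∀ z : ℂ, 0 < z.im → L.Sol S x z (Φ z)) →
      ∃ B : ℝ → ℂ, Continuous B ∧ ∀ E : ℝ,
        Tendsto (fun η : ℝ => (L.ν x : ℂ) * Φ (E + η * Complex.I) x) (𝓝[>] 0) (𝓝 (B E)) := by
  obtain ⟨μ, w, h0, hd, hw, hμ⟩ := exists_mu L hM
  obtain ⟨γ, hγ, hn⟩ := GrB.main μ h0 hd w
  have key : ∃ F, Nice F ∧ ∀ z ∈ H, ∃ φ, L.Sol S x z φ ∧ φ x = F z := by
    rcases hS with rfl | rfl
    · refine ⟨_, hn (T.lab x), fun z hz => ?_⟩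
      obtain ⟨χ, c1, c2, c3, -, c5, -⟩ := chi L hw h0 hμ z hz (γ z) (hγ z hz) x
      exact ⟨χ, ⟨c1, c2, fun u hu => by rw [app_eq L _ _ c1]; exact c5 u hu⟩, c3⟩
    · obtain ⟨F, hF, h⟩ := whole L hw h0 hμ γ hγ hn _ x rfl
      refine ⟨F, hF, fun z hz => ?_⟩
      obtain ⟨φ, d2, d3, -, d5⟩ := h z hz
      exact ⟨φ, ⟨fun u hu => absurd trivial hu, d2, fun u _ => by
        rw [app_eq L Set.univ φ fun u hu => absurd trivial hu]; exact d5 u⟩, d3⟩
  obtain ⟨F, hF, h⟩ := key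
  refine ⟨fun z hz => ?_, fun Φ hΦ => ?_⟩
  · obtain ⟨φ, h1, -⟩ := h z hz
    exact ⟨φ, h1, fun ψ h2 => uniq L h0 hμ z hz S x ψ φ h2 h1⟩
  · have hF' : Nice fun z => (L.ν x : ℂ) * F z := fun E => by
      obtain ⟨a, ha⟩ := hF E
      exact ⟨_, ha.const_mul _⟩
    refine hF'.final (g := fun z => (L.ν x : ℂ) * Φ z x) fun z hz => ?_
    obtain ⟨φ, h1, h2⟩ := h z hz
    rw [uniq L h0 hμ z hz S x _ φ (hΦ z hz) h1, h2]

end Pool.Agent.H48.GrD
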