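import Mathlib

set_option autoImplicit false

namespace Pool.Agent.H48.HeisP

open scoped commutatorElement

abbrev P := ℤ × ℤ
abbrev F := ZMod 2
abbrev R := AddMonoidAlgebra F P

/-- Monomials. -/
noncomputable def X (v : P) : R := AddMonoidAlgebra.single v 1

theorem X_add (v w : P) : X (v + w) = X v * X w := by
  simp [X, AddMonoidAlgebra.single_mul_single]

@[simp] theorem X_zero : X 0 = 1 := rfl

theorem X_mul (v w : P) (a : R) : X v * (X w * a) = X (v + w) * a := by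
  rw [X_add, mul_assoc]

theorem X_pow (v : P) (n : ℕ) : X v ^ n = X (n • v) := by
  induction n with
  | zero => simp
  | succ n ih => rw [pow_succ, ih, succ_nsmul, X_add]

theorem two (a : R) : a + a = 0 := by
  rw [← two_smul F a, show (2 : F) = 0 from rfl, zero_smul]

theorem two' (a : F) : a + a = 0 := by
  rw [← two_mul, show (2 : F) = 0 from rfl, zero_mul]

theorem frob (a : R) (e : ℕ) : (1 + a) ^ 2 ^ e = 1 + a ^ 2 ^ e := by
  induction e with
  | zero => simp
  | succ e ih =>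
    rw [pow_succ, pow_mul, ih, pow_mul]
    linear_combination two (a ^ 2 ^ e)

/-- The cosets. -/
def C (k : ℕ) (w : P) : Prop :=
  (2 : ℤ) ^ (3 * k + 6) ∣ w.1 - 2 ^ (k + 2) ∧ (2 : ℤ) ^ (3 * k + 6) ∣ w.2 - 2 ^ (2 * k + 4)

open Classical in
/-- The kernel of the form. -/
noncomputable def μ (w : P) : F := if ∃ k, C k w then 1 else 0

/-- The bilinear form. -/
noncomputable def β : R →ₗ[F] R →ₗ[F] F :=
  (AddMonoidAlgebra.basis P F).constr F fun q =>
    (AddMonoidAlgebra.basis P F).constr F fun q' => μ (q' - q)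

theorem β_X (q q' : P) : β (X q) (X q') = μ (q' - q) := by
  have h (q : P) : X q = AddMonoidAlgebra.basis P F q := rfl
  simp only [β, h, Module.Basis.constr_basis]

theorem β_inv (v : P) (a a' : R) : β (X v * a) (X v * a') = β a a' := by
  have : β.compl₁₂ (LinearMap.mulLeft F (X v)) (LinearMap.mulLeft F (X v)) = β := by
    refine (AddMonoidAlgebra.basis P F).ext fun q => (AddMonoidAlgebra.basis P F).ext fun q' => ?_
    change β (X v * X q) (X v * X q') = β (X q) (X q')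
    rw [← X_add, ← X_add, β_X, β_X, add_sub_add_left_eq_sub]
  exact LinearMap.congr_fun₂ this a a'

/-- The group. -/
@[ext] structure Hs where
  z : F
  a : R
  t : P

noncomputable instance : Group Hs where
  mul g h := ⟨g.z + h.z + β g.a (X g.t * h.a), g.a + X g.t * h.a, g.t + h.t⟩
  one := ⟨0, 0, 0⟩
  inv g := ⟨g.z + β g.a g.a, X (-g.t) * g.a, -g.t⟩
  mul_assoc g h l := by
    apply Hs.ext
    · change g.z + h.z + β g.a (X g.t * h.a) + l.z + β (g.a + X g.t * h.a) (X (g.t + h.t) * l.a)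
        = g.z + (h.z + l.z + β h.a (X h.t * l.a)) + β g.a (X g.t * (h.a + X h.t * l.a))
      simp only [← X_mul, map_add, mul_add, LinearMap.add_apply, β_inv]
      ring
    · change g.a + X g.t * h.a + X (g.t + h.t) * l.a = g.a + X g.t * (h.a + X h.t * l.a)
      rw [X_add]
      ring
    · exact add_assoc g.t h.t l.t
  one_mul g := by
    apply Hs.ext
    · change 0 + g.z + β 0 (X 0 * g.a) = _
      simp
    · change 0 + X 0 * g.a = _
      simp
    · exact zero_add g.t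
  mul_one g := by
    apply Hs.ext
    · change g.z + 0 + β g.a (X g.t * 0) = _
      simp
    · change g.a + X g.t * 0 = _
      simp
    · exact add_zero g.t
  inv_mul_cancel g := by
    apply Hs.ext
    · change g.z + β g.a g.a + g.z + β (X (-g.t) * g.a) (X (-g.t) * g.a) = 0
      rw [β_inv]
      linear_combination two' g.z + two' (β g.a g.a)
    · exact two _
    · exact neg_add_cancel g.t

@[simp] theorem mul_z (g h : Hs) : (g * h).z = g.z + h.z + β g.a (X g.t * h.a) := rfl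
@[simp] theorem mul_a (g h : Hs) : (g * h).a = g.a + X g.t * h.a := rfl
@[simp] theorem mul_t (g h : Hs) : (g * h).t = g.t + h.t := rfl
@[simp] theorem one_z : (1 : Hs).z = 0 := rfl
@[simp] theorem one_a : (1 : Hs).a = 0 := rfl
@[simp] theorem one_t : (1 : Hs).t = 0 := rfl
@[simp] theorem inv_z (g : Hs) : g⁻¹.z = g.z + β g.a g.a := rfl
@[simp] theorem inv_a (g : Hs) : g⁻¹.a = X (-g.t) * g.a := rfl
@[simp] theorem inv_t (g : Hs) : g⁻¹.t = -g.t := rfl

theorem comm_t (g h : Hs) : (⁅g, h⁆ : Hs).t = 0 := by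
  simp only [commutatorElement_def, mul_t, inv_t]
  abel

theorem comm_a {g : Hs} (hg : g.t = 0) (h : Hs) : (⁅g, h⁆ : Hs).a = (1 + X h.t) * g.a := by
  simp only [commutatorElement_def, mul_a, mul_t, inv_a, inv_t, hg, X_mul, neg_zero, zero_add,
    add_zero, add_neg_cancel, X_zero]
  linear_combination two h.a

theorem sq_eq {g : Hs} (hg : g.t = 0) : g ^ 2 = 1 ↔ β g.a g.a = 0 := by
  rw [sq]
  constructor
  · intro h
    have := congrArg Hs.z h
    simpa [hg, two'] using this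
  · intro h
    exact Hs.ext (by simp [hg, two', h]) (by simp [hg, two]) (by simp [hg])

instance : Group.IsSolvable Hs := by
  let T : Subgroup Hs :=
    { carrier := {g | g.t = 0}
      one_mem' := rfl
      mul_mem' := fun {g h} hg hh => by simp_all
      inv_mem' := fun {g} hg => by simp_all }
  let Z : Subgroup Hs :=
    { carrier := {g | g.t = 0 ∧ g.a = 0}
      one_mem' := ⟨rfl, rfl⟩
      mul_mem' := fun {g h} hg hh => by simp_all
      inv_mem' := fun {g} hg => by simp_all }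
  have h1 : derivedSeries Hs 1 ≤ T := by
    rw [derivedSeries_succ, Subgroup.commutator_le]
    exact fun g _ h _ => comm_t g h
  have h2 : derivedSeries Hs 2 ≤ Z := by
    rw [derivedSeries_succ, Subgroup.commutator_le]
    refine fun g hg h hh => ⟨comm_t g h, ?_⟩
    rw [comm_a (h1 hg), show h.t = 0 from h1 hh, X_zero, two, zero_mul]
  refine ⟨3, ?_⟩
  rw [derivedSeries_succ, eq_bot_iff, Subgroup.commutator_le]
  intro g hg h hh
  rw [Subgroup.mem_bot, commutatorElement_eq_one_iff_mul_comm]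
  exact Hs.ext (by simp [(h2 hg).2, (h2 hh).2, add_comm]) (by simp [(h2 hg).2, (h2 hh).2])
    (by simp [add_comm])

instance : Group.FG Hs := by
  set A := Subgroup.closure ({⟨1, 0, 0⟩, ⟨0, 1, 0⟩, ⟨0, 0, (1, 0)⟩, ⟨0, 0, (0, 1)⟩} : Set Hs)
    with hA
  have ht : ∀ v : P, (⟨0, 0, v⟩ : Hs) ∈ A := by
    let B : AddSubgroup P :=
      { carrier := {v | (⟨0, 0, v⟩ : Hs) ∈ A}
        zero_mem' := A.one_mem
        add_mem' := fun {v w} hv hw => by
          have : (⟨0, 0, v + w⟩ : Hs) = ⟨0, 0, v⟩ * ⟨0, 0, w⟩ := Hs.ext (by simp) (by simp) rfl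
          change _ ∈ A
          rw [this]
          exact mul_mem hv hw
        neg_mem' := fun {v} hv => by
          have : (⟨0, 0, -v⟩ : Hs) = (⟨0, 0, v⟩ : Hs)⁻¹ := Hs.ext (by simp) (by simp) rfl
          change _ ∈ A
          rw [this]
          exact inv_mem hv }
    intro v
    have h1 : ((1, 0) : P) ∈ B := Subgroup.subset_closure (by simp)
    have h2 : ((0, 1) : P) ∈ B := Subgroup.subset_closure (by simp)
    have := B.add_mem (B.zsmul_mem h1 v.1) (B.zsmul_mem h2 v.2)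
    have h3 : v ∈ B := by simpa using this
    exact h3
  have hz : ∀ z : F, (⟨z, 0, 0⟩ : Hs) ∈ A := by
    intro z
    fin_cases z
    · exact A.one_mem
    · exact Subgroup.subset_closure (Or.inl rfl)
  have ha : ∀ a : R, ∃ z, (⟨z, a, 0⟩ : Hs) ∈ A := by
    intro a
    induction a using AddMonoidAlgebra.induction_linear with
    | zero => exact ⟨0, A.one_mem⟩
    | add a a' h h' =>
      obtain ⟨z, h⟩ := h
      obtain ⟨z', h'⟩ := h'
      have : (⟨z + z' + β a a', a + a', 0⟩ : Hs) = ⟨z, a, 0⟩ * ⟨z', a', 0⟩ :=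
        Hs.ext (by simp) (by simp) (by simp)
      exact ⟨_, this ▸ mul_mem h h'⟩
    | single q r =>
      fin_cases r
      · refine ⟨0, ?_⟩
        change (⟨0, AddMonoidAlgebra.single q 0, 0⟩ : Hs) ∈ A
        rw [AddMonoidAlgebra.single_zero]
        exact A.one_mem
      · have : (⟨0, X q, 0⟩ : Hs) = ⟨0, 0, q⟩ * ⟨0, 1, 0⟩ * ⟨0, 0, -q⟩ :=
          Hs.ext (by simp) (by simp) (by simp)
        have h : (⟨0, X q, 0⟩ : Hs) ∈ A :=
          this ▸ mul_mem (mul_mem (ht q) (Subgroup.subset_closure (by simp))) (ht _)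
        exact ⟨0, h⟩
  refine Group.fg_iff.mpr ⟨_, hA.symm.trans (eq_top_iff.mpr fun g _ => ?_), Set.toFinite _⟩
  obtain ⟨z, h⟩ := ha g.a
  have : g = ⟨g.z - z, 0, 0⟩ * ⟨z, g.a, 0⟩ * ⟨0, 0, g.t⟩ := Hs.ext (by simp) (by simp) (by simp)
  exact this ▸ mul_mem (mul_mem (hz _) h) (ht _)

/-- Elements supported on a strip. -/
noncomputable def Ms (φ : P →+ ℤ) (c : ℤ) : Submodule F R := .span F (X '' {q | |φ q| ≤ c})

theorem Ms_mul {φ : P →+ ℤ} {c : ℤ} {v : P} (hv : φ v = 0) {a : R} (ha : a ∈ Ms φ c) :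
    X v * a ∈ Ms φ c := by
  have : Ms φ c ≤ (Ms φ c).comap (LinearMap.mulLeft F (X v)) := by
    refine Submodule.span_le.mpr ?_
    rintro _ ⟨q, hq, rfl⟩
    exact Submodule.subset_span ⟨v + q, by simpa [hv] using hq, X_add v q⟩
  exact this ha

theorem Ms_ex (φ : P →+ ℤ) (a a' : R) : ∃ c, a ∈ Ms φ c ∧ a' ∈ Ms φ c := by
  obtain ⟨c, hc⟩ := ((a.coeff.support ∪ a'.coeff.support).finite_toSet.image
    fun q => |φ q|).bddAbove
  refine ⟨c, ?_⟩
  have : Ms φ c = AddMonoidAlgebra.supported F F {q | |φ q| ≤ c} :=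
    (AddMonoidAlgebra.supported_eq_span_single F _).symm
  rw [this]
  exact ⟨fun q hq => hc ⟨q, by simp_all, rfl⟩, fun q hq => hc ⟨q, by simp_all, rfl⟩⟩

theorem Ms_div {φ : P →+ ℤ} {c : ℤ} {v : P} (hv : φ v = 0) (n : ℤ) {a : R} (ha : a ∈ Ms φ c) :
    ∃ m ∈ Ms φ c, (1 + X (n • v)) * a = (1 + X v) * m := by
  induction n using Int.induction_on with
  | zero => exact ⟨0, zero_mem _, by simp [two]⟩
  | succ n ih =>
    obtain ⟨m, h1, h2⟩ := ih
    refine ⟨m + X ((n : ℤ) • v) * a, add_mem h1 (Ms_mul (by rw [map_zsmul, hv, smul_zero]) ha), ?_⟩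
    rw [add_smul, one_smul, X_add]
    linear_combination h2 - two (X ((n : ℤ) • v) * a)
  | pred n ih =>
    obtain ⟨m, h1, h2⟩ := ih
    refine ⟨m + X ((-(n : ℤ) - 1) • v) * a, add_mem h1 (Ms_mul (by rw [map_zsmul, hv, smul_zero]) ha), ?_⟩
    have : X (-(n : ℤ) • v) = X ((-(n : ℤ) - 1) • v) * X v := by
      rw [← X_add, sub_smul, one_smul, sub_add_cancel]
    rw [this] at h2
    linear_combination h2 - two (X ((-(n : ℤ) - 1) • v) * X v * a)

theorem C_bound (u v c : ℤ) (h : u ≠ 0 ∨ v ≠ 0) : ∃ K : ℕ, ∀ k (w : P), C k w →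
    |u * w.1 + v * w.2| ≤ c → k ≤ K := by
  refine ⟨(c + |u| + |v|).toNat, fun k w hC hw => ?_⟩
  by_contra hk
  have h0 : (k : ℤ) < 2 ^ (k + 2) := by
    have : k < 2 ^ (k + 2) := Nat.lt_two_pow_self.trans_le (Nat.pow_le_pow_right two_pos (by omega))
    exact_mod_cast this
  have hu := abs_nonneg u
  have hv := abs_nonneg v
  have hc := (abs_nonneg _).trans hw
  set y : ℤ := 2 ^ (k + 2) with hy
  have y0 : y ≠ 0 := by positivity
  obtain ⟨⟨s, h1⟩, ⟨s', h2⟩⟩ := hC
  rw [show (2 : ℤ) ^ (3 * k + 6) = y ^ 3 by rw [hy]; ring] at h1 h2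
  rw [show (2 : ℤ) ^ (2 * k + 4) = y ^ 2 by rw [hy]; ring] at h2
  have h3 : u * w.1 + v * w.2 = y * (u + y * (v + y * (u * s + v * s'))) := by
    linear_combination u * h1 + v * h2
  have h4 : u * w.1 + v * w.2 = 0 := Int.eq_zero_of_abs_lt_dvd ⟨_, h3⟩ (by omega)
  have h5 := (mul_eq_zero.mp (h3.symm.trans h4)).resolve_left y0
  have h6 : u = 0 := Int.eq_zero_of_abs_lt_dvd (m := y)
    ⟨-(v + y * (u * s + v * s')), by linear_combination h5⟩ (by omega)
  rw [h6, zero_add] at h5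
  have h7 := (mul_eq_zero.mp h5).resolve_left y0
  have h8 : v = 0 := Int.eq_zero_of_abs_lt_dvd (m := y)
    ⟨-(0 * s + v * s'), by linear_combination h7⟩ (by omega)
  tauto

theorem ext2 {φ : P →+ ℤ} {c : ℤ} (y : R)
    (h : ∀ q q', |φ q| ≤ c → |φ q'| ≤ c → β (y * X q) (X q') = β (X q) (X q')) {a a' : R}
    (ha : a ∈ Ms φ c) (ha' : a' ∈ Ms φ c) : β (y * a) a' = β a a' := by
  induction ha using Submodule.span_induction with
  | mem x hx =>
    obtain ⟨q, hq, rfl⟩ := hx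
    induction ha' using Submodule.span_induction with
    | mem x hx =>
      obtain ⟨q', hq', rfl⟩ := hx
      exact h q q' hq hq'
    | zero => simp
    | add x y _ _ h1 h2 => simp only [map_add, h1, h2]
    | smul r x _ h1 => simp only [map_smul, h1]
  | zero => simp
  | add x y _ _ h1 h2 => simp only [mul_add, map_add, LinearMap.add_apply, h1, h2]
  | smul r x _ h1 => simp only [mul_smul_comm, map_smul, LinearMap.smul_apply, h1]

theorem per (v : P) : ∃ φ : P →+ ℤ, φ v = 0 ∧ ∀ c, ∃ e : ℕ, ∀ a ∈ Ms φ c, ∀ a' ∈ Ms φ c,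
    β (X (2 ^ e • v) * a) a' = β a a' := by
  obtain ⟨u, u', huv, h0⟩ : ∃ u u' : ℤ, (u ≠ 0 ∨ u' ≠ 0) ∧ u * v.1 + u' * v.2 = 0 := by
    by_cases h : v.1 = 0
    · exact ⟨1, 0, by simp, by simp [h]⟩
    · exact ⟨v.2, -v.1, Or.inr (by simpa using h), by ring⟩
  let φ : P →+ ℤ := AddMonoidHom.mk' (fun w => u * w.1 + u' * w.2) fun w w' => by
    simp only [Prod.fst_add, Prod.snd_add]
    ring
  refine ⟨φ, h0, fun c => ?_⟩
  obtain ⟨K, hK⟩ := C_bound u u' (c + c) huv
  refine ⟨3 * K + 6, fun a ha a' ha' => ?_⟩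
  have hN : ∀ k ≤ K, (2 : ℤ) ^ (3 * k + 6) ∣ ((2 ^ (3 * K + 6) : ℕ) : ℤ) := fun k hk => by
    push_cast
    exact pow_dvd_pow 2 (by omega)
  generalize 2 ^ (3 * K + 6) = N at hN ⊢
  have key : ∀ (n : ℤ) (w : P), |φ w| ≤ c + c → (∃ k, C k w) → ∃ k, C k (w + n • N • v) := by
    rintro n w hw ⟨k, hk⟩
    have h1 := hN k (hK k w hk hw)
    refine ⟨k, ?_, ?_⟩
    · have := hk.1.add ((h1.mul_left n).mul_right v.1)
      rw [show (w + n • N • v).1 = w.1 + n * N * v.1 by simp [mul_assoc]]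
      rwa [sub_add_eq_add_sub] at this
    · have := hk.2.add ((h1.mul_left n).mul_right v.2)
      rw [show (w + n • N • v).2 = w.2 + n * N * v.2 by simp [mul_assoc]]
      rwa [sub_add_eq_add_sub] at this
  refine ext2 (X (N • v)) (fun q q' hq hq' => ?_) ha ha'
  have h2 : |φ (q' - q)| ≤ c + c := by
    rw [map_sub]
    exact (abs_sub _ _).trans (add_le_add hq' hq)
  rw [← X_add, β_X, β_X, μ, μ]
  classical
  refine if_congr ⟨fun h => ?_, fun h => ?_⟩ rfl rfl
  · have := key 1 _ (by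
      rwa [map_sub, map_add, map_nsmul, show φ v = 0 from h0, smul_zero, zero_add, ← map_sub]) h
    rwa [one_smul, show ∀ y : P, q' - (y + q) + y = q' - q from fun y => by abel] at this
  · have := key (-1) _ h2 h
    rwa [neg_one_smul, show ∀ y : P, q' - q + -y = q' - (y + q) from fun y => by abel] at this

theorem C_eq {k l : ℕ} {s : ℤ} (h : C l (s, 2 ^ (2 * k + 4))) : l = k := by
  have h1 : (2 : ℤ) ^ (3 * l + 6) ∣ 2 ^ (2 * k + 4) - 2 ^ (2 * l + 4) := h.2
  rcases lt_trichotomy l k with e | e | e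
  · have h2 := ((pow_dvd_pow 2 (by omega : 2 * l + 5 ≤ 3 * l + 6)).trans h1)
    have h3 := (pow_dvd_pow (2 : ℤ) (by omega : 2 * l + 5 ≤ 2 * k + 4)).sub h2
    rw [sub_sub_cancel, pow_dvd_pow_iff two_ne_zero (by decide)] at h3
    omega
  · exact e
  · have h2 := ((pow_dvd_pow 2 (by omega : 2 * k + 5 ≤ 3 * l + 6)).trans h1)
    have h3 := h2.add (pow_dvd_pow (2 : ℤ) (by omega : 2 * k + 5 ≤ 2 * l + 4))
    rw [sub_add_cancel, pow_dvd_pow_iff two_ne_zero (by decide)] at h3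
    omega

theorem C_neg {k l : ℕ} {s : ℤ} : ¬ C l (s, -2 ^ (2 * k + 4)) := by
  intro h
  have h1 : (2 : ℤ) ^ (3 * l + 6) ∣ -2 ^ (2 * k + 4) - 2 ^ (2 * l + 4) := h.2
  rcases lt_trichotomy l k with e | e | e
  · have h2 := ((pow_dvd_pow 2 (by omega : 2 * l + 5 ≤ 3 * l + 6)).trans h1)
    have h3 := (pow_dvd_pow (2 : ℤ) (by omega : 2 * l + 5 ≤ 2 * k + 4)).neg_right.sub h2
    rw [sub_sub_cancel, pow_dvd_pow_iff two_ne_zero (by decide)] at h3
    omega
  · subst e
    have h2 := ((pow_dvd_pow 2 (by omega : 2 * l + 6 ≤ 3 * l + 6)).trans h1)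
    rw [show (-2 ^ (2 * l + 4) - 2 ^ (2 * l + 4) : ℤ) = -2 ^ (2 * l + 5) by ring, dvd_neg,
      pow_dvd_pow_iff two_ne_zero (by decide)] at h2
    omega
  · have h2 := ((pow_dvd_pow 2 (by omega : 2 * k + 5 ≤ 3 * l + 6)).trans h1)
    have h3 := h2.add (pow_dvd_pow (2 : ℤ) (by omega : 2 * k + 5 ≤ 2 * l + 4))
    rw [sub_add_cancel, dvd_neg, pow_dvd_pow_iff two_ne_zero (by decide)] at h3
    omega

theorem μ_neg (k : ℕ) (s : ℤ) : μ (s, -2 ^ (2 * k + 4)) = 0 := if_neg fun ⟨_, h⟩ => C_neg h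

theorem μ_pos (k : ℕ) (s : ℤ) :
    μ (s, 2 ^ (2 * k + 4)) = 1 ↔ (2 : ℤ) ^ (3 * k + 6) ∣ s - 2 ^ (k + 2) := by
  constructor
  · intro h
    by_cases e : ∃ l, C l (s, 2 ^ (2 * k + 4))
    · obtain ⟨l, e⟩ := e
      obtain rfl := C_eq e
      exact e.1
    · rw [μ, if_neg e] at h
      exact absurd h (by decide)
  · exact fun h => if_pos ⟨k, h, by simp⟩

end Pool.Agent.H48.HeisP
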