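import Mathlib

set_option autoImplicit false

namespace Pool.Agent.H48.HoA

open Set Filter Topology Complex

/-- A simple closed curve in the plane that is an embedded `C¹` submanifold: near each of its
points it is the graph of a `C¹` function over a line through that point. -/
def C1Curve (C : Set ℂ) : Prop :=
  (∃ σ : Circle → ℂ, Continuous σ ∧ Function.Injective σ ∧ range σ = C) ∧
  ∀ p ∈ C, ∃ (v : ℂ) (g : ℝ → ℝ) (r : ℝ) (U : Set ℂ), v ≠ 0 ∧ 0 < r ∧ IsOpen U ∧ p ∈ U ∧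
    ContDiffOn ℝ 1 g (Ioo (-r) r) ∧
    C ∩ U = (fun a : ℝ => p + v * (a + g a * I)) '' Ioo (-r) r ∩ U

lemma strict_iff {E F : Type} [NormedAddCommGroup E] [NormedSpace ℝ E] [NormedAddCommGroup F]
    [NormedSpace ℝ F] {f : E → F} {f' : E →L[ℝ] F} {x : E} :
    HasStrictFDerivAt f f' x ↔ ∀ ε > 0, ∃ δ > 0, ∀ a b, ‖a - x‖ < δ → ‖b - x‖ < δ →
      ‖f a - f b - f' (a - b)‖ ≤ ε * ‖a - b‖ := by
  rw [hasStrictFDerivAt_iff_isLittleO, Asymptotics.isLittleO_iff]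
  refine forall₂_congr fun ε _ => ?_
  rw [Metric.eventually_nhds_iff]
  refine exists_congr fun δ => and_congr_right fun _ => ?_
  simp only [Prod.forall, Prod.dist_eq, max_lt_iff, and_imp]
  simp only [dist_eq_norm]

def Tan (C : Set ℂ) (p v : ℂ) : Prop :=
  ∀ ε > 0, ∃ δ > 0, ∀ z ∈ C, ∀ z' ∈ C, ‖z - p‖ < δ → ‖z' - p‖ < δ →
    ∃ t : ℝ, ‖z - z' - t • v‖ ≤ ε * ‖z - z'‖

lemma tan_of_c1 {C : Set ℂ} (h : C1Curve C) {p : ℂ} (hp : p ∈ C) : ∃ v ≠ 0, Tan C p v := by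
  obtain ⟨v, g, r, U, hv, hr, hU, hpU, hg, hC⟩ := h.2 p hp
  have hs : HasStrictDerivAt g (deriv g 0) 0 :=
    (hg.contDiffAt (Ioo_mem_nhds (by linarith) hr)).hasStrictDerivAt one_ne_zero
  set m := deriv g 0
  have hv' := norm_pos_iff.2 hv
  refine ⟨v * (1 + m * I), mul_ne_zero hv fun h0 => by simpa using congrArg re h0, fun ε hε => ?_⟩
  obtain ⟨ρ, hρ, h1⟩ := strict_iff.1 hs.hasStrictFDerivAt ε hε
  obtain ⟨η, hη, h2⟩ := Metric.isOpen_iff.1 hU p hpU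
  have h3 : ∀ z ∈ C, ‖z - p‖ < min η (ρ * ‖v‖) →
      ∃ a : ℝ, ‖a - 0‖ < ρ ∧ z = p + v * (a + g a * I) := by
    intro z hz hd
    rw [lt_min_iff] at hd
    have : z ∈ C ∩ U := ⟨hz, h2 (by simpa [dist_eq_norm] using hd.1)⟩
    rw [hC] at this
    obtain ⟨⟨a, -, rfl⟩, -⟩ := this
    refine ⟨a, ?_, rfl⟩
    have e1 := hd.2
    simp only [add_sub_cancel_left, norm_mul] at e1
    have e2 := abs_re_le_norm ((a : ℂ) + g a * I)
    simp only [add_re, ofReal_re, mul_re, I_re, mul_zero, ofReal_im, I_im, mul_one, sub_self,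
      add_zero] at e2
    rw [sub_zero, Real.norm_eq_abs]
    by_contra hc
    nlinarith [mul_le_mul_of_nonneg_left (le_trans (not_lt.1 hc) e2) hv'.le]
  refine ⟨_, lt_min hη (mul_pos hρ hv'), fun z hz z' hz' d1 d2 => ?_⟩
  obtain ⟨a, ha, rfl⟩ := h3 z hz d1
  obtain ⟨b, hb, rfl⟩ := h3 z' hz' d2
  refine ⟨a - b, ?_⟩
  have e1 := h1 a b ha hb
  have e2 : p + v * (a + g a * I) - (p + v * (b + g b * I)) - (a - b) • (v * (1 + m * I))
      = v * (((g a - g b - (a - b) * m : ℝ) : ℂ) * I) := by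
    rw [real_smul]; push_cast; ring
  have e3 : p + v * (a + g a * I) - (p + v * (b + g b * I))
      = v * (((a - b : ℝ) : ℂ) + ((g a - g b : ℝ) : ℂ) * I) := by push_cast; ring
  have e4 := abs_re_le_norm (((a - b : ℝ) : ℂ) + ((g a - g b : ℝ) : ℂ) * I)
  simp only [add_re, ofReal_re, mul_re, I_re, mul_zero, ofReal_im, I_im, mul_one, sub_self,
    add_zero] at e4
  rw [e2, e3, norm_mul, norm_mul, norm_mul, norm_I, mul_one, norm_real]
  simp only [ContinuousLinearMap.toSpanSingleton_apply, smul_eq_mul, Real.norm_eq_abs] at e1 ⊢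
  have e5 := e1.trans (mul_le_mul_of_nonneg_left e4 hε.le)
  nlinarith [mul_le_mul_of_nonneg_left e5 hv'.le]

lemma c1_of_strict {g : ℝ → ℝ} {s : Set ℝ} (hs : IsOpen s)
    (h : ∀ x ∈ s, ∃ m, ∀ ε > 0, ∃ δ > 0, ∀ a b, |a - x| < δ → |b - x| < δ →
      |g a - g b - (a - b) * m| ≤ ε * |a - b|) : ContDiffOn ℝ 1 g s := by
  choose! m hm using h
  have hd : ∀ x ∈ s, HasDerivAt g (m x) x := by
    intro x hx
    have : HasStrictFDerivAt g (ContinuousLinearMap.toSpanSingleton ℝ (m x)) x :=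
      strict_iff.2 (by simpa using hm x hx)
    exact (show HasStrictDerivAt g (m x) x from this).hasDerivAt
  have := (contDiffOn_succ_iff_deriv_of_isOpen (𝕜 := ℝ) (n := 0) (f := g) hs).2
    ⟨fun x hx => (hd x hx).differentiableAt.differentiableWithinAt, by simp, ?_⟩
  · simpa using this
  rw [contDiffOn_zero]
  refine ContinuousOn.congr (f := m) (fun x hx => ?_) fun x hx => (hd x hx).deriv
  refine Metric.continuousWithinAt_iff.2 fun ε hε => ?_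
  obtain ⟨δ, hδ, h1⟩ := hm x hx (ε / 2) (half_pos hε)
  refine ⟨δ, hδ, fun y hy hyx => ?_⟩
  have h2 := ((hd y hy).sub ((hasDerivAt_id y).mul_const (m x))).le_of_lip' (half_pos hε).le (by
    filter_upwards [Metric.isOpen_ball.mem_nhds (show y ∈ Metric.ball x δ from hyx)] with a ha
    have := h1 a y ha hyx
    simp only [Pi.sub_apply, id, Real.norm_eq_abs]
    convert this using 2
    ring)
  rw [one_mul, Real.norm_eq_abs] at h2
  rw [Real.dist_eq]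
  linarith

lemma c1_of_tan {C : Set ℂ} (h0 : ∃ σ : Circle → ℂ, Continuous σ ∧ Function.Injective σ ∧
    range σ = C) (h : ∀ p ∈ C, ∃ v ≠ 0, Tan C p v) : C1Curve C := by
  refine ⟨h0, fun p hp => ?_⟩
  obtain ⟨σ, hσ, hinj, hC⟩ := h0
  obtain ⟨v, hv, hT⟩ := h p hp
  have hv' := norm_pos_iff.2 hv
  obtain ⟨δ, hδ, h1⟩ := hT (1 / 2) one_half_pos
  let φ : ℂ → ℂ := fun z => (z - p) / v
  have hφc : Continuous φ := by fun_prop
  have hφ : ∀ z z', φ z - φ z' = (z - z') / v := fun z z' => by simp only [φ]; ring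
  have hch : ∀ z ∈ C, ∀ z' ∈ C, ‖z - p‖ < δ → ‖z' - p‖ < δ →
      |(φ z - φ z').im| ≤ |(φ z - φ z').re| := by
    intro z hz z' hz' d1 d2
    obtain ⟨t, ht⟩ := h1 z hz z' hz' d1 d2
    have e1 : z - z' - t • v = v * (φ z - φ z' - t) := by
      rw [hφ, real_smul]; field_simp
    have e2 : z - z' = v * (φ z - φ z') := by rw [hφ]; field_simp
    rw [e1] at ht
    conv_rhs at ht => rw [e2]
    rw [norm_mul, norm_mul] at ht
    have e3 := abs_im_le_norm (φ z - φ z' - t)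
    rw [sub_im _ (t : ℂ), ofReal_im, sub_zero] at e3
    have e4 := norm_le_abs_re_add_abs_im (φ z - φ z')
    have e5 : ‖φ z - φ z' - t‖ ≤ 1 / 2 * ‖φ z - φ z'‖ :=
      le_of_mul_le_mul_left (by linarith) hv'
    linarith
  have huniq : ∀ z ∈ C, ∀ z' ∈ C, ‖z - p‖ < δ → ‖z' - p‖ < δ → (φ z).re = (φ z').re →
      z = z' := by
    intro z hz z' hz' d1 d2 e
    have e1 := hch z hz z' hz' d1 d2
    have e2 : (φ z - φ z').re = 0 := by rw [sub_re, e, sub_self]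
    rw [e2, abs_zero, abs_nonpos_iff] at e1
    have e3 : φ z - φ z' = 0 := Complex.ext e2 e1
    rw [hφ, div_eq_zero_iff] at e3
    exact sub_eq_zero.1 (e3.resolve_right hv)
  obtain ⟨c, hc⟩ : p ∈ range σ := hC ▸ hp
  let γ : ℝ → ℂ := fun t => σ (c * Circle.exp t)
  have hγ : Continuous γ := by fun_prop
  have hγ0 : γ 0 = p := by simp [γ, hc]
  have hγC : ∀ t, γ t ∈ C := fun t => hC ▸ ⟨_, rfl⟩
  obtain ⟨η, hη, h2⟩ := Metric.continuousAt_iff.1 (hγ.continuousAt (x := 0)) δ hδ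
  obtain ⟨τ, hτ, hτ1, hτ2⟩ : ∃ τ > 0, τ < η ∧ τ < 1 :=
    ⟨min η 1 / 2, by positivity, by linarith [min_le_left η 1], by linarith [min_le_right η 1]⟩
  have h3 : ∀ t ∈ Icc (-τ) τ, ‖γ t - p‖ < δ := by
    intro t ht
    have := h2 (x := t) (by rw [Real.dist_eq, sub_zero, abs_lt]; constructor <;> linarith [ht.1, ht.2])
    rwa [hγ0, dist_eq_norm] at this
  let a : ℝ → ℝ := fun t => (φ (γ t)).re
  have ha : Continuous a := by fun_prop
  have ha0 : a 0 = 0 := by simp [a, hγ0, φ]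
  have hai : InjOn a (Icc (-τ) τ) := by
    intro s hs t ht e
    have e1 := mul_left_cancel (hinj (huniq _ (hγC s) _ (hγC t) (h3 s hs) (h3 t ht) e))
    obtain ⟨m, hm⟩ := Circle.exp_eq_exp.1 e1
    have e2 : |(m : ℝ)| < 1 := by
      have := Real.pi_gt_three
      rw [abs_lt]
      constructor <;> nlinarith [hs.1, hs.2, ht.1, ht.2]
    have e3 : m = 0 := Int.abs_lt_one_iff.1 (by exact_mod_cast e2)
    simpa [e3] using hm
  obtain ⟨r, hr, hsur⟩ : ∃ r > 0, Ioo (-r) r ⊆ a '' Icc (-τ) τ := by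
    have m1 : -τ ∈ Icc (-τ) τ := ⟨le_rfl, by linarith⟩
    have m2 : (0 : ℝ) ∈ Icc (-τ) τ := ⟨by linarith, hτ.le⟩
    have m3 : τ ∈ Icc (-τ) τ := ⟨by linarith, le_rfl⟩
    have hI := intermediate_value_uIcc (a := -τ) (b := τ) ha.continuousOn
    rw [uIcc_of_le (by linarith : -τ ≤ τ)] at hI
    rcases ha.continuousOn.strictMonoOn_of_injOn_Icc' (by linarith) hai with hm | hm
    · have e1 := hm m1 m2 (by linarith)
      have e2 := hm m2 m3 hτ
      refine ⟨min (-a (-τ)) (a τ), lt_min (by linarith) (by linarith), fun x hx => hI ?_⟩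
      exact mem_uIcc.2 (Or.inl ⟨by linarith [hx.1, min_le_left (-a (-τ)) (a τ)],
        by linarith [hx.2, min_le_right (-a (-τ)) (a τ)]⟩)
    · have e1 := hm m1 m2 (by linarith)
      have e2 := hm m2 m3 hτ
      refine ⟨min (a (-τ)) (-a τ), lt_min (by linarith) (by linarith), fun x hx => hI ?_⟩
      exact mem_uIcc.2 (Or.inr ⟨by linarith [hx.1, min_le_right (a (-τ)) (-a τ)],
        by linarith [hx.2, min_le_left (a (-τ)) (-a τ)]⟩)
  have h4 : ∀ x ∈ Ioo (-r) r, ∃ z, z ∈ C ∧ ‖z - p‖ < δ ∧ (φ z).re = x := by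
    intro x hx
    obtain ⟨t, ht, rfl⟩ := hsur hx
    exact ⟨γ t, hγC t, h3 t ht, rfl⟩
  choose! Z hZ1 hZ2 hZ3 using h4
  have hZ : ∀ x ∈ Ioo (-r) r, p + v * (x + (φ (Z x)).im * I) = Z x := by
    intro x hx
    have e := re_add_im (φ (Z x))
    rw [hZ3 x hx] at e
    rw [e]
    simp only [φ]
    field_simp
    ring
  have hUo : IsOpen ({z : ℂ | ‖z - p‖ < δ} ∩ (fun z => (φ z).re) ⁻¹' Ioo (-r) r) :=
    (isOpen_lt (by fun_prop) continuous_const).inter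
      (isOpen_Ioo.preimage (continuous_re.comp hφc))
  refine ⟨v, fun x => (φ (Z x)).im, r, _, hv, hr, hUo,
    ⟨by simpa using hδ, by simp [φ, hr]⟩, c1_of_strict isOpen_Ioo fun x0 hx0 => ?_, ?_⟩
  · obtain ⟨w, hw, hW⟩ := h _ (hZ1 x0 hx0)
    set u := w / v with hu
    have hlip : ∀ x ∈ Ioo (-r) r, ∀ y ∈ Ioo (-r) r, ‖φ (Z x) - φ (Z y)‖ ≤ 2 * |x - y| := by
      intro x hx y hy
      have e1 := hch _ (hZ1 x hx) _ (hZ1 y hy) (hZ2 x hx) (hZ2 y hy)
      have e2 := norm_le_abs_re_add_abs_im (φ (Z x) - φ (Z y))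
      rw [sub_re, hZ3 x hx, hZ3 y hy] at e1 e2
      linarith
    have key : ∀ ε > 0, ∃ ρ > 0, ∀ x y, |x - x0| < ρ → |y - x0| < ρ →
        x ∈ Ioo (-r) r ∧ y ∈ Ioo (-r) r ∧
        ∃ t : ℝ, ‖φ (Z x) - φ (Z y) - t • u‖ ≤ ε * |x - y| := by
      intro ε hε
      obtain ⟨δ', hδ', e1⟩ := hW (ε / 2) (half_pos hε)
      obtain ⟨ρ, hρ, e2⟩ := Metric.isOpen_iff.1 isOpen_Ioo x0 hx0
      have e3 : ∀ x, |x - x0| < min ρ (δ' / (2 * ‖v‖)) → x ∈ Ioo (-r) r ∧ ‖Z x - Z x0‖ < δ' := by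
        intro x hx
        rw [lt_min_iff, lt_div_iff₀ (by positivity)] at hx
        have f1 := e2 (show x ∈ Metric.ball x0 ρ from hx.1)
        have f2 := hlip x f1 x0 hx0
        rw [hφ, norm_div, div_le_iff₀ hv'] at f2
        exact ⟨f1, by linarith [hx.2]⟩
      refine ⟨_, lt_min hρ (by positivity), fun x y hx hy => ⟨(e3 x hx).1, (e3 y hy).1, ?_⟩⟩
      obtain ⟨t, ht⟩ := e1 _ (hZ1 x (e3 x hx).1) _ (hZ1 y (e3 y hy).1) (e3 x hx).2 (e3 y hy).2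
      have f2 := hlip x (e3 x hx).1 y (e3 y hy).1
      have f3 : φ (Z x) - φ (Z y) - t • u = (Z x - Z y - t • w) / v := by
        rw [hφ, hu, real_smul, real_smul]; ring
      refine ⟨t, ?_⟩
      rw [f3, norm_div, div_le_iff₀ hv']
      rw [hφ, norm_div, div_le_iff₀ hv'] at f2
      nlinarith [mul_le_mul_of_nonneg_left f2 (half_pos hε).le]
    have hure : u.re ≠ 0 := by
      intro h0
      obtain ⟨ρ, hρ, e1⟩ := key (1 / 2) one_half_pos
      obtain ⟨f1, -, t, ht⟩ := e1 (x0 + ρ / 2) x0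
        (by rw [add_sub_cancel_left, abs_of_pos (half_pos hρ)]; linarith) (by simpa using hρ)
      have f2 := (abs_re_le_norm _).trans ht
      rw [sub_re, sub_re, hZ3 _ f1, hZ3 _ hx0, smul_re, h0, smul_zero, sub_zero,
        add_sub_cancel_left, abs_of_pos (half_pos hρ)] at f2
      linarith
    refine ⟨u.im / u.re, fun ε hε => ?_⟩
    have hK : 0 < 1 + |u.im / u.re| := by positivity
    obtain ⟨ρ, hρ, e1⟩ := key (ε / (1 + |u.im / u.re|)) (div_pos hε hK)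
    refine ⟨ρ, hρ, fun x y hx hy => ?_⟩
    obtain ⟨f1, f2, t, ht⟩ := e1 x y hx hy
    set E := φ (Z x) - φ (Z y) - t • u with hE
    have f3 : (φ (Z x)).im - (φ (Z y)).im - (x - y) * (u.im / u.re)
        = E.im - u.im / u.re * E.re := by
      rw [hE, sub_re, sub_re, sub_im, sub_im, hZ3 _ f1, hZ3 _ f2, smul_re, smul_im, smul_eq_mul,
        smul_eq_mul]
      field_simp
      ring
    have f4 : |E.im - u.im / u.re * E.re| ≤ (1 + |u.im / u.re|) * ‖E‖ := by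
      refine (abs_sub _ _).trans ?_
      rw [abs_mul]
      nlinarith [abs_im_le_norm E, mul_le_mul_of_nonneg_left (abs_re_le_norm E)
        (abs_nonneg (u.im / u.re))]
    rw [f3]
    refine f4.trans ((mul_le_mul_of_nonneg_left ht hK.le).trans (le_of_eq ?_))
    field_simp
  · ext z
    constructor
    · rintro ⟨hz, d1, d2⟩
      refine ⟨⟨_, d2, ?_⟩, d1, d2⟩
      exact (hZ _ d2).trans (huniq _ (hZ1 _ d2) _ hz (hZ2 _ d2) d1 (hZ3 _ d2))
    · rintro ⟨⟨x, hx, rfl⟩, hz⟩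
      exact ⟨by simp only; rw [hZ x hx]; exact hZ1 x hx, hz⟩

/-- chords are moved by a scalar multiple of a fixed linear map, up to a small relative error -/
def PP (F : ℂ → ℂ) : Prop :=
  ∀ z0, ∃ M : ℂ ≃L[ℝ] ℂ, ∀ ε > 0, ∃ δ > 0, ∀ z z', ‖z - z0‖ < δ → ‖z' - z0‖ < δ →
    ∃ l > 0, ‖F z - F z' - l • M (z - z')‖ ≤ ε * l * ‖z - z'‖

lemma bnd (M : ℂ ≃L[ℝ] ℂ) : ∃ K > 0, (∀ u, ‖M u‖ ≤ K * ‖u‖) ∧ ∀ u, ‖M.symm u‖ ≤ K * ‖u‖ := by
  obtain ⟨K, hK, h1⟩ := (M : ℂ →L[ℝ] ℂ).bound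
  obtain ⟨K', hK', h2⟩ := (M.symm : ℂ →L[ℝ] ℂ).bound
  refine ⟨K + K', by positivity, fun u => (h1 u).trans ?_, fun u => (h2 u).trans ?_⟩ <;>
    nlinarith [norm_nonneg u]

lemma low {M : ℂ ≃L[ℝ] ℂ} {K ε l : ℝ} (hK : 0 < K) (h2 : ∀ u, ‖M.symm u‖ ≤ K * ‖u‖)
    (hε : K * ε ≤ 1 / 2) (hl : 0 < l) {W u : ℂ} (h : ‖W - l • M u‖ ≤ ε * l * ‖u‖) :
    l * ‖u‖ ≤ 2 * K * ‖W‖ := by
  have e1 := h2 (l • M u)
  rw [map_smul, M.symm_apply_apply, norm_smul, Real.norm_of_nonneg hl.le] at e1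
  have e2 : ‖l • M u‖ ≤ ‖W‖ + ε * l * ‖u‖ := by
    have := norm_sub_le W (W - l • M u)
    rw [sub_sub_cancel] at this
    linarith
  have e3 := mul_le_mul_of_nonneg_right hε (mul_nonneg hl.le (norm_nonneg u))
  nlinarith [mul_le_mul_of_nonneg_left e2 hK.le]

lemma small {K ε : ℝ} (hK : 0 < K) (hε : 0 < ε) :
    ∃ e > 0, K * e ≤ 1 / 2 ∧ e * (1 + K) * (2 * K) ≤ ε := by
  refine ⟨min (1 / 2 / K) (ε / ((1 + K) * (2 * K))), by positivity, ?_, ?_⟩
  · rw [mul_comm, ← le_div_iff₀ hK]; exact min_le_left _ _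
  · rw [mul_assoc, ← le_div_iff₀ (by positivity)]; exact min_le_right _ _

lemma PP.symm (f : ℂ ≃ₜ ℂ) (h : PP f) : PP f.symm := by
  intro w0
  obtain ⟨M, hM⟩ := h (f.symm w0)
  obtain ⟨K, hK, -, h2⟩ := bnd M
  refine ⟨M.symm, fun ε hε => ?_⟩
  obtain ⟨e, he, e1, e2⟩ := small hK hε
  obtain ⟨δ, hδ, h3⟩ := hM e he
  obtain ⟨η, hη, h4⟩ := Metric.continuousAt_iff.1 (f.symm.continuous.continuousAt (x := w0)) δ hδ
  refine ⟨η, hη, fun w w' d1 d2 => ?_⟩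
  obtain ⟨l, hl, h5⟩ := h3 (f.symm w) (f.symm w')
    (by simpa [dist_eq_norm] using h4 (x := w) (by rwa [dist_eq_norm]))
    (by simpa [dist_eq_norm] using h4 (x := w') (by rwa [dist_eq_norm]))
  rw [f.apply_symm_apply, f.apply_symm_apply] at h5
  have h6 := low hK h2 e1 hl h5
  set u := f.symm w - f.symm w'
  refine ⟨l⁻¹, inv_pos.2 hl, ?_⟩
  have h7 : u - l⁻¹ • M.symm (w - w') = -(l⁻¹ • M.symm (w - w' - l • M u)) := by
    rw [map_sub M.symm (w - w'), map_smul, M.symm_apply_apply, smul_sub, smul_smul,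
      inv_mul_cancel₀ hl.ne', one_smul, neg_sub]
  rw [h7, norm_neg, norm_smul, Real.norm_of_nonneg (inv_pos.2 hl).le, mul_comm ε, mul_assoc]
  refine mul_le_mul_of_nonneg_left ((h2 _).trans ?_) (inv_pos.2 hl).le
  have h8 := mul_le_mul_of_nonneg_left h6 (mul_pos hK he).le
  have h9 := mul_le_mul_of_nonneg_right e2 (norm_nonneg (w - w'))
  have h10 : 0 ≤ e * (2 * K) * ‖w - w'‖ := by positivity
  nlinarith [mul_le_mul_of_nonneg_left h5 hK.le]

lemma PP.image (f : ℂ ≃ₜ ℂ) (h : PP f) {C : Set ℂ} (hC : C1Curve C) : C1Curve (f '' C) := by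
  refine c1_of_tan ?_ ?_
  · obtain ⟨σ, h1, h2, rfl⟩ := hC.1
    exact ⟨f ∘ σ, f.continuous.comp h1, f.injective.comp h2, range_comp _ _⟩
  rintro _ ⟨p, hp, rfl⟩
  obtain ⟨v, hv, hT⟩ := tan_of_c1 hC hp
  obtain ⟨M, hM⟩ := h p
  obtain ⟨K, hK, h1, h2⟩ := bnd M
  refine ⟨M v, by simpa using hv, fun ε hε => ?_⟩
  obtain ⟨e, he, e1, e2⟩ := small hK hε
  obtain ⟨δ, hδ, h3⟩ := hM e he
  obtain ⟨δ', hδ', h3'⟩ := hT e he
  obtain ⟨η, hη, h4⟩ := Metric.continuousAt_iff.1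
    (f.symm.continuous.continuousAt (x := f p)) _ (lt_min hδ hδ')
  refine ⟨η, hη, ?_⟩
  rintro _ ⟨z, hz, rfl⟩ _ ⟨z', hz', rfl⟩ d1 d2
  have f1 := h4 (x := f z) (by rwa [dist_eq_norm])
  have f2 := h4 (x := f z') (by rwa [dist_eq_norm])
  simp only [Homeomorph.symm_apply_apply, dist_eq_norm, lt_min_iff] at f1 f2
  obtain ⟨l, hl, h5⟩ := h3 z z' f1.1 f2.1
  obtain ⟨t, ht⟩ := h3' z hz z' hz' f1.2 f2.2
  have h6 := low hK h2 e1 hl h5
  refine ⟨l * t, ?_⟩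
  have h7 : f z - f z' - (l * t) • M v
      = (f z - f z' - l • M (z - z')) + l • M (z - z' - t • v) := by
    rw [map_sub M (z - z'), map_smul, smul_sub, smul_smul]; abel
  rw [h7]
  refine (norm_add_le _ _).trans ?_
  rw [norm_smul, Real.norm_of_nonneg hl.le]
  have h8 := mul_le_mul_of_nonneg_left ((h1 _).trans (mul_le_mul_of_nonneg_left ht hK.le)) hl.le
  have h9 := mul_le_mul_of_nonneg_left h6 (show 0 ≤ e * (1 + K) by positivity)
  have h10 := mul_le_mul_of_nonneg_right e2 (norm_nonneg (f z - f z'))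
  nlinarith

end Pool.Agent.H48.HoA
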