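import Pool.Agent.H48.HoA

set_option autoImplicit false

namespace Pool.Agent.H48.HoB

open Set Filter Topology Complex Pool.Agent.H48.HoA

noncomputable def L (r : ℝ) : ℝ := Real.log (1 + r) - Real.log r

noncomputable def G (w : ℂ) : ℂ := L ‖w‖ • w

lemma L_nonneg {a : ℝ} (ha : 0 ≤ a) : 0 ≤ L a := by
  rcases ha.eq_or_lt with rfl | h
  · simp [L]
  · exact sub_nonneg.2 (Real.log_le_log h (by linarith))

lemma L_anti {a b : ℝ} (ha : 0 < a) (hab : a ≤ b) : L b ≤ L a := by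
  have hb := ha.trans_le hab
  have := Real.log_le_log (x := (1 + b) * a) (y := (1 + a) * b) (by positivity) (by nlinarith)
  rw [Real.log_mul (by positivity) ha.ne', Real.log_mul (by positivity) hb.ne'] at this
  unfold L
  linarith

lemma L_diff {a b : ℝ} (ha : 0 ≤ a) (hab : a ≤ b) : |L b - L a| * a ≤ b - a := by
  rcases ha.eq_or_lt with rfl | h
  · simpa using hab
  have hb := h.trans_le hab
  rw [abs_of_nonpos (sub_nonpos.2 (L_anti h hab))]
  have e1 := Real.log_le_log (x := 1 + a) (y := 1 + b) (by positivity) (by linarith)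
  have e2 := Real.log_le_sub_one_of_pos (div_pos hb h)
  rw [Real.log_div hb.ne' h.ne'] at e2
  have e3 : (b / a - 1) * a = b - a := by field_simp
  rw [← e3]
  refine mul_le_mul_of_nonneg_right ?_ ha
  unfold L
  linarith

lemma L_le {a : ℝ} (ha : 0 ≤ a) : L a * a ≤ 1 := by
  rcases ha.eq_or_lt with rfl | h
  · simp
  have e2 := Real.log_le_sub_one_of_pos (div_pos (show 0 < 1 + a by linarith) h)
  rw [Real.log_div (by linarith) h.ne'] at e2
  have e3 : ((1 + a) / a - 1) * a = 1 := by field_simp; ring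
  rw [← e3]
  exact mul_le_mul_of_nonneg_right e2 ha

lemma G_chord' {w w' : ℂ} (h : ‖w'‖ ≤ ‖w‖) :
    ‖G w - G w' - L ‖w‖ • (w - w')‖ ≤ ‖w - w'‖ := by
  have e : G w - G w' - L ‖w‖ • (w - w') = (L ‖w‖ - L ‖w'‖) • w' := by
    simp only [G, smul_sub, sub_smul]; abel
  rw [e, norm_smul, Real.norm_eq_abs]
  exact (L_diff (norm_nonneg _) h).trans (norm_sub_norm_le _ _)

lemma G_chord (w w' : ℂ) : ‖G w - G w' - L (max ‖w‖ ‖w'‖) • (w - w')‖ ≤ ‖w - w'‖ := by
  rcases le_total ‖w'‖ ‖w‖ with h | h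
  · rw [max_eq_left h]; exact G_chord' h
  · rw [max_eq_right h, norm_sub_rev w, ← norm_neg]
    refine le_trans (le_of_eq ?_) (G_chord' h)
    congr 1
    simp only [smul_sub]; abel

lemma G_bound (w : ℂ) : ‖G w‖ ≤ 1 := by
  rw [G, norm_smul, Real.norm_of_nonneg (L_nonneg (norm_nonneg _))]
  exact L_le (norm_nonneg _)

lemma G_c1 {w : ℂ} (hw : w ≠ 0) : ContDiffAt ℝ 1 G w := by
  have h1 : ContDiffAt ℝ 1 (fun y : ℂ => ‖y‖) w := contDiffAt_norm ℝ hw
  have h2 := norm_pos_iff.2 hw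
  exact (((contDiffAt_const.add h1).log (by positivity)).sub (h1.log h2.ne')).smul contDiffAt_id

lemma G_cont : Continuous G := by
  refine continuous_iff_continuousAt.2 fun w => ?_
  rcases eq_or_ne w 0 with rfl | hw
  · have h0 : G 0 = 0 := by simp [G]
    rw [ContinuousAt, h0, tendsto_zero_iff_norm_tendsto_zero]
    have h1 : Continuous fun w : ℂ => ‖w‖ * Real.log (1 + ‖w‖) - ‖w‖ * Real.log ‖w‖ :=
      (continuous_norm.mul ((continuous_const.add continuous_norm).log fun w =>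
        (add_pos_of_pos_of_nonneg one_pos (norm_nonneg w)).ne')).sub (Real.continuous_mul_log.comp continuous_norm)
    have h2 := h1.tendsto 0
    simp only [norm_zero, zero_mul, sub_self] at h2
    refine h2.congr fun w => ?_
    rw [G, norm_smul, Real.norm_of_nonneg (L_nonneg (norm_nonneg _)), L]
    ring
  · exact (G_c1 hw).continuousAt

lemma strict_tsum {ι : Type} {f : ι → ℂ → ℂ} {u : ι → ℝ} {x : ℂ} {d : ℝ} (hd : 0 < d)
    (hu : Summable u) (hu0 : ∀ i, 0 ≤ u i) (hD : ∀ i, ∃ D : ℂ →L[ℝ] ℂ, HasStrictFDerivAt (f i) D x)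
    (hl : ∀ i a b, ‖a - x‖ < d → ‖b - x‖ < d → ‖f i a - f i b‖ ≤ u i * ‖a - b‖)
    (hs : ∀ a, Summable fun i => f i a) :
    ∃ M : ℂ →L[ℝ] ℂ, HasStrictFDerivAt (fun a => ∑' i, f i a) M x := by
  choose D hD using hD
  have hb : Metric.ball x d ∈ 𝓝 x := Metric.ball_mem_nhds x hd
  have h1 : ∀ i, ‖D i‖ ≤ u i := fun i => (hD i).hasFDerivAt.le_of_lip' (hu0 i) (by
    filter_upwards [hb] with a ha
    exact hl i a x (by simpa [dist_eq_norm] using ha) (by simpa using hd))
  have h2 : Summable D := Summable.of_norm_bounded hu h1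
  refine ⟨∑' i, D i, ?_⟩
  rw [hasStrictFDerivAt_iff_isLittleO]
  refine Asymptotics.isLittleO_of_tendsto (fun q hq => by simp [sub_eq_zero.1 hq]) ?_
  have h3 := tendsto_tsum_of_dominated_convergence (𝓕 := 𝓝 (x, x))
    (f := fun (q : ℂ × ℂ) i => (f i q.1 - f i q.2 - D i (q.1 - q.2)) / (q.1 - q.2))
    (g := fun _ => 0) (hu.add hu)
    (fun i => (hasStrictFDerivAt_iff_isLittleO.1 (hD i)).tendsto_div_nhds_zero) (by
      filter_upwards [prod_mem_nhds hb hb] with q hq i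
      rw [norm_div]
      refine div_le_of_le_mul₀ (norm_nonneg _) (add_nonneg (hu0 i) (hu0 i)) ?_
      have e1 := hl i q.1 q.2 (by simpa [dist_eq_norm] using hq.1)
        (by simpa [dist_eq_norm] using hq.2)
      have e2 := (D i).le_of_opNorm_le (h1 i) (q.1 - q.2)
      have e3 := norm_sub_le (f i q.1 - f i q.2) (D i (q.1 - q.2))
      linarith)
  rw [tsum_zero] at h3
  refine h3.congr fun q => ?_
  have h4 := (ContinuousLinearMap.apply ℝ ℂ (q.1 - q.2)).hasSum h2.hasSum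
  exact ((((hs q.1).hasSum.sub (hs q.2).hasSum).sub h4).div_const _).tsum_eq

lemma pp_strict {F : ℂ → ℂ} {M : ℂ →L[ℝ] ℂ} {x : ℂ} (h : HasStrictFDerivAt F M x)
    (he : ∀ a b, ‖a - b‖ ≤ ‖F a - F b‖) :
    ∃ M : ℂ ≃L[ℝ] ℂ, ∀ ε > 0, ∃ δ > 0, ∀ z z', ‖z - x‖ < δ → ‖z' - x‖ < δ →
      ∃ l > 0, ‖F z - F z' - l • M (z - z')‖ ≤ ε * l * ‖z - z'‖ := by
  have hi : Function.Injective (M : ℂ →ₗ[ℝ] ℂ) := by
    refine (injective_iff_map_eq_zero _).2 fun v hv => ?_
    by_contra h0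
    have hv' := norm_pos_iff.2 h0
    obtain ⟨δ, hδ, h1⟩ := strict_iff.1 h (1 / 2) one_half_pos
    have ht : 0 < δ / 2 / ‖v‖ := by positivity
    have e0 : ‖(δ / 2 / ‖v‖) • v‖ = δ / 2 := by
      rw [norm_smul, Real.norm_of_nonneg ht.le]; field_simp
    have e1 := h1 (x + (δ / 2 / ‖v‖) • v) x (by rw [add_sub_cancel_left, e0]; linarith)
      (by simpa using hδ)
    have e2 := he (x + (δ / 2 / ‖v‖) • v) x
    have e3 : M v = 0 := hv
    rw [add_sub_cancel_left, map_smul, e3, smul_zero, sub_zero, e0] at e1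
    rw [add_sub_cancel_left, e0] at e2
    linarith
  refine ⟨(LinearEquiv.ofInjectiveEndo _ hi).toContinuousLinearEquiv, fun ε hε => ?_⟩
  obtain ⟨δ, hδ, h1⟩ := strict_iff.1 h ε hε
  exact ⟨δ, hδ, fun z z' d1 d2 => ⟨1, one_pos, by simpa using h1 z z' d1 d2⟩⟩

lemma expand {W u : ℂ} {l : ℝ} (hl : 0 ≤ l) (h : ‖W - l • u‖ ≤ ‖u‖) : (l - 1) * ‖u‖ ≤ ‖W‖ := by
  have := norm_sub_le W (W - l • u)
  rw [sub_sub_cancel, norm_smul, Real.norm_of_nonneg hl] at this
  linarith

lemma homeo_of_chord {F : ℂ → ℂ} (hc : Continuous F)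
    (h : ∀ z z', ∃ l ≥ (2 : ℝ), ‖F z - F z' - l • (z - z')‖ ≤ ‖z - z'‖) :
    (∀ a b, ‖a - b‖ ≤ ‖F a - F b‖) ∧ ∃ f : ℂ ≃ₜ ℂ, ⇑f = F := by
  have he : ∀ a b, ‖a - b‖ ≤ ‖F a - F b‖ := by
    intro a b
    obtain ⟨l, hl, h1⟩ := h a b
    nlinarith [expand (by linarith) h1, norm_nonneg (a - b)]
  refine ⟨he, ?_⟩
  have hi : Function.Injective F := fun a b e => by
    have := he a b
    rw [e, sub_self, norm_zero, norm_le_zero_iff] at this
    exact sub_eq_zero.1 this
  have hs : Function.Surjective F := by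
    intro y
    obtain ⟨x, hx⟩ := (show Continuous fun z => ‖y - F z‖ by fun_prop).exists_forall_le_of_isBounded
      0 (isBounded_iff_forall_norm_le.2 ⟨2 * ‖y - F 0‖, fun z hz => by
        have e1 := he z 0
        have e2 := norm_sub_le (y - F 0) (y - F z)
        rw [sub_zero] at e1
        rw [sub_sub_sub_cancel_left] at e2
        have e3 : ‖y - F z‖ ≤ ‖y - F 0‖ := hz
        linarith⟩)
    refine ⟨x, by_contra fun h0 => ?_⟩
    set ρ := y - F x with hρ
    have hρ' : 0 < ‖ρ‖ := norm_pos_iff.2 (sub_ne_zero.2 (Ne.symm h0))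
    obtain ⟨δ, hδ, h1⟩ := Metric.continuousAt_iff.1 (hc.continuousAt (x := x)) _ (half_pos hρ')
    obtain ⟨t, ht, t1, t2⟩ : ∃ t > 0, t ≤ 1 / 2 ∧ t * ‖ρ‖ < δ := by
      refine ⟨min (1 / 2) (δ / 2 / ‖ρ‖), by positivity, min_le_left _ _, ?_⟩
      have := (le_div_iff₀ hρ').1 (min_le_right (1 / 2) (δ / 2 / ‖ρ‖))
      linarith
    have e0 : ‖t • ρ‖ = t * ‖ρ‖ := by rw [norm_smul, Real.norm_of_nonneg ht.le]
    have e1 := h1 (x := x + t • ρ) (by rw [dist_eq_norm, add_sub_cancel_left, e0]; exact t2)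
    obtain ⟨l, hl, e2⟩ := h (x + t • ρ) x
    rw [add_sub_cancel_left] at e2
    have e3 := expand (by linarith) e2
    rw [dist_eq_norm] at e1
    rw [e0] at e2 e3
    have e4 : l * t ≤ 1 := by
      by_contra hh
      nlinarith [mul_lt_mul_of_pos_right (not_le.1 hh) hρ', mul_le_mul_of_nonneg_right t1 hρ'.le]
    have e5 : y - F (x + t • ρ) = (1 - l * t) • ρ - (F (x + t • ρ) - F x - l • t • ρ) := by
      rw [sub_smul, one_smul, smul_smul, hρ]; abel
    have e6 := hx (x + t • ρ)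
    have e7 := norm_sub_le ((1 - l * t) • ρ) (F (x + t • ρ) - F x - l • t • ρ)
    rw [← e5, norm_smul, Real.norm_of_nonneg (sub_nonneg.2 e4)] at e7
    nlinarith [mul_pos ht hρ', mul_le_mul_of_nonneg_right hl (mul_pos ht hρ').le]
  let e := Equiv.ofBijective F ⟨hi, hs⟩
  refine ⟨⟨e, hc, (LipschitzWith.of_dist_le_mul (K := 1) fun a b => ?_).continuous⟩, rfl⟩
  have := he (e.symm a) (e.symm b)
  rw [show F (e.symm a) = a from e.apply_symm_apply a,
    show F (e.symm b) = b from e.apply_symm_apply b] at this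
  simpa [dist_eq_norm] using this

lemma exists_pts (δ : ℕ → ℝ) (hδ : ∀ n, 0 < δ n) : ∃ p : Finset ℕ → ℂ,
    ¬ (closure (range p)).Countable ∧
    ∀ n, ∀ z ∈ closure (range p), ∃ S ⊆ Finset.range n, ‖z - p S‖ ≤ 2 * δ n := by
  obtain ⟨ε, h0, h1⟩ : ∃ ε : ℕ → ℝ, (∀ k, 0 < ε k) ∧ ∀ n k, n ≤ k → ε k ≤ (1 / 2) ^ k * δ n :=
    ⟨fun k => (1 / 2) ^ k * (Finset.range (k + 1)).inf' Finset.nonempty_range_add_one δ,
      fun k => mul_pos (by positivity) ((Finset.lt_inf'_iff _).2 fun i _ => hδ i),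
      fun n k h => mul_le_mul_of_nonneg_left
        (Finset.inf'_le _ (Finset.mem_range.2 (by omega))) (by positivity)⟩
  refine ⟨fun S => ((∑ k ∈ S, ε k : ℝ) : ℂ), fun hc => ?_, fun n => ?_⟩
  · have hp : Preperfect (range fun S : Finset ℕ => ((∑ k ∈ S, ε k : ℝ) : ℂ)) := by
      refine preperfect_iff_nhds.2 ?_
      rintro _ ⟨S, rfl⟩ U hU
      have t1 : Tendsto ε atTop (𝓝 0) := by
        refine squeeze_zero (fun k => (h0 k).le) (fun k => h1 0 k k.zero_le) ?_
        simpa using (tendsto_pow_atTop_nhds_zero_of_lt_one (r := (1 / 2 : ℝ)) (by norm_num)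
          (by norm_num)).mul_const (δ 0)
      have t2 : Tendsto (fun k => ((ε k + ∑ k ∈ S, ε k : ℝ) : ℂ)) atTop
          (𝓝 ((∑ k ∈ S, ε k : ℝ) : ℂ)) :=
        (continuous_ofReal.tendsto _).comp (by simpa using t1.add_const (∑ k ∈ S, ε k))
      obtain ⟨k, k1, k2⟩ := ((t2.eventually_mem hU).and (eventually_gt_atTop (S.sup id))).exists
      have k3 : k ∉ S := fun hk => absurd (Finset.le_sup (f := id) hk) (not_le.2 k2)
      refine ⟨_, ⟨k1, insert k S, by simp only [Finset.sum_insert k3]⟩, fun e => ?_⟩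
      have := ofReal_injective e
      linarith [h0 k]
    obtain ⟨f, f1, -, f2⟩ := hp.perfect_closure.exists_nat_bool_injection
      (range_nonempty _).closure
    have h5 : Countable (ℕ → Bool) := countable_univ_iff.1
      (Set.Countable.mono (fun x _ => f1 ⟨x, rfl⟩) (Set.Countable.preimage hc f2))
    obtain ⟨g, hg⟩ := exists_surjective_nat (ℕ → Bool)
    obtain ⟨m, hm⟩ := hg fun n => !g n n
    simpa using congrFun hm m
  · have hcl : IsClosed (⋃ S ∈ (Finset.range n).powerset,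
        Metric.closedBall ((∑ k ∈ S, ε k : ℝ) : ℂ) (2 * δ n)) :=
      isClosed_biUnion_finset fun _ _ => Metric.isClosed_closedBall
    intro z hz
    have := closure_minimal ?_ hcl hz
    · simpa [dist_eq_norm] using this
    rintro _ ⟨S, rfl⟩
    refine mem_iUnion₂.2 ⟨S ∩ Finset.range n, by simp, ?_⟩
    rw [Metric.mem_closedBall, dist_eq_norm, ← ofReal_sub, norm_real,
      ← Finset.sum_inter_add_sum_sdiff S (Finset.range n), add_sub_cancel_left,
      Real.norm_of_nonneg (Finset.sum_nonneg fun k _ => (h0 k).le)]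
    refine (Finset.sum_le_sum fun k hk => h1 n k (by simpa using (Finset.mem_sdiff.1 hk).2)).trans ?_
    rw [← Finset.sum_mul]
    refine mul_le_mul_of_nonneg_right ?_ (hδ n).le
    exact (summable_geometric_two.sum_le_tsum _ fun k _ => by positivity).trans
      tsum_geometric_two.le

theorem main : ∃ f : ℂ ≃ₜ ℂ, PP f ∧ ¬ {z | ¬ DifferentiableAt ℝ f z}.Countable := by
  obtain ⟨w, w0, c, wc, c1⟩ := posSumOfEncodable one_pos (Finset ℕ)
  have h1 : ∀ n : ℕ, ∃ δ > 0, ∀ S ⊆ Finset.range n, ∀ r > 0, r ≤ 3 * δ → n ≤ w S * L r := by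
    intro n
    refine ⟨Real.exp (-∑ S ∈ (Finset.range n).powerset, n / w S) / 3, by positivity,
      fun S hS r hr h => ?_⟩
    rw [mul_div_cancel₀ _ (by norm_num : (3 : ℝ) ≠ 0), ← Real.log_le_iff_le_exp hr] at h
    have e1 := Finset.single_le_sum (f := fun S => n / w S)
      (fun S _ => div_nonneg n.cast_nonneg (w0 S).le) (Finset.mem_powerset.2 hS)
    have e2 := Real.log_nonneg (show 1 ≤ 1 + r by linarith)
    rw [mul_comm, ← div_le_iff₀ (w0 S), L]
    linarith
  choose δ hδ h1 using h1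
  obtain ⟨p, hK, hp⟩ := exists_pts δ hδ
  have hb : ∀ S z, ‖w S • G (z - p S)‖ ≤ w S := fun S z => by
    rw [norm_smul, Real.norm_of_nonneg (w0 S).le]
    exact mul_le_of_le_one_right (w0 S).le (G_bound _)
  have hs : ∀ z, Summable fun S => w S • G (z - p S) := fun z =>
    Summable.of_norm_bounded wc.summable fun S => hb S z
  let F : ℂ → ℂ := fun z => (2 : ℝ) • z + ∑' S, w S • G (z - p S)
  have hc : Continuous F := (show Continuous fun z : ℂ => (2 : ℝ) • z by fun_prop).add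
    (continuous_tsum (f := fun S z => w S • G (z - p S)) (fun S => by have := G_cont; fun_prop)
    wc.summable hb)
  have hm : ∀ {z z' : ℂ} (q : ℂ), ‖z - z'‖ / 2 ≤ max ‖z - q‖ ‖z' - q‖ := by
    intro z z' q
    have := norm_sub_le (z - q) (z' - q)
    rw [sub_sub_sub_cancel_right] at this
    linarith [le_max_left ‖z - q‖ ‖z' - q‖, le_max_right ‖z - q‖ ‖z' - q‖]
  have hn : ∀ (z z' : ℂ) S, 0 ≤ w S * L (max ‖z - p S‖ ‖z' - p S‖) := fun z z' S =>
    mul_nonneg (w0 S).le (L_nonneg (le_max_of_le_left (norm_nonneg _)))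
  have h2 : ∀ z z', z ≠ z' → ∃ l, (∀ S, 2 + w S * L (max ‖z - p S‖ ‖z' - p S‖) ≤ l) ∧
      ‖F z - F z' - l • (z - z')‖ ≤ ‖z - z'‖ := by
    intro z z' hz
    have hz' : 0 < ‖z - z'‖ / 2 := half_pos (norm_pos_iff.2 (sub_ne_zero.2 hz))
    have s1 : Summable fun S => w S * L (max ‖z - p S‖ ‖z' - p S‖) :=
      Summable.of_nonneg_of_le (hn z z') (fun S => mul_le_mul_of_nonneg_left
        (L_anti hz' (hm _)) (w0 S).le) (wc.summable.mul_right _)
    refine ⟨2 + ∑' S, w S * L (max ‖z - p S‖ ‖z' - p S‖), fun S =>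
      add_le_add_right (s1.le_tsum S fun S _ => hn z z' S) _, ?_⟩
    have s2 := (((hs z).hasSum.sub (hs z').hasSum).sub (s1.hasSum.smul_const (z - z'))).norm_le_of_bounded
      (wc.mul_right ‖z - z'‖) (fun S => by
        have := G_chord (z - p S) (z' - p S)
        rw [sub_sub_sub_cancel_right] at this
        rw [mul_smul, ← smul_sub, ← smul_sub, norm_smul, Real.norm_of_nonneg (w0 S).le]
        exact mul_le_mul_of_nonneg_left this (w0 S).le)
    refine le_trans (le_of_eq ?_) (s2.trans (mul_le_of_le_one_left (norm_nonneg _) c1))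
    congr 1
    simp only [F, add_smul, smul_sub]
    abel
  obtain ⟨he, f, hf⟩ := homeo_of_chord hc fun z z' => by
    rcases eq_or_ne z z' with rfl | hz
    · exact ⟨2, le_rfl, by simp⟩
    · obtain ⟨l, l1, l2⟩ := h2 z z' hz
      exact ⟨l, by linarith [l1 ∅, hn z z' ∅], l2⟩
  have h3 : ∀ x ∈ closure (range p), ∀ n : ℕ, ∀ z z', z ≠ z' → ‖z - x‖ < δ n → ‖z' - x‖ < δ n →
      ∃ l, 2 + (n : ℝ) ≤ l ∧ ‖F z - F z' - l • (z - z')‖ ≤ ‖z - z'‖ := by
    intro x hx n z z' hz d1 d2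
    obtain ⟨l, l1, l2⟩ := h2 z z' hz
    obtain ⟨S, hS, d3⟩ := hp n x hx
    have e := h1 n S hS _ ((half_pos (norm_pos_iff.2 (sub_ne_zero.2 hz))).trans_le (hm (p S)))
      (max_le (by linarith [norm_sub_le_norm_sub_add_norm_sub z x (p S)])
        (by linarith [norm_sub_le_norm_sub_add_norm_sub z' x (p S)]))
    exact ⟨l, by linarith [l1 S], l2⟩
  refine ⟨f, fun x => ?_, fun hcount => hK (hcount.mono fun x hx => ?_)⟩
  · rw [hf]
    by_cases hx : x ∈ closure (range p)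
    · refine ⟨ContinuousLinearEquiv.refl ℝ ℂ, fun ε hε => ?_⟩
      obtain ⟨n, hn⟩ := exists_nat_ge (1 / ε)
      refine ⟨δ n, hδ n, fun z z' d1 d2 => ?_⟩
      rcases eq_or_ne z z' with rfl | hz
      · exact ⟨1, one_pos, by simp⟩
      obtain ⟨l, l1, l2⟩ := h3 x hx n z z' hz d1 d2
      refine ⟨l, by linarith [n.cast_nonneg (α := ℝ)], l2.trans ?_⟩
      rw [div_le_iff₀ hε] at hn
      exact le_mul_of_one_le_left (norm_nonneg _) (by nlinarith)
    · obtain ⟨d, hd, h4⟩ := Metric.isOpen_iff.1 isClosed_closure.isOpen_compl x hx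
      have h5 : ∀ S, d ≤ ‖x - p S‖ := fun S => not_lt.1 fun hh =>
        h4 (show p S ∈ Metric.ball x d by rwa [Metric.mem_ball, dist_comm, dist_eq_norm])
          (subset_closure ⟨S, rfl⟩)
      obtain ⟨M, hM⟩ := strict_tsum (f := fun S z => w S • G (z - p S)) (x := x) (half_pos hd)
        (wc.summable.mul_right (L (d / 2) + 1))
        (fun S => mul_nonneg (w0 S).le (by linarith [L_nonneg (half_pos hd).le]))
        (fun S => ⟨_, (((G_c1 (norm_pos_iff.1 (hd.trans_le (h5 S)))).comp x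
          (contDiffAt_id.sub contDiffAt_const)).const_smul (w S)).hasStrictFDerivAt one_ne_zero⟩)
        (fun S a b d1 d2 => by
          rw [← smul_sub, norm_smul, Real.norm_of_nonneg (w0 S).le, mul_assoc]
          refine mul_le_mul_of_nonneg_left ?_ (w0 S).le
          have e1 := G_chord (a - p S) (b - p S)
          rw [sub_sub_sub_cancel_right] at e1
          have e2 : L (max ‖a - p S‖ ‖b - p S‖) ≤ L (d / 2) := L_anti (half_pos hd)
            (le_max_of_le_left (by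
              linarith [norm_sub_le_norm_sub_add_norm_sub x a (p S), norm_sub_rev x a, h5 S]))
          have e3 := norm_add_le (G (a - p S) - G (b - p S) - L (max ‖a - p S‖ ‖b - p S‖) • (a - b))
            (L (max ‖a - p S‖ ‖b - p S‖) • (a - b))
          rw [sub_add_cancel, norm_smul,
            Real.norm_of_nonneg (L_nonneg (le_max_of_le_left (norm_nonneg _)))] at e3
          nlinarith [mul_le_mul_of_nonneg_right e2 (norm_nonneg (a - b))]) hs
      exact pp_strict (((hasStrictFDerivAt_id x).const_smul (2 : ℝ)).add hM) he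
  · intro hd
    rw [hf] at hd
    obtain ⟨B, hB⟩ := hd.hasFDerivAt.isBigO_sub.bound
    obtain ⟨n, hn⟩ := exists_nat_ge B
    have h4 : ∀ᶠ z in 𝓝[≠] x, ‖F z - F x‖ ≤ B * ‖z - x‖ ∧ z ∈ Metric.ball x (δ n) :=
      nhdsWithin_le_nhds (hB.and (Metric.ball_mem_nhds x (hδ n)))
    obtain ⟨z, ⟨z1, z2⟩, z3⟩ := (h4.and self_mem_nhdsWithin).exists
    obtain ⟨l, l1, l2⟩ := h3 x hx n z x z3 (by simpa [dist_eq_norm] using z2)
      (by simpa using hδ n)
    have e1 := expand (by linarith [n.cast_nonneg (α := ℝ)]) l2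
    have e2 := norm_pos_iff.2 (sub_ne_zero.2 (show z ≠ x from z3))
    nlinarith

end Pool.Agent.H48.HoB
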