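import Mathlib

set_option autoImplicit false

namespace Pool.Agent.H48.HoDefs

open Set
open scoped Manifold

variable {S : Type} [TopologicalSpace S] [ChartedSpace ℂ S]

/-- A `C¹` curve of a surface `S` (modelled on the plane `ℂ = ℝ²`, real differentiability): a
simple closed curve that is an embedded one-dimensional `C¹` submanifold, i.e. around each of its
points some `C¹` diffeomorphism from an open set of `S` onto an open set of the plane takes the
curve to the horizontal axis. -/
def Curve (C : Set S) : Prop :=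
  (∃ σ : Circle → S, Continuous σ ∧ Function.Injective σ ∧ range σ = C) ∧
  ∀ p ∈ C, ∃ e : OpenPartialHomeomorph S ℂ, p ∈ e.source ∧
    ContMDiffOn 𝓘(ℝ, ℂ) 𝓘(ℝ, ℂ) 1 e e.source ∧ ContMDiffOn 𝓘(ℝ, ℂ) 𝓘(ℝ, ℂ) 1 e.symm e.target ∧
    ∀ z ∈ e.source, z ∈ C ↔ (e z).im = 0

/-- `f` and its inverse map every `C¹` curve onto a `C¹` curve. -/
def Homeo1 (f : S ≃ₜ S) : Prop :=
  (∀ C : Set S, Curve C → Curve (f '' C)) ∧ ∀ C : Set S, Curve C → Curve (f.symm '' C)

/-- The set of points at which `f` is not (Frechet) differentiable in charts. -/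
def NonDiff (f : S → S) : Set S := {p | ¬ MDifferentiableAt 𝓘(ℝ, ℂ) 𝓘(ℝ, ℂ) f p}

end Pool.Agent.H48.HoDefs
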