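import Pool.Agent.H48.HoB
import Pool.Agent.H48.HoDefs

set_option autoImplicit false

namespace Pool.Agent.H48.HoC

open Set Filter Topology Complex Pool.Agent.H48.HoA Pool.Agent.H48.HoDefs
open scoped Manifold

lemma tan_of_slice {C : Set ℂ} {p : ℂ} {e : OpenPartialHomeomorph ℂ ℂ} (hp : p ∈ e.source)
    (h1 : ContDiffOn ℝ 1 e e.source) (h2 : ContDiffOn ℝ 1 e.symm e.target)
    (h3 : ∀ z ∈ e.source, z ∈ C → (e z).im = 0) : ∃ v ≠ 0, Tan C p v := by
  have hs := e.open_source.mem_nhds hp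
  have ht := e.open_target.mem_nhds (e.map_source hp)
  have d1 := (h1.contDiffAt hs).hasStrictFDerivAt one_ne_zero
  have d2 := (h2.contDiffAt ht).hasStrictFDerivAt one_ne_zero
  set B := fderiv ℝ e p
  set A := fderiv ℝ e.symm (e p)
  have hBA : B.comp A = ContinuousLinearMap.id ℝ ℂ := by
    have d3 : HasFDerivAt e B (e.symm (e p)) := by rw [e.left_inv hp]; exact d1.hasFDerivAt
    refine (d3.comp (e p) d2.hasFDerivAt).unique ((hasFDerivAt_id _).congr_of_eventuallyEq ?_)
    filter_upwards [ht] with w hw using e.right_inv hw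
  refine ⟨A 1, fun h0 => ?_, fun ε hε => ?_⟩
  · have := DFunLike.congr_fun hBA 1
    simp [h0] at this
  obtain ⟨δ, hδ, k1⟩ := strict_iff.1 d1 1 one_pos
  have hK : 0 < 1 + ‖B‖ := by positivity
  obtain ⟨η, hη, k2⟩ := strict_iff.1 d2 (ε / (1 + ‖B‖)) (div_pos hε hK)
  obtain ⟨ρ, hρ, k3⟩ := Metric.mem_nhds_iff.1
    (inter_mem hs (d1.continuousAt.preimage_mem_nhds (Metric.ball_mem_nhds _ hη)))
  refine ⟨_, lt_min hδ hρ, fun z hz z' hz' a1 a2 => ⟨(e z - e z').re, ?_⟩⟩
  rw [lt_min_iff] at a1 a2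
  obtain ⟨b1, b2⟩ := k3 (show z ∈ Metric.ball p ρ by simpa [dist_eq_norm] using a1.2)
  obtain ⟨b3, b4⟩ := k3 (show z' ∈ Metric.ball p ρ by simpa [dist_eq_norm] using a2.2)
  have c1 := k1 z z' a1.1 a2.1
  have c2 := k2 (e z) (e z') (by simpa [dist_eq_norm] using b2) (by simpa [dist_eq_norm] using b4)
  have c3 : e z - e z' = (e z - e z').re • (1 : ℂ) :=
    Complex.ext (by simp) (by simp [h3 z b1 hz, h3 z' b3 hz'])
  rw [e.left_inv b1, e.left_inv b3] at c2
  rw [← map_smul, ← c3]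
  refine c2.trans ?_
  rw [div_mul_eq_mul_div, div_le_iff₀ hK, mul_assoc]
  refine mul_le_mul_of_nonneg_left ?_ hε.le
  have c4 := norm_add_le (e z - e z' - B (z - z')) (B (z - z'))
  rw [sub_add_cancel] at c4
  nlinarith [B.le_opNorm (z - z')]

lemma c1_of_curve {C : Set ℂ} (h : Curve C) : C1Curve C := by
  refine c1_of_tan h.1 fun p hp => ?_
  obtain ⟨e, e1, e2, e3, e4⟩ := h.2 p hp
  exact tan_of_slice e1 (contMDiffOn_iff_contDiffOn.1 e2) (contMDiffOn_iff_contDiffOn.1 e3)
    fun z hz => (e4 z hz).1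

lemma curve_of_c1 {C : Set ℂ} (h : C1Curve C) : Curve C := by
  refine ⟨h.1, fun p hp => ?_⟩
  obtain ⟨v, g, r, U, hv, hr, hU, hpU, hg, hC⟩ := h.2 p hp
  have hre : ContDiff ℝ 1 re := reCLM.contDiff
  have hof : ContDiff ℝ 1 ofReal := ofRealCLM.contDiff
  have s1 : ContDiffOn ℝ 1 (fun z : ℂ => (z - p) / v - g ((z - p) / v).re * I)
      {z | ((z - p) / v).re ∈ Ioo (-r) r} := by
    have a : ContDiff ℝ 1 fun z : ℂ => (z - p) / v := (contDiff_id.sub contDiff_const).div_const v
    exact a.contDiffOn.sub ((hof.comp_contDiffOn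
      (hg.comp (hre.comp a).contDiffOn fun z hz => hz)).mul contDiffOn_const)
  have s2 : ContDiffOn ℝ 1 (fun w : ℂ => p + v * (w + g w.re * I)) {w | w.re ∈ Ioo (-r) r} :=
    contDiffOn_const.add (contDiffOn_const.mul (contDiffOn_id.add ((hof.comp_contDiffOn
      (hg.comp hre.contDiffOn fun z hz => hz)).mul contDiffOn_const)))
  have i1 : ∀ w : ℂ, (p + v * (w + g w.re * I) - p) / v = w + g w.re * I := fun w => by
    field_simp; ring
  let e0 : OpenPartialHomeomorph ℂ ℂ :=
    { toFun := fun z => (z - p) / v - g ((z - p) / v).re * I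
      invFun := fun w => p + v * (w + g w.re * I)
      source := {z | ((z - p) / v).re ∈ Ioo (-r) r}
      target := {w | w.re ∈ Ioo (-r) r}
      map_source' := fun z hz => by simpa using hz
      map_target' := fun w hw => by simp only [mem_ofPred_eq, i1]; simpa using hw
      left_inv' := fun z _ => by
        have : ((z - p) / v - g ((z - p) / v).re * I).re = ((z - p) / v).re := by simp
        simp only [this]; field_simp; ring
      right_inv' := fun w _ => by simp only [i1]; simp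
      open_source := isOpen_Ioo.preimage (f := fun z : ℂ => ((z - p) / v).re) (by fun_prop)
      open_target := isOpen_Ioo.preimage continuous_re
      continuousOn_toFun := s1.continuousOn
      continuousOn_invFun := s2.continuousOn }
  refine ⟨e0.restrOpen U hU, ⟨by simp [e0, hr], hpU⟩,
    contMDiffOn_iff_contDiffOn.2 (s1.mono inter_subset_left),
    contMDiffOn_iff_contDiffOn.2 (s2.mono inter_subset_left), fun z hz => ⟨fun hzC => ?_, fun h0 => ?_⟩⟩
  · obtain ⟨⟨a, -, rfl⟩, -⟩ : z ∈ (fun a : ℝ => p + v * (a + g a * I)) '' Ioo (-r) r ∩ U :=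
      hC ▸ ⟨hzC, hz.2⟩
    have := i1 a
    rw [ofReal_re] at this
    show ((p + v * (a + g a * I) - p) / v - g ((p + v * (a + g a * I) - p) / v).re * I).im = 0
    rw [this]; simp
  · have h1 : z ∈ (fun a : ℝ => p + v * (a + g a * I)) '' Ioo (-r) r ∩ U := by
      refine ⟨⟨((z - p) / v).re, hz.1, ?_⟩, hz.2⟩
      have h2 : ((z - p) / v - g ((z - p) / v).re * I).im = 0 := h0
      have h3 : g ((z - p) / v).re = ((z - p) / v).im := by simp at h2; linarith
      simp only [h3, re_add_im]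
      field_simp; ring
    exact (hC ▸ h1 : z ∈ C ∩ U).1

theorem q1 : ∃ f : ℂ ≃ₜ ℂ, Homeo1 f ∧ ¬ (NonDiff f).Countable := by
  obtain ⟨f, h1, h2⟩ := HoB.main
  refine ⟨f, ⟨fun C hC => curve_of_c1 (h1.image f (c1_of_curve hC)),
    fun C hC => curve_of_c1 ((h1.symm f).image f.symm (c1_of_curve hC))⟩, ?_⟩
  simpa only [NonDiff, mdifferentiableAt_iff_differentiableAt] using h2

end Pool.Agent.H48.HoC
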