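import Pool.Agent.H48.HoC

set_option autoImplicit false

namespace Pool.Agent.H48.HoD

open Set Filter Topology Complex Pool.Agent.H48.HoA Pool.Agent.H48.HoB
open scoped ComplexConjugate

lemma affine (a c : ℂ) (ha : a ≠ 0) : ∃ f : ℂ ≃ₜ ℂ, PP f ∧ ∀ z, f z = c + a * z := by
  refine ⟨(Homeomorph.mulLeft₀ a ha).trans (Homeomorph.addLeft c), fun x => ?_, fun z => rfl⟩
  have hi : Function.Injective (LinearMap.mul ℝ ℂ a) := mul_right_injective₀ ha
  refine ⟨(LinearEquiv.ofInjectiveEndo _ hi).toContinuousLinearEquiv, fun ε hε =>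
    ⟨1, one_pos, fun z z' _ _ => ⟨1, one_pos, ?_⟩⟩⟩
  have : c + a * z - (c + a * z') - (1 : ℝ) • (a * (z - z')) = 0 := by rw [one_smul]; ring
  show ‖c + a * z - (c + a * z') - (1 : ℝ) • (a * (z - z'))‖ ≤ _
  rw [this, norm_zero]
  positivity

lemma re_chord {a b : ℂ} (h : ‖a‖ = ‖b‖) : ((a - b) * conj (a + b)).re = 0 := by
  have : ‖a‖ ^ 2 = ‖b‖ ^ 2 := by rw [h]
  rw [Complex.sq_norm, Complex.sq_norm, normSq_apply, normSq_apply] at this
  simp
  linarith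

lemma circle : C1Curve (Metric.sphere (0 : ℂ) 1) := by
  refine c1_of_tan ⟨(↑), continuous_subtype_val, Subtype.val_injective, Subtype.range_coe⟩
    fun p hp => ?_
  rw [mem_sphere_zero_iff_norm] at hp
  refine ⟨I * p, mul_ne_zero I_ne_zero (norm_pos_iff.1 (by rw [hp]; exact one_pos)),
    fun ε hε => ⟨ε, hε, fun z hz z' hz' d1 d2 => ⟨((z - z') * conj p).im, ?_⟩⟩⟩
  rw [mem_sphere_zero_iff_norm] at hz hz'
  have e0 : conj p * p = 1 := by rw [conj_mul', hp]; simp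
  have e1 : z - z' - ((z - z') * conj p).im • (I * p) = ((z - z') * conj p).re * p := by
    have := re_add_im ((z - z') * conj p)
    rw [real_smul]
    linear_combination (-p) * this - (z - z') * e0
  have e2 := re_chord (hz.trans hz'.symm)
  have e3 : 2 * ((z - z') * conj p).re = -((z - z') * conj (z - p + (z' - p))).re := by
    have : (z - z') * conj (z - p + (z' - p)) = (z - z') * conj (z + z') - 2 * ((z - z') * conj p) := by
      simp only [map_add, map_sub]; ring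
    rw [this, sub_re, e2]; simp
  have e4 := abs_re_le_norm ((z - z') * conj (z - p + (z' - p)))
  rw [norm_mul, norm_conj] at e4
  have e5 := norm_add_le (z - p) (z' - p)
  rw [e1, norm_mul, hp, mul_one, norm_real, Real.norm_eq_abs]
  have e6 : |2 * ((z - z') * conj p).re| ≤ ‖z - z'‖ * (2 * ε) := by
    rw [e3, abs_neg]
    exact e4.trans (mul_le_mul_of_nonneg_left (by linarith) (norm_nonneg _))
  rw [abs_mul, abs_two] at e6
  linarith

lemma bump_homeo : ∃ K ≥ (8 : ℝ), ∀ (ι : Type) (a p : ι → ℂ) (w : ι → ℝ) (c : ℝ), HasSum w c → c ≤ 1 →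
    (∀ i, 0 ≤ w i) → (∀ i, a i ≠ 0) → (∀ i, K * ‖a i - p i‖ ≤ w i * ‖a i‖) →
    (∀ i j, i ≠ j → 2 * ‖a j‖ ≤ ‖a i‖ ∨ 2 * ‖a i‖ ≤ ‖a j‖) →
    ∃ Φ : ℂ ≃ₜ ℂ, PP Φ ∧ Φ 0 = 0 ∧ (∀ i, Φ (p i) = 2 * a i) ∧ ∀ z, ‖Φ z‖ ≤ 3 * ‖z‖ := by
  let b : ContDiffBump (0 : ℂ) := ⟨1 / 2, 1, by norm_num, by norm_num⟩
  obtain ⟨B, hB⟩ := ContDiff.lipschitzWith_of_hasCompactSupport b.hasCompactSupport
    (b.contDiff (n := 1)) one_ne_zero
  refine ⟨16 * B + 8, by linarith [B.coe_nonneg], fun ι a p w c wc c1 w0 a0 h1 h2 => ?_⟩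
  have a1 := fun i => norm_pos_iff.2 (a0 i)
  have w1 : ∀ i, w i ≤ 1 := fun i => (le_hasSum wc i fun j _ => w0 j).trans c1
  have h3 : ∀ i, 8 * ‖a i - p i‖ ≤ ‖a i‖ := fun i => by
    nlinarith [h1 i, mul_le_mul_of_nonneg_right (w1 i) (a1 i).le, B.coe_nonneg,
      mul_nonneg B.coe_nonneg (norm_nonneg (a i - p i))]
  let t : ι → ℂ → ℂ := fun i z => b ((8 / ‖a i‖) • (z - p i)) • (2 * (a i - p i))
  have t0 : ∀ i z, ‖a i‖ / 8 ≤ ‖z - p i‖ → t i z = 0 := by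
    intro i z hz
    have : b ((8 / ‖a i‖) • (z - p i)) = 0 := b.zero_of_le_dist (by
      show 1 ≤ _
      rw [dist_zero_right, norm_smul, Real.norm_of_nonneg (div_pos (by norm_num) (a1 i)).le,
        div_mul_eq_mul_div, le_div_iff₀ (a1 i)]
      linarith)
    simp only [t, this, zero_smul]
  have p1 : ∀ i, 7 / 8 * ‖a i‖ ≤ ‖p i‖ ∧ ‖p i‖ ≤ 9 / 8 * ‖a i‖ := fun i => by
    have := abs_le.1 (abs_norm_sub_norm_le (a i) (p i))
    constructor <;> linarith [h3 i]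
  have tl : ∀ i z z', ‖t i z - t i z'‖ ≤ w i * ‖z - z'‖ := by
    intro i z z'
    have e1 := hB.dist_le_mul ((8 / ‖a i‖) • (z - p i)) ((8 / ‖a i‖) • (z' - p i))
    rw [dist_eq_norm, dist_eq_norm, ← smul_sub, sub_sub_sub_cancel_right, norm_smul,
      Real.norm_of_nonneg (div_pos (by norm_num) (a1 i)).le] at e1
    simp only [t]
    rw [← sub_smul, norm_smul, norm_mul, Complex.norm_two]
    refine (mul_le_mul_of_nonneg_right e1 (by positivity)).trans ?_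
    have e2 : B * (8 / ‖a i‖ * ‖z - z'‖) * (2 * ‖a i - p i‖)
        = 16 * B * ‖a i - p i‖ / ‖a i‖ * ‖z - z'‖ := by ring
    rw [e2]
    refine mul_le_mul_of_nonneg_right ?_ (norm_nonneg _)
    rw [div_le_iff₀ (a1 i)]
    nlinarith [h1 i, norm_nonneg (a i - p i)]
  have t1 : ∀ i, t i 0 = 0 := fun i => t0 i 0 (by rw [zero_sub, norm_neg]; linarith [p1 i, a1 i])
  have ts : ∀ z, Summable fun i => t i z := fun z =>
    Summable.of_norm_bounded (wc.summable.mul_right ‖z‖) fun i => by simpa [t1] using tl i z 0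
  let F : ℂ → ℂ := fun z => (2 : ℝ) • z + ∑' i, t i z
  have hF : ∀ z z', ‖F z - F z' - (2 : ℝ) • (z - z')‖ ≤ ‖z - z'‖ := by
    intro z z'
    have := ((ts z).hasSum.sub (ts z').hasSum).norm_le_of_bounded (wc.mul_right ‖z - z'‖)
      fun i => tl i z z'
    refine le_trans (le_of_eq ?_) (this.trans (mul_le_of_le_one_left (norm_nonneg _) c1))
    congr 1
    simp only [F, smul_sub]
    abel
  have hL : ∀ z z', ‖F z - F z'‖ ≤ 3 * ‖z - z'‖ := by
    intro z z'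
    have := norm_add_le (F z - F z' - (2 : ℝ) • (z - z')) ((2 : ℝ) • (z - z'))
    rw [sub_add_cancel, norm_smul, Real.norm_two] at this
    linarith [hF z z']
  have F0 : F 0 = 0 := by simp [F, t1]
  obtain ⟨he, f, hf⟩ := homeo_of_chord (F := F)
    (LipschitzWith.of_dist_le_mul (K := 3) fun z z' => by simpa [dist_eq_norm] using hL z z').continuous
    fun z z' => ⟨2, le_rfl, hF z z'⟩
  refine ⟨f, fun x => ?_, by rw [hf, F0], fun i => ?_, fun z => by simpa [hf, F0] using hL z 0⟩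
  · rw [hf]
    obtain ⟨M, hM⟩ := strict_tsum (f := t) (x := x) one_pos wc.summable w0
      (fun i => ⟨_, ((((b.contDiff (n := 1)).comp ((contDiff_id.sub contDiff_const).const_smul
        (8 / ‖a i‖))).smul contDiff_const).contDiffAt (x := x)).hasStrictFDerivAt one_ne_zero⟩)
      (fun i z z' _ _ => tl i z z') ts
    exact pp_strict (((hasStrictFDerivAt_id x).const_smul (2 : ℝ)).add hM) he
  · rw [hf]
    simp only [F]
    rw [tsum_eq_single i fun j hj => t0 j _ ?_]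
    · have : b 0 = 1 := b.one_of_mem_closedBall (Metric.mem_closedBall_self b.rIn_pos.le)
      simp only [t, sub_self, smul_zero, this, one_smul]
      rw [real_smul]
      push_cast; ring
    · have := abs_le.1 (abs_norm_sub_norm_le (p i) (p j))
      rcases h2 i j hj.symm with h | h <;> linarith [p1 i, p1 j, a1 i, a1 j]

lemma proj {R : ℝ} {a : ℂ} (ha : ‖a‖ < R) : ∃ q ∈ Metric.sphere (0 : ℂ) 1,
    R * ‖a - (I * R + R * q)‖ ≤ ‖a‖ ^ 2 + 2 * R * |a.im| := by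
  have hR := (norm_nonneg a).trans_lt ha
  have hI : ‖I * (R : ℂ)‖ = R := by simp [hR.le]
  have h0 : 0 < ‖a - I * R‖ := norm_pos_iff.2 (sub_ne_zero.2 fun e => by
    rw [e, hI] at ha; exact lt_irrefl _ ha)
  set s := ‖a - I * R‖ with hs
  refine ⟨(a - I * R) / s, by simp [← hs, h0.ne', abs_of_pos h0], ?_⟩
  have e1 : a - (I * R + R * ((a - I * R) / s)) = ((s - R : ℝ) : ℂ) * ((a - I * R) / s) := by
    have : (s : ℂ) ≠ 0 := by exact_mod_cast h0.ne'
    push_cast; field_simp; ring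
  have e2 : s ^ 2 = ‖a‖ ^ 2 - 2 * R * a.im + R ^ 2 := by
    rw [hs, Complex.sq_norm, Complex.sq_norm, normSq_apply, normSq_apply]; simp; ring
  rw [e1, norm_mul, norm_div, ← hs, norm_real, norm_real, Real.norm_of_nonneg h0.le,
    div_self h0.ne', mul_one, Real.norm_eq_abs]
  have e3 := abs_le.1 (le_refl |a.im|)
  rcases abs_cases (s - R) with h | h <;> rw [h.1] <;> nlinarith [sq_nonneg ‖a‖]

lemma pair {x u : ℂ} (hu : ‖u‖ = 1) {α β : ℕ → ℂ} (β0 : ∀ n, β n ≠ 0)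
    (h2 : ∀ n, 2 * ‖β n‖ ≤ ‖α n‖) (hα : Tendsto α atTop (𝓝 0))
    (sα : Tendsto (fun n => (α n / ‖α n‖ * conj u).im) atTop (𝓝 0))
    (sβ : Tendsto (fun n => (β n / ‖β n‖ * conj u).im) atTop (𝓝 0)) {U : Set ℂ} (hU : U ∈ 𝓝 x) :
    ∃ C ⊆ U, C1Curve C ∧ x ∈ C ∧ ∃ᶠ n in atTop, x + α n ∈ C ∧ x + β n ∈ C := by
  obtain ⟨K, hK, hb⟩ := bump_homeo
  obtain ⟨w, w0, c, wc, c1⟩ := posSumOfEncodable one_pos (ℕ × Bool)
  obtain ⟨ρ, hρ, hρU⟩ := Metric.mem_nhds_iff.1 hU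
  obtain ⟨R, hR, hR'⟩ : ∃ R > 0, 6 * R < ρ := ⟨ρ / 7, by positivity, by linarith⟩
  have β1 := fun n => norm_pos_iff.2 (β0 n)
  have α1 : ∀ n, 0 < ‖α n‖ := fun n => by linarith [h2 n, β1 n]
  have hα' := tendsto_zero_iff_norm_tendsto_zero.1 hα
  have hβ' : Tendsto (fun n => ‖β n‖) atTop (𝓝 0) :=
    squeeze_zero (fun n => norm_nonneg _) (fun n => by linarith [h2 n, β1 n]) hα'
  have key : ∀ γ : ℕ → ℂ, Tendsto (fun n => ‖γ n‖) atTop (𝓝 0) →
      Tendsto (fun n => (γ n / ‖γ n‖ * conj u).im) atTop (𝓝 0) → ∀ e > 0, ∀ᶠ n in atTop,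
      ‖γ n‖ < R ∧ K * (‖γ n‖ / R + 2 * |(γ n / ‖γ n‖ * conj u).im|) < e := by
    intro γ g1 g2 e he
    refine (g1.eventually (gt_mem_nhds hR)).and (Tendsto.eventually ?_ (gt_mem_nhds he))
    simpa using ((g1.div_const R).add (g2.abs.const_mul 2)).const_mul K
  have h3 : ∀ k m : ℕ, ∃ n, (k ≤ n ∧ 2 * ‖α n‖ < ‖β m‖) ∧
      (‖α n‖ < R ∧ K * (‖α n‖ / R + 2 * |(α n / ‖α n‖ * conj u).im|) < w (k, true)) ∧
      (‖β n‖ < R ∧ K * (‖β n‖ / R + 2 * |(β n / ‖β n‖ * conj u).im|) < w (k, false)) := by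
    intro k m
    refine (((eventually_ge_atTop k).and (Tendsto.eventually ?_ (gt_mem_nhds (β1 m)))).and
      ((key α hα' sα _ (w0 _)).and (key β hβ' sβ _ (w0 _)))).exists
    simpa using hα'.const_mul 2
  choose nx n1 n2 n3 using h3
  let s : ℕ → ℕ := fun k => Nat.rec (nx 0 0) (fun k m => nx (k + 1) m) k
  have s1 : ∀ k, ∃ m, s k = nx k m := fun k => by cases k <;> exact ⟨_, rfl⟩
  have s2 : ∀ k, 2 * ‖α (s (k + 1))‖ < ‖β (s k)‖ := fun k => (n1 (k + 1) (s k)).2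
  have s3 : ∀ k k', k < k' → 2 * ‖α (s k')‖ ≤ ‖β (s k)‖ := by
    intro k k' h
    induction h with
    | refl => exact (s2 k).le
    | @step m _ ih => linarith [s2 m, h2 (s m), β1 (s m), α1 (s m)]
  let γ : ℕ × Bool → ℂ := fun i => if i.2 then α (s i.1) else β (s i.1)
  have γ1 : ∀ i, 0 < ‖γ i‖ ∧ ‖β (s i.1)‖ ≤ ‖γ i‖ ∧ ‖γ i‖ ≤ ‖α (s i.1)‖ ∧ ‖γ i‖ < R ∧
      K * (‖γ i‖ / R + 2 * |(γ i / ‖γ i‖ * conj u).im|) < w i := by
    rintro ⟨k, _ | _⟩ <;> obtain ⟨m, hm⟩ := s1 k <;> simp only [γ, hm]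
    · exact ⟨β1 _, le_rfl, by simpa using by linarith [h2 (nx k m), β1 (nx k m)], n3 k m⟩
    · exact ⟨α1 _, by simpa using by linarith [h2 (nx k m), β1 (nx k m)], le_rfl, n2 k m⟩
  have an : ∀ i, ‖γ i * conj u / 2‖ = ‖γ i‖ / 2 := fun i => by simp [hu]
  choose q q1 q2 using fun i => proj (R := R) (a := γ i * conj u / 2)
    (by rw [an]; linarith [γ1 i])
  obtain ⟨Φ, P1, P2, P3, P4⟩ := hb _ (fun i => γ i * conj u / 2) (fun i => I * R + R * q i) w c wc c1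
    (fun i => (w0 i).le) (fun i => norm_pos_iff.1 (by rw [an]; linarith [γ1 i])) (fun i => by
      obtain ⟨g1, -, -, -, g2⟩ := γ1 i
      have e1 : (γ i * conj u / 2).im = ‖γ i‖ / 2 * (γ i / ‖γ i‖ * conj u).im := by
        rw [← im_ofReal_mul]
        congr 1
        have : (‖γ i‖ : ℂ) ≠ 0 := by exact_mod_cast g1.ne'
        push_cast; field_simp
      have e2 := q2 i
      rw [e1, abs_mul, abs_of_pos (half_pos g1), an] at e2
      rw [an]
      refine le_trans (mul_le_mul_of_nonneg_left (?_ : _ ≤ (‖γ i‖ / R + 2 *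
        |(γ i / ‖γ i‖ * conj u).im|) * (‖γ i‖ / 2)) (by linarith)) ?_
      · refine le_of_mul_le_mul_left (e2.trans ?_) hR
        have : R * ((‖γ i‖ / R + 2 * |(γ i / ‖γ i‖ * conj u).im|) * (‖γ i‖ / 2))
          = ‖γ i‖ ^ 2 / 2 + 2 * R * (‖γ i‖ / 2 * |(γ i / ‖γ i‖ * conj u).im|) := by field_simp
        rw [this]
        nlinarith [sq_nonneg ‖γ i‖]
      · rw [← mul_assoc]
        exact mul_le_mul_of_nonneg_right g2.le (half_pos g1).le)
    (by
      rintro ⟨k, b⟩ ⟨k', b'⟩ hne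
      simp only [an]
      rcases lt_trichotomy k k' with h | rfl | h
      · left; linarith [s3 _ _ h, γ1 (k, b), γ1 (k', b')]
      · cases b <;> cases b' <;> simp only [γ] <;> simp at hne ⊢
        · right; linarith [h2 (s k)]
        · left; linarith [h2 (s k)]
      · right; linarith [s3 _ _ h, γ1 (k, b), γ1 (k', b')])
  obtain ⟨A1, A2, A3⟩ := affine R (I * R) (by exact_mod_cast hR.ne')
  obtain ⟨B1, B2, B3⟩ := affine u x (norm_pos_iff.1 (by rw [hu]; exact one_pos))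
  have hm : ∀ i, x + γ i ∈ B1 '' (Φ '' (A1 '' Metric.sphere 0 1)) := fun i =>
    ⟨_, ⟨_, ⟨_, q1 i, A3 _⟩, P3 i⟩, by
      have e0 : u * conj u = 1 := by rw [mul_conj', hu]; simp
      rw [B3]
      linear_combination γ i * e0⟩
  refine ⟨_, ?_, B2.image _ (P1.image _ (A2.image _ circle)), ⟨_, ⟨_, ⟨-I, by simp, rfl⟩, rfl⟩, ?_⟩,
    frequently_atTop.2 fun k => ⟨s k, ?_, hm (k, true), hm (k, false)⟩⟩
  · rintro _ ⟨_, ⟨_, ⟨z, hz, rfl⟩, rfl⟩, rfl⟩
    rw [mem_sphere_zero_iff_norm] at hz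
    refine hρU ?_
    rw [Metric.mem_ball, dist_eq_norm, B3, add_sub_cancel_left, norm_mul, hu, one_mul]
    have e1 := norm_add_le (I * R) (R * z)
    rw [← A3, norm_mul, norm_mul, norm_I, hz, norm_real, Real.norm_of_nonneg hR.le] at e1
    linarith [P4 (A1 z)]
  · rw [B3, A3, show I * R + R * -I = 0 by ring, P2, mul_zero, add_zero]
  · obtain ⟨m, hm⟩ := s1 k
    rw [hm]
    exact (n1 k m).1

end Pool.Agent.H48.HoD
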