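import Pool.Agent.H48.HoD

set_option autoImplicit false

namespace Pool.Agent.H48.HoE

open Set Filter Topology Complex Pool.Agent.H48.HoA Pool.Agent.H48.HoB Pool.Agent.H48.HoD
open scoped ComplexConjugate

/-- images of `C¹` curves have tangent lines -/
def PT (F : OpenPartialHomeomorph ℂ ℂ) : Prop :=
  ∀ C ⊆ F.source, C1Curve C → ∀ p ∈ C, ∃ v ≠ 0, Tan (F '' C) (F p) v

lemma tan_lim {C : Set ℂ} {p v a : ℂ} (h : Tan C p v) {z z' : ℕ → ℂ}
    (hz : Tendsto z atTop (𝓝 p)) (hz' : Tendsto z' atTop (𝓝 p))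
    (hC : ∃ᶠ n in atTop, z n ∈ C ∧ z' n ∈ C)
    (ha : Tendsto (fun n => (z n - z' n) / ‖z n - z' n‖) atTop (𝓝 a)) : (a * conj v).im = 0 := by
  have h1 : ∀ ε > 0, |(a * conj v).im| ≤ ε * ‖v‖ := by
    intro ε hε
    obtain ⟨δ, hδ, h2⟩ := h ε hε
    refine (isClosed_le (f := fun a : ℂ => |(a * conj v).im|) (g := fun _ => ε * ‖v‖) (by fun_prop)
      continuous_const).mem_of_frequently_of_tendsto ?_ ha
    refine (hC.and_eventually ((hz.eventually (Metric.ball_mem_nhds p hδ)).and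
      (hz'.eventually (Metric.ball_mem_nhds p hδ)))).mono fun n hn => ?_
    obtain ⟨t, ht⟩ := h2 _ hn.1.1 _ hn.1.2 (by simpa [dist_eq_norm] using hn.2.1)
      (by simpa [dist_eq_norm] using hn.2.2)
    have e1 : ((z n - z' n) / ‖z n - z' n‖ * conj v).im
        = ((z n - z' n - t • v) * conj v).im / ‖z n - z' n‖ := by
      rw [div_mul_eq_mul_div, div_ofReal_im]
      congr 1
      simp
      ring
    show |((z n - z' n) / ‖z n - z' n‖ * conj v).im| ≤ ε * ‖v‖
    rw [e1, abs_div, abs_norm]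
    refine div_le_of_le_mul₀ (norm_nonneg _) (by positivity) ((abs_im_le_norm _).trans ?_)
    rw [norm_mul, norm_conj]
    nlinarith [mul_le_mul_of_nonneg_right ht (norm_nonneg v)]
  refine abs_nonpos_iff.1 (le_of_forall_pos_le_add fun ε hε => ?_)
  refine (h1 (ε / (‖v‖ + 1)) (by positivity)).trans ?_
  rw [zero_add, div_mul_eq_mul_div, div_le_iff₀ (by positivity)]
  nlinarith

lemma par_trans {a b v : ℂ} (hv : v ≠ 0) (h1 : (a * conj v).im = 0) (h2 : (b * conj v).im = 0) :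
    (a * conj b).im = 0 := by
  have h3 := normSq_pos.2 hv
  rw [normSq_apply] at h3
  simp only [mul_im, conj_re, conj_im] at *
  refine (mul_eq_zero.1 ?_).resolve_right h3.ne'
  linear_combination (b.re * v.re + b.im * v.im) * h1 - (a.re * v.re + a.im * v.im) * h2

lemma slope {α : ℕ → ℂ} {a u : ℂ} (h : Tendsto (fun n => α n / ‖α n‖) atTop (𝓝 a))
    (h0 : (a * conj u).im = 0) : Tendsto (fun n => (α n / ‖α n‖ * conj u).im) atTop (𝓝 0) :=
  h0 ▸ (continuous_im.tendsto _).comp (h.mul_const _)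

lemma self_im (a : ℂ) : (a * conj a).im = 0 := by simp [mul_comm]

lemma lemA {F : OpenPartialHomeomorph ℂ ℂ} (h1 : PT F) (h2 : PT F.symm) {x : ℂ}
    (hx : x ∈ F.source) : ∃ η > 0, ∀ z w, ‖z - x‖ = ‖w - x‖ → ‖z - x‖ < η →
      ‖z - w‖ ≤ η * ‖z - x‖ → ‖F z - F x‖ ≤ 2 * ‖F w - F x‖ := by
  by_contra hc
  push Not at hc
  obtain ⟨ρ, hρ, hρs⟩ := Metric.isOpen_iff.1 F.open_source x hx
  have t0 : Tendsto (fun n : ℕ => min ρ (1 / ((n : ℝ) + 1))) atTop (𝓝 0) := by
    simpa [hρ.le] using (tendsto_const_nhds (x := ρ)).min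
      (tendsto_one_div_add_atTop_nhds_zero_nat (𝕜 := ℝ))
  choose z0 w0 c1 c2 c3 c4 using fun n : ℕ => hc (min ρ (1 / ((n : ℝ) + 1))) (by positivity)
  have zw : ∀ n, z0 n ≠ w0 n := fun n e => by
    have := c4 n
    rw [e] at this
    linarith [norm_nonneg (F (w0 n) - F x)]
  have zx : ∀ n, z0 n - x ≠ 0 := fun n e => by
    have := c1 n
    rw [e, norm_zero, eq_comm, norm_eq_zero] at this
    exact zw n (sub_left_injective (e.trans this.symm))
  have wx : ∀ n, w0 n - x ≠ 0 := fun n => norm_pos_iff.1 (c1 n ▸ norm_pos_iff.2 (zx n))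
  have zs : ∀ n, z0 n ∈ F.source := fun n =>
    hρs (by rw [Metric.mem_ball, dist_eq_norm]; exact (c2 n).trans_le (min_le_left _ _))
  have ws : ∀ n, w0 n ∈ F.source := fun n =>
    hρs (by rw [Metric.mem_ball, dist_eq_norm, ← c1]; exact (c2 n).trans_le (min_le_left _ _))
  have Fz : ∀ n, F (z0 n) - F x ≠ 0 := fun n e =>
    zx n (sub_eq_zero.2 (F.injOn (zs n) hx (sub_eq_zero.1 e)))
  have Fw : ∀ n, F (w0 n) - F x ≠ 0 := fun n e =>
    wx n (sub_eq_zero.2 (F.injOn (ws n) hx (sub_eq_zero.1 e)))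
  have hs := isCompact_sphere (0 : ℂ) 1
  have un : ∀ {a : ℂ}, a ≠ 0 → a / ‖a‖ ∈ Metric.sphere (0 : ℂ) 1 := fun ha => by simp [ha]
  obtain ⟨⟨u, e, a, b⟩, ⟨hu, he, ha, hb⟩, φ, hφ, hlim⟩ :=
    (hs.prod (hs.prod (hs.prod hs))).tendsto_subseq (x := fun n => ((z0 n - x) / ‖z0 n - x‖,
      (z0 n - w0 n) / ‖z0 n - w0 n‖, (F (z0 n) - F x) / ‖F (z0 n) - F x‖,
      (F (w0 n) - F x) / ‖F (w0 n) - F x‖))
      fun n => ⟨un (zx n), un (sub_ne_zero.2 (zw n)), un (Fz n), un (Fw n)⟩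
  rw [mem_sphere_zero_iff_norm] at hu he ha hb
  simp only at hu he ha hb
  simp only [nhds_prod_eq, tendsto_prod_iff', Function.comp_def] at hlim
  obtain ⟨lu, le, la, lb⟩ := hlim
  have t1 := t0.comp hφ.tendsto_atTop
  have nz : Tendsto (fun n => ‖z0 (φ n) - x‖) atTop (𝓝 0) :=
    squeeze_zero (fun n => norm_nonneg _) (fun n => (c2 _).le) t1
  have nw : Tendsto (fun n => ‖w0 (φ n) - x‖) atTop (𝓝 0) := by simpa only [c1] using nz
  have tz := tendsto_iff_norm_sub_tendsto_zero.2 nz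
  have tw := tendsto_iff_norm_sub_tendsto_zero.2 nw
  have tFz : Tendsto (fun n => F (z0 (φ n))) atTop (𝓝 (F x)) := (F.continuousAt hx).tendsto.comp tz
  have tFw : Tendsto (fun n => F (w0 (φ n))) atTop (𝓝 (F x)) := (F.continuousAt hx).tendsto.comp tw
  have lu' : Tendsto (fun n => (w0 (φ n) - x) / ‖w0 (φ n) - x‖) atTop (𝓝 u) := by
    refine lu.congr_dist (squeeze_zero (fun n => dist_nonneg) (fun n => ?_) t1)
    rw [dist_eq_norm, ← c1, ← sub_div, sub_sub_sub_cancel_right, norm_div, norm_real, norm_norm,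
      div_le_iff₀ (norm_pos_iff.2 (zx _))]
    exact c3 _
  by_cases hab : (b * conj a).im = 0
  · obtain ⟨C, C1, C2, C3, C4⟩ := pair (x := F x) ha (α := fun n => F (z0 (φ n)) - F x)
      (β := fun n => F (w0 (φ n)) - F x) (fun n => Fw _) (fun n => (c4 _).le)
      (by simpa using tFz.sub_const (F x)) (slope la (self_im a)) (slope lb hab)
      (F.open_target.mem_nhds (F.map_source hx))
    obtain ⟨v, hv, hT⟩ := h2 C C1 C2 _ C3
    rw [F.left_inv hx] at hT
    simp only [add_sub_cancel] at C4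
    have m1 : ∀ y ∈ F.source, F y ∈ C → y ∈ F.symm '' C := fun y hy h => ⟨_, h, F.left_inv hy⟩
    have k1 := tan_lim hT tz tendsto_const_nhds
      (C4.mono fun n h => ⟨m1 _ (zs _) h.1, m1 _ hx C3⟩) lu
    have k2 := tan_lim hT tz tw (C4.mono fun n h => ⟨m1 _ (zs _) h.1, m1 _ (ws _) h.2⟩) le
    have k3 := par_trans hv k2 k1
    have k4 : (e * conj (u + u)).re = 0 := by
      refine tendsto_nhds_unique ((continuous_re.tendsto _).comp (le.mul
        ((continuous_conj.tendsto _).comp (lu.add lu')))) (tendsto_const_nhds.congr fun n => ?_)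
      have := re_chord (c1 (φ n))
      rw [sub_sub_sub_cancel_right] at this
      simp only [Function.comp_apply]
      rw [← c1, ← add_div, map_div₀, conj_ofReal, div_mul_div_comm, ← ofReal_mul, div_ofReal_re,
        this, zero_div]
    have k5 : e * conj u = 0 := Complex.ext (by simp at k4 ⊢; linarith) k3
    have := congrArg norm k5
    simp [he, hu] at this
  · have h3 : ∀ n, ∃ m ≥ n, 2 * ‖w0 (φ m) - x‖ < ‖z0 (φ n) - x‖ := fun n =>
      ((eventually_ge_atTop n).and (Tendsto.eventually (by simpa using nw.const_mul 2)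
        (gt_mem_nhds (norm_pos_iff.2 (zx (φ n)))))).exists
    choose m m1 m2 using h3
    have tm : Tendsto m atTop atTop := tendsto_atTop_mono m1 tendsto_id
    obtain ⟨C, C1, C2, C3, C4⟩ := pair (x := x) hu (α := fun n => z0 (φ n) - x)
      (β := fun n => w0 (φ (m n)) - x) (fun n => wx _) (fun n => (m2 _).le)
      (by simpa using tz.sub_const x) (slope lu (self_im u)) (slope (lu'.comp tm) (self_im u))
      (F.open_source.mem_nhds hx)
    obtain ⟨v, hv, hT⟩ := h1 C C1 C2 _ C3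
    simp only [add_sub_cancel] at C4
    have k1 := tan_lim hT tFz tendsto_const_nhds
      (C4.mono fun n h => ⟨mem_image_of_mem _ h.1, mem_image_of_mem _ C3⟩) la
    have k2 := tan_lim hT (tFw.comp tm) tendsto_const_nhds
      (C4.mono fun n h => ⟨mem_image_of_mem _ h.2, mem_image_of_mem _ C3⟩) (lb.comp tm)
    exact hab (par_trans hv k2 k1)

lemma lemB {F : OpenPartialHomeomorph ℂ ℂ} (h1 : PT F) (h2 : PT F.symm) {x : ℂ}
    (hx : x ∈ F.source) : ∃ H ≥ (1 : ℝ), ∃ η > 0, ∀ z w, ‖z - x‖ = ‖w - x‖ → ‖z - x‖ < η →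
      ‖F z - F x‖ ≤ H * ‖F w - F x‖ := by
  obtain ⟨η, hη, h⟩ := lemA h1 h2 hx
  obtain ⟨N, hN⟩ := exists_nat_gt (Real.pi / η)
  have N0 : (0 : ℝ) < N := lt_trans (div_pos Real.pi_pos hη) hN
  refine ⟨2 ^ N, one_le_pow₀ one_le_two, η, hη, fun z w e1 e2 => ?_⟩
  rcases eq_or_ne (z - x) 0 with h0 | h0
  · rw [sub_eq_zero.1 h0, sub_self, norm_zero]; positivity
  set θ := arg ((w - x) / (z - x))
  let y : ℕ → ℂ := fun k => x + (z - x) * exp (I * (θ / N : ℝ)) ^ k
  have y1 : ∀ k, ‖y k - x‖ = ‖z - x‖ := fun k => by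
    simp only [y, add_sub_cancel_left, norm_mul, norm_pow, norm_exp_I_mul_ofReal, one_pow, mul_one]
  have y2 : ∀ k, ‖F z - F x‖ ≤ 2 ^ k * ‖F (y k) - F x‖ := by
    intro k
    induction k with
    | zero => simp [y]
    | succ k ih =>
      have e3 : y (k + 1) - y k = (y k - x) * (exp (I * (θ / N : ℝ)) - 1) := by
        simp only [y]; ring
      have e4 : ‖θ / N‖ ≤ η := by
        rw [norm_div, Real.norm_of_nonneg N0.le, div_le_iff₀ N0, Real.norm_eq_abs]
        rw [div_lt_iff₀ hη] at hN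
        linarith [abs_arg_le_pi ((w - x) / (z - x))]
      have := h (y k) (y (k + 1)) ((y1 _).trans (y1 _).symm) (by rwa [y1]) (by
        rw [norm_sub_rev, e3, norm_mul, mul_comm]
        exact mul_le_mul_of_nonneg_right (Real.norm_exp_I_mul_ofReal_sub_one_le.trans e4)
          (norm_nonneg _))
      refine ih.trans ?_
      rw [pow_succ, mul_assoc]
      exact mul_le_mul_of_nonneg_left this (by positivity)
  have y3 : y N = w := by
    have e3 := norm_mul_exp_arg_mul_I ((w - x) / (z - x))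
    rw [norm_div, ← e1, div_self (norm_pos_iff.2 h0).ne', ofReal_one, one_mul] at e3
    have e4 : exp (I * (θ / N : ℝ)) ^ N = exp (θ * I) := by
      rw [← exp_nat_mul]
      congr 1
      have : (N : ℂ) ≠ 0 := by exact_mod_cast N0.ne'
      push_cast; field_simp
    simp only [y]
    rw [e4, e3]
    field_simp; ring
  exact y3 ▸ y2 N

lemma lemC {F : OpenPartialHomeomorph ℂ ℂ} (h1 : PT F) (h2 : PT F.symm) {x : ℂ}
    (hx : x ∈ F.source) {W : Set ℂ} (hW : W ∈ 𝓝 (F x)) : ∃ H > (0 : ℝ), ∀ᶠ y in 𝓝 x,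
      Metric.ball (F x) (‖F y - F x‖ / H) ⊆ F.symm ⁻¹' Metric.closedBall x ‖y - x‖ ∩ W := by
  obtain ⟨H, hH, η, hη, h⟩ := lemB h1 h2 hx
  obtain ⟨ρ, hρ, hρW⟩ := Metric.mem_nhds_iff.1
    (inter_mem hW (F.open_target.mem_nhds (F.map_source hx)))
  have H0 : 0 < H := by linarith
  refine ⟨H, H0, ?_⟩
  filter_upwards [Metric.ball_mem_nhds x hη,
    (F.continuousAt hx).preimage_mem_nhds (Metric.ball_mem_nhds _ hρ)] with y y1 y2 w hw
  rw [mem_preimage, Metric.mem_ball, dist_eq_norm] at y2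
  rw [Metric.mem_ball, dist_eq_norm] at y1 hw
  have w1 : ‖w - F x‖ < ρ := hw.trans_le ((div_le_self (norm_nonneg _) hH).trans y2.le)
  have w2 : ∀ t ∈ Icc (0 : ℝ) 1, ‖F x + t • (w - F x) - F x‖ ≤ ‖w - F x‖ := fun t ht => by
    rw [add_sub_cancel_left, norm_smul, Real.norm_of_nonneg ht.1]
    exact mul_le_of_le_one_left (norm_nonneg _) ht.2
  have w3 : ∀ t ∈ Icc (0 : ℝ) 1, F x + t • (w - F x) ∈ F.target := fun t ht =>
    (hρW (by rw [Metric.mem_ball, dist_eq_norm]; exact (w2 t ht).trans_lt w1)).2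
  refine ⟨?_, (hρW (by rwa [Metric.mem_ball, dist_eq_norm])).1⟩
  rw [mem_preimage, Metric.mem_closedBall, dist_eq_norm]
  by_contra hc
  have hcont : ContinuousOn (fun t : ℝ => ‖F.symm (F x + t • (w - F x)) - x‖) (Icc 0 1) :=
    ((F.continuousOn_symm.comp (by fun_prop) w3).sub continuousOn_const).norm
  obtain ⟨t, ht, e⟩ := intermediate_value_Icc zero_le_one hcont
    (show ‖y - x‖ ∈ _ from ⟨by simp [F.left_inv hx], by simpa using (not_le.1 hc).le⟩)
  have := h y _ e.symm y1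
  rw [F.right_inv (w3 t ht)] at this
  rw [lt_div_iff₀ H0] at hw
  nlinarith [mul_le_mul_of_nonneg_left (w2 t ht) H0.le]

end Pool.Agent.H48.HoE
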