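import Pool.Agent.H48.HoE

set_option autoImplicit false

namespace Pool.Agent.H48.HoF

open Set Filter Topology Complex MeasureTheory Pool.Agent.H48.HoA Pool.Agent.H48.HoE
  Pool.Agent.H48.HoDefs Pool.Agent.H48.HoC
open scoped Manifold ContDiff

lemma dens (A : Set ℂ) : ∀ᵐ x ∂(volume : Measure ℂ), x ∈ A → ∀ ε > 0, ∀ᶠ y in 𝓝 x,
    ∃ a ∈ A, ‖a - y‖ ≤ ε * ‖y - x‖ := by
  have h := ae_all_iff.2 fun m : ℕ => ae_imp_of_ae_restrict
    (IsUnifLocDoublingMeasure.ae_tendsto_measure_inter_div.{0, 0} (volume : Measure ℂ) A m)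
  filter_upwards [h] with x hx hA ε hε
  obtain ⟨m, hm⟩ := exists_nat_ge (1 / ε)
  rw [div_le_iff₀ hε] at hm
  have h1 := hx m hA (l := 𝓝[≠] x) id (fun y => ε * ‖y - x‖) (by
    refine tendsto_nhdsWithin_iff.2 ⟨tendsto_nhdsWithin_of_tendsto_nhds ?_, ?_⟩
    · exact Continuous.tendsto' (by fun_prop) _ _ (by simp)
    · filter_upwards [self_mem_nhdsWithin] with y hy
      exact mul_pos hε (norm_pos_iff.2 (sub_ne_zero.2 hy))) (Eventually.of_forall fun y => by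
      rw [Metric.mem_closedBall, dist_comm, dist_eq_norm, id, ← mul_assoc]
      exact le_mul_of_one_le_left (norm_nonneg _) hm)
  rw [← nhdsNE_sup_pure, eventually_sup]
  refine ⟨?_, x, hA, by simp⟩
  filter_upwards [h1.eventually (lt_mem_nhds zero_lt_one)] with y hy
  obtain ⟨a, a1, a2⟩ := nonempty_of_measure_ne_zero (ENNReal.div_pos_iff.1 hy).1
  exact ⟨a, a1, by simpa [dist_eq_norm] using a2⟩

lemma upgrade {F : ℂ → ℂ} {A : Set ℂ} {x : ℂ} {k r : ℝ} (hk : 0 ≤ k) (hr : 0 < r)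
    (hA : ∀ a ∈ A, ∀ y, ‖y - a‖ < r → ‖F y - F a‖ ≤ k * ‖y - a‖)
    (hd : DifferentiableWithinAt ℝ F A x)
    (h : ∀ ε > 0, ∀ᶠ y in 𝓝 x, ∃ a ∈ A, ‖a - y‖ ≤ ε * ‖y - x‖) : DifferentiableAt ℝ F x := by
  obtain ⟨D, hD⟩ := hd
  refine ⟨D, hasFDerivAt_iff_isLittleO.2 (Asymptotics.isLittleO_iff.2 fun c hc => ?_)⟩
  obtain ⟨ε, hε, e1, e2⟩ : ∃ ε > 0, ε ≤ 1 ∧ ε * (k + 2 + ‖D‖) ≤ c :=
    ⟨min 1 (c / (k + 2 + ‖D‖)), by positivity, min_le_left _ _,
      (le_div_iff₀ (by positivity)).1 (min_le_right _ _)⟩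
  obtain ⟨δ, hδ, h1⟩ := Metric.mem_nhdsWithin_iff.1
    (Asymptotics.isLittleO_iff.1 (hasFDerivWithinAt_iff_isLittleO.1 hD) hε)
  filter_upwards [h ε hε, Metric.ball_mem_nhds x (lt_min hr (half_pos hδ))] with y ⟨a, a1, a2⟩ hy
  rw [Metric.mem_ball, dist_eq_norm, lt_min_iff] at hy
  have b1 : ‖a - y‖ ≤ ‖y - x‖ := a2.trans (mul_le_of_le_one_left (norm_nonneg _) e1)
  have b2 : ‖a - x‖ ≤ 2 * ‖y - x‖ := by linarith [norm_sub_le_norm_sub_add_norm_sub a y x]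
  have b3 : ‖F a - F x - D (a - x)‖ ≤ ε * ‖a - x‖ :=
    h1 ⟨by rw [Metric.mem_ball, dist_eq_norm]; linarith [hy.2], a1⟩
  have b4 := hA a a1 y (by rw [norm_sub_rev]; linarith [hy.1])
  rw [norm_sub_rev y a] at b4
  have b5 := D.le_opNorm (a - y)
  have b6 : F y - F x - D (y - x) = (F y - F a) + (F a - F x - D (a - x)) + D (a - y) := by
    simp only [map_sub]; abel
  rw [b6]
  refine norm_add₃_le.trans ?_
  nlinarith [mul_le_mul_of_nonneg_left a2 hk, mul_le_mul_of_nonneg_left a2 (norm_nonneg D),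
    mul_le_mul_of_nonneg_left b2 hε.le, mul_le_mul_of_nonneg_right e2 (norm_nonneg (y - x))]

/-- Stepanov's theorem in the plane -/
lemma stepanov (F : ℂ → ℂ) : ∀ᵐ x ∂(volume : Measure ℂ),
    (∃ k : ℝ, ∀ᶠ y in 𝓝 x, ‖F y - F x‖ ≤ k * ‖y - x‖) → DifferentiableAt ℝ F x := by
  let A : ℕ × ℕ → Set ℂ := fun i => {x | ‖x - TopologicalSpace.denseSeq ℂ i.2‖ < 1 / (i.1 + 1) / 2 ∧
    ∀ y, ‖y - x‖ < 1 / (i.1 + 1) → ‖F y - F x‖ ≤ i.1 * ‖y - x‖}
  have h1 : ∀ i, LipschitzOnWith i.1 F (A i) := fun i =>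
    LipschitzOnWith.of_dist_le_mul fun a ha b hb => by
      rw [dist_eq_norm, dist_eq_norm]
      refine hb.2 a ?_
      have := norm_sub_le_norm_sub_add_norm_sub a (TopologicalSpace.denseSeq ℂ i.2) b
      linarith [ha.1, hb.1, norm_sub_rev b (TopologicalSpace.denseSeq ℂ i.2)]
  filter_upwards [ae_all_iff.2 fun i => (h1 i).ae_differentiableWithinAt_of_mem,
    ae_all_iff.2 fun i => dens (A i)] with x h2 h3 ⟨k, hk⟩
  obtain ⟨δ, hδ, h4⟩ := Metric.eventually_nhds_iff.1 hk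
  obtain ⟨n, hn⟩ := exists_nat_ge (max k (1 / δ))
  have n0 : (0 : ℝ) < 1 / (n + 1) := by positivity
  obtain ⟨j, hj⟩ := (TopologicalSpace.denseRange_denseSeq ℂ).exists_dist_lt x (half_pos n0)
  have hx : x ∈ A (n, j) := ⟨by rwa [← dist_eq_norm], fun y hy =>
    (h4 (by
      rw [dist_eq_norm]
      refine hy.trans_le ((one_div_le (by positivity) hδ).2 ?_)
      linarith [le_max_right k (1 / δ)])).trans
      (mul_le_mul_of_nonneg_right ((le_max_left _ _).trans hn) (norm_nonneg _))⟩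
  exact upgrade n.cast_nonneg n0 (fun a ha => ha.2) (h2 _ hx) (h3 _ hx)

lemma planar {F : OpenPartialHomeomorph ℂ ℂ} (h1 : PT F) (h2 : PT F.symm) :
    ∀ᵐ x ∂(volume : Measure ℂ), x ∈ F.source → DifferentiableAt ℝ F x := by
  let W : ℕ → Set ℂ := fun n => F.target ∩ Metric.ball 0 n
  have Wo : ∀ n, IsOpen (W n) := fun n => F.open_target.inter Metric.isOpen_ball
  have Wf : ∀ n, IsFiniteMeasure (volume.restrict (W n)) := fun n => isFiniteMeasure_restrict.2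
    ((measure_mono inter_subset_right).trans_lt measure_ball_lt_top).ne
  let ρ : ℕ → Measure ℂ := fun n => (volume.restrict (W n)).map F.symm
  filter_upwards [stepanov F, ae_all_iff.2 fun n => Besicovitch.ae_tendsto_rnDeriv (ρ n) volume,
    ae_all_iff.2 fun n => Measure.rnDeriv_lt_top (ρ n) volume] with x h3 h4 h5 hx
  refine h3 ?_
  obtain ⟨n, hn⟩ := exists_nat_gt ‖F x‖
  obtain ⟨H, hH, h6⟩ := lemC h1 h2 hx ((Wo n).mem_nhds ⟨F.map_source hx, by simpa using hn⟩)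
  obtain ⟨m, hm⟩ := ENNReal.exists_nat_gt (h5 n).ne
  obtain ⟨δ, hδ, h7⟩ := Metric.mem_nhdsWithin_iff.1 ((h4 n).eventually (gt_mem_nhds hm))
  refine ⟨H * (m + 1), ?_⟩
  filter_upwards [h6, Metric.ball_mem_nhds x hδ] with y y1 y2
  rcases eq_or_ne y x with rfl | hy
  · simp
  have r0 := norm_pos_iff.2 (sub_ne_zero.2 hy)
  have e1 : ρ n (Metric.closedBall x ‖y - x‖) / volume (Metric.closedBall x ‖y - x‖) < m :=
    h7 ⟨by simpa [dist_eq_norm] using y2, r0⟩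
  have e2 := (measure_mono (μ := volume) y1).trans ((Measure.restrict_apply' (Wo n).measurableSet).ge.trans
    (Measure.map_apply_of_aemeasurable ((F.continuousOn_symm.mono inter_subset_left).aemeasurable
      (Wo n).measurableSet) measurableSet_closedBall).ge)
  have e3 := e2.trans ((ENNReal.div_le_iff (Metric.measure_closedBall_pos _ _ r0).ne'
    measure_closedBall_lt_top.ne).1 e1.le)
  have e4 := ENNReal.toReal_mono (ENNReal.mul_ne_top (ENNReal.natCast_ne_top m)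
    measure_closedBall_lt_top.ne) e3
  have s0 : 0 ≤ ‖F y - F x‖ / H := by positivity
  simp only [Complex.volume_ball, Complex.volume_closedBall, ENNReal.toReal_mul, ENNReal.toReal_pow,
    ENNReal.toReal_ofReal s0, ENNReal.toReal_ofReal r0.le, ENNReal.toReal_natCast,
    ENNReal.coe_toReal, NNReal.coe_real_pi] at e4
  rw [← mul_assoc] at e4
  have e5 := le_of_mul_le_mul_right e4 Real.pi_pos
  rw [mul_assoc, ← div_le_iff₀' hH]
  refine (pow_le_pow_iff_left₀ s0 (by positivity) two_ne_zero).1 (e5.trans ?_)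
  rw [mul_pow]
  exact mul_le_mul_of_nonneg_right (by nlinarith [m.cast_nonneg (α := ℝ)]) (sq_nonneg _)

variable {S : Type} [TopologicalSpace S] [ChartedSpace ℂ S]

lemma transfer {φ ψ : OpenPartialHomeomorph S ℂ}
    (hφ : φ ∈ IsManifold.maximalAtlas 𝓘(ℝ, ℂ) ∞ S) (hψ : ψ ∈ IsManifold.maximalAtlas 𝓘(ℝ, ℂ) ∞ S)
    {f : S → S} (hf : ∀ C, Curve C → Curve (f '' C)) {F : OpenPartialHomeomorph ℂ ℂ}
    (hF : ∀ z ∈ F.source, z ∈ φ.target ∧ f (φ.symm z) ∈ ψ.source ∧ F z = ψ (f (φ.symm z))) :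
    PT F := by
  intro C hC h1 p hp
  have one : (1 : ℕ∞ω) ≤ ∞ := by simp
  have hD : Curve (φ.symm '' C) := by
    obtain ⟨⟨σ, s1, s2, rfl⟩, h2⟩ := curve_of_c1 h1
    have s3 : ∀ t, σ t ∈ φ.target := fun t => (hF _ (hC ⟨t, rfl⟩)).1
    refine ⟨⟨φ.symm ∘ σ, φ.continuousOn_symm.comp_continuous s1 s3,
      fun a b e => s2 (φ.symm.injOn (s3 a) (s3 b) e), range_comp _ _⟩, ?_⟩
    rintro _ ⟨c, hc, rfl⟩
    obtain ⟨e, e1, e2, e3, e4⟩ := h2 c hc
    have c1 := (hF _ (hC hc)).1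
    refine ⟨φ.trans e, ⟨φ.map_target c1, show φ (φ.symm c) ∈ e.source by rwa [φ.right_inv c1]⟩,
      e2.comp (((contMDiffOn_of_mem_maximalAtlas hφ).of_le one).mono inter_subset_left)
        inter_subset_right,
      ((contMDiffOn_symm_of_mem_maximalAtlas hφ).of_le one).comp (e3.mono inter_subset_left)
        inter_subset_right, fun z hz => Iff.trans ⟨?_, fun h => ⟨_, h, φ.left_inv hz.1⟩⟩
        (e4 _ hz.2)⟩
    rintro ⟨d, hd, rfl⟩
    rwa [φ.right_inv (hF _ (hC hd)).1]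
  obtain ⟨e, e1, e2, e3, e4⟩ := (hf _ hD).2 _ ⟨_, ⟨p, hp, rfl⟩, rfl⟩
  obtain ⟨-, p2, p3⟩ := hF _ (hC hp)
  refine tan_of_slice (e := ψ.symm.trans e)
    ⟨p3 ▸ ψ.map_source p2, show ψ.symm (F p) ∈ e.source by rwa [p3, ψ.left_inv p2]⟩
    (contMDiffOn_iff_contDiffOn.1 (e2.comp (((contMDiffOn_symm_of_mem_maximalAtlas hψ).of_le
      one).mono inter_subset_left) inter_subset_right))
    (contMDiffOn_iff_contDiffOn.1 (((contMDiffOn_of_mem_maximalAtlas hψ).of_le one).comp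
      (e3.mono inter_subset_left) inter_subset_right)) ?_
  rintro _ hz ⟨c, hc, rfl⟩
  obtain ⟨-, c2, c3⟩ := hF _ (hC hc)
  refine (e4 _ hz.2).1 (show ψ.symm (F c) ∈ _ from ?_)
  rw [c3, ψ.left_inv c2]
  exact ⟨_, ⟨c, hc, rfl⟩, rfl⟩

theorem q2 [IsManifold 𝓘(ℝ, ℂ) ∞ S] {f : S ≃ₜ S} (hf : Homeo1 f) {φ : OpenPartialHomeomorph S ℂ}
    (hφ : φ ∈ IsManifold.maximalAtlas 𝓘(ℝ, ℂ) ∞ S) :
    volume (φ '' (NonDiff f ∩ φ.source)) = 0 := by
  refine measure_null_of_locally_null _ ?_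
  rintro _ ⟨p, ⟨-, hp⟩, rfl⟩
  set ψ := chartAt ℂ (f p)
  have hψ : ψ ∈ IsManifold.maximalAtlas 𝓘(ℝ, ℂ) ∞ S := IsManifold.chart_mem_maximalAtlas _
  let F := (φ.symm.trans f.toOpenPartialHomeomorph).trans ψ
  have h1 : ∀ z ∈ F.source, z ∈ φ.target ∧ f (φ.symm z) ∈ ψ.source ∧ F z = ψ (f (φ.symm z)) :=
    fun z hz => ⟨hz.1.1, hz.2, rfl⟩
  have h2 := planar (transfer hφ hψ hf.1 h1)
    (transfer hψ hφ hf.2 fun z hz => ⟨hz.1, hz.2.2, rfl⟩)
  have h3 : φ p ∈ F.source := ⟨⟨φ.map_source hp, trivial⟩, by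
    show f (φ.symm (φ p)) ∈ ψ.source
    rw [φ.left_inv hp]; exact mem_chart_source _ _⟩
  refine ⟨_, inter_mem_nhdsWithin _ (F.open_source.mem_nhds h3), measure_mono_null ?_ h2⟩
  rintro _ ⟨⟨q, ⟨q1, q2⟩, rfl⟩, q3⟩ h4
  obtain ⟨-, a2, a3⟩ := h1 _ q3
  rw [φ.left_inv q2] at a2 a3
  have d1 : MDifferentiableAt 𝓘(ℝ, ℂ) 𝓘(ℝ, ℂ) φ q :=
    (contMDiffAt_of_mem_maximalAtlas hφ q2).mdifferentiableAt (by simp)
  have d2 : MDifferentiableAt 𝓘(ℝ, ℂ) 𝓘(ℝ, ℂ) ψ.symm (F (φ q)) :=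
    (contMDiffAt_symm_of_mem_maximalAtlas hψ (a3 ▸ ψ.map_source a2)).mdifferentiableAt (by simp)
  refine q1 ((d2.comp q ((h4 q3).mdifferentiableAt.comp q d1)).congr_of_eventuallyEq ?_)
  filter_upwards [φ.open_source.mem_nhds q2,
    f.continuous.continuousAt.preimage_mem_nhds (ψ.open_source.mem_nhds a2)] with y y1 y2
  show f y = ψ.symm (ψ (f (φ.symm (φ y))))
  rw [φ.left_inv y1, ψ.left_inv y2]

end Pool.Agent.H48.HoF
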