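import Mathlib

set_option autoImplicit false

namespace Pool.Agent.H48.Hyp

open PowerSeries Finset

/-- Rationals with odd denominator. -/
abbrev O : Subring ℚ := (Rat.padicValuation 2).integer

theorem memO {x : ℚ} : x ∈ O ↔ Odd x.den :=
  Rat.padicValuation_le_one_iff.trans (by simp [← even_iff_two_dvd])

theorem invO {k : ℤ} (hk : Odd k) : (k : ℚ)⁻¹ ∈ O := by
  rw [memO, Rat.inv_intCast_den, if_neg (by rintro rfl; simp at hk)]
  exact hk.natAbs

/-- Series with coefficients in `O`. -/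
def S : Subring ℚ⟦X⟧ where
  carrier := {f | ∀ n, coeff n f ∈ O}
  mul_mem' hf hg n := by rw [coeff_mul]; exact sum_mem fun p _ => mul_mem (hf _) (hg _)
  add_mem' hf hg n := by rw [map_add]; exact add_mem (hf n) (hg n)
  neg_mem' hf n := by rw [map_neg]; exact neg_mem (hf n)
  zero_mem' n := by simp
  one_mem' n := by rw [coeff_one]; split <;> simp

theorem XS : (X : ℚ⟦X⟧) ∈ S := fun n => by rw [coeff_X]; split <;> simp

noncomputable def D : Derivation ℚ ℚ⟦X⟧ ℚ⟦X⟧ := (2 * X : ℚ⟦X⟧) • d⁄dX ℚ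

theorem cD (n : ℕ) (f : ℚ⟦X⟧) : coeff n (D f) = 2 * n * coeff n f := by
  rw [D, Derivation.smul_apply, smul_eq_mul, mul_assoc, two_mul, map_add]
  cases n
  · simp
  · simp [coeff_succ_X_mul, coeff_derivative]; ring

theorem DX : D X = 2 * X := by simp [D]

theorem Dn (k : ℕ) [k.AtLeastTwo] : D (ofNat(k) : ℚ⟦X⟧) = 0 := D.map_natCast k

theorem cn (k n : ℕ) [k.AtLeastTwo] (f : ℚ⟦X⟧) : coeff n (ofNat(k) * f) = ofNat(k) * coeff n f :=
  coeff_C_mul n f ofNat(k)

theorem DS {f : ℚ⟦X⟧} (hf : f ∈ S) : D f ∈ S := fun n => by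
  rw [cD]
  exact mul_mem (mul_mem (natCast_mem O 2) (natCast_mem O n)) (hf n)

theorem solve {ρ g : ℚ⟦X⟧} (hρ : ρ ∈ S) (h0 : coeff 0 ρ = 0) (k : ℕ → ℤ) (hk : ∀ n, Odd (k n))
    (h : ∀ n, k n * coeff n g + coeff n (ρ * g) ∈ O) : g ∈ S := fun n => by
  induction n using Nat.strong_induction_on with
  | _ n ih =>
  have h1 : coeff n (ρ * g) ∈ O := by
    rw [coeff_mul]
    refine sum_mem fun p hp => ?_
    rcases Nat.eq_zero_or_pos p.1 with h2 | h2
    · simp [h2, h0, -coeff_zero_eq_constantCoeff]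
    · exact mul_mem (hρ _) (ih _ (by have := mem_antidiagonal.1 hp; omega))
  have h2 : (k n : ℚ) ≠ 0 := Int.cast_ne_zero.2 fun h => by simpa [h] using hk n
  simpa [h2] using mul_mem (invO (hk n)) (sub_mem (h n) h1)

theorem invS {f g : ℚ⟦X⟧} (hf : f ∈ S) (h0 : coeff 0 f = 1) (h : f * g ∈ S) : g ∈ S :=
  solve (sub_mem hf (one_mem _)) (by rw [map_sub, h0]; simp) (fun _ => 1) (fun _ => odd_one)
    fun n => by simpa [sub_mul] using h n

def gg : ℕ → ℤ
  | 0 => 2
  | 1 => 1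
  | k + 2 => (8 * (k + 1) ^ 2 + 1) * gg (k + 1) - (2 * k + 1) ^ 4 * gg k

theorem fac (k : ℕ) : (4 : ℚ) ^ (k + 1) / (2 * (2 * (k + 1)).factorial) ∈ O := by
  obtain ⟨e, m, hm, h⟩ := Nat.exists_eq_two_pow_mul_odd (2 * (k + 1)).factorial_ne_zero
  have h1 : e < 2 * (k + 1) := by
    have h2 := Nat.emultiplicity_two_factorial_lt (n := 2 * (k + 1)) (by omega)
    exact_mod_cast (le_emultiplicity_of_pow_dvd (h ▸ dvd_mul_right _ _)).trans_lt h2
  obtain ⟨d, hd⟩ := Nat.exists_eq_add_of_lt h1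
  have : (4 : ℚ) ^ (k + 1) / (2 * (2 * (k + 1)).factorial) = (2 ^ d : ℕ) * ((m : ℤ) : ℚ)⁻¹ := by
    rw [h, show (4 : ℚ) = 2 ^ 2 by norm_num, ← pow_mul, hd]
    push_cast
    field_simp
    ring
  exact this ▸ mul_mem (natCast_mem O _) (invO hm.natCast)

variable {y : ℚ⟦X⟧} (y0 : coeff 0 y = 1)
  (hy : ∀ n : ℕ, (2 * n + 2) * (2 * n + 1) * coeff (n + 1) y = (4 * n + 1) ^ 2 * coeff n y)
include y0 hy

omit y0 in
theorem E1 : D (D y) - D y = X * (4 * D (D y) + 4 * D y + y) := by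
  ext n
  cases n with
  | zero => simp [cD, -coeff_zero_eq_constantCoeff, coeff_zero_X_mul]
  | succ n => simp only [map_sub, map_add, coeff_succ_X_mul, cD, cn]; push_cast; linarith [hy n]

theorem sqS : y * y ∈ S := by
  have e1 := E1 hy
  have e2 := congrArg D e1
  simp only [map_sub, map_add, Derivation.leibniz, smul_eq_mul, DX, Dn] at e2
  have T : D (D (D (y * y))) - 3 * D (D (y * y)) + 2 * D (y * y) = X * (8 * D (D (D (y * y))) +
      4 * D (y * y) - X * (16 * (D (D (D (y * y))) + 3 * D (D (y * y)) + 3 * D (y * y) +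
      y * y))) := by
    simp only [map_add, Derivation.leibniz, smul_eq_mul]
    linear_combination 2 * y * (1 - 4 * X) * e2 + (6 * (1 - 4 * X) * D y - 4 * y) * e1
  have key : ∀ k, coeff k (y * y) = 4 ^ k / (2 * (2 * k).factorial) * gg k := fun k => by
    induction k using Nat.twoStepInduction with
    | zero => simp [coeff_mul, y0, gg, -coeff_zero_eq_constantCoeff]
    | one =>
      have := hy 0
      simp [coeff_mul, y0, gg, Nat.antidiagonal_succ, -coeff_zero_eq_constantCoeff] at this ⊢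
      norm_num [Nat.factorial]
      linarith
    | more k h1 h2 =>
      have := congrArg (coeff (k + 2)) T
      simp only [map_sub, map_add, coeff_succ_X_mul, cD, cn, h1, h2] at this
      simp only [mul_add, Nat.factorial_succ, gg, pow_succ (4 : ℚ)] at this ⊢
      push_cast at this ⊢
      field_simp at this ⊢
      refine mul_left_cancel₀ (a := (2 * k + 2 : ℚ)) (by positivity) ?_
      linear_combination this
  intro k
  rw [key]
  cases k with
  | zero => simp [gg]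
  | succ k => exact mul_mem (fac k) (intCast_mem O _)

omit hy in
theorem dv (f : ℚ⟦X⟧) : ∃ g, f = y * g :=
  ⟨y⁻¹ * f, by rw [← mul_assoc, PowerSeries.mul_inv_cancel _ (by
    rw [← coeff_zero_eq_constantCoeff_apply, y0]; simp),
    one_mul]⟩

theorem rho : ∃ ρ ∈ S, coeff 0 ρ = 0 ∧ D y = y * ρ := by
  obtain ⟨ρ, h⟩ := dv y0 (D y)
  have h1 := congrArg (coeff 0) h
  have h2 : ∀ f ∈ S, ∀ n : ℕ, n * coeff n f ∈ O := fun f hf n => mul_mem (natCast_mem O n) (hf n)
  refine ⟨ρ, invS (sqS y0 hy) (by simp [coeff_mul, y0, -coeff_zero_eq_constantCoeff]) fun n => ?_,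
    by simpa [coeff_mul, y0, cD, -coeff_zero_eq_constantCoeff] using h1.symm, h⟩
  have h3 := cD n (y * y)
  rw [Derivation.leibniz, smul_eq_mul, h, ← two_mul, cn, ← mul_assoc y, mul_assoc 2] at h3
  exact mul_left_cancel₀ two_ne_zero h3 ▸ h2 _ (sqS y0 hy) n

theorem base {u : ℚ⟦X⟧} (u0 : coeff 0 u = 1)
    (hu : ∀ n : ℕ, (2 * n + 2) * (2 * n + 3) * coeff (n + 1) u = (4 * n + 3) ^ 2 * coeff n u) :
    ∃ g ∈ S, u = y * g := by
  have f1 : D (D u) + D u = X * (4 * D (D u) + 12 * D u + 9 * u) := by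
    ext n
    cases n with
    | zero => simp [cD, -coeff_zero_eq_constantCoeff, coeff_zero_X_mul]
    | succ n => simp only [map_add, coeff_succ_X_mul, cD, cn]; push_cast; linarith [hu n]
  have W : D ((1 - 4 * X) * (y * u + y * D u - u * D y)) = 0 := by
    simp only [map_sub, map_add, Derivation.leibniz, smul_eq_mul, DX, Dn, D.map_one_eq_zero]
    linear_combination y * f1 - u * E1 hy
  have W1 : (1 - 4 * X) * (y * u + y * D u - u * D y) = 1 := by
    ext n
    cases n with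
    | zero => simp [coeff_mul, cD, y0, u0, -coeff_zero_eq_constantCoeff, coeff_zero_X]
    | succ n =>
      have := congrArg (coeff (n + 1)) W
      rw [cD, map_zero] at this
      simpa [coeff_one] using (mul_eq_zero.1 this).resolve_left (by positivity)
  obtain ⟨q, rfl⟩ := dv y0 u
  have h : q + D q ∈ S := invS (f := (1 - 4 * X) * (y * y)) (mul_mem (sub_mem (one_mem _)
    (mul_mem (natCast_mem S 4) XS)) (sqS y0 hy))
    (by simp [coeff_mul, y0, -coeff_zero_eq_constantCoeff, coeff_zero_X]) (by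
      rw [Derivation.leibniz, smul_eq_mul, smul_eq_mul] at W1
      convert one_mem S using 1
      linear_combination W1)
  refine ⟨q, solve (zero_mem _) (by simp) (fun n => 2 * n + 1) (fun n => by simp) fun n => ?_, rfl⟩
  convert h n using 1
  simp [cD]
  ring

theorem up {f f' : ℚ⟦X⟧} (hf : ∃ g ∈ S, f = y * g) {k : ℤ} (hk : Odd k)
    (h : ∀ n : ℕ, k * coeff n f' = (4 * n + k) * coeff n f) : ∃ g ∈ S, f' = y * g := by
  obtain ⟨g, hg, rfl⟩ := hf
  obtain ⟨ρ, h1, -, h2⟩ := rho y0 hy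
  have h3 : (k : ℚ) ≠ 0 := Int.cast_ne_zero.2 fun h => by simp [h] at hk
  refine ⟨C (k : ℚ)⁻¹ * (2 * (D g + g * ρ) + k * g), mul_mem (fun n => ?_) (add_mem (mul_mem
    (natCast_mem S 2) (add_mem (DS hg) (mul_mem hg h1))) (mul_mem (intCast_mem S k) hg)), ?_⟩
  · rw [coeff_C]; split
    exacts [invO hk, zero_mem _]
  · have : y * (2 * (D g + g * ρ) + k * g) = 2 * D (y * g) + C (k : ℚ) * (y * g) := by
      rw [Derivation.leibniz, h2, map_intCast]; simp only [smul_eq_mul]; ring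
    ext n
    rw [mul_left_comm, this, coeff_C_mul, map_add, cn, cD, coeff_C_mul, eq_inv_mul_iff_mul_eq₀ h3, h]
    ring

theorem down {f f' : ℚ⟦X⟧} (hf : ∃ g ∈ S, f = y * g) {k : ℤ} (hk : Odd k)
    (h : ∀ n : ℕ, (2 * n + k) * coeff n f' = k * coeff n f) : ∃ g ∈ S, f' = y * g := by
  obtain ⟨g, hg, rfl⟩ := hf
  obtain ⟨ρ, h1, h0, h2⟩ := rho y0 hy
  obtain ⟨q, rfl⟩ := dv y0 f'
  have h3 : D (y * q) + C (k : ℚ) * (y * q) = C (k : ℚ) * (y * g) := by
    ext n
    rw [map_add, cD, coeff_C_mul, coeff_C_mul, ← h]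
    ring
  have h4 : D q + C (k : ℚ) * q + ρ * q = k * g := by
    refine mul_left_cancel₀ (a := y) (by rintro rfl; simp at y0) ?_
    rw [Derivation.leibniz, h2, map_intCast] at h3
    rw [map_intCast]
    simp only [smul_eq_mul] at h3
    linear_combination h3
  refine ⟨q, solve h1 h0 (fun n => 2 * n + k) (fun n => (even_two_mul _).add_odd hk) fun n => ?_, rfl⟩
  convert mul_mem (intCast_mem S k) hg n using 1
  rw [← h4, map_add, map_add, cD, coeff_C_mul]
  push_cast
  ring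

omit hy in
theorem quot {N M Q : ℚ⟦X⟧} (hN : ∃ g ∈ S, N = y * g) (hM : ∃ g ∈ S, M = y * g)
    (h0 : coeff 0 M = 1) (h : M * Q = N) : Q ∈ S := by
  obtain ⟨g, hg, rfl⟩ := hN
  obtain ⟨g', hg', rfl⟩ := hM
  refine invS hg' (by simpa [coeff_mul, y0, -coeff_zero_eq_constantCoeff] using h0) ?_
  rwa [mul_left_cancel₀ (by rintro rfl; simp at y0) ((mul_assoc _ _ _).symm.trans h)]

end Pool.Agent.H48.Hyp
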