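import Mathlib

set_option autoImplicit false

namespace Pool.Agent.H48.IsoA

open Polynomial

/-- Coordinate ring of the curve u^2 = y^7 + c. -/
abbrev O (c : ℂ) : Type := QuadraticAlgebra ℂ[X] (X ^ 7 + C c) 0

noncomputable def yO (c : ℂ) : O c := ⟨X, 0⟩
noncomputable def uO (c : ℂ) : O c := ⟨0, 1⟩

lemma deg7 (c : ℂ) : (X ^ 7 + C c : ℂ[X]).natDegree = 7 := by
  compute_degree!

lemma ne7 (c : ℂ) : (X ^ 7 + C c : ℂ[X]) ≠ 0 := by
  intro h
  have := deg7 c
  rw [h] at this
  simp at this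

lemma parity (c : ℂ) (a b : ℂ[X]) (hb : b ≠ 0) :
    (a * a).natDegree ≠ ((X ^ 7 + C c) * b * b).natDegree := by
  rw [natDegree_mul (mul_ne_zero (ne7 c) hb) hb, natDegree_mul (ne7 c) hb, deg7]
  by_cases ha : a = 0
  · subst ha; simp; omega
  · rw [natDegree_mul ha ha]; omega

lemma norm_eq (c : ℂ) (z : O c) :
    QuadraticAlgebra.norm z = z.re * z.re - (X ^ 7 + C c) * z.im * z.im := by
  rw [QuadraticAlgebra.norm_def]; ring

lemma norm_ne (c : ℂ) (z : O c) (hz : z ≠ 0) : QuadraticAlgebra.norm z ≠ 0 := by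
  rw [norm_eq]
  intro h
  by_cases hb : z.im = 0
  · rw [hb] at h
    simp at h
    apply hz
    ext1 <;> simp [h, hb]
  · exact parity c z.re z.im hb (by rw [sub_eq_zero.mp h])

instance (c : ℂ) : NoZeroDivisors (O c) where
  eq_zero_or_eq_zero_of_mul_eq_zero := by
    intro a b h
    by_contra hc
    push Not at hc
    have h1 := mul_ne_zero (norm_ne c a hc.1) (norm_ne c b hc.2)
    rw [← map_mul, h] at h1
    simp at h1

instance (c : ℂ) : IsDomain (O c) := NoZeroDivisors.to_isDomain _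

lemma alg_re (c a : ℂ) : (algebraMap ℂ (O c) a).re = C a := rfl
lemma alg_im (c a : ℂ) : (algebraMap ℂ (O c) a).im = 0 := rfl

lemma unit_const (c : ℂ) (z : O c) (hz : IsUnit z) : ∃ a : ℂ, a ≠ 0 ∧ z = algebraMap ℂ (O c) a := by
  have h1 := QuadraticAlgebra.isUnit_iff_norm_isUnit.mp hz
  have h2 := natDegree_eq_zero_of_isUnit h1
  rw [norm_eq] at h2 h1
  have hb : z.im = 0 := by
    by_contra hb
    have h3 := parity c z.re z.im hb
    have h4 : ((X ^ 7 + C c) * z.im * z.im).natDegree ≥ 7 := by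
      rw [natDegree_mul (mul_ne_zero (ne7 c) hb) hb, natDegree_mul (ne7 c) hb, deg7]; omega
    rcases lt_or_gt_of_ne h3 with h | h
    · rw [natDegree_sub_eq_right_of_natDegree_lt h] at h2; omega
    · rw [natDegree_sub_eq_left_of_natDegree_lt h] at h2; omega
  rw [hb] at h1
  simp at h1
  obtain ⟨a, ha, ha'⟩ := Polynomial.isUnit_iff.mp h1
  refine ⟨a, ha.ne_zero, ?_⟩
  ext1
  · rw [alg_re, ha']
  · rw [alg_im, hb]

lemma uO_sq (c : ℂ) : uO c ^ 2 = yO c ^ 7 + algebraMap ℂ (O c) c := by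
  have h : yO c = algebraMap ℂ[X] (O c) X := rfl
  rw [h, ← map_pow]
  ext1
  · simp only [uO, pow_two, QuadraticAlgebra.re_mul, QuadraticAlgebra.re_add, alg_re,
      QuadraticAlgebra.algebraMap_re]
    ring
  · simp only [uO, pow_two, QuadraticAlgebra.im_mul, QuadraticAlgebra.im_add, alg_im,
      QuadraticAlgebra.algebraMap_im]
    ring

lemma yO_ne (c : ℂ) : yO c ≠ 0 := by
  intro h
  have := congrArg QuadraticAlgebra.re h
  simp [yO] at this

lemma const_eq_zero (c a : ℂ) (w : O c) (h : algebraMap ℂ (O c) a = yO c * w) : a = 0 := by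
  have := congrArg (fun z : O c => z.re.coeff 0) h
  simpa [alg_re, yO] using this

lemma constu_eq_zero (c a : ℂ) (w : O c) (h : algebraMap ℂ (O c) a * uO c = yO c * w) : a = 0 := by
  have := congrArg (fun z : O c => z.im.coeff 0) h
  simpa [alg_re, alg_im, yO, uO] using this

/-- The universal property of `O c`. -/
noncomputable def liftO {A : Type*} [CommRing A] [Algebra ℂ A] (c : ℂ) (y u : A)
    (h : u ^ 2 = y ^ 7 + algebraMap ℂ A c) : O c →ₐ[ℂ] A where
  toFun z := aeval y z.re + aeval y z.im * u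
  map_one' := by simp [QuadraticAlgebra.re_one, QuadraticAlgebra.im_one]
  map_mul' a b := by
    simp only [QuadraticAlgebra.re_mul, QuadraticAlgebra.im_mul, map_add, map_mul, map_pow,
      aeval_X, aeval_C, map_zero]
    linear_combination (-(aeval y a.im * aeval y b.im)) * h
  map_zero' := by simp
  map_add' a b := by
    simp only [QuadraticAlgebra.re_add, QuadraticAlgebra.im_add, map_add]; ring
  commutes' a := by simp [alg_re, alg_im]

section
variable {A : Type*} [CommRing A] [Algebra ℂ A] (c : ℂ) (y u : A)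
    (h : u ^ 2 = y ^ 7 + algebraMap ℂ A c)

lemma liftO_y : liftO c y u h (yO c) = y := by
  show aeval y (X : ℂ[X]) + aeval y (0 : ℂ[X]) * u = y
  simp

lemma liftO_u : liftO c y u h (uO c) = u := by
  show aeval y (0 : ℂ[X]) + aeval y (1 : ℂ[X]) * u = u
  simp

lemma aeval_yO (a : ℂ[X]) : aeval (yO c) a = (⟨a, 0⟩ : O c) := by
  have h : yO c = algebraMap ℂ[X] (O c) X := rfl
  have h2 : (⟨a, 0⟩ : O c) = algebraMap ℂ[X] (O c) a := rfl
  rw [h, h2, aeval_algebraMap_apply]
  simp

lemma hom_ext (f g : O c →ₐ[ℂ] A) (hy : f (yO c) = g (yO c)) (hu : f (uO c) = g (uO c)) :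
    f = g := by
  ext z
  have hz : z = aeval (yO c) z.re + aeval (yO c) z.im * uO c := by
    rw [aeval_yO, aeval_yO]
    ext1 <;> simp [uO]
  rw [hz]
  simp only [map_add, map_mul, ← aeval_algHom_apply, hy, hu]
end

/-- The final form of `U`. -/
lemma U_form (c d l : ℂ) (hl : l ≠ 0) (U : O c)
    (h : U ^ 2 = (algebraMap ℂ (O c) l * yO c) ^ 7 + algebraMap ℂ (O c) d) :
    ∃ k : ℂ, U = algebraMap ℂ (O c) k * uO c ∧ k ^ 2 = l ^ 7 ∧ k ^ 2 * c = d := by
  have hy : (algebraMap ℂ (O c) l * yO c) ^ 7 = algebraMap ℂ[X] (O c) ((C l * X) ^ 7) := by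
    rw [map_pow, map_mul]; rfl
  rw [hy] at h
  have h1 := congrArg QuadraticAlgebra.re h
  have h2 := congrArg QuadraticAlgebra.im h
  simp only [pow_two, QuadraticAlgebra.re_mul, QuadraticAlgebra.im_mul, QuadraticAlgebra.re_add,
    QuadraticAlgebra.im_add, QuadraticAlgebra.algebraMap_re, QuadraticAlgebra.algebraMap_im,
    alg_re, alg_im] at h1 h2
  have hd : ((C l * X) ^ 7 + C d : ℂ[X]).natDegree = 7 := by
    rw [mul_pow, ← C_pow]
    compute_degree!
  have h3 : U.re * U.im = 0 := by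
    have : (2 : ℂ[X]) * (U.re * U.im) = 0 := by linear_combination h2
    simpa using this
  have hb : U.im ≠ 0 := by
    intro hb
    rw [hb] at h1
    have h4 := congrArg natDegree h1
    rw [hd] at h4
    simp only [mul_zero, add_zero] at h4
    by_cases ha : U.re = 0
    · rw [ha] at h4; simp at h4
    · rw [natDegree_mul ha ha] at h4; omega
  have ha : U.re = 0 := (mul_eq_zero.mp h3).resolve_right hb
  rw [ha] at h1
  have h4 := congrArg natDegree h1
  rw [hd] at h4
  simp only [mul_zero, zero_add] at h4 h1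
  rw [natDegree_mul (mul_ne_zero (ne7 c) hb) hb, natDegree_mul (ne7 c) hb, deg7] at h4
  have h5 : U.im.natDegree = 0 := by omega
  obtain ⟨k, hk⟩ := natDegree_eq_zero.mp h5
  rw [← hk] at h1
  refine ⟨k, ?_, ?_, ?_⟩
  · ext1
    · simp [uO, alg_re, alg_im, ha]
    · simp [uO, alg_re, alg_im, hk]
  · have := congrArg (fun q : ℂ[X] => q.coeff 7) h1
    simp only [mul_pow, ← C_pow, coeff_add, coeff_mul_C, coeff_C_mul, coeff_X_pow, coeff_C] at this
    simp at this
    rw [← this]; ring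
  · have := congrArg (fun q : ℂ[X] => q.coeff 0) h1
    simp only [mul_pow, ← C_pow, coeff_add, coeff_mul_C, coeff_C_mul, coeff_X_pow, coeff_C] at this
    simp at this
    rw [← this]; ring

/-- Cube roots in a domain over the complex numbers. -/
lemma cube_root {A : Type*} [CommRing A] [IsDomain A] [Algebra ℂ A] (Y y : A) (m : ℂ)
    (h : Y ^ 3 = algebraMap ℂ A m * y ^ 3) : ∃ l : ℂ, Y = algebraMap ℂ A l * y := by
  obtain ⟨l, hl⟩ := IsAlgClosed.exists_pow_nat_eq m (n := 3) (by norm_num)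
  obtain ⟨s, hs⟩ := IsAlgClosed.exists_pow_nat_eq (-3 : ℂ) (n := 2) (by norm_num)
  set w : ℂ := (-1 + s) / 2 with hw
  have hw2 : w ^ 2 + w + 1 = 0 := by rw [hw]; linear_combination (1/4 : ℂ) * hs
  have hw3 : (algebraMap ℂ A w) ^ 2 + algebraMap ℂ A w + 1 = 0 := by
    have := congrArg (algebraMap ℂ A) hw2
    simpa using this
  have hl' : (algebraMap ℂ A l) ^ 3 = algebraMap ℂ A m := by rw [← map_pow, hl]
  have key : (Y - algebraMap ℂ A l * y) * (Y - algebraMap ℂ A (l * w) * y) *
      (Y - algebraMap ℂ A (l * w ^ 2) * y) = 0 := by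
    simp only [map_mul, map_pow]
    set L := algebraMap ℂ A l
    set W := algebraMap ℂ A w
    linear_combination h - y ^ 3 * hl' +
      (-(Y ^ 2 * L * y) + Y * L ^ 2 * y ^ 2 * W - L ^ 3 * y ^ 3 * (W - 1)) * hw3
  rcases mul_eq_zero.mp key with h1 | h1
  · rcases mul_eq_zero.mp h1 with h1 | h1
    · exact ⟨_, sub_eq_zero.mp h1⟩
    · exact ⟨_, sub_eq_zero.mp h1⟩
  · exact ⟨_, sub_eq_zero.mp h1⟩

/-- Degree lemma: three terms with degrees distinct modulo three. -/
lemma deg_lemma {R K : Type*} [CommRing R] [Field K] (j : R →+* K) (hj : Function.Injective j)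
    (ζ : K[X]) (hζ : ζ.natDegree = 3) (A : Fin 3 → R[X]) (i : Fin 3) (hi : A i ≠ 0) :
    (∑ k : Fin 3, ((A k).map j).comp ζ * X ^ (k : ℕ)) ≠ 0 ∧
    3 * (A i).natDegree + i ≤ (∑ k : Fin 3, ((A k).map j).comp ζ * X ^ (k : ℕ)).natDegree := by
  have hdeg : ∀ k : Fin 3, A k ≠ 0 → ((A k).map j).comp ζ * X ^ (k : ℕ) ≠ 0 ∧
      (((A k).map j).comp ζ * X ^ (k : ℕ)).natDegree = 3 * (A k).natDegree + k := by
    intro k hk
    have h1 : (A k).map j ≠ 0 := (Polynomial.map_ne_zero_iff hj).mpr hk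
    have h2 : ((A k).map j).comp ζ ≠ 0 := by
      intro h
      rcases comp_eq_zero_iff.mp h with h | ⟨-, h⟩
      · exact h1 h
      · rw [h] at hζ; simp at hζ
    refine ⟨mul_ne_zero h2 (pow_ne_zero _ X_ne_zero), ?_⟩
    rw [natDegree_mul h2 (pow_ne_zero _ X_ne_zero), natDegree_comp, natDegree_map_eq_of_injective hj,
      hζ, natDegree_X_pow]
    ring
  have hs := degree_sum_eq_of_disjoint (fun k : Fin 3 => ((A k).map j).comp ζ * X ^ (k : ℕ))
    Finset.univ (by
      intro k hk l hl hkl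
      have hk' : A k ≠ 0 := by
        intro h; apply hk.2; simp [h]
      have hl' : A l ≠ 0 := by
        intro h; apply hl.2; simp [h]
      intro h
      simp only [Function.comp] at h
      have h3 := natDegree_eq_of_degree_eq h
      rw [(hdeg k hk').2, (hdeg l hl').2] at h3
      apply hkl
      ext
      omega)
  have hle : degree (((A i).map j).comp ζ * X ^ (i : ℕ)) ≤
      degree (∑ k : Fin 3, ((A k).map j).comp ζ * X ^ (k : ℕ)) := by
    rw [hs]
    exact Finset.le_sup (f := fun k : Fin 3 => degree (((A k).map j).comp ζ * X ^ (k : ℕ)))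
      (Finset.mem_univ i)
  refine ⟨?_, ?_⟩
  · intro h
    rw [h, degree_zero, le_bot_iff, degree_eq_bot] at hle
    exact (hdeg i hi).1 hle
  · rw [← (hdeg i hi).2]
    exact natDegree_le_natDegree hle

/-- No nonconstant polynomial points on the curve. -/
lemma rigid {K : Type*} [Field K] [CharZero K] (U Y : K[X]) (d : K) (hd : d ≠ 0)
    (h : U ^ 2 = Y ^ 7 + C d) : U.natDegree = 0 ∧ Y.natDegree = 0 := by
  by_cases hY : Y = 0
  · subst hY
    refine ⟨?_, by simp⟩
    have := congrArg natDegree h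
    simpa using this
  by_cases hU : U = 0
  · subst hU
    refine ⟨by simp, ?_⟩
    have h2 : Y ^ 7 = C (-d) := by rw [C_neg]; linear_combination -h
    have := congrArg natDegree h2
    simpa using this
  have hcop : IsCoprime U Y := by
    refine ⟨C d⁻¹ * U, -(C d⁻¹ * Y ^ 6), ?_⟩
    have h3 : (C d⁻¹ * C d : K[X]) = 1 := by rw [← C_mul, inv_mul_cancel₀ hd, C_1]
    linear_combination C d⁻¹ * h + h3
  have := Polynomial.flt_catalan (k := K) (p := 2) (q := 7) (r := 3) (by norm_num) (by norm_num)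
    (by norm_num) (by norm_num) (by norm_num) (by norm_num) (by norm_num) hU hY
    (one_ne_zero (α := K[X])) hcop (u := 1) (v := -1) (w := -d) one_ne_zero
    (neg_ne_zero.mpr one_ne_zero) (neg_ne_zero.mpr hd)
    (by simp only [C_neg, C_1]; linear_combination h)
  exact ⟨this.1, this.2.1⟩

end Pool.Agent.H48.IsoA
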