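import Mathlib
import Pool.Agent.H48.IsoA

set_option autoImplicit false

namespace Pool.Agent.H48.IsoB

open Polynomial Pool.Agent.H48.IsoA

abbrev P : Type := MvPolynomial (Fin 3) ℂ

noncomputable def uP : P :=
  MvPolynomial.X 1 ^ 3 * MvPolynomial.X 2 - MvPolynomial.X 0 ^ 3 -
    MvPolynomial.X 1 ^ 2 * MvPolynomial.X 0

noncomputable def pP : P := uP ^ 2 - MvPolynomial.X 1 ^ 7

abbrev Q (c : ℂ) : Type := P ⧸ Ideal.span {pP - MvPolynomial.C c}

noncomputable def mkQ (c : ℂ) : P →ₐ[ℂ] Q c := Ideal.Quotient.mkₐ ℂ _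

noncomputable def xQ (c : ℂ) : Q c := mkQ c (MvPolynomial.X 0)
noncomputable def yQ (c : ℂ) : Q c := mkQ c (MvPolynomial.X 1)
noncomputable def zQ (c : ℂ) : Q c := mkQ c (MvPolynomial.X 2)
noncomputable def uQ (c : ℂ) : Q c := mkQ c uP

lemma uQ_eq (c : ℂ) : uQ c = yQ c ^ 3 * zQ c - xQ c ^ 3 - yQ c ^ 2 * xQ c := by
  simp [uQ, uP, xQ, yQ, zQ]

lemma uQ_sq (c : ℂ) : uQ c ^ 2 = yQ c ^ 7 + algebraMap ℂ (Q c) c := by
  have h : mkQ c (pP - MvPolynomial.C c) = 0 :=
    Ideal.Quotient.eq_zero_iff_mem.mpr (Ideal.subset_span rfl)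
  have h0 : mkQ c (pP - MvPolynomial.C c) =
      mkQ c uP ^ 2 - mkQ c (MvPolynomial.X 1) ^ 7 - mkQ c (MvPolynomial.C c) := by
    rw [map_sub, ← map_pow, ← map_pow, ← map_sub]; rfl
  rw [h0] at h
  have h2 : mkQ c (MvPolynomial.C c) = algebraMap ℂ (Q c) c := (mkQ c).commutes c
  rw [h2] at h
  unfold uQ yQ
  linear_combination h

lemma Q_ind (c : ℂ) (M : Q c → Prop) (h1 : ∀ a : ℂ, M (algebraMap ℂ (Q c) a))
    (h2 : ∀ r s, M r → M s → M (r + s)) (hx : ∀ r, M r → M (r * xQ c))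
    (hy : ∀ r, M r → M (r * yQ c)) (hz : ∀ r, M r → M (r * zQ c)) (r : Q c) : M r := by
  obtain ⟨f, rfl⟩ := Ideal.Quotient.mkₐ_surjective ℂ _ r
  change M (mkQ c f)
  induction f using MvPolynomial.induction_on with
  | C a => rw [show mkQ c (MvPolynomial.C a) = algebraMap ℂ (Q c) a from (mkQ c).commutes a]; exact h1 a
  | add f g hf hg => rw [map_add]; exact h2 _ _ hf hg
  | mul_X f i hf =>
    rw [map_mul]
    fin_cases i
    · exact hx _ hf
    · exact hy _ hf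
    · exact hz _ hf

noncomputable def th0 (c : ℂ) : O c →ₐ[ℂ] Q c := liftO c (yQ c) (uQ c) (uQ_sq c)

lemma th0_y (c : ℂ) : th0 c (yO c) = yQ c := liftO_y _ _ _ _
lemma th0_u (c : ℂ) : th0 c (uO c) = uQ c := liftO_u _ _ _ _

noncomputable def th (c : ℂ) : (O c)[X] →+* Q c := eval₂RingHom (th0 c : O c →+* Q c) (zQ c)

lemma th_C (c : ℂ) (a : O c) : th c (C a) = th0 c a := by simp [th]
lemma th_X (c : ℂ) : th c X = zQ c := by simp [th]

lemma nf (c : ℂ) (r : Q c) : ∃ A0 A1 A2 : (O c)[X],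
    r = th c A0 + th c A1 * xQ c + th c A2 * xQ c ^ 2 := by
  induction r using Q_ind with
  | h1 a =>
    refine ⟨C (algebraMap ℂ (O c) a), 0, 0, ?_⟩
    simp [th_C]
  | h2 r s hr hs =>
    obtain ⟨A0, A1, A2, rfl⟩ := hr
    obtain ⟨B0, B1, B2, rfl⟩ := hs
    refine ⟨A0 + B0, A1 + B1, A2 + B2, ?_⟩
    simp only [map_add]; ring
  | hx r hr =>
    obtain ⟨A0, A1, A2, rfl⟩ := hr
    refine ⟨A2 * (C (yO c) ^ 3 * X - C (uO c)), A0 - A2 * C (yO c) ^ 2, A1, ?_⟩
    simp only [map_mul, map_sub, map_pow, th_C, th_X, th0_y, th0_u, uQ_eq]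
    ring
  | hy r hr =>
    obtain ⟨A0, A1, A2, rfl⟩ := hr
    refine ⟨A0 * C (yO c), A1 * C (yO c), A2 * C (yO c), ?_⟩
    simp only [map_mul, th_C, th0_y]
    ring
  | hz r hr =>
    obtain ⟨A0, A1, A2, rfl⟩ := hr
    refine ⟨A0 * X, A1 * X, A2 * X, ?_⟩
    simp only [map_mul, th_X]
    ring

section Ev
variable {c : ℂ} {K : Type} [Field K] [Algebra ℂ K] (j : O c →ₐ[ℂ] K)
  (hj : Function.Injective j)

noncomputable def zeta : K[X] :=
  C ((j (yO c))⁻¹ ^ 3) * (C (j (uO c)) + X ^ 3 + C (j (yO c)) ^ 2 * X)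

include hj in
lemma jy_ne : j (yO c) ≠ 0 := by
  intro h
  exact yO_ne c (hj (by rw [h, map_zero]))

include hj in
lemma zeta_eq : C (j (yO c)) ^ 3 * zeta j = C (j (uO c)) + X ^ 3 + C (j (yO c)) ^ 2 * X := by
  rw [zeta, ← mul_assoc, ← C_pow, ← C_mul, ← mul_pow, mul_inv_cancel₀ (jy_ne j hj)]
  simp

include hj in
lemma zeta_deg : (zeta j).natDegree = 3 := by
  rw [zeta, natDegree_C_mul (pow_ne_zero _ (inv_ne_zero (jy_ne j hj)))]
  rw [← C_pow]
  compute_degree!

noncomputable def evP : P →ₐ[ℂ] K[X] := MvPolynomial.aeval ![X, C (j (yO c)), zeta j]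

include hj in
lemma evP_u : evP j uP = C (j (uO c)) := by
  have := zeta_eq j hj
  simp only [uP, evP, map_sub, map_mul, map_pow, MvPolynomial.aeval_X]
  simp only [Matrix.cons_val_zero, Matrix.cons_val_one, Matrix.cons_val]
  linear_combination this

include hj in
lemma evP_p : evP j (pP - MvPolynomial.C c) = 0 := by
  have h1 := congrArg (fun a => (C (j a) : K[X])) (uO_sq c)
  simp only [map_add, map_pow, AlgHom.commutes] at h1
  rw [pP, map_sub, map_sub, map_pow, map_pow, evP_u j hj]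
  have h2 : evP j (MvPolynomial.C c) = C (algebraMap ℂ K c) := (evP j).commutes c
  have h3 : evP j (MvPolynomial.X 1) = C (j (yO c)) := by simp [evP]
  rw [h2, h3]
  linear_combination h1

noncomputable def ev : Q c →ₐ[ℂ] K[X] :=
  Ideal.Quotient.liftₐ _ (evP j) (by
    intro a ha
    obtain ⟨b, rfl⟩ := Ideal.mem_span_singleton'.mp ha
    rw [map_mul, evP_p j hj, mul_zero])

lemma ev_mk (f : P) : ev j hj (mkQ c f) = evP j f := rfl

lemma ev_x : ev j hj (xQ c) = X := by simp [xQ, ev_mk, evP]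
lemma ev_y : ev j hj (yQ c) = C (j (yO c)) := by simp [yQ, ev_mk, evP]
lemma ev_z : ev j hj (zQ c) = zeta j := by simp [zQ, ev_mk, evP]
lemma ev_u : ev j hj (uQ c) = C (j (uO c)) := by rw [uQ, ev_mk, evP_u j hj]

lemma ev_th0 (a : O c) : ev j hj (th0 c a) = C (j a) := by
  have : (ev j hj).comp (th0 c) = (Polynomial.CAlgHom : K →ₐ[ℂ] K[X]).comp j := by
    apply hom_ext
    · simp [th0_y, ev_y]
    · simp [th0_u, ev_u]
  exact DFunLike.congr_fun this a

lemma ev_th (A : (O c)[X]) : ev j hj (th c A) = (A.map (j : O c →+* K)).comp (zeta j) := by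
  induction A using Polynomial.induction_on' with
  | add p q hp hq => simp [hp, hq]
  | monomial n a =>
    rw [← C_mul_X_pow_eq_monomial]
    simp [th_C, th_X, ev_th0, ev_z]

lemma ev_nf (A0 A1 A2 : (O c)[X]) :
    ev j hj (th c A0 + th c A1 * xQ c + th c A2 * xQ c ^ 2) =
      ∑ k : Fin 3, ((![A0, A1, A2] k).map (j : O c →+* K)).comp (zeta j) * X ^ (k : ℕ) := by
  simp [Fin.sum_univ_three, ev_th, ev_x]

lemma nf_deg (A0 A1 A2 : (O c)[X]) (i : Fin 3) (hi : ![A0, A1, A2] i ≠ 0) :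
    ev j hj (th c A0 + th c A1 * xQ c + th c A2 * xQ c ^ 2) ≠ 0 ∧
    3 * (![A0, A1, A2] i).natDegree + i ≤
      (ev j hj (th c A0 + th c A1 * xQ c + th c A2 * xQ c ^ 2)).natDegree := by
  rw [ev_nf]
  exact deg_lemma (j : O c →+* K) hj (zeta j) (zeta_deg j hj) _ i hi

lemma ev_inj : Function.Injective (ev j hj) := by
  rw [injective_iff_map_eq_zero]
  intro r hr
  obtain ⟨A0, A1, A2, rfl⟩ := nf c r
  have h0 : A0 = 0 := by
    by_contra h
    exact (nf_deg j hj A0 A1 A2 0 h).1 hr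
  have h1 : A1 = 0 := by
    by_contra h
    exact (nf_deg j hj A0 A1 A2 1 h).1 hr
  have h2 : A2 = 0 := by
    by_contra h
    exact (nf_deg j hj A0 A1 A2 2 h).1 hr
  simp [h0, h1, h2]

lemma form3 (r : Q c) (hr : (ev j hj r).natDegree ≤ 3) : ∃ g0 g1 g2 g : O c,
    r = th0 c g0 + th0 c g1 * xQ c + th0 c g2 * xQ c ^ 2 + th0 c g * zQ c := by
  obtain ⟨A0, A1, A2, rfl⟩ := nf c r
  have h0 : A0.natDegree ≤ 1 := by
    by_cases h : A0 = 0
    · simp [h]
    · have := (nf_deg j hj A0 A1 A2 0 h).2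
      simp only [Matrix.cons_val_zero] at this
      omega
  have h1 : A1.natDegree = 0 := by
    by_cases h : A1 = 0
    · simp [h]
    · have := (nf_deg j hj A0 A1 A2 1 h).2
      simp only [Matrix.cons_val_one, Matrix.cons_val_zero, Fin.val_one] at this
      omega
  have h2 : A2.natDegree = 0 := by
    by_cases h : A2 = 0
    · simp [h]
    · have := (nf_deg j hj A0 A1 A2 2 h).2
      simp only [Matrix.cons_val, Fin.val_two] at this
      omega
  obtain ⟨g1, rfl⟩ := natDegree_eq_zero.mp h1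
  obtain ⟨g2, rfl⟩ := natDegree_eq_zero.mp h2
  obtain ⟨g, g0, rfl⟩ := exists_eq_X_add_C_of_natDegree_le_one h0
  refine ⟨g0, g1, g2, g, ?_⟩
  simp only [map_add, map_mul, th_C, th_X]
  ring

lemma form1 (r : Q c) (hr : (ev j hj r).natDegree ≤ 1) : ∃ g0 g1 : O c,
    r = th0 c g0 + th0 c g1 * xQ c := by
  obtain ⟨A0, A1, A2, rfl⟩ := nf c r
  have h0 : A0.natDegree = 0 := by
    by_cases h : A0 = 0
    · simp [h]
    · have := (nf_deg j hj A0 A1 A2 0 h).2
      simp only [Matrix.cons_val_zero] at this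
      omega
  have h1 : A1.natDegree = 0 := by
    by_cases h : A1 = 0
    · simp [h]
    · have := (nf_deg j hj A0 A1 A2 1 h).2
      simp only [Matrix.cons_val_one, Matrix.cons_val_zero, Fin.val_one] at this
      omega
  have h2 : A2 = 0 := by
    by_contra h
    have := (nf_deg j hj A0 A1 A2 2 h).2
    simp only [Matrix.cons_val, Fin.val_two] at this
    omega
  obtain ⟨g1, rfl⟩ := natDegree_eq_zero.mp h1
  obtain ⟨g0, rfl⟩ := natDegree_eq_zero.mp h0
  refine ⟨g0, g1, ?_⟩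
  simp [h2, th_C]

lemma form0 (r : Q c) (hr : (ev j hj r).natDegree = 0) : ∃ g0 : O c, r = th0 c g0 := by
  obtain ⟨g0, g1, rfl⟩ := form1 j hj r (by omega)
  by_cases h : g1 = 0
  · exact ⟨g0, by simp [h]⟩
  · exfalso
    have h1 : j g1 ≠ 0 := fun h1 => h (hj (by rw [h1, map_zero]))
    simp only [map_add, map_mul, ev_th0, ev_x] at hr
    rw [add_comm, natDegree_linear h1] at hr
    omega

end Ev

noncomputable def jF (c : ℂ) : O c →ₐ[ℂ] FractionRing (O c) :=
  IsScalarTower.toAlgHom ℂ (O c) (FractionRing (O c))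

lemma jF_inj (c : ℂ) : Function.Injective (jF c) := IsFractionRing.injective (O c) _

instance (c : ℂ) : IsDomain (Q c) := (ev_inj (jF c) (jF_inj c)).isDomain (ev (jF c) (jF_inj c))

lemma prime (c : ℂ) : (Ideal.span {pP - MvPolynomial.C c}).IsPrime :=
  (Ideal.Quotient.isDomain_iff_prime _).mp (inferInstanceAs (IsDomain (Q c)))

end Pool.Agent.H48.IsoB
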