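import Mathlib
import Pool.Agent.H48.IsoB

set_option autoImplicit false

namespace Pool.Agent.H48.IsoC

open Polynomial Pool.Agent.H48.IsoA Pool.Agent.H48.IsoB

section Ev
variable {c : ℂ} {K : Type} [Field K] [Algebra ℂ K] (j : O c →ₐ[ℂ] K)
  (hj : Function.Injective j)

include hj in
lemma indep (a0 a1 a2 a3 : O c)
    (h : th0 c a0 + th0 c a1 * xQ c + th0 c a2 * xQ c ^ 2 + th0 c a3 * xQ c ^ 3 = 0) :
    a0 = 0 ∧ a1 = 0 ∧ a2 = 0 ∧ a3 = 0 := by
  have h1 := congrArg (ev j hj) h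
  simp only [map_add, map_mul, map_pow, ev_th0, ev_x, map_zero] at h1
  have e0 := congrArg (fun q : K[X] => q.coeff 0) h1
  have e1 := congrArg (fun q : K[X] => q.coeff 1) h1
  have e2 := congrArg (fun q : K[X] => q.coeff 2) h1
  have e3 := congrArg (fun q : K[X] => q.coeff 3) h1
  simp [coeff_X, coeff_C, coeff_X_pow] at e0 e1 e2 e3
  exact ⟨hj (by rw [e0, map_zero]), hj (by rw [e1, map_zero]), hj (by rw [e2, map_zero]),
    hj (by rw [e3, map_zero])⟩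

include hj in
lemma struct {d : ℂ} (hd : d ≠ 0) (φ : Q d ≃ₐ[ℂ] Q c) :
    ∃ (ψ : O d →ₐ[ℂ] O c) (α β g0 g1 g2 g : O c), (∀ a, φ (th0 d a) = th0 c (ψ a)) ∧
      φ (xQ d) = th0 c β + th0 c α * xQ c ∧
      φ (zQ d) = th0 c g0 + th0 c g1 * xQ c + th0 c g2 * xQ c ^ 2 + th0 c g * zQ c := by
  have : CharZero K := charZero_of_injective_algebraMap (algebraMap ℂ K).injective
  have hsq := congrArg (fun r => ev j hj (φ r)) (uQ_sq d)
  simp only [map_add, map_pow, AlgEquiv.commutes, AlgHom.commutes] at hsq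
  have hdK : algebraMap ℂ K d ≠ 0 := by simpa using hd
  obtain ⟨hU, hY⟩ := rigid _ _ (algebraMap ℂ K d) hdK hsq
  obtain ⟨U, hU'⟩ := form0 j hj _ hU
  obtain ⟨Y, hY'⟩ := form0 j hj _ hY
  have th0inj : Function.Injective (th0 c) := by
    rw [injective_iff_map_eq_zero]
    intro a ha
    exact (indep j hj a 0 0 0 (by simp [ha])).1
  have hUY : U ^ 2 = Y ^ 7 + algebraMap ℂ (O c) d := by
    apply th0inj
    have := congrArg φ (uQ_sq d)
    simp only [map_add, map_pow, AlgEquiv.commutes, AlgHom.commutes] at this ⊢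
    rw [← hU', ← hY', this]
  have hψ : ∀ a, φ (th0 d a) = th0 c (liftO d Y U hUY a) := by
    have : (φ : Q d →ₐ[ℂ] Q c).comp (th0 d) = (th0 c).comp (liftO d Y U hUY) := by
      apply hom_ext
      · simp [th0_y, liftO_y, hY']
      · simp [th0_u, liftO_u, hU']
    intro a
    exact DFunLike.congr_fun this a
  have hY0 : j Y ≠ 0 := by
    intro h
    have h1 : Y = 0 := hj (by rw [h, map_zero])
    rw [h1, map_zero, map_eq_zero_iff φ φ.injective, ← th0_y] at hY'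
    exact yO_ne d (indep (jF d) (jF_inj d) (yO d) 0 0 0 (by simp [hY'])).1
  set ξ : K[X] := ev j hj (φ (xQ d)) with hξ
  have hz : ev j hj (φ (zQ d)) = C ((j Y)⁻¹ ^ 3) * (C (j U) + ξ ^ 3 + C (j Y) ^ 2 * ξ) := by
    have h1 := congrArg (fun r => ev j hj (φ r)) (uQ_eq d)
    simp only [map_sub, map_mul, map_pow, hU', hY', ev_th0, ← hξ] at h1
    have h2 : (C ((j Y)⁻¹ ^ 3) : K[X]) * C (j Y) ^ 3 = 1 := by
      rw [← C_pow, ← C_mul, ← mul_pow, inv_mul_cancel₀ hY0]; simp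
    linear_combination -(C ((j Y)⁻¹ ^ 3)) * h1 - ev j hj (φ (zQ d)) * h2
  have hall : ∀ r : Q d, ∃ G : K[X], ev j hj (φ r) = G.comp ξ := by
    intro r
    induction r using Q_ind with
    | h1 a => exact ⟨C (algebraMap ℂ K a), by simp⟩
    | h2 r s hr hs =>
      obtain ⟨G, hG⟩ := hr
      obtain ⟨H, hH⟩ := hs
      exact ⟨G + H, by simp [hG, hH]⟩
    | hx r hr =>
      obtain ⟨G, hG⟩ := hr
      exact ⟨G * X, by simp [hG, hξ]⟩
    | hy r hr =>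
      obtain ⟨G, hG⟩ := hr
      exact ⟨G * C (j Y), by simp [hG, hY', ev_th0]⟩
    | hz r hr =>
      obtain ⟨G, hG⟩ := hr
      refine ⟨G * (C ((j Y)⁻¹ ^ 3) * (C (j U) + X ^ 3 + C (j Y) ^ 2 * X)), ?_⟩
      rw [map_mul, map_mul, hG, hz]
      simp
  have hξ1 : ξ.natDegree = 1 := by
    obtain ⟨G, hG⟩ := hall (φ.symm (xQ c))
    rw [AlgEquiv.apply_symm_apply, ev_x] at hG
    have := congrArg natDegree hG
    rw [natDegree_comp, natDegree_X] at this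
    exact Nat.eq_one_of_mul_eq_one_left this.symm
  obtain ⟨β, α, hx⟩ := form1 j hj (φ (xQ d)) (by rw [← hξ, hξ1])
  obtain ⟨g0, g1, g2, g, hz'⟩ := form3 j hj (φ (zQ d)) (by
    rw [hz]
    refine (natDegree_C_mul_le _ _).trans ?_
    refine (natDegree_add_le _ _).trans (max_le ((natDegree_add_le _ _).trans (max_le ?_ ?_)) ?_)
    · simp
    · rw [natDegree_pow, hξ1]
    · rw [← C_pow]
      refine (natDegree_C_mul_le _ _).trans ?_
      omega)
  exact ⟨liftO d Y U hUY, α, β, g0, g1, g2, g, hψ, hx, hz'⟩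

end Ev

lemma indep' (c : ℂ) (a0 a1 a2 a3 : O c)
    (h : th0 c a0 + th0 c a1 * xQ c + th0 c a2 * xQ c ^ 2 + th0 c a3 * xQ c ^ 3 = 0) :
    a0 = 0 ∧ a1 = 0 ∧ a2 = 0 ∧ a3 = 0 := indep (jF c) (jF_inj c) a0 a1 a2 a3 h

lemma th0_inj (c : ℂ) : Function.Injective (th0 c) := by
  rw [injective_iff_map_eq_zero]
  intro a ha
  exact (indep' c a 0 0 0 (by simp [ha])).1

lemma eqs {c d : ℂ} (φ : Q d ≃ₐ[ℂ] Q c) (ψ : O d →ₐ[ℂ] O c) (α β g0 g1 g2 g : O c)
    (hψ : ∀ a, φ (th0 d a) = th0 c (ψ a)) (hx : φ (xQ d) = th0 c β + th0 c α * xQ c)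
    (hz : φ (zQ d) = th0 c g0 + th0 c g1 * xQ c + th0 c g2 * xQ c ^ 2 + th0 c g * zQ c) :
    yO c ^ 3 * ψ (yO d) ^ 3 * g0 + ψ (yO d) ^ 3 * g * uO c -
      yO c ^ 3 * (ψ (uO d) + β ^ 3 + ψ (yO d) ^ 2 * β) = 0 ∧
    yO c ^ 3 * ψ (yO d) ^ 3 * g1 + ψ (yO d) ^ 3 * g * yO c ^ 2 -
      yO c ^ 3 * (3 * α * β ^ 2 + ψ (yO d) ^ 2 * α) = 0 ∧
    yO c ^ 3 * ψ (yO d) ^ 3 * g2 - yO c ^ 3 * (3 * α ^ 2 * β) = 0 ∧
    ψ (yO d) ^ 3 * g - yO c ^ 3 * α ^ 3 = 0 := by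
  apply indep'
  have h1 := congrArg φ (uQ_eq d)
  rw [← th0_u, ← th0_y] at h1
  simp only [map_sub, map_mul, map_pow, hψ, hx, hz] at h1
  have h2 := uQ_eq c
  simp only [map_sub, map_add, map_mul, map_pow, th0_u, th0_y, map_ofNat]
  linear_combination -(yQ c ^ 3) * h1 + th0 c (ψ (yO d)) ^ 3 * th0 c g * h2

theorem core {c d : ℂ} (hc : c ≠ 0) (hd : d ≠ 0) (φ : Q d ≃ₐ[ℂ] Q c) : c = d := by
  obtain ⟨ψ, α, β, g0, g1, g2, g, hψ, hx, hz⟩ := struct (jF c) (jF_inj c) hd φ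
  obtain ⟨ψ', α', β', g0', g1', g2', g', hψ', hx', hz'⟩ := struct (jF d) (jF_inj d) hc φ.symm
  obtain ⟨e0, e1, e2, e3⟩ := eqs φ ψ α β g0 g1 g2 g hψ hx hz
  obtain ⟨-, -, -, f3⟩ := eqs φ.symm ψ' α' β' g0' g1' g2' g' hψ' hx' hz'
  have hinv : ∀ a, ψ (ψ' a) = a := by
    intro a
    apply th0_inj
    rw [← hψ, ← hψ', AlgEquiv.apply_symm_apply]
  have hα : ψ α' * α = 1 := by
    have h1 := congrArg φ hx'
    rw [AlgEquiv.apply_symm_apply, map_add, map_mul, hψ, hψ, hx] at h1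
    have := (indep' c (ψ β' + ψ α' * β) (ψ α' * α - 1) 0 0 (by
      simp only [map_add, map_sub, map_mul, map_one, map_zero]
      linear_combination -h1)).2.1
    linear_combination this
  have f4 := congrArg ψ f3
  simp only [map_sub, map_mul, map_pow, hinv, map_zero] at f4
  set Y := ψ (yO d) with hYdef
  have hY0 : Y ≠ 0 := by
    intro h
    rw [h] at e3
    have h3 : yO c ^ 3 * α ^ 3 = 0 := by linear_combination -e3
    have h4 : yO c ^ 3 = 0 := by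
      linear_combination (ψ α') ^ 3 * h3 -
        yO c ^ 3 * ((ψ α' * α) ^ 2 + ψ α' * α + 1) * hα
    exact yO_ne c (pow_eq_zero_iff (by norm_num) |>.mp h4)
  have hg : g * ψ g' = 1 := by
    apply mul_left_cancel₀ (pow_ne_zero 3 hY0)
    linear_combination ψ g' * e3 + α ^ 3 * f4 + Y ^ 3 * ((ψ α' * α) ^ 2 + ψ α' * α + 1) * hα
  obtain ⟨a, ha0, ha⟩ := unit_const c α (IsUnit.of_mul_eq_one_right _ hα)
  obtain ⟨b, hb0, hb⟩ := unit_const c g (IsUnit.of_mul_eq_one _ hg)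
  have hbinv : algebraMap ℂ (O c) b⁻¹ * algebraMap ℂ (O c) b = 1 := by
    rw [← map_mul, inv_mul_cancel₀ hb0, map_one]
  have hainv : algebraMap ℂ (O c) a⁻¹ * algebraMap ℂ (O c) a = 1 := by
    rw [← map_mul, inv_mul_cancel₀ ha0, map_one]
  have h3inv : algebraMap ℂ (O c) 3⁻¹ * 3 = 1 := by
    rw [← map_ofNat (algebraMap ℂ (O c)) 3, ← map_mul]; simp
  obtain ⟨l, hl⟩ := cube_root Y (yO c) (b⁻¹ * a ^ 3) (by
    rw [ha, hb] at e3
    simp only [map_mul, map_pow]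
    linear_combination algebraMap ℂ (O c) b⁻¹ * e3 - Y ^ 3 * hbinv)
  have hl0 : l ≠ 0 := by
    rintro rfl
    apply hY0
    simpa using hl
  have hU : ψ (uO d) ^ 2 = (algebraMap ℂ (O c) l * yO c) ^ 7 + algebraMap ℂ (O c) d := by
    have := congrArg ψ (uO_sq d)
    simpa only [map_add, map_pow, AlgHom.commutes, ← hYdef, hl] using this
  obtain ⟨k, hk, hk1, hk2⟩ := U_form c d l hl0 _ hU
  have hy3 := pow_ne_zero 3 (yO_ne c)
  set y := yO c with hy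
  set A := algebraMap ℂ (O c) a with hA
  set L := algebraMap ℂ (O c) l with hL
  set A' := algebraMap ℂ (O c) a⁻¹ with hA'
  set T := algebraMap ℂ (O c) 3⁻¹ with hT
  rw [hk] at e0
  rw [ha] at e1 e2 e3
  rw [hl] at e0 e1 e2 e3
  have e2' : (L * y) ^ 3 * g2 - 3 * A ^ 2 * β = 0 := by
    apply mul_left_cancel₀ hy3
    linear_combination e2
  have hβ : β = y ^ 3 * (L ^ 3 * g2 * T * A' ^ 2) := by
    linear_combination -(T * A' ^ 2) * e2' - β * (A' * A) ^ 2 * h3inv -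
      β * (A' * A + 1) * hainv
  obtain ⟨β1, hβ1⟩ : ∃ β1, β = y ^ 3 * β1 := ⟨_, hβ⟩
  have e1' : L ^ 3 * y * g1 + A ^ 3 - 3 * A * y ^ 4 * β1 ^ 2 - L ^ 2 * A = 0 := by
    apply mul_left_cancel₀ (pow_ne_zero 5 (yO_ne c))
    rw [hβ1] at e1
    rw [← hy]
    linear_combination e1 - y ^ 2 * e3
  have r1 : a ^ 3 - l ^ 2 * a = 0 := by
    apply const_eq_zero c _ (3 * A * y ^ 3 * β1 ^ 2 - L ^ 3 * g1)
    simp only [map_sub, map_mul, map_pow, ← hA, ← hL, ← hy]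
    linear_combination e1'
  have e0' : (L * y) ^ 3 * g0 + A ^ 3 * uO c -
      (algebraMap ℂ (O c) k * uO c + β ^ 3 + (L * y) ^ 2 * β) = 0 := by
    apply mul_left_cancel₀ hy3
    linear_combination e0 - uO c * e3
  have r0 : a ^ 3 - k = 0 := by
    apply constu_eq_zero c _ (y ^ 8 * β1 ^ 3 + L ^ 2 * y * β - L ^ 3 * y ^ 2 * g0)
    simp only [map_sub, map_pow, ← hA, ← hy]
    rw [hβ1] at e0' ⊢
    linear_combination e0'
  have r2 : a ^ 2 = l ^ 2 := by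
    apply mul_right_cancel₀ ha0
    linear_combination r1
  have r3 : l = 1 := by
    apply mul_left_cancel₀ (pow_ne_zero 6 hl0)
    have : k = a ^ 3 := by linear_combination -r0
    rw [this] at hk1
    linear_combination -hk1 + (a ^ 4 + a ^ 2 * l ^ 2 + l ^ 4) * r2
  rw [r3] at hk1
  linear_combination hk2 - c * hk1

end Pool.Agent.H48.IsoC
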