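import Mathlib
import Pool.Agent.H48.IsoC

set_option autoImplicit false

namespace Pool.Agent.H48.IsoD

open Pool.Agent.H48.IsoA Pool.Agent.H48.IsoB Pool.Agent.H48.IsoC

abbrev Z : Type := {v : Fin 3 → ℂ // MvPolynomial.eval v pP = 0}

lemma eval_p (v : Fin 3 → ℂ) : MvPolynomial.eval v pP =
    (v 1 ^ 3 * v 2 - v 0 ^ 3 - v 1 ^ 2 * v 0) ^ 2 - v 1 ^ 7 := by
  simp [pP, uP]

lemma Z_eq (v : Z) : (v.1 1 ^ 3 * v.1 2 - v.1 0 ^ 3 - v.1 1 ^ 2 * v.1 0) ^ 2 = v.1 1 ^ 7 := by
  have := v.2
  rw [eval_p] at this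
  exact sub_eq_zero.mp this

noncomputable def tau (v : Z) : ℂ :=
  (v.1 1 ^ 3 * v.1 2 - v.1 0 ^ 3 - v.1 1 ^ 2 * v.1 0) / v.1 1 ^ 3

lemma tau_mul (v : Z) :
    v.1 1 ^ 3 * tau v = v.1 1 ^ 3 * v.1 2 - v.1 0 ^ 3 - v.1 1 ^ 2 * v.1 0 := by
  by_cases h : v.1 1 = 0
  · have h1 := Z_eq v
    rw [show v.1 1 ^ 7 = 0 by simp [h]] at h1
    rw [pow_eq_zero_iff (by norm_num) |>.mp h1, h]
    simp
  · rw [tau, mul_div_cancel₀ _ (pow_ne_zero 3 h)]

lemma tau_sq (v : Z) : tau v ^ 2 = v.1 1 := by
  by_cases h : v.1 1 = 0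
  · simp [tau, h]
  · apply mul_left_cancel₀ (pow_ne_zero 6 h)
    have h1 := Z_eq v
    rw [← tau_mul] at h1
    linear_combination h1

lemma cont_coord (i : Fin 3) : Continuous (fun v : Z => v.1 i) :=
  (continuous_apply i).comp continuous_subtype_val

lemma tau_cont : Continuous tau := by
  rw [continuous_iff_continuousAt]
  intro v
  have c0 := cont_coord 0
  have c1 := cont_coord 1
  have c2 := cont_coord 2
  by_cases h : v.1 1 = 0
  · have h0 : tau v = 0 := by simp [tau, h]
    unfold ContinuousAt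
    rw [h0, tendsto_zero_iff_norm_tendsto_zero]
    have h1 : (fun w : Z => ‖tau w‖) = fun w : Z => Real.sqrt ‖w.1 1‖ := by
      funext w
      rw [← tau_sq w, norm_pow, Real.sqrt_sq (norm_nonneg _)]
    rw [h1]
    have h2 : Continuous (fun w : Z => Real.sqrt ‖w.1 1‖) := c1.norm.sqrt
    have h3 := h2.continuousAt (x := v)
    unfold ContinuousAt at h3
    simpa [h] using h3
  · unfold tau
    apply ContinuousAt.div
    · exact ((((c1.pow 3).mul c2).sub (c0.pow 3)).sub ((c1.pow 2).mul c0)).continuousAt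
    · exact (c1.pow 3).continuousAt
    · exact pow_ne_zero 3 h

noncomputable def H1 (s : ℝ) (v : Z) : Z :=
  ⟨![(s : ℂ) ^ 2 * v.1 0, (s : ℂ) ^ 2 * v.1 1, v.1 2 - tau v + s * tau v], by
    rw [eval_p]
    simp only [Matrix.cons_val_zero, Matrix.cons_val_one, Matrix.cons_val]
    have h1 := Z_eq v
    have h2 := tau_mul v
    have h3 : ((s : ℂ) ^ 2 * v.1 1) ^ 3 * (v.1 2 - tau v + s * tau v) - ((s : ℂ) ^ 2 * v.1 0) ^ 3 -
        ((s : ℂ) ^ 2 * v.1 1) ^ 2 * ((s : ℂ) ^ 2 * v.1 0) =
        (s : ℂ) ^ 7 * (v.1 1 ^ 3 * v.1 2 - v.1 0 ^ 3 - v.1 1 ^ 2 * v.1 0) := by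
      linear_combination ((s : ℂ) ^ 7 - (s : ℂ) ^ 6) * h2
    rw [h3]
    linear_combination (s : ℂ) ^ 14 * h1⟩

noncomputable def H2 (s : ℝ) (v : Z) : Z :=
  ⟨![0, 0, s * (v.1 2 - tau v)], by
    rw [eval_p]
    simp⟩

lemma H1_cont : Continuous (fun q : unitInterval × Z => H1 q.1 q.2) := by
  apply Continuous.subtype_mk
  have c0 := (cont_coord 0).comp (continuous_snd (X := unitInterval))
  have c1 := (cont_coord 1).comp (continuous_snd (X := unitInterval))
  have c2 := (cont_coord 2).comp (continuous_snd (X := unitInterval))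
  have ct := tau_cont.comp (continuous_snd (X := unitInterval))
  have cs : Continuous (fun q : unitInterval × Z => ((q.1 : ℝ) : ℂ)) := by fun_prop
  apply continuous_pi
  intro i
  fin_cases i
  · exact (cs.pow 2).mul c0
  · exact (cs.pow 2).mul c1
  · exact (c2.sub ct).add (cs.mul ct)

lemma H2_cont : Continuous (fun q : unitInterval × Z => H2 q.1 q.2) := by
  apply Continuous.subtype_mk
  have c2 := (cont_coord 2).comp (continuous_snd (X := unitInterval))
  have ct := tau_cont.comp (continuous_snd (X := unitInterval))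
  have cs : Continuous (fun q : unitInterval × Z => ((q.1 : ℝ) : ℂ)) := by fun_prop
  apply continuous_pi
  intro i
  fin_cases i
  · exact continuous_const
  · exact continuous_const
  · exact cs.mul (c2.sub ct)

noncomputable def mid : C(Z, Z) :=
  ⟨fun v => H2 1 v, H2_cont.comp (Continuous.prodMk (continuous_const (y := 1)) continuous_id)⟩

noncomputable def pt : Z := ⟨![0, 0, 0], by rw [eval_p]; simp⟩

theorem contr : ContractibleSpace Z := by
  rw [contractible_iff_id_nullhomotopic]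
  refine ⟨pt, ?_⟩
  have h1 : ContinuousMap.Homotopic mid (ContinuousMap.id Z) :=
    ⟨{ toFun := fun q => H1 q.1 q.2
       continuous_toFun := H1_cont
       map_zero_left := by
        intro v
        apply Subtype.ext
        funext i
        fin_cases i <;> simp [H1, mid, H2]
       map_one_left := by
        intro v
        apply Subtype.ext
        funext i
        fin_cases i <;> simp [H1] }⟩
  have h2 : ContinuousMap.Homotopic (ContinuousMap.const Z pt) mid :=
    ⟨{ toFun := fun q => H2 q.1 q.2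
       continuous_toFun := H2_cont
       map_zero_left := by
        intro v
        apply Subtype.ext
        funext i
        fin_cases i <;> simp [H2, pt]
       map_one_left := by
        intro v
        rfl }⟩
  exact (h2.trans h1).symm

theorem irred : Irreducible pP := by
  have h := prime 0
  rw [map_zero, sub_zero] at h
  have h0 : pP ≠ 0 := by
    intro h0
    have := eval_p ![0, 1, 0]
    rw [h0] at this
    simp at this
  exact ((Ideal.span_singleton_prime h0).mp h).irreducible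

lemma exists_two (S : Finset ℂ) : ∃ c d : ℂ, c ∉ S ∧ d ∉ S ∧ c ≠ 0 ∧ d ≠ 0 ∧ c ≠ d := by
  classical
  obtain ⟨c, hc⟩ := Infinite.exists_notMem_finset (insert 0 S)
  obtain ⟨d, hd⟩ := Infinite.exists_notMem_finset (insert c (insert 0 S))
  simp only [Finset.mem_insert, not_or] at hc hd
  exact ⟨c, d, hc.2, hd.2.2, hc.1, hd.2.1, fun h => hd.1 h.symm⟩

lemma vanish (c : ℂ) (f : P) (hf : ∀ x : Fin 3 → ℂ, MvPolynomial.eval x pP = c →
    MvPolynomial.eval x f = 0) : mkQ c f = 0 := by
  have := prime c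
  apply Ideal.Quotient.eq_zero_iff_mem.mpr
  rw [← MvPolynomial.IsPrime.vanishingIdeal_zeroLocus (K := ℂ)
    (Ideal.span {pP - MvPolynomial.C c})]
  intro x hx
  have h1 := hx _ (Ideal.subset_span rfl)
  rw [MvPolynomial.aeval_eq_eval] at h1 ⊢
  apply hf
  rw [map_sub, MvPolynomial.eval_C] at h1
  exact sub_eq_zero.mp h1

lemma eval_aeval (x : Fin 3 → ℂ) (f : Fin 3 → P) (q : P) :
    MvPolynomial.eval x (MvPolynomial.aeval f q) =
      MvPolynomial.eval (fun i => MvPolynomial.eval x (f i)) q := by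
  induction q using MvPolynomial.induction_on with
  | C a => simp
  | add p q hp hq => rw [map_add, map_add, map_add, hp, hq]
  | mul_X p i hp =>
    rw [map_mul, map_mul, map_mul, hp, MvPolynomial.aeval_X, MvPolynomial.eval_X]

noncomputable def pull (c d : ℂ) (f : Fin 3 → P)
    (hf : ∀ x : Fin 3 → ℂ, MvPolynomial.eval x pP = c →
      MvPolynomial.eval (fun i => MvPolynomial.eval x (f i)) pP = d) : Q d →ₐ[ℂ] Q c :=
  Ideal.Quotient.liftₐ _ ((mkQ c).comp (MvPolynomial.aeval f)) (by
    intro a ha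
    obtain ⟨b, rfl⟩ := Ideal.mem_span_singleton'.mp ha
    rw [map_mul]
    have : ((mkQ c).comp (MvPolynomial.aeval f)) (pP - MvPolynomial.C d) = 0 := by
      rw [AlgHom.comp_apply]
      apply vanish
      intro x hx
      rw [eval_aeval, map_sub, hf x hx]
      simp
    rw [this, mul_zero])

lemma pull_comp (c d : ℂ) (f g : Fin 3 → P)
    (hf : ∀ x : Fin 3 → ℂ, MvPolynomial.eval x pP = c →
      MvPolynomial.eval (fun i => MvPolynomial.eval x (f i)) pP = d)
    (hg : ∀ x : Fin 3 → ℂ, MvPolynomial.eval x pP = d →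
      MvPolynomial.eval (fun i => MvPolynomial.eval x (g i)) pP = c)
    (h : ∀ x : Fin 3 → ℂ, MvPolynomial.eval x pP = c →
      (fun j => MvPolynomial.eval (fun i => MvPolynomial.eval x (f i)) (g j)) = x) :
    (pull c d f hf).comp (pull d c g hg) = AlgHom.id ℂ (Q c) := by
  apply Ideal.Quotient.algHom_ext
  apply MvPolynomial.algHom_ext
  intro i
  change mkQ c (MvPolynomial.aeval f (MvPolynomial.aeval g (MvPolynomial.X i))) =
    mkQ c (MvPolynomial.X i)
  rw [← sub_eq_zero, ← map_sub]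
  apply vanish
  intro x hx
  rw [map_sub, eval_aeval, MvPolynomial.aeval_X, MvPolynomial.eval_X]
  exact sub_eq_zero.mpr (congrFun (h x hx) i)

end Pool.Agent.H48.IsoD
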