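import Mathlib

set_option autoImplicit false

namespace Pool.Agent.H48.JpA

open Set Filter Topology MeasureTheory
open scoped ENNReal

lemma minmesh (x : ℕ → ℝ) (n : ℕ) (hx : ∀ i < n, x i < x (i + 1)) :
    ∃ m : ℝ, 0 < m ∧ ∀ i < n, m ≤ x (i + 1) - x i := by
  induction n with
  | zero => exact ⟨1, one_pos, fun i hi => absurd hi (Nat.not_lt_zero i)⟩
  | succ n ih =>
    obtain ⟨m, hm, h⟩ := ih (fun i hi => hx i (by omega))
    refine ⟨min m (x (n + 1) - x n), lt_min hm (sub_pos.2 (hx n (by omega))), fun i hi => ?_⟩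
    rcases Nat.lt_succ_iff_lt_or_eq.1 hi with h1 | h1
    · exact (min_le_left _ _).trans (h i h1)
    · subst h1; exact min_le_right _ _

lemma mono_of (x : ℕ → ℝ) (n : ℕ) (hx : ∀ i < n, x i < x (i + 1)) (i j : ℕ) (hij : i ≤ j)
    (hj : j ≤ n) : x i ≤ x j := by
  induction j with
  | zero => have : i = 0 := by omega
            subst this; exact le_rfl
  | succ j ih =>
    rcases Nat.lt_succ_iff_lt_or_eq.1 (Nat.lt_succ_of_le hij) with h1 | h1
    · exact (ih (by omega) (by omega)).trans (hx j (by omega)).le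
    · subst h1; exact le_rfl

lemma invmod (γ : ℝ → ℂ) (p q m : ℝ) (hm : 0 < m) (hγ : ContinuousOn γ (Icc p q))
    (hinj : InjOn γ (Icc p q)) :
    ∃ ρ : ℝ, 0 < ρ ∧ ∀ s ∈ Icc p q, ∀ t ∈ Icc p q, s + m ≤ t → ρ ≤ dist (γ s) (γ t) := by
  set S : Set (ℝ × ℝ) := (Icc p q ×ˢ Icc p q) ∩ {z | z.1 + m ≤ z.2} with hS
  have hc : IsCompact S := (isCompact_Icc.prod isCompact_Icc).inter_right
    (isClosed_le (by fun_prop) (by fun_prop))
  have hcont : ContinuousOn (fun z : ℝ × ℝ => dist (γ z.1) (γ z.2)) S := by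
    have h1 : ContinuousOn (fun z : ℝ × ℝ => γ z.1) S :=
      hγ.comp continuousOn_fst (fun z hz => hz.1.1)
    have h2 : ContinuousOn (fun z : ℝ × ℝ => γ z.2) S :=
      hγ.comp continuousOn_snd (fun z hz => hz.1.2)
    exact continuous_dist.comp_continuousOn (h1.prodMk h2)
  rcases S.eq_empty_or_nonempty with h0 | h0
  · refine ⟨1, one_pos, fun s hs t ht hst => ?_⟩
    have : (s, t) ∈ S := ⟨⟨hs, ht⟩, hst⟩
    rw [h0] at this; exact absurd this (notMem_empty _)
  · obtain ⟨z, hz, hmin⟩ := hc.exists_isMinOn h0 hcont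
    refine ⟨dist (γ z.1) (γ z.2), dist_pos.2 fun h => ?_, fun s hs t ht hst => ?_⟩
    · have h1 := hinj hz.1.1 hz.1.2 h
      have h2 : z.1 + m ≤ z.2 := hz.2
      linarith
    · exact hmin (show (s, t) ∈ S from ⟨⟨hs, ht⟩, hst⟩)

lemma unif (a b δ : ℝ) (hab : a < b) (hδ : 0 < δ) :
    ∃ (N : ℕ) (y : ℕ → ℝ), Monotone y ∧ y 0 = a ∧ y N = b ∧
      (∀ j, y j < y (j + 1) ∧ y (j + 1) - y j < δ) ∧
      ∀ t ∈ Icc a b, ∃ j < N, t ∈ Icc (y j) (y (j + 1)) := by
  obtain ⟨N, hN⟩ := exists_nat_gt ((b - a) / δ)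
  have hN0 : (0 : ℝ) < N := lt_trans (div_pos (sub_pos.2 hab) hδ) hN
  have hh : 0 < (b - a) / N := div_pos (sub_pos.2 hab) hN0
  have hlt : (b - a) / N < δ := by
    rw [div_lt_iff₀ hN0]; rw [div_lt_iff₀ hδ] at hN; linarith
  have hmono : Monotone (fun j : ℕ => a + j * ((b - a) / N)) := fun i j hij => by
    have : (i : ℝ) ≤ j := by exact_mod_cast hij
    simp only; nlinarith
  have hyN : a + N * ((b - a) / N) = b := by field_simp; ring
  refine ⟨N, fun j => a + j * ((b - a) / N), hmono, by simp, hyN, fun j => ?_, fun t ht => ?_⟩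
  · push_cast; constructor <;> nlinarith
  · by_contra hcon
    push Not at hcon
    have key : ∀ j ≤ N, 0 < j → a + (j : ℝ) * ((b - a) / N) < t := by
      intro j
      induction j with
      | zero => intro _ h; exact absurd h (lt_irrefl 0)
      | succ j ih =>
        intro hj _
        have h1 := hcon j (by omega)
        have h2 : a + (j : ℝ) * ((b - a) / N) ≤ t := by
          rcases Nat.eq_zero_or_pos j with h0 | h0
          · subst h0; simpa using ht.1
          · exact (ih (by omega) h0).le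
        by_contra h3
        exact h1 ⟨h2, not_lt.1 h3⟩
    have hNpos : 0 < N := by exact_mod_cast hN0
    have := key N le_rfl hNpos
    rw [hyN] at this
    exact absurd ht.2 (not_le.2 this)

lemma card_le_two (S : Finset ℕ) (h : ∀ i ∈ S, ∀ j ∈ S, j < i + 2) : S.card ≤ 2 := by
  rcases S.eq_empty_or_nonempty with h0 | h0
  · simp [h0]
  · have : S ⊆ {S.min' h0, S.min' h0 + 1} := fun j hj => by
      have h1 := h _ (S.min'_mem h0) j hj
      have h2 := S.min'_le j hj
      simp only [Finset.mem_insert, Finset.mem_singleton]; omega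
    exact (Finset.card_le_card this).trans (Finset.card_le_two)

theorem key (Γ γ : ℝ → ℂ) (a b p q : ℝ) (hab : a < b) (hΓ : ContinuousOn Γ (Icc a b))
    (hγ : ContinuousOn γ (Icc p q)) (hinj : InjOn γ (Icc p q))
    (hin : γ '' Icc p q ⊆ Γ '' Icc a b) (n : ℕ) (x : ℕ → ℝ) (hx : ∀ i < n, x i < x (i + 1))
    (hm : ∀ i ≤ n, x i ∈ Icc p q) (Φ : ℕ → ℂ → ℂ)
    (hΦ : ∀ i < n, ContinuousOn (Φ i) (Γ '' Icc a b)) (K : ℝ≥0∞) (η : ℝ) (hη : 0 < η)
    (hK : ∀ i < n, ∀ u v, a ≤ u → u < v → v ≤ b →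
      (∀ t ∈ Icc u v, ∃ s ∈ Icc (x i) (x (i + 1)), dist (Γ t) (γ s) < η) →
      edist (Φ i (Γ v)) (Φ i (Γ u)) ≤ K * eVariationOn Γ (Icc u v)) :
    ∑ i ∈ Finset.range n, edist (Φ i (γ (x (i + 1)))) (Φ i (γ (x i))) ≤
      2 * (K * eVariationOn Γ (Icc a b)) := by
  classical
  obtain ⟨m, hm0, hmm⟩ := minmesh x n hx
  obtain ⟨ρ, hρ, hρρ⟩ := invmod γ p q m hm0 hγ hinj
  have huc := isCompact_Icc.uniformContinuousOn_of_continuous hΓ
  rw [Metric.uniformContinuousOn_iff] at huc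
  obtain ⟨δ, hδ, hδδ⟩ := huc (min ρ η) (lt_min hρ hη)
  obtain ⟨N, y, hymono, hy0, hyN, hyy, hcov⟩ := unif a b δ hab hδ
  have hP : ∀ j < N, Icc (y j) (y (j + 1)) ⊆ Icc a b := fun j hj =>
    Icc_subset_Icc (hy0 ▸ hymono (Nat.zero_le j)) (hyN ▸ hymono (by omega))
  have hclose : ∀ j < N, ∀ t ∈ Icc (y j) (y (j + 1)), ∀ t' ∈ Icc (y j) (y (j + 1)),
      dist (Γ t) (Γ t') < min ρ η := fun j hj t ht t' ht' => by
    apply hδδ t (hP j hj ht) t' (hP j hj ht')
    have := (hyy j).2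
    rw [Real.dist_eq, abs_lt]
    constructor <;> linarith [ht.1, ht.2, ht'.1, ht'.2]
  have harc : ∀ i < n, Icc (x i) (x (i + 1)) ⊆ Icc p q := fun i hi =>
    Icc_subset_Icc (hm i hi.le).1 (hm (i + 1) hi).2
  let R : ℕ → ℕ → Prop := fun i j =>
    ∃ t ∈ Icc (y j) (y (j + 1)), ∃ s ∈ Icc (x i) (x (i + 1)), Γ t = γ s
  let V : ℕ → ℝ≥0∞ := fun j => K * eVariationOn Γ (Icc (y j) (y (j + 1)))
  have step : ∀ i < n, edist (Φ i (γ (x (i + 1)))) (Φ i (γ (x i))) ≤
      ∑ j ∈ (Finset.range N).filter (R i), V j := by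
    intro i hi
    let φ : ℂ → ℝ := fun z => dist (Φ i z) (Φ i (γ (x i)))
    have hc1 : ContinuousOn (fun s => φ (γ s)) (Icc (x i) (x (i + 1))) := by
      have : ContinuousOn (fun s => Φ i (γ s)) (Icc (x i) (x (i + 1))) :=
        (hΦ i hi).comp (hγ.mono (harc i hi)) (fun s hs => hin ⟨s, harc i hi hs, rfl⟩)
      exact continuous_dist.comp_continuousOn (this.prodMk continuousOn_const)
    have hivt := intermediate_value_Icc (hx i hi).le hc1
    have hsub : Icc (φ (γ (x i))) (φ (γ (x (i + 1)))) ⊆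
        ⋃ j ∈ (Finset.range N).filter (R i), (fun t => φ (Γ t)) '' Icc (y j) (y (j + 1)) := by
      intro r hr
      obtain ⟨s, hs, rfl⟩ := hivt hr
      obtain ⟨t, ht, hts⟩ := hin ⟨s, harc i hi hs, rfl⟩
      obtain ⟨j, hj, htj⟩ := hcov t ht
      simp only [mem_iUnion]
      exact ⟨j, Finset.mem_filter.2 ⟨Finset.mem_range.2 hj, t, htj, s, hs, hts⟩, t, htj, by
        simp only [hts]⟩
    have h1 := (measure_mono (μ := (volume : Measure ℝ)) hsub).trans (measure_biUnion_finset_le _ _)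
    rw [Real.volume_Icc] at h1
    have h2 : φ (γ (x i)) = 0 := dist_self _
    rw [h2, sub_zero, ← edist_dist] at h1
    refine h1.trans (Finset.sum_le_sum fun j hj => (Real.volume_le_diam _).trans ?_)
    obtain ⟨hj, t0, ht0, s0, hs0, hts0⟩ := Finset.mem_filter.1 hj
    rw [Finset.mem_range] at hj
    have aux : ∀ u ∈ Icc (y j) (y (j + 1)), ∀ v ∈ Icc (y j) (y (j + 1)), u < v →
        edist (Φ i (Γ v)) (Φ i (Γ u)) ≤ V j := by
      intro u hu v hv huv
      have hsub2 : Icc u v ⊆ Icc (y j) (y (j + 1)) := Icc_subset_Icc hu.1 hv.2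
      refine (hK i hi u v (hP j hj hu).1 huv (hP j hj hv).2 fun t ht => ⟨s0, hs0, ?_⟩).trans ?_
      · rw [← hts0]; exact (hclose j hj t (hsub2 ht) t0 ht0).trans_le (min_le_right _ _)
      · exact mul_le_mul_right (eVariationOn.mono Γ hsub2) K
    have lip : ∀ z w, edist (φ z) (φ w) ≤ edist (Φ i z) (Φ i w) := fun z w => by
      rw [edist_dist, edist_dist]
      exact ENNReal.ofReal_le_ofReal (dist_dist_dist_le_left _ _ _)
    apply Metric.ediam_le
    rintro _ ⟨u, hu, rfl⟩ _ ⟨v, hv, rfl⟩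
    refine (lip _ _).trans ?_
    rcases lt_trichotomy u v with h | h | h
    · rw [edist_comm]; exact aux u hu v hv h
    · subst h; simp
    · exact aux v hv u hu h
  have cnt : ∀ j < N, ((Finset.range n).filter (fun i => R i j)).card ≤ 2 := by
    intro j hj
    apply card_le_two
    intro i hi k hk
    obtain ⟨hi, t, ht, s, hs, hts⟩ := Finset.mem_filter.1 hi
    obtain ⟨hk, t', ht', s', hs', hts'⟩ := Finset.mem_filter.1 hk
    rw [Finset.mem_range] at hi hk
    by_contra hcon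
    have h1 : x (i + 2) ≤ x k := mono_of x n hx _ _ (by omega) hk.le
    have h2 := hmm (i + 1) (by omega)
    have h3 := hρρ s (harc i hi hs) s' (harc k hk hs') (by
      have : x (i + 1 + 1) = x (i + 2) := rfl
      linarith [hs.2, hs'.1])
    have h4 := (hclose j hj t ht t' ht').trans_le (min_le_left _ _)
    rw [hts, hts'] at h4
    linarith
  calc ∑ i ∈ Finset.range n, edist (Φ i (γ (x (i + 1)))) (Φ i (γ (x i)))
      ≤ ∑ i ∈ Finset.range n, ∑ j ∈ (Finset.range N).filter (R i), V j :=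
        Finset.sum_le_sum fun i hi => step i (Finset.mem_range.1 hi)
    _ = ∑ j ∈ Finset.range N, ∑ i ∈ (Finset.range n).filter (fun i => R i j), V j := by
        simp only [Finset.sum_filter]
        exact Finset.sum_comm
    _ ≤ ∑ j ∈ Finset.range N, 2 * V j := by
        refine Finset.sum_le_sum fun j hj => ?_
        rw [Finset.sum_const, nsmul_eq_mul]
        exact mul_le_mul_left (by exact_mod_cast cnt j (Finset.mem_range.1 hj)) _
    _ = 2 * (K * eVariationOn Γ (Icc a b)) := by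
        rw [← Finset.mul_sum, ← Finset.mul_sum, eVariationOn.sum' Γ hymono, hy0, hyN]

end Pool.Agent.H48.JpA
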