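import Mathlib

set_option autoImplicit false

namespace Pool.Agent.H48.JpDefs

open Set

structure Pth where
  a : ℝ
  b : ℝ
  f : ℝ → ℂ
  lt : a < b
  cont : ContinuousOn f (Icc a b)

def Im (γ : Pth) : Set ℂ := γ.f '' Icc γ.a γ.b

def Sub (σ γ : Pth) : Prop := γ.a ≤ σ.a ∧ σ.b ≤ γ.b ∧ EqOn σ.f γ.f (Icc σ.a σ.b)

def Adm (γ : Pth) : Prop :=
  BoundedVariationOn γ.f (Icc γ.a γ.b) ∧
    ∀ σ : Pth, Sub σ γ → ¬ ∃ z : ℂ, ∀ t ∈ Icc σ.a σ.b, σ.f t = z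

def HasInt (γ : Pth) (g : ℂ → ℂ) (I : ℂ) : Prop :=
  ∀ ε : ℝ, 0 < ε → ∃ δ : ℝ, 0 < δ ∧ ∀ (n : ℕ) (x τ : ℕ → ℝ), x 0 = γ.a → x n = γ.b →
    (∀ j < n, x j < x (j + 1) ∧ x (j + 1) - x j < δ ∧ τ j ∈ Icc (x j) (x (j + 1))) →
    ‖∑ j ∈ Finset.range n, g (γ.f (τ j)) * (γ.f (x (j + 1)) - γ.f (x j)) - I‖ < ε

def IsDer (F : Set Pth) (f g : ℂ → ℂ) : Prop :=
  ∀ γ ∈ F, HasInt γ g (f (γ.f γ.b) - f (γ.f γ.a))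

def Gen (X : Set ℂ) (F : Set Pth) : Set Pth :=
  {γ | Adm γ ∧ Im γ ⊆ X ∧ ∀ f g : ℂ → ℂ, ContinuousOn f X → ContinuousOn g X →
    IsDer F f g → IsDer {σ | Sub σ γ} f g}

end Pool.Agent.H48.JpDefs
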