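import Pool.Agent.H48.JpA
import Pool.Agent.H48.JpDefs

set_option autoImplicit false

namespace Pool.Agent.H48.JpB

open Set Filter Topology MeasureTheory Pool.Agent.H48.JpDefs Pool.Agent.H48.JpA
open scoped ENNReal

lemma bound (Γ : Pth) (f g : ℂ → ℂ) (h : IsDer {σ | Sub σ Γ} f g) (u v : ℝ) (hu : Γ.a ≤ u)
    (huv : u < v) (hv : v ≤ Γ.b) (w : ℂ) (K : ℝ) (hK0 : 0 ≤ K)
    (hK : ∀ t ∈ Icc u v, ‖g (Γ.f t) - w‖ ≤ K) :
    edist (f (Γ.f v) - w * Γ.f v) (f (Γ.f u) - w * Γ.f u) ≤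
      ENNReal.ofReal K * eVariationOn Γ.f (Icc u v) := by
  apply ENNReal.le_of_forall_pos_le_add
  intro ε hε _
  let σ : Pth := ⟨u, v, Γ.f, huv, Γ.cont.mono (Icc_subset_Icc hu hv)⟩
  have hσ : σ ∈ {σ | Sub σ Γ} := ⟨hu, hv, fun _ _ => rfl⟩
  obtain ⟨δ, hδ, hδδ⟩ := h σ hσ ε (by exact_mod_cast hε)
  obtain ⟨N, y, hymono, hy0, hyN, hyy, -⟩ := unif u v δ huv hδ
  have h1 := hδδ N y y hy0 hyN (fun j _ => ⟨(hyy j).1, (hyy j).2, le_rfl, (hyy j).1.le⟩)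
  have hmem : ∀ j ≤ N, y j ∈ Icc u v := fun j hj =>
    ⟨hy0 ▸ hymono (Nat.zero_le j), hyN ▸ hymono hj⟩
  have htel : ∑ j ∈ Finset.range N, (Γ.f (y (j + 1)) - Γ.f (y j)) = Γ.f v - Γ.f u := by
    rw [Finset.sum_range_sub (fun j => Γ.f (y j)), hy0, hyN]
  change ‖∑ j ∈ Finset.range N, g (Γ.f (y j)) * (Γ.f (y (j + 1)) - Γ.f (y j)) -
    (f (Γ.f v) - f (Γ.f u))‖ < ε at h1
  have hid : (f (Γ.f v) - w * Γ.f v) - (f (Γ.f u) - w * Γ.f u) =
      ∑ j ∈ Finset.range N, (g (Γ.f (y j)) - w) * (Γ.f (y (j + 1)) - Γ.f (y j)) -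
      (∑ j ∈ Finset.range N, g (Γ.f (y j)) * (Γ.f (y (j + 1)) - Γ.f (y j)) -
        (f (Γ.f v) - f (Γ.f u))) := by
    simp only [sub_mul, Finset.sum_sub_distrib]
    rw [← Finset.mul_sum, htel]; ring
  have h2 : ‖∑ j ∈ Finset.range N, (g (Γ.f (y j)) - w) * (Γ.f (y (j + 1)) - Γ.f (y j))‖ ≤
      K * ∑ j ∈ Finset.range N, dist (Γ.f (y (j + 1))) (Γ.f (y j)) := by
    rw [Finset.mul_sum]
    refine (norm_sum_le _ _).trans (Finset.sum_le_sum fun j hj => ?_)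
    rw [norm_mul, dist_eq_norm]
    exact mul_le_mul_of_nonneg_right (hK _ (hmem j (Finset.mem_range.1 hj).le)) (norm_nonneg _)
  have h3 : dist (f (Γ.f v) - w * Γ.f v) (f (Γ.f u) - w * Γ.f u) ≤
      K * ∑ j ∈ Finset.range N, dist (Γ.f (y (j + 1))) (Γ.f (y j)) + ε := by
    rw [dist_eq_norm, hid]
    exact (norm_sub_le _ _).trans (add_le_add h2 h1.le)
  have h4 : ∑ j ∈ Finset.range N, edist (Γ.f (y (j + 1))) (Γ.f (y j)) ≤
      eVariationOn Γ.f (Icc u v) :=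
    eVariationOn.sum_le_of_monotoneOn_Iic (hymono.monotoneOn _) hmem
  rw [edist_dist]
  refine (ENNReal.ofReal_le_ofReal h3).trans ?_
  rw [ENNReal.ofReal_add (mul_nonneg hK0 (Finset.sum_nonneg fun _ _ => dist_nonneg))
      (NNReal.coe_nonneg ε),
    ENNReal.ofReal_mul hK0, ENNReal.ofReal_sum_of_nonneg (fun _ _ => dist_nonneg)]
  simp only [← edist_dist, ENNReal.ofReal_coe_nnreal]
  exact add_le_add_left (mul_le_mul_right h4 _) _

lemma bv (Γ γ : Pth) (hΓ : BoundedVariationOn Γ.f (Icc Γ.a Γ.b)) (hinj : InjOn γ.f (Icc γ.a γ.b))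
    (hin : Im γ ⊆ Im Γ) : BoundedVariationOn γ.f (Icc γ.a γ.b) := by
  have : eVariationOn γ.f (Icc γ.a γ.b) ≤ 2 * (1 * eVariationOn Γ.f (Icc Γ.a Γ.b)) := by
    rw [eVariationOn.eVariationOn_eq_strictMonoOn γ.f]
    apply iSup_le
    rintro ⟨n, x, hx, hm⟩
    exact key Γ.f γ.f Γ.a Γ.b γ.a γ.b Γ.lt Γ.cont γ.cont hinj hin n x
      (fun i hi => hx (show i ∈ Iic n from hi.le) (show i + 1 ∈ Iic n from hi) (Nat.lt_succ_self i))
      (fun i hi => hm i hi) (fun _ z => z) (fun _ _ => continuousOn_id) 1 1 one_pos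
      (fun i _ u v _ huv _ _ => by
        rw [one_mul]
        exact eVariationOn.edist_le Γ.f ⟨huv.le, le_rfl⟩ ⟨le_rfl, huv.le⟩)
  refine ne_top_of_le_ne_top ?_ this
  rw [one_mul]
  exact ENNReal.mul_ne_top (by simp) hΓ

lemma der (Γ σ : Pth) (hΓ : BoundedVariationOn Γ.f (Icc Γ.a Γ.b)) (hinj : InjOn σ.f (Icc σ.a σ.b))
    (hin : Im σ ⊆ Im Γ) (f g : ℂ → ℂ) (hf : ContinuousOn f (Im Γ)) (hg : ContinuousOn g (Im Γ))
    (h : IsDer {σ | Sub σ Γ} f g) : HasInt σ g (f (σ.f σ.b) - f (σ.f σ.a)) := by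
  intro ε hε
  set W : ℝ := (eVariationOn Γ.f (Icc Γ.a Γ.b)).toReal with hW
  have hW0 : 0 ≤ W := ENNReal.toReal_nonneg
  set e : ℝ := ε / (4 * (W + 1)) with he
  have he0 : 0 < e := div_pos hε (by positivity)
  have hX : IsCompact (Im Γ) := isCompact_Icc.image_of_continuousOn Γ.cont
  have hug := hX.uniformContinuousOn_of_continuous hg
  rw [Metric.uniformContinuousOn_iff] at hug
  obtain ⟨η, hη, hηη⟩ := hug e he0
  have hus := isCompact_Icc.uniformContinuousOn_of_continuous σ.cont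
  rw [Metric.uniformContinuousOn_iff] at hus
  obtain ⟨δ, hδ, hδδ⟩ := hus η hη
  refine ⟨δ, hδ, fun n x τ hx0 hxn hx => ?_⟩
  have hx1 : ∀ i < n, x i < x (i + 1) := fun i hi => (hx i hi).1
  have hm : ∀ i ≤ n, x i ∈ Icc σ.a σ.b := fun i hi =>
    ⟨hx0 ▸ mono_of x n hx1 0 i (Nat.zero_le i) hi, hxn ▸ mono_of x n hx1 i n hi le_rfl⟩
  have harc : ∀ i < n, Icc (x i) (x (i + 1)) ⊆ Icc σ.a σ.b := fun i hi =>
    Icc_subset_Icc (hm i hi.le).1 (hm (i + 1) hi).2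
  have hk := key Γ.f σ.f Γ.a Γ.b σ.a σ.b Γ.lt Γ.cont σ.cont hinj hin n x hx1 hm
    (fun i z => f z - g (σ.f (τ i)) * z)
    (fun i _ => hf.sub (continuousOn_const.mul continuousOn_id)) (ENNReal.ofReal (2 * e)) η hη
    (fun i hi u v hu huv hv hc => bound Γ f g h u v hu huv hv _ (2 * e) (by positivity)
      (fun t ht => by
        obtain ⟨s, hs, hts⟩ := hc t ht
        have hτ := (hx i hi).2.2
        have a1 : σ.f s ∈ Im Γ := hin ⟨s, harc i hi hs, rfl⟩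
        have a2 : σ.f (τ i) ∈ Im Γ := hin ⟨τ i, harc i hi hτ, rfl⟩
        have a3 : Γ.f t ∈ Im Γ := ⟨t, ⟨hu.trans ht.1, ht.2.trans hv⟩, rfl⟩
        have b1 := hηη _ a3 _ a1 hts
        have b2 := hηη _ a1 _ a2 (hδδ s (harc i hi hs) (τ i) (harc i hi hτ) (by
          have := (hx i hi).2.1
          rw [Real.dist_eq, abs_lt]
          constructor <;> linarith [hs.1, hs.2, hτ.1, hτ.2]))
        rw [← dist_eq_norm]
        linarith [dist_triangle (g (Γ.f t)) (g (σ.f s)) (g (σ.f (τ i)))]))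
  have hk2 : ∑ i ∈ Finset.range n, dist (f (σ.f (x (i + 1))) - g (σ.f (τ i)) * σ.f (x (i + 1)))
      (f (σ.f (x i)) - g (σ.f (τ i)) * σ.f (x i)) ≤ 2 * (2 * e * W) := by
    have hfin : (2 : ℝ≥0∞) * (ENNReal.ofReal (2 * e) * eVariationOn Γ.f (Icc Γ.a Γ.b)) =
        ENNReal.ofReal (2 * (2 * e * W)) := by
      rw [ENNReal.ofReal_mul (p := 2) (q := 2 * e * W) (by norm_num),
        ENNReal.ofReal_mul (p := 2 * e) (q := W) (by positivity), hW,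
        ENNReal.ofReal_toReal hΓ]
      simp
    rw [hfin] at hk
    simp only [edist_dist] at hk
    rw [← ENNReal.ofReal_sum_of_nonneg (fun _ _ => dist_nonneg)] at hk
    exact (ENNReal.ofReal_le_ofReal_iff (by positivity)).1 hk
  have htel : ∑ i ∈ Finset.range n, (f (σ.f (x (i + 1))) - f (σ.f (x i))) =
      f (σ.f σ.b) - f (σ.f σ.a) := by
    rw [Finset.sum_range_sub (fun j => f (σ.f (x j))), hx0, hxn]
  rw [← htel, ← Finset.sum_sub_distrib]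
  refine ((norm_sum_le _ _).trans (le_trans (Finset.sum_le_sum fun i _ => ?_) hk2)).trans_lt ?_
  · rw [dist_comm, dist_eq_norm]
    apply le_of_eq; congr 1; ring
  · have : 4 * (W + 1) * e = ε := by rw [he]; field_simp
    nlinarith

theorem main (Γ γ : Pth) (hΓ : BoundedVariationOn Γ.f (Icc Γ.a Γ.b))
    (hinj : InjOn γ.f (Icc γ.a γ.b)) (hin : Im γ ⊆ Im Γ) :
    γ ∈ Gen (Im Γ) {σ | Sub σ Γ} := by
  refine ⟨⟨bv Γ γ hΓ hinj hin, ?_⟩, hin, fun f g hf hg h σ hσ => ?_⟩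
  · rintro σ ⟨h1, h2, h3⟩ ⟨z, hz⟩
    have ha : σ.a ∈ Icc σ.a σ.b := ⟨le_rfl, σ.lt.le⟩
    have hb : σ.b ∈ Icc σ.a σ.b := ⟨σ.lt.le, le_rfl⟩
    have := hinj (Icc_subset_Icc h1 h2 ha) (Icc_subset_Icc h1 h2 hb)
      (by rw [← h3 ha, ← h3 hb, hz _ ha, hz _ hb])
    exact absurd this σ.lt.ne
  · obtain ⟨h1, h2, h3⟩ := hσ
    refine der Γ σ hΓ (fun s hs t ht hst => hinj (Icc_subset_Icc h1 h2 hs)
      (Icc_subset_Icc h1 h2 ht) (by rw [← h3 hs, ← h3 ht, hst])) ?_ f g hf hg h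
    rintro _ ⟨s, hs, rfl⟩
    exact hin ⟨s, Icc_subset_Icc h1 h2 hs, (h3 hs).symm⟩

end Pool.Agent.H48.JpB
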