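import Mathlib

set_option autoImplicit false

namespace Pool.Agent.H48.Kac

open MvPolynomial

section Tangent
variable {k : Type} [Field k] {n : ℕ}

/-- The derivative at the identity matrix in direction `Y`. -/
noncomputable def dd (Y : Matrix (Fin n) (Fin n) k) (f : MvPolynomial (Fin n × Fin n) k) : k :=
  ∑ ij : Fin n × Fin n, eval (fun ij' : Fin n × Fin n => (1 : Matrix (Fin n) (Fin n) k) ij'.1 ij'.2)
    (pderiv ij f) * Y ij.1 ij.2

noncomputable def dual (Y : Matrix (Fin n) (Fin n) k) :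
    MvPolynomial (Fin n × Fin n) k →ₐ[k] DualNumber k :=
  aeval (fun ij => TrivSqZeroExt.inl ((1 : Matrix (Fin n) (Fin n) k) ij.1 ij.2) +
    TrivSqZeroExt.inr (Y ij.1 ij.2))

lemma dual_fst (Y : Matrix (Fin n) (Fin n) k) (f : MvPolynomial (Fin n × Fin n) k) :
    (dual Y f).fst =
      eval (fun ij' : Fin n × Fin n => (1 : Matrix (Fin n) (Fin n) k) ij'.1 ij'.2) f := by
  induction f using MvPolynomial.induction_on with
  | C a => simp [dual, TrivSqZeroExt.algebraMap_eq_inl]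
  | add f g hf hg => simp [hf, hg]
  | mul_X f i hf => rw [map_mul, TrivSqZeroExt.fst_mul, hf]; simp [dual]

lemma dual_snd (Y : Matrix (Fin n) (Fin n) k) (f : MvPolynomial (Fin n × Fin n) k) :
    (dual Y f).snd = dd Y f := by
  classical
  induction f using MvPolynomial.induction_on with
  | C a => simp [dual, dd, TrivSqZeroExt.algebraMap_eq_inl]
  | add f g hf hg => simp [hf, hg, dd, add_mul, Finset.sum_add_distrib]
  | mul_X f i hf =>
    have e : ∑ x : Fin n × Fin n, eval (fun ij' : Fin n × Fin n =>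
        (1 : Matrix (Fin n) (Fin n) k) ij'.1 ij'.2) f * eval (fun ij' : Fin n × Fin n =>
        (1 : Matrix (Fin n) (Fin n) k) ij'.1 ij'.2) (pderiv x (X i : MvPolynomial (Fin n × Fin n) k)) *
        Y x.1 x.2 = eval (fun ij' : Fin n × Fin n =>
        (1 : Matrix (Fin n) (Fin n) k) ij'.1 ij'.2) f * Y i.1 i.2 := by
      rw [Finset.sum_eq_single i]
      · simp
      · intro b _ hb
        simp [pderiv_X, Pi.single_apply, hb.symm]
      · simp
    rw [map_mul, TrivSqZeroExt.snd_mul, hf, dual_fst]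
    simp only [dd, Derivation.leibniz, smul_eq_mul, map_add, map_mul, add_mul,
      Finset.sum_add_distrib, eval_X, e]
    simp [dual, Finset.mul_sum, mul_assoc, mul_comm, mul_left_comm]

noncomputable def eps1 : (DualNumber k)ˣ :=
  ⟨1 + DualNumber.eps, 1 - DualNumber.eps, by
    have := DualNumber.eps_mul_eps (R := k); linear_combination -this, by
    have := DualNumber.eps_mul_eps (R := k); linear_combination -this⟩

lemma laurent_zero [Infinite k] (q : LaurentPolynomial k)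
    (h : ∀ t : kˣ, LaurentPolynomial.eval₂ (RingHom.id k) t q = 0) : q = 0 := by
  obtain ⟨m, q', hq⟩ := q.exists_T_pow
  have h1 : q' = 0 := by
    apply Polynomial.eq_zero_of_infinite_isRoot
    apply Set.Infinite.mono (s := {x : k | x ≠ 0})
    · intro x hx
      have := congrArg (LaurentPolynomial.eval₂ (RingHom.id k) (Units.mk0 x hx)) hq
      rw [LaurentPolynomial.eval₂_toLaurent, map_mul, h, zero_mul] at this
      exact this
    · exact (Set.finite_singleton (0 : k)).infinite_compl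
  rw [h1, map_zero] at hq
  exact (LaurentPolynomial.isUnit_T m).mul_left_eq_zero.mp hq.symm

lemma tangent [Infinite k] (S : Subgroup (Matrix.GeneralLinearGroup (Fin n) k))
    (γ : Matrix (Fin n) (Fin n) (LaurentPolynomial k)) (Y : Matrix (Fin n) (Fin n) k)
    (h1 : ∀ t : kˣ, ∃ g ∈ S, ∀ i j, (g : Matrix (Fin n) (Fin n) k) i j =
      LaurentPolynomial.eval₂ (RingHom.id k) t (γ i j))
    (h2 : ∀ i j, LaurentPolynomial.eval₂ (algebraMap k (DualNumber k)) eps1 (γ i j) =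
      TrivSqZeroExt.inl ((1 : Matrix (Fin n) (Fin n) k) i j) + TrivSqZeroExt.inr (Y i j))
    (f : MvPolynomial (Fin n × Fin n) k)
    (hf : ∀ g ∈ S, eval (fun ij : Fin n × Fin n => (g : Matrix (Fin n) (Fin n) k) ij.1 ij.2) f = 0) :
    dd Y f = 0 := by
  have e1 : eval₂Hom LaurentPolynomial.C (fun ij : Fin n × Fin n => γ ij.1 ij.2) f = 0 := by
    apply laurent_zero
    intro t
    obtain ⟨g, hg, hg'⟩ := h1 t
    rw [← hf g hg]
    have : (LaurentPolynomial.eval₂ (RingHom.id k) t).comp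
        (eval₂Hom LaurentPolynomial.C (fun ij : Fin n × Fin n => γ ij.1 ij.2)) =
        eval (fun ij : Fin n × Fin n => (g : Matrix (Fin n) (Fin n) k) ij.1 ij.2) := by
      apply MvPolynomial.ringHom_ext
      · intro a; simp
      · intro ij; simp [hg']
    exact DFunLike.congr_fun this f
  have e2 : (LaurentPolynomial.eval₂ (algebraMap k (DualNumber k)) eps1).comp
      (eval₂Hom LaurentPolynomial.C (fun ij : Fin n × Fin n => γ ij.1 ij.2)) =
      (dual Y : MvPolynomial (Fin n × Fin n) k →+* DualNumber k) := by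
    apply MvPolynomial.ringHom_ext
    · intro a; simp [dual]
    · intro ij; simp [dual, h2]
  have e3 := DFunLike.congr_fun e2 f
  rw [RingHom.comp_apply, e1, map_zero] at e3
  rw [← dual_snd]
  have e4 : dual Y f = 0 := e3.symm
  rw [e4]
  rfl

end Tangent

section Ex
variable {k : Type} [Field k]

def PP (M : Matrix (Fin 4) (Fin 4) k) : Prop :=
  M 2 0 = 0 ∧ M 2 1 = 0 ∧ M 3 0 = 0 ∧ M 3 1 = 0 ∧ M 0 0 * M 2 2 + M 1 0 * M 3 2 = 1 ∧
    M 0 0 * M 2 3 + M 1 0 * M 3 3 = 0 ∧ M 0 1 * M 2 2 + M 1 1 * M 3 2 = 0 ∧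
    M 0 1 * M 2 3 + M 1 1 * M 3 3 = 1

lemma PP_mul (M N : Matrix (Fin 4) (Fin 4) k) (hM : PP M) (hN : PP N) : PP (M * N) := by
  obtain ⟨a1, a2, a3, a4, a5, a6, a7, a8⟩ := hM
  obtain ⟨b1, b2, b3, b4, b5, b6, b7, b8⟩ := hN
  simp only [PP, Matrix.mul_apply, Fin.sum_univ_four, a1, a2, a3, a4, b1, b2, b3, b4]
  refine ⟨by ring, by ring, by ring, by ring, ?_, ?_, ?_, ?_⟩
  · linear_combination N 0 0 * N 2 2 * a5 + N 0 0 * N 3 2 * a6 + N 1 0 * N 2 2 * a7 +
      N 1 0 * N 3 2 * a8 + b5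
  · linear_combination N 0 0 * N 2 3 * a5 + N 0 0 * N 3 3 * a6 + N 1 0 * N 2 3 * a7 +
      N 1 0 * N 3 3 * a8 + b6
  · linear_combination N 0 1 * N 2 2 * a5 + N 0 1 * N 3 2 * a6 + N 1 1 * N 2 2 * a7 +
      N 1 1 * N 3 2 * a8 + b7
  · linear_combination N 0 1 * N 2 3 * a5 + N 0 1 * N 3 3 * a6 + N 1 1 * N 2 3 * a7 +
      N 1 1 * N 3 3 * a8 + b8

variable (k) in
/-- The group of block matrices with diagonal blocks g and the inverse transpose of g. -/
def S : Subgroup (Matrix.GeneralLinearGroup (Fin 4) k) where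
  carrier := {g | PP (g : Matrix (Fin 4) (Fin 4) k) ∧
    PP ((g⁻¹ : Matrix.GeneralLinearGroup (Fin 4) k) : Matrix (Fin 4) (Fin 4) k)}
  mul_mem' := by
    rintro g h ⟨g1, g2⟩ ⟨h1, h2⟩
    refine ⟨?_, ?_⟩
    · rw [Units.val_mul]; exact PP_mul _ _ g1 h1
    · rw [mul_inv_rev, Units.val_mul]; exact PP_mul _ _ h2 g2
  one_mem' := by
    refine ⟨?_, ?_⟩ <;> simp [PP]
  inv_mem' := by
    rintro g ⟨g1, g2⟩
    exact ⟨g2, by rwa [inv_inv]⟩

variable (k) in
def gg : Set (Matrix (Fin 4) (Fin 4) k) :=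
  {Y | ∀ f : MvPolynomial (Fin 4 × Fin 4) k,
    (∀ g ∈ S k, eval (fun ij : Fin 4 × Fin 4 => (g : Matrix (Fin 4) (Fin 4) k) ij.1 ij.2) f = 0) →
    dd Y f = 0}

lemma gg_form (Y : Matrix (Fin 4) (Fin 4) k) (hY : Y ∈ gg k) :
    Y = !![Y 0 0, Y 0 1, Y 0 2, Y 0 3; Y 1 0, Y 1 1, Y 1 2, Y 1 3;
      0, 0, -Y 0 0, -Y 1 0; 0, 0, -Y 0 1, -Y 1 1] := by
  have e1 := hY (X (2, 0)) (fun g hg => by simpa using hg.1.1)
  have e2 := hY (X (2, 1)) (fun g hg => by simpa using hg.1.2.1)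
  have e3 := hY (X (3, 0)) (fun g hg => by simpa using hg.1.2.2.1)
  have e4 := hY (X (3, 1)) (fun g hg => by simpa using hg.1.2.2.2.1)
  have e5 := hY (X (0, 0) * X (2, 2) + X (1, 0) * X (3, 2) - 1)
    (fun g hg => by simpa [sub_eq_zero] using hg.1.2.2.2.2.1)
  have e6 := hY (X (0, 0) * X (2, 3) + X (1, 0) * X (3, 3))
    (fun g hg => by simpa using hg.1.2.2.2.2.2.1)
  have e7 := hY (X (0, 1) * X (2, 2) + X (1, 1) * X (3, 2))
    (fun g hg => by simpa using hg.1.2.2.2.2.2.2.1)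
  have e8 := hY (X (0, 1) * X (2, 3) + X (1, 1) * X (3, 3) - 1)
    (fun g hg => by simpa [sub_eq_zero] using hg.1.2.2.2.2.2.2.2)
  rw [← dual_snd] at e1 e2 e3 e4 e5 e6 e7 e8
  simp [dual] at e1 e2 e3 e4 e5 e6 e7 e8
  ext i j
  fin_cases i <;> fin_cases j <;> simp [e1, e2, e3, e4]
  · linear_combination e5
  · linear_combination e6
  · linear_combination e7
  · linear_combination e8

def x1 : Matrix (Fin 4) (Fin 4) k := !![1, 0, 0, 0; 0, 0, 0, 0; 0, 0, -1, 0; 0, 0, 0, 0]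
def x2 : Matrix (Fin 4) (Fin 4) k := !![0, 1, 0, 0; 0, 0, 0, 0; 0, 0, 0, 0; 0, 0, -1, 0]
def x3 : Matrix (Fin 4) (Fin 4) k := !![0, 0, 0, 0; 1, 0, 0, 0; 0, 0, 0, -1; 0, 0, 0, 0]
def x4 : Matrix (Fin 4) (Fin 4) k := !![0, 0, 0, 1; 0, 0, 0, 0; 0, 0, 0, 0; 0, 0, 0, 0]

lemma nil_mem [Infinite k] (Y : Matrix (Fin 4) (Fin 4) k) (hY : Y * Y = 0)
    (h : ∀ s : k, PP (1 + s • Y)) : Y ∈ gg k := by
  intro f hf
  apply tangent (S k) (fun i j => LaurentPolynomial.C ((1 : Matrix (Fin 4) (Fin 4) k) i j) +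
    (LaurentPolynomial.T 1 - 1) * LaurentPolynomial.C (Y i j)) Y _ _ f hf
  · intro t
    have e : ∀ s : k, (1 + s • Y) * (1 + (-s) • Y) = 1 := by
      intro s
      simp [mul_add, add_mul, hY]
    refine ⟨⟨1 + ((t : k) - 1) • Y, 1 + (-((t : k) - 1)) • Y, e _, ?_⟩, ⟨h _, h _⟩, ?_⟩
    · have := e (-((t : k) - 1))
      rwa [neg_neg] at this
    · intro i j
      simp [LaurentPolynomial.eval₂_T]
  · intro i j
    simp only [map_add, map_mul, map_sub, map_one, LaurentPolynomial.eval₂_C,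
      LaurentPolynomial.eval₂_T, zpow_one, eps1]
    ext <;> simp [TrivSqZeroExt.algebraMap_eq_inl]

lemma x1_mem [Infinite k] : (x1 : Matrix (Fin 4) (Fin 4) k) ∈ gg k := by
  intro f hf
  apply tangent (S k) !![LaurentPolynomial.T 1, 0, 0, 0; 0, 1, 0, 0;
    0, 0, LaurentPolynomial.T (-1), 0; 0, 0, 0, 1] x1 _ _ f hf
  · intro t
    refine ⟨⟨!![(t : k), 0, 0, 0; 0, 1, 0, 0; 0, 0, (t : k)⁻¹, 0; 0, 0, 0, 1],
      !![(t : k)⁻¹, 0, 0, 0; 0, 1, 0, 0; 0, 0, (t : k), 0; 0, 0, 0, 1], ?_, ?_⟩, ⟨?_, ?_⟩, ?_⟩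
    · ext i j
      fin_cases i <;> fin_cases j <;> simp [Matrix.mul_apply, Fin.sum_univ_four]
    · ext i j
      fin_cases i <;> fin_cases j <;> simp [Matrix.mul_apply, Fin.sum_univ_four]
    · simp [PP]
    · show PP !![(t : k)⁻¹, 0, 0, 0; 0, 1, 0, 0; 0, 0, (t : k), 0; 0, 0, 0, 1]
      simp [PP]
    · intro i j
      fin_cases i <;> fin_cases j <;> simp [LaurentPolynomial.eval₂_T]
  · intro i j
    fin_cases i <;> fin_cases j <;> ext <;> simp [LaurentPolynomial.eval₂_T, eps1, x1]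

lemma x2_mem [Infinite k] : (x2 : Matrix (Fin 4) (Fin 4) k) ∈ gg k := by
  apply nil_mem
  · ext i j
    fin_cases i <;> fin_cases j <;> simp [x2, Matrix.mul_apply, Fin.sum_univ_four]
  · intro s
    simp [PP, x2]

lemma x3_mem [Infinite k] : (x3 : Matrix (Fin 4) (Fin 4) k) ∈ gg k := by
  apply nil_mem
  · ext i j
    fin_cases i <;> fin_cases j <;> simp [x3, Matrix.mul_apply, Fin.sum_univ_four]
  · intro s
    simp [PP, x3]

lemma x4_mem [Infinite k] : (x4 : Matrix (Fin 4) (Fin 4) k) ∈ gg k := by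
  apply nil_mem
  · ext i j
    fin_cases i <;> fin_cases j <;> simp [x4, Matrix.mul_apply, Fin.sum_univ_four]
  · intro s
    simp [PP, x4]

def RR : Matrix (Fin 4) (Fin 4) k →ₗ[k] Matrix (Fin 2) (Fin 2) k where
  toFun Y := !![Y 1 1 + Y 0 2 + Y 1 3, Y 1 0 + Y 0 3 + Y 1 2; Y 0 1 + Y 1 0, Y 0 0 + Y 0 2 + Y 1 3]
  map_add' Y Z := by
    ext i j
    fin_cases i <;> fin_cases j <;> simp <;> ring
  map_smul' a Y := by
    ext i j
    fin_cases i <;> fin_cases j <;> simp <;> ring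

lemma RR_apply (Y : Matrix (Fin 4) (Fin 4) k) : RR Y =
  !![Y 1 1 + Y 0 2 + Y 1 3, Y 1 0 + Y 0 3 + Y 1 2; Y 0 1 + Y 1 0, Y 0 0 + Y 0 2 + Y 1 3] := rfl

def chi : Matrix (Fin 4) (Fin 4) k →ₗ[k] k where
  toFun Y := Y 1 0 + Y 0 2 + Y 1 3
  map_add' Y Z := by simp; ring
  map_smul' a Y := by simp; ring

lemma chi_apply (Y : Matrix (Fin 4) (Fin 4) k) : chi Y = Y 1 0 + Y 0 2 + Y 1 3 := rfl

variable [CharP k 2]

lemma RR_lie (Y Z : Matrix (Fin 4) (Fin 4) k) (hY : Y ∈ gg k) (hZ : Z ∈ gg k) :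
    RR (Y * Z - Z * Y) = RR Y * RR Z - RR Z * RR Y := by
  rw [gg_form Y hY, gg_form Z hZ]
  ext i j
  fin_cases i <;> fin_cases j <;> simp [RR_apply] <;> grind

lemma RR_sq (Y : Matrix (Fin 4) (Fin 4) k) (hY : Y ∈ gg k) :
    RR Y ^ 2 - RR (Y ^ 2) = (chi Y) ^ 2 • (1 : Matrix (Fin 2) (Fin 2) k) := by
  rw [gg_form Y hY]
  ext i j
  fin_cases i <;> fin_cases j <;> simp [RR_apply, chi_apply, pow_two] <;> grind

end Ex

end Pool.Agent.H48.Kac
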