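import Pool.Agent.H48.Kac

set_option autoImplicit false

namespace Pool.Agent.H48.Kac

variable (k : Type) [Field k]

lemma simple [Infinite k] (ρ : Matrix (Fin 4) (Fin 4) k →ₗ[k] Module.End k (Fin 2 → k))
    (hρ : ∀ Y, ρ Y = Matrix.toLinAlgEquiv' (RR Y)) (N : Submodule k (Fin 2 → k))
    (hN : ∀ X ∈ gg k, ∀ v ∈ N, ρ X v ∈ N) : N = ⊥ ∨ N = ⊤ := by
  by_cases hb : N = ⊥
  · exact Or.inl hb
  right
  obtain ⟨v, hv, hv0⟩ := Submodule.exists_mem_ne_zero_of_ne_bot hb
  have a2 : ∀ w : Fin 2 → k, ρ x2 w = ![0, w 0] := by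
    intro w
    rw [hρ]
    ext i
    fin_cases i <;> simp [RR_apply, x2, Matrix.mulVec, dotProduct, Fin.sum_univ_two]
  have a4 : ∀ w : Fin 2 → k, ρ x4 w = ![w 1, 0] := by
    intro w
    rw [hρ]
    ext i
    fin_cases i <;> simp [RR_apply, x4, Matrix.mulVec, dotProduct, Fin.sum_univ_two]
  have b1 : ∀ c : k, c ≠ 0 → (![0, c] : Fin 2 → k) ∈ N → N = ⊤ := by
    intro c hc h1
    have h2 := hN x4 x4_mem _ h1
    rw [a4] at h2
    rw [eq_top_iff]
    intro w _
    have : w = (w 1 * c⁻¹) • (![0, c] : Fin 2 → k) +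
        (w 0 * c⁻¹) • (![(![0, c] : Fin 2 → k) 1, 0] : Fin 2 → k) := by
      ext i
      fin_cases i <;> simp [hc]
    rw [this]
    exact N.add_mem (N.smul_mem _ h1) (N.smul_mem _ h2)
  by_cases h0 : v 0 = 0
  · have h1 : v 1 ≠ 0 := by
      intro h1
      apply hv0
      ext i
      fin_cases i <;> simp [h0, h1]
    apply b1 (v 1) h1
    have : v = ![0, v 1] := by
      ext i
      fin_cases i <;> simp [h0]
    rwa [← this]
  · apply b1 (v 0) h0
    rw [← a2]
    exact hN x2 x2_mem v hv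

def br (y : Matrix (Fin 4) (Fin 4) k) : Matrix (Fin 4) (Fin 4) k →ₗ[k] k :=
  chi ∘ₗ (LinearMap.mulRight k y - LinearMap.mulLeft k y)

lemma br_apply (y X : Matrix (Fin 4) (Fin 4) k) : br k y X = chi (X * y - y * X) := rfl

def Phi : Matrix (Fin 4) (Fin 4) k →ₗ[k] (Fin 4 → k) :=
  LinearMap.pi ![br k x1, br k x2, br k x3, br k x4]

lemma gap [Infinite k] : 4 ≤ Module.finrank k (Submodule.span k (gg k)) - Module.finrank k (Submodule.span k
    {X : Matrix (Fin 4) (Fin 4) k | X ∈ gg k ∧ ∀ Y ∈ gg k, chi (X * Y - Y * X) = 0}) := by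
  set A := Submodule.span k (gg k) with hA
  set B := Submodule.span k
    {X : Matrix (Fin 4) (Fin 4) k | X ∈ gg k ∧ ∀ Y ∈ gg k, chi (X * Y - Y * X) = 0} with hB
  have hBA : B ≤ A := Submodule.span_mono fun X hX => hX.1
  have hker : B ≤ LinearMap.ker (Phi k) := by
    rw [hB, Submodule.span_le]
    intro X hX
    rw [SetLike.mem_coe, LinearMap.mem_ker]
    ext i
    fin_cases i
    · exact hX.2 _ x1_mem
    · exact hX.2 _ x2_mem
    · exact hX.2 _ x3_mem
    · exact hX.2 _ x4_mem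
  have h1 := LinearMap.finrank_range_add_finrank_ker ((Phi k).domRestrict A)
  have h2 : LinearMap.range ((Phi k).domRestrict A) = ⊤ := by
    rw [eq_top_iff]
    intro w _
    have m1 : (x1 : Matrix (Fin 4) (Fin 4) k) ∈ A := Submodule.subset_span x1_mem
    have m2 : (x2 : Matrix (Fin 4) (Fin 4) k) ∈ A := Submodule.subset_span x2_mem
    have m3 : (x3 : Matrix (Fin 4) (Fin 4) k) ∈ A := Submodule.subset_span x3_mem
    have m4 : (x4 : Matrix (Fin 4) (Fin 4) k) ∈ A := Submodule.subset_span x4_mem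
    refine ⟨⟨(w 1 - w 2) • x1 + (w 3 - w 0) • x2 + w 0 • x3 + (-w 1) • x4,
      A.add_mem (A.add_mem (A.add_mem (A.smul_mem _ m1) (A.smul_mem _ m2)) (A.smul_mem _ m3))
        (A.smul_mem _ m4)⟩, ?_⟩
    ext i
    fin_cases i <;> simp [Phi, br_apply, chi_apply, x1, x2, x3, x4]
  have h3 : Module.finrank k B ≤ Module.finrank k (LinearMap.ker ((Phi k).domRestrict A)) := by
    rw [LinearMap.ker_domRestrict, ← Submodule.finrank_map_subtype_eq]
    apply Submodule.finrank_mono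
    intro X hX
    exact ⟨⟨X, hBA hX⟩, hker hX, rfl⟩
  rw [h2, finrank_top, Module.finrank_fin_fun] at h1
  omega

end Pool.Agent.H48.Kac
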