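import Mathlib

set_option autoImplicit false

namespace Pool.Agent.H48.LocNil

open Polynomial

def S : ℕ → Type
  | 0 => Unit
  | k + 1 => S k × Fin (k + 1)

instance fint : (k : ℕ) → Fintype (S k)
  | 0 => (inferInstance : Fintype Unit)
  | k + 1 => letI := fint k; (inferInstance : Fintype (S k × Fin (k + 1)))

instance deceq : (k : ℕ) → DecidableEq (S k)
  | 0 => (inferInstance : DecidableEq Unit)
  | k + 1 => letI := deceq k; (inferInstance : DecidableEq (S k × Fin (k + 1)))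

theorem nonemp : (k : ℕ) → Nonempty (S k)
  | 0 => ⟨()⟩
  | k + 1 => (nonemp k).elim fun p => ⟨(p, 0)⟩

variable (F : Type) [Field F]

abbrev G (k : ℕ) : Type := Matrix (S k) (S k) F[X]

noncomputable def T (k : ℕ) : Matrix (Fin (k + 1)) (Fin (k + 1)) F[X] :=
  Matrix.of fun a b => if b.val = a.val + 1 then X else 0

theorem T_apply (k : ℕ) (a b : Fin (k + 1)) :
    T F k a b = if b.val = a.val + 1 then X else 0 := rfl

theorem T_pow (k j : ℕ) (a b : Fin (k + 1)) :
    (T F k ^ j) a b = if b.val = a.val + j then X ^ j else 0 := by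
  induction j generalizing b with
  | zero => simp [Matrix.one_apply, Fin.ext_iff, eq_comm]
  | succ j ih =>
    rw [pow_succ, Matrix.mul_apply]
    simp only [ih, T_apply]
    split_ifs with h
    · rw [Finset.sum_eq_single (⟨a.val + j, by omega⟩ : Fin (k + 1))]
      · simp [h, pow_succ, add_assoc]
      · intro c _ hc
        rw [if_neg (fun h' => hc (Fin.ext h')), zero_mul]
      · simp
    · apply Finset.sum_eq_zero
      intro c _
      by_cases h1 : c.val = a.val + j
      · rw [if_neg (by omega : ¬ b.val = c.val + 1), mul_zero]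
      · rw [if_neg h1, zero_mul]

noncomputable def step (k : ℕ) : G F k →ₐ[F] G F (k + 1) :=
  ((Matrix.compAlgEquiv (S k) (Fin (k + 1)) F[X] F).toAlgHom.comp
    (AlgHom.mapMatrix (aeval (T F k))) :
      G F k →ₐ[F] Matrix (S k × Fin (k + 1)) (S k × Fin (k + 1)) F[X])

theorem step_apply (k : ℕ) (M : G F k) (p q : S (k + 1)) :
    step F k M p q = aeval (T F k) (M p.1 q.1) p.2 q.2 := rfl

noncomputable def f (i j : ℕ) (h : i ≤ j) : G F i →ₐ[F] G F j :=
  Nat.leRec (AlgHom.id F _) (fun k _ g => (step F k).comp g) h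

theorem f_self (i : ℕ) : f F i i le_rfl = AlgHom.id F _ := Nat.leRec_self _ _

theorem f_succ (i j : ℕ) (h : i ≤ j) :
    f F i (j + 1) (h.trans (Nat.le_succ j)) = (step F j).comp (f F i j h) :=
  Nat.leRec_succ _ _ h

instance : DirectedSystem (G F) (fun i j h => f F i j h) where
  map_self i x := by simp only [f_self]; rfl
  map_map k j i hij hjk x := by
    induction k, hjk using Nat.le_induction with
    | base => simp only [f_self]; rfl
    | succ k hk ih =>
      simp only [f_succ F j k hk, f_succ F i k (hij.trans hk), AlgHom.comp_apply]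
      exact congrArg _ ih

def A : Type := DirectLimit (G F) (f F)

noncomputable instance : Ring (A F) := inferInstanceAs (Ring (DirectLimit (G F) (f F)))
noncomputable instance : Algebra F (A F) := inferInstanceAs (Algebra F (DirectLimit (G F) (f F)))

noncomputable def φ (k : ℕ) : G F k →ₐ[F] A F := DirectLimit.Algebra.of (G F) (f F) k

variable {F}

theorem φ_f {i j : ℕ} (h : i ≤ j) (M : G F i) : φ F j (f F i j h M) = φ F i M :=
  DirectLimit.mk_apply (f := f F) i j M h

theorem φ_step (k : ℕ) (M : G F k) : φ F (k + 1) (step F k M) = φ F k M := by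
  have := φ_f (Nat.le_succ k) M
  rwa [f_succ F k k le_rfl, f_self] at this

theorem φ_surj (a : A F) : ∃ k M, φ F k M = a := by
  obtain ⟨i, x, h⟩ := DirectLimit.exists_eq_mk (f F) a
  exact ⟨i, x, h.symm⟩

theorem φ_surj₂ (a b : A F) : ∃ k M N, φ F k M = a ∧ φ F k N = b := by
  obtain ⟨i, x, y, h1, h2⟩ := DirectLimit.exists_eq_mk₂ (f F) a b
  exact ⟨i, x, y, h1.symm, h2.symm⟩

theorem φ_eq_zero {k : ℕ} {M : G F k} (h : φ F k M = 0) : ∃ l, ∃ h : k ≤ l, f F k l h M = 0 := by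
  rw [← map_zero (φ F k)] at h
  obtain ⟨l, h1, h2, e⟩ := Quotient.exact h
  exact ⟨l, h1, e.trans (map_zero _)⟩

/-- scalar matrices -/
noncomputable def sc (k : ℕ) : F[X] →+* G F k := Matrix.scalar (S k)

theorem sc_apply (k : ℕ) (c : F[X]) (p q : S k) : sc k c p q = if p = q then c else 0 := by
  simp [sc, Matrix.diagonal_apply]

theorem sc_comm (k : ℕ) (c : F[X]) (M : G F k) : M * sc k c = sc k c * M :=
  (Matrix.scalar_commute c (fun _ => Commute.all _ _) M).symm

theorem sc_mul (k : ℕ) (c : F[X]) (M : G F k) : sc k c * M = c • M := by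
  ext1 p q
  simp [sc]

theorem xpow_ne {k j : ℕ} (hj : j ≤ k) : φ F k (sc k (X ^ j)) ≠ 0 := by
  intro h
  obtain ⟨l, hl, e⟩ := φ_eq_zero h
  have key : ∀ l (hl : k ≤ l), ∃ p q, f F k l hl (sc k (X ^ j)) p q = X ^ j := by
    intro l hl
    induction l, hl using Nat.le_induction with
    | base =>
      obtain ⟨p⟩ := nonemp k
      exact ⟨p, p, by rw [f_self, AlgHom.id_apply, sc_apply, if_pos rfl]⟩
    | succ l hl ih =>
      obtain ⟨p, q, e⟩ := ih
      refine ⟨(p, 0), (q, ⟨j, by omega⟩), ?_⟩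
      rw [f_succ F k l hl, AlgHom.comp_apply, step_apply, e]
      simp [T_pow]
  obtain ⟨p, q, e'⟩ := key l hl
  rw [e] at e'
  exact pow_ne_zero j X_ne_zero e'.symm

theorem step_sc (k j : ℕ) (p q : S (k + 1)) : step F k (sc k (X ^ j)) p q =
    if p.1 = q.1 ∧ q.2.val = p.2.val + j then X ^ j else 0 := by
  rw [step_apply, sc_apply]
  by_cases h : p.1 = q.1 <;> simp [h, T_pow]

theorem xpow_zero {k j : ℕ} (hj : k < j) : φ F k (sc k (X ^ j)) = 0 := by
  rw [← φ_step, ← map_zero (φ F (k + 1))]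
  congr 1
  ext1 p q
  rw [step_sc, if_neg]
  · rfl
  · have := q.2.2
    omega

/-- Jordan ideals -/
def JI (U : Submodule F (A F)) : Prop := ∀ a ∈ U, ∀ y, a * y + y * a ∈ U

section J

variable (h2 : (2 : F) ≠ 0) {U : Submodule F (A F)} (hU : JI U)
include h2 hU

omit hU in
theorem half {a : A F} (h : a + a ∈ U) : a ∈ U := by
  have := U.smul_mem (2 : F)⁻¹ h
  rwa [← two_smul F a, smul_smul, inv_mul_cancel₀ h2, one_smul] at this

theorem sand {a : A F} (ha : a ∈ U) (x y : A F) : x * a * y + y * a * x ∈ U := by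
  have h1 := hU _ (hU a ha x) y
  have h2' := hU _ (hU a ha y) x
  have h3 := hU a ha (x * y + y * x)
  apply half h2
  convert U.sub_mem (U.add_mem h1 h2') h3 using 1
  noncomm_ring

theorem sand1 {a : A F} (ha : a ∈ U) (x : A F) : x * a * x ∈ U := half h2 (sand h2 hU ha x x)

theorem E2 {k : ℕ} {c : F[X]} (h : φ F k (sc k c) ∈ U) (Y : G F k) : φ F k (sc k c * Y) ∈ U := by
  apply half h2
  have := hU _ h (φ F k Y)
  rwa [← map_mul, ← map_mul, sc_comm] at this

theorem E1 {k : ℕ} {M : G F k} (h : φ F k M ∈ U) (p q : S k) : φ F k (sc k (M p q)) ∈ U := by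
  have e : sc k (M p q) = ∑ r, Matrix.single r r (M p q) := by
    simp [sc, Matrix.sum_single_eq_diagonal]
  rw [e, map_sum]
  apply U.sum_mem
  intro r _
  by_cases hpq : p = q
  · subst hpq
    have h1 := sand1 h2 hU h (φ F k (Matrix.single p p 1))
    rw [← map_mul, ← map_mul, Matrix.single_mul_mul_single] at h1
    by_cases hr : r = p
    · subst hr; simpa using h1
    have h3 := sand1 h2 hU h1 (φ F k (Matrix.single r p 1 + Matrix.single p r 1))
    rw [← map_mul, ← map_mul] at h3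
    convert h3 using 2
    simp [add_mul, mul_add, Matrix.single_mul_single_same, Matrix.single_mul_single_of_ne, hr,
      Ne.symm hr]
  · have h1 := sand h2 hU h (φ F k (Matrix.single r p 1)) (φ F k (Matrix.single q r 1))
    rw [← map_mul, ← map_mul, ← map_mul, ← map_mul, ← map_add, Matrix.single_mul_mul_single,
      Matrix.single_mul_mul_single] at h1
    have h3 := sand1 h2 hU h1 (φ F k (Matrix.single r r 1))
    rw [← map_mul, ← map_mul, Matrix.single_mul_mul_single] at h3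
    have : ¬ (q = r ∧ p = r) := fun h => hpq (h.2.trans h.1.symm)
    simpa [Matrix.single_apply, this] using h3

theorem E3 {k : ℕ} {M : G F k} (h : ∀ p q, φ F k (sc k (M p q)) ∈ U) : φ F k M ∈ U := by
  rw [Matrix.matrix_eq_sum_single M]
  simp only [map_sum]
  refine U.sum_mem fun p _ => U.sum_mem fun q _ => ?_
  have := E2 h2 hU (h p q) (Matrix.single p q 1)
  rwa [sc_mul, Matrix.smul_single, smul_eq_mul, mul_one] at this

theorem up {k j : ℕ} (hj : j ≤ k) (h : φ F k (sc k (X ^ j)) ∈ U) :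
    φ F (k + 1) (sc (k + 1) (X ^ j)) ∈ U := by
  obtain ⟨p⟩ := nonemp k
  rw [← φ_step] at h
  have := E1 h2 hU h (p, 0) (p, ⟨j, by omega⟩)
  rwa [step_sc, if_pos (by simp)] at this

theorem down {k j : ℕ} (h : φ F (k + 1) (sc (k + 1) (X ^ j)) ∈ U) :
    φ F k (sc k (X ^ j)) ∈ U := by
  rw [← φ_step]
  apply E3 h2 hU
  intro p q
  rw [step_sc]
  split_ifs
  · exact h
  · simp

end J

def Q (U : Submodule F (A F)) (j : ℕ) : Prop := ∃ k, j ≤ k ∧ φ F k (sc k (X ^ j)) ∈ U

section J2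

variable (h2 : (2 : F) ≠ 0) {U : Submodule F (A F)} (hU : JI U)
include h2 hU

theorem Q_all {j : ℕ} (h : Q U j) (k : ℕ) : φ F k (sc k (X ^ j)) ∈ U := by
  obtain ⟨l, hl, h⟩ := h
  rcases le_total l k with hk | hk
  · induction k, hk using Nat.le_induction with
    | base => exact h
    | succ k hk ih => exact up h2 hU (hl.trans hk) ih
  · clear hl
    induction l, hk using Nat.le_induction with
    | base => exact h
    | succ l _ ih => exact ih (down h2 hU h)

theorem Q_mono {i j : ℕ} (hij : i ≤ j) (h : Q U i) : Q U j := by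
  refine ⟨j, le_rfl, ?_⟩
  have := E2 h2 hU (Q_all h2 hU h j) (sc j (X ^ (j - i)))
  rwa [← map_mul, ← pow_add, Nat.add_sub_cancel' hij] at this

theorem le_of_Q {U' : Submodule F (A F)} (hU' : JI U') (h : ∀ j, Q U' j → Q U j) : U' ≤ U := by
  intro a ha
  obtain ⟨k, M, rfl⟩ := φ_surj a
  apply E3 h2 hU
  intro p q
  have hc := E1 h2 hU' ha p q
  generalize M p q = c at hc
  by_cases hc0 : c = 0
  · simp [hc0]
  obtain ⟨i, u, hu, rfl⟩ := WfDvdMonoid.max_power_factor hc0 (irreducible_X (R := F))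
  rw [map_mul]
  by_cases hi : k < i
  · rw [map_mul, xpow_zero hi, zero_mul]; exact U.zero_mem
  apply E2 h2 hU
  apply Q_all h2 hU
  apply h
  refine ⟨k, by omega, ?_⟩
  obtain ⟨s, t, e⟩ : IsCoprime (X ^ (k + 1)) u :=
    IsCoprime.pow_left (((irreducible_X (R := F)).coprime_iff_not_dvd).mpr hu)
  have e' : (X : F[X]) ^ i = X ^ (k + 1) * (s * X ^ i) + X ^ i * u * t := by
    linear_combination -X ^ i * e
  rw [e', map_add, map_add, map_mul, map_mul, xpow_zero (Nat.lt_succ_self k), zero_mul, zero_add,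
    map_mul]
  exact E2 h2 hU' hc _

end J2

theorem acc (h2 : (2 : F) ≠ 0) (I : ℕ → Submodule F (A F)) (hI : ∀ n, JI (I n))
    (hm : Monotone I) : ∃ n, ∀ m, n ≤ m → I m = I n := by
  classical
  by_cases h : ∃ j n, Q (I n) j
  · obtain ⟨n, hn⟩ := Nat.find_spec h
    refine ⟨n, fun m hnm => le_antisymm (le_of_Q h2 (hI n) (hI m) fun j hj => ?_) (hm hnm)⟩
    exact Q_mono h2 (hI n) (Nat.find_min' h ⟨m, hj⟩) hn
  · exact ⟨0, fun m hnm => le_antisymm
      (le_of_Q h2 (hI 0) (hI m) fun j hj => absurd ⟨j, m, hj⟩ h) (hm hnm)⟩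

def D {k : ℕ} (j : ℕ) (M : G F k) : Prop := ∀ p q, X ^ j ∣ M p q

theorem D_mul {k i j : ℕ} {M N : G F k} (hM : D i M) (hN : D j N) : D (i + j) (M * N) := by
  intro p q
  rw [Matrix.mul_apply, pow_add]
  exact Finset.dvd_sum fun r _ => mul_dvd_mul (hM p r) (hN r q)

theorem D_add {k i : ℕ} {M N : G F k} (hM : D i M) (hN : D i N) : D i (M + N) :=
  fun p q => dvd_add (hM p q) (hN p q)

theorem D_smul {k i : ℕ} {M : G F k} (c : F) (hM : D i M) : D i (c • M) :=
  fun p q => by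
    rw [Matrix.smul_apply, Algebra.smul_def]
    exact Dvd.dvd.mul_left (hM p q) _

theorem D_zero {k : ℕ} (M : G F k) : D 0 M := fun _ _ => by simp

theorem D_kill {k : ℕ} {M : G F k} (h : D (k + 1) M) : φ F k M = 0 := by
  choose N hN using h
  have : M = sc k (X ^ (k + 1)) * Matrix.of N := by
    rw [sc_mul]
    ext1 p q
    simp [hN]
  rw [this, map_mul, xpow_zero (Nat.lt_succ_self k), zero_mul]

theorem D_step {k : ℕ} {M : G F k} (h : D 1 M) : D 1 (step F k M) := by
  intro p q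
  obtain ⟨c, hc⟩ := h p.1 q.1
  rw [step_apply, hc, map_mul, Matrix.mul_apply]
  refine Finset.dvd_sum fun r _ => Dvd.dvd.mul_right ?_ _
  rw [map_pow, aeval_X, T_pow]
  split_ifs <;> simp

/-- level `k`, depth `j` -/
def P (k j : ℕ) : Submodule F (A F) where
  carrier := {a | ∃ M, φ F k M = a ∧ D j M}
  add_mem' := by
    rintro _ _ ⟨M, rfl, hM⟩ ⟨N, rfl, hN⟩
    exact ⟨M + N, map_add _ _ _, D_add hM hN⟩
  zero_mem' := ⟨0, map_zero _, fun _ _ => dvd_zero _⟩
  smul_mem' := by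
    rintro c _ ⟨M, rfl, hM⟩
    exact ⟨c • M, map_smul _ _ _, D_smul c hM⟩

theorem P_mul {k i j : ℕ} {a b : A F} (ha : a ∈ P k i) (hb : b ∈ P k j) : a * b ∈ P k (i + j) := by
  obtain ⟨M, rfl, hM⟩ := ha
  obtain ⟨N, rfl, hN⟩ := hb
  exact ⟨M * N, map_mul _ _ _, D_mul hM hN⟩

theorem P_kill {k : ℕ} {a : A F} (ha : a ∈ P k (k + 1)) : a = 0 := by
  obtain ⟨M, rfl, hM⟩ := ha
  exact D_kill hM

theorem P_anti {k i j : ℕ} (h : i ≤ j) {a : A F} (ha : a ∈ P k j) : a ∈ P k i := by
  obtain ⟨M, rfl, hM⟩ := ha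
  exact ⟨M, rfl, fun p q => (pow_dvd_pow _ h).trans (hM p q)⟩

theorem P1_mono : Monotone (fun k => (P k 1 : Submodule F (A F))) := by
  apply monotone_nat_of_le_succ
  rintro k _ ⟨M, rfl, hM⟩
  exact ⟨_, φ_step k M, D_step hM⟩

theorem P0_mono : Monotone (fun k => (P k 0 : Submodule F (A F))) := by
  apply monotone_nat_of_le_succ
  rintro k _ ⟨M, rfl, -⟩
  exact ⟨_, φ_step k M, D_zero _⟩

variable (F) in
noncomputable def L : Submodule F (A F) := ⨆ k, P k 1

theorem mem_L {a : A F} : a ∈ L F ↔ ∃ k, a ∈ P k 1 :=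
  Submodule.mem_iSup_of_directed _ P1_mono.directed_le

theorem L_mul {a : A F} (ha : a ∈ L F) (y : A F) : a * y ∈ L F ∧ y * a ∈ L F := by
  obtain ⟨k, hk⟩ := mem_L.mp ha
  obtain ⟨l, M, rfl⟩ := φ_surj y
  have h1 : a ∈ P (max k l) 1 := P1_mono (le_max_left k l) hk
  have h0' : φ F l M ∈ P l 0 := ⟨M, rfl, D_zero _⟩
  have h0 : φ F l M ∈ P (max k l) 0 := P0_mono (le_max_right k l) h0'
  have e1 := P_mul h1 h0
  have e2 := P_mul h0 h1
  rw [Nat.add_zero] at e1
  rw [Nat.zero_add] at e2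
  exact ⟨mem_L.mpr ⟨max k l, e1⟩, mem_L.mpr ⟨max k l, e2⟩⟩

theorem L_fin (s : Finset (A F)) (h : ∀ a ∈ s, a ∈ L F) : ∃ k, ∀ a ∈ s, a ∈ P k 1 := by
  choose! g hg using fun a ha => mem_L.mp (h a ha)
  exact ⟨s.sup g, fun a ha => P1_mono (Finset.le_sup ha) (hg a ha)⟩

theorem xpow_mem_L {k j : ℕ} (hj : 1 ≤ j) : φ F k (sc k (X ^ j)) ∈ L F := by
  refine mem_L.mpr ⟨k, _, rfl, fun p q => ?_⟩
  rw [sc_apply]
  split_ifs
  · exact pow_dvd_pow _ hj
  · simp

theorem le_L (h2 : (2 : F) ≠ 0) {U : Submodule F (A F)} (hU : JI U) (h1 : (1 : A F) ∉ U) :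
    U ≤ L F := by
  refine le_of_Q h2 (fun a ha y => (L F).add_mem (L_mul ha y).1 (L_mul ha y).2) hU fun j hj => ?_
  rcases Nat.eq_zero_or_pos j with rfl | hj0
  · obtain ⟨k, -, hk⟩ := hj
    simp only [pow_zero, map_one] at hk
    exact absurd hk h1
  · exact ⟨j, le_rfl, xpow_mem_L hj0⟩

theorem one_ne : (1 : A F) ≠ 0 := by
  simpa using xpow_ne (F := F) (le_refl 0)

end Pool.Agent.H48.LocNil
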