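import Mathlib

set_option autoImplicit false

namespace Pool.Agent.H48.McL

theorem exF : ∃ (K : Type) (_ : Field K), CharP K 2 ∧ ∀ x : K, x ≠ 0 → x = 1 :=
  ⟨ZMod 2, inferInstance, inferInstance, by decide⟩

/-- The field with two elements. -/
def F : Type := exF.choose

noncomputable instance : Field F := exF.choose_spec.choose

instance : CharP F 2 := exF.choose_spec.choose_spec.1

theorem F_eq_one : ∀ x : F, x ≠ 0 → x = 1 := exF.choose_spec.choose_spec.2

/-- Finitely supported vectors. -/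
def V : Type := ℚ →₀ F

noncomputable instance : AddCommGroup V := (inferInstance : AddCommGroup (ℚ →₀ F))

noncomputable instance : Module F V := (inferInstance : Module F (ℚ →₀ F))

/-- Basis vectors. -/
noncomputable def sg (i : ℚ) : V := Finsupp.single i (1 : F)

/-- Coordinates. -/
noncomputable def co (i : ℚ) : V →ₗ[F] F := Finsupp.lapply i

theorem co_sg (i j : ℚ) : co i (sg j) = if j = i then 1 else 0 := by
  change (Finsupp.single j (1 : F)) i = _
  rw [Finsupp.single_apply]

theorem ext_co {v w : V} (h : ∀ i, co i v = co i w) : v = w := Finsupp.ext h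

theorem expand (v : V) : ∃ S : Finset ℚ, v = ∑ l ∈ S, co l v • sg l := by
  refine ⟨Finsupp.support v, ext_co fun i => ?_⟩
  rw [map_sum]
  simp only [map_smul, co_sg, smul_eq_mul, mul_ite, mul_one, mul_zero, Finset.sum_ite_eq']
  split_ifs with h
  · rfl
  · exact Finsupp.notMem_support_iff.mp h

theorem ext_sg {W : Type} [AddCommGroup W] [Module F W] {f g : V →ₗ[F] W}
    (h : ∀ j, f (sg j) = g (sg j)) : f = g := by
  apply LinearMap.ext
  intro v
  obtain ⟨S, hS⟩ := expand v
  rw [hS, map_sum, map_sum]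
  simp only [map_smul, h]

instance : Nontrivial V := ⟨sg 0, 0, fun h => by simpa [co_sg] using congrArg (co 0) h⟩

abbrev R := Module.End F V

/-- Matrix entries of an endomorphism. -/
noncomputable def ent (y : R) (i j : ℚ) : F := co i (y (sg j))

/-- Matrix units. -/
noncomputable def E (i j : ℚ) : R := (co j).smulRight (sg i)

theorem E_apply (i j : ℚ) (v : V) : E i j v = co j v • sg i := rfl

theorem ext_ent {y z : R} (h : ∀ i j, ent y i j = ent z i j) : y = z :=
  ext_sg fun j => ext_co fun i => h i j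

theorem ent_E {a b i j : ℚ} (h : ent (E a b) i j ≠ 0) : i = a ∧ j = b := by
  rw [ent, E_apply, map_smul, co_sg, co_sg] at h
  by_contra hc
  apply h
  by_cases h1 : a = i
  · have : j ≠ b := fun h2 => hc ⟨h1.symm, h2⟩
    simp [this]
  · simp [h1]

theorem ent_one {i j : ℚ} (h : ent 1 i j ≠ 0) : i = j := by
  by_contra hc
  apply h
  simp [ent, co_sg, Ne.symm hc]

theorem ent_mul {y z : R} {i j : ℚ} (h : ent (y * z) i j ≠ 0) :
    ∃ l, ent y i l ≠ 0 ∧ ent z l j ≠ 0 := by
  by_contra hc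
  push Not at hc
  apply h
  obtain ⟨S, hS⟩ := expand (z (sg j))
  rw [ent, Module.End.mul_apply, hS, map_sum, map_sum]
  apply Finset.sum_eq_zero
  intro l _
  rw [map_smul, map_smul, smul_eq_mul]
  by_cases h1 : ent y i l = 0
  · rw [show co i (y (sg l)) = 0 from h1, mul_zero]
  · rw [show co l (z (sg j)) = 0 from hc l h1, zero_mul]

/-- The nonzero entries of `y` satisfy `r`. -/
def Sup (r : ℚ → ℚ → Prop) (y : R) : Prop := ∀ i j, ent y i j ≠ 0 → r i j

theorem Sup.mono {r s : ℚ → ℚ → Prop} {y : R} (h : Sup r y) (hrs : ∀ i j, r i j → s i j) :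
    Sup s y := fun i j hij => hrs i j (h i j hij)

theorem Sup.zero (r : ℚ → ℚ → Prop) : Sup r 0 := fun i j h => absurd (by simp [ent]) h

theorem Sup.add {r : ℚ → ℚ → Prop} {y z : R} (h : Sup r y) (h' : Sup r z) : Sup r (y + z) := by
  intro i j hij
  by_cases h1 : ent y i j = 0
  · apply h' i j
    intro h2
    apply hij
    have : ent (y + z) i j = ent y i j + ent z i j := by simp [ent]
    rw [this, h1, h2, add_zero]
  · exact h i j h1

theorem Sup.neg {r : ℚ → ℚ → Prop} {y : R} (h : Sup r y) : Sup r (-y) := by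
  intro i j hij
  apply h i j
  intro h2
  apply hij
  have : ent (-y) i j = -ent y i j := by simp [ent]
  rw [this, h2, neg_zero]

theorem Sup.sub {r : ℚ → ℚ → Prop} {y z : R} (h : Sup r y) (h' : Sup r z) : Sup r (y - z) := by
  rw [sub_eq_add_neg]; exact h.add h'.neg

theorem Sup.mul {r s t : ℚ → ℚ → Prop} {y z : R} (h : Sup r y) (h' : Sup s z)
    (ht : ∀ i l j, r i l → s l j → t i j) : Sup t (y * z) := by
  intro i j hij
  obtain ⟨l, h1, h2⟩ := ent_mul hij
  exact ht i l j (h i l h1) (h' l j h2)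

theorem Sup.eq_zero {r : ℚ → ℚ → Prop} {y : R} (h : Sup r y) (hr : ∀ i j, ¬ r i j) : y = 0 := by
  apply ext_ent
  intro i j
  by_contra hc
  exact hr i j (h i j (by simpa [ent] using hc))

theorem Sup.E (a b : ℚ) : Sup (fun i j => i = a ∧ j = b) (E a b) := fun _ _ h => ent_E h

theorem E_mul_E (a i : ℚ) (y : R) (j b : ℚ) : E a i * y * E j b = ent y i j • E a b := by
  apply LinearMap.ext
  intro v
  simp only [Module.End.mul_apply, E_apply, LinearMap.smul_apply, map_smul, smul_smul, ent]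
  rw [mul_comm]

theorem E_mul_ne {a i j b : ℚ} (h : i ≠ j) : E a i * E j b = 0 :=
  ((Sup.E a i).mul (t := fun _ _ => False) (Sup.E j b)
    (fun _ _ _ h1 h2 => h (h1.2.symm.trans h2.1))).eq_zero (fun _ _ h => h)

theorem E_mul_eq (a i b : ℚ) : E a i * E i b = E a b := by
  have := E_mul_E a i 1 i b
  simpa [ent, co_sg] using this

theorem E_ne (a b : ℚ) : E a b ≠ 0 := by
  intro h
  have := congrArg (fun y => ent y a b) h
  simp [ent, E_apply, co_sg] at this

instance : CharP R 2 := charP_of_injective_algebraMap (algebraMap F R).injective 2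

theorem add_self (y : R) : y + y = 0 := CharTwo.add_self_eq_zero y

/-- Elementary transvections. -/
noncomputable def T (i j : ℚ) (h : i < j) : Rˣ where
  val := 1 + E i j
  inv := 1 + E i j
  val_inv := by
    rw [add_mul, mul_add, mul_add, E_mul_ne h.ne', one_mul, one_mul, mul_one, add_zero,
      add_assoc, add_self, add_zero]
  inv_val := by
    rw [add_mul, mul_add, mul_add, E_mul_ne h.ne', one_mul, one_mul, mul_one, add_zero,
      add_assoc, add_self, add_zero]

/-- The McLain group over `ℚ` and `F₂`. -/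
noncomputable def MM : Subgroup Rˣ := Subgroup.closure {g | ∃ i j h, g = T i j h}

abbrev M := ↥MM

noncomputable def t (i j : ℚ) (h : i < j) : M := ⟨T i j h, Subgroup.subset_closure ⟨i, j, h, rfl⟩⟩

/-- The underlying endomorphism. -/
noncomputable def val : M →* R := (Units.coeHom R).comp MM.subtype

theorem val_inj : Function.Injective val := fun _ _ h => Subtype.ext (Units.ext h)

theorem val_t (i j : ℚ) (h : i < j) : val (t i j h) = 1 + E i j := rfl

theorem t_inv (i j : ℚ) (h : i < j) : (t i j h)⁻¹ = t i j h := rfl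

theorem val_mul_inv (g : M) : val g * val g⁻¹ = 1 := by rw [← map_mul]; simp

theorem val_inv_mul (g : M) : val g⁻¹ * val g = 1 := by rw [← map_mul]; simp

theorem ind {p : M → Prop} (h1 : p 1) (hm : ∀ i j h g, p g → p (t i j h * g)) (g : M) : p g := by
  obtain ⟨g, hg⟩ := g
  induction hg using Subgroup.closure_induction_left with
  | one => exact h1
  | mul_left x hx y hy ih =>
    obtain ⟨i, j, h, rfl⟩ := hx
    exact hm i j h ⟨y, hy⟩ ih
  | inv_mul_cancel x hx y hy ih =>
    obtain ⟨i, j, h, rfl⟩ := hx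
    exact hm i j h ⟨y, hy⟩ ih

theorem eq_top {N : Subgroup M} (h : ∀ i j hij, t i j hij ∈ N) : N = ⊤ := by
  rw [eq_top_iff]
  intro g _
  induction g using ind with
  | h1 => exact N.one_mem
  | hm i j hij g ih => exact N.mul_mem (h i j hij) (ih trivial)

theorem supp (g : M) : ∃ S : Finset ℚ, Sup (fun i j => i < j ∧ i ∈ S ∧ j ∈ S) (val g - 1) := by
  induction g using ind with
  | h1 => exact ⟨∅, by rw [map_one, sub_self]; exact Sup.zero _⟩
  | hm a b h g ih =>
    obtain ⟨S, hS⟩ := ih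
    refine ⟨insert a (insert b S), ?_⟩
    have e : val (t a b h * g) - 1 = E a b + (val g - 1) + E a b * (val g - 1) := by
      rw [map_mul, val_t]; noncomm_ring
    rw [e]
    refine (Sup.add ((Sup.E a b).mono ?_) (hS.mono ?_)).add ((Sup.E a b).mul hS ?_)
    · rintro i j ⟨rfl, rfl⟩; simp [h]
    · rintro i j ⟨h1, h2, h3⟩; simp [h1, h2, h3]
    · rintro i l j ⟨rfl, rfl⟩ ⟨h1, h2, h3⟩
      exact ⟨h.trans h1, by simp, by simp [h3]⟩

theorem upper (g : M) : Sup (fun i j => i ≤ j) (val g) := by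
  obtain ⟨S, hS⟩ := supp g
  have : val g = (val g - 1) + 1 := by simp
  rw [this]
  exact (hS.mono fun _ _ h => h.1.le).add (fun _ _ h => (ent_one h).le)

theorem t_ne (a b : ℚ) (h : a < b) : t a b h ≠ 1 := by
  intro e
  have := congrArg val e
  rw [val_t, map_one, add_eq_left] at this
  exact E_ne a b this

theorem t_comm {a b c : ℚ} (h1 : a < b) (h2 : b < c) :
    t a b h1 * t b c h2 * (t a b h1)⁻¹ * (t b c h2)⁻¹ = t a c (h1.trans h2) := by
  apply val_inj
  rw [t_inv, t_inv]
  simp only [map_mul, val_t]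
  have h3 := h1.trans h2
  have e1 := E_mul_eq a b c
  have e2 : E a b * E a b = 0 := E_mul_ne h1.ne'
  have e3 : E b c * E a b = 0 := E_mul_ne h3.ne'
  have e4 : E b c * E b c = 0 := E_mul_ne h2.ne'
  have e5 : E a c * E a b = 0 := E_mul_ne h3.ne'
  have e6 : E a c * E b c = 0 := E_mul_ne h2.ne'
  have e7 : (1 + E a b) * (1 + E b c) = 1 + E a b + E b c + E a c := by
    rw [← e1]; noncomm_ring
  have e8 : (1 + E a b + E b c + E a c) * (1 + E a b) = 1 + E b c + E a c := by
    rw [mul_add, mul_one, add_mul, add_mul, add_mul, e2, e3, e5, one_mul]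
    have := add_self (E a b)
    calc _ = 1 + E b c + E a c + (E a b + E a b) := by abel
      _ = _ := by rw [this, add_zero]
  rw [e7, e8, mul_add, mul_one, add_mul, add_mul, e4, e6, one_mul]
  have := add_self (E b c)
  calc _ = 1 + E a c + (E b c + E b c) := by abel
    _ = _ := by rw [this, add_zero]

theorem normal_has {N : Subgroup M} (hN : N.Normal) (hne : N ≠ ⊥) :
    ∃ a0 b0 : ℚ, ∀ a b (h : a < b), a < a0 → b0 < b → t a b h ∈ N := by
  obtain ⟨⟨g, hg⟩, hg1⟩ := Subgroup.ne_bot_iff_exists_ne_one.mp hne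
  have hg2 : g⁻¹ ≠ 1 := fun e => hg1 (Subtype.ext (inv_eq_one.mp e))
  obtain ⟨S, hS⟩ := supp g
  obtain ⟨S', hS'⟩ := supp g⁻¹
  obtain ⟨i, j, hij⟩ : ∃ i j, ent (val g⁻¹ - 1) i j ≠ 0 := by
    by_contra hc
    push Not at hc
    apply hg2
    apply val_inj
    rw [map_one, ← sub_eq_zero]
    exact ext_ent fun i j => by rw [hc]; simp [ent]
  obtain ⟨a0, ha0⟩ := (S ∪ S').bddBelow
  obtain ⟨b0, hb0⟩ := (S ∪ S').bddAbove
  have hlo : ∀ x ∈ S ∪ S', a0 ≤ x := fun x hx => ha0 hx
  have hhi : ∀ x ∈ S ∪ S', x ≤ b0 := fun x hx => hb0 hx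
  simp only [Finset.mem_union] at hlo hhi
  obtain ⟨k1, k2, k3⟩ := hS' i j hij
  refine ⟨a0, b0, fun a b h ha hb => ?_⟩
  have hai : a < i := ha.trans_le (hlo i (Or.inr k2))
  have hjb : j < b := (hhi j (Or.inr k3)).trans_lt hb
  set y := val g⁻¹ - 1 with hy
  set u := E a i * y with hu
  have hy1 : ent y i j = 1 := by
    exact F_eq_one _ hij
  have su : Sup (fun p q => p = a ∧ q ∈ S') u :=
    (Sup.E a i).mul hS' (fun _ _ _ h1 h2 => ⟨h1.1, h2.2.2⟩)
  have e1 : val g * E a i = E a i := by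
    have : (val g - 1) * E a i = 0 :=
      (hS.mul (t := fun _ _ => False) (Sup.E a i) (fun _ l _ h1 h2 => by
        have := hlo l (Or.inl h1.2.2)
        rw [h2.1] at this
        linarith)).eq_zero (fun _ _ h => h)
    rwa [sub_mul, one_mul, sub_eq_zero] at this
  have c1 : t a i hai * g * (t a i hai)⁻¹ * g⁻¹ ∈ N :=
    N.mul_mem (hN.conj_mem g hg _) (N.inv_mem hg)
  have v1 : val (t a i hai * g * (t a i hai)⁻¹ * g⁻¹) = 1 + u := by
    rw [t_inv]
    simp only [map_mul, val_t]
    have e2 : E a i * E a i = 0 := E_mul_ne hai.ne'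
    have e3 : (1 + E a i) * val g * (1 + E a i) * val g⁻¹
        = (1 + E a i) * (val g * val g⁻¹) + (1 + E a i) * (val g * E a i) * val g⁻¹ := by
      noncomm_ring
    rw [e3, val_mul_inv, e1, add_mul _ _ (E a i), e2, hu, hy, mul_sub]
    have := add_self (E a i)
    calc _ = 1 + (E a i * val g⁻¹ - E a i * 1) + (E a i + E a i) := by noncomm_ring
      _ = _ := by rw [this, add_zero]
  generalize t a i hai * g * (t a i hai)⁻¹ * g⁻¹ = c at c1 v1
  have f1 : u * u = 0 := (su.mul (t := fun _ _ => False) su (fun _ l _ h1 h2 => by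
    have := hlo l (Or.inr h1.2)
    rw [h2.1] at this
    linarith)).eq_zero (fun _ _ h => h)
  have f2 : E j b * u = 0 := ((Sup.E j b).mul (t := fun _ _ => False) su (fun _ l _ h1 h2 =>
    h.ne' (h1.2.symm.trans h2.1))).eq_zero (fun _ _ h => h)
  have f3 : u * E j b = E a b := by rw [hu, E_mul_E, hy1, one_smul]
  have f4 : E a b * u = 0 := ((Sup.E a b).mul (t := fun _ _ => False) su (fun _ l _ h1 h2 =>
    h.ne' (h1.2.symm.trans h2.1))).eq_zero (fun _ _ h => h)
  have f5 : E a b * E j b = 0 := E_mul_ne hjb.ne'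
  have c2 : c * (t j b hjb * c⁻¹ * (t j b hjb)⁻¹) ∈ N :=
    N.mul_mem c1 (hN.conj_mem _ (N.inv_mem c1) _)
  have : c * (t j b hjb * c⁻¹ * (t j b hjb)⁻¹) = t a b h := by
    have : c * t j b hjb = t a b h * (t j b hjb * c) := by
      apply val_inj
      simp only [map_mul, val_t, v1]
      have g1 : (1 + u) * (1 + E j b) = 1 + u + E j b + u * E j b := by noncomm_ring
      have g2 : (1 + E a b) * ((1 + E j b) * (1 + u)) = 1 + u + E j b + E a b + E j b * u
          + E a b * u + E a b * E j b + E a b * (E j b * u) := by noncomm_ring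
      rw [g1, g2, f2, f3, f4, f5]
      simp
    calc _ = (c * t j b hjb) * (t j b hjb * c)⁻¹ := by group
      _ = _ := by rw [this]; group
  rwa [this] at c2

theorem center_bot : Subgroup.center M = ⊥ := by
  by_contra hc
  obtain ⟨a0, b0, h⟩ := normal_has inferInstance hc
  have h1 : min a0 b0 - 1 < max a0 b0 + 1 := by linarith [min_le_max (a := a0) (b := b0)]
  have h2 := h _ _ h1 (by linarith [min_le_left a0 b0]) (by linarith [le_max_right a0 b0])
  have h3 := t_comm h1 (lt_add_one (max a0 b0 + 1))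
  rw [← Subgroup.mem_center_iff.mp h2] at h3
  exact t_ne _ _ _ (by rw [← h3]; group)

theorem inter {N K : Subgroup M} (hN : N.Normal) (hK : K.Normal) (h1 : N ≠ ⊥) (h2 : K ≠ ⊥) :
    ∃ z, z ≠ 1 ∧ z ∈ N ∧ z ∈ K := by
  obtain ⟨a0, b0, h⟩ := normal_has hN h1
  obtain ⟨a1, b1, h'⟩ := normal_has hK h2
  obtain ⟨a, ha⟩ := exists_lt (min a0 a1)
  obtain ⟨b, hb⟩ := exists_gt (max a (max b0 b1))
  simp only [lt_min_iff, max_lt_iff] at ha hb
  exact ⟨t a b hb.1, t_ne _ _ _, h _ _ _ ha.1 hb.2.1, h' _ _ _ ha.2 hb.2.2⟩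

/-- Permuting the basis vectors. -/
noncomputable def pm (σ : ℚ → ℚ) : R := Finsupp.lmapDomain F F σ

theorem pm_sg (σ : ℚ → ℚ) (i : ℚ) : pm σ (sg i) = sg (σ i) := Finsupp.mapDomain_single

/-- The permutation matrix of an order automorphism. -/
noncomputable def cc (σ : ℚ ≃o ℚ) : Rˣ where
  val := pm σ
  inv := pm σ.symm
  val_inv := ext_sg fun j => by simp [pm_sg]
  inv_val := ext_sg fun j => by simp [pm_sg]

theorem cc_T (σ : ℚ ≃o ℚ) (i j : ℚ) (h : i < j) :
    cc σ * T i j h * (cc σ)⁻¹ = T (σ i) (σ j) (σ.strictMono h) := by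
  rw [mul_inv_eq_iff_eq_mul]
  apply Units.ext
  change pm σ * (1 + E i j) = (1 + E (σ i) (σ j)) * pm σ
  rw [mul_add, add_mul, mul_one, one_mul, add_right_inj]
  exact ext_sg fun l => by by_cases hl : l = j <;> simp [E_apply, pm_sg, co_sg, hl]

theorem cc_mem (σ : ℚ ≃o ℚ) (g : M) : cc σ * g.1 * (cc σ)⁻¹ ∈ MM := by
  induction g using ind with
  | h1 => simp
  | hm i j h g ih =>
    have : cc σ * (t i j h * g).1 * (cc σ)⁻¹
        = (cc σ * T i j h * (cc σ)⁻¹) * (cc σ * g.1 * (cc σ)⁻¹) := by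
      change cc σ * (T i j h * g.1) * (cc σ)⁻¹ = _
      group
    rw [this, cc_T]
    exact MM.mul_mem (t _ _ (σ.strictMono h)).2 ih

theorem aut_trans {a b c d : ℚ} (h1 : a < b) (h2 : c < d) :
    ∃ α : M ≃* M, α (t a b h1) = t c d h2 := by
  have hp : 0 < (d - c) / (b - a) := div_pos (by linarith) (by linarith)
  let σ : ℚ ≃o ℚ := (OrderIso.subRight a).trans
    ((OrderIso.mulLeft₀ _ hp).trans (OrderIso.addLeft c))
  have e1 : σ a = c := by simp [σ]
  have e2 : σ b = d := by
    have : b - a ≠ 0 := by linarith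
    simp [σ, this]
  refine ⟨⟨⟨fun g => ⟨_, cc_mem σ g⟩, fun g => ⟨(cc σ)⁻¹ * g.1 * cc σ, cc_mem σ.symm g⟩,
    fun g => Subtype.ext (by simp only; group), fun g => Subtype.ext (by simp only; group)⟩,
    fun g h => Subtype.ext (by simp only [Subgroup.coe_mul]; group)⟩, Subtype.ext ?_⟩
  change cc σ * T a b h1 * (cc σ)⁻¹ = T c d h2
  rw [cc_T]
  congr

theorem conj_comm (a b : ℚ) (h : a < b) (g : M) :
    t a b h * (g * t a b h * g⁻¹) = (g * t a b h * g⁻¹) * t a b h := by
  apply val_inj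
  have z1 : ∀ k : M, ent (val k) b a = 0 := fun k => by
    by_contra hc
    exact absurd (upper k b a hc) (not_le.mpr h)
  have e1 : E a b * val g * E a b = 0 := by rw [E_mul_E, z1, zero_smul]
  have e2 : E a b * val g⁻¹ * E a b = 0 := by rw [E_mul_E, z1, zero_smul]
  simp only [map_mul, val_t]
  have g1 : (1 + E a b) * (val g * (1 + E a b) * val g⁻¹) = val g * val g⁻¹
      + val g * E a b * val g⁻¹ + E a b * (val g * val g⁻¹)
      + E a b * val g * E a b * val g⁻¹ := by noncomm_ring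
  have g2 : (val g * (1 + E a b) * val g⁻¹) * (1 + E a b) = val g * val g⁻¹
      + val g * E a b * val g⁻¹ + (val g * val g⁻¹) * E a b
      + val g * (E a b * val g⁻¹ * E a b) := by noncomm_ring
  rw [g1, g2, e1, e2, val_mul_inv]
  simp

end Pool.Agent.H48.McL
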