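import Mathlib
import Pool.Agent.H48.McL

set_option autoImplicit false

namespace Pool.Agent.H48.McL

open MvPolynomial

theorem chain {G : Type} [Group G] (x : G) (S : ℕ → Subgroup G) (h1 : ∀ i, S (i + 1) ≤ S i)
    (h2 : ∀ i, ∀ y ∈ S i, y * x * y⁻¹ * x⁻¹ ∈ S (i + 1))
    (h3 : ∀ i, ∀ y ∈ S i, ∀ z ∈ S (i + 1), y * z * y⁻¹ ∈ S (i + 1))
    (h0 : (S 0 ⊔ Subgroup.zpowers x).IsSubnormal) (n : ℕ) :
    (S n ⊔ Subgroup.zpowers x).IsSubnormal := by
  induction n with
  | zero => exact h0
  | succ n ih =>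
    have hle : S (n + 1) ⊔ Subgroup.zpowers x ≤ S n ⊔ Subgroup.zpowers x :=
      sup_le_sup_right (h1 n) _
    refine Subgroup.IsSubnormal.step _ _ hle ih ?_
    rw [Subgroup.normal_subgroupOf_iff_le_normalizer hle]
    refine sup_le ?_ (le_sup_right.trans Subgroup.le_normalizer)
    rw [Subgroup.le_normalizer_iff]
    intro y hy k hk
    have : S (n + 1) ⊔ Subgroup.zpowers x ≤
        (S (n + 1) ⊔ Subgroup.zpowers x).comap (MulAut.conj y).toMonoidHom := by
      refine sup_le (fun z hz => Subgroup.mem_sup_left (h3 n y hy z hz)) ?_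
      rw [Subgroup.zpowers_le]
      change y * x * y⁻¹ ∈ S (n + 1) ⊔ Subgroup.zpowers x
      have e : y * x * y⁻¹ = (y * x * y⁻¹ * x⁻¹) * x := by group
      rw [e]
      exact Subgroup.mul_mem_sup (h2 n y hy) (Subgroup.mem_zpowers x)
    exact this hk

/-- Rank function of a finite set. -/
noncomputable def rk (S : Finset ℚ) (q : ℚ) : ℕ := (S.filter (· ≤ q)).card

theorem rk_mono (S : Finset ℚ) {i j : ℚ} (h : i ≤ j) : rk S i ≤ rk S j :=
  Finset.card_le_card fun x hx => by
    simp only [Finset.mem_filter] at hx ⊢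
    exact ⟨hx.1, hx.2.trans h⟩

theorem rk_lt (S : Finset ℚ) {i j : ℚ} (h : i < j) (hj : j ∈ S) : rk S i + 1 ≤ rk S j :=
  Finset.card_lt_card ⟨fun x hx => by
    simp only [Finset.mem_filter] at hx ⊢
    exact ⟨hx.1, hx.2.trans h.le⟩, fun hc => by
    have := hc (Finset.mem_filter.mpr ⟨hj, le_rfl⟩)
    exact absurd (Finset.mem_filter.mp this).2 (not_le.mpr h)⟩

theorem rk_le (S : Finset ℚ) (i : ℚ) : rk S i ≤ S.card := Finset.card_filter_le _ _

theorem sup_left {S : Finset ℚ} {k : ℕ} {y : R} (h : Sup (fun i j => rk S i + k ≤ rk S j) y)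
    (g : M) : Sup (fun i j => rk S i + k ≤ rk S j) (val g * y) :=
  (upper g).mul h fun _ _ _ h1 h2 => by have := rk_mono S h1; omega

theorem sup_right {S : Finset ℚ} {k : ℕ} {y : R} (h : Sup (fun i j => rk S i + k ≤ rk S j) y)
    (g : M) : Sup (fun i j => rk S i + k ≤ rk S j) (y * val g) :=
  h.mul (upper g) fun _ _ _ h1 h2 => by have := rk_mono S h2; omega

/-- The filtration of the McLain group attached to a finite set. -/
noncomputable def U (S : Finset ℚ) (k : ℕ) : Subgroup M where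
  carrier := {g | Sup (fun i j => rk S i + k ≤ rk S j) (val g - 1)}
  one_mem' := by
    change Sup _ _
    rw [map_one, sub_self]
    exact Sup.zero _
  mul_mem' := by
    intro g h hg hh
    change Sup _ _
    have : val (g * h) - 1 = (val g - 1) * val h + (val h - 1) := by
      rw [map_mul]; noncomm_ring
    rw [this]
    exact (sup_right hg h).add hh
  inv_mem' := by
    intro g hg
    change Sup _ _
    have : val g⁻¹ - 1 = -((val g - 1) * val g⁻¹) := by
      rw [sub_mul, val_mul_inv]; noncomm_ring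
    rw [this]
    exact (sup_right hg _).neg

theorem U_conj {S : Finset ℚ} {k : ℕ} {z : M} (hz : z ∈ U S k) (y : M) : y * z * y⁻¹ ∈ U S k := by
  change Sup _ _
  have : val (y * z * y⁻¹) - 1 = val y * (val z - 1) * val y⁻¹ := by
    rw [map_mul, map_mul, mul_sub, sub_mul, mul_one, val_mul_inv]
  rw [this]
  exact sup_right (sup_left hz y) _

theorem U_comm {S : Finset ℚ} {k : ℕ} {y h : M} (hy : y ∈ U S k) (hh : h ∈ U S 1) :
    y * h * y⁻¹ * h⁻¹ ∈ U S (k + 1) := by
  change Sup _ _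
  have : val (y * h * y⁻¹ * h⁻¹) - 1 = ((val y - 1) * (val h - 1) - (val h - 1) * (val y - 1))
      * val y⁻¹ * val h⁻¹ := by
    have e : (val y - 1) * (val h - 1) - (val h - 1) * (val y - 1)
        = val y * val h - val h * val y := by noncomm_ring
    rw [e, sub_mul, sub_mul, mul_assoc (val h), val_mul_inv, mul_one, val_mul_inv]
    simp only [map_mul]
  rw [this]
  refine sup_right (sup_right (Sup.sub (Sup.mul hy hh ?_) (Sup.mul hh hy ?_)) _) _ <;>
    intro _ _ _ h1 h2 <;> omega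

theorem U_zero (S : Finset ℚ) (g : M) : g ∈ U S 0 := by
  obtain ⟨S', h⟩ := supp g
  exact h.mono fun _ _ h => rk_mono S h.1.le

theorem U_top {S : Finset ℚ} {g : M} (hg : g ∈ U S (S.card + 1)) : g = 1 := by
  apply val_inj
  rw [map_one, ← sub_eq_zero]
  exact Sup.eq_zero hg fun i j h => by have := rk_le S j; omega

theorem U_one (g : M) : ∃ S, g ∈ U S 1 := by
  obtain ⟨S, h⟩ := supp g
  exact ⟨S, h.mono fun _ _ h => rk_lt S h.1 h.2.2⟩

theorem pow_eq_one (g : M) : ∃ k : ℕ, g ^ 2 ^ k = 1 := by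
  obtain ⟨S, h⟩ := U_one g
  have h1 : ∀ n : ℕ, Sup (fun i j => rk S i + (n + 1) ≤ rk S j) ((val g - 1) ^ (n + 1)) := by
    intro n
    induction n with
    | zero => rw [zero_add, pow_one]; exact h
    | succ n ih =>
      rw [pow_succ]
      exact ih.mul h fun _ _ _ h1 h2 => by omega
  refine ⟨S.card, val_inj ?_⟩
  have h2 : S.card < 2 ^ S.card := Nat.lt_two_pow_self
  obtain ⟨n, hn⟩ : ∃ n, 2 ^ S.card = n + 1 := ⟨2 ^ S.card - 1, by omega⟩
  have h3 : (val g - 1) ^ 2 ^ S.card = 0 := by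
    rw [hn]
    exact (h1 n).eq_zero fun i j h => by have := rk_le S j; omega
  rw [sub_pow_char_pow_of_commute _ _ (Commute.one_right _), one_pow, sub_eq_zero] at h3
  rw [map_pow, h3, map_one]

abbrev A := MvPolynomial ℚ F

/-- Linear forms. -/
noncomputable def lin : V →ₗ[F] A := Finsupp.linearCombination F X

theorem lin_sg (i : ℚ) : lin (sg i) = X i := by
  change Finsupp.linearCombination F X (Finsupp.single i (1 : F)) = _
  simp

/-- Linear substitutions. -/
noncomputable def act (y : R) : A →ₐ[F] A := aeval fun i => lin (y (sg i))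

theorem act_lin (y : R) (v : V) : act y (lin v) = lin (y v) := by
  have : (act y).toLinearMap ∘ₗ lin = lin ∘ₗ y := ext_sg fun j => by simp [lin_sg, act]
  exact LinearMap.congr_fun this v

/-- The action of the McLain group on polynomials. -/
noncomputable def ρ : M →* (A →ₐ[F] A) where
  toFun g := act (val g)
  map_one' := by
    apply MvPolynomial.algHom_ext
    intro i
    simp [act, lin_sg]
  map_mul' g h := by
    apply MvPolynomial.algHom_ext
    intro i
    rw [AlgHom.mul_apply, ← lin_sg, act_lin, act_lin, act_lin, map_mul]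
    rfl

theorem ρ_X (c d : ℚ) (h : c < d) (i : ℚ) :
    ρ (t c d h) (X i) = X i + if i = d then X c else 0 := by
  change act (1 + E c d) (X i) = _
  rw [← lin_sg, act_lin, LinearMap.add_apply, E_apply, co_sg, map_add, map_smul, lin_sg]
  split_ifs <;> simp

theorem ρ_fix (c d : ℚ) (h : c < d) {p : A} (hp : d ∉ p.vars) : ρ (t c d h) p = p := by
  refine hom_congr_vars (f₁ := (ρ (t c d h)).toRingHom) (f₂ := RingHom.id A) ?_ ?_ rfl
  · ext x
    simp
  · intro i hi _
    have : i ≠ d := fun e => hp (e ▸ hi)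
    change ρ (t c d h) (X i) = X i
    rw [ρ_X, if_neg this, add_zero]

/-- The split extension of the polynomial ring by the McLain group. -/
@[ext] structure GG where
  a : A
  m : M

noncomputable instance : Group GG where
  mul g h := ⟨g.a + ρ g.m h.a, g.m * h.m⟩
  one := ⟨0, 1⟩
  inv g := ⟨-ρ g.m⁻¹ g.a, g.m⁻¹⟩
  mul_assoc g h l := by
    apply GG.ext
    · change g.a + ρ g.m h.a + ρ (g.m * h.m) l.a = g.a + ρ g.m (h.a + ρ h.m l.a)
      rw [map_mul, map_add, add_assoc]
      rfl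
    · exact mul_assoc g.m h.m l.m
  one_mul g := by
    apply GG.ext
    · change 0 + ρ 1 g.a = g.a
      simp
    · exact one_mul g.m
  mul_one g := by
    apply GG.ext
    · change g.a + ρ g.m 0 = g.a
      simp
    · exact mul_one g.m
  inv_mul_cancel g := by
    apply GG.ext
    · exact neg_add_cancel _
    · exact inv_mul_cancel g.m

@[simp] theorem mul_a (g h : GG) : (g * h).a = g.a + ρ g.m h.a := rfl
@[simp] theorem mul_m (g h : GG) : (g * h).m = g.m * h.m := rfl
@[simp] theorem one_a : (1 : GG).a = 0 := rfl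
@[simp] theorem one_m : (1 : GG).m = 1 := rfl
@[simp] theorem inv_a (g : GG) : (g⁻¹).a = -ρ g.m⁻¹ g.a := rfl
@[simp] theorem inv_m (g : GG) : (g⁻¹).m = g.m⁻¹ := rfl

@[simp] theorem ρ_inv (g : M) (u : A) : ρ g (ρ g⁻¹ u) = u := by
  rw [← AlgHom.mul_apply, ← map_mul]; simp

/-- The projection to the McLain group. -/
noncomputable def rt : GG →* M := ⟨⟨GG.m, rfl⟩, fun _ _ => rfl⟩

/-- The section of the projection. -/
noncomputable def inr : M →* GG := ⟨⟨fun g => ⟨0, g⟩, rfl⟩, fun g h => GG.ext (by simp) rfl⟩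

theorem comm_inl (u : A) (n : GG) :
    (⟨u, 1⟩ : GG) * n * (⟨u, 1⟩ : GG)⁻¹ * n⁻¹ = ⟨u - ρ n.m u, 1⟩ := by
  apply GG.ext
  · simp only [mul_a, mul_m, inv_a, inv_m, inv_one, map_one, one_mul, mul_one, map_neg, ρ_inv,
      AlgHom.one_apply]
    ring
  · simp

theorem baer (x : GG) : (Subgroup.zpowers x).IsSubnormal := by
  obtain ⟨S, hS⟩ := U_one x.m
  have c1 := chain x (fun k => (U S k).comap rt)
    (fun i y hy => Sup.mono hy fun _ _ h => by omega) (fun i y hy => U_comm hy hS)
    (fun i y _ z hz => U_conj hz y.m) (by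
      have : (U S 0).comap rt = ⊤ := eq_top_iff.mpr fun y _ => U_zero S _
      simp [this]) (S.card + 1)
  set δ : Module.End F A := 1 - (ρ x.m).toLinearMap with hδ
  let S2 : ℕ → Subgroup GG := fun j =>
    { carrier := {y | y.m = 1 ∧ ∃ v, y.a = (δ ^ j) v}
      one_mem' := ⟨rfl, 0, by simp⟩
      mul_mem' := by
        rintro y z ⟨h1, v, h2⟩ ⟨h3, w, h4⟩
        exact ⟨by simp [h1, h3], v + w, by simp [h1, h2, h4]⟩
      inv_mem' := by
        rintro y ⟨h1, v, h2⟩
        exact ⟨by simp [h1], -v, by simp [h1, h2]⟩ }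
  have e0 : S2 0 = (U S (S.card + 1)).comap rt := by
    ext y
    exact ⟨fun h => by change y.m ∈ U S (S.card + 1); rw [h.1]; exact one_mem _,
      fun h => ⟨U_top h, y.a, by simp⟩⟩
  obtain ⟨k, hk⟩ := pow_eq_one x.m
  have c2 := chain x S2 (by
      rintro i y ⟨h1, v, h2⟩
      exact ⟨h1, δ v, by rw [h2, pow_succ]; rfl⟩) (by
      rintro i ⟨u, m⟩ ⟨h1, v, h2⟩
      simp only at h1 h2
      subst h1
      rw [comm_inl]
      exact ⟨rfl, v, by rw [pow_succ', Module.End.mul_apply, ← h2]; rfl⟩) (by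
      rintro i y ⟨h1, -⟩ z ⟨h3, w, h4⟩
      exact ⟨by simp [h3], w, by simp [h1, h3, h4]⟩) (by rw [e0]; exact c1) (2 ^ k)
  have : CharP (Module.End F A) 2 := charP_of_injective_algebraMap (algebraMap F _).injective 2
  have e1 : δ ^ 2 ^ k = 0 := by
    rw [hδ, sub_pow_char_pow_of_commute _ _ (Commute.one_left _), one_pow, sub_eq_zero]
    have : ∀ n : ℕ, (ρ x.m).toLinearMap ^ n = (ρ (x.m ^ n)).toLinearMap := by
      intro n
      induction n with
      | zero => simp; rfl
      | succ n ih => rw [pow_succ, ih, pow_succ, map_mul]; rfl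
    rw [this, hk, map_one]
    rfl
  have e2 : S2 (2 ^ k) = ⊥ := by
    rw [eq_bot_iff]
    rintro y ⟨h1, v, h2⟩
    exact GG.ext (by rw [h2, e1]; rfl) h1
  rwa [e2, bot_sup_eq] at c2

theorem pseudo (g : GG) : Subgroup.normalClosure (Subgroup.centralizer {g} : Set GG) = ⊤ := by
  set N := Subgroup.normalClosure (Subgroup.centralizer {g} : Set GG) with hN
  have hn : N.Normal := inferInstance
  have hc : ∀ y : GG, y * g = g * y → y ∈ N := fun y hy =>
    Subgroup.subset_normalClosure (Subgroup.mem_centralizer_singleton_iff.mpr hy)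
  obtain ⟨S, hS⟩ := supp g.m
  set K := N.comap inr with hK
  have hk : K.Normal := hn.comap _
  have s0 : ∀ c d (h : c < d), c ∉ S ∪ g.a.vars → d ∉ S ∪ g.a.vars → t c d h ∈ K := by
    intro c d h h1 h2
    simp only [Finset.mem_union, not_or] at h1 h2
    apply hc
    apply GG.ext
    · change 0 + ρ (t c d h) g.a = g.a + ρ g.m 0
      rw [ρ_fix c d h h2.2]
      simp
    · change t c d h * g.m = g.m * t c d h
      apply val_inj
      have z1 : E c d * (val g.m - 1) = 0 := ((Sup.E c d).mul (t := fun _ _ => False) hS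
        (fun _ _ _ k1 k2 => h2.1 (k1.2 ▸ k2.2.1))).eq_zero fun _ _ h => h
      have z2 : (val g.m - 1) * E c d = 0 := (hS.mul (t := fun _ _ => False) (Sup.E c d)
        (fun _ _ _ k1 k2 => h1.1 (k2.1 ▸ k1.2.2))).eq_zero fun _ _ h => h
      rw [mul_sub, sub_eq_zero] at z1
      rw [sub_mul, sub_eq_zero] at z2
      rw [map_mul, map_mul, val_t, add_mul, mul_add, z1, z2]
      simp
  have s1 : ∀ i k (h : i < k), k ∉ S ∪ g.a.vars → t i k h ∈ K := by
    intro i k h hk'
    obtain ⟨l, ⟨l1, l2⟩, l3⟩ := (Set.Ioo_infinite h).exists_notMem_finset (S ∪ g.a.vars)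
    rw [← t_comm l1 l2]
    exact K.mul_mem (hk.conj_mem _ (s0 _ _ l2 l3 hk') _) (K.inv_mem (s0 _ _ l2 l3 hk'))
  have s2 : K = ⊤ := eq_top fun i j h => by
    obtain ⟨l, ⟨l1, l2⟩, l3⟩ := (Set.Ioo_infinite h).exists_notMem_finset (S ∪ g.a.vars)
    rw [← t_comm l1 l2, mul_assoc, mul_assoc, ← mul_assoc (t l j l2)]
    exact K.mul_mem (s1 _ _ l1 l3) (hk.conj_mem _ (K.inv_mem (s1 _ _ l1 l3)) _)
  have s3 : ∀ h : M, inr h ∈ N := fun h => by
    have : h ∈ K := by rw [s2]; trivial
    exact this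
  have s4 : ∀ u : A, (⟨u, 1⟩ : GG) ∈ N := by
    intro u
    induction u using MvPolynomial.induction_on with
    | C c =>
      apply hc
      apply GG.ext
      · simp [add_comm]
      · simp
    | add p q hp hq =>
      have := N.mul_mem hp hq
      convert this using 1
      exact GG.ext (by simp) (by simp)
    | mul_X p i _ =>
      obtain ⟨d, d0, d2⟩ := (Set.Ioi_infinite i).exists_notMem_finset p.vars
      have d1 : i < d := d0
      have h1 := N.mul_mem (hn.conj_mem _ (s3 (t i d d1)) ⟨-(p * X d), 1⟩)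
        (N.inv_mem (s3 (t i d d1)))
      rw [comm_inl] at h1
      convert h1 using 2
      change _ = _ - ρ (t i d d1) _
      rw [map_neg, map_mul, ρ_fix i d d1 d2, ρ_X, if_pos rfl]
      ring
  rw [eq_top_iff]
  rintro ⟨u, h⟩ -
  have := N.mul_mem (s4 u) (s3 h)
  convert this using 1
  exact GG.ext (by simp [inr]) (by simp [inr])

theorem nil_le (N : Subgroup GG) (hn : N.Normal) (hN : Group.IsNilpotent N) : N ≤ rt.ker := by
  by_contra hc
  have hs : Function.Surjective rt := fun h => ⟨inr h, rfl⟩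
  have hne : N.map rt ≠ ⊥ := fun e => hc ((Subgroup.map_eq_bot_iff _).mp e)
  obtain ⟨a0, b0, h⟩ := normal_has (hn.map rt hs) hne
  obtain ⟨a, ha⟩ := exists_lt a0
  obtain ⟨b, hb⟩ := exists_gt (max a b0)
  simp only [max_lt_iff] at hb
  let P : ℕ → A := fun j => ∏ i ∈ Finset.range j, X (b + i)
  have key : ∀ s j : ℕ, ∃ n ∈ N, (⟨-(X a ^ s * P (j + 1)), 1⟩ : GG) * n *
      (⟨-(X a ^ s * P (j + 1)), 1⟩ : GG)⁻¹ * n⁻¹ = ⟨X a ^ (s + 1) * P j, 1⟩ := by
    intro s j
    have hj : (0 : ℚ) ≤ j := by positivity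
    have h1 : a < b + j := by linarith [hb.1]
    obtain ⟨n, n1, n2⟩ := h a (b + j) h1 ha (by linarith [hb.2])
    refine ⟨n, n1, ?_⟩
    rw [comm_inl, show n.m = t a (b + j) h1 from n2]
    congr 1
    have e1 : ρ (t a (b + j) h1) (P j) = P j := by
      simp only [P, map_prod]
      refine Finset.prod_congr rfl fun i hi => ?_
      have : (i : ℚ) ≠ j := by exact_mod_cast (Finset.mem_range.mp hi).ne
      rw [ρ_X, if_neg (by simpa using this), add_zero]
    have e2 : P (j + 1) = P j * X (b + j) := Finset.prod_range_succ _ _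
    rw [e2, map_neg, map_mul, map_mul, map_pow, e1, ρ_X, ρ_X, if_neg h1.ne, if_pos rfl]
    ring
  have neg : ∀ u : A, (⟨-u, 1⟩ : GG) = (⟨u, 1⟩ : GG)⁻¹ := fun u => GG.ext (by simp) (by simp)
  have main : ∀ s j : ℕ, (⟨X a ^ (s + 1) * P j, 1⟩ : GG) ∈ N.lowerCentralSeries s := by
    intro s
    induction s with
    | zero =>
      intro j
      obtain ⟨n, n1, n2⟩ := key 0 j
      rw [← n2]
      exact N.mul_mem (hn.conj_mem _ n1 _) (N.inv_mem n1)
    | succ s ih =>
      intro j
      obtain ⟨n, n1, n2⟩ := key (s + 1) j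
      rw [← n2, neg]
      exact Subgroup.commutator_mem_commutator (Subgroup.inv_mem _ (ih (j + 1))) n1
  obtain ⟨s, hs⟩ := (Subgroup.isNilpotent_iff_lowerCentralSeries N).mp hN
  have := main s 0
  rw [hs, Subgroup.mem_bot] at this
  have h2 := congrArg GG.a this
  simp [P] at h2

end Pool.Agent.H48.McL
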