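import Mathlib

set_option autoImplicit false

namespace Pool.Agent.H48.MilA

open Filter Topology Set Asymptotics
open scoped Manifold ContDiff

section gen
variable {R : Type} [NormedCommRing R] [NormedAlgebra ℝ R]

lemma inv_der (hO : IsOpen {x : R | IsUnit x}) (hC : ContinuousOn Ring.inverse {x : R | IsUnit x})
    (x : R) (hx : IsUnit x) : HasFDerivAt (Ring.inverse : R → R)
      (-(ContinuousLinearMap.mul ℝ R (Ring.inverse x * Ring.inverse x))) x := by
  rw [hasFDerivAt_iff_isLittleO]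
  have h1 : Tendsto (fun y : R => (Ring.inverse x - Ring.inverse y) * Ring.inverse x) (𝓝 x)
      (𝓝 0) := by
    have := ((hC.continuousAt (hO.mem_nhds hx)).tendsto.const_sub (Ring.inverse x)).mul_const
      (Ring.inverse x)
    simpa using this
  have h2 := ((isLittleO_one_iff ℝ).2 h1).mul_isBigO
    (isBigO_refl (fun y : R => y - x) (𝓝 x)).norm_right
  simp only [one_mul] at h2
  refine (h2.of_norm_right).congr' ?_ EventuallyEq.rfl
  filter_upwards [hO.mem_nhds hx] with y hy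
  have a1 := Ring.inverse_mul_cancel x hx
  have a2 := Ring.inverse_mul_cancel y hy
  simp only [neg_apply, ContinuousLinearMap.mul_apply']
  linear_combination (Ring.inverse y) * a1 - (Ring.inverse x) * a2

lemma inv_smooth (hO : IsOpen {x : R | IsUnit x})
    (hC : ContinuousOn Ring.inverse {x : R | IsUnit x}) :
    ContDiffOn ℝ ∞ (Ring.inverse : R → R) {x : R | IsUnit x} := by
  rw [contDiffOn_infty]
  intro n
  induction n with
  | zero => simpa using hC
  | succ n ih =>
    push_cast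
    rw [contDiffOn_succ_iff_fderiv_of_isOpen hO]
    refine ⟨fun x hx => (inv_der hO hC x hx).differentiableAt.differentiableWithinAt,
      by simp, ?_⟩
    exact ((ContinuousLinearMap.mul ℝ R).contDiff.comp_contDiffOn (ih.mul ih)).neg.congr
      fun x hx => (inv_der hO hC x hx).fderiv

lemma emb (hO : IsOpen {x : R | IsUnit x}) (hC : ContinuousOn Ring.inverse {x : R | IsUnit x}) :
    IsOpenEmbedding (Units.val : Rˣ → R) :=
  ⟨Units.isEmbedding_val_mk' hC Ring.inverse_unit, hO⟩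

theorem lie (hO : IsOpen {x : R | IsUnit x}) (hC : ContinuousOn Ring.inverse {x : R | IsUnit x}) :
    letI := (emb hO hC).singletonChartedSpace
    LieGroup 𝓘(ℝ, R) ∞ Rˣ ∧ ContMDiff 𝓘(ℝ, R) 𝓘(ℝ, R) ∞ (Units.val : Rˣ → R) := by
  letI := (emb hO hC).singletonChartedSpace
  have hv : ContMDiff 𝓘(ℝ, R) 𝓘(ℝ, R) ∞ (Units.val : Rˣ → R) :=
    contMDiff_isOpenEmbedding (emb hO hC)
  have hM : IsManifold 𝓘(ℝ, R) ∞ Rˣ := (emb hO hC).isManifold_singleton
  refine ⟨{ contMDiff_mul := ?_, contMDiff_inv := ?_ }, hv⟩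
  · apply ContMDiff.of_comp_isOpenEmbedding (emb hO hC)
    have : (Units.val : Rˣ → R) ∘ (fun x : Rˣ × Rˣ => x.1 * x.2) =
      (fun x : R × R => x.1 * x.2) ∘ (fun x : Rˣ × Rˣ => (x.1, x.2)) := by ext; simp
    rw [this]
    have : ContMDiff (𝓘(ℝ, R).prod 𝓘(ℝ, R)) 𝓘(ℝ, R × R) ∞
      (fun x : Rˣ × Rˣ => ((x.1 : R), (x.2 : R))) :=
      (hv.comp contMDiff_fst).prodMk_space (hv.comp contMDiff_snd)
    refine ContMDiff.comp ?_ this
    rw [contMDiff_iff_contDiff]
    exact contDiff_mul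
  · apply ContMDiff.of_comp_isOpenEmbedding (emb hO hC)
    have : (Units.val : Rˣ → R) ∘ (fun x : Rˣ => x⁻¹) = Ring.inverse ∘ Units.val := by ext; simp
    rw [this, ContMDiff]
    refine fun x => ContMDiffAt.comp x ?_ (hv x)
    rw [contMDiffAt_iff_contDiffAt]
    exact (inv_smooth hO hC).contDiffAt (hO.mem_nhds x.isUnit)

end gen

lemma step (S : Finset ℝ) (a b : ℝ → ℝ) (r : ℝ)
    (h : ∀ x ∈ Ioo (0 : ℝ) 1, ∑ t ∈ S, (a t + b t * x) * Real.exp (t * x) = 0) :
    ∀ x ∈ Ioo (0 : ℝ) 1,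
      ∑ t ∈ S, ((b t + (t - r) * a t) + ((t - r) * b t) * x) * Real.exp (t * x) = 0 := by
  intro x hx
  have h1 : HasDerivAt (fun x => ∑ t ∈ S, (a t + b t * x) * Real.exp (t * x))
      (∑ t ∈ S, (b t * 1 * Real.exp (t * x) + (a t + b t * x) * (Real.exp (t * x) * (t * 1)))) x :=
    HasDerivAt.fun_sum fun t _ => (((hasDerivAt_id x).const_mul (b t)).const_add (a t)).mul
      ((hasDerivAt_id x).const_mul t).exp
  have h2 : HasDerivAt (fun x => ∑ t ∈ S, (a t + b t * x) * Real.exp (t * x)) 0 x :=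
    (hasDerivAt_const x (0 : ℝ)).congr_of_eventuallyEq
      (by filter_upwards [isOpen_Ioo.mem_nhds hx] with y hy using h y hy)
  have h3 := h1.unique h2
  have h4 := h x hx
  rw [← sub_zero (0 : ℝ), ← mul_zero r]
  nth_rewrite 1 [mul_zero r]
  rw [← h4]
  nth_rewrite 1 [h4]
  rw [← h3, Finset.mul_sum, ← Finset.sum_sub_distrib]
  exact Finset.sum_congr rfl fun t _ => by ring

lemma indep (S : Finset ℝ) : ∀ (a b : ℝ → ℝ),
    (∀ x ∈ Ioo (0 : ℝ) 1, ∑ t ∈ S, (a t + b t * x) * Real.exp (t * x) = 0) →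
    ∀ t ∈ S, a t = 0 ∧ b t = 0 := by
  induction S using Finset.induction_on with
  | empty => simp
  | insert r S hr ih =>
    intro a b h
    have h2 := step _ _ _ r (step _ a b r h)
    have h3 := ih _ _ (fun x hx => by
      have := h2 x hx
      rw [Finset.sum_insert hr] at this
      simpa using this)
    have h4 : ∀ t ∈ S, a t = 0 ∧ b t = 0 := fun t ht => by
      have hne : t - r ≠ 0 := sub_ne_zero.2 fun e => hr (e ▸ ht)
      obtain ⟨c1, c2⟩ := h3 t ht
      have hb : b t = 0 := by simpa [hne] using c2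
      rw [hb] at c1
      exact ⟨by simpa [hne] using c1, hb⟩
    have h5 : ∀ x ∈ Ioo (0 : ℝ) 1, a r + b r * x = 0 := fun x hx => by
      have := h x hx
      rw [Finset.sum_insert hr, Finset.sum_eq_zero (fun t ht => by simp [h4 t ht]), add_zero] at this
      exact (mul_eq_zero.1 this).resolve_right (Real.exp_pos _).ne'
    intro t ht
    rcases Finset.mem_insert.1 ht with rfl | ht
    · have c1 := h5 (1 / 3) ⟨by norm_num, by norm_num⟩
      have c2 := h5 (2 / 3) ⟨by norm_num, by norm_num⟩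
      constructor <;> linarith
    · exact h4 t ht

abbrev B : Type := C(Icc (0 : ℝ) 1, ℝ)

noncomputable def e : Multiplicative ℝ →* B where
  toFun t := ⟨fun x => Real.exp (t.toAdd * x), by fun_prop⟩
  map_one' := by ext x; simp
  map_mul' s t := by ext x; simp [add_mul, Real.exp_add]

lemma e_app (t : Multiplicative ℝ) (x : Icc (0 : ℝ) 1) : e t x = Real.exp (t.toAdd * x) := rfl

noncomputable def P : Subalgebra ℝ B := Algebra.adjoin ℝ (range e)

lemma rep (p : B) (hp : p ∈ P) : ∃ a : ℝ →₀ ℝ, ∀ S : Finset ℝ, a.support ⊆ S →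
    ∀ x : Icc (0 : ℝ) 1, p x = ∑ t ∈ S, a t * Real.exp (t * x) := by
  have h1 : p ∈ Submodule.span ℝ (range fun t : ℝ => e (Multiplicative.ofAdd t)) := by
    have : p ∈ Subalgebra.toSubmodule P := hp
    rw [P, Algebra.adjoin_eq_span] at this
    refine Submodule.span_mono ?_ this
    intro g hg
    have h2 : Submonoid.closure (range e) ≤ MonoidHom.mrange e :=
      Submonoid.closure_le.2 (fun _ h => h)
    obtain ⟨t, rfl⟩ := h2 hg
    exact ⟨t.toAdd, rfl⟩
  obtain ⟨a, rfl⟩ := Finsupp.mem_span_range_iff_exists_finsupp.1 h1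
  refine ⟨a, fun S hS x => ?_⟩
  rw [Finsupp.sum_of_support_subset a hS _ (by simp)]
  simp [e_app]

noncomputable def A : Subalgebra ℝ B where
  carrier := {g | ∃ p ∈ P, ∃ q ∈ P, IsUnit q ∧ g * q = p}
  mul_mem' := by
    rintro g g' ⟨p, hp, q, hq, hu, h⟩ ⟨p', hp', q', hq', hu', h'⟩
    exact ⟨p * p', P.mul_mem hp hp', q * q', P.mul_mem hq hq', hu.mul hu', by rw [← h, ← h']; ring⟩
  add_mem' := by
    rintro g g' ⟨p, hp, q, hq, hu, h⟩ ⟨p', hp', q', hq', hu', h'⟩
    exact ⟨p * q' + p' * q, P.add_mem (P.mul_mem hp hq') (P.mul_mem hp' hq), q * q',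
      P.mul_mem hq hq', hu.mul hu', by rw [← h, ← h']; ring⟩
  algebraMap_mem' r := ⟨_, P.algebraMap_mem r, 1, P.one_mem, isUnit_one, mul_one _⟩

lemma e_mem (t : Multiplicative ℝ) : e t ∈ A :=
  ⟨_, Algebra.subset_adjoin ⟨t, rfl⟩, 1, P.one_mem, isUnit_one, mul_one _⟩

lemma not_mem (g : B) (hg : ∀ x, g x = x) : g ∉ A := by
  rintro ⟨p, hp, q, hq, hu, h⟩
  obtain ⟨a, ha⟩ := rep p hp
  obtain ⟨b, hb⟩ := rep q hq
  have h1 := indep (a.support ∪ b.support) (fun t => -a t) b (fun x hx => by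
    have c1 := ha _ (Finset.subset_union_left (s₂ := b.support)) ⟨x, Ioo_subset_Icc_self hx⟩
    have c2 := hb _ (Finset.subset_union_right (s₁ := a.support)) ⟨x, Ioo_subset_Icc_self hx⟩
    have c3 := congrArg (fun f : B => f ⟨x, Ioo_subset_Icc_self hx⟩) h
    simp only [ContinuousMap.mul_apply, hg, c1, c2, Finset.mul_sum] at c3
    rw [← sub_eq_zero, ← Finset.sum_sub_distrib] at c3
    rw [← c3]
    exact Finset.sum_congr rfl fun t _ => by ring)
  apply (ContinuousMap.isUnit_iff_forall_ne_zero q).1 hu 0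
  rw [hb _ (Finset.subset_union_right (s₁ := a.support))]
  exact Finset.sum_eq_zero fun t ht => by rw [(h1 t ht).2, zero_mul]

lemma unit_iff (g : A) : IsUnit g ↔ IsUnit (g : B) := by
  refine ⟨fun h => h.map A.val, fun h => ?_⟩
  obtain ⟨p, hp, q, hq, hu, hh⟩ := g.2
  have h1 := Ring.mul_inverse_cancel _ h
  have h2 : Ring.inverse (g : B) ∈ A := ⟨q, hq, p, hp, hh ▸ h.mul hu, by
    rw [← hh, ← mul_assoc, mul_comm (Ring.inverse _), h1, one_mul]⟩
  exact IsUnit.of_mul_eq_one ⟨_, h2⟩ (Subtype.ext h1)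

lemma hO : IsOpen {x : A | IsUnit x} := by
  have : {x : A | IsUnit x} = Subtype.val ⁻¹' {x : B | IsUnit x} := Set.ext unit_iff
  rw [this]
  exact Units.isOpen.preimage continuous_subtype_val

lemma hC : ContinuousOn Ring.inverse {x : A | IsUnit x} := by
  rw [Topology.IsInducing.subtypeVal.continuousOn_iff]
  have h1 : ContinuousOn (fun x : A => Ring.inverse (x : B)) {x : A | IsUnit x} := fun x hx => by
    obtain ⟨u, hu⟩ := (unit_iff x).1 hx
    have := NormedRing.inverse_continuousAt u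
    rw [hu] at this
    exact (this.comp continuous_subtype_val.continuousAt).continuousWithinAt
  refine h1.congr fun x hx => ?_
  obtain ⟨u, rfl⟩ := hx
  have := Ring.inverse_unit (Units.map (A.val : A →* B) u)
  simp only [Function.comp, Ring.inverse_unit]
  exact this.symm

noncomputable def γ : Multiplicative ℝ →* Aˣ := (e.codRestrict A e_mem).toHomUnits

lemma γ_val (t : Multiplicative ℝ) : (((γ t : Aˣ) : A) : B) = e t := rfl

lemma γ_cont : Continuous γ := by
  rw [(emb hO hC).isInducing.continuous_iff, Topology.IsInducing.subtypeVal.continuous_iff]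
  apply ContinuousMap.continuous_of_continuous_uncurry
  change Continuous fun z : Multiplicative ℝ × Icc (0 : ℝ) 1 => Real.exp (z.1.toAdd * z.2)
  fun_prop

lemma not_diff : ¬ DifferentiableAt ℝ (fun t : ℝ => ((γ (Multiplicative.ofAdd t) : Aˣ) : A)) 0 := by
  intro h
  obtain ⟨y, hy⟩ : ∃ y, HasDerivAt (fun t : ℝ => ((γ (Multiplicative.ofAdd t) : Aˣ) : A)) y 0 :=
    ⟨_, h.hasDerivAt⟩
  refine not_mem (y : B) (fun x => ?_) y.2
  let l : A →L[ℝ] ℝ := (ContinuousMap.evalCLM ℝ x).comp (Subalgebra.toSubmodule A).subtypeL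
  have h1 : HasDerivAt (fun t : ℝ => Real.exp (t * x)) (l y) 0 := l.hasFDerivAt.comp_hasDerivAt 0 hy
  have h2 : HasDerivAt (fun t : ℝ => Real.exp (t * x)) (Real.exp (0 * x) * (1 * x)) 0 :=
    ((hasDerivAt_id (0 : ℝ)).mul_const (x : ℝ)).exp
  have := h1.unique h2
  rw [zero_mul, Real.exp_zero, one_mul, one_mul] at this
  exact this

end Pool.Agent.H48.MilA
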