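import Mathlib

set_option autoImplicit false

namespace Pool.Agent.H48.Mono

open Polynomial IntermediateField

lemma not_int_half : ¬ IsIntegral ℤ (1 / 2 : ℂ) := by
  intro h
  have e : (1 / 2 : ℂ) = algebraMap ℚ ℂ (1 / 2) := by simp
  rw [e, isIntegral_algebraMap_iff (algebraMap ℚ ℂ).injective,
    IsIntegrallyClosed.isIntegral_iff] at h
  obtain ⟨y, hy⟩ := h
  have : (2 : ℚ) * y = 1 := by
    have : (y : ℚ) = 1 / 2 := by simpa using hy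
    rw [this]; norm_num
  have : 2 * y = 1 := by exact_mod_cast this
  omega

lemma int_of_pow {ζ : ℂ} {d : ℕ} (hd : 0 < d) (h : ζ ^ d = 1) : IsIntegral ℤ ζ :=
  IsIntegral.of_pow hd (by rw [h]; exact isIntegral_one)

lemma int_inv_of_pow {ζ : ℂ} {d : ℕ} (hd : 0 < d) (h : ζ ^ d = 1) : IsIntegral ℤ ζ⁻¹ :=
  int_of_pow hd (by rw [inv_pow, h, inv_one])

lemma even_mem (ζ : ℂ) (h0 : ζ ≠ 0) (k : ℕ) :
    ζ ^ (2 * k) + ζ⁻¹ ^ (2 * k) ∈ Algebra.adjoin ℤ {ζ - ζ⁻¹} := by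
  set A := Algebra.adjoin ℤ {ζ - ζ⁻¹} with hA
  have hθ : ζ - ζ⁻¹ ∈ A := Algebra.subset_adjoin rfl
  have h2 : (2 : ℂ) ∈ A := by
    have := A.add_mem A.one_mem A.one_mem
    rwa [one_add_one_eq_two] at this
  have key : ∀ k : ℕ, ζ ^ (2 * k) + ζ⁻¹ ^ (2 * k) ∈ A ∧
      ζ ^ (2 * (k + 1)) + ζ⁻¹ ^ (2 * (k + 1)) ∈ A := by
    intro k
    induction k with
    | zero =>
      refine ⟨by simp [one_add_one_eq_two], ?_⟩
      have e : ζ ^ (2 * (0 + 1)) + ζ⁻¹ ^ (2 * (0 + 1)) = (ζ - ζ⁻¹) ^ 2 + 2 := by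
        have h1 : ζ * ζ⁻¹ = 1 := mul_inv_cancel₀ h0
        generalize ζ⁻¹ = η at h1 ⊢
        linear_combination 2 * h1
      rw [e]
      exact A.add_mem (A.pow_mem hθ 2) h2
    | succ k ih =>
      refine ⟨ih.2, ?_⟩
      have e : ζ ^ (2 * (k + 1 + 1)) + ζ⁻¹ ^ (2 * (k + 1 + 1)) =
          ((ζ - ζ⁻¹) ^ 2 + 2) * (ζ ^ (2 * (k + 1)) + ζ⁻¹ ^ (2 * (k + 1))) -
            (ζ ^ (2 * k) + ζ⁻¹ ^ (2 * k)) := by
        have h1 : ζ * ζ⁻¹ = 1 := mul_inv_cancel₀ h0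
        generalize ζ⁻¹ = η at h1 ⊢
        linear_combination (ζ ^ (2 * k) * (-(ζ * η + 1) + 2 * ζ ^ 2) +
          η ^ (2 * k) * (-(ζ * η + 1) + 2 * η ^ 2)) * h1
      rw [e]
      exact A.sub_mem (A.mul_mem (A.add_mem (A.pow_mem hθ 2) h2) ih.2) ih.1
  exact (key k).1

/-- For a nontrivial root of unity of odd order, `ℤ[ζ - ζ⁻¹]` misses the integer `ζ` of its
fraction field. -/
theorem nonmono {ζ : ℂ} {d : ℕ} (hd : Odd d) (h : ζ ^ d = 1) (h1 : ζ ≠ 1) :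
    ζ ∈ ℚ⟮ζ - ζ⁻¹⟯ ∧ IsIntegral ℤ ζ ∧ ζ ∉ Algebra.adjoin ℤ {ζ - ζ⁻¹} := by
  have hd0 : 0 < d := hd.pos
  have h0 : ζ ≠ 0 := by
    rintro rfl
    rw [zero_pow hd0.ne'] at h
    exact zero_ne_one h
  obtain ⟨k, hk⟩ := hd
  have hθ0 : ζ - ζ⁻¹ ≠ 0 := by
    intro hh
    apply h1
    have h2 : ζ ^ 2 = 1 := by
      have : ζ = ζ⁻¹ := by linear_combination hh
      calc ζ ^ 2 = ζ * ζ := by ring
        _ = ζ * ζ⁻¹ := by rw [← this]
        _ = 1 := mul_inv_cancel₀ h0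
    rw [hk, pow_succ, pow_mul, h2, one_pow, one_mul] at h
    exact h
  have hi := int_of_pow hd0 h
  have hi' := int_inv_of_pow hd0 h
  refine ⟨?_, hi, ?_⟩
  · have hm := even_mem ζ h0 (k + 1)
    have e1 : ζ ^ (2 * (k + 1)) = ζ := by
      rw [show 2 * (k + 1) = d + 1 by omega, pow_succ, h, one_mul]
    have e2 : ζ⁻¹ ^ (2 * (k + 1)) = ζ⁻¹ := by rw [inv_pow, e1]
    rw [e1, e2] at hm
    have hle : Algebra.adjoin ℤ {ζ - ζ⁻¹} ≤ (ℚ⟮ζ - ζ⁻¹⟯.toSubalgebra.restrictScalars ℤ) := by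
      rw [Algebra.adjoin_le_iff]
      rintro x rfl
      exact mem_adjoin_simple_self ℚ _
    have hm' : ζ + ζ⁻¹ ∈ ℚ⟮ζ - ζ⁻¹⟯ := hle hm
    have hθ : ζ - ζ⁻¹ ∈ ℚ⟮ζ - ζ⁻¹⟯ := mem_adjoin_simple_self ℚ _
    have e : ζ = ((ζ + ζ⁻¹) + (ζ - ζ⁻¹)) / 2 := by ring
    have : ((ζ + ζ⁻¹) + (ζ - ζ⁻¹)) / 2 ∈ ℚ⟮ζ - ζ⁻¹⟯ :=
      div_mem (add_mem hm' hθ) (ofNat_mem _ 2)
    rwa [← e] at this
  · intro hmem
    have hn : ‖ζ‖ = 1 := Complex.norm_eq_one_of_pow_eq_one h hd0.ne'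
    have hc : (starRingEnd ℂ) ζ = ζ⁻¹ := (Complex.inv_eq_conj hn).symm
    have hcθ : (starRingEnd ℂ) (ζ - ζ⁻¹) = -(ζ - ζ⁻¹) := by
      rw [map_sub, map_inv₀, hc, inv_inv]; ring
    have hθi : IsIntegral ℤ (ζ - ζ⁻¹) := hi.sub hi'
    have key : ∀ x ∈ Algebra.adjoin ℤ {ζ - ζ⁻¹}, IsIntegral ℤ x ∧
        IsIntegral ℤ ((starRingEnd ℂ) x) ∧
        ∃ u : ℂ, IsIntegral ℤ u ∧ x - (starRingEnd ℂ) x = 2 * (ζ - ζ⁻¹) * u := by
      intro x hx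
      induction hx using Algebra.adjoin_induction with
      | mem x hx =>
        rw [Set.mem_singleton_iff] at hx
        subst hx
        refine ⟨hθi, by rw [hcθ]; exact hθi.neg, 1, isIntegral_one, ?_⟩
        rw [hcθ]; ring
      | algebraMap r =>
        refine ⟨isIntegral_algebraMap, ?_, 0, isIntegral_zero, by simp⟩
        have : (starRingEnd ℂ) (algebraMap ℤ ℂ r) = algebraMap ℤ ℂ r := by simp
        rw [this]
        exact isIntegral_algebraMap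
      | add x y _ _ hx hy =>
        obtain ⟨a1, a2, u, hu, eu⟩ := hx
        obtain ⟨b1, b2, v, hv, ev⟩ := hy
        refine ⟨a1.add b1, by rw [map_add]; exact a2.add b2, u + v, hu.add hv, ?_⟩
        rw [map_add]
        linear_combination eu + ev
      | mul x y _ _ hx hy =>
        obtain ⟨a1, a2, u, hu, eu⟩ := hx
        obtain ⟨b1, b2, v, hv, ev⟩ := hy
        refine ⟨a1.mul b1, by rw [map_mul]; exact a2.mul b2, x * v + u * (starRingEnd ℂ) y,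
          (a1.mul hv).add (hu.mul b2), ?_⟩
        rw [map_mul]
        linear_combination x * ev + (starRingEnd ℂ) y * eu
    obtain ⟨-, -, u, hu, eu⟩ := key ζ hmem
    rw [hc] at eu
    have : u = 1 / 2 := by
      have : (ζ - ζ⁻¹) * (2 * u - 1) = 0 := by linear_combination -eu
      rcases mul_eq_zero.mp this with h3 | h3
      · exact absurd h3 hθ0
      · linear_combination h3 / 2
    rw [this] at hu
    exact not_int_half hu

/-- the case `θ = 0`. -/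
theorem mono_zero {x : ℂ} (hx : x ∈ ℚ⟮(0 : ℂ)⟯) (hi : IsIntegral ℤ x) :
    x ∈ Algebra.adjoin ℤ {(0 : ℂ)} := by
  rw [adjoin_zero, IntermediateField.mem_bot] at hx
  obtain ⟨q, rfl⟩ := hx
  rw [isIntegral_algebraMap_iff (algebraMap ℚ ℂ).injective,
    IsIntegrallyClosed.isIntegral_iff] at hi
  obtain ⟨y, rfl⟩ := hi
  rw [← IsScalarTower.algebraMap_apply]
  exact Subalgebra.algebraMap_mem _ y

/-- For `η` of order `2 ^ (m + 2)` with `η ^ 2 ≠ -1`, `ℤ[η - η⁻¹]` is integrally closed. -/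
theorem mono_pow {η : ℂ} {m : ℕ} (h1 : η ^ 2 ^ (m + 2) = 1) (h2 : ¬ η ^ 2 ^ (m + 1) = 1)
    (h3 : η ^ 2 ≠ -1) {x : ℂ} (hx : x ∈ ℚ⟮η - η⁻¹⟯) (hi : IsIntegral ℤ x) :
    x ∈ Algebra.adjoin ℤ {η - η⁻¹} := by
  have : Fact (Nat.Prime 2) := ⟨Nat.prime_two⟩
  set N := 2 ^ (m + 2) with hN
  have hN0 : 0 < N := by positivity
  have : NeZero N := ⟨hN0.ne'⟩
  have h0 : η ≠ 0 := by
    rintro rfl
    rw [zero_pow hN0.ne'] at h1
    exact zero_ne_one h1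
  have hp : IsPrimitiveRoot η N := by
    have := IsPrimitiveRoot.orderOf η
    rwa [orderOf_eq_prime_pow h2 h1] at this
  have hev : ∀ j : ℕ, (-η⁻¹) ^ 2 ^ (j + 1) = (η ^ 2 ^ (j + 1))⁻¹ := by
    intro j
    rw [Even.neg_pow ⟨2 ^ j, by ring⟩, inv_pow]
  have hp' : IsPrimitiveRoot (-η⁻¹) N := by
    have := IsPrimitiveRoot.orderOf (-η⁻¹)
    rwa [orderOf_eq_prime_pow (n := m + 1) (by rw [hev, inv_eq_one]; exact h2)
      (by rw [hev, inv_eq_one]; exact h1)] at this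
  have hi1 := int_of_pow hN0 h1
  have hi2 := int_inv_of_pow hN0 h1
  have hθi : IsIntegral ℤ (η - η⁻¹) := hi1.sub hi2
  have hinv : ∀ y : ℂ, y ^ N = 1 → y ^ (N - 1) = y⁻¹ := by
    intro y hy
    have : y * y ^ (N - 1) = 1 := by
      rw [← pow_succ', Nat.sub_add_cancel hN0, hy]
    exact eq_inv_of_mul_eq_one_right this
  -- `η` is not in `ℚ(θ)`
  have hnot : η ∉ ℚ⟮η - η⁻¹⟯ := by
    intro hmem
    have hmem' : η ∈ ℚ⟮η - η⁻¹⟯.toSubalgebra := hmem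
    rw [adjoin_simple_toSubalgebra_of_isAlgebraic (hθi.tower_top (A := ℚ)).isAlgebraic,
      Algebra.adjoin_singleton_eq_range_aeval] at hmem'
    obtain ⟨g, hg⟩ := hmem'
    have hg' : aeval (η - η⁻¹) g = η := hg
    set G : ℚ[X] := X - g.comp (X - X ^ (N - 1)) with hG
    have hGe : ∀ y : ℂ, y ^ N = 1 → aeval y G = y - aeval (y - y⁻¹) g := by
      intro y hy
      simp [hG, aeval_comp, hinv y hy]
    have a1 : aeval η G = 0 := by rw [hGe η h1, hg', sub_self]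
    have a2 : minpoly ℚ (-η⁻¹) ∣ G := by
      rw [← cyclotomic_eq_minpoly_rat hp' hN0, cyclotomic_eq_minpoly_rat hp hN0]
      exact minpoly.dvd ℚ η a1
    have a3 : aeval (-η⁻¹) G = 0 := aeval_eq_zero_of_dvd_aeval_eq_zero a2 (minpoly.aeval ℚ _)
    rw [hGe _ hp'.pow_eq_one] at a3
    have e : -η⁻¹ - (-η⁻¹)⁻¹ = η - η⁻¹ := by rw [inv_neg, inv_inv]; ring
    rw [e, hg'] at a3
    apply h3
    have h4 : η * η⁻¹ = 1 := mul_inv_cancel₀ h0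
    linear_combination -η * a3 - h4
  -- `x` lies in `ℤ[η]`
  have hle : ℚ⟮η - η⁻¹⟯ ≤ ℚ⟮η⟯ := by
    rw [adjoin_simple_le_iff]
    exact sub_mem (mem_adjoin_simple_self ℚ η) (inv_mem (mem_adjoin_simple_self ℚ η))
  have hcyc : IsCyclotomicExtension {N} ℚ ℚ⟮η⟯ :=
    (IntermediateField.isCyclotomicExtension_singleton_iff_eq_adjoin (F := ℚ⟮η⟯) (hζ := hp)).mpr rfl
  have hpK : IsPrimitiveRoot (⟨η, mem_adjoin_simple_self ℚ η⟩ : ℚ⟮η⟯) N :=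
    IsPrimitiveRoot.coe_submonoidClass_iff.mp hp
  have hxK : IsIntegral ℤ (⟨x, hle hx⟩ : ℚ⟮η⟯) :=
    (isIntegral_algHom_iff ((ℚ⟮η⟯.val).restrictScalars ℤ) Subtype.val_injective).mp hi
  obtain ⟨y, hy⟩ :=
    (IsCyclotomicExtension.Rat.isIntegralClosure_adjoin_singleton hpK).isIntegral_iff.mp hxK
  have hxη : x ∈ Algebra.adjoin ℤ {η} := by
    have h5 : (ℚ⟮η⟯.val.restrictScalars ℤ) (y : ℚ⟮η⟯) ∈
        (Algebra.adjoin ℤ {(⟨η, mem_adjoin_simple_self ℚ η⟩ : ℚ⟮η⟯)}).map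
          (ℚ⟮η⟯.val.restrictScalars ℤ) := Subalgebra.mem_map.mpr ⟨y, y.2, rfl⟩
    rw [AlgHom.map_adjoin_singleton] at h5
    have h6 : (y : ℚ⟮η⟯) = ⟨x, hle hx⟩ := hy
    rw [h6] at h5
    exact h5
  set A := Algebra.adjoin ℤ {η - η⁻¹} with hA
  have hθ : η - η⁻¹ ∈ A := Algebra.subset_adjoin rfl
  have key : ∀ z ∈ Algebra.adjoin ℤ {η}, ∃ a ∈ A, ∃ b ∈ A, z = a + b * η := by
    intro z hz
    induction hz using Algebra.adjoin_induction with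
    | mem z hz =>
      rw [Set.mem_singleton_iff] at hz
      exact ⟨0, A.zero_mem, 1, A.one_mem, by rw [hz]; ring⟩
    | algebraMap r => exact ⟨_, A.algebraMap_mem r, 0, A.zero_mem, by ring⟩
    | add z w _ _ hz hw =>
      obtain ⟨a, ha, b, hb, rfl⟩ := hz
      obtain ⟨c, hc, d, hd, rfl⟩ := hw
      exact ⟨a + c, A.add_mem ha hc, b + d, A.add_mem hb hd, by ring⟩
    | mul z w _ _ hz hw =>
      obtain ⟨a, ha, b, hb, rfl⟩ := hz
      obtain ⟨c, hc, d, hd, rfl⟩ := hw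
      refine ⟨a * c + b * d, A.add_mem (A.mul_mem ha hc) (A.mul_mem hb hd),
        a * d + b * c + b * d * (η - η⁻¹),
        A.add_mem (A.add_mem (A.mul_mem ha hd) (A.mul_mem hb hc))
          (A.mul_mem (A.mul_mem hb hd) hθ), ?_⟩
      have h4 : η * η⁻¹ = 1 := mul_inv_cancel₀ h0
      linear_combination b * d * h4
  obtain ⟨a, ha, b, hb, e⟩ := key x hxη
  have hAle : A ≤ (ℚ⟮η - η⁻¹⟯.toSubalgebra.restrictScalars ℤ) := by
    rw [hA, Algebra.adjoin_le_iff]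
    rintro x rfl
    exact mem_adjoin_simple_self ℚ _
  by_cases hb0 : b = 0
  · rw [e, hb0, zero_mul, add_zero]; exact ha
  · exfalso
    apply hnot
    have ha' : a ∈ ℚ⟮η - η⁻¹⟯ := hAle ha
    have hb' : b ∈ ℚ⟮η - η⁻¹⟯ := hAle hb
    have : (x - a) / b ∈ ℚ⟮η - η⁻¹⟯ := div_mem (sub_mem hx ha') hb'
    have e2 : (x - a) / b = η := by
      rw [e]; field_simp; ring
    rwa [e2] at this

/-- `ℤ[θ]` consists of integers of `ℚ(θ)` when `θ` is integral. -/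
theorem easy {θ : ℂ} (hθ : IsIntegral ℤ θ) {x : ℂ} (hx : x ∈ Algebra.adjoin ℤ {θ}) :
    x ∈ ℚ⟮θ⟯ ∧ IsIntegral ℤ x := by
  constructor
  · have hle : Algebra.adjoin ℤ {θ} ≤ (ℚ⟮θ⟯.toSubalgebra.restrictScalars ℤ) := by
      rw [Algebra.adjoin_le_iff]
      rintro x rfl
      exact mem_adjoin_simple_self ℚ _
    exact hle hx
  · exact adjoin_le_integralClosure hθ hx

theorem minpoly_facts {θ : ℂ} (hθ : IsIntegral ℤ θ) :
    (minpoly ℤ θ).Monic ∧ Irreducible ((minpoly ℤ θ).map (Int.castRingHom ℚ)) ∧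
      aeval θ (minpoly ℤ θ) = 0 := by
  refine ⟨minpoly.monic hθ, ?_, minpoly.aeval ℤ θ⟩
  have := minpoly.isIntegrallyClosed_eq_field_fractions' ℚ hθ
  rw [show Int.castRingHom ℚ = algebraMap ℤ ℚ from rfl, ← this]
  exact minpoly.irreducible (hθ.tower_top (A := ℚ))

end Pool.Agent.H48.Mono
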