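import Mathlib

set_option autoImplicit false

namespace Pool.Agent.H48.MxA

open NormedSpace Filter Topology

/-- A family of entire functions with `u c = -t * u (s c)` vanishes. -/
theorem vanish {ι : Type*} (u : ι → ℂ → ℂ) (s : ι → ι) (hu : ∀ c, Differentiable ℂ (u c))
    (h : ∀ c t, u c t = -t * u (s c) t) (c : ι) (t : ℂ) : u c t = 0 := by
  have han : ∀ c, AnalyticOnNhd ℂ (u c) Set.univ := fun c =>
    (hu c).differentiableOn.analyticOnNhd isOpen_univ
  have key : ∀ n : ℕ, ∀ c, (n : ℕ∞) ≤ analyticOrderAt (u c) 0 := by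
    intro n
    induction n with
    | zero => intro c; simp
    | succ n ih =>
      intro c
      have e : u c = (id : ℂ → ℂ) * (-(u (s c))) := by
        funext t; simp [h c t]
      have a1 : AnalyticAt ℂ (id : ℂ → ℂ) 0 := analyticAt_id
      have a2 : AnalyticAt ℂ (-(u (s c))) 0 := (han (s c) 0 trivial).neg
      rw [e, analyticOrderAt_mul a1 a2, analyticOrderAt_id, analyticOrderAt_neg]
      push_cast
      rw [add_comm]
      exact add_le_add le_rfl (ih (s c))
  have ht : analyticOrderAt (u c) 0 = ⊤ := ENat.eq_top_iff_forall_ge.2 (fun n => key n c)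
  rw [analyticOrderAt_eq_top] at ht
  have : u c = fun _ => 0 := (han c).eq_of_eventuallyEq analyticOnNhd_const ht
  rw [this]

theorem wronsk (r q r' q' : ℂ → ℂ) (hr : ∀ t, HasDerivAt r (r' t) t)
    (hq : ∀ t, HasDerivAt q (q' t) t) (h : ∀ t, r' t * q t - r t * q' t = 0)
    (r0 : r 0 = 0) (q0 : q 0 ≠ 0) (t : ℂ) : r t = 0 := by
  have hrd : Differentiable ℂ r := fun t => (hr t).differentiableAt
  have hqd : Differentiable ℂ q := fun t => (hq t).differentiableAt
  have hev : ∀ᶠ z in 𝓝 (0 : ℂ), q z ≠ 0 := hqd.continuous.continuousAt.eventually_ne q0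
  obtain ⟨ε, hε, hb⟩ := Metric.eventually_nhds_iff_ball.1 hev
  have hd : ∀ z ∈ Metric.ball (0 : ℂ) ε, HasDerivAt (fun z => r z / q z) 0 z := by
    intro z hz
    have := (hr z).div (hq z) (hb z hz)
    rw [h z, zero_div] at this
    exact this
  have hc : ∀ z ∈ Metric.ball (0 : ℂ) ε, r z / q z = r 0 / q 0 := by
    intro z hz
    exact Metric.isOpen_ball.is_const_of_deriv_eq_zero (f := fun z => r z / q z)
      (convex_ball (0 : ℂ) ε).isPreconnected
      (fun z hz => (hd z hz).differentiableAt.differentiableWithinAt)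
      (fun z hz => (hd z hz).deriv) hz (Metric.mem_ball_self hε)
  have hz : ∀ᶠ z in 𝓝 (0 : ℂ), r z = 0 := by
    filter_upwards [Metric.ball_mem_nhds (0 : ℂ) hε] with z hz
    have := hc z hz
    rw [r0, zero_div, div_eq_zero_iff] at this
    exact this.resolve_right (hb z hz)
  have han : AnalyticOnNhd ℂ r Set.univ := hrd.differentiableOn.analyticOnNhd isOpen_univ
  have : r = fun _ => 0 := han.eq_of_eventuallyEq analyticOnNhd_const hz
  rw [this]

section Banach
variable {B : Type*} [NormedRing B] [NormedAlgebra ℂ B] [CompleteSpace B]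

theorem exp_add_comm' {x y : B} (h : Commute x y) : exp (x + y) = exp x * exp y := by
  let _ : NormedAlgebra ℚ B := NormedAlgebra.restrictScalars ℚ ℂ B
  exact exp_add_of_commute h

theorem exp_cont : Continuous (exp : B → B) :=
  continuous_iff_continuousAt.2 fun x => (exp_analytic (𝕂 := ℂ) x).continuousAt

theorem conj_exp (X Y0 Y1 Y2 : B) (h0 : Y0 * X - X * Y0 = Y1) (h1 : Y1 * X - X * Y1 = Y2)
    (h2 : Y2 * X - X * Y2 = 0) :
    Y0 * exp X = exp X * (Y0 + Y1 + (1 / 2 : ℂ) • Y2) := by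
  let K : ℂ → B := fun t =>
    exp (t • X) * (Y0 + t • Y1 + (t ^ 2 / 2) • Y2) * exp (t • (-X))
  have hK : ∀ t, HasDerivAt K 0 t := by
    intro t
    have a1 := hasDerivAt_exp_smul_const (𝕂 := ℂ) X t
    have a3 := hasDerivAt_exp_smul_const' (𝕂 := ℂ) (-X) t
    have a2 : HasDerivAt (fun t : ℂ => Y0 + t • Y1 + (t ^ 2 / 2) • Y2) (Y1 + t • Y2) t := by
      have b1 : HasDerivAt (fun t : ℂ => t • Y1) Y1 t := by
        simpa using (hasDerivAt_id t).smul_const Y1
      have b2 : HasDerivAt (fun t : ℂ => (t ^ 2 / 2) • Y2) (t • Y2) t := by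
        have : HasDerivAt (fun t : ℂ => t ^ 2 / 2) t t := by
          have := (hasDerivAt_pow 2 t).div_const 2
          simpa using this
        exact this.smul_const Y2
      have := ((hasDerivAt_const t Y0).add b1).add b2
      rw [zero_add] at this
      exact this
    have := (a1.mul a2).mul a3
    have e : (exp (t • X) * X * (Y0 + t • Y1 + (t ^ 2 / 2) • Y2) + exp (t • X) * (Y1 + t • Y2)) *
        exp (t • -X) + (exp (t • X) * (Y0 + t • Y1 + (t ^ 2 / 2) • Y2)) * (-X * exp (t • -X))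
        = 0 := by
      have : (exp (t • X) * X * (Y0 + t • Y1 + (t ^ 2 / 2) • Y2) + exp (t • X) * (Y1 + t • Y2)) *
        exp (t • -X) + (exp (t • X) * (Y0 + t • Y1 + (t ^ 2 / 2) • Y2)) * (-X * exp (t • -X))
        = exp (t • X) * ((Y1 - (Y0 * X - X * Y0)) + t • (Y2 - (Y1 * X - X * Y1))
          - (t ^ 2 / 2) • (Y2 * X - X * Y2)) * exp (t • -X) := by
        simp only [mul_add, add_mul, mul_sub, sub_mul, smul_sub, mul_smul_comm, smul_mul_assoc,
          mul_assoc, neg_mul, mul_neg, smul_neg]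
        abel
      rw [this, h0, h1, h2]; simp
    rw [← e]
    exact this
  have hc := is_const_of_deriv_eq_zero (fun t => (hK t).differentiableAt)
    (fun t => (hK t).deriv) (1 : ℂ) 0
  have hc' : exp X * (Y0 + Y1 + (1 / 2 : ℂ) • Y2) * exp (-X) = Y0 := by
    simpa [K] using hc
  have hi : exp (-X) * exp X = 1 := by
    rw [← exp_add_comm' (Commute.refl X).neg_left]; simp
  calc Y0 * exp X = exp X * (Y0 + Y1 + (1 / 2 : ℂ) • Y2) * exp (-X) * exp X := by rw [hc']
    _ = _ := by rw [mul_assoc, hi, mul_one]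

theorem hasDerivAt_exp_comm (c : ℂ → B) (c' : B) (t : ℂ) (hc : HasDerivAt c c' t)
    (hcomm : ∀ s, Commute (c t) (c s)) :
    HasDerivAt (fun s => exp (c s)) (exp (c t) * c') t := by
  have e : (fun s => exp (c s)) = fun s => exp (c t) * exp (c s - c t) := by
    funext s
    rw [← exp_add_comm' ((hcomm s).sub_right (Commute.refl _))]
    simp
  have h1 : HasDerivAt (fun s => c s - c t) c' t := hc.sub_const _
  have h2 : HasFDerivAt exp (1 : B →L[ℂ] B) (c t - c t) := by
    rw [sub_self]; exact hasFDerivAt_exp_zero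
  have h3 := h2.comp_hasDerivAt t h1
  rw [e]
  simpa using h3.const_mul (exp (c t))

theorem series_deriv {V : Type*} [NormedAddCommGroup V] [NormedSpace ℂ V] [CompleteSpace V]
    (c : ℕ → V) (S : ℂ → V) (hS : ∀ t : ℂ, HasSum (fun n => t ^ (n + 1) • c n) (S t))
    (t : ℂ) (D : V) (hD : HasSum (fun n : ℕ => (((n : ℂ) + 1) * t ^ n) • c n) D) :
    HasDerivAt S D t := by
  set R : ℝ := ‖t‖ + 1 with hR
  have hRpos : 0 < R := by positivity
  have hb : ∃ M, ∀ n, ‖((2 * R : ℝ) : ℂ) ^ (n + 1) • c n‖ ≤ M := by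
    have := (hS ((2 * R : ℝ) : ℂ)).summable.tendsto_atTop_zero.norm
    obtain ⟨M, hM⟩ := this.bddAbove_range
    exact ⟨M, fun n => hM ⟨n, rfl⟩⟩
  obtain ⟨M, hM⟩ := hb
  have hu : Summable fun n : ℕ => (M / (2 * R)) * ((n : ℝ) * (1 / 2 : ℝ) ^ n + (1 / 2 : ℝ) ^ n) := by
    refine Summable.mul_left _ (Summable.add ?_ summable_geometric_two)
    have := summable_pow_mul_geometric_of_norm_lt_one (R := ℝ) 1 (r := 1 / 2) (by norm_num)
    simpa using this
  have key := hasDerivAt_tsum_of_isPreconnected (g := fun n (z : ℂ) => z ^ (n + 1) • c n)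
    (g' := fun n (z : ℂ) => (((n : ℂ) + 1) * z ^ n) • c n) (t := Metric.ball (0 : ℂ) R)
    (y₀ := 0) (y := t) hu Metric.isOpen_ball (convex_ball (0 : ℂ) R).isPreconnected
    (fun n y _ => by
      have := (hasDerivAt_pow (n + 1) y).smul_const (c n)
      simpa using this)
    (fun n y hy => by
      have hy' : ‖y‖ ≤ R := by simpa using (le_of_lt (Metric.mem_ball.1 hy))
      have h1 := hM n
      rw [norm_smul, norm_pow, Complex.norm_real, Real.norm_of_nonneg (by positivity)] at h1
      have h2 : ‖c n‖ ≤ M / (2 * R) ^ (n + 1) := by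
        rw [le_div_iff₀ (by positivity)]; linarith
      have h3 : ‖((n : ℂ) + 1)‖ = (n : ℝ) + 1 := by
        have : ((n : ℂ) + 1) = (((n : ℝ) + 1 : ℝ) : ℂ) := by push_cast; rfl
        rw [this, Complex.norm_real, Real.norm_of_nonneg (by positivity)]
      rw [norm_smul, norm_mul, norm_pow, h3]
      have h4 : ‖y‖ ^ n ≤ R ^ n := pow_le_pow_left₀ (norm_nonneg _) hy' n
      calc ((n : ℝ) + 1) * ‖y‖ ^ n * ‖c n‖ ≤ ((n : ℝ) + 1) * R ^ n * (M / (2 * R) ^ (n + 1)) := by
            gcongr
        _ = _ := by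
            rw [mul_pow, pow_succ, pow_succ, one_div, inv_pow]; field_simp)
    (Metric.mem_ball_self hRpos) (hS 0).summable (by simp [hR])
  have e : S = fun z => ∑' n, z ^ (n + 1) • c n := funext fun z => (hS z).tsum_eq.symm
  rw [hD.tsum_eq] at key
  rw [e]
  exact key

end Banach

end Pool.Agent.H48.MxA
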