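import Mathlib
import Pool.Agent.H48.MxA

set_option autoImplicit false

namespace Pool.Agent.H48.MxB

open NormedSpace Filter Topology Pool.Agent.H48.MxA

structure Rep (A B : Type*) [NonUnitalCommRing A] [Module ℂ A]
    [NormedRing B] [NormedAlgebra ℂ B] where
  E : A →ₗ[ℂ] B
  F : A →ₗ[ℂ] B
  H : A →ₗ[ℂ] B
  lam : A →ₗ[ℂ] ℂ
  φ : B →L[ℂ] ℂ
  he : ∀ a b, H a * E b - E b * H a = E (a * b) + E (a * b)
  hf : ∀ a b, H a * F b - F b * H a = -(F (a * b) + F (a * b))
  ef : ∀ a b, E a * F b - F b * E a = H (a * b)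
  hh : ∀ a b, H a * H b - H b * H a = 0
  ee : ∀ a b, E a * E b - E b * E a = 0
  ff : ∀ a b, F a * F b - F b * F a = 0
  φ1 : φ 1 = 1
  φE : ∀ T a, φ (T * E a) = 0
  φF : ∀ T a, φ (F a * T) = 0
  φH : ∀ T a, φ (T * H a) = lam a * φ T

variable {A B : Type*} [NonUnitalCommRing A] [Module ℂ A]
  [NormedRing B] [NormedAlgebra ℂ B] (R : Rep A B)

namespace Rep

noncomputable def N : A →ₗ[ℂ] B := R.H + R.E - R.F

theorem N_apply (a : A) : R.N a = R.H a + R.E a - R.F a := rfl

theorem brNN (a b : A) : R.N a * R.N b - R.N b * R.N a = 0 := by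
  have h1 := R.he a b
  have h2 := R.hf a b
  have h3 := R.he b a
  have h4 := R.ef a b
  have h5 := R.hf b a
  have h6 := R.ef b a
  have h7 := R.hh a b
  have h8 := R.ee a b
  have h9 := R.ff a b
  rw [mul_comm b a] at h3 h5 h6
  simp only [N_apply]
  linear_combination (norm := noncomm_ring) h1 - h2 - h3 - h4 + h5 + h6 + h7 + h8 + h9

theorem commN (a b : A) : Commute (R.N a) (R.N b) := sub_eq_zero.1 (R.brNN a b)

theorem brFN (c a : A) :
    R.F c * R.N a - R.N a * R.F c = R.F (a * c) + R.F (a * c) - R.H (a * c) := by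
  have h1 := R.hf a c
  have h2 := R.ef a c
  have h3 := R.ff a c
  simp only [N_apply]
  linear_combination (norm := noncomm_ring) -h1 - h2 + h3

theorem brHN (c a : A) :
    R.H c * R.N a - R.N a * R.H c
      = R.E (a * c) + R.E (a * c) + (R.F (a * c) + R.F (a * c)) := by
  have h1 := R.he c a
  have h2 := R.hf c a
  have h3 := R.hh c a
  rw [mul_comm c a] at h1 h2
  simp only [N_apply]
  linear_combination (norm := noncomm_ring) h1 - h2 + h3

noncomputable def Φ (a : A) : ℂ := R.φ (exp (R.N a))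
noncomputable def D (a b : A) : ℂ := R.φ (exp (R.N a) * R.N b)

theorem D_add (a b c : A) : R.D a (b + c) = R.D a b + R.D a c := by
  simp [D, mul_add]

theorem D_smul (a b : A) (t : ℂ) : R.D a (t • b) = t * R.D a b := by
  simp [D]

theorem Φ_zero : R.Φ 0 = 1 := by simp [Φ, R.φ1]

variable [CompleteSpace B]

theorem claim1 (a c : A) :
    R.D a ((c + a * c) + a * (c + a * c)) = R.lam (c + a * c) * R.Φ a := by
  have hc := conj_exp (R.N a) (R.F c) (R.F (a * c) + R.F (a * c) - R.H (a * c))
    (-(R.N (a * (a * c)) + R.N (a * (a * c)))) (R.brFN c a)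
    (by
      have h1 := R.brFN (a * c) a
      have h2 := R.brHN (a * c) a
      rw [R.N_apply (a * (a * c))]
      linear_combination (norm := noncomm_ring) h1 + h1 - h2)
    (by
      have h1 := R.brNN (a * (a * c)) a
      linear_combination (norm := noncomm_ring) -h1 - h1)
  have e0 : (1 / 2 : ℂ) • (-(R.N (a * (a * c)) + R.N (a * (a * c)))) = -R.N (a * (a * c)) := by
    rw [← two_smul ℂ, smul_neg, smul_smul]; norm_num
  rw [e0] at hc
  have h0 : R.φ (exp (R.N a) * (R.F c + (R.F (a * c) + R.F (a * c) - R.H (a * c))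
      + -R.N (a * (a * c)))) = 0 := by rw [← hc]; exact R.φF _ _
  have e : R.N ((c + a * c) + a * (c + a * c)) =
      -(R.F c + (R.F (a * c) + R.F (a * c) - R.H (a * c)) + -R.N (a * (a * c)))
        + R.H (c + a * c) + R.E (c + a * c + a * c) := by
    simp only [N_apply, mul_add, map_add]
    abel
  unfold D Φ
  rw [e, mul_add, mul_add, mul_neg, map_add, map_add, map_neg, h0, R.φE, R.φH]
  simp

theorem diff_exp : Differentiable ℂ (exp : B → B) :=
  fun x => (exp_analytic (𝕂 := ℂ) x).differentiableAt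

theorem diffΦ (a0 a1 : A) : Differentiable ℂ fun t : ℂ => R.Φ (a0 + t • a1) := by
  simp only [Φ, map_add, map_smul]
  exact R.φ.differentiable.comp (diff_exp.comp (by fun_prop))

theorem diffD (a0 a1 b : A) : Differentiable ℂ fun t : ℂ => R.D (a0 + t • a1) b := by
  simp only [D, map_add, map_smul]
  exact R.φ.differentiable.comp ((diff_exp.comp (by fun_prop)).mul_const _)

theorem hasDerivAt_curve (γ : ℂ → A) (b : A) (t : ℂ)
    (h : HasDerivAt (fun s => R.N (γ s)) (R.N b) t) :
    HasDerivAt (fun s => R.Φ (γ s)) (R.D (γ t) b) t := by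
  have := hasDerivAt_exp_comm (fun s => R.N (γ s)) (R.N b) t h (fun s => R.commN _ _)
  exact R.φ.hasFDerivAt.comp_hasDerivAt t this

theorem hasDerivAt_line (a b : A) (t : ℂ) :
    HasDerivAt (fun s : ℂ => R.Φ (a + s • b)) (R.D (a + t • b) b) t := by
  refine R.hasDerivAt_curve (fun s : ℂ => a + s • b) b t ?_
  simp only [map_add, map_smul]
  simpa using ((hasDerivAt_id t).smul_const (R.N b)).const_add (R.N a)

variable [IsScalarTower ℂ A A] [SMulCommClass ℂ A A]

theorem claim2 (a b : A) : R.D a (b + a * b) = R.lam b * R.Φ a := by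
  have := vanish (fun (b : A) (t : ℂ) =>
      R.D (0 + t • a) b + t * R.D (0 + t • a) (a * b) - R.lam b * R.Φ (0 + t • a))
    (fun b => a * b)
    (fun c => ((R.diffD 0 a c).add (differentiable_id.mul (R.diffD 0 a (a * c)))).sub
      ((R.diffΦ 0 a).const_mul _))
    (fun c t => by
      have h := R.claim1 (t • a) c
      simp only [smul_mul_assoc, mul_add, mul_smul_comm, D_add, D_smul, map_add, map_smul,
        smul_eq_mul] at h
      simp only [zero_add]
      linear_combination h) b 1
  simp only [zero_add, one_smul, one_mul] at this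
  rw [D_add]
  linear_combination this

theorem mult (a b : A) : R.Φ (a + b + a * b) = R.Φ a * R.Φ b := by
  have hW := vanish (fun (c : A) (t : ℂ) =>
      R.D (a + t • (b + a * b)) (c + a * c) * R.Φ (0 + t • b)
        - R.Φ (a + t • (b + a * b)) * R.D (0 + t • b) c)
    (fun c => b * c)
    (fun c => ((R.diffD a _ _).mul (R.diffΦ 0 b)).sub ((R.diffΦ a _).mul (R.diffD 0 b c)))
    (fun c t => by
      have h1 := R.claim2 (a + t • (b + a * b)) c
      have h2 := R.claim2 (t • b) c
      have e1 : c + (a + t • (b + a * b)) * c = (c + a * c) + t • (b * c + a * (b * c)) := by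
        simp only [add_mul, smul_mul_assoc, mul_assoc, smul_add]; abel
      rw [e1, D_add, D_smul] at h1
      rw [smul_mul_assoc, D_add, D_smul] at h2
      simp only [zero_add]
      linear_combination R.Φ (t • b) * h1 - R.Φ (a + t • (b + a * b)) * h2) b
  have := wronsk (fun t : ℂ => R.Φ (a + t • (b + a * b)) - R.Φ a * R.Φ (0 + t • b))
    (fun t : ℂ => R.Φ (0 + t • b))
    (fun t : ℂ => R.D (a + t • (b + a * b)) (b + a * b) - R.Φ a * R.D (0 + t • b) b)
    (fun t : ℂ => R.D (0 + t • b) b)
    (fun t => (R.hasDerivAt_line a _ t).sub ((R.hasDerivAt_line 0 b t).const_mul _))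
    (fun t => R.hasDerivAt_line 0 b t)
    (fun t => by have := hW t; linear_combination this)
    (by simp [Φ_zero]) (by simp [Φ_zero]) 1
  simp only [one_smul, zero_add] at this
  rw [add_assoc]
  linear_combination this

/-- `pw a n = a ^ (n + 1)`. -/
def pw (a : A) : ℕ → A
  | 0 => a
  | n + 1 => pw a n * a

omit [Module ℂ A] [IsScalarTower ℂ A A] [SMulCommClass ℂ A A] in
theorem pw_succ (a : A) (n : ℕ) : pw a (n + 1) = pw a n * a := rfl

theorem pw_smul (a : A) (t : ℂ) (n : ℕ) : pw (t • a) n = t ^ (n + 1) • pw a n := by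
  induction n with
  | zero => simp [pw]
  | succ n ih => rw [pw_succ, pw_succ, ih, smul_mul_assoc, mul_smul_comm, smul_smul, ← pow_succ]

theorem expo [TopologicalSpace A] [IsTopologicalSemiring A] (hN : Continuous R.N) (ex : A → A)
    (hex : ∀ a, HasSum (fun n : ℕ => (((n + 1).factorial : ℂ)⁻¹) • pw a n) (ex a)) (a : A) :
    R.Φ (ex a) = Complex.exp (R.lam a) := by
  have hS : ∀ t : ℂ, HasSum
      (fun n : ℕ => t ^ (n + 1) • ((((n + 1).factorial : ℂ)⁻¹) • R.N (pw a n)))
      (R.N (ex (t • a))) := by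
    intro t
    have := (hex (t • a)).map R.N.toAddMonoidHom hN
    have e : (fun n : ℕ => t ^ (n + 1) • ((((n + 1).factorial : ℂ)⁻¹) • R.N (pw a n)))
        = (R.N.toAddMonoidHom ∘ fun n : ℕ => (((n + 1).factorial : ℂ)⁻¹) • pw (t • a) n) := by
      funext n
      simp only [Function.comp, LinearMap.toAddMonoidHom_coe, pw_smul, map_smul]
      rw [smul_comm]
    rw [e]; exact this
  have hD : ∀ t : ℂ, HasSum
      (fun n : ℕ => (((n : ℂ) + 1) * t ^ n) • ((((n + 1).factorial : ℂ)⁻¹) • R.N (pw a n)))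
      (R.N (a + ex (t • a) * a)) := by
    intro t
    have h1 := ((hex (t • a)).mul_right a).map R.N.toAddMonoidHom hN
    have e : (fun n : ℕ => (fun n : ℕ => (((n : ℂ) + 1) * t ^ n) •
          ((((n + 1).factorial : ℂ)⁻¹) • R.N (pw a n))) (n + 1))
        = (R.N.toAddMonoidHom ∘
          fun n : ℕ => ((((n + 1).factorial : ℂ)⁻¹) • pw (t • a) n) * a) := by
      funext n
      simp only [Function.comp, LinearMap.toAddMonoidHom_coe, pw_smul, map_smul, smul_mul_assoc,
        smul_smul, pw_succ]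
      congr 1
      have h2 : ((n + 1).factorial : ℂ) ≠ 0 := by exact_mod_cast (Nat.factorial_ne_zero _)
      have h3 : ((n : ℂ) + 1 + 1) ≠ 0 := by exact_mod_cast (by omega : n + 1 + 1 ≠ 0)
      rw [Nat.factorial_succ (n + 1)]
      push_cast
      field_simp
    rw [← e] at h1
    have h2 := (hasSum_nat_add_iff (f := fun n : ℕ => (((n : ℂ) + 1) * t ^ n) •
          ((((n + 1).factorial : ℂ)⁻¹) • R.N (pw a n))) 1).1 h1
    have e2 : R.N (a + ex (t • a) * a) = R.N.toAddMonoidHom (ex (t • a) * a) +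
        ∑ i ∈ Finset.range 1, (((i : ℂ) + 1) * t ^ i) •
          ((((i + 1).factorial : ℂ)⁻¹) • R.N (pw a i)) := by
      simp [pw, add_comm]
    rw [e2]; exact h2
  have hd : ∀ t : ℂ, HasDerivAt (fun s : ℂ => R.Φ (ex (s • a))) (R.lam a * R.Φ (ex (t • a))) t := by
    intro t
    have := R.hasDerivAt_curve (fun s : ℂ => ex (s • a)) (a + ex (t • a) * a) t
      (series_deriv _ _ hS t _ (hD t))
    rw [R.claim2] at this
    exact this
  have hk : ∀ t : ℂ, HasDerivAt
      (fun s : ℂ => R.Φ (ex (s • a)) * Complex.exp (-(s * R.lam a))) 0 t := by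
    intro t
    have h1 : HasDerivAt (fun s : ℂ => Complex.exp (-(s * R.lam a)))
        (Complex.exp (-(t * R.lam a)) * (-R.lam a)) t := by
      have := ((hasDerivAt_id t).mul_const (R.lam a)).neg.cexp
      simpa using this
    have := (hd t).mul h1
    have e : R.lam a * R.Φ (ex (t • a)) * Complex.exp (-(t * R.lam a)) +
        R.Φ (ex (t • a)) * (Complex.exp (-(t * R.lam a)) * (-R.lam a)) = 0 := by ring
    rw [e] at this
    exact this
  have hc := is_const_of_deriv_eq_zero (fun t => (hk t).differentiableAt)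
    (fun t => (hk t).deriv) (1 : ℂ) 0
  have h0 : R.N (ex ((0 : ℂ) • a)) = 0 := by
    have h1 := hS 0
    simp only [ne_eq, Nat.add_eq_zero_iff, one_ne_zero, and_false, not_false_eq_true, zero_pow,
      zero_smul] at h1
    rw [zero_smul]
    exact h1.unique hasSum_zero
  have h0' : R.Φ (ex ((0 : ℂ) • a)) = 1 := by
    unfold Φ; rw [h0]; simp [R.φ1]
  simp only [one_smul, one_mul, zero_mul, neg_zero, Complex.exp_zero, mul_one, h0'] at hc
  rw [Complex.exp_neg] at hc
  have hne := Complex.exp_ne_zero (R.lam a)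
  field_simp at hc
  exact hc

omit [IsScalarTower ℂ A A] [SMulCommClass ℂ A A] in
theorem contΦ [TopologicalSpace A] (hN : Continuous R.N) : Continuous R.Φ :=
  R.φ.continuous.comp (exp_cont.comp hN)

end Rep

end Pool.Agent.H48.MxB
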