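import Mathlib

set_option autoImplicit false

namespace Pool.Agent.H48.Ord

/-- Order of vanishing of a map with homogeneous components. -/
lemma ord_hom (g : (Fin 3 → ℂ) → (Fin 3 → ℂ)) (hg : ContDiff ℂ ⊤ g) (r : Fin 3 → ℕ)
    (hh : ∀ (t : ℂ) (z : Fin 3 → ℂ) (i : Fin 3), g (t • z) i = t ^ r i * g z i)
    (h1 : ∀ i, g (fun _ => 1) i = 1) (m : ℕ) :
    iteratedFDeriv ℂ m g 0 ≠ 0 ↔ ∃ i, m = r i := by
  have hgi : ∀ i, ContDiff ℂ ⊤ (fun z => g z i) := fun i => (contDiff_pi.mp hg) i
  have hcomp : ∀ i (v : Fin m → Fin 3 → ℂ),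
      iteratedFDeriv ℂ m (fun z => g z i) 0 v = iteratedFDeriv ℂ m g 0 v i := by
    intro i v
    have := (ContinuousLinearMap.proj (R := ℂ) (φ := fun _ : Fin 3 => ℂ) i).iteratedFDeriv_comp_left
      (x := 0) hg.contDiffAt (i := m) le_top
    have h2 := congrArg (fun L => L v) this
    simpa [Function.comp_def] using h2
  constructor
  · intro h
    by_contra hc
    push Not at hc
    apply h
    ext v i
    rw [← hcomp]
    have e1 := ((2 : ℂ) • ContinuousLinearMap.id ℂ (Fin 3 → ℂ)).iteratedFDeriv_comp_right (hgi i) 0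
      (i := m) le_top
    have e2 : ((fun z => g z i) ∘ ((2 : ℂ) • ContinuousLinearMap.id ℂ (Fin 3 → ℂ))) =
        fun z => ((2 : ℂ) ^ r i) • g z i := by
      funext z
      simp [hh]
    rw [e2, iteratedFDeriv_const_smul_apply' ((hgi i).contDiffAt.of_le le_top)] at e1
    have e3 := congrArg (fun L => L v) e1
    simp only [smul_apply, map_zero,
      ContinuousMultilinearMap.compContinuousLinearMap_apply,
      ContinuousLinearMap.id_apply] at e3
    rw [ContinuousMultilinearMap.map_smul_univ] at e3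
    simp only [Finset.prod_const, Finset.card_univ, Fintype.card_fin, smul_eq_mul] at e3
    have e4 : ((2 : ℂ) ^ r i) ≠ 2 ^ m := by
      intro h
      have : ((2 : ℕ) ^ r i) = 2 ^ m := by exact_mod_cast h
      exact hc i (Nat.pow_right_injective le_rfl this).symm
    have e5 : ((2 : ℂ) ^ r i - 2 ^ m) * iteratedFDeriv ℂ m (fun z => g z i) 0 v = 0 := by
      linear_combination e3
    simpa [sub_ne_zero.mpr e4] using e5
  · rintro ⟨i, hi⟩ h
    let L : ℂ →L[ℂ] (Fin 3 → ℂ) := (ContinuousLinearMap.id ℂ ℂ).smulRight (fun _ => 1)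
    have e1 := L.iteratedFDeriv_comp_right (hgi i) 0 (i := m) le_top
    have e2 : ((fun z => g z i) ∘ L) = fun t => t ^ m := by
      funext t
      have := hh t (fun _ => 1) i
      rw [h1, ← hi, mul_one] at this
      exact this
    rw [e2] at e1
    have e3 := congrArg (fun L => L (fun _ => 1)) e1
    simp only [map_zero, ContinuousMultilinearMap.compContinuousLinearMap_apply] at e3
    rw [hcomp, h, ← iteratedDeriv_eq_iteratedFDeriv, iteratedDeriv_fun_pow_zero] at e3
    simp [Nat.factorial_ne_zero] at e3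

noncomputable def f (z : Fin 3 → ℂ) : Fin 3 → ℂ :=
  ![z 0 ^ 3 * z 1 ^ 2, z 1 * z 2 ^ 2, z 0 ^ 4 * z 2 ^ 3]

def r : ℕ → Fin 3 → ℕ
  | 0 => fun _ => 1
  | k + 1 => ![3 * r k 0 + 2 * r k 1, r k 1 + 2 * r k 2, 4 * r k 0 + 3 * r k 2]

lemma f_smooth : ContDiff ℂ ⊤ f := by
  rw [contDiff_pi]
  intro i
  fin_cases i
  · show ContDiff ℂ ⊤ (fun z : Fin 3 → ℂ => z 0 ^ 3 * z 1 ^ 2); fun_prop
  · show ContDiff ℂ ⊤ (fun z : Fin 3 → ℂ => z 1 * z 2 ^ 2); fun_prop
  · show ContDiff ℂ ⊤ (fun z : Fin 3 → ℂ => z 0 ^ 4 * z 2 ^ 3); fun_prop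

lemma iter_smooth (k : ℕ) : ContDiff ℂ ⊤ (f^[k]) := by
  induction k with
  | zero => exact contDiff_id
  | succ k ih => rw [Function.iterate_succ']; exact f_smooth.comp ih

lemma iter_hom (k : ℕ) (t : ℂ) (z : Fin 3 → ℂ) (i : Fin 3) :
    f^[k] (t • z) i = t ^ r k i * f^[k] z i := by
  induction k generalizing i with
  | zero => simp [r]
  | succ k ih =>
    rw [Function.iterate_succ_apply', Function.iterate_succ_apply']
    fin_cases i <;> simp [f, r, ih] <;> ring

lemma iter_one (k : ℕ) (i : Fin 3) : f^[k] (fun _ => 1) i = 1 := by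
  induction k generalizing i with
  | zero => simp
  | succ k ih =>
    rw [Function.iterate_succ_apply']
    fin_cases i <;> simp [f, ih]

lemma r_le (k : ℕ) : r k 1 ≤ r k 2 := by
  induction k with
  | zero => simp [r]
  | succ k ih => simp [r]; omega

lemma ord_eq (k : ℕ) :
    sInf {m : ℕ | iteratedFDeriv ℂ m (f^[k]) 0 ≠ 0} = min (r k 0) (r k 1) := by
  have h := ord_hom (f^[k]) (iter_smooth k) (r k) (iter_hom k) (iter_one k)
  apply le_antisymm
  · apply le_min
    · exact Nat.sInf_le ((h _).mpr ⟨0, rfl⟩)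
    · exact Nat.sInf_le ((h _).mpr ⟨1, rfl⟩)
  · apply le_csInf ⟨_, (h _).mpr ⟨0, rfl⟩⟩
    intro m hm
    obtain ⟨i, rfl⟩ := (h m).mp hm
    have := r_le k
    fin_cases i
    · exact min_le_left _ _
    · exact min_le_right _ _
    · exact (min_le_right _ _).trans this

def D (k : ℕ) : ℤ := (r k 0 : ℤ) - r k 1
def E (k : ℕ) : ℤ := (r k 2 : ℤ) - r k 0 - r k 1

lemma D_succ (k : ℕ) : D (k + 1) = D k - 2 * E k := by simp [D, E, r]; ring
lemma E_succ (k : ℕ) : E (k + 1) = 2 * D k + E k := by simp [D, E, r]; ring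

noncomputable def w (k : ℕ) : ℂ := ⟨D k, E k⟩

lemma w_add (k j : ℕ) : w (k + j) = w k * (⟨1, 2⟩ : ℂ) ^ j := by
  induction j with
  | zero => simp
  | succ j ih =>
    rw [pow_succ, ← mul_assoc, ← ih, ← add_assoc]
    apply Complex.ext
    · simp [w, D_succ]; ring
    · simp [w, E_succ]; ring

lemma D_mod (k : ℕ) : ¬ (5 : ℤ) ∣ D (k + 1) ∧ (5 : ℤ) ∣ E (k + 1) - 2 * D (k + 1) := by
  induction k with
  | zero => simp [D, E, r]
  | succ k ih => rw [D_succ (k + 1), E_succ (k + 1)]; omega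

lemma no_sign (x : ℕ → ℝ) (p q : ℝ) (hq : p ^ 2 < 4 * q)
    (h : ∀ j, x (j + 2) = p * x (j + 1) - q * x j) (hx : ∀ j, 0 < x j) : False := by
  have hq0 : 0 < q := by nlinarith [sq_nonneg p]
  set s := Real.sqrt q with hs
  have hs0 : 0 < s := Real.sqrt_pos.mpr hq0
  have hss : s * s = q := Real.mul_self_sqrt hq0.le
  have hp : p < 2 * s := by
    by_contra hc
    push Not at hc
    nlinarith
  have step : ∀ j, x (j + 2) / x (j + 1) ≤ x (j + 1) / x j - (2 * s - p) := by
    intro j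
    have a := hx j
    have b := hx (j + 1)
    rw [h j, div_sub' a.ne', div_le_div_iff₀ b a]
    have e : q * x j * x j = s * s * x j * x j := by rw [hss]
    nlinarith [sq_nonneg (x (j + 1) - s * x j)]
  have it : ∀ n : ℕ, x (n + 1) / x n ≤ x 1 / x 0 - n * (2 * s - p) := by
    intro n
    induction n with
    | zero => simp
    | succ n ih => have := step n; push_cast; linarith
  obtain ⟨n, hn⟩ := exists_nat_gt (x 1 / x 0 / (2 * s - p))
  have h1 := it n
  have h2 : 0 < x (n + 1) / x n := div_pos (hx _) (hx _)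
  rw [div_lt_iff₀ (by linarith)] at hn
  linarith

lemma not_periodic (K T : ℕ) (hT : 0 < T) (h : ∀ k, K ≤ k → (D (k + T) < 0 ↔ D k < 0)) : False := by
  set ν : ℂ := (⟨1, 2⟩ : ℂ) ^ T with hν
  have hw0 : w 0 = -Complex.I := by apply Complex.ext <;> simp [w, D, E, r]
  have him : ν.im ≠ 0 := by
    have h1 := w_add 0 T
    rw [zero_add, hw0, ← hν] at h1
    have h2 := congrArg Complex.re h1
    simp [w] at h2
    rw [← h2]
    obtain ⟨t, rfl⟩ : ∃ t, T = t + 1 := ⟨T - 1, by omega⟩
    have := (D_mod t).1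
    intro h3
    apply this
    have : D (t + 1) = 0 := by exact_mod_cast h3
    simp [this]
  have hrec : ∀ j, (D (K + 1 + T * (j + 2)) : ℝ) =
      (2 * ν.re) * D (K + 1 + T * (j + 1)) - (ν.re ^ 2 + ν.im ^ 2) * D (K + 1 + T * j) := by
    intro j
    have a := w_add (K + 1 + T * j) T
    have b := w_add (K + 1 + T * (j + 1)) T
    rw [show K + 1 + T * j + T = K + 1 + T * (j + 1) by ring, ← hν] at a
    rw [show K + 1 + T * (j + 1) + T = K + 1 + T * (j + 2) by ring, ← hν] at b
    have a1 := congrArg Complex.re a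
    have a2 := congrArg Complex.im a
    have b1 := congrArg Complex.re b
    simp only [w, Complex.mul_re, Complex.mul_im] at a1 a2 b1
    rw [b1, a2, a1]
    ring
  have hq : (2 * ν.re) ^ 2 < 4 * (ν.re ^ 2 + ν.im ^ 2) := by
    have := sq_pos_of_ne_zero him
    nlinarith
  have hs : ∀ j, (D (K + 1 + T * j) < 0 ↔ D (K + 1) < 0) := by
    intro j
    induction j with
    | zero => simp
    | succ j ih =>
      rw [← ih, show K + 1 + T * (j + 1) = K + 1 + T * j + T by ring]
      exact h _ (by omega)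
  have hne : ∀ j, D (K + 1 + T * j) ≠ 0 := by
    intro j h0
    have := (D_mod (K + T * j)).1
    rw [show K + T * j + 1 = K + 1 + T * j by ring, h0] at this
    simp at this
  by_cases h0 : D (K + 1) < 0
  · apply no_sign (fun j => -(D (K + 1 + T * j) : ℝ)) _ _ hq
    · intro j; rw [hrec j]; ring
    · intro j
      have : (D (K + 1 + T * j) : ℝ) < 0 := by exact_mod_cast (hs j).mpr h0
      linarith
  · apply no_sign (fun j => (D (K + 1 + T * j) : ℝ)) _ _ hq hrec
    intro j
    have h1 : ¬ D (K + 1 + T * j) < 0 := fun h1 => h0 ((hs j).mp h1)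
    have h2 := hne j
    have : 0 < D (K + 1 + T * j) := by omega
    exact_mod_cast this

lemma ev_periodic {S : Type} [Finite S] (s : ℕ → S) (K : ℕ)
    (h : ∀ k l, K ≤ k → K ≤ l → s k = s l → s (k + 1) = s (l + 1)) :
    ∃ K' T, 0 < T ∧ ∀ k, K' ≤ k → s (k + T) = s k := by
  obtain ⟨i, j, hij, he⟩ := Finite.exists_ne_map_eq_of_infinite (fun n => s (K + n))
  wlog hlt : i < j generalizing i j
  · exact this j i hij.symm he.symm (by omega)
  refine ⟨K + i, j - i, by omega, ?_⟩
  intro k hk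
  induction k, hk using Nat.le_induction with
  | base => rw [show K + i + (j - i) = K + j by omega]; exact he.symm
  | succ k hk ih =>
    rw [show k + 1 + (j - i) = k + (j - i) + 1 by omega]
    exact h _ _ (by omega) (by omega) ih

theorem no_rec (d : ℕ) (a : Fin d → ℤ) (K : ℕ)
    (h : ∀ k, K ≤ k → ((min (r (k + d) 0) (r (k + d) 1) : ℕ) : ℤ) =
      ∑ i : Fin d, a i * ((min (r (k + (i : ℕ)) 0) (r (k + (i : ℕ)) 1) : ℕ) : ℤ)) : False := by
  set c : ℕ → ZMod 5 := fun k => ((min (r k 0) (r k 1) : ℕ) : ZMod 5) with hc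
  have hc' : ∀ k, K ≤ k → c (k + d) = ∑ i : Fin d, (a i : ZMod 5) * c (k + (i : ℕ)) := by
    intro k hk
    have := congrArg (fun z : ℤ => (z : ZMod 5)) (h k hk)
    simpa only [Int.cast_natCast, Int.cast_sum, Int.cast_mul] using this
  obtain ⟨K', T, hT, hp⟩ := ev_periodic
    (fun k => ((fun i : Fin (d + 1) => c (k + (i : ℕ))), (fun i : Fin 3 => (r k i : ZMod 5)))) K (by
      intro k l hk hl he
      simp only [Prod.mk.injEq] at he ⊢
      obtain ⟨h1, h2⟩ := he
      have h1' : ∀ i, i ≤ d → c (k + i) = c (l + i) := fun i hi => congrFun h1 ⟨i, by omega⟩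
      constructor
      · funext i
        rcases Nat.lt_or_ge (i : ℕ) d with hi | hi
        · have := h1' (i + 1) hi
          rwa [show k + (i + 1) = k + 1 + i by ring, show l + (i + 1) = l + 1 + i by ring] at this
        · have hi' : (i : ℕ) = d := by omega
          rw [hi', hc' _ (by omega), hc' _ (by omega)]
          apply Finset.sum_congr rfl
          intro j _
          have := h1' (j + 1) j.2
          rw [show k + (j + 1) = k + 1 + j by ring, show l + (j + 1) = l + 1 + j by ring] at this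
          rw [this]
      · have e0 := congrFun h2 0
        have e1 := congrFun h2 1
        have e2 := congrFun h2 2
        funext i
        fin_cases i <;> simp [r, e0, e1, e2])
  have key : ∀ k, (D (k + 1) < 0 ↔ c (k + 1) = (r (k + 1) 0 : ZMod 5)) := by
    intro k
    have h1 := (D_mod k).1
    simp only [hc]
    rw [ZMod.natCast_eq_natCast_iff']
    unfold D at h1 ⊢
    omega
  apply not_periodic (K' + 1) T hT
  intro k hk
  obtain ⟨k, rfl⟩ : ∃ j, k = j + 1 := ⟨k - 1, by omega⟩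
  have h1 := hp (k + 1) (by omega)
  simp only [Prod.mk.injEq] at h1
  have e1 := congrFun h1.1 0
  have e2 := congrFun h1.2 0
  simp only [Fin.val_zero, add_zero] at e1 e2
  rw [key k, show k + 1 + T = k + T + 1 by ring, key (k + T), show k + T + 1 = k + 1 + T by ring,
    e1, e2]

lemma f_deriv (z v : Fin 3 → ℂ) : fderiv ℂ f z v =
    ![3 * z 0 ^ 2 * z 1 ^ 2 * v 0 + 2 * z 0 ^ 3 * z 1 * v 1, z 2 ^ 2 * v 1 + 2 * z 1 * z 2 * v 2,
      4 * z 0 ^ 3 * z 2 ^ 3 * v 0 + 3 * z 0 ^ 4 * z 2 ^ 2 * v 2] := by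
  have hd : DifferentiableAt ℂ f z := f_smooth.differentiable (by simp) z
  have p : ∀ i : Fin 3, HasFDerivAt (fun z : Fin 3 → ℂ => z i)
      (ContinuousLinearMap.proj (R := ℂ) (φ := fun _ : Fin 3 => ℂ) i) z :=
    fun i => hasFDerivAt_apply i z
  funext i
  have h1 := (hasFDerivAt_pi'.mp hd.hasFDerivAt) i
  fin_cases i
  · have h2 := h1.unique (((p 0).pow 3).mul ((p 1).pow 2))
    have h3 := congrArg (fun L => L v) h2
    simp at h3
    simp [h3]; ring
  · have h2 := h1.unique ((p 1).mul ((p 2).pow 2))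
    have h3 := congrArg (fun L => L v) h2
    simp at h3
    simp [h3]; ring
  · have h2 := h1.unique (((p 0).pow 4).mul ((p 2).pow 3))
    have h3 := congrArg (fun L => L v) h2
    simp at h3
    simp [h3]; ring

lemma det_zero : (fderiv ℂ f 0).det = 0 := by
  have : fderiv ℂ f 0 = 0 := by
    ext v i
    rw [f_deriv]
    fin_cases i <;> simp
  rw [this]
  simp [ContinuousLinearMap.det]

lemma det_ne (t : ℂ) (ht : t ≠ 0) : (fderiv ℂ f (fun _ => t)).det ≠ 0 := by
  intro h
  rw [ContinuousLinearMap.det, LinearMap.det_eq_zero_iff_ker_ne_bot] at h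
  apply h
  rw [LinearMap.ker_eq_bot']
  intro v hv
  have h1 := f_deriv (fun _ => t) v
  have h2 : fderiv ℂ f (fun _ => t) v = 0 := hv
  rw [h2] at h1
  have e0 := congrFun h1 0
  have e1 := congrFun h1 1
  have e2 := congrFun h1 2
  simp at e0 e1 e2
  have f0 : 3 * v 0 + 2 * v 1 = 0 := by
    apply mul_left_cancel₀ (pow_ne_zero 4 ht); linear_combination -e0
  have f1 : v 1 + 2 * v 2 = 0 := by
    apply mul_left_cancel₀ (pow_ne_zero 2 ht); linear_combination -e1
  have f2 : 4 * v 0 + 3 * v 2 = 0 := by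
    apply mul_left_cancel₀ (pow_ne_zero 6 ht); linear_combination -e2
  funext i
  fin_cases i
  · show v 0 = 0
    linear_combination (3 / 25 : ℂ) * f0 - (6 / 25 : ℂ) * f1 + (4 / 25 : ℂ) * f2
  · show v 1 = 0
    linear_combination (8 / 25 : ℂ) * f0 + (9 / 25 : ℂ) * f1 - (6 / 25 : ℂ) * f2
  · show v 2 = 0
    linear_combination -(4 / 25 : ℂ) * f0 + (8 / 25 : ℂ) * f1 + (3 / 25 : ℂ) * f2

end Pool.Agent.H48.Ord
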