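import Mathlib

set_option autoImplicit false

namespace H48.Zsig

open Polynomial

lemma root_order (b m p : ℕ) (hm : m ≠ 0) (hp : p.Prime)
    (h : p ∣ ((cyclotomic m ℤ).eval (b : ℤ)).natAbs) :
    ∃ k d, ¬ p ∣ d ∧ m = p ^ k * d ∧ orderOf (b : ZMod p) = d ∧ d ∣ p - 1 := by
  have := Fact.mk hp
  obtain ⟨k, d, hd, rfl⟩ := Nat.exists_eq_pow_mul_and_not_dvd hm p hp.ne_one
  have : NeZero (d : ZMod p) := ⟨fun h0 => hd ((ZMod.natCast_eq_zero_iff d p).1 h0)⟩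
  have h1 : (cyclotomic (p ^ k * d) (ZMod p)).IsRoot (b : ZMod p) := by
    have h2 : (((cyclotomic (p ^ k * d) ℤ).eval (b : ℤ) : ℤ) : ZMod p) = 0 :=
      (ZMod.intCast_zmod_eq_zero_iff_dvd _ p).2 (Int.natCast_dvd.2 h)
    rw [IsRoot, ← map_cyclotomic_int, eval_map]
    have := eval₂_at_apply (p := cyclotomic (p ^ k * d) ℤ) (Int.castRingHom (ZMod p)) (b : ℤ)
    simp only [eq_intCast, Int.cast_natCast] at this
    rw [this, h2]
  have h3 := isRoot_cyclotomic_prime_pow_mul_iff_of_charP.1 h1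
  have h4 := h3.eq_orderOf
  have hd0 : d ≠ 0 := by rintro rfl; simp at hd
  have hb : (b : ZMod p) ≠ 0 := h3.ne_zero hd0
  exact ⟨k, d, hd, rfl, h4.symm, h4 ▸ ZMod.orderOf_dvd_card_sub_one hb⟩

theorem zsig (b m : ℕ) (hb : 4 ≤ b) (hm : 1 < m) (hodd : Odd m) :
    ∃ p, p.Prime ∧ orderOf (b : ZMod p) = m := by
  by_contra hcon
  push Not at hcon
  obtain ⟨Φ, hΦ⟩ : ∃ Φ, Φ = ((cyclotomic m ℤ).eval (b : ℤ)).natAbs := ⟨_, rfl⟩
  have hlt : (b - 1) ^ m.totient < Φ :=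
    hΦ ▸ sub_one_pow_totient_lt_natAbs_cyclotomic_eval hm (by omega)
  have key : ∀ p, p.Prime → p ∣ Φ → ∃ k d, ¬ p ∣ d ∧ m = p ^ (k + 1) * d ∧
      orderOf (b : ZMod p) = d ∧ d ∣ p - 1 := by
    intro p hp h
    obtain ⟨k, d, h1, h2, h3, h4⟩ := root_order b m p (by omega) hp (hΦ ▸ h)
    rcases k with _ | k
    · exfalso; apply hcon p hp; rw [h3, h2]; simp
    · exact ⟨k, d, h1, h2, h3, h4⟩
  have h1 : 1 ≤ (b - 1) ^ m.totient := Nat.one_le_pow _ _ (by omega)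
  obtain ⟨p, hp, hpΦ⟩ := Nat.exists_prime_and_dvd (n := Φ) (by omega)
  have uniq0 : ∀ p q, p.Prime → q.Prime → p ∣ Φ → q ∣ Φ → q ≤ p := by
    intro p q hp hq h1 h2
    obtain ⟨k, d, _, e1, _, hd⟩ := key p hp h1
    obtain ⟨k', d', _, e2, _, _⟩ := key q hq h2
    have : q ∣ p ^ (k + 1) * d := by rw [← e1, e2, pow_succ, mul_assoc, mul_left_comm]; simp
    rcases (hq.dvd_mul).1 this with h | h
    · exact Nat.le_of_dvd hp.pos (hq.dvd_of_dvd_pow h)
    · have := Nat.le_of_dvd (by have := hp.two_le; omega) (h.trans hd)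
      omega
  have hpow := Nat.eq_prime_pow_of_unique_prime_dvd (n := Φ) (p := p) (by omega)
    (fun {q} hq h => le_antisymm (uniq0 p q hp hq hpΦ h) (uniq0 q p hq hp h hpΦ))
  obtain ⟨k, d, _, e1, ho, _⟩ := key p hp hpΦ
  have hpm : p ∣ m := by rw [e1, pow_succ, mul_assoc, mul_left_comm]; simp
  have hpodd : Odd p := hodd.of_dvd_nat hpm
  have hbig : p < Φ := by
    have h2 : p - 1 ≤ m.totient := by
      rw [← Nat.totient_prime hp]
      exact Nat.le_of_dvd (Nat.totient_pos.2 (by omega)) (Nat.totient_dvd_of_dvd hpm)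
    have h3 : 2 ^ (p - 1) ≤ (b - 1) ^ m.totient :=
      le_trans (Nat.pow_le_pow_right (by norm_num) h2) (Nat.pow_le_pow_left (by omega) _)
    have h4 : p - 1 < 2 ^ (p - 1) := Nat.lt_two_pow_self
    omega
  have hsq : p ^ 2 ∣ Φ := by
    rw [hpow] at hbig ⊢
    apply pow_dvd_pow
    by_contra h
    have : p ^ Φ.primeFactorsList.length ≤ p ^ 1 := Nat.pow_le_pow_right hp.pos (by omega)
    simp only [pow_one] at this
    omega
  obtain ⟨n, hn⟩ : ∃ n, n = p ^ k * d := ⟨_, rfl⟩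
  have hmn : m = n * p := by rw [e1, hn]; ring
  have hn0 : 0 < n := by rcases n with _ | n <;> simp at hmn ⊢; omega
  have hdiv := X_pow_sub_one_mul_cyclotomic_dvd_X_pow_sub_one_of_dvd ℤ (d := n) (n := m)
    (Nat.mem_properDivisors.2 ⟨⟨p, hmn⟩, by have := hp.two_le; nlinarith⟩)
  have hev := eval_dvd (x := (b : ℤ)) hdiv
  simp only [eval_mul, eval_sub, eval_pow, eval_X, eval_one] at hev
  have hy : (1 : ℤ) < (b : ℤ) ^ n := one_lt_pow₀ (by exact_mod_cast (by omega : 1 < b)) hn0.ne'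
  rw [show (b : ℤ) ^ m - 1 = ((b : ℤ) ^ n - 1) * ∑ i ∈ Finset.range p, ((b : ℤ) ^ n) ^ i by
    rw [mul_geom_sum, ← pow_mul, ← hmn]] at hev
  have hev2 := (mul_dvd_mul_iff_left (by omega : (b : ℤ) ^ n - 1 ≠ 0)).1 hev
  have hy1 : (p : ℤ) ∣ (b : ℤ) ^ n - 1 := by
    rw [← ZMod.intCast_zmod_eq_zero_iff_dvd]
    push_cast
    rw [sub_eq_zero, ← orderOf_dvd_iff_pow_eq_one, ho, hn]
    simp
  obtain ⟨t, ht⟩ := hy1
  have h5 := odd_sq_dvd_geom_sum₂_sub (R := ℤ) (a := 1) (b := t) (p := p) hpodd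
  simp only [one_pow, mul_one] at h5
  rw [show (1 : ℤ) + p * t = (b : ℤ) ^ n by linarith] at h5
  have h6 : (p : ℤ) ^ 2 ∣ ∑ i ∈ Finset.range p, ((b : ℤ) ^ n) ^ i := by
    refine dvd_trans ?_ hev2
    rw [hΦ] at hsq
    exact_mod_cast Int.natCast_dvd.2 hsq
  have h7 : (p : ℤ) ^ 2 ∣ p := by
    have := dvd_sub h6 h5
    simpa using this
  have h8 : p ^ 2 ∣ p := by exact_mod_cast h7
  have := Nat.le_of_dvd hp.pos h8
  have := hp.two_le
  nlinarith

lemma supply (a n : ℕ) (ha : 2 ≤ a) (U : Finset ℕ) (hU : U.card ≤ n) :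
    ∃ p g, p.Prime ∧ p ∉ U ∧ 0 < g ∧ g ≤ 4 * n + 6 ∧ p ≤ a ^ g ∧ (p : ℤ) ∣ (a : ℤ) ^ g - 1 := by
  have h : ∀ i : ℕ, ∃ p, p.Prime ∧ orderOf ((a ^ 2 : ℕ) : ZMod p) = 2 * i + 3 := fun i =>
    zsig _ _ (by nlinarith) (by omega) ⟨i + 1, by ring⟩
  choose f hf ho using h
  have hinj : Function.Injective f := by
    intro i j hij
    have h1 := ho i
    have h2 := ho j
    rw [hij, h2] at h1
    omega
  obtain ⟨p, hp, hpU⟩ := Finset.exists_mem_notMem_of_card_lt_card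
    (s := U) (t := (Finset.range (n + 1)).image f)
    (by rw [Finset.card_image_of_injective _ hinj]; simp; omega)
  obtain ⟨i, hi, rfl⟩ := Finset.mem_image.1 hp
  have hi' := Finset.mem_range.1 hi
  have hd : (f i : ℤ) ∣ (a : ℤ) ^ (2 * (2 * i + 3)) - 1 := by
    rw [← ZMod.intCast_zmod_eq_zero_iff_dvd]
    have := pow_orderOf_eq_one ((a ^ 2 : ℕ) : ZMod (f i))
    rw [ho] at this
    push_cast at this ⊢
    rw [pow_mul, this, sub_self]
  refine ⟨f i, 2 * (2 * i + 3), hf i, hpU, by omega, by omega, ?_, hd⟩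
  have hy : (1 : ℤ) < (a : ℤ) ^ (2 * (2 * i + 3)) :=
    one_lt_pow₀ (by exact_mod_cast (by omega : 1 < a)) (by omega)
  have := Int.le_of_dvd (by omega) hd
  have h2 : (f i : ℤ) ≤ ((a ^ (2 * (2 * i + 3)) : ℕ) : ℤ) := by push_cast; omega
  exact_mod_cast h2

lemma supply2 (m : ℕ) (hm : 6 ≤ m) (U : Finset ℕ) (hU : U.card < m) :
    ∃ p, p.Prime ∧ p ∉ U ∧ p ≤ m ^ 3 := by
  have hpi : m ≤ Nat.primeCounting (m ^ 3) := by
    by_contra hlt
    have h1 := Chebyshev.psi_ge (m ^ 3)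
    have h2 := Chebyshev.psi_le_primeCounting_mul_log (m ^ 3)
    have hm' : (6 : ℝ) ≤ m := by exact_mod_cast hm
    have h3 : (Nat.primeCounting (m ^ 3) : ℝ) ≤ m := by exact_mod_cast (by omega)
    push_cast at h1 h2
    rw [Real.log_pow] at h2
    have h4 : Real.log m ≤ m := (Real.log_le_sub_one_of_pos (by linarith)).trans (by linarith)
    have h5 : 0 ≤ Real.log m := Real.log_nonneg (by linarith)
    have h6 : Real.log ((m : ℝ) ^ 3 + 1) ≤ 3 * m := by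
      have : Real.log ((m : ℝ) ^ 3 + 1) ≤ Real.log (((m : ℝ) + 1) ^ 3) :=
        Real.log_le_log (by positivity) (by nlinarith)
      rw [Real.log_pow] at this
      have h7 := Real.log_le_sub_one_of_pos (show (0 : ℝ) < m + 1 by linarith)
      push_cast at this
      linarith
    have h8 := Real.log_two_gt_d9
    have h9 : (Nat.primeCounting (m ^ 3) : ℝ) * ((3 : ℕ) * Real.log m) ≤ m * (3 * m) := by
      push_cast
      gcongr
    have h10 : (m : ℝ) ^ 3 * 0.69 ≤ (m : ℝ) ^ 3 * Real.log 2 := by gcongr; linarith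
    have h11 : (m : ℝ) ^ 3 * 0.69 ≤ m * (3 * m) + 3 * m := by linarith
    have h12 : 6 * (m : ℝ) ^ 2 ≤ (m : ℝ) ^ 3 := by nlinarith
    nlinarith
  obtain ⟨p, hp, hpU⟩ := Finset.exists_mem_notMem_of_card_lt_card
    (s := U) (t := Nat.primesLE (m ^ 3)) (by rw [Nat.primesLE_card_eq_primeCounting]; omega)
  rw [Nat.mem_primesLE] at hp
  exact ⟨p, hp.2, hpU, hp.1⟩

end H48.Zsig
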