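import Mathlib
import Pool.Agent.H48.Zsig

set_option autoImplicit false

namespace H48.Pan

open Finset

abbrev Tp := ℕ × ℕ × ℤ

def val (t : Tp) (h : ℕ) (n : ℤ) : ℤ := n * t.2.1 + (t.1 : ℤ) ^ h * t.2.2

def cnt (A : Finset (ℕ × ℤ)) (t : Tp) (h : ℕ) : ℕ :=
  (A.filter fun x => (x.1 : ℤ) ∣ val t h x.2).card

def Good (A : Finset (ℕ × ℤ)) : Prop :=
  (∀ x ∈ A, x.1.Prime) ∧ Set.InjOn Prod.fst (A : Set (ℕ × ℤ))

noncomputable def Phi (H : ℕ) (A : Finset (ℕ × ℤ)) (t : Tp) : ℝ :=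
  ∑ h ∈ range (H + 1), (1 / 2 : ℝ) ^ cnt A t h

def Adm (κ : ℕ) (t : Tp) : Prop := 2 ≤ t.1 ∧ t.1 ≤ κ ∧ 1 ≤ t.2.1 ∧ t.2.1 ≤ κ

lemma cnt_mono {A B : Finset (ℕ × ℤ)} (h : A ⊆ B) (t : Tp) (i : ℕ) : cnt A t i ≤ cnt B t i :=
  card_le_card (filter_subset_filter _ h)

lemma Phi_anti (H : ℕ) {A B : Finset (ℕ × ℤ)} (h : A ⊆ B) (t : Tp) : Phi H B t ≤ Phi H A t :=
  sum_le_sum fun i _ => pow_le_pow_of_le_one (by norm_num) (by norm_num) (cnt_mono h t i)

lemma Phi_nonneg (H : ℕ) (A : Finset (ℕ × ℤ)) (t : Tp) : 0 ≤ Phi H A t :=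
  sum_nonneg fun i _ => by positivity

lemma solve {p j : ℕ} (hp : p.Prime) (h1 : 1 ≤ j) (h2 : j < p) (z : ℤ) :
    ∃ ρ : ℤ, (p : ℤ) ∣ ρ * j + z := by
  have hc : IsCoprime (j : ℤ) (p : ℤ) := by
    rw [Nat.isCoprime_iff_coprime]
    exact ((Nat.coprime_of_lt_prime (by omega) h2 hp)).symm
  obtain ⟨u, v, huv⟩ := hc
  exact ⟨-u * z, v * z, by linear_combination (-z) * huv⟩

lemma good_insert {A : Finset (ℕ × ℤ)} (hA : Good A) {p : ℕ} (hp : p.Prime)
    (hn : p ∉ A.image Prod.fst) (ρ : ℤ) : Good (insert (p, ρ) A) := by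
  refine ⟨fun x hx => ?_, ?_⟩
  · rcases mem_insert.1 hx with rfl | hx
    · exact hp
    · exact hA.1 x hx
  · rw [coe_insert]
    have : (p, ρ) ∉ (A : Set (ℕ × ℤ)) := fun h => hn (mem_image_of_mem Prod.fst h)
    rw [Set.injOn_insert this]
    exact ⟨hA.2, by simpa using hn⟩

lemma cnt_insert {A : Finset (ℕ × ℤ)} {p : ℕ} (hn : p ∉ A.image Prod.fst) {ρ : ℤ} {t : Tp}
    {h : ℕ} (hd : (p : ℤ) ∣ val t h ρ) : cnt (insert (p, ρ) A) t h = cnt A t h + 1 := by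
  unfold cnt
  rw [filter_insert, if_pos hd, card_insert_of_notMem]
  intro h
  exact hn (mem_image_of_mem Prod.fst (mem_filter.1 h).1)

lemma step1 (κ H n : ℕ) (A : Finset (ℕ × ℤ)) (hA : Good A) (hn : A.card ≤ n) (t : Tp)
    (ht : Adm κ t) (G : ℕ) (hG : 4 * (n + κ + 1) + 6 ≤ G) :
    ∃ p ρ, Good (insert (p, ρ) A) ∧ p ≤ κ ^ G ∧
      Phi H (insert (p, ρ) A) t ≤ (1 - 1 / (2 * (G : ℝ))) * Phi H A t := by
  obtain ⟨p, g, hp, hU, hg0, hg, hpa, hd⟩ := H48.Zsig.supply t.1 (n + κ + 1) ht.1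
    (A.image Prod.fst ∪ range (κ + 1)) (by
      refine (card_union_le _ _).trans ?_
      have := card_image_le (s := A) (f := Prod.fst)
      rw [card_range]; omega)
  rw [mem_union, not_or, mem_range] at hU
  have hg' : (0 : ℝ) < g := by exact_mod_cast hg0
  obtain ⟨c, _, hc⟩ := exists_le_sum_fiber_of_maps_to_of_nsmul_le_sum (s := range (H + 1))
    (t := range g) (f := fun h => h % g) (w := fun h => (1 / 2 : ℝ) ^ cnt A t h)
    (b := Phi H A t / g) (fun a _ => mem_range.2 (Nat.mod_lt _ hg0)) ⟨0, mem_range.2 hg0⟩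
    (by rw [card_range, nsmul_eq_mul, mul_div_cancel₀ _ hg'.ne']; rfl)
  obtain ⟨ρ, hρ⟩ := solve (j := t.2.1) hp ht.2.2.1 (by have := ht.2.2.2; omega)
    ((t.1 : ℤ) ^ c * t.2.2)
  refine ⟨p, ρ, good_insert hA hp hU.1 ρ, ?_, ?_⟩
  · exact hpa.trans ((Nat.pow_le_pow_left ht.2.1 _).trans
      (Nat.pow_le_pow_right (by have := ht.1; have := ht.2.1; omega) (by omega)))
  · have h1 : Phi H (insert (p, ρ) A) t ≤ ∑ h ∈ range (H + 1), ((1 / 2 : ℝ) ^ cnt A t h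
        - (1 / 2) * if h % g = c then (1 / 2 : ℝ) ^ cnt A t h else 0) := by
      refine sum_le_sum fun h _ => ?_
      split_ifs with hh
      · have : (p : ℤ) ∣ val t h ρ := by
          have e : val t h ρ = (ρ * t.2.1 + (t.1 : ℤ) ^ c * t.2.2)
              + (t.1 : ℤ) ^ c * t.2.2 * (((t.1 : ℤ) ^ g) ^ (h / g) - 1) := by
            unfold val
            conv_lhs => rw [← Nat.mod_add_div h g, hh]
            ring
          rw [e]
          refine dvd_add hρ (Dvd.dvd.mul_left (hd.trans ?_) _)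
          simpa using sub_dvd_pow_sub_pow ((t.1 : ℤ) ^ g) 1 (h / g)
        rw [cnt_insert hU.1 this, pow_succ]
        linarith
      · rw [mul_zero, sub_zero]
        exact pow_le_pow_of_le_one (by norm_num) (by norm_num) (cnt_mono (subset_insert _ _) t h)
    rw [sum_sub_distrib, ← mul_sum, ← sum_filter] at h1
    have h2 : Phi H A t / G ≤ Phi H A t / g :=
      div_le_div_of_nonneg_left (Phi_nonneg _ _ _) hg' (by exact_mod_cast (by omega : g ≤ G))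
    have h3 : (1 - 1 / (2 * (G : ℝ))) * Phi H A t = Phi H A t - 1 / 2 * (Phi H A t / G) := by
      ring
    rw [h3]
    change _ ≤ Phi H A t - _ at h1
    linarith

lemma iter {σ ι : Type} [Preorder σ] [DecidableEq ι] (N : ℕ) (Inv : ℕ → σ → Prop)
    (P : ι → Prop) (Imp : ι → σ → σ → Prop)
    (step : ∀ n s i, n < N → P i → Inv n s → ∃ s', Inv (n + 1) s' ∧ s ≤ s' ∧ Imp i s s')
    (m1 : ∀ i s s' s'', Imp i s s' → s' ≤ s'' → Imp i s s'')
    (m2 : ∀ i s s' s'', s ≤ s' → Imp i s' s'' → Imp i s s'') (D : Finset ι) :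
    (∀ i ∈ D, P i) → ∀ n s, n + D.card ≤ N → Inv n s →
      ∃ s', Inv (n + D.card) s' ∧ s ≤ s' ∧ ∀ i ∈ D, Imp i s s' := by
  induction D using Finset.induction_on with
  | empty => intro _ n s _ h; exact ⟨s, h, le_rfl, by simp⟩
  | insert j D hj ih =>
    intro hP n s hn h
    rw [card_insert_of_notMem hj] at hn ⊢
    obtain ⟨s1, h1, h2, h3⟩ := ih (fun i hi => hP i (mem_insert_of_mem hi)) n s (by omega) h
    obtain ⟨s2, h4, h5, h6⟩ := step (n + D.card) s1 j (by omega) (hP j (mem_insert_self _ _)) h1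
    refine ⟨s2, h4, h2.trans h5, fun i hi => ?_⟩
    rcases mem_insert.1 hi with rfl | hi
    · exact m2 _ _ _ _ h2 h6
    · exact m1 _ _ _ _ (h3 i hi) h5

lemma rounds (κ H : ℕ) (hκ : 1 ≤ κ) (D : Finset Tp) (hD : ∀ t ∈ D, Adm κ t) (c : ℕ)
    (hc : c = 4 * (D.card + κ + 1) + 6) (R : ℕ) :
    ∃ A, Good A ∧ A.card ≤ R * D.card ∧ (∀ x ∈ A, x.1 ≤ κ ^ (c * R)) ∧
      ∀ t ∈ D, Phi H A t ≤ (H + 1) * Real.exp (-(harmonic R / (2 * c))) := by
  induction R with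
  | zero =>
    refine ⟨∅, ⟨by simp, by simp⟩, by simp, by simp, fun t _ => ?_⟩
    simp [Phi, cnt]
  | succ R ih =>
    obtain ⟨A, h1, h2, h3, h4⟩ := ih
    have hc0 : (0 : ℝ) < c := by exact_mod_cast (by omega : 0 < c)
    have hc1 : (1 : ℝ) ≤ c := by exact_mod_cast (by omega : 1 ≤ c)
    have hθ : 0 ≤ 1 - 1 / (2 * ((c * (R + 1) : ℕ) : ℝ)) := by
      have : (0 : ℝ) ≤ R := by positivity
      push_cast
      rw [sub_nonneg, div_le_one (by positivity)]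
      nlinarith
    obtain ⟨B, ⟨g1, g2, g3⟩, g4, g5⟩ := iter ((R + 1) * D.card)
      (fun n (A : Finset (ℕ × ℤ)) => Good A ∧ A.card ≤ n ∧ ∀ x ∈ A, x.1 ≤ κ ^ (c * (R + 1)))
      (Adm κ) (fun t A B => Phi H B t ≤ (1 - 1 / (2 * ((c * (R + 1) : ℕ) : ℝ))) * Phi H A t)
      (by
        rintro n s t hn ht ⟨k1, k2, k3⟩
        obtain ⟨p, ρ, l1, l2, l3⟩ := step1 κ H n s k1 k2 t ht (c * (R + 1)) (by
          rw [hc]; nlinarith [Nat.zero_le (R * κ), Nat.zero_le R])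
        refine ⟨_, ⟨l1, (card_insert_le _ _).trans (by omega), fun x hx => ?_⟩,
          subset_insert _ _, l3⟩
        rcases mem_insert.1 hx with rfl | hx
        · exact l2
        · exact k3 x hx)
      (fun t s s' s'' k1 k2 => (Phi_anti H k2 t).trans k1)
      (fun t s s' s'' k1 k2 => k2.trans (mul_le_mul_of_nonneg_left (Phi_anti H k1 t) hθ))
      D hD (R * D.card) A (by rw [add_mul, one_mul]) ⟨h1, h2, fun x hx => (h3 x hx).trans
        (Nat.pow_le_pow_right hκ (Nat.mul_le_mul_left _ (Nat.le_succ R)))⟩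
    refine ⟨B, g1, by rw [add_mul, one_mul]; exact g2, g3, fun t ht => (g5 t ht).trans ?_⟩
    have e : -((harmonic (R + 1) : ℝ) / (2 * c))
        = -(1 / (2 * ((c * (R + 1) : ℕ) : ℝ))) + -(harmonic R / (2 * c)) := by
      rw [harmonic_succ]; push_cast; field_simp; ring
    rw [e, Real.exp_add, mul_left_comm]
    refine mul_le_mul ?_ (h4 t ht) (Phi_nonneg _ _ _) (Real.exp_pos _).le
    linarith [Real.add_one_le_exp (-(1 / (2 * ((c * (R + 1) : ℕ) : ℝ))))]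

lemma fix (κ m W n : ℕ) (hm : 6 ≤ m) (E : Finset (Tp × ℕ)) (hE : ∀ x ∈ E, Adm κ x.1)
    (A : Finset (ℕ × ℤ)) (hA : Good A) (hn : A.card ≤ n) (hW : ∏ x ∈ A, x.1 ≤ W) (L : ℕ)
    (hL : n + L * E.card + κ + 1 ≤ m) :
    ∃ B, Good B ∧ B.card ≤ n + L * E.card ∧ ∏ x ∈ B, x.1 ≤ W * (m ^ 3) ^ (n + L * E.card) ∧
      A ⊆ B ∧ ∀ x ∈ E, L ≤ cnt B x.1 x.2 := by
  have hm3 : 1 ≤ m ^ 3 := Nat.one_le_pow _ _ (by omega)
  induction L with
  | zero =>
    refine ⟨A, hA, by omega, hW.trans (Nat.le_mul_of_pos_right _ (by positivity)), subset_rfl,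
      by simp⟩
  | succ L ih =>
    rw [add_mul, one_mul] at hL
    obtain ⟨B, h1, h2, h3, h4, h5⟩ := ih (by omega)
    obtain ⟨B', ⟨g1, g2, g3⟩, g4, g5⟩ := iter (n + L * E.card + E.card)
      (fun n (A : Finset (ℕ × ℤ)) => Good A ∧ A.card ≤ n ∧ ∏ x ∈ A, x.1 ≤ W * (m ^ 3) ^ n)
      (fun x : Tp × ℕ => Adm κ x.1) (fun x A B => cnt A x.1 x.2 + 1 ≤ cnt B x.1 x.2)
      (by
        rintro n' s x hn' hx ⟨k1, k2, k3⟩
        obtain ⟨p, hp, hU, hpm⟩ := H48.Zsig.supply2 m hm (s.image Prod.fst ∪ range (κ + 1)) (by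
          refine (card_union_le _ _).trans_lt ?_
          have := card_image_le (s := s) (f := Prod.fst)
          rw [card_range]; omega)
        rw [mem_union, not_or, mem_range] at hU
        obtain ⟨ρ, hρ⟩ := solve (j := x.1.2.1) hp hx.2.2.1 (by have := hx.2.2.2; omega)
          ((x.1.1 : ℤ) ^ x.2 * x.1.2.2)
        refine ⟨insert (p, ρ) s, ⟨good_insert k1 hp hU.1 ρ,
          (card_insert_le _ _).trans (by omega), ?_⟩, subset_insert _ _,
          (cnt_insert hU.1 hρ).ge⟩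
        rw [prod_insert (fun h => hU.1 (mem_image_of_mem Prod.fst h)), pow_succ, ← mul_assoc,
          mul_comm]
        exact Nat.mul_le_mul k3 hpm)
      (fun x s s' s'' k1 k2 => k1.trans (cnt_mono k2 _ _))
      (fun x s s' s'' k1 k2 => (Nat.add_le_add_right (cnt_mono k1 _ _) 1).trans k2)
      E hE (n + L * E.card) B le_rfl ⟨h1, h2, h3⟩
    rw [add_mul, one_mul, ← add_assoc]
    exact ⟨B', g1, g2, g3, h4.trans g4, fun x hx => by
      have := g5 x hx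
      have := h5 x hx
      omega⟩

lemma comb (κ H R L m : ℕ) (hκ : 1 ≤ κ) (hm : 6 ≤ m) (D : Finset Tp) (hD : ∀ t ∈ D, Adm κ t)
    (c : ℕ) (hc : c = 4 * (D.card + κ + 1) + 6)
    (hL : (R * D.card + κ + 1 : ℝ) +
      L * (2 ^ L * (D.card * ((H + 1) * Real.exp (-(harmonic R / (2 * c)))))) ≤ m) :
    ∃ B, Good B ∧ ∏ x ∈ B, x.1 ≤ (κ ^ (c * R)) ^ (R * D.card) * (m ^ 3) ^ m ∧
      ∀ t ∈ D, ∀ h ≤ H, L ≤ cnt B t h := by
  obtain ⟨A, h1, h2, h3, h4⟩ := rounds κ H hκ D hD c hc R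
  obtain ⟨E, hE⟩ : ∃ E, E = (D ×ˢ range (H + 1)).filter fun x => cnt A x.1 x.2 < L := ⟨_, rfl⟩
  have hcard : (E.card : ℝ) ≤
      2 ^ L * (D.card * ((H + 1) * Real.exp (-(harmonic R / (2 * c))))) := by
    have a1 : (E.card : ℝ) ≤ ∑ x ∈ D ×ˢ range (H + 1), 2 ^ L * (1 / 2 : ℝ) ^ cnt A x.1 x.2 := by
      rw [hE, card_filter]
      push_cast
      refine sum_le_sum fun x _ => ?_
      split_ifs with hx
      · have : (1 / 2 : ℝ) ^ L ≤ (1 / 2 : ℝ) ^ cnt A x.1 x.2 :=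
          pow_le_pow_of_le_one (by norm_num) (by norm_num) hx.le
        calc (1 : ℝ) = 2 ^ L * (1 / 2 : ℝ) ^ L := by rw [← mul_pow]; norm_num
          _ ≤ _ := by gcongr
      · positivity
    rw [← mul_sum, sum_product] at a1
    refine a1.trans (mul_le_mul_of_nonneg_left ?_ (by positivity))
    rw [← nsmul_eq_mul]
    exact sum_le_card_nsmul _ _ _ h4
  have hL' : R * D.card + L * E.card + κ + 1 ≤ m := by
    have : (L : ℝ) * E.card ≤ _ := mul_le_mul_of_nonneg_left hcard (Nat.cast_nonneg L)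
    have h5 : ((R * D.card + L * E.card + κ + 1 : ℕ) : ℝ) ≤ m := by push_cast; linarith
    exact_mod_cast h5
  obtain ⟨B, g1, _, g3, g4, g5⟩ := fix κ m ((κ ^ (c * R)) ^ (R * D.card)) (R * D.card) hm E
    (fun x hx => by rw [hE] at hx; exact hD _ (mem_product.1 (mem_filter.1 hx).1).1) A h1 h2
    ((prod_le_pow_card _ _ _ h3).trans (Nat.pow_le_pow_right (by positivity) h2)) L hL'
  refine ⟨B, g1, g3.trans (Nat.mul_le_mul_left _ (Nat.pow_le_pow_right (by positivity)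
    (by omega))), fun t ht h hh => ?_⟩
  by_cases hx : cnt A t h < L
  · exact g5 (t, h) (by rw [hE]; simp [ht, hx]; omega)
  · exact (not_lt.1 hx).trans (cnt_mono g4 _ _)

lemma count (κ H : ℕ) (D : Finset Tp) (hD : ∀ t ∈ D, Adm κ t) (A : Finset (ℕ × ℤ)) (hA : Good A)
    (X0 : ℤ) (M : ℕ) : ∃ F : Finset ℤ, M ≤ F.card + D.card * (H + 1) ∧ ∀ n ∈ F, X0 ≤ n ∧
      n + 1 ≤ X0 + (∏ x ∈ A, x.1 : ℕ) * M ∧
      ∀ t ∈ D, ∀ h ≤ H, cnt A t h ≤ (val t h n).natAbs.primeFactors.card := by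
  obtain ⟨r, hr⟩ := Ideal.exists_forall_sub_mem_ideal (ι := A)
    (I := fun x => Ideal.span {(x.1.1 : ℤ)}) (by
      intro x y hxy
      simp only [Function.onFun]
      rw [Ideal.isCoprime_span_singleton_iff, Nat.isCoprime_iff_coprime,
        Nat.coprime_primes (hA.1 _ x.2) (hA.1 _ y.2)]
      exact fun h => hxy (Subtype.ext (hA.2 x.2 y.2 h))) (fun x => x.1.2)
  simp only [Ideal.mem_span_singleton] at hr
  obtain ⟨Q, hQ⟩ : ∃ Q : ℕ, Q = ∏ x ∈ A, x.1 := ⟨_, rfl⟩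
  have hQ0 : (0 : ℤ) < Q := by
    rw [hQ]; exact_mod_cast prod_pos fun x hx => (hA.1 x hx).pos
  rw [← hQ]
  let f : ℕ → ℤ := fun i => X0 + (r - X0) % Q + Q * i
  have hf : Function.Injective f := by
    intro i j hij
    simp only [f, add_right_inj] at hij
    exact_mod_cast mul_left_cancel₀ hQ0.ne' hij
  let Z : Finset ℤ := (D ×ˢ range (H + 1)).image
    fun x => (-((x.1.1 : ℤ) ^ x.2 * x.1.2.2)) / x.1.2.1
  refine ⟨(range M).image f \ Z, ?_, fun n hn => ?_⟩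
  · have h1 := le_card_sdiff Z ((range M).image f)
    rw [card_image_of_injective _ hf, card_range] at h1
    have h2 : Z.card ≤ D.card * (H + 1) := card_image_le.trans (by simp)
    omega
  obtain ⟨hn1, hn2⟩ := mem_sdiff.1 hn
  obtain ⟨i, hi, rfl⟩ := mem_image.1 hn1
  have hi' : (i : ℤ) + 1 ≤ M := by exact_mod_cast mem_range.1 hi
  have e1 := Int.emod_nonneg (r - X0) hQ0.ne'
  have e2 := Int.emod_lt_of_pos (r - X0) hQ0
  refine ⟨?_, ?_, fun t ht h hh => ?_⟩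
  · simp only [f]; have : (0 : ℤ) ≤ Q * i := by positivity
    omega
  · simp only [f]; nlinarith
  have hv : val t h (f i) ≠ 0 := by
    intro h0
    apply hn2
    refine mem_image.2 ⟨(t, h), by simp [ht]; omega, ?_⟩
    have hj : (t.2.1 : ℤ) ≠ 0 := by have := (hD t ht).2.2.1; omega
    unfold val at h0
    rw [show -((t.1 : ℤ) ^ h * t.2.2) = f i * t.2.1 by linarith, Int.mul_ediv_cancel _ hj]
  unfold cnt
  refine card_le_card_of_injOn Prod.fst (fun x hx => ?_)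
    (hA.2.mono fun x hx => (mem_filter.1 hx).1)
  obtain ⟨hx1, hx2⟩ := mem_filter.1 hx
  rw [mem_coe, Nat.mem_primeFactors]
  refine ⟨hA.1 x hx1, Int.natCast_dvd.1 ?_, by simpa using hv⟩
  have d1 : (x.1 : ℤ) ∣ Q := by
    rw [hQ]; exact_mod_cast dvd_prod_of_mem (fun x : ℕ × ℤ => x.1) hx1
  have e : val t h (f i) = val t h x.2 + ((r - x.2) + Q * (i - (r - X0) / Q)) * t.2.1 := by
    simp only [val, f]
    rw [Int.emod_def]; ring
  rw [e]
  exact dvd_add hx2 (Dvd.dvd.mul_right (dvd_add (hr ⟨x, hx1⟩) (d1.mul_right _)) _)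

end H48.Pan
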