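import Mathlib

set_option autoImplicit false

namespace Pool.Agent.H48.PerfA

open MvPowerSeries Cardinal

abbrev F : Type := ZMod 3

instance : Fact (Nat.Prime 3) := ⟨Nat.prime_three⟩

abbrev A (n : ℕ) : Type := MvPowerSeries (Fin n) F

variable {n : ℕ}

instance : IsDomain (A n) := NoZeroDivisors.to_isDomain _

lemma mem_span_X (f : A n) (hf : constantCoeff f = 0) :
    f ∈ Ideal.span (Set.range (X : Fin n → A n)) := by
  classical
  have hch : ∀ d : Fin n →₀ ℕ, d ≠ 0 → ∃ i, d i ≠ 0 := by
    intro d hd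
    by_contra hc
    push Not at hc
    exact hd (Finsupp.ext hc)
  choose ι hι using hch
  let g : Fin n → A n := fun i d => if h : d ≠ 0 then (if ι d h = i then coeff d f else 0) else 0
  have hg : ∀ i d, coeff d (g i) =
    if h : d ≠ 0 then (if ι d h = i then coeff d f else 0) else 0 := fun _ _ => rfl
  have hsum : f = ∑ i, g i := by
    ext d
    rw [map_sum]
    simp only [hg]
    by_cases hd : d = 0
    · subst hd
      simpa using hf
    · simp [hd]
  rw [hsum]
  apply Ideal.sum_mem
  intro i _
  have hdvd : (X i : A n) ∣ g i := by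
    rw [X_dvd_iff]
    intro d hd
    rw [hg]
    split_ifs with h1 h2
    · exact absurd hd (h2 ▸ hι d h1)
    · rfl
    · rfl
  obtain ⟨q, hq⟩ := hdvd
  rw [hq]
  exact Ideal.mul_mem_right _ _ (Ideal.subset_span (Set.mem_range_self i))

lemma dim_ge (n : ℕ) : (n : WithBot ℕ∞) ≤ ringKrullDim (A n) := by
  induction n with
  | zero => exact ringKrullDim_nonneg_of_nontrivial
  | succ n ih =>
    rw [ringKrullDim_eq_of_ringEquiv (finSuccEquiv F n).toRingEquiv]
    refine le_trans ?_ ringKrullDim_succ_le_ringKrullDim_powerseries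
    push_cast
    gcongr

lemma height_ge (P : Ideal (A n)) (hP : ∀ i, (X i : A n) ∈ P) : (n : ℕ∞) ≤ P.height := by
  have h1 : IsLocalRing.maximalIdeal (A n) ≤ P := by
    intro f hf
    have h2 : constantCoeff f = 0 := by
      by_contra h
      exact hf (isUnit_iff_constantCoeff.mpr (Ne.isUnit h))
    refine (Ideal.span_le.mpr ?_) (mem_span_X f h2)
    rintro _ ⟨i, rfl⟩
    exact hP i
  refine le_trans ?_ (Ideal.height_mono h1)
  have h3 := dim_ge n
  rw [← IsLocalRing.maximalIdeal_height_eq_ringKrullDim] at h3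
  exact_mod_cast h3

noncomputable def rho (i : Fin n) : PowerSeries F →ₐ[F] A n :=
  MvPowerSeries.rename (fun _ : Unit => i)

lemma rho_X (i : Fin n) : rho i PowerSeries.X = X i := rename_X _ _

lemma rho_not_mem (i : Fin n) (P : Ideal (A n)) [hP : P.IsPrime] (hi : (X i : A n) ∉ P)
    (φ : PowerSeries F) (hφ : φ ≠ 0) : rho i φ ∉ P := by
  rw [← PowerSeries.X_pow_order_mul_divXPowOrder (f := φ), map_mul, map_pow, rho_X]
  intro h
  rcases hP.mem_or_mem h with h | h
  · exact hi (hP.mem_of_pow_mem _ h)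
  · exact hP.ne_top (Ideal.eq_top_of_isUnit_mem _ h
      ((PowerSeries.isUnit_divided_by_X_pow_order hφ).map (rho i)))

lemma card_seq : #(ℕ → F) = 𝔠 := by
  have := Cardinal.nat_power_aleph0 (n := 3) (by norm_num)
  simpa using this

lemma card_A : #(A n) ≤ 𝔠 := by
  have h : #(A n) = #F ^ #(Fin n →₀ ℕ) := by
    rw [Cardinal.power_def]; rfl
  rw [h, ← card_seq, ← Cardinal.power_def]
  apply Cardinal.power_le_power_left (by simp)
  rw [Cardinal.mk_nat]
  exact Cardinal.mk_le_aleph0

lemma avoid {ι : Type} (hι : #ι < 𝔠) (P : ι → Ideal (A n)) (hP : ∀ a, (P a).IsPrime)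
    (hX : ∀ a, ∃ i, (X i : A n) ∉ P a) (b : ι → A n) :
    ∃ h : A n, constantCoeff h = 0 ∧ ∀ a, h - b a ∉ P a := by
  have key : ∀ k : ℕ, ∃ h : A n, constantCoeff h = 0 ∧
      ∀ a, (∀ j : Fin n, k ≤ (j : ℕ) → (X j : A n) ∈ P a) → h - b a ∉ P a := by
    intro k
    induction k with
    | zero =>
      refine ⟨0, by simp, ?_⟩
      intro a ha
      obtain ⟨i, hi⟩ := hX a
      exact absurd (ha i (Nat.zero_le _)) hi
    | succ k ih =>
      obtain ⟨h, h0, hh⟩ := ih
      by_cases hk : k < n
      · have ex : ∃ t : ℕ → F, ∀ a, (X ⟨k, hk⟩ : A n) ∉ P a →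
            h + rho ⟨k, hk⟩ (PowerSeries.X * PowerSeries.mk t) - b a ∉ P a := by
          by_contra hc
          push Not at hc
          choose α hα hα' using hc
          have hinj : Function.Injective α := by
            intro t t' htt
            by_contra hne
            have := hP (α t)
            apply rho_not_mem ⟨k, hk⟩ (P (α t)) (hα t)
              (PowerSeries.X * PowerSeries.mk t - PowerSeries.X * PowerSeries.mk t')
            · rw [← mul_sub]
              apply mul_ne_zero PowerSeries.X_ne_zero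
              rw [sub_ne_zero]
              intro h
              apply hne
              funext i
              simpa using congrArg (PowerSeries.coeff i) h
            · have h1 := hα' t
              have h2 := hα' t'
              rw [← htt] at h2
              have h3 := sub_mem h1 h2
              rw [map_sub]
              convert h3 using 1
              ring
          have := Cardinal.mk_le_of_injective hinj
          rw [card_seq] at this
          exact absurd hι (not_lt.mpr this)
        obtain ⟨t, ht⟩ := ex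
        refine ⟨h + rho ⟨k, hk⟩ (PowerSeries.X * PowerSeries.mk t), ?_, ?_⟩
        · rw [map_mul, rho_X]; simp [h0]
        · intro a ha
          by_cases hxa : (X ⟨k, hk⟩ : A n) ∈ P a
          · intro hm
            apply hh a
            · intro j hj
              rcases Nat.eq_or_lt_of_le hj with hj | hj
              · have : j = ⟨k, hk⟩ := Fin.ext hj.symm
                rw [this]; exact hxa
              · exact ha j hj
            · have h1 : rho ⟨k, hk⟩ (PowerSeries.X * PowerSeries.mk t) ∈ P a := by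
                rw [map_mul, rho_X]; exact Ideal.mul_mem_right _ _ hxa
              have h3 := sub_mem hm h1
              convert h3 using 1
              ring
          · exact ht a hxa
      · refine ⟨h, h0, fun a _ => hh a ?_⟩
        intro j hj
        have := j.2
        omega
  obtain ⟨h, h0, hh⟩ := key n
  refine ⟨h, h0, fun a => hh a ?_⟩
  intro j hj
  have := j.2
  omega

lemma step {ι : Type} (hι : #ι < 𝔠) (P : ι → Ideal (A n)) (hP : ∀ a, (P a).IsPrime)
    (hX : ∀ a, ∃ i, (X i : A n) ∉ P a) (x : A n) :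
    ∃ g h : A n, constantCoeff g = 0 ∧ constantCoeff h = 0 ∧ ∀ a, x - g * h ∉ P a := by
  classical
  obtain ⟨g, g0, hg⟩ := avoid hι P hP hX (fun _ => 0)
  have ex : ∀ a, ∃ b : A n, (∃ h0, x - g * h0 ∈ P a) → x - g * b ∈ P a := by
    intro a
    by_cases h : ∃ h0, x - g * h0 ∈ P a
    · obtain ⟨h0, hh⟩ := h
      exact ⟨h0, fun _ => hh⟩
    · exact ⟨0, fun h' => absurd h' h⟩
  choose b hb using ex
  obtain ⟨h, h0, hh⟩ := avoid hι P hP hX b
  refine ⟨g, h, g0, h0, ?_⟩
  intro a ha
  have h1 := sub_mem (hb a ⟨h, ha⟩) ha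
  have h2 : g * (h - b a) ∈ P a := by
    convert h1 using 1
    ring
  rcases (hP a).mem_or_mem h2 with h3 | h3
  · exact hg a (by simpa using h3)
  · exact hh a h3

lemma trans_rec {T R : Type} [LinearOrder T] [WellFoundedLT T] (Φ : T → Set R → R → Prop)
    (h : ∀ τ (S : Set R), #S ≤ #(Set.Iio τ) → ∃ r, Φ τ S r) :
    ∃ s : T → R, ∀ τ, Φ τ (s '' Set.Iio τ) (s τ) := by
  let s : T → R := (wellFounded_lt (α := T)).fix (fun τ rec =>
    Classical.choose (h τ (Set.range (fun b : Set.Iio τ => rec b b.2)) Cardinal.mk_range_le))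
  refine ⟨s, fun τ => ?_⟩
  have e : s τ = Classical.choose (h τ (Set.range (fun b : Set.Iio τ => s b))
      Cardinal.mk_range_le) := WellFounded.fix_eq _ _ _
  rw [e, Set.image_eq_range]
  exact Classical.choose_spec (h τ (Set.range (fun b : Set.Iio τ => s b)) Cardinal.mk_range_le)

lemma step' (S : Set (A n)) (hS : #S < 𝔠) (f0 x : A n) :
    ∃ g h : A n, constantCoeff g = 0 ∧ constantCoeff h = 0 ∧
      ∀ E : Set (A n), E.Finite → E ⊆ S → ∀ P ∈ (Ideal.span (insert f0 E)).minimalPrimes,
        (∃ i, (X i : A n) ∉ P) → x - g * h ∉ P := by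
  let PP : Set (Ideal (A n)) := ⋃ L : List S,
    (Ideal.span (insert f0 {y | ∃ z ∈ L, (z : A n) = y})).minimalPrimes
  have hPP : #PP < 𝔠 := by
    refine lt_of_le_of_lt (Cardinal.mk_iUnion_le _) ?_
    apply Cardinal.mul_lt_of_lt Cardinal.aleph0_le_continuum
    · exact lt_of_le_of_lt (Cardinal.mk_list_le_max _) (max_lt Cardinal.aleph0_lt_continuum hS)
    · refine lt_of_le_of_lt ?_ Cardinal.aleph0_lt_continuum
      apply ciSup_le'
      intro L
      exact (Ideal.finite_minimalPrimes_of_isNoetherianRing _ _).lt_aleph0.le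
  let QQ : Set (Ideal (A n)) := {P | P ∈ PP ∧ ∃ i, (X i : A n) ∉ P}
  have hQQ : #QQ < 𝔠 := lt_of_le_of_lt (Cardinal.mk_le_mk_of_subset (fun P hP => hP.1)) hPP
  obtain ⟨g, h, g0, h0, hh⟩ := step hQQ (fun P => P.1) (by
    rintro ⟨P, hP, -⟩
    obtain ⟨L, hL⟩ := Set.mem_iUnion.mp hP
    exact hL.1.1) (fun P => P.2.2) x
  refine ⟨g, h, g0, h0, ?_⟩
  intro E hE hES P hP hX
  refine hh ⟨P, ?_, hX⟩
  have hfin : (Subtype.val ⁻¹' E : Set S).Finite := hE.preimage Subtype.val_injective.injOn
  refine Set.mem_iUnion.mpr ⟨hfin.toFinset.toList, ?_⟩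
  have : {y | ∃ z ∈ hfin.toFinset.toList, (z : A n) = y} = E := by
    ext y
    simp only [Finset.mem_toList, Set.Finite.mem_toFinset, Set.mem_preimage, Set.mem_ofPred_eq]
    constructor
    · rintro ⟨z, hz, rfl⟩; exact hz
    · intro hy; exact ⟨⟨y, hES hy⟩, hy, rfl⟩
  rw [this]
  exact hP

theorem exists_s (m : ℕ) : ∃ s : A (m + 1) → A (m + 1),
    (∀ a, ∃ g h, constantCoeff g = 0 ∧ constantCoeff h = 0 ∧ s a = a - g * h) ∧
    ∀ E : Finset (A (m + 1)), (∀ a ∈ E, constantCoeff a = 0) → E.card ≤ m →
      (X 0 : A (m + 1)) ∉ Ideal.span (s '' E) := by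
  classical
  let T := (𝔠 : Cardinal.{0}).ord.ToType
  have hT : #(A (m + 1)) ≤ #T := by
    simp only [T, Cardinal.mk_toType, Cardinal.card_ord]; exact card_A
  obtain ⟨emb⟩ := (Cardinal.le_def _ _).mp hT
  let e : T → A (m + 1) := Function.invFun emb
  have he : ∀ a, e (emb a) = a := Function.leftInverse_invFun emb.injective
  obtain ⟨s, hs⟩ := trans_rec (T := T) (R := A (m + 1)) (fun τ S r =>
    ∃ g h : A (m + 1), constantCoeff g = 0 ∧ constantCoeff h = 0 ∧ r = e τ - g * h ∧
      ∀ E : Set (A (m + 1)), E.Finite → E ⊆ S →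
        ∀ P ∈ (Ideal.span (insert (X 0) E)).minimalPrimes,
        (∃ i, (X i : A (m + 1)) ∉ P) → r ∉ P) (by
      intro τ S hS
      obtain ⟨g, h, g0, h0, hh⟩ := step' S (lt_of_le_of_lt hS (Cardinal.mk_Iio_toType_ord_lt τ))
        (X 0) (e τ)
      exact ⟨_, g, h, g0, h0, rfl, hh⟩)
  have key : ∀ E : Finset T, E.card ≤ m → ∀ Q : Ideal (A (m + 1)), Q.IsPrime →
      Ideal.span (insert (X 0) (s '' E)) ≤ Q → ((E.card + 1 : ℕ) : ℕ∞) ≤ Q.height := by
    intro E
    induction E using Finset.induction_on_max with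
    | empty =>
      intro _ Q hQ hle
      have h1 : Q ≠ ⊥ := by
        intro h
        have : (X 0 : A (m + 1)) ∈ Q := hle (Ideal.subset_span (Set.mem_insert _ _))
        rw [h, Ideal.mem_bot] at this
        have h3 := congrArg (coeff (Finsupp.single (0 : Fin (m + 1)) 1)) this
        simp [coeff_X] at h3
      have h2 : Q.height ≠ 0 := fun h => h1 (Ideal.height_eq_zero_iff_eq_bot.mp h)
      simpa using Order.one_le_iff_ne_zero.mpr h2
    | insert τ E hτ ih =>
      intro hc Q hQ hle
      have hnot : τ ∉ E := fun h => lt_irrefl _ (hτ τ h)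
      rw [Finset.card_insert_of_notMem hnot] at hc ⊢
      have hle' : Ideal.span (insert (X 0) (s '' E)) ≤ Q :=
        le_trans (Ideal.span_mono (Set.insert_subset_insert
          (Set.image_mono (by simp)))) hle
      obtain ⟨P, hP, hPQ⟩ := Ideal.exists_minimalPrimes_le hle'
      have hPp : P.IsPrime := hP.1.1
      have h1 := ih (by omega) P hPp hP.1.2
      have h2 : P.height ≤ ((E.card + 1 : ℕ) : ℕ∞) := by
        have h3 := Ideal.height_le_card_of_mem_minimalPrimes_span_finset (p := P)
          (s := insert (X 0) (E.image s)) (by simpa using hP)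
        refine h3.trans ?_
        have := (Finset.card_insert_le (X 0) (E.image s)).trans
          (Nat.add_le_add_right Finset.card_image_le 1)
        exact_mod_cast this
      have h4 : ∃ i, (X i : A (m + 1)) ∉ P := by
        by_contra h
        push Not at h
        have h5 := (height_ge P h).trans h2
        have : m + 1 ≤ E.card + 1 := by exact_mod_cast h5
        omega
      obtain ⟨g, h, -, -, -, hh⟩ := hs τ
      have h6 := hh (s '' E) (E.finite_toSet.image s) (Set.image_mono (fun b hb => hτ b hb)) P hP h4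
      have h7 : P < Q := lt_of_le_of_ne hPQ (by
        rintro rfl
        exact h6 (hle (Ideal.subset_span (Set.mem_insert_of_mem _ ⟨τ, by simp, rfl⟩))))
      refine le_trans ?_ (Ideal.height_add_one_le_of_lt_of_isPrime h7)
      push_cast at h1 ⊢
      gcongr
  refine ⟨fun a => s (emb a), ?_, ?_⟩
  · intro a
    obtain ⟨g, h, g0, h0, hh, -⟩ := hs (emb a)
    exact ⟨g, h, g0, h0, by simp only [hh, he]⟩
  · intro E hE hc hX
    have hne : Ideal.span ((fun a => s (emb a)) '' E) ≠ ⊤ := by
      have : Ideal.span ((fun a => s (emb a)) '' E) ≤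
          RingHom.ker (constantCoeff (σ := Fin (m + 1)) (R := F)) := by
        rw [Ideal.span_le]
        rintro _ ⟨a, ha, rfl⟩
        obtain ⟨g, h, g0, h0, hh, -⟩ := hs (emb a)
        simp [hh, he, hE a ha, g0]
      intro h
      rw [h] at this
      have h1 := this (Submodule.mem_top : (1 : A (m + 1)) ∈ ⊤)
      simp at h1
    obtain ⟨P, hP⟩ := Ideal.nonempty_minimalPrimes hne
    have h1 := key (E.map emb) (by simpa using hc) P hP.1.1 (by
      rw [Ideal.span_le]
      rintro y (rfl | ⟨τ, hτ, rfl⟩)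
      · exact hP.1.2 hX
      · simp only [Finset.coe_map, Set.mem_image] at hτ
        obtain ⟨a, ha, rfl⟩ := hτ
        exact hP.1.2 (Ideal.subset_span ⟨a, ha, rfl⟩))
    have h2 := Ideal.height_le_card_of_mem_minimalPrimes_span_finset (p := P)
      (s := E.image (fun a => s (emb a))) (by simpa using hP)
    have h3 : ((E.map emb).card + 1 : ℕ) ≤ (E.image (fun a => s (emb a))).card := by
      exact_mod_cast h1.trans h2
    have h4 : (E.image (fun a => s (emb a))).card ≤ E.card := Finset.card_image_le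
    rw [Finset.card_map] at h3
    omega

end Pool.Agent.H48.PerfA
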