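import Mathlib
import Pool.Agent.H48.PerfA

set_option autoImplicit false

namespace Pool.Agent.H48.PerfB

open Matrix Filter Topology
open scoped commutatorElement

section Grp
variable {R : Type} [CommRing R] (I : Ideal R)

/-- The principal congruence subgroup of level `I` in `SL 2 R`. -/
def Gs : Subgroup (SpecialLinearGroup (Fin 2) R) :=
  (SpecialLinearGroup.map (n := Fin 2) (Ideal.Quotient.mk I)).ker

lemma mem_Gs (g : SpecialLinearGroup (Fin 2) R) :
    g ∈ Gs I ↔ ∀ i j, g.1 i j - (1 : Matrix (Fin 2) (Fin 2) R) i j ∈ I := by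
  rw [Gs, MonoidHom.mem_ker, Matrix.SpecialLinearGroup.ext_iff]
  refine forall_congr' fun i => forall_congr' fun j => ?_
  rw [← Ideal.Quotient.eq]
  have : Ideal.Quotient.mk I ((1 : Matrix (Fin 2) (Fin 2) R) i j) =
      (1 : Matrix (Fin 2) (Fin 2) (R ⧸ I)) i j := by
    by_cases h : i = j <;> simp [Matrix.one_apply, h]
  rw [this]
  rfl

instance : (Gs I).Normal := MonoidHom.normal_ker _

def mkG (a b c d : R) (h : a * d - b * c = 1) (ha : a - 1 ∈ I) (hb : b ∈ I) (hc : c ∈ I)
    (hd : d - 1 ∈ I) : Gs I :=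
  ⟨⟨!![a, b; c, d], by rw [det_fin_two_of]; exact h⟩, by
    apply (mem_Gs I _).mpr
    intro i j
    fin_cases i <;> fin_cases j <;> simp [ha, hb, hc, hd]⟩

def mat (x : Gs I) : Matrix (Fin 2) (Fin 2) R := x.1.1

lemma mat_mul (x y : Gs I) : mat I (x * y) = mat I x * mat I y := rfl

lemma mat_mkG (a b c d : R) (h : a * d - b * c = 1) (ha : a - 1 ∈ I) (hb : b ∈ I) (hc : c ∈ I)
    (hd : d - 1 ∈ I) : mat I (mkG I a b c d h ha hb hc hd) = !![a, b; c, d] := rfl

lemma mat_pow (x : Gs I) (k : ℕ) : mat I (x ^ k) = mat I x ^ k := by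
  induction k with
  | zero => rw [pow_zero, pow_zero]; rfl
  | succ k ih => rw [pow_succ, mat_mul, ih, pow_succ]

def E12 (b : R) (hb : b ∈ I) : Gs I := mkG I 1 b 0 1 (by ring) (by simp) hb (by simp) (by simp)
def E21 (c : R) (hc : c ∈ I) : Gs I := mkG I 1 0 c 1 (by ring) (by simp) (by simp) hc (by simp)

lemma inv_mem {u v : R} (h : u * v = 1) (hu : u - 1 ∈ I) : v - 1 ∈ I := by
  have : v - 1 = -v * (u - 1) := by linear_combination h
  rw [this]; exact I.mul_mem_left _ hu

def D (u v : R) (h : u * v = 1) (hu : u - 1 ∈ I) : Gs I :=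
  mkG I u 0 0 v (by linear_combination h) hu (by simp) (by simp) (inv_mem I h hu)

lemma G_ext (x y : Gs I) (h00 : mat I x 0 0 = mat I y 0 0) (h01 : mat I x 0 1 = mat I y 0 1)
    (h10 : mat I x 1 0 = mat I y 1 0) (h11 : mat I x 1 1 = mat I y 1 1) : x = y := by
  apply Subtype.ext
  apply Subtype.ext
  ext i j
  fin_cases i <;> fin_cases j <;> assumption

theorem perfect (U : Ideal R) (hu : ∀ a ∈ I, IsUnit (1 + a)) (h2 : ∀ a ∈ I, IsUnit (2 + a))
    (hU : ∀ a ∈ I, ∃ g ∈ I, ∃ h ∈ I, a - g * h ∈ U) :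
    commutator (Gs I ⧸ (Gs U).subgroupOf (Gs I)) = ⊤ := by
  let H : Subgroup (Gs I) := (commutator (Gs I ⧸ (Gs U).subgroupOf (Gs I))).comap
    (QuotientGroup.mk' _)
  have hK : ∀ x : Gs I, (∀ i j, mat I x i j - (1 : Matrix (Fin 2) (Fin 2) R) i j ∈ U) → x ∈ H := by
    intro x hx
    have : QuotientGroup.mk' ((Gs U).subgroupOf (Gs I)) x = 1 := by
      rw [QuotientGroup.mk'_apply, QuotientGroup.eq_one_iff, Subgroup.mem_subgroupOf, mem_Gs]
      exact hx
    simp only [H, Subgroup.mem_comap, this]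
    exact one_mem _
  have hC : ∀ x y z : Gs I, z * (y * x) = x * y → z ∈ H := by
    intro x y z h
    have : z = ⁅x, y⁆ := by
      rw [commutatorElement_def, ← h]; group
    simp only [H, Subgroup.mem_comap, this, map_commutatorElement]
    exact Subgroup.commutator_mem_commutator (Subgroup.mem_top _) (Subgroup.mem_top _)
  have h12 : ∀ b (hb : b ∈ I), E12 I b hb ∈ H := by
    intro b hb
    obtain ⟨g, hg, h, hh, hgh⟩ := hU b hb
    obtain ⟨v, hv⟩ := (hu g hg).exists_right_inv
    obtain ⟨w, hw⟩ := (h2 g hg).exists_right_inv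
    have e : E12 I b hb = E12 I (b - g * h) (sub_mem hb (I.mul_mem_left _ hh)) *
        E12 I (g * h) (I.mul_mem_left _ hh) := by
      apply G_ext <;> simp [E12, mat_mul, mat_mkG]
    rw [e]
    apply mul_mem
    · apply hK
      intro i j
      fin_cases i <;> fin_cases j <;> simp [E12, mat_mkG, hgh]
    · apply hC (D I (1 + g) v hv (by simpa using hg)) (E12 I (w * h) (I.mul_mem_left _ hh))
      apply G_ext <;> simp [E12, D, mat_mul, mat_mkG]
      linear_combination ((w * h) * (1 + g)) * hv - g * h * v * hw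
  have h21 : ∀ b (hb : b ∈ I), E21 I b hb ∈ H := by
    intro b hb
    obtain ⟨g, hg, h, hh, hgh⟩ := hU b hb
    obtain ⟨v, hv⟩ := (hu g hg).exists_right_inv
    obtain ⟨w, hw⟩ := (h2 g hg).exists_right_inv
    have e : E21 I b hb = E21 I (b - g * h) (sub_mem hb (I.mul_mem_left _ hh)) *
        E21 I (g * h) (I.mul_mem_left _ hh) := by
      apply G_ext <;> simp [E21, mat_mul, mat_mkG]
    rw [e]
    apply mul_mem
    · apply hK
      intro i j
      fin_cases i <;> fin_cases j <;> simp [E21, mat_mkG, hgh]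
    · apply hC (D I v (1 + g) (by rw [mul_comm]; exact hv)
        (inv_mem I hv (by simpa using hg))) (E21 I (w * h) (I.mul_mem_left _ hh))
      apply G_ext <;> simp [E21, D, mat_mul, mat_mkG]
      linear_combination ((w * h) * (1 + g)) * hv - g * h * v * hw
  have hD : ∀ u v (h : u * v = 1) (hu' : u - 1 ∈ I), D I u v h hu' ∈ H := by
    intro u v huv hu'
    obtain ⟨g, hg, h, hh, hgh⟩ := hU _ hu'
    obtain ⟨w, hw⟩ := (hu (g * h) (I.mul_mem_left _ hh)).exists_right_inv
    have m1 : u * w - 1 ∈ U := by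
      have : u * w - 1 = w * (u - 1 - g * h) := by linear_combination hw
      rw [this]; exact U.mul_mem_left _ hgh
    have m1' : u * w - 1 ∈ I := by
      have : u * w - 1 = w * (u - 1 - g * h) := by linear_combination hw
      rw [this]; exact I.mul_mem_left _ (sub_mem hu' (I.mul_mem_left _ hh))
    have m2 : (u * w) * (v * (1 + g * h)) = 1 := by
      linear_combination (w * (1 + g * h)) * huv + hw
    have e : D I u v huv hu' = E21 I (-(h * w)) (neg_mem (I.mul_mem_right _ hh)) * E12 I g hg *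
        E21 I h hh * E12 I (-(g * w)) (neg_mem (I.mul_mem_right _ hg)) *
        D I (u * w) (v * (1 + g * h)) m2 m1' := by
      apply G_ext <;> simp [E21, E12, D, mat_mul, mat_mkG]
      · linear_combination -u * hw
      · linear_combination g * v * (1 + g * h) * hw
      · linear_combination h * u * w * hw
      · linear_combination (-v - g * h * w * v * (1 + g * h) + v * (1 + g * h)) * hw
    rw [e]
    refine mul_mem (mul_mem (mul_mem (mul_mem (h21 _ _) (h12 _ _)) (h21 _ _)) (h12 _ _)) ?_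
    apply hK
    intro i j
    fin_cases i <;> fin_cases j <;> simp [D, mat_mkG, m1, inv_mem U m2 m1]
  rw [eq_top_iff]
  intro q _
  obtain ⟨x, rfl⟩ := QuotientGroup.mk_surjective q
  change x ∈ H
  have hx : ∀ i j, mat I x i j - (1 : Matrix (Fin 2) (Fin 2) R) i j ∈ I := (mem_Gs I x.1).mp x.2
  have h00 := hx 0 0
  have h01 := hx 0 1
  have h10 := hx 1 0
  simp at h00 h01 h10
  obtain ⟨v, hv⟩ := (hu _ h00).exists_right_inv
  rw [add_sub_cancel] at hv
  have hdet : (mat I x).det = 1 := x.1.2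
  rw [det_fin_two] at hdet
  have e : x = E21 I (mat I x 1 0 * v) (I.mul_mem_right _ h10) * D I (mat I x 0 0) v hv h00 *
      E12 I (mat I x 0 1 * v) (I.mul_mem_right _ h01) := by
    apply G_ext <;> simp [E21, E12, D, mat_mul, mat_mkG]
    · linear_combination -(mat I x 0 1) * hv
    · linear_combination -(mat I x 1 0) * hv
    · linear_combination v * hdet - (mat I x 1 1 + mat I x 1 0 * mat I x 0 1 * v) * hv
  rw [e]
  exact mul_mem (mul_mem (h21 _ _) (hD _ _ _ _)) (h12 _ _)

lemma K_ne_top (U : Ideal R) (f : R) (hf : f ∈ I) (hf' : f ∉ U) :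
    (Gs U).subgroupOf (Gs I) ≠ ⊤ := by
  intro h
  have h1 : E12 I f hf ∈ (Gs U).subgroupOf (Gs I) := by rw [h]; trivial
  rw [Subgroup.mem_subgroupOf, mem_Gs] at h1
  have : f - (1 : Matrix (Fin 2) (Fin 2) R) 0 1 ∈ U := h1 0 1
  simp at this
  exact hf' this

lemma pow_entry (M : Matrix (Fin 2) (Fin 2) R) (hM : ∀ i j, M i j ∈ I) (N : ℕ) :
    ∀ i j, (M ^ N) i j ∈ I ^ N := by
  induction N with
  | zero => simp
  | succ N ih =>
    intro i j
    rw [pow_succ M, Matrix.mul_apply, pow_succ I]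
    exact Ideal.sum_mem _ (fun k _ => Ideal.mul_mem_mul (ih i k) (hM k j))

variable [TopologicalSpace R] [IsTopologicalRing R]

lemma compact_Gs [CompactSpace R] [T2Space R] (hI : IsClosed (I : Set R)) :
    CompactSpace (Gs I) := by
  have : CompactSpace (Matrix (Fin 2) (Fin 2) R) := Pi.compactSpace
  have : CompactSpace (SpecialLinearGroup (Fin 2) R) :=
    SpecialLinearGroup.isClosedEmbedding_val.compactSpace
  apply isCompact_iff_compactSpace.mp
  apply IsClosed.isCompact
  have : ((Gs I : Subgroup _) : Set (SpecialLinearGroup (Fin 2) R)) =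
      ⋂ i, ⋂ j, (fun g : SpecialLinearGroup (Fin 2) R =>
        g.1 i j - (1 : Matrix (Fin 2) (Fin 2) R) i j) ⁻¹' I := by
    ext g
    simp [mem_Gs]
  rw [this]
  refine isClosed_iInter fun i => isClosed_iInter fun j => hI.preimage ?_
  exact (continuous_subtype_val.matrix_elem i j).sub continuous_const

lemma prop_Gs [CompactSpace R] [T2Space R] [CharP R 3] (hI : IsClosed (I : Set R))
    (hnil : ∀ x : ℕ → R, (∀ k, x k ∈ I ^ k) → Tendsto x atTop (𝓝 0))
    (V : Subgroup (Gs I)) (hV : IsOpen (V : Set (Gs I))) (hn : V.Normal) :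
    ∃ n : ℕ, V.index = 3 ^ n := by
  have := compact_Gs I hI
  have := V.quotient_finite_of_isOpen hV
  have : Fact (Nat.Prime 3) := ⟨Nat.prime_three⟩
  apply IsPGroup.iff_card.mp
  intro q
  obtain ⟨x, rfl⟩ := QuotientGroup.mk_surjective q
  have ht : Tendsto (fun k : ℕ => x ^ 3 ^ k) atTop (𝓝 1) := by
    rw [tendsto_subtype_rng]
    apply tendsto_subtype_rng.mpr
    apply tendsto_pi_nhds.mpr
    intro i
    apply tendsto_pi_nhds.mpr
    intro j
    change Tendsto (fun k : ℕ => mat I (x ^ 3 ^ k) i j) atTop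
      (𝓝 ((1 : Matrix (Fin 2) (Fin 2) R) i j))
    set M : Matrix (Fin 2) (Fin 2) R := mat I x - 1 with hM
    have hM' : ∀ i j, M i j ∈ I := (mem_Gs I x.1).mp x.2
    have e : ∀ k : ℕ, mat I (x ^ 3 ^ k) i j =
        (1 : Matrix (Fin 2) (Fin 2) R) i j + (M ^ 3 ^ k) i j := by
      intro k
      have h1 : mat I (x ^ 3 ^ k) = (1 + M) ^ 3 ^ k := by
        rw [hM, add_sub_cancel, mat_pow]
      rw [h1, add_pow_char_pow_of_commute _ _ (Commute.one_left M), one_pow]
      rfl
    simp only [e]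
    have h2 := hnil (fun k => (M ^ 3 ^ k) i j) (fun k =>
      Ideal.pow_le_pow_right (Nat.lt_pow_self (by norm_num)).le (pow_entry I M hM' _ i j))
    simpa using h2.const_add ((1 : Matrix (Fin 2) (Fin 2) R) i j)
  obtain ⟨k, hk⟩ := (ht.eventually (hV.mem_nhds V.one_mem)).exists
  refine ⟨k, ?_⟩
  rw [← QuotientGroup.mk_pow, QuotientGroup.eq_one_iff]
  exact hk

end Grp

section Conc
open Pool.Agent.H48.PerfA MvPowerSeries
open scoped MvPowerSeries.WithPiTopology

abbrev R : Type := ∀ m : ℕ, A (m + 1)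

def I : Ideal R where
  carrier := {f | ∀ m, constantCoeff (f m) = 0}
  zero_mem' := by simp
  add_mem' := by
    intro a b ha hb m
    simp [ha m, hb m]
  smul_mem' := by
    intro c a ha m
    simp [ha m]

lemma mem_I (f : R) : f ∈ I ↔ ∀ m, constantCoeff (f m) = 0 := Iff.rfl

lemma unit1 (a : R) (ha : a ∈ I) : IsUnit (1 + a) := by
  rw [Pi.isUnit_iff]
  intro m
  rw [isUnit_iff_constantCoeff]
  simp [ha m]

lemma unit2 (a : R) (ha : a ∈ I) : IsUnit (2 + a) := by
  rw [Pi.isUnit_iff]
  intro m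
  rw [isUnit_iff_constantCoeff]
  have : (2 + a) m = C (2 : F) + a m := by
    rw [map_ofNat]; rfl
  rw [this, map_add, ha m, constantCoeff_C, add_zero]
  exact Ne.isUnit (by decide)

theorem exists_U : ∃ U : Ideal R, (∀ a ∈ I, ∃ g ∈ I, ∃ h ∈ I, a - g * h ∈ U) ∧
    ∃ f ∈ I, f ∉ U := by
  classical
  choose s hs hs' using exists_s
  refine ⟨Ideal.span ((fun (a : R) => (fun m => s m (a m) : R)) '' I), ?_, fun _ => X 0, ?_, ?_⟩
  · intro a ha
    choose g h hg hh hgh using fun m => hs m (a m)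
    refine ⟨g, hg, h, hh, Ideal.subset_span ⟨a, ha, ?_⟩⟩
    funext m
    exact hgh m
  · intro m; simp
  · intro hf
    obtain ⟨T, hT, hf⟩ := Submodule.mem_span_finite_of_mem_span hf
    obtain ⟨E, hE, rfl⟩ := Finset.subset_set_image_iff.mp hT
    apply hs' E.card (E.image (fun a => a E.card))
    · intro a ha
      obtain ⟨b, hb, rfl⟩ := Finset.mem_image.mp ha
      exact hE hb _
    · exact Finset.card_image_le
    · have h1 := Ideal.mem_map_of_mem (Pi.evalRingHom (fun m => A (m + 1)) E.card) hf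
      rw [Ideal.submodule_span_eq, Ideal.map_span] at h1
      refine Ideal.span_mono ?_ h1
      rintro _ ⟨y, hy, rfl⟩
      simp only [Finset.coe_image, Set.mem_image, Finset.mem_coe] at hy ⊢
      obtain ⟨b, hb, rfl⟩ := hy
      exact ⟨b E.card, ⟨b, hb, rfl⟩, rfl⟩

instance (n : ℕ) : CompactSpace (A n) := Pi.compactSpace
instance (n : ℕ) : TotallyDisconnectedSpace (A n) := Pi.totallyDisconnectedSpace

instance : CharP R 3 := by
  have : Algebra F R := inferInstance
  exact charP_of_injective_algebraMap (algebraMap F R).injective 3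

lemma I_closed : IsClosed (I : Set R) := by
  have : (I : Set R) = ⋂ m, (fun f : R => constantCoeff (f m)) ⁻¹' {0} := by
    ext f
    simp [mem_I]
  rw [this]
  refine isClosed_iInter fun m => isClosed_singleton.preimage ?_
  exact (WithPiTopology.continuous_constantCoeff _).comp (continuous_apply m)

lemma order_ge (k : ℕ) (x : R) (hx : x ∈ I ^ k) (m : ℕ) : (k : ℕ∞) ≤ (x m).order := by
  induction k generalizing x with
  | zero => simp
  | succ k ih =>
    rw [pow_succ] at hx
    refine Submodule.mul_induction_on hx ?_ ?_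
    · intro a ha b hb
      refine le_trans ?_ le_order_mul
      push_cast
      exact add_le_add (ih a ha) (one_le_order_iff_constCoeff_eq_zero.mpr (hb m))
    · intro a b ha hb
      exact le_trans (le_min ha hb) min_order_le_add

lemma nil (x : ℕ → R) (hx : ∀ k, x k ∈ I ^ k) : Tendsto x atTop (𝓝 0) := by
  rw [tendsto_pi_nhds]
  intro m
  rw [WithPiTopology.tendsto_iff_coeff_tendsto]
  intro d
  apply tendsto_const_nhds.congr'
  filter_upwards [eventually_gt_atTop d.degree] with k hk
  rw [coeff_of_lt_order (lt_of_lt_of_le (by exact_mod_cast hk) (order_ge k _ (hx k) m))]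
  simp

theorem main : ∃ (p : ℕ) (G : Type) (_ : Group G) (_ : TopologicalSpace G)
      (_ : IsTopologicalGroup G)
      (_ : CompactSpace G) (_ : T2Space G) (_ : TotallyDisconnectedSpace G),
      p.Prime ∧
      (∀ U : Subgroup G, IsOpen (U : Set G) → U.Normal → ∃ n : ℕ, U.index = p ^ n) ∧
      ∃ (K : Subgroup G) (_ : K.Normal), K ≠ ⊤ ∧ commutator (G ⧸ K) = ⊤ := by
  obtain ⟨U, hU, f, hf, hf'⟩ := exists_U
  have h1 : TotallyDisconnectedSpace (Matrix (Fin 2) (Fin 2) R) := Pi.totallyDisconnectedSpace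
  have h2 : TotallyDisconnectedSpace (SpecialLinearGroup (Fin 2) R) :=
    Subtype.totallyDisconnectedSpace
  have h3 : T2Space (SpecialLinearGroup (Fin 2) R) :=
    SpecialLinearGroup.isClosedEmbedding_val.isEmbedding.t2Space
  exact ⟨3, Gs I, inferInstance, inferInstance, inferInstance, compact_Gs I I_closed,
    inferInstance, inferInstance, Nat.prime_three, prop_Gs I I_closed nil,
    (Gs U).subgroupOf (Gs I), inferInstance, K_ne_top I U f hf hf', perfect I U unit1 unit2 hU⟩

end Conc

end Pool.Agent.H48.PerfB
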