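import Mathlib

set_option autoImplicit false

namespace Pool.Agent.H48.QNeu

open Quaternion MulOpposite

lemma key {l m c : ℍ[ℝ]} (hc : c ≠ 0) (h : star l * c + c * m = 0) :
    m.re = -l.re ∧ normSq m = normSq l := by
  have h1 : c * m = -(star l * c) := by rw [eq_neg_iff_add_eq_zero, add_comm]; exact h
  have hn : normSq c ≠ 0 := normSq_ne_zero.2 hc
  constructor
  · have h2 : star c * (c * m) = -(star c * (star l * c)) := by rw [h1, mul_neg]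
    rw [← mul_assoc, star_mul_self] at h2
    have h3 : ((normSq c : ℝ) * m : ℍ[ℝ]).re = (-(star c * (star l * c))).re := by rw [h2]
    apply mul_left_cancel₀ hn
    rw [coe_mul_eq_smul, re_smul, smul_eq_mul] at h3
    rw [h3]
    simp [normSq_def']
    ring
  · have h2 := congrArg normSq h1
    rw [normSq_neg, map_mul, map_mul, normSq_star, mul_comm] at h2
    exact mul_right_cancel₀ hn h2

lemma sim_of {p q : ℍ[ℝ]} (h1 : p.re = q.re) (h2 : normSq p = normSq q) :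
    ∃ u : ℍ[ℝ], u ≠ 0 ∧ q = u⁻¹ * p * u := by
  suffices ∃ u : ℍ[ℝ], u ≠ 0 ∧ p * u = u * q by
    obtain ⟨u, hu, h⟩ := this
    exact ⟨u, hu, by rw [mul_assoc, h, ← mul_assoc, inv_mul_cancel₀ hu, one_mul]⟩
  rw [normSq_def', normSq_def', h1] at h2
  have mk : ∀ a b c : ℝ, ∃ u : ℍ[ℝ], u.re = 0 ∧ u.imI = a ∧ u.imJ = b ∧ u.imK = c :=
    fun a b c => ⟨⟨0, a, b, c⟩, rfl, rfl, rfl, rfl⟩
  obtain ⟨u, u0, u1, u2, u3⟩ := mk (p.imI + q.imI) (p.imJ + q.imJ) (p.imK + q.imK)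
  by_cases c : u = 0
  · rw [c] at u1 u2 u3
    have c1 : q.imI = -p.imI := by simp at u1; linarith
    have c2 : q.imJ = -p.imJ := by simp at u2; linarith
    have c3 : q.imK = -p.imK := by simp at u3; linarith
    obtain ⟨v, v0, v1, v2, v3⟩ := mk 0 p.imK (-p.imJ)
    by_cases d : v = 0
    · rw [d] at v2 v3
      have d1 : p.imK = 0 := by simpa using v2.symm
      have d2 : p.imJ = 0 := by simpa using v3.symm
      obtain ⟨w, w0, w1, w2, w3⟩ := mk 0 1 0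
      refine ⟨w, fun h => by simp [h] at w2, ?_⟩
      apply Quaternion.ext <;> simp [h1, c1, c2, c3, d1, d2, w0, w1, w2, w3]
    · refine ⟨v, d, ?_⟩
      apply Quaternion.ext <;> simp [h1, c1, c2, c3, v0, v1, v2, v3] <;> ring
  · refine ⟨u, c, ?_⟩
    apply Quaternion.ext <;> simp [h1, u0, u1, u2, u3] <;> linarith

lemma sim_re (l : ℍ[ℝ]) {u : ℍ[ℝ]} (hu : u ≠ 0) :
    (u⁻¹ * l * u).re = l.re ∧ normSq (u⁻¹ * l * u) = normSq l := by
  have := key (l := -star l) (m := u⁻¹ * l * u) hu (by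
    rw [star_neg, star_star, ← mul_assoc, ← mul_assoc, mul_inv_cancel₀ hu]; simp)
  simpa using this

variable {V : Type*} [AddCommGroup V] [Module ℍ[ℝ]ᵐᵒᵖ V]

noncomputable def kap : ℂ →+* ℍ[ℝ]ᵐᵒᵖ :=
  (ofComplex : ℂ →ₐ[ℝ] ℍ[ℝ]).toRingHom.toOpposite fun x y => by
    change ofComplex x * ofComplex y = ofComplex y * ofComplex x
    rw [← map_mul, ← map_mul, mul_comm]

noncomputable def T (A : V →ₗ[ℍ[ℝ]ᵐᵒᵖ] V) (m : ℍ[ℝ]) (x : V) : V := A x - op m • x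

def Gen (A : V →ₗ[ℍ[ℝ]ᵐᵒᵖ] V) (m : ℍ[ℝ]) (x : V) : Prop := ∃ k : ℕ, (T A m)^[k] x = 0

lemma gen_ind [Module.Finite ℍ[ℝ]ᵐᵒᵖ V] (A : V →ₗ[ℍ[ℝ]ᵐᵒᵖ] V) (P : V → Prop) (h0 : P 0)
    (hadd : ∀ x y, P x → P y → P (x + y)) (hg : ∀ m x, Gen A m x → P x) (x : V) : P x := by
  let : Module ℂ V := Module.compHom V kap
  let : Module ℝ V := Module.compHom V (algebraMap ℝ ℍ[ℝ]ᵐᵒᵖ)
  have : IsScalarTower ℝ ℍ[ℝ]ᵐᵒᵖ V := IsScalarTower.of_algebraMap_smul fun _ _ => rfl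
  have : IsScalarTower ℝ ℂ V := IsScalarTower.of_algebraMap_smul fun r x => by
    change kap (algebraMap ℝ ℂ r) • x = algebraMap ℝ ℍ[ℝ]ᵐᵒᵖ r • x
    congr 1
  have : Module.Finite ℝ V := Module.Finite.trans ℍ[ℝ]ᵐᵒᵖ V
  have : Module.Finite ℂ V := Module.Finite.of_restrictScalars_finite ℝ ℂ V
  let B : Module.End ℂ V :=
    { toFun := A, map_add' := A.map_add, map_smul' := fun c x => A.map_smul (kap c) x }
  have hx : x ∈ ⨆ μ, B.maxGenEigenspace μ := by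
    rw [Module.End.iSup_maxGenEigenspace_eq_top]; trivial
  refine Submodule.iSup_induction _ (motive := P) hx (fun μ y hy => ?_) h0 hadd
  obtain ⟨k, hk⟩ := (Module.End.mem_maxGenEigenspace _ _ _).1 hy
  refine hg (ofComplex μ) y ⟨k, ?_⟩
  rw [Module.End.pow_apply] at hk
  exact hk

lemma gen_map {W : Type*} [AddCommGroup W] [Module ℍ[ℝ]ᵐᵒᵖ W] {A : V →ₗ[ℍ[ℝ]ᵐᵒᵖ] V}
    {B : W →ₗ[ℍ[ℝ]ᵐᵒᵖ] W} (f : V →ₗ[ℍ[ℝ]ᵐᵒᵖ] W) (hf : ∀ x, f (A x) = B (f x)) {m : ℍ[ℝ]} {x : V}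
    (h : Gen A m x) : Gen B m (f x) := by
  obtain ⟨k, hk⟩ := h
  refine ⟨k, ?_⟩
  have : Function.Semiconj f (T A m) (T B m) := fun y => by simp [T, hf]
  rw [← (this.iterate_right k) x, hk, map_zero]

def Inv (A : V →ₗ[ℍ[ℝ]ᵐᵒᵖ] V) (N : Submodule ℍ[ℝ]ᵐᵒᵖ V) : Prop := ∀ x ∈ N, A x ∈ N

lemma gen_ind' [Module.Finite ℍ[ℝ]ᵐᵒᵖ V] (A : V →ₗ[ℍ[ℝ]ᵐᵒᵖ] V) {N : Submodule ℍ[ℝ]ᵐᵒᵖ V}
    (hN : Inv A N) (P : V → Prop) (h0 : P 0)
    (hadd : ∀ x y, P x → P y → P (x + y)) (hg : ∀ m, ∀ x ∈ N, Gen A m x → P x) (x : V)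
    (hx : x ∈ N) : P x :=
  gen_ind (A.restrict hN) (fun y : N => P y) h0 (fun x y => hadd x y)
    (fun m y hy => hg m y y.2 (gen_map N.subtype (fun _ => rfl) hy)) ⟨x, hx⟩

lemma gen_eig {A : V →ₗ[ℍ[ℝ]ᵐᵒᵖ] V} {N U : Submodule ℍ[ℝ]ᵐᵒᵖ V} (hU : Inv A U) {m : ℍ[ℝ]} {x : V}
    (h : Gen A m x) (hx : x ∈ U) (hx' : x ∉ N) : ∃ y ∈ U, y ∉ N ∧ T A m y ∈ N := by
  obtain ⟨k, hk⟩ := h
  induction k generalizing x with
  | zero => exact absurd (by rw [show x = 0 from hk]; exact N.zero_mem) hx'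
  | succ k ih =>
    by_cases c : T A m x ∈ N
    · exact ⟨x, hx, hx', c⟩
    · exact ih (U.sub_mem (hU x hx) (U.smul_mem _ hx)) c hk

lemma eig_mod [Module.Finite ℍ[ℝ]ᵐᵒᵖ V] {A : V →ₗ[ℍ[ℝ]ᵐᵒᵖ] V} {N U : Submodule ℍ[ℝ]ᵐᵒᵖ V}
    (hU : Inv A U) {u : V} (hu : u ∈ U) (hu' : u ∉ N) : ∃ m, ∃ y ∈ U, y ∉ N ∧ T A m y ∈ N := by
  by_contra hc
  refine hu' (gen_ind' A hU (· ∈ N) N.zero_mem (fun _ _ => N.add_mem) (fun m x hx hg => ?_) u hu)
  by_contra h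
  exact hc ⟨m, gen_eig hU hg hx h⟩

structure Form (b : V → V → ℍ[ℝ]) (A : V →ₗ[ℍ[ℝ]ᵐᵒᵖ] V) : Prop where
  add_r : ∀ x y z, b x (y + z) = b x y + b x z
  smul_r : ∀ x y q, b x (op q • y) = b x y * q
  symm : ∀ x y, b y x = star (b x y)
  skew : ∀ x y, b (A x) y = -b x (A y)
  ker : ∀ x, (∀ y, b x y = 0) → A x = 0

def Nn (b : V → V → ℍ[ℝ]) (M : Submodule ℍ[ℝ]ᵐᵒᵖ V) : Prop := ∀ x ∈ M, 0 ≤ (b x x).re

namespace Form

variable {b : V → V → ℍ[ℝ]} {A : V →ₗ[ℍ[ℝ]ᵐᵒᵖ] V} (F : Form b A)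
include F

lemma neg : Form (fun x y => -b x y) A where
  add_r x y z := by rw [F.add_r, neg_add]
  smul_r x y q := by rw [F.smul_r, neg_mul]
  symm x y := by rw [F.symm, star_neg]
  skew x y := by rw [F.skew]
  ker x h := F.ker x fun y => neg_eq_zero.1 (h y)

lemma zero_r (x : V) : b x 0 = 0 := by simpa using F.smul_r x 0 0
lemma zero_l (x : V) : b 0 x = 0 := by rw [F.symm, F.zero_r, star_zero]
lemma add_l (x y z : V) : b (x + y) z = b x z + b y z := by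
  rw [F.symm, F.add_r, star_add, ← F.symm, ← F.symm]
lemma smul_l (x y : V) (q : ℍ[ℝ]) : b (op q • x) y = star q * b x y := by
  rw [F.symm, F.smul_r, star_mul, ← F.symm]
lemma sub_r (x y z : V) : b x (y - z) = b x y - b x z := by
  rw [eq_sub_iff_add_eq, ← F.add_r, sub_add_cancel]
lemma sub_l (x y z : V) : b (x - y) z = b x z - b y z := by
  rw [eq_sub_iff_add_eq, ← F.add_l, sub_add_cancel]
lemma swap {x y : V} (h : b x y = 0) : b y x = 0 := by rw [F.symm, h, star_zero]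
lemma real (x : V) : b x x = ((b x x).re : ℍ[ℝ]) := (star_eq_self.1 (F.symm x x).symm)

def orth (x : V) : Submodule ℍ[ℝ]ᵐᵒᵖ V where
  carrier := {y | b x y = 0}
  add_mem' {y z} hy hz := by
    simp only [Set.mem_ofPred_eq] at *
    rw [F.add_r, hy, hz, add_zero]
  zero_mem' := F.zero_r x
  smul_mem' c y hy := by
    simp only [Set.mem_ofPred_eq] at *
    rw [← op_unop c, F.smul_r, hy, zero_mul]

lemma mem_orth {x y : V} : y ∈ F.orth x ↔ b x y = 0 := Iff.rfl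

lemma quad (x y : V) (q : ℍ[ℝ]) : (b (y + op q • x) (y + op q • x)).re =
    (b y y).re + 2 * (star (b x y) * q).re + normSq q * (b x x).re := by
  rw [F.add_l, F.add_r, F.add_r, F.smul_r, F.smul_l, F.smul_l, F.smul_r, F.symm x y, F.real x]
  simp [normSq_def']
  ring

lemma cs {M : Submodule ℍ[ℝ]ᵐᵒᵖ V} (hM : Nn b M) {x y : V} (hx : x ∈ M) (hy : y ∈ M)
    (h : (b x x).re = 0) : b x y = 0 := by
  by_contra hc
  have hn : 0 < normSq (b x y) := lt_of_le_of_ne normSq_nonneg (normSq_ne_zero.2 hc).symm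
  set t : ℝ := ((b y y).re + 1) / normSq (b x y) with ht
  have h1 := hM _ (M.add_mem hy (M.smul_mem (op (-(t : ℍ[ℝ]) * b x y)) hx))
  have h2 : (star (b x y) * (-(t : ℍ[ℝ]) * b x y)).re = -(t * normSq (b x y)) := by
    simp [normSq_def']; ring
  rw [F.quad, h, h2, ht, div_mul_cancel₀ _ hn.ne'] at h1
  have := hM y hy
  linarith

lemma proj1 {x : V} (hx : (b x x).re ≠ 0) (y : V) : ∃ c : ℍ[ℝ], b x (y + op c • x) = 0 := by
  have : b x x ≠ 0 := fun h => hx (by rw [h]; rfl)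
  exact ⟨-((b x x)⁻¹ * b x y), by
    rw [F.add_r, F.smul_r, mul_neg, ← mul_assoc, mul_inv_cancel₀ this, one_mul, add_neg_cancel]⟩

lemma lt_orth (U : Submodule ℍ[ℝ]ᵐᵒᵖ V) {x : V} (hxU : x ∈ U) (hx : (b x x).re ≠ 0) :
    U ⊓ F.orth x < U :=
  lt_of_le_of_ne inf_le_left fun h => hx (by
    rw [← h] at hxU
    rw [F.mem_orth.1 hxU.2]; rfl)

variable [Module.Finite ℍ[ℝ]ᵐᵒᵖ V]

lemma proj {M : Submodule ℍ[ℝ]ᵐᵒᵖ V} (hM : Nn b M) {m : V} (hm : m ∈ M)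
    (L : Submodule ℍ[ℝ]ᵐᵒᵖ V) (hL : L ≤ M) : ∃ l ∈ L, ∀ y ∈ L, b y (m + l) = 0 := by
  induction L using WellFoundedLT.induction with
  | _ L ih =>
    by_cases c : ∀ y ∈ L, (b y y).re = 0
    · exact ⟨0, L.zero_mem, fun y hy => by rw [add_zero]; exact F.cs hM (hL hy) hm (c y hy)⟩
    push Not at c
    obtain ⟨x, hx, hx0⟩ := c
    obtain ⟨l, hl, h1⟩ := ih _ (F.lt_orth L hx hx0) (inf_le_left.trans hL)
    obtain ⟨c, hc⟩ := F.proj1 hx0 (m + l)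
    refine ⟨l + op c • x, L.add_mem hl.1 (L.smul_mem _ hx), fun y hy => ?_⟩
    obtain ⟨d, hd⟩ := F.proj1 hx0 y
    have h2 := h1 _ ⟨L.add_mem hy (L.smul_mem _ hx), hd⟩
    have h3 : b (y + op d • x) (m + l + op c • x) = 0 := by
      rw [F.add_r, h2, F.smul_r, F.swap hd, zero_mul, add_zero]
    rw [F.add_l, F.smul_l, hc, mul_zero, add_zero] at h3
    rwa [← add_assoc]

lemma step {N : Submodule ℍ[ℝ]ᵐᵒᵖ V} (U : Submodule ℍ[ℝ]ᵐᵒᵖ V) (hU : Inv A U) (hNU : N ≤ U)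
    (ho : ∀ n ∈ N, ∀ u ∈ U, b n u = 0) {u : V} (hu : u ∈ U) (hu' : u ∉ N) (h0 : 0 ≤ (b u u).re) :
    ∃ m, ∃ x ∈ U, x ∉ N ∧ T A m x ∈ N ∧ 0 ≤ (b x x).re := by
  induction U using WellFoundedLT.induction generalizing u with
  | _ U ih =>
    obtain ⟨m, x, hx, hx', hT⟩ := eig_mod hU hu hu'
    by_cases c : 0 ≤ (b x x).re
    · exact ⟨m, x, hx, hx', hT, c⟩
    push Not at c
    obtain ⟨d, hd⟩ := F.proj1 c.ne u
    have hv : u + op d • x ∈ U := U.add_mem hu (U.smul_mem _ hx)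
    have e : (b u u).re = (b (u + op d • x) (u + op d • x)).re + normSq d * (b x x).re := by
      have := F.quad x (u + op d • x) (-d)
      rw [hd, op_neg, neg_smul, add_neg_cancel_right] at this
      simpa using this
    have hdn : 0 ≤ normSq d := normSq_nonneg
    obtain ⟨m', y, hy, h⟩ := ih _ (F.lt_orth U hx c.ne) (fun y hy => ⟨hU y hy.1, by
        have h1 := ho _ hT y hy.1
        rw [T, F.sub_l, F.smul_l, F.mem_orth.1 hy.2, mul_zero, sub_zero, F.skew, neg_eq_zero] at h1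
        exact h1⟩)
      (fun n hn => ⟨hNU hn, F.swap (ho n hn x hx)⟩) (fun n hn u hu => ho n hn u hu.1)
      (u := u + op d • x) ⟨hv, hd⟩ (fun hn => by
        rw [ho _ hn _ hv] at e
        have h1 : normSq d = 0 := by
          have : (0 : ℍ[ℝ]).re = 0 := rfl
          nlinarith
        rw [normSq_eq_zero.1 h1, op_zero, zero_smul, add_zero] at hn
        exact hu' hn) (by nlinarith)
    exact ⟨m', y, hy.1, h⟩

theorem ext1 {N : Submodule ℍ[ℝ]ᵐᵒᵖ V} (hN : Inv A N) (hN' : Nn b N) :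
    ∃ L, N ≤ L ∧ Inv A L ∧ Maximal (Nn b) L := by
  obtain ⟨L, ⟨h1, h2, h3⟩, hmax⟩ := (wellFounded_gt (α := Submodule ℍ[ℝ]ᵐᵒᵖ V)).has_min
    {L | N ≤ L ∧ Inv A L ∧ Nn b L} ⟨N, le_rfl, hN, hN'⟩
  refine ⟨L, h1, h2, h3, fun M hM hLM m hm => ?_⟩
  by_contra hc
  obtain ⟨l, hl, ho⟩ := F.proj hM hm L hLM
  have hmem : ∀ y, y ∈ (⨅ x ∈ L, F.orth x) ↔ ∀ x ∈ L, b x y = 0 := fun y => by
    simp only [Submodule.mem_iInf, F.mem_orth]
  obtain ⟨μ, x, hx, hx', hT, h0⟩ := F.step (N := L ⊓ ⨅ x ∈ L, F.orth x) (⨅ x ∈ L, F.orth x)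
    (fun y hy => (hmem _).2 fun x hx => by
      rw [← neg_eq_zero, ← F.skew]; exact (hmem _).1 hy _ (h2 x hx))
    inf_le_right (fun n hn u hu => (hmem _).1 hu n hn.1) ((hmem _).2 ho)
    (fun h => hc (by simpa using L.sub_mem h.1 hl)) (hM _ (M.add_mem hm (hLM hl)))
  have hxL : x ∉ L := fun h => hx' ⟨h, hx⟩
  have hs : ∀ y, y ∈ L ⊔ Submodule.span ℍ[ℝ]ᵐᵒᵖ {x} → ∃ l ∈ L, ∃ q : ℍ[ℝ], y = l + op q • x := by
    intro y hy
    obtain ⟨l, hl, z, hz, rfl⟩ := Submodule.mem_sup.1 hy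
    obtain ⟨q, rfl⟩ := Submodule.mem_span_singleton.1 hz
    exact ⟨l, hl, unop q, rfl⟩
  have hxs : x ∈ L ⊔ Submodule.span ℍ[ℝ]ᵐᵒᵖ {x} :=
    Submodule.mem_sup_right (Submodule.mem_span_singleton_self x)
  refine hmax (L ⊔ Submodule.span ℍ[ℝ]ᵐᵒᵖ {x}) ⟨h1.trans le_sup_left, fun y hy => ?_,
    fun y hy => ?_⟩ (lt_of_le_of_ne le_sup_left fun h => hxL (h ▸ hxs))
  · obtain ⟨l, hl, q, rfl⟩ := hs y hy
    rw [map_add, map_smul, show A x = T A μ x + op μ • x by simp [T]]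
    exact Submodule.add_mem _ (Submodule.mem_sup_left (h2 l hl)) (Submodule.smul_mem _ _
      (Submodule.add_mem _ (Submodule.mem_sup_left hT.1) (Submodule.smul_mem _ _ hxs)))
  · obtain ⟨l, hl, q, rfl⟩ := hs y hy
    rw [F.quad, F.swap ((hmem _).1 hx l hl)]
    have := h3 l hl
    have := mul_nonneg (normSq_nonneg (a := q)) h0
    simp only [star_zero, zero_mul, re_zero]
    linarith

omit [Module.Finite ℍ[ℝ]ᵐᵒᵖ V] in
lemma gen_orth {m n : ℍ[ℝ]} (h : ¬ (n.re = -m.re ∧ normSq n = normSq m)) {x y : V}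
    (hx : Gen A m x) (hy : Gen A n y) : b x y = 0 := by
  obtain ⟨j, hj⟩ := hx
  obtain ⟨k, hk⟩ := hy
  induction j generalizing x k y with
  | zero => rw [show x = 0 from hj, F.zero_l]
  | succ j ihj =>
    induction k generalizing y with
    | zero => rw [show y = 0 from hk, F.zero_r]
    | succ k ihk =>
      have h1 := ihj (x := T A m x) (y := y) hj (k + 1) hk
      have h2 := ihk (y := T A n y) hk
      rw [T, F.sub_l, F.smul_l, F.skew] at h1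
      rw [T, F.sub_r, F.smul_r] at h2
      by_contra hc
      refine h (key hc ?_)
      rw [sub_eq_zero] at h1 h2
      rw [← h1, h2, neg_add_cancel]

end Form

def Eig (A : V →ₗ[ℍ[ℝ]ᵐᵒᵖ] V) (N : Submodule ℍ[ℝ]ᵐᵒᵖ V) (l : ℍ[ℝ]) : Prop :=
  ∃ x ∈ N, x ≠ 0 ∧ A x = op l • x

def Pre (A : V →ₗ[ℍ[ℝ]ᵐᵒᵖ] V) (S : Set ℍ[ℝ]) : Prop :=
  (∀ l ∈ S, Eig A ⊤ l) ∧ (∀ l ∈ S, l.re ≠ 0) ∧ (∀ l ∈ S, ∀ u : ℍ[ℝ], u ≠ 0 → u⁻¹ * l * u ∈ S) ∧
    ∀ l ∈ S, -l ∉ S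

theorem Form.ext2 [Module.Finite ℍ[ℝ]ᵐᵒᵖ V] {b : V → V → ℍ[ℝ]} {A : V →ₗ[ℍ[ℝ]ᵐᵒᵖ] V} (F : Form b A)
    {N : Submodule ℍ[ℝ]ᵐᵒᵖ V} (hN : Inv A N) (hN' : ∀ x ∈ N, ∀ y ∈ N, b x y = 0)
    {S : Set ℍ[ℝ]} (hS : Maximal (Pre A) S) (h0 : {l | Eig A N l ∧ l.re ≠ 0} ⊆ S) :
    ∃ L, N ≤ L ∧ Inv A L ∧ Maximal (Nn b) L ∧ {l | Eig A L l ∧ l.re ≠ 0} = S := by
  obtain ⟨⟨s1, s2, s3, s4⟩, smax⟩ := hS
  have sim : ∀ p ∈ S, ∀ q : ℍ[ℝ], p.re = q.re → normSq p = normSq q → q ∈ S := by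
    intro p hp q h1 h2
    obtain ⟨u, hu, rfl⟩ := sim_of h1 h2
    exact s3 p hp u hu
  have nr : ∀ m ∈ S, ∀ n ∈ S, ¬ (n.re = -m.re ∧ normSq n = normSq m) := fun m hm n hn h =>
    s4 m hm (sim n hn (-m) (by simpa using h.1) (by simpa using h.2))
  set R := Submodule.span ℍ[ℝ]ᵐᵒᵖ {x | ∃ m ∈ S, Gen A m x} with hR
  have oR : ∀ x, (∀ m ∈ S, ∀ y, Gen A m y → b x y = 0) → ∀ y ∈ R, b x y = 0 := fun x h y hy => by
    have : R ≤ F.orth x := Submodule.span_le.2 fun y ⟨m, hm, hg⟩ => h m hm y hg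
    exact this hy
  have RR : ∀ x ∈ R, ∀ y ∈ R, b x y = 0 := fun x hx => oR x fun m hm y hy =>
    F.swap (oR y (fun n hn z hz => F.gen_orth (nr m hm n hn) hy hz) x hx)
  have NR : ∀ x ∈ N, ∀ y ∈ R, b x y = 0 := fun x hx => oR x fun n hn y hy => by
    refine gen_ind' A hN (fun x => b x y = 0) (F.zero_l y)
      (fun x z h1 h2 => by rw [F.add_l, h1, h2, add_zero]) (fun m x hx hg => ?_) x hx
    by_cases c : x = 0
    · rw [c, F.zero_l]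
    refine F.gen_orth (fun h => ?_) hg hy
    obtain ⟨z, hz, hz0, hT⟩ := gen_eig (N := ⊥) hN hg hx (by simpa using c)
    refine nr m (h0 ⟨⟨z, hz, by simpa using hz0, sub_eq_zero.1 hT⟩, fun h' => s2 n hn ?_⟩) n hn h
    rw [h.1, h', neg_zero]
  have iR : Inv A R := fun x hx => by
    have : R ≤ R.comap A := Submodule.span_le.2 fun y ⟨m, hm, hg⟩ =>
      Submodule.subset_span ⟨m, hm, gen_map A (fun _ => rfl) hg⟩
    exact this hx
  obtain ⟨L, h1, h2, h3⟩ := F.ext1 (N := N ⊔ R) (fun x hx => by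
      obtain ⟨n, hn, r, hr, rfl⟩ := Submodule.mem_sup.1 hx
      rw [map_add]
      exact Submodule.add_mem_sup (hN n hn) (iR r hr)) (fun x hx => by
      obtain ⟨n, hn, r, hr, rfl⟩ := Submodule.mem_sup.1 hx
      rw [F.add_l, F.add_r, F.add_r, hN' n hn n hn, NR n hn r hr, F.swap (NR n hn r hr),
        RR r hr r hr]
      simp)
  have hRL : R ≤ L := le_sup_right.trans h1
  refine ⟨L, le_sup_left.trans h1, h2, h3, Set.Subset.antisymm ?_ fun l hl => ?_⟩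
  · rintro l ⟨⟨x, hx, hx0, hxe⟩, hl⟩
    by_contra hc
    have hneg : -l ∈ S := by
      by_contra hc'
      refine hc (smax (y := S ∪ {q | q.re = l.re ∧ normSq q = normSq l}) ⟨?_, ?_, ?_, ?_⟩
        Set.subset_union_left (Or.inr ⟨rfl, rfl⟩))
      · rintro q (hq | hq)
        · exact s1 q hq
        · obtain ⟨u, hu, rfl⟩ := sim_of hq.1.symm hq.2.symm
          refine ⟨op u • x, trivial, smul_ne_zero (by simpa using hu) hx0, ?_⟩
          rw [map_smul, hxe, smul_smul, smul_smul, ← op_mul, ← op_mul, ← mul_assoc, ← mul_assoc,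
            mul_inv_cancel₀ hu, one_mul]
      · rintro q (hq | hq)
        · exact s2 q hq
        · rw [hq.1]; exact hl
      · rintro q (hq | hq) u hu
        · exact Or.inl (s3 q hq u hu)
        · exact Or.inr ⟨(sim_re q hu).1.trans hq.1, (sim_re q hu).2.trans hq.2⟩
      · rintro q (hq | hq) (hq' | hq')
        · exact s4 q hq hq'
        · refine hc' (sim q hq _ ?_ ?_)
          · rw [re_neg, ← hq'.1, re_neg, neg_neg]
          · rw [normSq_neg, ← hq'.2, normSq_neg]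
        · refine hc' (sim _ hq' _ ?_ ?_)
          · rw [re_neg, re_neg, hq.1]
          · rw [normSq_neg, normSq_neg, hq.2]
        · have a1 := hq.1
          have a2 := hq'.1
          rw [re_neg] at a2
          exact hl (by linarith)
    have hA : A x = 0 := F.ker x fun y => by
      refine gen_ind A (fun y => b x y = 0) (F.zero_r x)
        (fun y z h1 h2 => by rw [F.add_r, h1, h2, add_zero]) (fun n y hg => ?_) y
      by_cases c : n.re = -l.re ∧ normSq n = normSq l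
      · have hy : y ∈ R := Submodule.subset_span
          ⟨n, sim _ hneg n (by rw [re_neg, c.1]) (by rw [normSq_neg, c.2]), hg⟩
        exact F.swap (F.cs h3.1 (hRL hy) hx (by rw [RR y hy y hy]; rfl))
      · exact F.gen_orth c ⟨1, sub_eq_zero.2 hxe⟩ hg
    rw [hA, eq_comm, smul_eq_zero] at hxe
    rcases hxe with h | h
    · exact hl (by rw [op_eq_zero_iff] at h; rw [h]; rfl)
    · exact hx0 h
  · obtain ⟨x, -, hx0, hxe⟩ := s1 l hl
    exact ⟨⟨x, hRL (Submodule.subset_span ⟨l, hl, 1, sub_eq_zero.2 hxe⟩), hx0, hxe⟩, s2 l hl⟩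

end Pool.Agent.H48.QNeu
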