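import Mathlib
import Pool.Agent.H48.QNeu

set_option autoImplicit false

namespace Pool.Agent.H48.QNeu

open Quaternion MulOpposite Matrix

noncomputable def lin {n : ℕ} (A : Matrix (Fin n) (Fin n) ℍ[ℝ]) :
    (Fin n → ℍ[ℝ]) →ₗ[ℍ[ℝ]ᵐᵒᵖ] (Fin n → ℍ[ℝ]) where
  toFun x := A *ᵥ x
  map_add' := A.mulVec_add
  map_smul' c x := by
    funext i
    simp [mulVec, dotProduct, Finset.sum_mul, mul_assoc]

section
variable (φ : ℍ[ℝ] →+ ℍ[ℝ]) (hm : ∀ x y, φ (x * y) = φ y * φ x) (hi : ∀ x, φ (φ x) = x)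
include hm

lemma phi_mulVec {n : ℕ} (A : Matrix (Fin n) (Fin n) ℍ[ℝ]) (x y : Fin n → ℍ[ℝ]) :
    (φ ∘ (A *ᵥ x)) ⬝ᵥ y = (φ ∘ x) ⬝ᵥ ((A.map φ)ᵀ *ᵥ y) := by
  simp only [mulVec, dotProduct, Function.comp, map_sum, hm, Finset.sum_mul, Finset.mul_sum,
    transpose_apply, map_apply, mul_assoc]
  exact Finset.sum_comm

include hi

lemma phi_dot {n : ℕ} (x y : Fin n → ℍ[ℝ]) : φ ((φ ∘ x) ⬝ᵥ y) = (φ ∘ y) ⬝ᵥ x := by
  simp only [dotProduct, Function.comp, map_sum, hm, hi]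

lemma phi_one : φ 1 = 1 := by
  have := hm (φ 1) 1
  rw [mul_one, hi, mul_one] at this
  exact this.symm

/-- `ε = -1, g = 1` is the standard case, `ε = 1, g = β⁻¹` the nonstandard one. -/
lemma form {n : ℕ} (H A : Matrix (Fin n) (Fin n) ℍ[ℝ]) (hH : IsUnit H) (g : ℍ[ℝ]) (hg : g ≠ 0)
    (hA : H * A = -((A.map φ)ᵀ * H))
    (hs : ((H.map φ)ᵀ = H ∧ ∀ c, star (g * c) = -(g * φ c)) ∨
      ((H.map φ)ᵀ = -H ∧ ∀ c, star (g * c) = g * φ c)) :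
    Form (fun x y => g * ((φ ∘ x) ⬝ᵥ (H * A) *ᵥ y)) (lin A) := by
  have sk : ∀ x y : Fin n → ℍ[ℝ], (φ ∘ (A *ᵥ x)) ⬝ᵥ H *ᵥ y = -((φ ∘ x) ⬝ᵥ (H * A) *ᵥ y) := by
    intro x y
    rw [phi_mulVec φ hm, mulVec_mulVec, hA, neg_mulVec, dotProduct_neg, neg_neg]
  have sy : ∀ x y : Fin n → ℍ[ℝ],
      g * ((φ ∘ y) ⬝ᵥ (H * A) *ᵥ x) = star (g * ((φ ∘ x) ⬝ᵥ (H * A) *ᵥ y)) := by
    intro x y
    rcases hs with ⟨h1, h2⟩ | ⟨h1, h2⟩
    · rw [h2, phi_dot φ hm hi, ← mulVec_mulVec y, phi_mulVec φ hm, h1, sk, mul_neg, neg_neg]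
    · rw [h2, phi_dot φ hm hi, ← mulVec_mulVec y, phi_mulVec φ hm, h1, neg_mulVec, dotProduct_neg,
        sk, neg_neg]
  refine ⟨fun x y z => ?_, fun x y q => ?_, sy, fun x y => ?_, fun x h => ?_⟩
  · rw [mulVec_add, dotProduct_add, mul_add]
  · have := (lin (H * A)).map_smul (op q) y
    simp only [lin, LinearMap.coe_mk, AddHom.coe_mk] at this
    rw [this, mul_assoc]
    simp [dotProduct, Finset.sum_mul, mul_assoc]
  · simp only [lin, LinearMap.coe_mk, AddHom.coe_mk]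
    rw [← mulVec_mulVec y, sk, mul_neg]
  · have h1 : (H * A) *ᵥ x = 0 := by
      funext i
      have h2 := sy x (Pi.single i 1)
      rw [h, star_zero, mul_eq_zero, dotProduct, Finset.sum_eq_single i] at h2
      · simpa [phi_one φ hm hi, hg] using h2
      · intro j _ hj
        simp [hj]
      · simp
    obtain ⟨u, rfl⟩ := hH
    have : A *ᵥ x = (u⁻¹).val *ᵥ ((u.val * A) *ᵥ x) := by
      rw [mulVec_mulVec, ← mul_assoc, u.inv_mul, one_mul]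
    rw [h1, mulVec_zero] at this
    exact this

end

lemma phi_eq (φ : ℍ[ℝ] →ₗ[ℝ] ℍ[ℝ]) (hm : ∀ x y, φ (x * y) = φ y * φ x) (hi : ∀ x, φ (φ x) = x)
    (hne : ∃ x, φ x ≠ star x) (β : ℍ[ℝ]) (hβ : φ β = -β) (hn : ‖β‖ = 1) :
    β * β = -1 ∧ star β = -β ∧ ∀ q, star q * β = β * φ q := by
  have h1 : φ 1 = 1 := phi_one φ.toAddMonoidHom hm hi
  have hr : ∀ r : ℝ, φ r = r := fun r => by
    rw [show (r : ℍ[ℝ]) = r • (1 : ℍ[ℝ]) by rw [← coe_mul_eq_smul, mul_one], map_smul, h1]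
  have hn' : β.re ^ 2 + β.imI ^ 2 + β.imJ ^ 2 + β.imK ^ 2 = 1 := by
    rw [← normSq_def', normSq_eq_norm_mul_self, hn, mul_one]
  have hb0 : β ≠ 0 := fun h => by simp [h] at hn
  have hre : β.re = 0 := by
    have e : β * β = (2 * β.re) • β - 1 := by
      apply Quaternion.ext <;> simp <;> linarith
    have e2 := congrArg φ e
    rw [hm, hβ, neg_mul_neg, map_sub, map_smul, hβ, h1, e, sub_left_inj, smul_neg, eq_neg_iff_add_eq_zero,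
      ← add_smul, smul_eq_zero] at e2
    have := e2.resolve_right hb0
    linarith
  have hbb : β * β = -1 := by
    apply Quaternion.ext <;> simp [hre] <;> nlinarith
  have hsb : star β = -β := star_eq_neg.2 hre
  refine ⟨hbb, hsb, ?_⟩
  have comm : ∀ z : ℍ[ℝ], z * β = β * z → φ z = star z := by
    intro z hz
    have a1 := congrArg (fun q : ℍ[ℝ] => q.imI) hz
    have a2 := congrArg (fun q : ℍ[ℝ] => q.imJ) hz
    have a3 := congrArg (fun q : ℍ[ℝ] => q.imK) hz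
    simp [hre] at a1 a2 a3 hn'
    have e : z = (z.re : ℍ[ℝ]) + (z.imI * β.imI + z.imJ * β.imJ + z.imK * β.imK) • β := by
      apply Quaternion.ext <;> simp [hre]
      · linear_combination (-z.imI) * hn' + (β.imJ / 2) * a3 - (β.imK / 2) * a2
      · linear_combination (-z.imJ) * hn' + (β.imK / 2) * a1 - (β.imI / 2) * a3
      · linear_combination (-z.imK) * hn' + (β.imI / 2) * a2 - (β.imJ / 2) * a1
    rw [e, map_add, map_smul, hr, hβ, star_add, Quaternion.star_smul, hsb, star_coe]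
  have anti : ∀ w : ℍ[ℝ], w * β = -(β * w) → star w = -w := by
    intro w hw
    have a1 := congrArg (fun q : ℍ[ℝ] => q.imI) hw
    have a2 := congrArg (fun q : ℍ[ℝ] => q.imJ) hw
    have a3 := congrArg (fun q : ℍ[ℝ] => q.imK) hw
    simp [hre] at a1 a2 a3 hn'
    rw [star_eq_neg]
    linear_combination (-w.re) * hn' + (β.imI / 2) * a1 + (β.imJ / 2) * a2 + (β.imK / 2) * a3
  have dec : ∀ q : ℍ[ℝ], ∃ u w, q = u + w ∧ u * β = β * u ∧ w * β = -(β * w) := by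
    intro q
    have e1 : β * q * β * β = -(β * q) := by rw [mul_assoc, hbb, mul_neg_one]
    have e2 : β * (β * q * β) = -(q * β) := by
      rw [← mul_assoc, ← mul_assoc, hbb, neg_one_mul, neg_mul]
    refine ⟨(1 / 2 : ℝ) • (q - β * q * β), (1 / 2 : ℝ) • (q + β * q * β), by module, ?_, ?_⟩
    · rw [smul_mul_assoc, mul_smul_comm, sub_mul, mul_sub, e1, e2]; module
    · rw [smul_mul_assoc, mul_smul_comm, add_mul, mul_add, e1, e2]; module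
  have fix : ∀ w : ℍ[ℝ], w * β = -(β * w) → φ w = w := by
    by_cases c : ∃ s : ℍ[ℝ], s ≠ 0 ∧ s * β = -(β * s) ∧ φ s = s
    · obtain ⟨s, hs0, hs, hφ⟩ := c
      intro w hw
      have hz : s * w * β = β * (s * w) := by
        rw [mul_assoc, hw, mul_neg, ← mul_assoc, hs, neg_mul, neg_neg, mul_assoc]
      have := comm _ hz
      rw [hm, hφ, star_mul, anti w hw, anti s hs, neg_mul_neg] at this
      exact mul_right_cancel₀ hs0 this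
    · exfalso
      obtain ⟨q, hq⟩ := hne
      obtain ⟨u, w, rfl, hu, hw⟩ := dec q
      have hw' := congrArg φ hw
      rw [map_neg, hm, hm, hβ, neg_mul, mul_neg, neg_neg] at hw'
      have : w + φ w = 0 := by
        by_contra h0
        exact c ⟨_, h0, by rw [add_mul, mul_add, hw, ← hw', neg_add],
          by rw [map_add, hi, add_comm]⟩
      refine hq ?_
      rw [map_add, star_add, comm u hu, anti w hw, eq_neg_of_add_eq_zero_right this]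
  intro q
  obtain ⟨u, w, rfl, hu, hw⟩ := dec q
  have hu' := congrArg star hu
  rw [star_mul, star_mul, hsb, neg_mul, mul_neg, neg_inj] at hu'
  rw [map_add, star_add, comm u hu, fix w hw, anti w hw, add_mul, mul_add, hu', neg_mul, hw, neg_neg]

lemma fin (n : ℕ) : Module.Finite ℍ[ℝ]ᵐᵒᵖ (Fin n → ℍ[ℝ]) :=
  Module.Finite.of_restrictScalars_finite ℝ _ _

theorem Form.main {V : Type*} [AddCommGroup V] [Module ℍ[ℝ]ᵐᵒᵖ V] [Module.Finite ℍ[ℝ]ᵐᵒᵖ V]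
    {b : V → V → ℍ[ℝ]} {A : V →ₗ[ℍ[ℝ]ᵐᵒᵖ] V} (F : Form b A)
    {N : Submodule ℍ[ℝ]ᵐᵒᵖ V} (hN : Inv A N) (h0 : ∀ x ∈ N, ∀ y ∈ N, b x y = 0) :
    (∃ Lp Lm, N ≤ Lp ∧ N ≤ Lm ∧ Inv A Lp ∧ Inv A Lm ∧
      Maximal (fun M : Submodule ℍ[ℝ]ᵐᵒᵖ V => ∀ x ∈ M, 0 ≤ (b x x).re) Lp ∧
      Maximal (fun M : Submodule ℍ[ℝ]ᵐᵒᵖ V => ∀ x ∈ M, (b x x).re ≤ 0) Lm) ∧
    ∀ S, Maximal (Pre A) S → {l | Eig A N l ∧ l.re ≠ 0} ⊆ S →
      ∃ Lp Lm, N ≤ Lp ∧ N ≤ Lm ∧ Inv A Lp ∧ Inv A Lm ∧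
      Maximal (fun M : Submodule ℍ[ℝ]ᵐᵒᵖ V => ∀ x ∈ M, 0 ≤ (b x x).re) Lp ∧
      Maximal (fun M : Submodule ℍ[ℝ]ᵐᵒᵖ V => ∀ x ∈ M, (b x x).re ≤ 0) Lm ∧
      {l | Eig A Lp l ∧ l.re ≠ 0} = S ∧ {l | Eig A Lm l ∧ l.re ≠ 0} = S := by
  have e : Nn (fun x y => -b x y) = fun M : Submodule ℍ[ℝ]ᵐᵒᵖ V => ∀ x ∈ M, (b x x).re ≤ 0 := by
    funext M
    simp [Nn]
  have h0' : ∀ x ∈ N, ∀ y ∈ N, -b x y = 0 := fun x hx y hy => by rw [h0 x hx y hy, neg_zero]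
  constructor
  · obtain ⟨Lp, a1, a2, a3⟩ := F.ext1 hN fun x hx => by rw [h0 x hx x hx]; exact le_rfl
    obtain ⟨Lm, b1, b2, b3⟩ := F.neg.ext1 hN fun x hx => by
      show 0 ≤ (-b x x).re
      rw [h0' x hx x hx]; exact le_rfl
    exact ⟨Lp, Lm, a1, b1, a2, b2, a3, e ▸ b3⟩
  · intro S hS hs
    obtain ⟨Lp, a1, a2, a3, a4⟩ := F.ext2 hN h0 hS hs
    obtain ⟨Lm, b1, b2, b3, b4⟩ := F.neg.ext2 hN h0' hS hs
    exact ⟨Lp, Lm, a1, b1, a2, b2, a3, e ▸ b3, a4, b4⟩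

end Pool.Agent.H48.QNeu
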