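import Mathlib
import Pool.Agent.H48.BinLie

set_option autoImplicit false

namespace Pool.Agent.H48.RAlt

open Pool.Agent.H48.BinLie

noncomputable def θ : R →+* R :=
  Ideal.Quotient.lift I (q.comp (MvPolynomial.rename Nat.succ).toRingHom) (by
    intro a ha
    have : I ≤ RingHom.ker (q.comp (MvPolynomial.rename Nat.succ).toRingHom) := by
      rw [I, Ideal.span_le]
      rintro _ ⟨_, ⟨i, rfl⟩, rfl⟩
      have e : (MvPolynomial.monomial (Finsupp.single i 2) (1 : F)) =
          MvPolynomial.X i * MvPolynomial.X i := by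
        rw [← pow_two, MvPolynomial.X_pow_eq_monomial]
      simp only [SetLike.mem_coe, RingHom.mem_ker, e, map_mul]
      have := x_sq (i + 1)
      simpa [x] using this
    exact this ha)

theorem θ_x (i : ℕ) : θ (x i) = x (i + 1) := by
  change q ((MvPolynomial.rename Nat.succ) (MvPolynomial.X i)) = _
  simp [x]

@[ext]
structure A0 where
  c : R
  u : R
  μ : R
  l : R
  e : R

noncomputable def eqv : A0 ≃ (R × R × R × R × R) where
  toFun a := (a.c, a.u, a.μ, a.l, a.e)
  invFun p := ⟨p.1, p.2.1, p.2.2.1, p.2.2.2.1, p.2.2.2.2⟩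
  left_inv _ := rfl
  right_inv _ := rfl

noncomputable instance : AddCommGroup A0 := eqv.addCommGroup

@[simp] theorem add_c (a b : A0) : (a + b).c = a.c + b.c := rfl
@[simp] theorem add_u (a b : A0) : (a + b).u = a.u + b.u := rfl
@[simp] theorem add_μ (a b : A0) : (a + b).μ = a.μ + b.μ := rfl
@[simp] theorem add_l (a b : A0) : (a + b).l = a.l + b.l := rfl
@[simp] theorem add_e (a b : A0) : (a + b).e = a.e + b.e := rfl
@[simp] theorem neg_c (a : A0) : (-a).c = -a.c := rfl
@[simp] theorem neg_u (a : A0) : (-a).u = -a.u := rfl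
@[simp] theorem neg_e (a : A0) : (-a).e = -a.e := rfl
@[simp] theorem zero_c : (0 : A0).c = 0 := rfl
@[simp] theorem zero_u : (0 : A0).u = 0 := rfl
@[simp] theorem zero_μ : (0 : A0).μ = 0 := rfl
@[simp] theorem zero_l : (0 : A0).l = 0 := rfl
@[simp] theorem zero_e : (0 : A0).e = 0 := rfl

noncomputable def mul (a b : A0) : A0 :=
  ⟨a.c * b.c + (θ b.l * a.u + a.μ * θ b.e) + (θ a.l * b.u + b.μ * θ a.e),
    a.u * b.c + a.μ * θ b.c, a.μ * b.c, 0, a.l * b.c⟩

noncomputable instance : NonUnitalNonAssocRing A0 :=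
  { (inferInstance : AddCommGroup A0) with
    mul := mul
    left_distrib := fun a b c => by
      change mul a (b + c) = mul a b + mul a c
      ext <;> simp [mul] <;> ring
    right_distrib := fun a b c => by
      change mul (a + b) c = mul a c + mul b c
      ext <;> simp [mul] <;> ring
    zero_mul := fun a => by
      change mul 0 a = 0
      ext <;> simp [mul]
    mul_zero := fun a => by
      change mul a 0 = 0
      ext <;> simp [mul] }

@[simp] theorem mul_c (a b : A0) : (a * b).c =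
    a.c * b.c + (θ b.l * a.u + a.μ * θ b.e) + (θ a.l * b.u + b.μ * θ a.e) := rfl
@[simp] theorem mul_u (a b : A0) : (a * b).u = a.u * b.c + a.μ * θ b.c := rfl
@[simp] theorem mul_μ (a b : A0) : (a * b).μ = a.μ * b.c := rfl
@[simp] theorem mul_l (a b : A0) : (a * b).l = 0 := rfl
@[simp] theorem mul_e (a b : A0) : (a * b).e = a.l * b.c := rfl

theorem θ_sq {r : R} (h : r * r = 0) : θ r * θ r = 0 := by rw [← map_mul, h, map_zero]

theorem sq_add {r s : R} (h : r * r = 0) (k : s * s = 0) : (r + s) * (r + s) = 0 := by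
  linear_combination h + k + r * s * two_R

theorem sq_mul {r : R} (s : R) (h : r * r = 0) : (s * r) * (s * r) = 0 := by
  linear_combination s * s * h

theorem sq_mul' {r : R} (s : R) (h : r * r = 0) : (r * s) * (r * s) = 0 := by
  linear_combination s * s * h

noncomputable def T : NonUnitalSubring A0 where
  carrier := {a | a.c * a.c = 0 ∧ a.u * a.u = 0 ∧ a.e * a.e = 0}
  add_mem' := fun ha hb => ⟨sq_add ha.1 hb.1, sq_add ha.2.1 hb.2.1, sq_add ha.2.2 hb.2.2⟩
  zero_mem' := by simp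
  neg_mem' := by
    intro a ha
    simpa using ha
  mul_mem' := fun ha hb =>
    ⟨sq_add (sq_add (sq_mul _ hb.1) (sq_add (sq_mul _ ha.2.1) (sq_mul _ (θ_sq hb.2.2))))
      (sq_add (sq_mul _ hb.2.1) (sq_mul _ (θ_sq ha.2.2))),
     sq_add (sq_mul _ hb.1) (sq_mul _ (θ_sq hb.1)), sq_mul _ hb.1⟩

theorem right_alt (a b : A0) (hb : b ∈ T) : (a * b) * b = a * (b * b) := by
  obtain ⟨h1, h2, h3⟩ := hb
  have h4 := θ_sq h1
  have h5 := two_R
  have e : (b * b).c = 0 := by
    rw [mul_c]
    linear_combination h1 + (θ b.l * b.u + b.μ * θ b.e) * h5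
  ext
  · rw [mul_c (a * b), mul_c a (b * b), e]
    simp only [mul_c, mul_u, mul_μ, mul_l, mul_e, map_mul, map_zero]
    linear_combination a.c * h1 + (θ b.l * a.u * b.c + a.μ * θ b.e * b.c
      + θ a.l * b.μ * θ b.c * 0 + b.μ * θ a.e * b.c * 0) * h5
  · rw [mul_u (a * b), mul_u a (b * b), e]
    simp only [mul_u, mul_μ, map_zero]
    linear_combination a.u * h1 + a.μ * b.c * θ b.c * h5
  · rw [mul_μ (a * b), mul_μ a (b * b), e]
    simp only [mul_μ]
    linear_combination a.μ * h1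
  · rfl
  · rw [mul_e (a * b), mul_e a (b * b), e]
    simp

theorem nil4 (b : A0) (hb : b ∈ T) : b * b * b * b = 0 := by
  obtain ⟨h1, h2, h3⟩ := hb
  have h4 := θ_sq h1
  have h5 := two_R
  have e : (b * b).c = 0 := by
    rw [mul_c]
    linear_combination h1 + (θ b.l * b.u + b.μ * θ b.e) * h5
  have e1 : (b * b * b).u = 0 := by
    simp only [mul_u, mul_μ]
    linear_combination b.u * h1 + b.μ * b.c * θ b.c * h5
  have e2 : (b * b * b).μ = 0 := by
    simp only [mul_μ]
    linear_combination b.μ * h1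
  have e3 : (b * b * b).e = 0 := by simp
  have e4 : (b * b * b).c = (θ b.l * b.u + b.μ * θ b.e) * b.c := by
    rw [mul_c (b * b), e]
    simp only [mul_u, mul_μ, mul_l, mul_e, map_mul, map_zero]
    linear_combination (θ b.l * b.μ * θ b.c) * h5
  ext
  · rw [mul_c (b * b * b), e1, e2, e3, e4]
    simp only [mul_l, map_zero, zero_c]
    linear_combination (θ b.l * b.u + b.μ * θ b.e) * h1
  · rw [mul_u (b * b * b), e1, e2]; simp
  · rw [mul_μ (b * b * b), e2]; simp
  · rfl
  · simp

noncomputable def ga : A0 := ⟨0, 0, 1, 0, 0⟩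
noncomputable def gb : A0 := ⟨0, 0, 0, 1, 0⟩
noncomputable def ι (r : R) : A0 := ⟨r, 0, 0, 0, 0⟩

theorem ι_mul (r s : R) : ι r * ι s = ι (r * s) := by
  ext <;> simp [ι]

theorem ι_θ (r : R) : ga * (gb * ι r) = ι (θ r) := by
  ext <;> simp [ι, ga, gb]

noncomputable def G : NonUnitalSubring A0 := NonUnitalSubring.closure {ga, gb, ι (x 0)}

theorem G_le : G ≤ T := by
  rw [G, NonUnitalSubring.closure_le]
  rintro _ (rfl | rfl | rfl)
  · exact ⟨by simp [ga], by simp [ga], by simp [ga]⟩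
  · exact ⟨by simp [gb], by simp [gb], by simp [gb]⟩
  · exact ⟨x_sq 0, by simp [ι], by simp [ι]⟩

theorem ga_mem : ga ∈ G := NonUnitalSubring.subset_closure (by simp)
theorem gb_mem : gb ∈ G := NonUnitalSubring.subset_closure (by simp)

theorem x_mem (i : ℕ) : ι (x i) ∈ G := by
  induction i with
  | zero => exact NonUnitalSubring.subset_closure (by simp)
  | succ i ih =>
    rw [← θ_x, ← ι_θ]
    exact G.mul_mem ga_mem (G.mul_mem gb_mem ih)

theorem G_fg : ∃ s : Finset G, NonUnitalSubring.closure (s : Set G) = ⊤ := by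
  classical
  refine ⟨{⟨ga, ga_mem⟩, ⟨gb, gb_mem⟩, ⟨ι (x 0), x_mem 0⟩}, ?_⟩
  rw [eq_top_iff]
  rintro ⟨z, hz⟩ -
  induction hz using NonUnitalSubring.closure_induction with
  | mem z hz =>
    apply NonUnitalSubring.subset_closure
    rcases hz with rfl | rfl | rfl <;> simp
  | zero => exact zero_mem _
  | add a b ha hb h1 h2 => exact add_mem h1 h2
  | neg a ha h => exact neg_mem h
  | mul a b ha hb h1 h2 => exact mul_mem h1 h2

theorem derived (D : ℕ → AddSubgroup G) (h0 : D 0 = ⊤)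
    (hs : ∀ k : ℕ, D (k + 1) = AddSubgroup.closure {z : G | ∃ a ∈ D k, ∃ b ∈ D k, z = a * b})
    (k : ℕ) : ∀ a : ℕ, ∃ z ∈ D k, (z : A0) = ι (P a k) := by
  induction k with
  | zero =>
    intro a
    exact ⟨⟨ι (x a), x_mem a⟩, by simp [h0], by simp [P]⟩
  | succ k ih =>
    intro a
    obtain ⟨u, hu, u1⟩ := ih a
    obtain ⟨v, hv, v1⟩ := ih (a + 2 ^ k)
    refine ⟨u * v, ?_, ?_⟩
    · rw [hs]; exact AddSubgroup.subset_closure ⟨u, hu, v, hv, rfl⟩
    · rw [P_succ, ← ι_mul, ← u1, ← v1]; rfl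

end Pool.Agent.H48.RAlt
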