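import Mathlib

set_option autoImplicit false

namespace Pool.Agent.H48.RC

open Polynomial Module

theorem quad {F E : Type*} [Field F] [Field E] [Algebra F E] [CharZero F] (h : finrank F E = 2) :
    ∃ γ : E, γ ∉ (algebraMap F E).range ∧ (∃ d, algebraMap F E d = γ ^ 2) ∧
      ∀ x : E, ∃ a b, x = algebraMap F E a + algebraMap F E b * γ := by
  have : FiniteDimensional F E := Module.finite_of_finrank_eq_succ h
  have h1 : ∀ γ : E, γ ∉ (algebraMap F E).range →
      ∀ x : E, ∃ a b, x = algebraMap F E a + algebraMap F E b * γ := fun γ hγ x => by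
    have h2 : LinearIndependent F ![(1 : E), γ] := by
      rw [LinearIndependent.pair_iff' one_ne_zero]
      exact fun a ha => hγ ⟨a, by rw [← ha, Algebra.algebraMap_eq_smul_one]⟩
    have h3 := h2.span_eq_top_of_card_eq_finrank' (by simp [h])
    rw [Matrix.range_cons_cons_empty] at h3
    obtain ⟨a, b, hab⟩ := Submodule.mem_span_pair.mp (h3.ge (Submodule.mem_top (x := x)))
    exact ⟨a, b, by simp [← hab, Algebra.smul_def]⟩
  obtain ⟨β, hβ⟩ : ∃ β : E, β ∉ (algebraMap F E).range := by
    by_contra! h2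
    have := finrank_le_one (R := F) (1 : E) fun w => (h2 w).imp fun a ha => by
      rw [← ha, Algebra.algebraMap_eq_smul_one]
    omega
  obtain ⟨a, b, hab⟩ := h1 β hβ (β ^ 2)
  have h2 : β - algebraMap F E (b / 2) ∉ (algebraMap F E).range := fun ⟨c, hc⟩ =>
    hβ ⟨c + b / 2, by rw [map_add, hc, sub_add_cancel]⟩
  refine ⟨_, h2, ⟨a + (b / 2) ^ 2, ?_⟩, h1 _ h2⟩
  have : algebraMap F E b = 2 * algebraMap F E (b / 2) := by
    rw [← map_ofNat (algebraMap F E) 2, ← map_mul]; congr 1; ring
  rw [map_add, map_pow, sub_sq, hab, this]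
  ring

variable {K : Type*} [Field K] [LinearOrder K] [IsStrictOrderedRing K] [IsRealClosed K]

theorem sq_of_quad {E : Type*} [Field E] [Algebra K E] (h : finrank K E = 2) (x : E) :
    IsSquare x := by
  obtain ⟨γ, h1, ⟨d, h2⟩, h3⟩ := quad h
  obtain ⟨s, hs⟩ : IsSquare (-d) := IsRealClosed.isSquare_neg_of_not_isSquare fun ⟨s, hs⟩ => by
    rw [hs, map_mul, ← sq, sq_eq_sq_iff_eq_or_eq_neg] at h2
    exact h1 (h2.elim (fun h => ⟨s, h⟩) fun h => ⟨-s, by rw [map_neg, h, neg_neg]⟩)
  obtain ⟨a, b, rfl⟩ := h3 x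
  obtain ⟨r, hr⟩ := IsRealClosed.nonneg_iff_isSquare.mp
    (add_nonneg (sq_nonneg a) (sq_nonneg (b * s)))
  have h4 : |a| ≤ |r| := sq_le_sq.mp (by nlinarith [sq_nonneg (b * s)])
  obtain ⟨u, hu⟩ := IsRealClosed.nonneg_iff_isSquare.mp
    (by linarith [(abs_le.mp h4).1] : 0 ≤ (|r| + a) / 2)
  have h5 : γ ^ 2 = -(algebraMap K E s) ^ 2 := by
    rw [← h2, ← map_pow, ← map_neg, sq, ← hs, neg_neg]
  have h6 : s ≠ 0 := by
    rintro rfl
    exact h1 ⟨0, by rw [map_zero]; exact (by simpa using h5 : γ = 0).symm⟩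
  have h7 := abs_mul_abs_self r
  rcases eq_or_ne u 0 with rfl | h8
  · have h9 : a = -|r| := by linarith
    obtain rfl : b = 0 := by
      have : (b * s) ^ 2 = 0 := by rw [h9] at hr; nlinarith
      simpa [h6] using this
    obtain ⟨v, hv⟩ := IsRealClosed.nonneg_iff_isSquare.mp (abs_nonneg r)
    refine ⟨algebraMap K E (v / s) * γ, ?_⟩
    rw [mul_mul_mul_comm, ← sq γ, h5, ← map_pow, ← map_neg, ← map_mul, ← map_mul, map_zero,
      zero_mul, add_zero, h9, hv]
    congr 1
    field_simp
  · refine ⟨algebraMap K E u + algebraMap K E (b / (2 * u)) * γ, ?_⟩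
    have e1 : a = u * u - (b / (2 * u)) ^ 2 * s ^ 2 := by
      field_simp
      have : |r| = 2 * u ^ 2 - a := by linarith
      rw [this] at h7
      linear_combination hr - h7
    have e2 : b = 2 * u * (b / (2 * u)) := by field_simp
    generalize b / (2 * u) = v at e1 e2
    rw [e1, e2]
    simp only [map_sub, map_mul, map_pow, map_ofNat]
    linear_combination (-(algebraMap K E v) ^ 2) * h5

theorem finrank_le {N : Type*} [Field N] [Algebra K N] [FiniteDimensional K N] [IsGalois K N] :
    finrank K N ≤ 2 := by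
  have : Fact (Nat.Prime 2) := ⟨Nat.prime_two⟩
  obtain ⟨P⟩ : Nonempty (Sylow 2 Gal(N/K)) := inferInstance
  have h0 : ∀ H : Subgroup Gal(N/K), finrank K (IntermediateField.fixedField H) = H.index :=
    fun H => by
      have h1 := finrank_mul_finrank K (IntermediateField.fixedField H) N
      rw [IntermediateField.finrank_fixedField_eq_card, ← IsGalois.card_aut_eq_finrank K N,
        ← H.index_mul_card] at h1
      exact Nat.eq_of_mul_eq_mul_right Nat.card_pos h1
  have h1 : (P : Subgroup Gal(N/K)) = ⊤ := by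
    obtain ⟨β, hβ⟩ := Field.exists_primitive_element K (IntermediateField.fixedField P.1)
    have h2 := (Field.primitive_element_iff_minpoly_natDegree_eq K β).mp hβ
    rw [h0] at h2
    obtain ⟨x, hx⟩ := IsRealClosed.exists_isRoot_of_odd_natDegree (f := minpoly K β)
      (h2 ▸ Nat.odd_iff.mpr (Nat.two_dvd_ne_zero.mp P.not_dvd_index))
    rw [← Subgroup.index_eq_one, ← h2]
    exact natDegree_eq_of_degree_eq_some (degree_eq_one_of_irreducible_of_root
      (minpoly.irreducible (Algebra.IsIntegral.isIntegral β)) hx)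
  obtain ⟨n, hn⟩ := IsPGroup.iff_card.mp P.2
  rw [h1, Subgroup.card_top] at hn
  by_contra h2
  obtain ⟨m, rfl⟩ : ∃ m, n = m + 2 := by
    rw [← IsGalois.card_aut_eq_finrank, hn] at h2
    rcases n with _ | _ | m
    exacts [absurd (by norm_num) h2, absurd (by norm_num) h2, ⟨m, rfl⟩]
  obtain ⟨A, hA⟩ := Sylow.exists_subgroup_card_pow_prime (G := Gal(N/K)) 2 (n := m)
    (hn ▸ pow_dvd_pow 2 (by omega))
  obtain ⟨B, hB, hAB⟩ := Sylow.exists_subgroup_card_pow_succ (hn ▸ pow_dvd_pow 2 (by omega)) hA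
  have h3 : A.index = 4 := Nat.eq_of_mul_eq_mul_right (pow_pos two_pos m) (by
    rw [← hA, A.index_mul_card, hA, hn]; ring)
  have h4 : B.index = 2 := Nat.eq_of_mul_eq_mul_right (pow_pos two_pos (m + 1)) (by
    rw [← hB, B.index_mul_card, hB, hn]; ring)
  have h5 : IntermediateField.fixedField B ≤ IntermediateField.fixedField A :=
    IntermediateField.fixedField_le hAB
  let := (IntermediateField.inclusion h5).toAlgebra
  have : IsScalarTower K (IntermediateField.fixedField B) (IntermediateField.fixedField A) :=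
    IsScalarTower.of_algebraMap_eq fun _ => rfl
  have h6 := finrank_mul_finrank K (IntermediateField.fixedField B) (IntermediateField.fixedField A)
  rw [h0, h0, h3, h4] at h6
  have : CharZero (IntermediateField.fixedField B) := algebraRat.charZero _
  obtain ⟨γ, h7, ⟨d, h8⟩, -⟩ := quad (F := IntermediateField.fixedField B)
    (E := IntermediateField.fixedField A) (by omega)
  obtain ⟨s, rfl⟩ := sq_of_quad ((h0 B).trans h4) d
  rw [map_mul, ← sq, sq_eq_sq_iff_eq_or_eq_neg] at h8
  exact h7 (h8.elim (fun h => ⟨s, h⟩) fun h => ⟨-s, by rw [map_neg, h, neg_neg]⟩)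

theorem natDegree_le {p : K[X]} (hp : Irreducible p) : p.natDegree ≤ 2 := by
  have : IsGalois K p.SplittingField := IsGalois.of_separable_splitting_field hp.separable
  exact Nat.le_of_dvd finrank_pos
    (hp.natDegree_dvd_finrank (SplittingField.splits p)) |>.trans finrank_le

theorem ivt (p : K[X]) {a b : K} (hab : a < b) (h : p.eval a * p.eval b < 0) :
    ∃ x, a < x ∧ x < b ∧ p.eval x = 0 := by
  induction p using WfDvdMonoid.induction_on_irreducible with
  | zero => simp at h
  | unit u hu =>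
    obtain ⟨c, -, rfl⟩ := isUnit_iff.mp hu
    simpa using h.not_ge (by simpa using mul_self_nonneg c)
  | mul r q _ hq ih =>
    rw [eval_mul, eval_mul, mul_mul_mul_comm] at h
    rcases mul_neg_iff.mp h with h | ⟨h, -⟩
    · exact (ih h.2).imp fun x hx => ⟨hx.1, hx.2.1, by rw [eval_mul, hx.2.2, mul_zero]⟩
    suffices ∃ x, a < x ∧ x < b ∧ q.eval x = 0 from
      this.imp fun x hx => ⟨hx.1, hx.2.1, by rw [eval_mul, hx.2.2, zero_mul]⟩
    have h1 : ∀ x, q.eval x = q.coeff 0 + q.coeff 1 * x + q.coeff 2 * x ^ 2 := fun x => by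
      rw [eval_eq_sum_range' (Nat.lt_succ_of_le (natDegree_le hq))]
      simp [Finset.sum_range_succ]
    rcases eq_or_ne (q.coeff 2) 0 with h2 | h2
    · simp only [h1, h2, zero_mul, add_zero] at h ⊢
      have h3 : q.coeff 1 ≠ 0 := fun h3 => by
        simp only [h3, zero_mul, add_zero] at h
        exact h.not_ge (mul_self_nonneg _)
      obtain ⟨x, hx⟩ : ∃ x, q.coeff 0 = -(q.coeff 1 * x) := ⟨-q.coeff 0 / q.coeff 1, by field_simp⟩
      rw [hx] at h ⊢
      have h4 : (a - x) * (b - x) < 0 := by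
        have := mul_self_pos.mpr h3
        nlinarith
      exact ⟨x, by nlinarith, by nlinarith, by ring⟩
    · exfalso
      have h3 : ∀ x, 4 * q.coeff 2 * q.eval x =
        (2 * q.coeff 2 * x + q.coeff 1) ^ 2 - (q.coeff 1 ^ 2 - 4 * q.coeff 2 * q.coeff 0) :=
        fun x => by rw [h1]; ring
      rcases le_or_gt 0 (q.coeff 1 ^ 2 - 4 * q.coeff 2 * q.coeff 0) with h4 | h4
      · obtain ⟨s, hs⟩ := IsRealClosed.nonneg_iff_isSquare.mp h4
        have h5 := h3 ((s - q.coeff 1) / (2 * q.coeff 2))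
        rw [mul_div_cancel₀ _ (mul_ne_zero two_ne_zero h2), hs, sub_add_cancel, sq, sub_self] at h5
        have := degree_eq_one_of_irreducible_of_root hq
          ((mul_eq_zero.mp h5).resolve_left (mul_ne_zero four_ne_zero h2))
        exact h2 (coeff_eq_zero_of_degree_lt (by rw [this]; norm_num))
      · have h5 : ∀ x, 0 < 4 * q.coeff 2 * q.eval x := fun x => by
          rw [h3]; nlinarith [sq_nonneg (2 * q.coeff 2 * x + q.coeff 1)]
        nlinarith [mul_pos (h5 a) (h5 b), mul_self_pos.mpr h2]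

end Pool.Agent.H48.RC
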