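import Mathlib

set_option autoImplicit false

namespace Pool.Agent.H48.RDist

/-- The ring `D ⊕ xD` with `x ^ 2 = 0` and `d x = x σ(d)`. -/
@[ext] structure TE {D : Type} [Ring D] (σ : D →+* D) where
  fst : D
  snd : D

namespace TE
variable {D : Type} [Ring D] {σ : D →+* D}

instance : Zero (TE σ) := ⟨⟨0, 0⟩⟩
instance : One (TE σ) := ⟨⟨1, 0⟩⟩
instance : Add (TE σ) := ⟨fun a b => ⟨a.fst + b.fst, a.snd + b.snd⟩⟩
instance : Neg (TE σ) := ⟨fun a => ⟨-a.fst, -a.snd⟩⟩
instance : Mul (TE σ) := ⟨fun a b => ⟨a.fst * b.fst, σ a.fst * b.snd + a.snd * b.fst⟩⟩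

@[simp] lemma zero_fst : (0 : TE σ).fst = 0 := rfl
@[simp] lemma zero_snd : (0 : TE σ).snd = 0 := rfl
@[simp] lemma one_fst : (1 : TE σ).fst = 1 := rfl
@[simp] lemma one_snd : (1 : TE σ).snd = 0 := rfl
@[simp] lemma add_fst (a b : TE σ) : (a + b).fst = a.fst + b.fst := rfl
@[simp] lemma add_snd (a b : TE σ) : (a + b).snd = a.snd + b.snd := rfl
@[simp] lemma neg_fst (a : TE σ) : (-a).fst = -a.fst := rfl
@[simp] lemma neg_snd (a : TE σ) : (-a).snd = -a.snd := rfl
@[simp] lemma mul_fst (a b : TE σ) : (a * b).fst = a.fst * b.fst := rfl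
@[simp] lemma mul_snd (a b : TE σ) : (a * b).snd = σ a.fst * b.snd + a.snd * b.fst := rfl

instance : AddCommGroup (TE σ) where
  add_assoc a b c := by ext <;> simp [add_assoc]
  zero_add a := by ext <;> simp
  add_zero a := by ext <;> simp
  add_comm a b := by ext <;> simp [add_comm]
  neg_add_cancel a := by ext <;> simp
  nsmul := nsmulRec
  zsmul := zsmulRec

instance : Ring (TE σ) where
  mul_assoc a b c := by ext <;> simp [mul_assoc, mul_add, add_mul, add_assoc]
  one_mul a := by ext <;> simp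
  mul_one a := by ext <;> simp
  left_distrib a b c := by ext <;> simp [mul_add]; abel
  right_distrib a b c := by ext <;> simp [add_mul]; abel
  zero_mul a := by ext <;> simp
  mul_zero a := by ext <;> simp
  neg_add_cancel a := by ext <;> simp
  zsmul := zsmulRec

def fstHom : TE σ →+* D where
  toFun a := a.fst
  map_one' := rfl
  map_mul' _ _ := rfl
  map_zero' := rfl
  map_add' _ _ := rfl

end TE

theorem abstract {F D : Type} [Field F] [Ring D] [Nontrivial D] [Algebra F D] (σ : D →+* D)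
    (hu : ∀ d : D, d ≠ 0 → IsUnit d) (hint : ∀ d : D, IsIntegral F d)
    (hσ : ∀ f : F, σ (algebraMap F D f) = algebraMap F D f) (y : D) (hy : ∀ d, σ d ≠ y) :
    ¬ (∀ (R : Type) [Ring R],
      (∀ a b c : Submodule Rᵐᵒᵖ R, a ⊓ (b ⊔ c) = (a ⊓ b) ⊔ (a ⊓ c)) →
      (∀ x : R, ∃ p : Polynomial (Subring.center R),
          p.Monic ∧ Polynomial.eval₂ (Subring.center R).subtype x p = 0) →
      ∀ a b c : Submodule R R, a ⊓ (b ⊔ c) = (a ⊓ b) ⊔ (a ⊓ c)) := by
  intro h
  have unit : ∀ a : TE σ, a.fst ≠ 0 → ∀ b : TE σ, ∃ c, a * c = b := by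
    intro a ha b
    obtain ⟨u, hu1⟩ := hu _ ha
    refine ⟨⟨↑u⁻¹ * b.fst, σ ↑u⁻¹ * (b.snd - a.snd * (↑u⁻¹ * b.fst))⟩, ?_⟩
    ext
    · simp [← hu1]
    · simp only [TE.mul_snd]
      rw [← mul_assoc, ← map_mul, ← hu1]
      simp
  have comp : ∀ a b : TE σ, (∃ c, a * c = b) ∨ ∃ c, b * c = a := by
    intro a b
    by_cases ha : a.fst = 0
    · by_cases hb : b.fst = 0
      · by_cases ha2 : a.snd = 0
        · right
          exact ⟨0, by ext <;> simp [ha, ha2]⟩
        · left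
          obtain ⟨u, hu1⟩ := hu _ ha2
          exact ⟨⟨↑u⁻¹ * b.snd, 0⟩, by ext <;> simp [ha, hb, ← hu1]⟩
      · exact Or.inr (unit b hb a)
    · exact Or.inl (unit a ha b)
  have tot : ∀ I J : Submodule (TE σ)ᵐᵒᵖ (TE σ), I ≤ J ∨ J ≤ I := by
    intro I J
    by_cases hIJ : I ≤ J
    · exact Or.inl hIJ
    · right
      obtain ⟨a, haI, haJ⟩ := SetLike.not_le_iff_exists.mp hIJ
      intro b hb
      rcases comp a b with ⟨c, rfl⟩ | ⟨c, rfl⟩
      · exact I.smul_mem (MulOpposite.op c) haI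
      · exact absurd (J.smul_mem (MulOpposite.op c) hb) haJ
  let ι : F →+* Subring.center (TE σ) :=
    { toFun := fun f => ⟨⟨algebraMap F D f, 0⟩, by
        rw [Subring.mem_center_iff]
        intro g
        ext <;> simp [hσ, Algebra.commutes]⟩
      map_one' := by ext <;> simp
      map_mul' := fun a b => by ext <;> simp
      map_zero' := by ext <;> simp
      map_add' := fun a b => by ext <;> simp }
  have key := h (TE σ)
    (by
      intro a b c
      rcases tot b c with hbc | hbc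
      · rw [sup_eq_right.mpr hbc, sup_eq_right.mpr (inf_le_inf_left a hbc)]
      · rw [sup_eq_left.mpr hbc, sup_eq_left.mpr (inf_le_inf_left a hbc)])
    (by
      intro x
      obtain ⟨p, hp, hp0⟩ := hint x.fst
      refine ⟨p.map ι * p.map ι, (hp.map ι).mul (hp.map ι), ?_⟩
      rw [Polynomial.eval₂_mul_noncomm]
      · have e : (Polynomial.eval₂ (Subring.center (TE σ)).subtype x (p.map ι)).fst = 0 := by
          have := Polynomial.hom_eval₂ (p.map ι) (Subring.center (TE σ)).subtype TE.fstHom x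
          refine this.trans ?_
          rw [Polynomial.eval₂_map, ← hp0]
          rfl
        ext <;> simp [e]
      · intro k
        exact (Subring.mem_center_iff.mp ((p.map ι).coeff k).2 x).symm)
    (Submodule.span _ {⟨0, 1 + y⟩}) (Submodule.span _ {⟨0, 1⟩}) (Submodule.span _ {⟨0, y⟩})
  have div : ∀ d e : D, σ d * y = σ e → d = 0 := by
    intro d e hde
    by_contra hd
    obtain ⟨u, rfl⟩ := hu d hd
    apply hy (↑u⁻¹ * e)
    rw [map_mul, ← hde, ← mul_assoc, ← map_mul]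
    simp
  have h1 : (Submodule.span (TE σ) {(⟨0, 1 + y⟩ : TE σ)}) ⊓ (Submodule.span _ {⟨0, 1⟩}) = ⊥ := by
    rw [eq_bot_iff]
    rintro z ⟨hz1, hz2⟩
    obtain ⟨a, rfl⟩ := Submodule.mem_span_singleton.mp hz1
    obtain ⟨b, hb⟩ := Submodule.mem_span_singleton.mp hz2
    have e := congrArg TE.snd hb
    simp only [smul_eq_mul, TE.mul_snd, mul_one, mul_zero, add_zero] at e
    have : a.fst = 0 := div a.fst (b.fst - a.fst) (by rw [map_sub, e, mul_add]; simp)
    rw [Submodule.mem_bot]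
    ext <;> simp [this]
  have h2 : (Submodule.span (TE σ) {(⟨0, 1 + y⟩ : TE σ)}) ⊓ (Submodule.span _ {⟨0, y⟩}) = ⊥ := by
    rw [eq_bot_iff]
    rintro z ⟨hz1, hz2⟩
    obtain ⟨a, rfl⟩ := Submodule.mem_span_singleton.mp hz1
    obtain ⟨b, hb⟩ := Submodule.mem_span_singleton.mp hz2
    have e := congrArg TE.snd hb
    simp only [smul_eq_mul, TE.mul_snd, mul_zero, add_zero] at e
    have e2 : σ (b.fst - a.fst) * y = σ a.fst := by rw [map_sub, sub_mul, e, mul_add]; simp
    have e3 := div _ _ e2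
    rw [e3, map_zero, zero_mul] at e2
    rw [Submodule.mem_bot]
    ext <;> simp [← e2]
  rw [h1, h2, bot_sup_eq] at key
  have h3 : (⟨0, 1 + y⟩ : TE σ) ∈ (⊥ : Submodule (TE σ) (TE σ)) := by
    rw [← key]
    refine ⟨Submodule.mem_span_singleton_self _, ?_⟩
    have : (⟨0, 1 + y⟩ : TE σ) = ⟨0, 1⟩ + ⟨0, y⟩ := by ext <;> simp
    rw [this]
    exact Submodule.add_mem_sup (Submodule.mem_span_singleton_self _)
      (Submodule.mem_span_singleton_self _)
  have h4 := congrArg TE.snd ((Submodule.mem_bot _).mp h3)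
  apply hy (-1)
  simp only [TE.zero_snd] at h4
  rw [map_neg, map_one]
  exact neg_eq_of_add_eq_zero_right h4

/-- A limit of inner automorphisms. -/
theorem limit_hom {D : Type} [Ring D] (P : ℕ → Set D) (hmono : ∀ n m, n ≤ m → P n ⊆ P m)
    (hall : ∀ d, ∃ n, d ∈ P n) (W : ℕ → Dˣ) (hW : ∀ n, ∀ d ∈ P n, Commute (W n : D) d)
    (U : ℕ → Dˣ) (hU : ∀ n, U (n + 1) = U n * W n) :
    ∃ σ : D →+* D, ∀ n, ∀ d ∈ P n, σ d = U n * d * ↑(U n)⁻¹ := by
  have st : ∀ n, ∀ d ∈ P n, ∀ m, n ≤ m → (U m : D) * d * ↑(U m)⁻¹ = U n * d * ↑(U n)⁻¹ := by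
    intro n d hd m hm
    induction m, hm using Nat.le_induction with
    | base => rfl
    | succ m hm ih =>
      rw [← ih, hU, mul_inv_rev, Units.val_mul, Units.val_mul, mul_assoc (U m : D),
        (hW m d (hmono n m hm hd)).eq]
      simp [mul_assoc]
  choose N hN using hall
  have st2 : ∀ n, ∀ d ∈ P n, (U (N d) : D) * d * ↑(U (N d))⁻¹ = U n * d * ↑(U n)⁻¹ := by
    intro n d hd
    rw [← st _ d (hN d) (max n (N d)) (le_max_right _ _), st n d hd _ (le_max_left _ _)]
  have st3 : ∀ d m, N d ≤ m → (U (N d) : D) * d * ↑(U (N d))⁻¹ = U m * d * ↑(U m)⁻¹ :=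
    fun d m hm => (st _ d (hN d) m hm).symm
  refine ⟨⟨⟨⟨fun d => U (N d) * d * ↑(U (N d))⁻¹, by simp⟩, ?_⟩, by simp, ?_⟩, st2⟩
  · intro a b
    simp only
    rw [st3 a (max (N a) (max (N b) (N (a * b)))) (by omega),
      st3 b (max (N a) (max (N b) (N (a * b)))) (by omega),
      st3 (a * b) (max (N a) (max (N b) (N (a * b)))) (by omega)]
    simp [mul_assoc]
  · intro a b
    simp only
    rw [st3 a (max (N a) (max (N b) (N (a + b)))) (by omega),
      st3 b (max (N a) (max (N b) (N (a + b)))) (by omega),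
      st3 (a + b) (max (N a) (max (N b) (N (a + b)))) (by omega)]
    simp [mul_add, add_mul]

end Pool.Agent.H48.RDist
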