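import Mathlib

set_option autoImplicit false

namespace Pool.Agent.H48.Retreat

/-- `x` is a sum of at most `w` terms `± q ^ i` with `l ≤ i ≤ h`. -/
inductive W (q : ℚ) (l h : ℤ) : ℚ → ℕ → Prop
  | zero : W q l h 0 0
  | slack {x : ℚ} {w : ℕ} : W q l h x w → W q l h x (w + 1)
  | add {x : ℚ} {w : ℕ} (i : ℤ) (e : ℚ) : l ≤ i → i ≤ h → (e = 1 ∨ e = -1) → W q l h x w →
      W q l h (x + e * q ^ i) (w + 1)

/-- The point `(x, k)` is reached in at most `n` moves. -/
inductive R (q : ℚ) : ℕ → ℚ → ℤ → Prop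
  | zero : R q 0 0 0
  | slack {n : ℕ} {x : ℚ} {k : ℤ} : R q n x k → R q (n + 1) x k
  | a {n : ℕ} {x : ℚ} {k : ℤ} (e : ℚ) : (e = 1 ∨ e = -1) → R q n x k →
      R q (n + 1) (x + e * q ^ k) k
  | t {n : ℕ} {x : ℚ} {k : ℤ} (e : ℤ) : (e = 1 ∨ e = -1) → R q n x k → R q (n + 1) x (k + e)

variable {q : ℚ}

theorem W.le {l h : ℤ} {x : ℚ} {w w' : ℕ} (H : W q l h x w) (hw : w ≤ w') : W q l h x w' := by
  induction hw with
  | refl => exact H
  | step _ ih => exact ih.slack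

theorem R.le {x : ℚ} {k : ℤ} {n n' : ℕ} (H : R q n x k) (hw : n ≤ n') : R q n' x k := by
  induction hw with
  | refl => exact H
  | step _ ih => exact ih.slack

theorem W.mono {l h l' h' : ℤ} {x : ℚ} {w : ℕ} (H : W q l h x w) (hl : l' ≤ l) (hh : h ≤ h') :
    W q l' h' x w := by
  induction H with
  | zero => exact W.zero
  | slack _ ih => exact ih.slack
  | add i e h1 h2 he _ ih => exact W.add i e (by omega) (by omega) he ih

theorem W.plus {l h : ℤ} {x y : ℚ} {w v : ℕ} (H : W q l h x w) (H' : W q l h y v) :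
    W q l h (x + y) (w + v) := by
  induction H' with
  | zero => simpa using H
  | slack _ ih => exact ih.slack
  | add i e h1 h2 he _ ih =>
    rw [← add_assoc, ← add_assoc]
    exact W.add i e h1 h2 he ih

theorem W.neg {l h : ℤ} {x : ℚ} {w : ℕ} (H : W q l h x w) : W q l h (-x) w := by
  induction H with
  | zero => simpa using W.zero
  | slack _ ih => exact ih.slack
  | @add x w i e h1 h2 he _ ih =>
    have : -(x + e * q ^ i) = -x + (-e) * q ^ i := by ring
    rw [this]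
    exact W.add i (-e) h1 h2 (by rcases he with rfl | rfl <;> simp) ih

theorem W.nat {l h i : ℤ} (h1 : l ≤ i) (h2 : i ≤ h) (c : ℕ) : W q l h (c * q ^ i) c := by
  induction c with
  | zero => simpa using W.zero
  | succ c ih =>
    have : ((c + 1 : ℕ) : ℚ) * q ^ i = c * q ^ i + 1 * q ^ i := by push_cast; ring
    rw [this]
    exact W.add i 1 h1 h2 (Or.inl rfl) ih

theorem W.int {l h i : ℤ} (h1 : l ≤ i) (h2 : i ≤ h) (c : ℤ) : W q l h (c * q ^ i) c.natAbs := by
  rcases Int.natAbs_eq c with hc | hc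
  · have := W.nat (q := q) h1 h2 c.natAbs
    have e : ((c.natAbs : ℕ) : ℚ) = c := by
      conv_rhs => rw [hc]
      simp
    rwa [e] at this
  · have := (W.nat (q := q) h1 h2 c.natAbs).neg
    have e : -(((c.natAbs : ℕ) : ℚ) * q ^ i) = c * q ^ i := by
      conv_rhs => rw [hc]
      simp
    rwa [e] at this

theorem W.split {l h : ℤ} {x : ℚ} {w : ℕ} (H : W q l h x w) (r : ℤ) :
    ∃ x1 x2 : ℚ, ∃ w1 w2 : ℕ, x = x1 + x2 ∧ W q l (r - 1) x1 w1 ∧ W q r h x2 w2 ∧ w1 + w2 = w := by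
  induction H with
  | zero => exact ⟨0, 0, 0, 0, by simp, W.zero, W.zero, rfl⟩
  | slack _ ih =>
    obtain ⟨x1, x2, w1, w2, e, a, b, c⟩ := ih
    exact ⟨x1, x2, w1 + 1, w2, e, a.slack, b, by omega⟩
  | add i e h1 h2 he _ ih =>
    obtain ⟨x1, x2, w1, w2, e', a, b, c⟩ := ih
    by_cases hi : r ≤ i
    · exact ⟨x1, x2 + e * q ^ i, w1, w2 + 1, by rw [e']; ring, a, W.add i e hi h2 he b, by omega⟩
    · exact ⟨x1 + e * q ^ i, x2, w1 + 1, w2, by rw [e']; ring,
        W.add i e h1 (by omega) he a, b, by omega⟩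

theorem W.abs_le (hq : 1 ≤ q) {l h : ℤ} {x : ℚ} {w : ℕ} (H : W q l h x w) :
    |x| ≤ w * q ^ h := by
  have hp : 0 < q ^ h := zpow_pos (by linarith) h
  induction H with
  | zero => simp
  | slack _ ih => push_cast; nlinarith
  | @add x w i e h1 h2 he _ ih =>
    have h3 : q ^ i ≤ q ^ h := zpow_le_zpow_right₀ hq h2
    have h4 : 0 < q ^ i := zpow_pos (by linarith) i
    have h5 : |e * q ^ i| = q ^ i := by
      rcases he with rfl | rfl <;> simp [abs_of_pos h4]
    have := abs_add_le x (e * q ^ i)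
    push_cast
    nlinarith

/-- `x ∈ q ^ l ℤ`. -/
def In (q : ℚ) (l : ℤ) (x : ℚ) : Prop := ∃ j : ℤ, x = j * q ^ l

theorem In.pow {m : ℕ} (hm : 2 ≤ m) {l i : ℤ} (h : l ≤ i) : In (m : ℚ) l ((m : ℚ) ^ i) := by
  obtain ⟨d, rfl⟩ := Int.le.dest h
  have : (m : ℚ) ≠ 0 := by positivity
  exact ⟨(m : ℤ) ^ d, by rw [zpow_add₀ this, zpow_natCast]; push_cast; ring⟩

theorem In.add {l : ℤ} {x y : ℚ} (h : In q l x) (h' : In q l y) : In q l (x + y) := by
  obtain ⟨i, rfl⟩ := h
  obtain ⟨j, rfl⟩ := h'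
  exact ⟨i + j, by push_cast; ring⟩

theorem In.mul {l : ℤ} {x : ℚ} (h : In q l x) (c : ℤ) : In q l (c * x) := by
  obtain ⟨i, rfl⟩ := h
  exact ⟨c * i, by push_cast; ring⟩

theorem In.sign {l : ℤ} {x e : ℚ} (h : In q l x) (he : e = 1 ∨ e = -1) : In q l (e * x) := by
  rcases he with rfl | rfl
  · simpa using h
  · simpa using h.mul (-1)

theorem In.sub {l : ℤ} {x y : ℚ} (h : In q l x) (h' : In q l y) : In q l (x - y) := by
  have := h.add (h'.mul (-1))
  simpa [sub_eq_add_neg] using this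

theorem In.mono {m : ℕ} (hm : 2 ≤ m) {l l' : ℤ} {x : ℚ} (h : In (m : ℚ) l x) (hl : l' ≤ l) :
    In (m : ℚ) l' x := by
  obtain ⟨i, rfl⟩ := h
  exact (In.pow hm hl).mul i

theorem W.mem {m : ℕ} (hm : 2 ≤ m) {l h : ℤ} {x : ℚ} {w : ℕ} (H : W (m : ℚ) l h x w) :
    In (m : ℚ) l x := by
  induction H with
  | zero => exact ⟨0, by simp⟩
  | slack _ ih => exact ih
  | add i e h1 h2 he _ ih => exact ih.add ((In.pow hm h1).sign he)

theorem W.compress {m : ℕ} (hm : 2 ≤ m) {l h r : ℤ} {x : ℚ} {w : ℕ} (H : W (m : ℚ) l h x w)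
    (hr : r ≤ h) (hx : In (m : ℚ) r x) : W (m : ℚ) r h x w := by
  obtain ⟨x1, x2, w1, w2, e, a, b, c⟩ := H.split r
  have hq : (1 : ℚ) ≤ m := by exact_mod_cast (by omega : 1 ≤ m)
  have h1 : In (m : ℚ) r x1 := by
    have := hx.sub (b.mem hm)
    rwa [e, add_sub_cancel_right] at this
  obtain ⟨j, rfl⟩ := h1
  have h2 := (a.mono le_rfl (by omega : r - 1 ≤ r)).abs_le hq
  have hp : 0 < (m : ℚ) ^ r := zpow_pos (by linarith) r
  rw [abs_mul, abs_of_pos hp] at h2
  have h3 : |(j : ℚ)| ≤ w1 := le_of_mul_le_mul_right h2 hp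
  have h4 : j.natAbs ≤ w1 := by
    have : ((j.natAbs : ℕ) : ℚ) ≤ w1 := by simpa using h3
    exact_mod_cast this
  rw [e]
  exact ((W.int le_rfl hr j).plus b).le (by omega)

theorem W.digits {m : ℕ} (hm : 2 ≤ m) (j : ℕ) : ∀ (l : ℤ) (y : ℕ), y < m ^ j →
    W (m : ℚ) l (l + j) (y * (m : ℚ) ^ l) (m * j) := by
  induction j with
  | zero =>
    intro l y hy
    have : y = 0 := by simpa using hy
    subst this
    simpa using W.zero
  | succ j ih =>
    intro l y hy
    have h1 : y / m < m ^ j := by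
      rw [Nat.div_lt_iff_lt_mul (by omega)]
      rwa [pow_succ] at hy
    have h2 := (ih (l + 1) (y / m) h1).mono (by omega : l ≤ l + 1)
      (by push_cast; omega : l + 1 + (j : ℤ) ≤ l + ((j + 1 : ℕ) : ℤ))
    have h3 := W.nat (q := (m : ℚ)) (le_refl l) (by omega : l ≤ l + ((j + 1 : ℕ) : ℤ)) (y % m)
    have h4 := h2.plus h3
    have hm0 : (m : ℚ) ≠ 0 := by positivity
    have e : ((y / m : ℕ) : ℚ) * (m : ℚ) ^ (l + 1) + ((y % m : ℕ) : ℚ) * (m : ℚ) ^ l
        = y * (m : ℚ) ^ l := by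
      have : (y : ℚ) = ((m * (y / m) + y % m : ℕ) : ℚ) := by rw [Nat.div_add_mod]
      rw [this, zpow_add_one₀ hm0]
      push_cast
      ring
    rw [e] at h4
    have : y % m < m := Nat.mod_lt _ (by omega)
    exact h4.le (by rw [Nat.mul_succ]; omega)

theorem R.level {n : ℕ} {y : ℚ} {k : ℤ} (H : R q n y k) {x : ℚ} {w : ℕ} (H' : W q k k x w) :
    R q (n + w) (y + x) k := by
  induction H' with
  | zero => simpa using H
  | slack _ ih => exact ih.slack
  | add i e h1 h2 he _ ih =>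
    have : i = k := by omega
    subst this
    rw [← add_assoc, ← add_assoc]
    exact R.a e he ih

theorem R.up {n : ℕ} {y : ℚ} {k : ℤ} (H : R q n y k) (j : ℕ) : R q (n + j) y (k + j) := by
  induction j with
  | zero => simpa using H
  | succ j ih =>
    have := R.t 1 (Or.inl rfl) ih
    push_cast
    rwa [add_assoc k] at this

theorem R.down {n : ℕ} {y : ℚ} {k : ℤ} (H : R q n y k) (j : ℕ) : R q (n + j) y (k - j) := by
  induction j with
  | zero => simpa using H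
  | succ j ih =>
    have := R.t (-1) (Or.inr rfl) ih
    have e : k - (j : ℤ) + -1 = k - ((j + 1 : ℕ) : ℤ) := by push_cast; ring
    rwa [e] at this

theorem R.sweepUp (j : ℕ) : ∀ {n : ℕ} {y : ℚ} {l : ℤ}, R q n y l → ∀ {x : ℚ} {w : ℕ},
    W q l (l + j) x w → R q (n + w + j) (y + x) (l + j) := by
  induction j with
  | zero =>
    intro n y l H x w H'
    simpa using H.level (by simpa using H')
  | succ j ih =>
    intro n y l H x w H'
    obtain ⟨x1, x2, w1, w2, e, a, b, c⟩ := H'.split (l + 1)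
    have h1 := (H.level (by simpa using a)).up 1
    have h2 := ih h1 (b.mono (by simp) (by push_cast; omega))
    have e1 : l + ((1 : ℕ) : ℤ) + (j : ℤ) = l + ((j + 1 : ℕ) : ℤ) := by push_cast; ring
    rw [e1, add_assoc y, ← e] at h2
    exact h2.le (by omega)

theorem R.sweepDown (j : ℕ) : ∀ {n : ℕ} {y : ℚ} {h : ℤ}, R q n y h → ∀ {x : ℚ} {w : ℕ},
    W q (h - j) h x w → R q (n + w + j) (y + x) (h - j) := by
  induction j with
  | zero =>
    intro n y l H x w H'
    simpa using H.level (by simpa using H')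
  | succ j ih =>
    intro n y l H x w H'
    obtain ⟨x1, x2, w1, w2, e, a, b, c⟩ := H'.split l
    have h1 := (H.level b).down 1
    have h2 := ih h1 (a.mono (by push_cast; omega) (by simp))
    have e1 : l - ((1 : ℕ) : ℤ) - (j : ℤ) = l - ((j + 1 : ℕ) : ℤ) := by push_cast; ring
    rw [e1, add_assoc y, add_comm x2, ← e] at h2
    exact h2.le (by omega)

theorem R.ofW {l h k : ℤ} {x : ℚ} {w n : ℕ} (H : W q l h x w) (h1 : l ≤ 0) (h2 : l ≤ k)
    (h3 : 0 ≤ h) (h4 : k ≤ h) (hn : (w : ℤ) + 2 * (h - l) - |k| ≤ n) : R q n x k := by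
  obtain ⟨a, ha⟩ := Int.le.dest h1
  obtain ⟨b, hb⟩ := Int.le.dest h3
  rcases le_total 0 k with hk | hk
  · obtain ⟨c, hc⟩ := Int.le.dest h4
    rw [abs_of_nonneg hk] at hn
    have s1 := (R.zero (q := q)).down a
    have e1 : (0 : ℤ) - a = l := by omega
    rw [e1] at s1
    have s2 := R.sweepUp (a + b) s1 (H.mono le_rfl (by push_cast; omega))
    have s3 := s2.down c
    have e2 : l + ((a + b : ℕ) : ℤ) - c = k := by push_cast; omega
    rw [e2, zero_add x] at s3
    exact s3.le (by omega)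
  · obtain ⟨c, hc⟩ := Int.le.dest h2
    rw [abs_of_nonpos hk] at hn
    have s1 := (R.zero (q := q)).up b
    have e1 : (0 : ℤ) + b = h := by omega
    rw [e1] at s1
    have s2 := R.sweepDown (a + b) s1 (H.mono (by push_cast; omega) le_rfl)
    have s3 := s2.up c
    have e2 : h - ((a + b : ℕ) : ℤ) + c = k := by push_cast; omega
    rw [e2, zero_add x] at s3
    exact s3.le (by omega)

theorem R.toW {n : ℕ} {x : ℚ} {k : ℤ} (H : R q n x k) : ∃ (l h : ℤ) (w : ℕ),
    W q l h x w ∧ l ≤ 0 ∧ l ≤ k ∧ 0 ≤ h ∧ k ≤ h ∧ (w : ℤ) + 2 * (h - l) - |k| ≤ n := by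
  induction H with
  | zero => exact ⟨0, 0, 0, W.zero, by simp⟩
  | slack _ ih =>
    obtain ⟨l, h, w, a, b1, b2, b3, b4, b5⟩ := ih
    exact ⟨l, h, w, a, b1, b2, b3, b4, by push_cast; omega⟩
  | a e he _ ih =>
    obtain ⟨l, h, w, a, b1, b2, b3, b4, b5⟩ := ih
    exact ⟨l, h, w + 1, W.add _ e b2 b4 he a, b1, b2, b3, b4, by push_cast; omega⟩
  | @t n x k e he _ ih =>
    obtain ⟨l, h, w, a, b1, b2, b3, b4, b5⟩ := ih
    refine ⟨min l (k + e), max h (k + e), w, a.mono (by omega) (by omega), by omega, by omega,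
      by omega, by omega, ?_⟩
    push_cast
    rcases abs_cases k with ⟨c1, c2⟩ | ⟨c1, c2⟩ <;>
      rcases abs_cases (k + e) with ⟨c3, c4⟩ | ⟨c3, c4⟩ <;> omega

end Pool.Agent.H48.Retreat
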