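import Mathlib
import Pool.Agent.H48.Retreat

set_option autoImplicit false

namespace Pool.Agent.H48.Retreat

/-- The numbers `1 + m ^ 2 + ⋯ + m ^ (2 n)`. -/
def yy (m : ℕ) : ℕ → ℕ
  | 0 => 1
  | n + 1 => 1 + m ^ 2 * yy m n

theorem yy_ge {m : ℕ} (n : ℕ) : m ^ (2 * n) ≤ yy m n := by
  induction n with
  | zero => simp [yy]
  | succ n ih =>
    have : m ^ (2 * (n + 1)) = m ^ 2 * m ^ (2 * n) := by ring
    rw [this, yy]
    have := Nat.mul_le_mul_left (m ^ 2) ih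
    omega

theorem yy_le {m : ℕ} (hm : 2 ≤ m) (n : ℕ) : yy m n + 1 ≤ 2 * m ^ (2 * n) := by
  induction n with
  | zero => simp [yy]
  | succ n ih =>
    have e : m ^ (2 * (n + 1)) = m ^ 2 * m ^ (2 * n) := by ring
    rw [e, yy]
    have h1 := Nat.mul_le_mul_left (m ^ 2) ih
    have h2 : 2 ≤ m ^ 2 := by nlinarith
    nlinarith

theorem yy_lin {m : ℕ} (hm : 2 ≤ m) (n : ℕ) : (5 * n + 2) * m ≤ yy m (n + 1) := by
  induction n with
  | zero => simp only [yy]; nlinarith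
  | succ n ih =>
    rw [yy]
    have h2 : 4 ≤ m ^ 2 := by nlinarith
    have h3 := Nat.mul_le_mul h2 ih
    nlinarith

theorem lower {m : ℕ} (hm : 2 ≤ m) (n : ℕ) : ∀ (l h : ℤ) (w : ℕ), l ≤ h →
    W (m : ℚ) l h (yy m n * (m : ℚ) ^ l) w → (5 * n : ℤ) ≤ w + 2 * (h - l) + 5 := by
  have hq : (1 : ℚ) ≤ m := by exact_mod_cast (by omega : 1 ≤ m)
  have hm0 : (m : ℚ) ≠ 0 := by positivity
  induction n with
  | zero => intro l h w hl _; push_cast; omega
  | succ n ih =>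
    intro l h w hl H
    have hp : 0 < (m : ℚ) ^ l := zpow_pos (by linarith) l
    by_cases hh : h ≤ l + 1
    · have h1 := (H.mono le_rfl hh).abs_le hq
      rw [abs_of_nonneg (by positivity), zpow_add_one₀ hm0, mul_comm ((m : ℚ) ^ l),
        ← mul_assoc] at h1
      have h2 : (yy m (n + 1) : ℚ) ≤ w * m := le_of_mul_le_mul_right h1 hp
      have h3 : yy m (n + 1) ≤ w * m := by exact_mod_cast h2
      have h4 := (yy_lin hm n).trans h3
      have h5 : 5 * n + 2 ≤ w := Nat.le_of_mul_le_mul_right h4 (by omega)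
      push_cast
      omega
    · obtain ⟨x1, x2, w1, w2, e, a, b, c⟩ := H.split (l + 2)
      obtain ⟨i, rfl⟩ := b.mem hm
      have e2 : (m : ℚ) ^ (l + 2) = (m : ℚ) ^ l * m ^ 2 := by
        rw [zpow_add₀ hm0]; norm_cast
      obtain ⟨j, hj⟩ : ∃ j : ℤ, j = yy m n - i := ⟨_, rfl⟩
      have e1 : x1 = ((1 + m ^ 2 * j : ℤ) : ℚ) * (m : ℚ) ^ l := by
        have : x1 = yy m (n + 1) * (m : ℚ) ^ l - i * (m : ℚ) ^ (l + 2) := by rw [e]; ring
        rw [this, e2, yy, hj]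
        push_cast
        ring
      have h1 := (a.mono le_rfl (by omega : l + 2 - 1 ≤ l + 1)).abs_le hq
      rw [e1, abs_mul, abs_of_pos hp, zpow_add_one₀ hm0, mul_comm ((m : ℚ) ^ l),
        ← mul_assoc] at h1
      have h2 := le_of_mul_le_mul_right h1 hp
      have h3 : |1 + (m : ℤ) ^ 2 * j| ≤ (w1 : ℤ) * (m : ℤ) := by exact_mod_cast h2
      have h4 : (j.natAbs : ℤ) + 1 ≤ w1 := by
        have hm' : (2 : ℤ) ≤ m := by exact_mod_cast hm
        have hw : (0 : ℤ) ≤ w1 := by positivity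
        rw [Int.natCast_natAbs]
        by_contra hc
        have hc' : (w1 : ℤ) ≤ |j| := by omega
        rcases lt_trichotomy j 0 with hj0 | hj0 | hj0
        · rw [abs_of_neg hj0] at hc'
          have := neg_abs_le (1 + (m : ℤ) ^ 2 * j)
          have h6 : (w1 : ℤ) * m ≤ -j * m := by nlinarith
          have h7 : (2 : ℤ) * m * (-j) ≤ m ^ 2 * (-j) := by
            apply mul_le_mul_of_nonneg_right <;> nlinarith
          nlinarith
        · subst hj0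
          have : (w1 : ℤ) = 0 := by simp at hc'; omega
          rw [this] at h3
          simp at h3
        · rw [abs_of_pos hj0] at hc'
          have := le_abs_self (1 + (m : ℤ) ^ 2 * j)
          have h6 : (w1 : ℤ) * m ≤ j * m := by nlinarith
          have h7 : (2 : ℤ) * m * j ≤ m ^ 2 * j := by
            apply mul_le_mul_of_nonneg_right <;> nlinarith
          nlinarith
      have h5 := b.plus (W.int (q := (m : ℚ)) (le_refl (l + 2)) (by omega : l + 2 ≤ h) j)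
      have e3 : (i : ℚ) * (m : ℚ) ^ (l + 2) + j * (m : ℚ) ^ (l + 2)
          = yy m n * (m : ℚ) ^ (l + 2) := by
        rw [hj]; push_cast; ring
      rw [e3] at h5
      have h6 := ih (l + 2) h _ (by omega) h5
      push_cast at h6 ⊢
      rw [Int.natCast_natAbs] at h4
      omega

theorem not_in {m : ℕ} (hm : 2 ≤ m) (l : ℤ) : ¬ In (m : ℚ) (l + 1) ((m : ℚ) ^ l) := by
  rintro ⟨j, hj⟩
  have hm0 : (m : ℚ) ≠ 0 := by positivity
  have hp : (m : ℚ) ^ l ≠ 0 := zpow_ne_zero l hm0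
  rw [zpow_add_one₀ hm0] at hj
  have h1 : (1 : ℚ) = j * m := by
    apply mul_left_cancel₀ hp
    rw [mul_one]
    conv_lhs => rw [hj]
    ring
  have h2 : (1 : ℤ) = j * m := by exact_mod_cast h1
  have h3 := Int.eq_one_or_neg_one_of_mul_eq_one' (mul_comm j (m : ℤ) ▸ h2.symm)
  omega

theorem nat_of_in {m : ℕ} (hm : 2 ≤ m) {L : ℕ} {x : ℚ} (h : In (m : ℚ) (-(L : ℤ)) x)
    (h0 : 0 ≤ x) {B : ℕ} (hB : x ≤ B) : ∃ y : ℕ, y ≤ B * m ^ L ∧ x = y * (m : ℚ) ^ (-(L : ℤ)) := by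
  obtain ⟨j, rfl⟩ := h
  have hp : (0 : ℚ) < (m : ℚ) ^ (-(L : ℤ)) := zpow_pos (by positivity) _
  have hj : (0 : ℚ) ≤ j := nonneg_of_mul_nonneg_left h0 hp
  have hj' : 0 ≤ j := by exact_mod_cast hj
  obtain ⟨y, rfl⟩ := Int.eq_ofNat_of_zero_le hj'
  refine ⟨y, ?_, by simp⟩
  rw [zpow_neg, zpow_natCast, ← div_eq_mul_inv, div_le_iff₀ (by positivity)] at hB
  exact_mod_cast hB

theorem model {m : ℕ} (hm : 2 ≤ m) (E : ℕ) : ∃ (S : Set ℚ) (x0 : ℚ) (M : ℕ), S.Finite ∧ x0 ∈ S ∧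
    R (m : ℚ) M x0 0 ∧ (∀ n, R (m : ℚ) n x0 0 → M ≤ n) ∧
    (∀ x ∈ S, ∀ k : ℤ, |k| = E → ∃ n, n + E ≤ M ∧ R (m : ℚ) n x k) ∧
    (∀ x ∈ S, ∀ k : ℤ, |k| < E → ∀ e : ℚ, (e = 1 ∨ e = -1) → x + e * (m : ℚ) ^ k ∉ S →
      ∃ n, n + E ≤ M ∧ R (m : ℚ) n (x + e * (m : ℚ) ^ k) k) := by
  have hq : (1 : ℚ) ≤ m := by exact_mod_cast (by omega : 1 ≤ m)
  have hm0 : (m : ℚ) ≠ 0 := by positivity
  obtain ⟨L, hL⟩ : ∃ L : ℕ, L = E + 1 := ⟨_, rfl⟩
  obtain ⟨n, hn1, hn2⟩ : ∃ n : ℕ, 2 * L + 7 + m ^ E * m ^ L + E ≤ n ∧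
      (m + 2) * (2 * n + L + 2) * m ^ E < m ^ (2 * n) := by
    refine ⟨2 * L + 7 + m ^ E * m ^ L + E + (m + 2) * (L + 4) * m ^ E, by omega, ?_⟩
    generalize hN : 2 * L + 7 + m ^ E * m ^ L + E + (m + 2) * (L + 4) * m ^ E = N
    have h1 : (m + 2) * (L + 4) * m ^ E ≤ N := by omega
    have h2 : 1 ≤ N := by omega
    have h3 : N < m ^ N := Nat.lt_pow_self (by omega)
    have h4 : 2 * N + L + 2 ≤ (L + 4) * N := by nlinarith
    calc (m + 2) * (2 * N + L + 2) * m ^ E ≤ (m + 2) * ((L + 4) * N) * m ^ E := by gcongr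
      _ = (m + 2) * (L + 4) * m ^ E * N := by ring
      _ ≤ N * N := by gcongr
      _ < m ^ N * m ^ N := Nat.mul_lt_mul'' h3 h3
      _ = m ^ (2 * N) := by ring
  obtain ⟨Q, hQ⟩ : ∃ Q : ℕ, Q = m ^ (2 * n) := ⟨_, rfl⟩
  have hQ' : (Q : ℚ) = (m : ℚ) ^ ((2 * n : ℕ) : ℤ) := by rw [hQ, zpow_natCast]; push_cast; rfl
  have hQ2 : 2 ≤ Q := by
    rw [hQ]
    calc 2 ≤ m := hm
      _ = m ^ 1 := (pow_one m).symm
      _ ≤ m ^ (2 * n) := Nat.pow_le_pow_right (by omega) (by omega)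
  have hQ0 : (2 : ℚ) ≤ Q := by exact_mod_cast hQ2
  set S : Set ℚ := {x | In (m : ℚ) (-(L : ℤ)) x ∧ (Q : ℚ) ≤ x ∧ x ≤ 2 * Q} with hS
  have hnat : ∀ x ∈ S, ∃ y : ℕ, y ≤ 2 * Q * m ^ L ∧ x = y * (m : ℚ) ^ (-(L : ℤ)) := by
    rintro x ⟨h1, h2, h3⟩
    exact nat_of_in hm h1 (by linarith) (by push_cast; exact h3)
  have hfin : S.Finite := by
    refine ((Set.finite_Iic (2 * Q * m ^ L)).image
      (fun y : ℕ => (y : ℚ) * (m : ℚ) ^ (-(L : ℤ)))).subset ?_
    intro x hx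
    obtain ⟨y, h1, h2⟩ := hnat x hx
    exact ⟨y, h1, h2.symm⟩
  have hup : ∀ x ∈ S, R (m : ℚ) ((m + 2) * (2 * n + L + 2)) x 0 := by
    intro x hx
    obtain ⟨y, h1, h2⟩ := hnat x hx
    have h3 : y < m ^ (2 * n + L + 2) := by
      have : m ^ (2 * n + L + 2) = m ^ 2 * Q * m ^ L := by rw [hQ]; ring
      rw [this]
      have h4 : 2 < m ^ 2 := by nlinarith
      have h5 : 0 < Q * m ^ L := by positivity
      nlinarith
    have h4 := W.digits hm _ (-(L : ℤ)) y h3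
    rw [← h2] at h4
    exact R.ofW h4 (by omega) (by omega) (by push_cast; omega) (by push_cast; omega)
      (by push_cast; simp; nlinarith)
  set len : ℚ → ℕ := fun x => sInf {k | R (m : ℚ) k x 0} with hlen
  have hlen1 : ∀ x ∈ S, R (m : ℚ) (len x) x 0 := fun x hx =>
    Nat.sInf_mem (s := {k | R (m : ℚ) k x 0}) ⟨_, hup x hx⟩
  have hlen2 : ∀ x k, R (m : ℚ) k x 0 → len x ≤ k := fun x k hk => Nat.sInf_le hk
  have hy : ((yy m n : ℕ) : ℚ) ∈ S := by
    refine ⟨?_, ?_, ?_⟩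
    · have := (In.pow hm (by omega : -(L : ℤ) ≤ 0)).mul (yy m n)
      simpa using this
    · rw [hQ]; exact_mod_cast yy_ge n
    · have := yy_le hm n
      rw [hQ]; exact_mod_cast (by omega)
  obtain ⟨x0, hx0, hmax⟩ := Set.exists_max_image S len hfin ⟨_, hy⟩
  have hMle : len x0 ≤ (m + 2) * (2 * n + L + 2) := hlen2 _ _ (hup _ hx0)
  have hMge : (5 * n : ℤ) ≤ len x0 + 5 := by
    obtain ⟨l, h, w, a, b1, b2, b3, b4, b5⟩ := (hlen1 _ hy).toW
    have a' := a.compress hm b3 ⟨yy m n, by simp⟩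
    have := lower hm n 0 h w b3 (by simpa using a')
    have h2 := hmax _ hy
    simp only [abs_zero] at b5
    omega
  have hhigh : ∀ x ∈ S, ∀ (l h : ℤ) (w : ℕ), W (m : ℚ) l h x w → w ≤ len x0 → (E : ℤ) ≤ h := by
    intro x hx l h w a hw
    by_contra hc
    have h1 := (a.mono le_rfl (by omega : h ≤ (E : ℤ))).abs_le hq
    have h2 : (Q : ℚ) ≤ w * (m : ℚ) ^ E := by
      rw [zpow_natCast] at h1
      exact hx.2.1.trans ((le_abs_self x).trans h1)
    have h3 : Q ≤ w * m ^ E := by exact_mod_cast h2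
    have h4 : w * m ^ E ≤ (m + 2) * (2 * n + L + 2) * m ^ E :=
      Nat.mul_le_mul_right _ (hw.trans hMle)
    omega
  refine ⟨S, x0, len x0, hfin, hx0, hlen1 _ hx0, hlen2 _, ?_, ?_⟩
  · intro x hx k hk
    have hEM : 2 * E ≤ len x0 := by omega
    refine ⟨len x0 - E, by omega, ?_⟩
    obtain ⟨l, h, w, a, b1, b2, b3, b4, b5⟩ := (hlen1 _ hx).toW
    have h2 := hmax _ hx
    simp only [abs_zero] at b5
    have h3 := hhigh x hx l h w a (by omega)
    have hk' : k = E ∨ k = -E := by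
      rcases abs_cases k with ⟨c, _⟩ | ⟨c, _⟩ <;> omega
    by_cases hl : l ≤ k
    · exact R.ofW a b1 hl b3 (by omega) (by rw [hk]; omega)
    · have hkE : k = -E := by omega
      have hxE : In (m : ℚ) (-(E : ℤ)) x := (a.mem hm).mono hm (by omega)
      have hsmall : (m : ℚ) ^ (-(L : ℤ)) ≤ 1 := zpow_le_one_of_nonpos₀ hq (by omega)
      have hpos : (0 : ℚ) < (m : ℚ) ^ (-(L : ℤ)) := zpow_pos (by positivity) _
      obtain ⟨e, he, hx'⟩ : ∃ e : ℚ, (e = 1 ∨ e = -1) ∧ x + e * (m : ℚ) ^ (-(L : ℤ)) ∈ S := by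
        by_cases hc : x ≤ Q + 1
        · exact ⟨1, Or.inl rfl, hx.1.add ((In.pow hm le_rfl).sign (Or.inl rfl)),
            by linarith [hx.2.1], by linarith⟩
        · exact ⟨-1, Or.inr rfl, hx.1.add ((In.pow hm le_rfl).sign (Or.inr rfl)),
            by linarith, by linarith [hx.2.2]⟩
      obtain ⟨l', h', w', a', c1, c2, c3, c4, c5⟩ := (hlen1 _ hx').toW
      have h4 := hmax _ hx'
      simp only [abs_zero] at c5
      have h5 : l' ≤ -(L : ℤ) := by
        by_contra hc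
        have d1 : In (m : ℚ) (-(L : ℤ) + 1) (x + e * (m : ℚ) ^ (-(L : ℤ))) :=
          (a'.mem hm).mono hm (by omega)
        have d2 := (d1.sub (hxE.mono hm (by omega))).sign he
        have d3 : e * (x + e * (m : ℚ) ^ (-(L : ℤ)) - x) = (m : ℚ) ^ (-(L : ℤ)) := by
          rcases he with rfl | rfl <;> ring
        rw [d3] at d2
        exact not_in hm _ d2
      have a2 := W.add (-(L : ℤ)) (-e) h5 (by omega)
        (by rcases he with rfl | rfl <;> simp) a'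
      have d4 : x + e * (m : ℚ) ^ (-(L : ℤ)) + -e * (m : ℚ) ^ (-(L : ℤ)) = x := by ring
      rw [d4] at a2
      have a3 := a2.compress hm (by omega : -(E : ℤ) ≤ h') hxE
      exact R.ofW a3 (by omega) (by omega) c3 (by omega) (by rw [hk]; push_cast [hEM]; omega)
  · intro x hx k hk e he hx'
    have hk1 : -(E : ℤ) < k ∧ k < E := abs_lt.mp hk
    have hin : In (m : ℚ) (-(L : ℤ)) (x + e * (m : ℚ) ^ k) :=
      hx.1.add ((In.pow hm (by omega)).sign he)
    have hQin : In (m : ℚ) (-(L : ℤ)) (Q : ℚ) := by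
      rw [hQ']; exact In.pow hm (by omega)
    have hkE : (m : ℚ) ^ k ≤ ((m ^ E : ℕ) : ℚ) := by
      push_cast
      rw [← zpow_natCast]
      exact zpow_le_zpow_right₀ hq (by omega)
    have hkp : (0 : ℚ) < (m : ℚ) ^ k := zpow_pos (by positivity) _
    have he2 : -(m : ℚ) ^ k ≤ e * (m : ℚ) ^ k ∧ e * (m : ℚ) ^ k ≤ (m : ℚ) ^ k := by
      rcases he with rfl | rfl <;> constructor <;> linarith
    have hWQ : W (m : ℚ) (-(L : ℤ)) ((2 * n : ℕ) : ℤ) (Q : ℚ) 1 := by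
      have := W.nat (q := (m : ℚ)) (by omega : -(L : ℤ) ≤ ((2 * n : ℕ) : ℤ)) le_rfl 1
      rw [hQ']
      simpa using this
    have hW : W (m : ℚ) (-(L : ℤ)) ((2 * n : ℕ) : ℤ) (x + e * (m : ℚ) ^ k) (2 + m ^ E * m ^ L) := by
      by_cases hc : x + e * (m : ℚ) ^ k < Q
      · obtain ⟨y, h1, h2⟩ := nat_of_in hm (hQin.sub hin) (by linarith) (B := m ^ E)
          (by linarith [hx.2.1])
        have h3 := W.nat (q := (m : ℚ)) (le_refl (-(L : ℤ)))
          (by omega : -(L : ℤ) ≤ ((2 * n : ℕ) : ℤ)) y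
        rw [← h2] at h3
        have h4 := hWQ.plus h3.neg
        have e1 : (Q : ℚ) + -(Q - (x + e * (m : ℚ) ^ k)) = x + e * (m : ℚ) ^ k := by ring
        rw [e1] at h4
        exact h4.le (by omega)
      · have hc2 : 2 * (Q : ℚ) < x + e * (m : ℚ) ^ k := by
          by_contra h
          exact hx' ⟨hin, by linarith, by linarith⟩
        obtain ⟨y, h1, h2⟩ := nat_of_in hm (hin.sub (hQin.add hQin)) (by linarith) (B := m ^ E)
          (by linarith [hx.2.2])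
        have h3 := W.nat (q := (m : ℚ)) (le_refl (-(L : ℤ)))
          (by omega : -(L : ℤ) ≤ ((2 * n : ℕ) : ℤ)) y
        rw [← h2] at h3
        have h4 := (hWQ.plus hWQ).plus h3
        have e1 : (Q : ℚ) + Q + (x + e * (m : ℚ) ^ k - (Q + Q)) = x + e * (m : ℚ) ^ k := by ring
        rw [e1] at h4
        exact h4.le (by omega)
    refine ⟨len x0 - E, by omega, ?_⟩
    have hEM : E ≤ len x0 := by omega
    have habs := abs_nonneg k
    refine R.ofW hW (by omega) (by omega) (by omega) (by omega) ?_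
    generalize m ^ E * m ^ L = Z at *
    push_cast [hEM]
    omega

end Pool.Agent.H48.Retreat
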