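import Mathlib

set_option autoImplicit false

namespace Pool.Agent.H48.RetreatDefs

/-- The word length of `g` with respect to `S`: the least length of a word in `S` with value `g`. -/
noncomputable def wlen {G : Type} [Group G] (S : Set G) (g : G) : ℕ :=
  sInf {n | ∃ l : List G, (∀ s ∈ l, s ∈ S) ∧ l.length = n ∧ l.prod = g}

/-- The vertices joined to `g` in the Cayley graph of `(G, S)` by a path that stays outside the
ball `B(n)`: for `g ∉ B(n)`, the connected component of `g` in the complement of `B(n)`. -/
def comp {G : Type} [Group G] (S : Set G) (n : ℤ) (g : G) : Set G :=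
  {h | Relation.ReflTransGen
    (fun u v => n < wlen S u ∧ n < wlen S v ∧ ∃ s ∈ S, v = u * s) g h}

end Pool.Agent.H48.RetreatDefs
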