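import Mathlib
import Pool.Agent.H48.Retreat2
import Pool.Agent.H48.RetreatDefs

set_option autoImplicit false

namespace Pool.Agent.H48.Retreat

open RetreatDefs

theorem transfer {G : Type} [Group G] {m : ℕ} (hm : 2 ≤ m) (a t : G) (X : G → ℚ) (K : G → ℤ)
    (X1 : X 1 = 0) (K1 : K 1 = 0) (Xa : ∀ g, X (g * a) = X g + (m : ℚ) ^ K g)
    (Ka : ∀ g, K (g * a) = K g) (Xt : ∀ g, X (g * t) = X g) (Kt : ∀ g, K (g * t) = K g + 1)
    (inj : ∀ g h, X g = X h → K g = K h → g = h) (S : Set G) (hS : S = {a, a⁻¹, t, t⁻¹}) (D : ℕ) :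
    ∃ g : G, ∀ d : ℕ, d ≤ D → (comp S ((wlen S g : ℤ) - d - 1) g).Finite := by
  have Ka' : ∀ g, K (g * a⁻¹) = K g := fun g => by simpa using (Ka (g * a⁻¹)).symm
  have Xa' : ∀ g, X (g * a⁻¹) = X g + -1 * (m : ℚ) ^ K g := fun g => by
    have := Xa (g * a⁻¹)
    rw [Ka', inv_mul_cancel_right] at this
    rw [this]; ring
  have Xt' : ∀ g, X (g * t⁻¹) = X g := fun g => by simpa using (Xt (g * t⁻¹)).symm
  have Kt' : ∀ g, K (g * t⁻¹) = K g + -1 := fun g => by
    have := Kt (g * t⁻¹)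
    rw [inv_mul_cancel_right] at this
    omega
  have step : ∀ g, ∀ s ∈ S, (∃ e : ℚ, (e = 1 ∨ e = -1) ∧ X (g * s) = X g + e * (m : ℚ) ^ K g ∧
      K (g * s) = K g) ∨ ∃ e : ℤ, (e = 1 ∨ e = -1) ∧ X (g * s) = X g ∧ K (g * s) = K g + e := by
    intro g s hs
    rw [hS] at hs
    rcases hs with rfl | rfl | rfl | rfl
    · exact Or.inl ⟨1, Or.inl rfl, by rw [Xa, one_mul], Ka g⟩
    · exact Or.inl ⟨-1, Or.inr rfl, Xa' g, Ka' g⟩
    · exact Or.inr ⟨1, Or.inl rfl, Xt g, Kt g⟩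
    · exact Or.inr ⟨-1, Or.inr rfl, Xt' g, Kt' g⟩
  have toR : ∀ l : List G, (∀ s ∈ l, s ∈ S) → R (m : ℚ) l.length (X l.prod) (K l.prod) := by
    intro l
    induction l using List.reverseRecOn with
    | nil => intro _; simpa [X1, K1] using R.zero
    | append_singleton l s ih =>
      intro hl
      have h1 := ih (fun s hs => hl s (by simp [hs]))
      rw [List.prod_append, List.prod_singleton, List.length_append, List.length_singleton]
      rcases step l.prod s (hl s (by simp)) with ⟨e, he, h2, h3⟩ | ⟨e, he, h2, h3⟩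
      · rw [h2, h3]; exact R.a e he h1
      · rw [h2, h3]; exact R.t e he h1
  have ofR : ∀ n x k, R (m : ℚ) n x k → ∃ l : List G, (∀ s ∈ l, s ∈ S) ∧ l.length ≤ n ∧
      X l.prod = x ∧ K l.prod = k := by
    intro n x k H
    have ext : ∀ (l : List G) (s : G), (∀ u ∈ l, u ∈ S) → s ∈ S → ∀ u ∈ l ++ [s], u ∈ S := by
      intro l s h1 h2 u hu
      rcases List.mem_append.mp hu with h | h
      · exact h1 u h
      · rw [List.mem_singleton.mp h]; exact h2
    induction H with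
    | zero => exact ⟨[], by simp, by simp, by simpa using X1, by simpa using K1⟩
    | slack _ ih =>
      obtain ⟨l, h1, h2, h3⟩ := ih
      exact ⟨l, h1, by omega, h3⟩
    | a e he _ ih =>
      obtain ⟨l, h1, h2, h3, h4⟩ := ih
      rcases he with rfl | rfl
      · exact ⟨l ++ [a], ext l a h1 (by simp [hS]), by simpa using h2,
          by simp [Xa, h3, h4], by simp [Ka, h4]⟩
      · exact ⟨l ++ [a⁻¹], ext l _ h1 (by simp [hS]), by simpa using h2,
          by simp [Xa', h3, h4], by simp [Ka', h4]⟩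
    | t e he _ ih =>
      obtain ⟨l, h1, h2, h3, h4⟩ := ih
      rcases he with rfl | rfl
      · exact ⟨l ++ [t], ext l t h1 (by simp [hS]), by simpa using h2,
          by simp [Xt, h3], by simp [Kt, h4]⟩
      · exact ⟨l ++ [t⁻¹], ext l _ h1 (by simp [hS]), by simpa using h2,
          by simp [Xt', h3], by simp [Kt', h4]⟩
  have hle : ∀ n g, R (m : ℚ) n (X g) (K g) → wlen S g ≤ n := by
    intro n g H
    obtain ⟨l, h1, h2, h3, h4⟩ := ofR _ _ _ H
    have h5 : wlen S g ≤ l.length := Nat.sInf_le ⟨l, h1, rfl, inj _ _ h3 h4⟩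
    exact h5.trans h2
  obtain ⟨T, x0, M, hfin, hx0, hM1, hM2, hb1, hb2⟩ := model hm (D + 1)
  obtain ⟨l0, h1, h2, h3, h4⟩ := ofR _ _ _ hM1
  have hM : M ≤ wlen S l0.prod := by
    obtain ⟨l, k1, k2, k3⟩ : wlen S l0.prod ∈
        {n | ∃ l : List G, (∀ s ∈ l, s ∈ S) ∧ l.length = n ∧ l.prod = l0.prod} :=
      Nat.sInf_mem ⟨_, l0, h1, rfl, rfl⟩
    have := toR l k1
    rw [k2, k3, h3, h4] at this
    exact hM2 _ this
  refine ⟨l0.prod, fun d hd => ?_⟩
  have hF : {g : G | X g ∈ T ∧ |K g| < ((D + 1 : ℕ) : ℤ)}.Finite := by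
    apply Set.Finite.of_finite_image (f := fun g => (X g, K g))
    · refine (hfin.prod (Set.finite_Ioo (-((D + 1 : ℕ) : ℤ)) ((D + 1 : ℕ) : ℤ))).subset ?_
      rintro _ ⟨g, ⟨k1, k2⟩, rfl⟩
      exact ⟨k1, abs_lt.mp k2⟩
    · intro g _ h _ e
      exact inj g h (congrArg Prod.fst e) (congrArg Prod.snd e)
  refine hF.subset ?_
  intro h hh
  induction hh with
  | refl => exact ⟨h3 ▸ hx0, by rw [h4]; simp⟩
  | @tail u v _ huv ih =>
    obtain ⟨-, k2, s, hs, rfl⟩ := huv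
    obtain ⟨i1, i2⟩ := ih
    rcases step u s hs with ⟨e, he, k3, k4⟩ | ⟨e, he, k3, k4⟩
    · refine ⟨?_, by rw [k4]; exact i2⟩
      by_contra hc
      rw [k3] at hc
      obtain ⟨n, n1, n2⟩ := hb2 _ i1 _ i2 e he hc
      have := hle n (u * s) (by rw [k3, k4]; exact n2)
      omega
    · refine ⟨by rw [k3]; exact i1, ?_⟩
      by_contra hc
      have hk : |K (u * s)| = ((D + 1 : ℕ) : ℤ) := by
        rw [k4] at hc ⊢
        rcases abs_cases (K u) with ⟨c1, c2⟩ | ⟨c1, c2⟩ <;>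
          rcases abs_cases (K u + e) with ⟨c3, c4⟩ | ⟨c3, c4⟩ <;> omega
      obtain ⟨n, n1, n2⟩ := hb1 _ i1 _ hk
      have := hle n (u * s) (by rw [k3]; exact n2)
      omega

end Pool.Agent.H48.Retreat
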