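import Mathlib

set_option autoImplicit false

namespace Pool.Agent.H48.RevA

open Module

/-- A multiplicative map of the complex numbers onto roots of unity fixing -1. -/
lemma exists_rho : ∃ ρ : ℂ → ℂ, (∀ z w, ρ (z * w) = ρ z * ρ w) ∧ ρ 1 = 1 ∧ ρ (-1) = -1 ∧
    ∀ z, z ≠ 0 → ∃ N : ℕ, 0 < N ∧ ρ z ^ N = 1 := by
  classical
  have h0 : (2 * Real.pi * Complex.I : ℂ) ≠ 0 := Complex.two_pi_I_ne_zero
  obtain ⟨ψ, hψ⟩ : ∃ ψ : Module.Dual ℚ ℂ, ψ (2 * Real.pi * Complex.I) ≠ 0 := by
    by_contra h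
    push Not at h
    exact h0 ((Module.forall_dual_apply_eq_zero_iff ℚ _).mp h)
  let φ : Module.Dual ℚ ℂ := (ψ (2 * Real.pi * Complex.I))⁻¹ • ψ
  have hφ : φ (2 * Real.pi * Complex.I) = 1 := by
    simp only [φ, LinearMap.smul_apply, smul_eq_mul]
    exact inv_mul_cancel₀ hψ
  refine ⟨fun z => if z = 0 then 0 else
    Complex.exp ((φ (Complex.log z) : ℂ) * (2 * Real.pi * Complex.I)), ?_, ?_, ?_, ?_⟩
  · intro z w
    by_cases hz : z = 0
    · simp [hz]
    by_cases hw : w = 0
    · simp [hw]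
    simp only [hz, hw, mul_ne_zero hz hw, if_false]
    have h1 : Complex.exp (Complex.log (z * w)) = Complex.exp (Complex.log z + Complex.log w) := by
      rw [Complex.exp_add, Complex.exp_log hz, Complex.exp_log hw,
        Complex.exp_log (mul_ne_zero hz hw)]
    obtain ⟨n, hn⟩ := Complex.exp_eq_exp_iff_exists_int.mp h1
    rw [← Complex.exp_add, Complex.exp_eq_exp_iff_exists_int]
    refine ⟨n, ?_⟩
    rw [hn, map_add, map_add, ← zsmul_eq_mul, map_zsmul, hφ]
    simp
    ring
  · simp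
  · have h1 : Complex.log (-1) = (1 / 2 : ℚ) • (2 * Real.pi * Complex.I : ℂ) := by
      rw [Complex.log_neg_one, Rat.smul_def]; push_cast; ring
    simp only [neg_eq_zero, one_ne_zero, if_false]
    rw [h1, map_smul, hφ]
    rw [← Complex.exp_pi_mul_I]
    congr 1
    simp
    ring
  · intro z hz
    refine ⟨(φ (Complex.log z)).den, (φ (Complex.log z)).pos, ?_⟩
    simp only [hz, if_false]
    rw [← Complex.exp_nat_mul, ← mul_assoc]
    have : ((φ (Complex.log z)).den : ℂ) * (φ (Complex.log z) : ℂ) = ((φ (Complex.log z)).num : ℂ) := by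
      exact_mod_cast Rat.den_mul_eq_num _
    rw [this]
    exact Complex.exp_int_mul_two_pi_mul_I _

section Lin
variable {V W : Type*} [AddCommGroup V] [Module ℂ V] [AddCommGroup W] [Module ℂ W]

lemma exists_fc [FiniteDimensional ℂ V] (B : End ℂ V) (ρ : ℂ → ℂ) :
    ∃ C : End ℂ V, ∀ l x, x ∈ B.maxGenEigenspace l → C x = ρ l • x := by
  classical
  have h := DirectSum.isInternal_submodule_of_iSupIndep_of_iSup_eq_top
    B.independent_maxGenEigenspace B.iSup_maxGenEigenspace_eq_top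
  let e := LinearEquiv.ofBijective (DirectSum.coeLinearMap B.maxGenEigenspace) h
  refine ⟨(DirectSum.toModule ℂ ℂ V (fun l => ρ l • (B.maxGenEigenspace l).subtype)) ∘ₗ
    e.symm.toLinearMap, ?_⟩
  intro l x hx
  have : e.symm x = DirectSum.lof ℂ ℂ (fun l => B.maxGenEigenspace l) l ⟨x, hx⟩ := by
    rw [LinearEquiv.symm_apply_eq]
    exact (DirectSum.coeLinearMap_of B.maxGenEigenspace l ⟨x, hx⟩).symm
  simp [this]

lemma gen_ind [FiniteDimensional ℂ V] (B : End ℂ V) (P : V → Prop)
    (h : ∀ l x, x ∈ B.maxGenEigenspace l → P x) (h0 : P 0) (ha : ∀ x y, P x → P y → P (x + y))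
    (x : V) : P x := by
  have hx : x ∈ ⨆ l, B.maxGenEigenspace l := by
    rw [B.iSup_maxGenEigenspace_eq_top]; trivial
  exact Submodule.iSup_induction (motive := P) _ hx h h0 ha

lemma nat_mem (B : End ℂ V) (B' : End ℂ W) (S : V →ₗ[ℂ] W) (ε : ℂ)
    (h : ∀ x, B' (S x) = ε • S (B x)) (l : ℂ) (x : V) (hx : x ∈ B.maxGenEigenspace l) :
    S x ∈ B'.maxGenEigenspace (ε * l) := by
  rw [End.mem_maxGenEigenspace] at hx ⊢
  obtain ⟨n, hn⟩ := hx
  refine ⟨n, ?_⟩
  have key : ∀ (n : ℕ) (x : V), ((B' - (ε * l) • (1 : End ℂ W)) ^ n) (S x) =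
      ε ^ n • S (((B - l • (1 : End ℂ V)) ^ n) x) := by
    intro n
    induction n with
    | zero => simp
    | succ n ih =>
      intro x
      have e : (B' - (ε * l) • (1 : End ℂ W)) (S x) = ε • S ((B - l • (1 : End ℂ V)) x) := by
        simp [h, smul_sub, mul_smul]
      rw [pow_succ, pow_succ (B - l • (1 : End ℂ V)), End.mul_apply, End.mul_apply, e, map_smul,
        ih, smul_smul, pow_succ']
  rw [key, hn]
  simp

lemma nat_fc [FiniteDimensional ℂ V] (B C : End ℂ V) (B' C' : End ℂ W) (ρ : ℂ → ℂ)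
    (hρ : ∀ z w, ρ (z * w) = ρ z * ρ w)
    (hC : ∀ l x, x ∈ B.maxGenEigenspace l → C x = ρ l • x)
    (hC' : ∀ l x, x ∈ B'.maxGenEigenspace l → C' x = ρ l • x)
    (S : V →ₗ[ℂ] W) (ε : ℂ) (h : ∀ x, B' (S x) = ε • S (B x)) (x : V) :
    C' (S x) = ρ ε • S (C x) := by
  induction x using gen_ind B with
  | h l x hx => rw [hC' _ _ (nat_mem B B' S ε h l x hx), hC _ _ hx, hρ, map_smul, mul_smul]
  | h0 => simp
  | ha x y hx hy => simp only [map_add, hx, hy, smul_add]

lemma zero_of_inj (B : End ℂ V) (hB : Function.Injective B) (x : V)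
    (hx : x ∈ B.maxGenEigenspace 0) : x = 0 := by
  rw [End.mem_maxGenEigenspace] at hx
  obtain ⟨n, hn⟩ := hx
  simp only [zero_smul, sub_zero] at hn
  have : Function.Injective (B ^ n : End ℂ V) := by
    rw [End.coe_pow]; exact hB.iterate n
  exact this (by rw [hn, map_zero])

lemma fc_pow (B C : End ℂ V) (ρ : ℂ → ℂ)
    (hC : ∀ l x, x ∈ B.maxGenEigenspace l → C x = ρ l • x) (l : ℂ) (x : V)
    (hx : x ∈ B.maxGenEigenspace l) (n : ℕ) : (C ^ n) x = ρ l ^ n • x := by
  induction n with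
  | zero => simp
  | succ n ih => rw [pow_succ', End.mul_apply, ih, map_smul, hC l x hx, smul_smul, pow_succ]

lemma fc_order [FiniteDimensional ℂ V] (B C : End ℂ V) (hB : Function.Injective B) (ρ : ℂ → ℂ)
    (hρ : ∀ z, z ≠ 0 → ∃ N : ℕ, 0 < N ∧ ρ z ^ N = 1)
    (hC : ∀ l x, x ∈ B.maxGenEigenspace l → C x = ρ l • x) :
    ∃ N : ℕ, 0 < N ∧ ∀ x, (C ^ N) x = x := by
  classical
  have hfin := WellFoundedGT.finite_ne_bot_of_iSupIndep B.independent_maxGenEigenspace
  have hρ' : ∀ z, ∃ N : ℕ, 0 < N ∧ (z ≠ 0 → ρ z ^ N = 1) := by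
    intro z
    by_cases hz : z = 0
    · exact ⟨1, one_pos, fun h => (h hz).elim⟩
    · obtain ⟨N, h1, h2⟩ := hρ z hz
      exact ⟨N, h1, fun _ => h2⟩
  choose N hN hN' using hρ'
  refine ⟨∏ z ∈ hfin.toFinset, N z, Finset.prod_pos (fun z _ => hN z), ?_⟩
  intro x
  induction x using gen_ind B with
  | h l x hx =>
    by_cases hx0 : x = 0
    · simp [hx0]
    have hl : l ≠ 0 := by
      rintro rfl
      exact hx0 (zero_of_inj B hB x hx)
    have hmem : l ∈ hfin.toFinset := by
      simp only [Set.Finite.mem_toFinset, Set.mem_ofPred_eq]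
      intro h
      rw [h] at hx
      exact hx0 hx
    obtain ⟨c, hc⟩ := Finset.dvd_prod_of_mem N hmem
    rw [fc_pow B C ρ hC l x hx, hc, pow_mul, hN' l hl]
    simp
  | h0 => simp
  | ha x y hx hy => simp only [map_add, hx, hy]

lemma fc_unip [FiniteDimensional ℂ V] (B C : End ℂ V) (ρ : ℂ → ℂ)
    (hC : ∀ l x, x ∈ B.maxGenEigenspace l → C x = ρ l • x) (N k : ℕ)
    (h : ∀ x, ((C ^ N - 1) ^ k) x = 0) (x : V) : (C ^ N) x = x := by
  induction x using gen_ind B with
  | h l x hx =>
    have key : ∀ j : ℕ, ((C ^ N - 1) ^ j) x = (ρ l ^ N - 1) ^ j • x := by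
      intro j
      induction j with
      | zero => simp
      | succ j ih =>
        rw [pow_succ', End.mul_apply, ih, map_smul, LinearMap.sub_apply, fc_pow B C ρ hC l x hx,
          pow_succ, mul_smul, sub_smul]
        simp
    have h1 := h x
    rw [key] at h1
    rcases smul_eq_zero.mp h1 with h2 | h2
    · rw [fc_pow B C ρ hC l x hx, sub_eq_zero.mp (pow_eq_zero_iff' .. |>.mp h2).1, one_smul]
    · simp [h2]
  | h0 => simp
  | ha x y hx hy => simp only [map_add, hx, hy]

end Lin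

section Alg
variable {V : Type*} [CommRing V] [Algebra ℂ V]

lemma mul_mem (B : V →ₐ[ℂ] V) (l m : ℂ) (x y : V)
    (hx : x ∈ End.maxGenEigenspace B.toLinearMap l) (hy : y ∈ End.maxGenEigenspace B.toLinearMap m) :
    x * y ∈ End.maxGenEigenspace B.toLinearMap (l * m) := by
  rw [End.mem_maxGenEigenspace] at hx hy ⊢
  obtain ⟨a, ha⟩ := hx
  obtain ⟨b, hb⟩ := hy
  refine ⟨a + b, ?_⟩
  have key : ∀ (n a b : ℕ) (x y : V), a + b = n →
      (((B.toLinearMap : End ℂ V) - l • (1 : End ℂ V)) ^ a) x = 0 →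
      (((B.toLinearMap : End ℂ V) - m • (1 : End ℂ V)) ^ b) y = 0 →
      (((B.toLinearMap : End ℂ V) - (l * m) • (1 : End ℂ V)) ^ n) (x * y) = 0 := by
    intro n
    induction n with
    | zero =>
      intro a b x y hab hx _
      have : a = 0 := by omega
      subst this
      simp only [pow_zero, End.one_apply] at hx ⊢
      simp [hx]
    | succ n ih =>
      intro a b x y hab hx hy
      rcases a with _ | a
      · simp only [pow_zero, End.one_apply] at hx
        simp [hx]
      rcases b with _ | b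
      · simp only [pow_zero, End.one_apply] at hy
        simp [hy]
      have e : ((B.toLinearMap : End ℂ V) - (l * m) • (1 : End ℂ V)) (x * y) =
          (((B.toLinearMap : End ℂ V) - l • (1 : End ℂ V)) x) * B y +
          l • (x * (((B.toLinearMap : End ℂ V) - m • (1 : End ℂ V)) y)) := by
        simp only [LinearMap.sub_apply, AlgHom.toLinearMap_apply, map_mul, LinearMap.smul_apply,
          End.one_apply]
        simp only [Algebra.smul_def, map_mul]
        ring
      rw [pow_succ, End.mul_apply, e, map_add, map_smul]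
      rw [ih a (b + 1) _ _ (by omega) (by rwa [pow_succ, End.mul_apply] at hx) ?_,
        ih (a + 1) b _ _ (by omega) hx (by rwa [pow_succ, End.mul_apply] at hy)]
      · simp
      · have hc : Commute (((B.toLinearMap : End ℂ V) - m • (1 : End ℂ V)) ^ (b + 1))
            (B.toLinearMap : End ℂ V) :=
          Commute.pow_left ((Commute.refl _).sub_left ((Commute.one_left _).smul_left m)) _
        have := congrArg (fun T : End ℂ V => T y) hc.eq
        simp only [End.mul_apply, hy, map_zero, AlgHom.toLinearMap_apply] at this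
        exact this
  exact key _ a b x y rfl ha hb

lemma exists_fc_alg [FiniteDimensional ℂ V] (B : V →ₐ[ℂ] V) (ρ : ℂ → ℂ)
    (hρ : ∀ z w, ρ (z * w) = ρ z * ρ w) (h1 : ρ 1 = 1) :
    ∃ C : V →ₐ[ℂ] V, ∀ l x, x ∈ End.maxGenEigenspace B.toLinearMap l →
      C.toLinearMap x = ρ l • x := by
  obtain ⟨C, hC⟩ := exists_fc (B.toLinearMap : End ℂ V) ρ
  refine ⟨AlgHom.ofLinearMap C ?_ ?_, hC⟩
  · rw [hC 1 1, h1, one_smul]
    rw [End.mem_maxGenEigenspace]
    exact ⟨1, by simp⟩
  · intro x y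
    induction x using gen_ind (B.toLinearMap : End ℂ V) with
    | h l x hx =>
      induction y using gen_ind (B.toLinearMap : End ℂ V) with
      | h m y hy =>
        rw [hC _ _ (mul_mem B l m x y hx hy), hC _ _ hx, hC _ _ hy, hρ, smul_mul_smul_comm]
      | h0 => simp
      | ha y z hy hz => simp only [mul_add, map_add, hy, hz]
    | h0 => simp
    | ha x z hx hz => simp only [add_mul, map_add, hx, hz]

end Alg

end Pool.Agent.H48.RevA
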