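import Mathlib
import Pool.Agent.H48.RevA

set_option autoImplicit false

namespace Pool.Agent.H48.RevB

open Module Pool.Agent.H48.RevA

section Abs
variable {R : Type*} [CommRing R] [Algebra ℂ R] (m : Ideal R)

lemma pow_map (A : R →ₐ[ℂ] R) (hA : ∀ x ∈ m, A x ∈ m) (k : ℕ) : m ^ k ≤ (m ^ k).comap A := by
  induction k with
  | zero => simp
  | succ k ih =>
    intro x hx
    rw [pow_succ] at hx
    rw [Ideal.mem_comap]
    refine Submodule.mul_induction_on hx ?_ ?_
    · intro a ha b hb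
      rw [map_mul, pow_succ]
      exact Ideal.mul_mem_mul (ih ha) (hA b hb)
    · intro a b ha hb
      rw [map_add]
      exact add_mem ha hb

lemma unip (D : R →ₐ[ℂ] R) (hD : ∀ x, D x - x ∈ m ^ 2) (k : ℕ) (x : R) (hx : x ∈ m ^ k) :
    D x - x ∈ m ^ (k + 1) := by
  have h1 : ∀ x ∈ m, D x ∈ m := by
    intro x hx
    have := Ideal.pow_le_self (two_ne_zero) (hD x)
    simpa using add_mem this hx
  induction k generalizing x with
  | zero => simpa using Ideal.pow_le_self (two_ne_zero) (hD x)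
  | succ k ih =>
    rw [pow_succ] at hx
    refine Submodule.mul_induction_on hx ?_ ?_
    · intro a ha b hb
      have e : D (a * b) - a * b = (D a - a) * D b + a * (D b - b) := by rw [map_mul]; ring
      rw [e]
      apply add_mem
      · rw [pow_succ]
        exact Ideal.mul_mem_mul (ih a ha) (h1 b hb)
      · rw [show k + 1 + 1 = k + 2 by ring, pow_add]
        exact Ideal.mul_mem_mul ha (hD b)
    · intro a b ha hb
      have e : D (a + b) - (a + b) = (D a - a) + (D b - b) := by rw [map_add]; ring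
      rw [e]
      exact add_mem ha hb

noncomputable def qm (A : R →ₐ[ℂ] R) (hA : ∀ x ∈ m, A x ∈ m) (k : ℕ) :
    (R ⧸ m ^ k) →ₐ[ℂ] (R ⧸ m ^ k) := Ideal.quotientMapₐ _ A (pow_map m A hA k)

lemma qm_mk (A : R →ₐ[ℂ] R) (hA : ∀ x ∈ m, A x ∈ m) (k : ℕ) (x : R) :
    qm m A hA k (Ideal.Quotient.mk _ x) = Ideal.Quotient.mk _ (A x) := rfl

omit [Algebra ℂ R] in
lemma haus [IsAdicComplete m R] (x y : R)
    (h : ∀ k, Ideal.Quotient.mk (m ^ k) x = Ideal.Quotient.mk (m ^ k) y) : x = y := by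
  rw [IsHausdorff.eq_iff_smodEq (I := m)]
  intro k
  rw [SModEq.sub_mem, smul_eq_mul, Ideal.mul_top]
  exact Ideal.Quotient.eq.mp (h k)

theorem abstract [IsAdicComplete m R] (hfin : ∀ k, Module.Finite ℂ (R ⧸ m ^ k))
    (A A' B B' : R →ₐ[ℂ] R) (hA : ∀ x ∈ m, A x ∈ m) (hA' : ∀ x ∈ m, A' x ∈ m)
    (hB : ∀ x ∈ m, B x ∈ m) (hB' : ∀ x ∈ m, B' x ∈ m)
    (h1 : ∀ x, A (A' x) = x) (h2 : ∀ x, A' (A x) = x) (h3 : ∀ x, B' (B x) = x)
    (h : ∀ x, A (B (A x)) = B x) :
    ∃ C : R →ₐ[ℂ] R, (∀ x ∈ m, C x ∈ m) ∧ (∃ N : ℕ, 0 < N ∧ ∀ x, (C ^ N) x = x) ∧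
      ∀ x, A (C (A x)) = C x := by
  obtain ⟨ρ, hρ, hρ1, hρn, hρo⟩ := exists_rho
  choose Ck hCk using fun k => exists_fc_alg (qm m B hB k) ρ hρ hρ1
  have hcompat : ∀ {a b : ℕ} (hle : a ≤ b),
      (Ideal.Quotient.factorₐ ℂ (Ideal.pow_le_pow_right hle)).comp
        ((Ck b).comp (Ideal.Quotient.mkₐ ℂ (m ^ b))) =
        (Ck a).comp (Ideal.Quotient.mkₐ ℂ (m ^ a)) := by
    intro a b hle
    ext x
    have := nat_fc _ _ _ _ ρ hρ (hCk b) (hCk a)
      (Ideal.Quotient.factorₐ ℂ (Ideal.pow_le_pow_right hle)).toLinearMap 1 (by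
        intro y
        obtain ⟨y, rfl⟩ := Ideal.Quotient.mk_surjective y
        rw [one_smul]
        rfl) (Ideal.Quotient.mk _ x)
    rw [hρ1, one_smul] at this
    exact this.symm
  let C : R →ₐ[ℂ] R := IsAdicComplete.liftAlgHom m
    (fun k => (Ck k).comp (Ideal.Quotient.mkₐ ℂ (m ^ k))) hcompat
  have hC : ∀ k x, Ideal.Quotient.mk (m ^ k) (C x) = Ck k (Ideal.Quotient.mk _ x) :=
    fun k x => IsAdicComplete.mk_liftAlgHom m _ hcompat k x
  have hCp : ∀ k N x, Ideal.Quotient.mk (m ^ k) ((C ^ N) x) =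
      ((Ck k).toLinearMap ^ N : End ℂ (R ⧸ m ^ k)) (Ideal.Quotient.mk _ x) := by
    intro k N
    induction N with
    | zero => intro x; simp
    | succ N ih =>
      intro x
      rw [pow_succ', pow_succ', AlgHom.mul_apply, End.mul_apply, hC, ih]
      rfl
  refine ⟨C, ?_, ?_, ?_⟩
  · intro x hx
    rw [← pow_one m] at hx ⊢
    rw [← Ideal.Quotient.eq_zero_iff_mem] at hx ⊢
    rw [hC, hx, map_zero]
  · obtain ⟨N, hN, hN'⟩ := fc_order _ _ (by
      intro x y hxy
      obtain ⟨x, rfl⟩ := Ideal.Quotient.mk_surjective x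
      obtain ⟨y, rfl⟩ := Ideal.Quotient.mk_surjective y
      have := congrArg (qm m B' hB' 2) hxy
      simpa only [AlgHom.toLinearMap_apply, qm_mk, h3] using this) ρ hρo (hCk 2)
    refine ⟨N, hN, ?_⟩
    have hD : ∀ x, (C ^ N) x - x ∈ m ^ 2 := by
      intro x
      rw [← Ideal.Quotient.eq, hCp, hN']
    intro x
    apply haus m
    intro k
    rw [hCp]
    apply fc_unip _ _ ρ (hCk k) N k
    intro y
    obtain ⟨y, rfl⟩ := Ideal.Quotient.mk_surjective y
    have key : ∀ j : ℕ, ∃ z ∈ m ^ j,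
        ((((Ck k).toLinearMap ^ N : End ℂ (R ⧸ m ^ k)) - 1) ^ j) (Ideal.Quotient.mk _ y) =
          Ideal.Quotient.mk _ z := by
      intro j
      induction j with
      | zero => exact ⟨y, by simp, by simp⟩
      | succ j ih =>
        obtain ⟨z, hz, hz'⟩ := ih
        refine ⟨(C ^ N) z - z, unip m _ hD j z hz, ?_⟩
        rw [pow_succ', End.mul_apply, hz', LinearMap.sub_apply, map_sub, hCp]
        rfl
    obtain ⟨z, hz, hz'⟩ := key k
    rw [hz', Ideal.Quotient.eq_zero_iff_mem]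
    exact hz
  · intro x
    apply haus m
    intro k
    have e1 : ∀ y, B (A y) = A' (B y) := by
      intro y
      rw [← h y, h2]
    have e2 : ∀ y, B (A' y) = A (B y) := by
      intro y
      rw [← h (A' y), h1]
    have p := nat_fc _ _ _ _ ρ hρ (hCk k) (hCk k)
      ((qm m A hA k).toLinearMap + (qm m A' hA' k).toLinearMap) 1 (by
        intro y
        obtain ⟨y, rfl⟩ := Ideal.Quotient.mk_surjective y
        simp only [LinearMap.add_apply, AlgHom.toLinearMap_apply, map_add, qm_mk, e1, e2, one_smul]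
        ring) (Ideal.Quotient.mk _ x)
    have q := nat_fc _ _ _ _ ρ hρ (hCk k) (hCk k)
      ((qm m A hA k).toLinearMap - (qm m A' hA' k).toLinearMap) (-1) (by
        intro y
        obtain ⟨y, rfl⟩ := Ideal.Quotient.mk_surjective y
        simp only [LinearMap.sub_apply, AlgHom.toLinearMap_apply, map_sub, qm_mk, e1, e2,
          neg_smul, one_smul]
        ring) (Ideal.Quotient.mk _ x)
    simp only [LinearMap.add_apply, LinearMap.sub_apply, AlgHom.toLinearMap_apply, map_add,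
      map_sub, qm_mk, hρ1, hρn, neg_smul, one_smul, ← hC] at p q
    have r : (2 : ℂ) • Ideal.Quotient.mk (m ^ k) (C (A x)) =
        (2 : ℂ) • Ideal.Quotient.mk (m ^ k) (A' (C x)) := by
      rw [two_smul, two_smul]
      linear_combination p + q
    have r2 := smul_right_injective _ (two_ne_zero (α := ℂ)) r
    have r3 := congrArg (qm m A hA k) r2
    simpa only [qm_mk, h1] using r3

end Abs

section PS
open MvPowerSeries
variable {n : ℕ}

abbrev R (n : ℕ) : Type := MvPowerSeries (Fin n) ℂ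

noncomputable abbrev mm (n : ℕ) : Ideal (R n) := Ideal.span (Set.range (X : Fin n → R n))

lemma mem_pow (k : ℕ) (f : R n) (hf : ∀ d : Fin n →₀ ℕ, d.degree < k → coeff d f = 0) :
    f ∈ mm n ^ k := by
  classical
  induction k generalizing f with
  | zero => simp
  | succ k ih =>
    have hch : ∀ d : Fin n →₀ ℕ, d ≠ 0 → ∃ i, d i ≠ 0 := by
      intro d hd
      by_contra hc
      push Not at hc
      exact hd (Finsupp.ext hc)
    choose ι hι using hch
    let g : Fin n → R n := fun i d => if h : d ≠ 0 then (if ι d h = i then coeff d f else 0) else 0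
    have hg : ∀ i d, coeff d (g i) =
      if h : d ≠ 0 then (if ι d h = i then coeff d f else 0) else 0 := fun _ _ => rfl
    have hsum : f = ∑ i, g i := by
      ext d
      rw [map_sum]
      simp only [hg]
      by_cases hd : d = 0
      · subst hd
        rw [hf 0 (by simp)]
        simp
      · simp [hd]
    rw [hsum]
    apply Ideal.sum_mem
    intro i _
    have hdvd : (X i : R n) ∣ g i := by
      rw [X_dvd_iff]
      intro d hd
      rw [hg]
      split_ifs with h1 h2
      · exact absurd hd (h2 ▸ hι d h1)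
      · rfl
      · rfl
    obtain ⟨q, hq⟩ := hdvd
    rw [hq, pow_succ']
    apply Ideal.mul_mem_mul (Ideal.subset_span (Set.mem_range_self i))
    apply ih
    intro d hd
    have h1 := coeff_add_monomial_mul (Finsupp.single i 1) d q (1 : ℂ)
    rw [one_mul] at h1
    rw [← h1, ← X_def, ← hq, hg]
    have h2 : coeff (Finsupp.single i 1 + d) f = 0 := by
      apply hf
      simp only [map_add, Finsupp.degree_single]
      omega
    rw [h2]
    simp

lemma mem_mm (f : R n) : f ∈ mm n ↔ constantCoeff f = 0 := by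
  constructor
  · intro hf
    have : mm n ≤ RingHom.ker (constantCoeff (σ := Fin n) (R := ℂ)) := by
      rw [Ideal.span_le]
      rintro _ ⟨i, rfl⟩
      simp
    exact this hf
  · intro hf
    rw [← pow_one (mm n)]
    apply mem_pow
    intro d hd
    have : d = 0 := by
      rw [← Finsupp.degree_eq_zero_iff]; omega
    rw [this]
    simpa using hf

lemma sub_trunc (k : ℕ) (f : R n) : f - (truncTotal k f : MvPolynomial (Fin n) ℂ) ∈ mm n ^ k := by
  apply mem_pow
  intro d hd
  simp [coeff_truncTotal _ hd]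

lemma fin_quot (k : ℕ) : Module.Finite ℂ (R n ⧸ mm n ^ k) := by
  apply Module.Finite.of_surjective
    ((Ideal.Quotient.mkₐ ℂ (mm n ^ k)).toLinearMap ∘ₗ
      (MvPolynomial.coeToMvPowerSeries.algHom ℂ).toLinearMap ∘ₗ
      (MvPolynomial.restrictTotalDegree (Fin n) ℂ k).subtype)
  intro y
  obtain ⟨y, rfl⟩ := Ideal.Quotient.mk_surjective y
  refine ⟨⟨truncTotal k y, ?_⟩, ?_⟩
  · rw [MvPolynomial.mem_restrictTotalDegree]
    by_cases hk : k = 0
    · subst hk
      have : truncTotal 0 y = 0 := by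
        ext d
        rw [coeff_truncTotal_eq_zero _ (Nat.zero_le _)]
        simp
      simp [this]
    · exact (totalDegree_truncTotal_lt _ hk).le
  · symm
    simp only [LinearMap.comp_apply, Submodule.subtype_apply, AlgHom.toLinearMap_apply,
      Ideal.Quotient.mkₐ_eq_mk]
    rw [Ideal.Quotient.eq]
    simpa using sub_trunc k y

lemma hom_ext (φ ψ : R n →ₐ[ℂ] R n) (hφ : ∀ x ∈ mm n, φ x ∈ mm n) (hψ : ∀ x ∈ mm n, ψ x ∈ mm n)
    (h : ∀ i, φ (X i) = ψ (X i)) (f : R n) : φ f = ψ f := by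
  have hp : ∀ p : MvPolynomial (Fin n) ℂ, φ p = ψ p := by
    have : φ.comp (MvPolynomial.coeToMvPowerSeries.algHom ℂ) =
        ψ.comp (MvPolynomial.coeToMvPowerSeries.algHom ℂ) := by
      apply MvPolynomial.algHom_ext
      intro i
      simpa using h i
    intro p
    simpa using DFunLike.congr_fun this p
  apply haus (mm n)
  intro k
  rw [Ideal.Quotient.eq]
  have e : φ f - ψ f = φ (f - (truncTotal k f : MvPolynomial (Fin n) ℂ)) -
      ψ (f - (truncTotal k f : MvPolynomial (Fin n) ℂ)) := by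
    rw [map_sub, map_sub, hp]; ring
  rw [e]
  exact sub_mem (pow_map _ φ hφ k (sub_trunc k f)) (pow_map _ ψ hψ k (sub_trunc k f))

lemma hs (F : Fin n → R n) (hF : ∀ i, F i 0 = 0) : HasSubst F :=
  hasSubst_of_constantCoeff_zero hF

noncomputable def T (F : Fin n → R n) (hF : ∀ i, F i 0 = 0) : R n →ₐ[ℂ] R n :=
  substAlgHom (hs F hF)

lemma T_apply (F : Fin n → R n) (hF : ∀ i, F i 0 = 0) (f : R n) : T F hF f = subst F f :=
  substAlgHom_apply _ _

lemma T_X (F : Fin n → R n) (hF : ∀ i, F i 0 = 0) (i : Fin n) : T F hF (X i) = F i := by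
  rw [T_apply, subst_X (hs F hF)]

lemma T_mem (F : Fin n → R n) (hF : ∀ i, F i 0 = 0) : ∀ x ∈ mm n, T F hF x ∈ mm n := by
  have : mm n ≤ (mm n).comap (T F hF) := by
    rw [Ideal.span_le]
    rintro _ ⟨i, rfl⟩
    rw [SetLike.mem_coe, Ideal.mem_comap, T_X, mem_mm]
    exact hF i
  exact fun x hx => this hx

lemma X_mem (i : Fin n) : (X i : R n) ∈ mm n := Ideal.subset_span ⟨i, rfl⟩

lemma subst_eq (φ : R n →ₐ[ℂ] R n) (hφ : ∀ x ∈ mm n, φ x ∈ mm n) (f : R n) :
    subst (fun i => φ (X i)) f = φ f := by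
  have h0 : ∀ i, φ (X i) 0 = 0 := fun i => (mem_mm _).mp (hφ _ (X_mem i))
  rw [← T_apply _ h0]
  exact hom_ext _ _ (T_mem _ h0) hφ (fun i => T_X _ h0 i) f

end PS

end Pool.Agent.H48.RevB
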