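import Mathlib

set_option autoImplicit false

namespace H48.Sgn

open PowerSeries Finset Filter Topology
open scoped PowerSeries.WithPiTopology

lemma hsc {f g : ℕ → ℂ} {a b : ℂ} (h : HasSum f a) (e : ∀ n, g n = f n) (e2 : b = a) :
    HasSum g b := by
  rw [e2, show g = f from funext e]; exact h

def Rep (F : ℂ⟦X⟧) (x v : ℂ) (B : ℝ) : Prop :=
  Summable (fun n => ‖coeff n F * x ^ n‖) ∧ ∑' n, coeff n F * x ^ n = v ∧
    ∑' n, ‖coeff n F * x ^ n‖ ≤ B

lemma Rep.mul {F G : ℂ⟦X⟧} {x v w : ℂ} {B C : ℝ} (h1 : Rep F x v B) (h2 : Rep G x w C) :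
    Rep (F * G) x (v * w) (B * C) := by
  have e : ∀ n, coeff n (F * G) * x ^ n =
      ∑ kl ∈ antidiagonal n, (coeff kl.1 F * x ^ kl.1) * (coeff kl.2 G * x ^ kl.2) := by
    intro n
    rw [coeff_mul, sum_mul]
    refine sum_congr rfl fun kl h => ?_
    rw [← mem_antidiagonal.1 h]; ring
  have s1 := summable_norm_sum_mul_antidiagonal_of_summable_norm h1.1 h2.1
  refine ⟨by simpa only [e] using s1, ?_, ?_⟩
  · simp only [e]
    rw [← tsum_mul_tsum_eq_tsum_sum_antidiagonal_of_summable_norm h1.1 h2.1, h1.2.1, h2.2.1]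
  · have n1 : Summable fun n => ‖‖coeff n F * x ^ n‖‖ := by simpa only [norm_norm] using h1.1
    have n2 : Summable fun n => ‖‖coeff n G * x ^ n‖‖ := by simpa only [norm_norm] using h2.1
    have s2 := (summable_norm_sum_mul_antidiagonal_of_summable_norm n1 n2).of_norm
    have t := tsum_mul_tsum_eq_tsum_sum_antidiagonal_of_summable_norm n1 n2
    simp only [e]
    refine le_trans (s1.tsum_le_tsum (fun n => ?_) s2) (t ▸ ?_)
    · exact (norm_sum_le _ _).trans (sum_le_sum fun _ _ => norm_mul_le _ _)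
    · exact mul_le_mul h1.2.2 h2.2.2 (tsum_nonneg fun _ => norm_nonneg _)
        (le_trans (tsum_nonneg fun _ => norm_nonneg _) h1.2.2)

noncomputable def chi (i c : ℕ) : ℂ := if i % 3 = 1 then (-1) ^ c else 0

noncomputable def phi (i : ℕ) : ℂ⟦X⟧ := 1 + ∑' j, chi (i + 1) (j + 1) • X ^ ((i + 1) * (j + 1))

lemma coeff_phi (i n : ℕ) : coeff n (phi i) = (if n = 0 then 1 else 0) +
    ∑' j, if n = (i + 1) * (j + 1) then chi (i + 1) (j + 1) else 0 := by
  unfold phi
  rw [map_add, coeff_one]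
  congr 1
  have := (Nat.Partition.summable_genFun_term chi i).hasSum.map (coeff (R := ℂ) n).toAddMonoidHom
    (WithPiTopology.continuous_coeff ℂ n)
  refine this.tsum_eq.symm.trans (tsum_congr fun j => ?_)
  simp [coeff_X_pow]

lemma rep_phi (m : ℕ) (x : ℂ) (hx : ‖x‖ < 1) :
    Rep (phi (3 * m)) x (1 + x ^ (3 * m + 1))⁻¹ (1 - ‖x‖ ^ (3 * m + 1))⁻¹ := by
  obtain ⟨a, ha⟩ : ∃ a, a = 3 * m + 1 := ⟨_, rfl⟩
  have ha0 : 0 < a := by omega
  have hinj : Function.Injective fun j => a * j := fun i j h => Nat.eq_of_mul_eq_mul_left ha0 h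
  have c1 : ∀ j, coeff (a * j) (phi (3 * m)) = (-1) ^ j := by
    intro j
    rw [coeff_phi, ← ha]
    rcases j with _ | j
    · simp [ha0.ne']
    · rw [tsum_eq_single j (fun b hb => if_neg fun h => hb (by have := hinj h; omega))]
      simp [ha0.ne', chi, show a % 3 = 1 by omega]
  have c2 : ∀ n ∉ Set.range (fun j => a * j), coeff n (phi (3 * m)) = 0 := by
    intro n hn
    rw [coeff_phi, ← ha, if_neg (fun h => hn ⟨0, by simp [h]⟩), zero_add]
    rw [tsum_congr (g := fun _ => 0) fun j => if_neg fun h => hn ⟨j + 1, h.symm⟩, tsum_zero]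
  have hxa : ‖x ^ a‖ < 1 := by rw [norm_pow]; exact pow_lt_one₀ (norm_nonneg _) hx ha0.ne'
  rw [← ha]
  have s1 : HasSum (fun n => ‖coeff n (phi (3 * m)) * x ^ n‖) (1 - ‖x‖ ^ a)⁻¹ := by
    rw [← hinj.hasSum_iff (fun n hn => by simp [c2 n hn])]
    have := hasSum_geometric_of_lt_one (norm_nonneg _) hxa
    rw [norm_pow] at this
    convert this using 1
    funext j
    simp [c1, pow_mul]
  have s2 : HasSum (fun n => coeff n (phi (3 * m)) * x ^ n) (1 + x ^ a)⁻¹ := by
    rw [← hinj.hasSum_iff (fun n hn => by simp [c2 n hn])]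
    have := hasSum_geometric_of_norm_lt_one (ξ := -x ^ a) (by rwa [norm_neg])
    rw [sub_neg_eq_add] at this
    refine hsc this (fun j => ?_) rfl
    simp only [Function.comp, c1, pow_mul]
    rw [neg_pow (x ^ a)]
  exact ⟨s1.summable, s2.tsum_eq, s1.tsum_eq.le⟩

lemma phi_one (i : ℕ) (h : (i + 1) % 3 ≠ 1) : phi i = 1 := by simp [phi, chi, h]

lemma rep_prod (x : ℂ) (hx : ‖x‖ < 1) (M : ℕ) :
    Rep (∏ i ∈ range (3 * M), phi i) x (∏ m ∈ range M, (1 + x ^ (3 * m + 1))⁻¹)
      (Real.exp (∑ m ∈ range M, ‖x‖ ^ m * (1 - ‖x‖)⁻¹)) := by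
  induction M with
  | zero =>
    have s1 := hasSum_single (f := fun n => ‖coeff n (1 : ℂ⟦X⟧) * x ^ n‖) 0
      (fun n hn => by simp [coeff_one, hn])
    have s2 := hasSum_single (f := fun n => coeff n (1 : ℂ⟦X⟧) * x ^ n) 0
      (fun n hn => by simp [coeff_one, hn])
    simp only [mul_zero, range_zero, prod_empty, sum_empty, Real.exp_zero]
    exact ⟨s1.summable, s2.tsum_eq.trans (by simp), s1.tsum_eq.le.trans (by simp)⟩
  | succ M ih =>
    rw [show 3 * (M + 1) = 3 * M + 1 + 1 + 1 by ring, prod_range_succ, prod_range_succ,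
      prod_range_succ, phi_one (3 * M + 1) (by omega), phi_one (3 * M + 1 + 1) (by omega), mul_one,
      mul_one, prod_range_succ, sum_range_succ, Real.exp_add]
    obtain ⟨h1, h2, h3⟩ := ih.mul (rep_phi M x hx)
    refine ⟨h1, h2, h3.trans (mul_le_mul_of_nonneg_left ?_ (Real.exp_pos _).le)⟩
    refine le_trans ?_ (Real.add_one_le_exp _)
    obtain ⟨r, hr⟩ : ∃ r, r = ‖x‖ := ⟨_, rfl⟩
    have hr0 : 0 ≤ r := hr ▸ norm_nonneg _
    rw [← hr] at hx ⊢
    have a1 : r ^ (3 * M + 1) ≤ r ^ M := pow_le_pow_of_le_one hr0 hx.le (by omega)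
    have a2 : r ^ (3 * M + 1) ≤ r := by
      simpa using pow_le_pow_of_le_one hr0 hx.le (show 1 ≤ 3 * M + 1 by omega)
    have a3 : 0 < 1 - r := by linarith
    have a4 : (1 - r ^ (3 * M + 1))⁻¹ = r ^ (3 * M + 1) * (1 - r ^ (3 * M + 1))⁻¹ + 1 := by
      have : 1 - r ^ (3 * M + 1) ≠ 0 := by linarith
      field_simp; ring
    have a5 : (1 - r ^ (3 * M + 1))⁻¹ ≤ (1 - r)⁻¹ := inv_anti₀ a3 (by linarith)
    have a6 : 0 ≤ (1 - r ^ (3 * M + 1))⁻¹ := inv_nonneg.2 (by linarith)
    have := mul_le_mul a1 a5 a6 (pow_nonneg hr0 M)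
    linarith

noncomputable def H (x : ℂ) : ℂ := ∑' k : ℕ, (-1) ^ k / k * (x ^ k / (1 - x ^ (3 * k)))

lemma tendsto_prod (x : ℂ) (hx : ‖x‖ < 1) :
    Tendsto (fun M => ∏ m ∈ range M, (1 + x ^ (3 * m + 1))⁻¹) atTop (𝓝 (Complex.exp (H x))) := by
  let t : ℕ × ℕ → ℂ := fun q => (-1) ^ q.2 / q.2 * x ^ ((3 * q.1 + 1) * q.2)
  have hs : Summable t := by
    have g := summable_geometric_of_lt_one (norm_nonneg x) hx
    refine Summable.of_norm_bounded (g.mul_of_nonneg g (fun _ => by positivity)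
      (fun _ => by positivity)) ?_
    rintro ⟨m, k⟩
    rcases k with _ | k
    · simp [t]
    · simp only [t, norm_mul, norm_div, norm_pow, norm_neg, norm_one, one_pow, Complex.norm_natCast]
      rw [← pow_add]
      have : ‖x‖ ^ ((3 * m + 1) * (k + 1)) ≤ ‖x‖ ^ (m + (k + 1)) :=
        pow_le_pow_of_le_one (norm_nonneg _) hx.le (by nlinarith [Nat.zero_le (m * k)])
      refine le_trans (mul_le_of_le_one_left (by positivity) ?_) this
      rw [div_le_one (by positivity)]
      exact_mod_cast Nat.le_add_left 1 k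
  have hxa : ∀ a, 0 < a → ‖x ^ a‖ < 1 := fun a ha => by
    rw [norm_pow]; exact pow_lt_one₀ (norm_nonneg _) hx ha.ne'
  have f1 : HasSum (fun m => -Complex.log (1 + x ^ (3 * m + 1))) (∑' q, t q) := by
    refine hs.hasSum.prod_fiberwise fun m => ?_
    refine hsc (Complex.hasSum_taylorSeries_log (hxa (3 * m + 1) (by omega))).neg (fun k => ?_) rfl
    simp only [t, pow_mul]
    ring
  have f2 : HasSum (fun k : ℕ => (-1) ^ k / k * (x ^ k / (1 - x ^ (3 * k)))) (∑' q, t q) := by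
    have := (Equiv.prodComm ℕ ℕ).hasSum_iff.2 hs.hasSum
    refine this.prod_fiberwise fun k => ?_
    rcases k with _ | k
    · simp [t]
    · refine hsc ((hasSum_geometric_of_norm_lt_one (hxa (3 * (k + 1)) (by omega))).mul_left
        ((-1) ^ (k + 1) / ((k + 1 : ℕ) : ℂ) * x ^ (k + 1))) (fun m => ?_) ?_
      · simp only [t, Function.comp, Equiv.prodComm_apply, Prod.swap]
        ring
      · ring
  have e : ∀ M, ∏ m ∈ range M, (1 + x ^ (3 * m + 1))⁻¹ =
      Complex.exp (∑ m ∈ range M, -Complex.log (1 + x ^ (3 * m + 1))) := by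
    intro M
    rw [Complex.exp_sum]
    refine prod_congr rfl fun m _ => ?_
    rw [Complex.exp_neg, Complex.exp_log]
    intro h
    have := hxa (3 * m + 1) (by omega)
    rw [show x ^ (3 * m + 1) = -1 by linear_combination h] at this
    simp at this
  simp only [e, H, f2.tsum_eq]
  exact (Complex.continuous_exp.tendsto _).comp f1.tendsto_sum_nat

lemma gen (x : ℂ) (hx : ‖x‖ < 1) :
    Summable (fun n => ‖coeff n (Nat.Partition.genFun chi) * x ^ n‖) ∧
    ∑' n, coeff n (Nat.Partition.genFun chi) * x ^ n = Complex.exp (H x) := by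
  obtain ⟨r, hr1, hr2⟩ := exists_between hx
  have hr0 : 0 < r := (norm_nonneg _).trans_lt hr1
  have hr : ‖(r : ℂ)‖ = r := by simp [hr0.le]
  obtain ⟨B, hB⟩ : ∃ B, B = Real.exp ((1 - r)⁻¹ * (1 - r)⁻¹) := ⟨_, rfl⟩
  have hb : ∀ M n, ‖coeff n (∏ i ∈ range (3 * M), phi i) * x ^ n‖ ≤ B * (‖x‖ / r) ^ n := by
    intro M n
    obtain ⟨h1, _, h3⟩ := rep_prod r (by rwa [hr]) M
    have h4 := (h1.le_tsum n (fun _ _ => norm_nonneg _)).trans h3
    rw [hr, ← sum_mul] at h4
    have h5 : ∑ m ∈ range M, r ^ m ≤ (1 - r)⁻¹ := by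
      rw [← tsum_geometric_of_lt_one hr0.le hr2]
      exact (summable_geometric_of_lt_one hr0.le hr2).sum_le_tsum _ (fun _ _ => by positivity)
    have h6 : ‖coeff n (∏ i ∈ range (3 * M), phi i) * (r : ℂ) ^ n‖ ≤ B := by
      refine h4.trans (hB ▸ Real.exp_le_exp.2 ?_)
      exact mul_le_mul_of_nonneg_right h5 (inv_nonneg.2 (by linarith))
    rw [norm_mul, norm_pow, hr] at h6
    rw [norm_mul, norm_pow]
    calc _ = ‖coeff n (∏ i ∈ range (3 * M), phi i)‖ * r ^ n * (‖x‖ / r) ^ n := by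
          rw [div_pow]; field_simp
      _ ≤ _ := by gcongr
  have hs : Summable fun n => B * (‖x‖ / r) ^ n :=
    (summable_geometric_of_lt_one (by positivity) ((div_lt_one hr0).2 hr1)).mul_left B
  have hlim : ∀ n, Tendsto (fun M => coeff n (∏ i ∈ range (3 * M), phi i) * x ^ n) atTop
      (𝓝 (coeff n (Nat.Partition.genFun chi) * x ^ n)) := by
    intro n
    have h1 := (Nat.Partition.hasProd_genFun chi).tendsto_prod_nat
    rw [WithPiTopology.tendsto_iff_coeff_tendsto] at h1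
    exact ((h1 n).comp (tendsto_id.const_mul_atTop' (by norm_num : 0 < 3))).mul_const _
  refine ⟨Summable.of_nonneg_of_le (fun _ => norm_nonneg _)
    (fun n => le_of_tendsto' (hlim n).norm fun M => hb M n) hs, ?_⟩
  have h2 := tendsto_tsum_of_dominated_convergence hs hlim (Eventually.of_forall hb)
  simp only [(rep_prod x hx _).2.1] at h2
  exact tendsto_nhds_unique h2 (tendsto_prod x hx)

noncomputable def G (z w : ℂ) (k : ℕ) : ℂ := if z ^ (3 * k) = 1 then (-z) ^ k / (k ^ 2 * w) else 0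

lemma lim (z w : ℂ) (hz : ‖z‖ = 1) (hw : w.re = 1) :
    Tendsto (fun t : ℝ => 3 * (t : ℂ) * H (z * Complex.exp (-(t * w)))) (𝓝[>] 0)
      (𝓝 (∑' k, G z w k)) := by
  simp only [H, ← tsum_mul_left]
  have hw0 : w ≠ 0 := by rintro rfl; simp at hw
  refine tendsto_tsum_of_dominated_convergence (bound := fun k : ℕ => 3 * (1 / (k : ℝ) ^ 2))
    (hasSum_zeta_two.summable.mul_left 3) (fun k => ?_) ?_
  · rcases k with _ | k
    · simp [G]
    obtain ⟨n, hn⟩ : ∃ n, n = k + 1 := ⟨_, rfl⟩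
    rw [← hn]
    have hn0 : (n : ℂ) ≠ 0 := by rw [hn]; exact_mod_cast k.succ_ne_zero
    have hc : Tendsto (fun t : ℝ => z * Complex.exp (-(t * w))) (𝓝[>] 0) (𝓝 z) := by
      have : Continuous fun t : ℝ => z * Complex.exp (-(t * w)) := by fun_prop
      simpa using (this.tendsto 0).mono_left nhdsWithin_le_nhds
    unfold G
    split_ifs with h
    · have hd : HasDerivAt (fun t : ℝ => 1 - (z * Complex.exp (-(t * w))) ^ (3 * n))
          (3 * n * w) 0 := by
        have e : (fun t : ℝ => 1 - (z * Complex.exp (-(t * w))) ^ (3 * n))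
            = fun t : ℝ => 1 - Complex.exp (-(3 * n * w) * t) := by
          funext t
          rw [mul_pow, h, one_mul, ← Complex.exp_nat_mul]
          push_cast; ring_nf
        rw [e]
        have := (((hasDerivAt_id (0 : ℝ)).ofReal_comp.const_mul (-(3 * (n : ℂ) * w))).cexp).const_sub 1
        simpa using this
      have h2 := (hd.tendsto_slope_zero_right.inv₀ (by simp [hn0, hw0]))
      have h3 := ((hc.pow n).mul h2).const_mul (3 * ((-1 : ℂ) ^ n / n))
      rw [show (-z) ^ n / ((n : ℂ) ^ 2 * w) = 3 * ((-1) ^ n / n) * (z ^ n * (3 * n * w)⁻¹) by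
        rw [neg_pow z]; field_simp]
      refine h3.congr fun t => ?_
      simp only [zero_add, Complex.ofReal_zero, zero_mul, neg_zero, Complex.exp_zero, mul_one, h,
          sub_self, sub_zero, Complex.real_smul, mul_inv, Complex.ofReal_inv, inv_inv,
          div_eq_mul_inv]
      ring
    · have h0 : Tendsto (fun t : ℝ => 3 * (t : ℂ)) (𝓝[>] 0) (𝓝 0) := by
        have : Continuous fun t : ℝ => 3 * (t : ℂ) := by fun_prop
        simpa using (this.tendsto 0).mono_left nhdsWithin_le_nhds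
      have h2 := h0.mul (((hc.pow n).div ((hc.pow (3 * n)).const_sub 1)
        (sub_ne_zero.2 (Ne.symm h))).const_mul ((-1 : ℂ) ^ n / n))
      simpa using h2
  · filter_upwards [self_mem_nhdsWithin] with t (ht : 0 < t) k
    rcases k with _ | k
    · simp
    obtain ⟨n, hn⟩ : ∃ n, n = k + 1 := ⟨_, rfl⟩
    rw [← hn]
    have hn0 : (0 : ℝ) < n := by rw [hn]; positivity
    have hx : ‖z * Complex.exp (-(t * w))‖ = Real.exp (-t) := by
      rw [norm_mul, hz, one_mul, Complex.norm_exp]; simp [hw]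
    obtain ⟨x, hxd⟩ : ∃ x, x = z * Complex.exp (-(t * w)) := ⟨_, rfl⟩
    rw [← hxd] at hx ⊢
    obtain ⟨E, hE⟩ : ∃ E, E = Real.exp (-(n * t)) := ⟨_, rfl⟩
    have hE0 : 0 < E := hE ▸ Real.exp_pos _
    have hnt : 0 < n * t := by positivity
    have hE1 : E * (n * t + 1) ≤ 1 := by
      rw [hE, Real.exp_neg, inv_mul_le_iff₀ (Real.exp_pos _), mul_one]
      exact Real.add_one_le_exp _
    have hE2 : E < 1 := by nlinarith
    have e1 : ‖x ^ n‖ = E := by
      rw [norm_pow, hx, ← Real.exp_nat_mul, hE]; ring_nf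
    have e2 : 1 - E ≤ ‖1 - x ^ (3 * n)‖ := by
      refine le_trans ?_ (norm_sub_norm_le _ _)
      rw [norm_one, mul_comm, pow_mul, norm_pow, e1]
      have : E ^ 3 ≤ E := by simpa using pow_le_pow_of_le_one hE0.le hE2.le (show 1 ≤ 3 by omega)
      linarith
    simp only [norm_mul, norm_div, e1, norm_pow, norm_neg, norm_one, one_pow, Complex.norm_natCast,
      Complex.norm_real, Real.norm_of_nonneg ht.le, Complex.norm_ofNat]
    have e3 : E / ‖1 - x ^ (3 * n)‖ ≤ 1 / (n * t) := by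
      rw [div_le_div_iff₀ (by linarith) hnt]; nlinarith
    calc _ ≤ 3 * t * (1 / n * (1 / (n * t))) := by gcongr
      _ = _ := by field_simp

lemma tail (z w : ℂ) (hz : ‖z‖ = 1) (hw : w.re = 1) (n : ℕ) :
    |(∑' k, G z w k).re - (∑ k ∈ range n, G z w k).re|
      ≤ Real.pi ^ 2 / 6 - ∑ k ∈ range n, 1 / (k : ℝ) ^ 2 := by
  have hb : ∀ k, ‖G z w k‖ ≤ 1 / (k : ℝ) ^ 2 := by
    intro k
    unfold G
    split_ifs
    · rcases k with _ | k
      · simp
      have : 1 ≤ ‖w‖ := hw ▸ Complex.re_le_norm w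
      simp only [norm_div, norm_pow, norm_neg, hz, one_pow, norm_mul, Complex.norm_natCast]
      gcongr
      exact le_mul_of_one_le_right (by positivity) this
    · simp
  have hs : Summable (G z w) := Summable.of_norm_bounded hasSum_zeta_two.summable hb
  rw [← hs.sum_add_tsum_nat_add n, Complex.add_re, add_sub_cancel_left]
  refine (Complex.abs_re_le_norm _).trans ?_
  exact tsum_of_norm_bounded ((hasSum_nat_add_iff' n).2 hasSum_zeta_two) fun k => hb _

lemma pi_sq : Real.pi ^ 2 / 6 ≤ 1.645 := by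
  have := Real.pi_lt_d4
  have := Real.pi_pos
  nlinarith

lemma upper (z : ℂ) (hz : ‖z‖ = 1) : (∑' k, G z 1 k).re ≤ 0.55 := by
  have h := (abs_le.1 (tail z 1 hz rfl 4)).2
  have hp := pi_sq
  have key : (∑ k ∈ range 4, G z 1 k).re ≤ 3 / 8 - 1 / 9 := by
    simp only [sum_range_succ, sum_range_zero, G]
    by_cases h3 : z ^ 3 = 1
    · have h6 : z ^ 6 = 1 := by rw [show 6 = 3 * 2 from rfl, pow_mul, h3]; simp
      have h9 : z ^ 9 = 1 := by rw [show 9 = 3 * 3 from rfl, pow_mul, h3]; simp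
      have e3 : (-z) ^ 3 = -1 := by rw [neg_pow, h3]; norm_num
      norm_num [h3, h6, h9, e3]
      have : (z - 1) * (z ^ 2 + z + 1) = 0 := by linear_combination h3
      rcases mul_eq_zero.1 this with h | h
      · rw [sub_eq_zero.1 h]; norm_num
      · have r1 := congrArg Complex.re h
        have r2 := congrArg Complex.im h
        simp [pow_two] at r1 r2 ⊢
        have : z.im * (2 * z.re + 1) = 0 := by linarith
        rcases mul_eq_zero.1 this with h | h
        · rw [h] at r1; nlinarith [sq_nonneg (z.re + 1 / 2)]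
        · linarith
    · have b : ∀ k : ℕ, ((-z) ^ k).re ≤ 1 := fun k =>
        (Complex.re_le_norm _).trans (by simp [hz])
      have b2 := b 2
      have b3 := b 3
      by_cases h6 : z ^ 6 = 1
      · have h9 : z ^ 9 ≠ 1 := fun h9 => h3 (by linear_combination h9 - z ^ 3 * h6)
        norm_num [h3, h6, h9] at b2 ⊢
        linarith
      · by_cases h9 : z ^ 9 = 1
        · norm_num [h3, h6, h9]
          linarith
        · norm_num [h3, h6, h9]
  norm_num [sum_range_succ] at h key ⊢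
  linarith

lemma lower : ∃ z w : ℂ, ‖z‖ = 1 ∧ w.re = 1 ∧ 0.56 ≤ (∑' k, G z w k).re := by
  obtain ⟨s, hs, hs1, hs2⟩ : ∃ s : ℝ, s ^ 2 = 3 / 4 ∧ 0.866 ≤ s ∧ s ≤ 0.8661 := by
    refine ⟨√(3 / 4), Real.sq_sqrt (by norm_num), Real.le_sqrt_of_sq_le (by norm_num),
      Real.sqrt_le_iff.2 ⟨by norm_num, by norm_num⟩⟩
  obtain ⟨u, hu⟩ : ∃ u : ℂ, u = ⟨1 / 2, s⟩ := ⟨_, rfl⟩
  have u2 : u ^ 2 = u - 1 := by
    rw [hu]; apply Complex.ext <;> simp [pow_two] <;> nlinarith
  have u3 : u ^ 3 = -1 := by linear_combination (u + 1) * u2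
  have hz : ‖-u‖ = 1 := by
    have := congrArg norm u3
    rw [norm_pow, norm_neg, norm_one] at this
    rw [norm_neg]
    exact (pow_eq_one_iff_of_nonneg (norm_nonneg _) (by norm_num)).1 this
  refine ⟨-u, 1 + Complex.I, hz, by simp, ?_⟩
  have h := (abs_le.1 (tail (-u) (1 + Complex.I) hz (by simp) 13)).1
  have hp := pi_sq
  have hG : ∀ k : ℕ, (G (-u) (1 + Complex.I) k).re
      = ((u ^ k).re + (u ^ k).im) / (2 * (k : ℝ) ^ 2) := by
    intro k
    have : (-u) ^ (3 * k) = 1 := by rw [pow_mul, neg_pow u, u3]; norm_num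
    rw [G, if_pos this, neg_neg]
    have e : u ^ k / ((k : ℂ) ^ 2 * (1 + Complex.I))
        = ((1 / (2 * (k : ℝ) ^ 2) : ℝ) : ℂ) * (u ^ k * (1 - Complex.I)) := by
      have : (1 + Complex.I)⁻¹ = (1 - Complex.I) / 2 := by
        apply inv_eq_of_mul_eq_one_right
        linear_combination (-1 / 2 : ℂ) * Complex.I_sq
      rw [div_eq_mul_inv, mul_inv, this]
      push_cast; ring
    rw [e, Complex.re_ofReal_mul]
    simp only [Complex.mul_re, Complex.sub_re, Complex.one_re, Complex.I_re, Complex.sub_im,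
      Complex.one_im, Complex.I_im]
    ring
  have u4 : u ^ 4 = -u := by linear_combination u * u3
  have u5 : u ^ 5 = 1 - u := by linear_combination u ^ 2 * u3 - u2
  have u6 : u ^ 6 = 1 := by linear_combination (u ^ 3 - 1) * u3
  have u7 : u ^ 7 = u := by linear_combination u * u6
  have u8 : u ^ 8 = u - 1 := by linear_combination u ^ 2 * u6 + u2
  have u9 : u ^ 9 = -1 := by linear_combination u ^ 3 * u6 + u3
  have u10 : u ^ 10 = -u := by linear_combination u ^ 4 * u6 + u4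
  have u11 : u ^ 11 = 1 - u := by linear_combination u ^ 5 * u6 + u5
  have u12 : u ^ 12 = 1 := by linear_combination u ^ 6 * u6 + u6
  rw [Complex.re_sum] at h
  simp only [hG, sum_range_succ, sum_range_zero, u2, u3, u4, u5, u6, u7, u8, u9, u10, u11, u12,
    pow_one] at h
  rw [hu] at h ⊢
  norm_num at h ⊢
  linarith

end H48.Sgn
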