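import Mathlib

set_option autoImplicit false

namespace Pool.Agent.H48.Strip

open scoped commutatorElement

abbrev P := ℤ × ℤ

/-- The edge vectors. -/
def d (k : ℕ) : P := ((k : ℤ) + 1, ((k : ℤ) + 1) ^ 2)

theorem d_ne (q : P) (k : ℕ) : q + d k ≠ q := by
  intro h
  have := congrArg Prod.fst h
  simp only [d, Prod.fst_add] at this
  omega

/-- A product of dihedral groups extended by translations. -/
@[ext] structure Γ (μ : ℕ → ℕ) where
  r : P → (k : ℕ) → ZMod (μ k)
  a : P → ℤˣ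
  t : P

variable {μ : ℕ → ℕ}

/-- The sign by which an element acts on an edge. -/
def sg (a : P → ℤˣ) (q : P) (k : ℕ) : ZMod (μ k) := ((a q : ℤ) : ZMod (μ k)) * (a (q + d k) : ℤ)

theorem usq (n : ℕ) (u : ℤˣ) : ((u : ℤ) : ZMod n) * (u : ℤ) = 1 := by
  rcases Int.units_eq_one_or u with rfl | rfl <;> simp

instance : Group (Γ μ) where
  mul g h := ⟨fun q k => g.r q k + sg g.a q k * h.r (q - g.t) k, fun q => g.a q * h.a (q - g.t),
    g.t + h.t⟩
  one := ⟨fun _ _ => 0, fun _ => 1, 0⟩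
  inv g := ⟨fun q k => -(sg g.a (q + g.t) k * g.r (q + g.t) k), fun q => g.a (q + g.t), -g.t⟩
  mul_assoc g h l := by
    apply Γ.ext
    · funext q k
      change g.r q k + sg g.a q k * h.r (q - g.t) k + sg (fun q => g.a q * h.a (q - g.t)) q k *
        l.r (q - (g.t + h.t)) k = g.r q k + sg g.a q k * (h.r (q - g.t) k +
          sg h.a (q - g.t) k * l.r (q - g.t - h.t) k)
      simp only [sg, sub_add_eq_sub_sub, Units.val_mul, Int.cast_mul, add_sub_right_comm]
      ring
    · funext q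
      change g.a q * h.a (q - g.t) * l.a (q - (g.t + h.t))
        = g.a q * (h.a (q - g.t) * l.a (q - g.t - h.t))
      rw [sub_add_eq_sub_sub, mul_assoc]
    · exact add_assoc g.t h.t l.t
  one_mul g := by
    apply Γ.ext
    · funext q k
      change 0 + sg (fun _ => 1) q k * g.r (q - 0) k = _
      simp [sg]
    · funext q
      change 1 * g.a (q - 0) = _
      simp
    · exact zero_add g.t
  mul_one g := by
    apply Γ.ext
    · funext q k
      change g.r q k + sg g.a q k * 0 = _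
      simp
    · funext q
      exact mul_one _
    · exact add_zero g.t
  inv_mul_cancel g := by
    apply Γ.ext
    · funext q k
      change -(sg g.a (q + g.t) k * g.r (q + g.t) k) + sg (fun q => g.a (q + g.t)) q k *
        g.r (q - -g.t) k = 0
      simp [sg, add_right_comm]
    · funext q
      change g.a (q + g.t) * g.a (q - -g.t) = 1
      simp
    · exact neg_add_cancel g.t

@[simp] theorem mul_r (g h : Γ μ) (q : P) (k : ℕ) :
    (g * h).r q k = g.r q k + sg g.a q k * h.r (q - g.t) k := rfl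
@[simp] theorem mul_a (g h : Γ μ) (q : P) : (g * h).a q = g.a q * h.a (q - g.t) := rfl
@[simp] theorem mul_t (g h : Γ μ) : (g * h).t = g.t + h.t := rfl
@[simp] theorem one_r (q : P) (k : ℕ) : (1 : Γ μ).r q k = 0 := rfl
@[simp] theorem one_a (q : P) : (1 : Γ μ).a q = 1 := rfl
@[simp] theorem one_t : (1 : Γ μ).t = 0 := rfl
@[simp] theorem inv_r (g : Γ μ) (q : P) (k : ℕ) :
    g⁻¹.r q k = -(sg g.a (q + g.t) k * g.r (q + g.t) k) := rfl
@[simp] theorem inv_a (g : Γ μ) (q : P) : g⁻¹.a q = g.a (q + g.t) := rfl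
@[simp] theorem inv_t (g : Γ μ) : g⁻¹.t = -g.t := rfl

/-- The translation part. -/
def τ : Γ μ →* Multiplicative P := ⟨⟨fun g => Multiplicative.ofAdd g.t, rfl⟩, fun _ _ => rfl⟩

/-- Rotations. -/
def Rot (g : Γ μ) : Prop := g.t = 0 ∧ ∀ q, g.a q = 1

theorem rot_comm {g h : Γ μ} (hg : g.t = 0) (hh : h.t = 0) : Rot ⁅g, h⁆ := by
  refine ⟨by simp [commutatorElement_def, hg, hh], fun q => ?_⟩
  simp only [commutatorElement_def, mul_a, mul_t, inv_a, inv_t, hg, hh, sub_zero, add_zero,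
    neg_zero]
  rcases Int.units_eq_one_or (g.a q) with e | e <;>
    rcases Int.units_eq_one_or (h.a q) with e' | e' <;> simp [e, e']

theorem rot_comm_r {g h : Γ μ} (hg : Rot g) (hh : h.t = 0) (q : P) (k : ℕ) :
    (⁅g, h⁆ : Γ μ).r q k = (1 - sg h.a q k) * g.r q k := by
  have e1 := usq (μ k) (h.a q)
  have e2 := usq (μ k) (h.a (q + d k))
  simp only [commutatorElement_def, mul_r, mul_a, mul_t, inv_r, inv_a, inv_t, hg.1, hh, hg.2,
    sub_zero, add_zero, neg_zero, sg, one_mul, mul_one, Units.val_one, Int.cast_one]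
  linear_combination (-(h.r q k) * ((h.a (q + d k) : ℤ) : ZMod (μ k)) *
    ((h.a (q + d k) : ℤ) : ZMod (μ k))) * e1 - h.r q k * e2

theorem rot_pow {g : Γ μ} (hg : Rot g) (n : ℕ) :
    Rot (g ^ n) ∧ ∀ q k, (g ^ n).r q k = n * g.r q k := by
  induction n with
  | zero => exact ⟨⟨rfl, fun _ => rfl⟩, by simp⟩
  | succ n ih =>
    rw [pow_succ]
    refine ⟨⟨by simp [ih.1.1, hg.1], fun q => by simp [ih.1.2, hg.2]⟩, fun q k => ?_⟩
    simp [ih.2, sg, ih.1.2, ih.1.1, add_mul]

theorem rot_one {g : Γ μ} (hg : Rot g) (h : ∀ q k, g.r q k = 0) : g = 1 :=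
  Γ.ext (funext₂ h) (funext hg.2) hg.1

instance : Group.IsSolvable (Γ μ) := by
  let T : Subgroup (Γ μ) := τ.ker
  let R : Subgroup (Γ μ) :=
    { carrier := {g | Rot g}
      one_mem' := ⟨rfl, fun _ => rfl⟩
      mul_mem' := fun {g h} hg hh => ⟨by simp [hg.1, hh.1], fun q => by simp [hg.2, hh.2]⟩
      inv_mem' := fun {g} hg => ⟨by simp [hg.1], fun q => by simp [hg.2]⟩ }
  have h1 : derivedSeries (Γ μ) 1 ≤ T := by
    rw [derivedSeries_succ, Subgroup.commutator_le]
    intro g _ h _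
    simp [T, MonoidHom.mem_ker, map_commutatorElement, commutatorElement_eq_one_iff_mul_comm,
      mul_comm]
  have h2 : derivedSeries (Γ μ) 2 ≤ R := by
    rw [derivedSeries_succ, Subgroup.commutator_le]
    exact fun g hg h hh => rot_comm (h1 hg) (h1 hh)
  refine ⟨3, ?_⟩
  rw [derivedSeries_succ, eq_bot_iff, Subgroup.commutator_le]
  intro g hg h hh
  refine rot_one (rot_comm (h2 hg).1 (h2 hh).1) fun q k => ?_
  rw [rot_comm_r (h2 hg) (h2 hh).1]
  simp [sg, (h2 hh).2]

/-- The involution at `q`. -/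
def b (p : P) : Γ μ := ⟨fun q _ => if q = p then 1 else 0, fun q => if q = p then -1 else 1, 0⟩

/-- Translations. -/
def tr (v : P) : Γ μ := ⟨fun _ _ => 0, fun _ => 1, v⟩

/-- The finitely generated subgroup. -/
def GG (μ : ℕ → ℕ) : Subgroup (Γ μ) := Subgroup.closure {b 0, tr (1, 0), tr (0, 1)}

theorem tr_add (v w : P) : (tr (v + w) : Γ μ) = tr v * tr w :=
  Γ.ext (by funext q k; simp [tr]) (by funext q; simp [tr]) rfl

theorem tr_neg (v : P) : (tr (-v) : Γ μ) = (tr v)⁻¹ :=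
  Γ.ext (by funext q k; simp [tr]) (by funext q; simp [tr]) rfl

theorem tr_mem (v : P) : tr v ∈ GG μ := by
  let A : AddSubgroup P :=
    { carrier := {v | tr v ∈ GG μ}
      zero_mem' := (GG μ).one_mem
      add_mem' := fun {v w} hv hw => by
        change tr _ ∈ GG μ
        rw [tr_add]; exact mul_mem hv hw
      neg_mem' := fun {v} hv => by
        change tr _ ∈ GG μ
        rw [tr_neg]; exact inv_mem hv }
  have h1 : ((1, 0) : P) ∈ A := Subgroup.subset_closure (by simp)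
  have h2 : ((0, 1) : P) ∈ A := Subgroup.subset_closure (by simp)
  have := A.add_mem (A.zsmul_mem h1 v.1) (A.zsmul_mem h2 v.2)
  have h3 : v ∈ A := by simpa using this
  exact h3

theorem b_mem (p : P) : b p ∈ GG μ := by
  have : (b p : Γ μ) = tr p * b 0 * (tr p)⁻¹ :=
    Γ.ext (by funext q k; simp [tr, b, sg, sub_eq_zero]) (by funext q; simp [tr, b, sub_eq_zero])
      (by simp [tr, b])
  rw [this]
  exact mul_mem (mul_mem (tr_mem p) (Subgroup.subset_closure (by simp))) (inv_mem (tr_mem p))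

theorem bb_r (q : P) (k : ℕ) : (⁅(b q : Γ μ), (b (q + d k) : Γ μ)⁆ : Γ μ).r q k = 2 := by
  have h1 := d_ne q k
  simp [commutatorElement_def, b, sg, h1, h1.symm]
  ring

/-- Support condition. -/
def Cond (S : Set P) (g : Γ μ) : Prop :=
  (∀ q, q ∉ S → g.a q = 1) ∧
    ∀ q k, (q ∉ S ∨ q + d k ∉ S) → g.r q k = if g.a q = 1 then 0 else 1

theorem Cond.mono {S S' : Set P} {g : Γ μ} (h : Cond S g) (hS : S ⊆ S') : Cond S' g :=
  ⟨fun q hq => h.1 q (fun e => hq (hS e)), fun q k hq =>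
    h.2 q k (hq.imp (fun h e => h (hS e)) (fun h e => h (hS e)))⟩

theorem Cond.mul {S S' : Set P} {g h : Γ μ} (hg : Cond S g) (hh : Cond S' h)
    (hS : ∀ q, q ∉ S → q - g.t ∉ S') : Cond S (g * h) := by
  refine ⟨fun q hq => by simp [hg.1 q hq, hh.1 _ (hS q hq)], fun q k hq => ?_⟩
  have e1 := hg.2 q k hq
  have e2 := hh.2 (q - g.t) k (hq.imp (hS q) (fun h => by
    rw [← add_sub_right_comm]; exact hS _ h))
  rw [mul_r, mul_a, e1, e2]
  rcases hq with hq | hq
  · simp [hg.1 q hq, hh.1 _ (hS q hq)]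
  · rcases Int.units_eq_one_or (g.a q) with e | e <;>
      rcases Int.units_eq_one_or (h.a (q - g.t)) with e' | e' <;> simp [e, e', sg, hg.1 _ hq]

theorem Cond.inv {S S' : Set P} {g : Γ μ} (hg : Cond S' g) (hS : ∀ q, q ∉ S → q + g.t ∉ S') :
    Cond S g⁻¹ := by
  refine ⟨fun q hq => by simp [hg.1 _ (hS q hq)], fun q k hq => ?_⟩
  have hq' : q + g.t ∉ S' ∨ q + g.t + d k ∉ S' := hq.imp (hS q) (fun h => by
    rw [add_right_comm]; exact hS _ h)
  rw [inv_r, inv_a, hg.2 (q + g.t) k hq']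
  rcases hq' with hq | hq
  · simp [hg.1 _ hq]
  · rcases Int.units_eq_one_or (g.a (q + g.t)) with e | e <;> simp [e, sg, hg.1 _ hq]

theorem fin_cond {g : Γ μ} (hg : g ∈ GG μ) : ∃ S : Set P, S.Finite ∧ Cond S g := by
  induction hg using Subgroup.closure_induction with
  | mem x hx =>
    rcases hx with rfl | rfl | rfl
    · refine ⟨{0}, Set.finite_singleton _, fun q hq => by simpa [b] using hq, fun q k _ => ?_⟩
      by_cases h : q = 0 <;> simp [b, h]
    · exact ⟨∅, Set.finite_empty, fun _ _ => rfl, fun _ _ _ => by simp [tr]⟩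
    · exact ⟨∅, Set.finite_empty, fun _ _ => rfl, fun _ _ _ => by simp [tr]⟩
  | one => exact ⟨∅, Set.finite_empty, fun _ _ => rfl, fun _ _ _ => by simp⟩
  | mul g h _ _ hg hh =>
    obtain ⟨S, h1, h2⟩ := hg
    obtain ⟨S', h3, h4⟩ := hh
    refine ⟨S ∪ (· + g.t) '' S', h1.union (h3.image _),
      (h2.mono Set.subset_union_left).mul h4 fun q hq e => hq (Or.inr ⟨_, e, by simp⟩)⟩
  | inv g _ hg =>
    obtain ⟨S, h1, h2⟩ := hg
    exact ⟨(· - g.t) '' S, h1.image _, h2.inv fun q hq e => hq ⟨_, e, by simp⟩⟩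

theorem strip {x y : Γ μ} (hx : x ∈ GG μ) (hy : y ∈ GG μ) : ∃ (S : Set P) (K : ℕ),
    (∀ q k, q ∈ S → q + d k ∈ S → k ≤ K) ∧
    ∀ g ∈ Subgroup.closure {x, y⁻¹ * x * y}, Cond S g := by
  obtain ⟨u, v, huv, h0⟩ : ∃ u v : ℤ, (u ≠ 0 ∨ v ≠ 0) ∧ u * x.t.1 + v * x.t.2 = 0 := by
    by_cases h : x.t.1 = 0
    · exact ⟨1, 0, by simp, by simp [h]⟩
    · exact ⟨x.t.2, -x.t.1, Or.inr (by simpa using h), by ring⟩
  obtain ⟨S1, f1, c1⟩ := fin_cond hx
  obtain ⟨S2, f2, c2⟩ := fin_cond (mul_mem (mul_mem (inv_mem hy) hx) hy)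
  obtain ⟨C, hC⟩ := ((f1.union f2).image fun q => |u * q.1 + v * q.2|).bddAbove
  set S : Set P := {q | |u * q.1 + v * q.2| ≤ C} with hS
  have s1 : S1 ∪ S2 ⊆ S := fun q hq => hC ⟨q, hq, rfl⟩
  refine ⟨S, (2 * C + |u|).toNat, fun q k h1 h2 => ?_, ?_⟩
  · simp only [hS, Set.mem_ofPred_eq, d, Prod.fst_add, Prod.snd_add, abs_le] at h1 h2
    have k0 : (0 : ℤ) ≤ k := by positivity
    have h3 : |((k : ℤ) + 1) * (u + v * (k + 1))| ≤ 2 * C := by
      rw [abs_le]; constructor <;> nlinarith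
    rw [abs_mul, abs_of_pos (by omega : (0 : ℤ) < k + 1)] at h3
    have hu := abs_nonneg u
    by_cases h4 : u + v * (k + 1) = 0
    · have hv : v ≠ 0 := fun e => by simp [e] at h4; simp [e, h4] at huv
      have h5 : |u| = |v| * (k + 1) := by
        rw [show u = -(v * (k + 1)) by linarith, abs_neg, abs_mul,
          abs_of_pos (by omega : (0 : ℤ) < k + 1)]
      have h6 : 1 ≤ |v| := Int.one_le_abs hv
      have : (k : ℤ) ≤ 2 * C + |u| := by nlinarith
      omega
    · have h6 := Int.one_le_abs h4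
      have : (k : ℤ) ≤ 2 * C + |u| := by nlinarith
      omega
  · let H : Subgroup (Γ μ) :=
      { carrier := {g | Cond S g ∧ u * g.t.1 + v * g.t.2 = 0}
        one_mem' := ⟨⟨fun _ _ => rfl, fun _ _ _ => by simp⟩, by simp⟩
        mul_mem' := fun {g h} hg hh => ⟨hg.1.mul hh.1 fun q hq e => hq (by
            simp only [hS, Set.mem_ofPred_eq, Prod.fst_sub, Prod.snd_sub] at e ⊢
            convert e using 2
            linarith [hg.2]), by
          simp only [mul_t, Prod.fst_add, Prod.snd_add]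
          linarith [hg.2, hh.2]⟩
        inv_mem' := fun {g} hg => ⟨hg.1.inv fun q hq e => hq (by
            simp only [hS, Set.mem_ofPred_eq, Prod.fst_add, Prod.snd_add] at e ⊢
            convert e using 2
            linarith [hg.2]), by
          simp only [inv_t, Prod.fst_neg, Prod.snd_neg]
          linarith [hg.2]⟩ }
    have : Subgroup.closure {x, y⁻¹ * x * y} ≤ H := by
      rw [Subgroup.closure_le]
      rintro g (rfl | rfl)
      · exact ⟨c1.mono (Set.subset_union_left.trans s1), h0⟩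
      · exact ⟨c2.mono (Set.subset_union_right.trans s1), by simpa using h0⟩
    exact fun g hg => (this hg).1

theorem strip' (x y : GG μ) : ∃ (S : Set P) (K : ℕ),
    (∀ q k, q ∈ S → q + d k ∈ S → k ≤ K) ∧
    ∀ g ∈ Subgroup.closure {x, y⁻¹ * x * y}, Cond S g.1 := by
  obtain ⟨S, K, h1, h2⟩ := strip x.2 y.2
  refine ⟨S, K, h1, fun g hg => h2 _ ?_⟩
  have := Subgroup.mem_map_of_mem (GG μ).subtype hg
  rw [MonoidHom.map_closure] at this
  simpa [Set.image_pair] using this

theorem rot_out {S : Set P} {K : ℕ} (hK : ∀ q k, q ∈ S → q + d k ∈ S → k ≤ K) {g : Γ μ}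
    (hg : Cond S g) (hr : Rot g) (q : P) {k : ℕ} (hk : K < k) : g.r q k = 0 := by
  rw [hg.2 q k (by by_contra hc; push Not at hc; exact absurd (hK q k hc.1 hc.2) (by omega)),
    if_pos (hr.2 q)]

theorem quot_nil {H A : Type} [Group H] [CommGroup A] (f : H →* A) :
    Group.IsNilpotent (H ⧸ f.ker) :=
  Group.nilpotent_of_mulEquiv (QuotientGroup.quotientKerEquivRange f).symm

instance : Group.FG (GG μ) := Group.closure_finite_fg _

end Pool.Agent.H48.Strip
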