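import Mathlib

set_option autoImplicit false

namespace Pool.Agent.H48.ToA

open Set Filter Topology MeasureTheory
open scoped ENNReal

lemma strip (q0 p0 c ε w : ℝ) :
    volume (regionBetween (fun q => p0 - c * (q - q0) - w) (fun q => p0 - c * (q - q0) + w)
      (Icc (q0 - ε) (q0 + ε))) = ENNReal.ofReal (2 * w) * ENNReal.ofReal (2 * ε) := by
  rw [Measure.volume_eq_prod, volume_regionBetween_eq_lintegral' (by fun_prop) (by fun_prop)
    measurableSet_Icc]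
  have : ∀ y : ℝ, ((fun q => p0 - c * (q - q0) + w) - fun q => p0 - c * (q - q0) - w) y = 2 * w :=
    fun y => by simp; ring
  simp only [this, setLIntegral_const, Real.volume_Icc]
  congr 2
  ring

lemma rect_null {U : ℝ × ℝ → ℝ} {g : ℝ × ℝ → ℝ × ℝ →L[ℝ] ℝ} {s0 s1 t0 t1 : ℝ} (hs : s0 < s1)
    (hU : ∀ x ∈ Icc s0 s1 ×ˢ Icc t0 t1, HasFDerivAt U (g x) x)
    (hg : ContinuousOn g (Icc s0 s1 ×ˢ Icc t0 t1)) :
    volume ((fun a : ℝ × ℝ => (g (s0, a.1) (0, 1), g (s0, a.1) (1, 0))) ''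
      {a | a.1 ∈ Icc t0 t1 ∧ a.2 ∈ Icc t0 t1 ∧
        ∀ z ∈ segment ℝ (s0, a.1) (s1, a.2), g z = g (s0, a.1)}) = 0 := by
  set Q := Icc s0 s1 ×ˢ Icc t0 t1
  set T := {a : ℝ × ℝ | a.1 ∈ Icc t0 t1 ∧ a.2 ∈ Icc t0 t1 ∧
        ∀ z ∈ segment ℝ (s0, a.1) (s1, a.2), g z = g (s0, a.1)}
  set V := fun a : ℝ × ℝ => (g (s0, a.1) (0, 1), g (s0, a.1) (1, 0))
  have hQ : Convex ℝ Q := (convex_Icc _ _).prod (convex_Icc _ _)
  have m0 : ∀ a ∈ Icc t0 t1, (s0, a) ∈ Q := fun a ha => ⟨left_mem_Icc.2 hs.le, ha⟩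
  have m1 : ∀ a ∈ Icc t0 t1, (s1, a) ∈ Q := fun a ha => ⟨right_mem_Icc.2 hs.le, ha⟩
  have lin : ∀ (φ : ℝ × ℝ →L[ℝ] ℝ) (a b : ℝ), φ (a, b) = a * φ (1, 0) + b * φ (0, 1) := by
    intro φ a b
    rw [← smul_eq_mul, ← smul_eq_mul, ← map_smul, ← map_smul, ← map_add]
    simp
  have aff : ∀ a ∈ T, U (s1, a.2) - U (s0, a.1) =
      (s1 - s0) * (V a).2 + (a.2 - a.1) * (V a).1 := by
    intro a ha
    have := (convex_segment (s0, a.1) (s1, a.2)).norm_image_sub_le_of_norm_hasFDerivWithin_le'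
      (C := 0) (φ := g (s0, a.1))
      (fun x hx => (hU x (hQ.segment_subset (m0 _ ha.1) (m1 _ ha.2.1) hx)).hasFDerivWithinAt)
      (fun x hx => by rw [ha.2.2 x hx, sub_self, norm_zero]) (left_mem_segment _ _ _)
      (right_mem_segment _ _ _)
    rw [zero_mul, norm_le_zero_iff, sub_eq_zero, Prod.mk_sub_mk, lin] at this
    exact this
  have cross : ∀ a ∈ T, ∀ b ∈ T, a.1 < b.1 → b.2 < a.2 → V a = V b := by
    intro a ha b hb h1 h2
    have d0 : 0 < b.1 - a.1 + (a.2 - b.2) := by linarith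
    set l := (b.1 - a.1) / (b.1 - a.1 + (a.2 - b.2)) with hl
    have l0 : 0 ≤ l := div_nonneg (by linarith) d0.le
    have l1 : 0 ≤ 1 - l := sub_nonneg.2 ((div_le_one d0).2 (by linarith))
    have e : (1 - l) • ((s0, a.1) : ℝ × ℝ) + l • (s1, a.2) = (1 - l) • (s0, b.1) + l • (s1, b.2) := by
      refine Prod.ext rfl ?_
      simp only [Prod.smul_mk, Prod.mk_add_mk, smul_eq_mul, hl]
      field_simp; ring
    have e1 := ha.2.2 _ ⟨1 - l, l, l1, l0, by ring, rfl⟩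
    have e2 := hb.2.2 _ ⟨1 - l, l, l1, l0, by ring, rfl⟩
    rw [e, e2] at e1
    simp only [V, e1]
  have h0 : 0 < s1 - s0 := sub_pos.2 hs
  have key : ∀ ε > 0, volume (V '' T) ≤
      ENNReal.ofReal (ε ^ 2 * (12 * (2 * |t1 - t0| + 1) / (s1 - s0))) := by
    intro ε hε
    obtain ⟨δ, hδ, hu⟩ := Metric.uniformContinuousOn_iff.1
      ((isCompact_Icc.prod isCompact_Icc).uniformContinuousOn_of_continuous hg) ε hε
    obtain ⟨η, η0, η1, η2⟩ : ∃ η > 0, η < δ ∧ η ≤ 1 :=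
      ⟨min (δ / 2) 1, by positivity, (min_le_left _ _).trans_lt (by linarith), min_le_right _ _⟩
    have vert : ∀ s ∈ Icc s0 s1, ∀ a ∈ Icc t0 t1, ∀ b ∈ Icc t0 t1, |b - a| ≤ η →
        |U (s, b) - U (s, a) - (b - a) * g (s, a) (0, 1)| ≤ ε * |b - a| ∧
        |g (s, b) (0, 1) - g (s, a) (0, 1)| ≤ ε := by
      intro s hs a ha b hb hab
      have n1 : ‖((s, b) : ℝ × ℝ) - (s, a)‖ = |b - a| := by simp
      have mb : (s, b) ∈ Q ∩ Metric.ball (s, a) δ :=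
        ⟨⟨hs, hb⟩, by rw [Metric.mem_ball, dist_eq_norm, n1]; linarith⟩
      have bd : ∀ x ∈ Q ∩ Metric.ball (s, a) δ, ‖g x - g (s, a)‖ ≤ ε := fun x hx => by
        rw [← dist_eq_norm]; exact (hu x hx.1 _ ⟨hs, ha⟩ hx.2).le
      have := (hQ.inter (convex_ball (s, a) δ)).norm_image_sub_le_of_norm_hasFDerivWithin_le'
        (fun x hx => (hU x hx.1).hasFDerivWithinAt) bd ⟨⟨hs, ha⟩, Metric.mem_ball_self hδ⟩ mb
      rw [n1, Prod.mk_sub_mk, lin, sub_self, zero_mul, zero_add] at this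
      exact ⟨this, by simpa using (g (s, b) - g (s, a)).le_of_opNorm_le (bd _ mb) (0, 1)⟩
    set N := ⌊2 * |t1 - t0| / η⌋₊
    have cov : V '' T ⊆ ⋃ i ∈ Finset.range (N + 1),
        V '' {a ∈ T | ⌊(a.1 + a.2 - 2 * t0) / η⌋₊ = i} := by
      rintro _ ⟨a, ha, rfl⟩
      refine mem_iUnion₂.2 ⟨_, Finset.mem_range.2 (Nat.lt_succ_of_le (Nat.floor_le_floor
        (div_le_div_of_nonneg_right ?_ η0.le))), a, ⟨ha, rfl⟩, rfl⟩
      linarith [ha.1.2, ha.2.1.2, le_abs_self (t1 - t0)]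
    have each : ∀ i : ℕ, volume (V '' {a ∈ T | ⌊(a.1 + a.2 - 2 * t0) / η⌋₊ = i}) ≤
        ENNReal.ofReal (2 * (3 * ε * η / (s1 - s0))) * ENNReal.ofReal (2 * ε) := by
      intro i
      rcases {a ∈ T | ⌊(a.1 + a.2 - 2 * t0) / η⌋₊ = i}.eq_empty_or_nonempty with he | ⟨b, hb, bi⟩
      · simp [he]
      rw [← strip (V b).1 (V b).2 ((b.2 - b.1) / (s1 - s0))]
      refine measure_mono ?_
      rintro _ ⟨a, ⟨ha, ai⟩, rfl⟩
      have w0 : 0 < 3 * ε * η / (s1 - s0) := by positivity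
      by_cases hV : V a = V b
      · rw [hV]
        exact ⟨⟨by linarith, by linarith⟩, by simpa using w0, by simpa using w0⟩
      have f : ∀ c ∈ T, ⌊(c.1 + c.2 - 2 * t0) / η⌋₊ = i →
          i * η ≤ c.1 + c.2 - 2 * t0 ∧ c.1 + c.2 - 2 * t0 < (i + 1) * η := fun c hc ci => by
        rw [Nat.floor_eq_iff (div_nonneg (by linarith [hc.1.1, hc.2.1.1]) η0.le), le_div_iff₀ η0,
          div_lt_iff₀ η0] at ci
        exact ci
      have f1 := f a ha ai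
      have f2 := f b hb bi
      have f3 : |a.1 - b.1| + |a.2 - b.2| ≤ η := by
        have c1 : ¬ (a.1 < b.1 ∧ b.2 < a.2) := fun h => hV (cross a ha b hb h.1 h.2)
        have c2 : ¬ (b.1 < a.1 ∧ a.2 < b.2) := fun h => hV (cross b hb a ha h.1 h.2).symm
        rcases abs_cases (a.1 - b.1) with h | h <;> rcases abs_cases (a.2 - b.2) with h' | h' <;>
          rw [h.1, h'.1]
        · linarith
        · by_contra hc
          rcases h.2.eq_or_lt with h3 | h3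
          · linarith
          · exact c2 ⟨by linarith, by linarith⟩
        · by_contra hc
          rcases h'.2.eq_or_lt with h3 | h3
          · linarith
          · exact c1 ⟨by linarith, by linarith⟩
        · linarith
      obtain ⟨v1, v2⟩ := vert s0 (left_mem_Icc.2 hs.le) _ hb.1 _ ha.1
        (by linarith [abs_nonneg (a.2 - b.2)])
      obtain ⟨v3, -⟩ := vert s1 (right_mem_Icc.2 hs.le) _ hb.2.1 _ ha.2.1
        (by linarith [abs_nonneg (a.1 - b.1)])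
      rw [hb.2.2 _ (right_mem_segment _ _ _)] at v3
      have a1 := aff a ha
      have a2 := aff b hb
      change |(V a).1 - (V b).1| ≤ ε at v2
      change |_ - _ - _ * (V b).1| ≤ _ at v1 v3
      have e1 : (s1 - s0) * ((V a).2 - (V b).2) + (b.2 - b.1) * ((V a).1 - (V b).1) =
          (U (s1, a.2) - U (s1, b.2) - (a.2 - b.2) * (V b).1)
          - (U (s0, a.1) - U (s0, b.1) - (a.1 - b.1) * (V b).1)
          - ((a.2 - b.2) - (a.1 - b.1)) * ((V a).1 - (V b).1) := by linear_combination a2 - a1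
      have e2 : |((a.2 - b.2) - (a.1 - b.1)) * ((V a).1 - (V b).1)| ≤ η * ε := by
        rw [abs_mul]
        exact mul_le_mul ((abs_sub _ _).trans (by linarith)) v2 (abs_nonneg _) η0.le
      have e3 := mul_le_mul_of_nonneg_left f3 hε.le
      have e4 := mul_pos hε η0
      rw [abs_le] at v1 v2 v3 e2
      refine ⟨⟨by linarith, by linarith⟩, ?_, ?_⟩
      · refine lt_of_mul_lt_mul_left ?_ h0.le
        have : (s1 - s0) * ((V b).2 - (b.2 - b.1) / (s1 - s0) * ((V a).1 - (V b).1)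
            - 3 * ε * η / (s1 - s0)) = (s1 - s0) * (V b).2 - (b.2 - b.1) * ((V a).1 - (V b).1)
            - 3 * ε * η := by field_simp
        rw [this]
        linarith
      · refine lt_of_mul_lt_mul_left ?_ h0.le
        have : (s1 - s0) * ((V b).2 - (b.2 - b.1) / (s1 - s0) * ((V a).1 - (V b).1)
            + 3 * ε * η / (s1 - s0)) = (s1 - s0) * (V b).2 - (b.2 - b.1) * ((V a).1 - (V b).1)
            + 3 * ε * η := by field_simp
        rw [this]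
        linarith
    refine ((measure_mono cov).trans (measure_biUnion_finset_le _ _)).trans
      ((Finset.sum_le_card_nsmul _ _ _ fun i _ => each i).trans ?_)
    rw [Finset.card_range, nsmul_eq_mul, ← ENNReal.ofReal_natCast, ← ENNReal.ofReal_mul (by positivity),
      ← ENNReal.ofReal_mul (by positivity)]
    refine ENNReal.ofReal_le_ofReal ?_
    have n1 : (N : ℝ) * η ≤ 2 * |t1 - t0| := (le_div_iff₀ η0).1 (Nat.floor_le (by positivity))
    have e : ((N + 1 : ℕ) : ℝ) * (2 * (3 * ε * η / (s1 - s0)) * (2 * ε))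
        = ε ^ 2 * (12 * (N * η + η) / (s1 - s0)) := by push_cast; ring
    rw [e]
    gcongr
  refine nonpos_iff_eq_zero.1 (ge_of_tendsto (x := 𝓝[>] (0 : ℝ)) (f := fun ε =>
    ENNReal.ofReal (ε ^ 2 * (12 * (2 * |t1 - t0| + 1) / (s1 - s0)))) ?_
    (eventually_mem_nhdsWithin.mono key))
  refine tendsto_nhdsWithin_of_tendsto_nhds (Continuous.tendsto' ?_ _ _ (by simp))
  exact ENNReal.continuous_ofReal.comp (by fun_prop)

lemma plane_null {U : ℝ × ℝ → ℝ} {g : ℝ × ℝ → ℝ × ℝ →L[ℝ] ℝ} {W : Set (ℝ × ℝ)} (hW : IsOpen W)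
    (hU : ∀ x ∈ W, HasFDerivAt U (g x) x) (hg : ContinuousOn g W) :
    volume ((fun x => (g x (0, 1), g x (1, 0))) ''
      {x | ∃ e : ℝ × ℝ, e.1 ≠ 0 ∧ ∀ z ∈ segment ℝ x (x + e), z ∈ W ∧ g z = g x}) = 0 := by
  refine measure_mono_null ?_ (measure_iUnion_null fun c : ℚ × ℚ × ℚ × ℚ => measure_iUnion_null
    fun h : (c.1 : ℝ) < c.2.1 ∧ Icc (c.1 : ℝ) c.2.1 ×ˢ Icc (c.2.2.1 : ℝ) c.2.2.2 ⊆ W =>
    rect_null h.1 (fun x hx => hU x (h.2 hx)) (hg.mono h.2))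
  rintro _ ⟨x, ⟨e, e0, he⟩, rfl⟩
  have ms : ∀ t ∈ Icc (0 : ℝ) 1, x + t • e ∈ segment ℝ x (x + e) := fun t ht => by
    rw [segment_eq_image']; exact ⟨t, ht, by simp⟩
  obtain ⟨ρ, hρ, hb⟩ := Metric.isOpen_iff.1 hW _ (he _ (ms (1 / 2) (by norm_num))).1
  obtain ⟨t0, a1, a2⟩ := exists_rat_btwn (show x.2 + 1 / 2 * e.2 - ρ < x.2 + 1 / 2 * e.2 by linarith)
  obtain ⟨t1, a3, a4⟩ := exists_rat_btwn (show x.2 + 1 / 2 * e.2 < x.2 + 1 / 2 * e.2 + ρ by linarith)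
  have ev : ∀ᶠ s in 𝓝 (x.1 + 1 / 2 * e.1), (s - x.1) / e.1 ∈ Ioo (0 : ℝ) 1 ∧
      x.2 + (s - x.1) / e.1 * e.2 ∈ Ioo (t0 : ℝ) t1 ∧ s ∈ Metric.ball (x.1 + 1 / 2 * e.1) ρ := by
    have c : (x.1 + 1 / 2 * e.1 - x.1) / e.1 = 1 / 2 := by field_simp; ring
    refine (ContinuousAt.eventually_mem (by fun_prop) (Ioo_mem_nhds ?_ ?_)).and
      ((ContinuousAt.eventually_mem (by fun_prop) (Ioo_mem_nhds ?_ ?_)).and
        (Metric.ball_mem_nhds _ hρ)) <;> rw [c] <;> linarith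
  obtain ⟨κ, hκ, hk⟩ := Metric.eventually_nhds_iff.1 ev
  obtain ⟨s0, b1, b2⟩ := exists_rat_btwn (show x.1 + 1 / 2 * e.1 - κ < x.1 + 1 / 2 * e.1 by linarith)
  obtain ⟨s1, b3, b4⟩ := exists_rat_btwn (show x.1 + 1 / 2 * e.1 < x.1 + 1 / 2 * e.1 + κ by linarith)
  obtain ⟨c1, c2, c3⟩ := hk (y := s0) (by rw [Real.dist_eq, abs_lt]; constructor <;> linarith)
  obtain ⟨c4, c5, c6⟩ := hk (y := s1) (by rw [Real.dist_eq, abs_lt]; constructor <;> linarith)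
  have ms' : ∀ s : ℝ, (s - x.1) / e.1 ∈ Ioo (0 : ℝ) 1 →
      (s, x.2 + (s - x.1) / e.1 * e.2) ∈ segment ℝ x (x + e) := fun s h => by
    convert ms _ (Ioo_subset_Icc_self h) using 1
    refine Prod.ext ?_ rfl
    simp only [Prod.fst_add, Prod.smul_fst, smul_eq_mul]
    field_simp; ring
  rw [Metric.mem_ball, Real.dist_eq, abs_lt] at c3 c6
  refine mem_iUnion₂.2 ⟨(s0, s1, t0, t1), ⟨by simp only; linarith, fun z hz => hb ?_⟩,
    (_, _), ⟨Ioo_subset_Icc_self c2, Ioo_subset_Icc_self c5, fun z hz => ?_⟩, ?_⟩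
  · obtain ⟨⟨z1, z2⟩, z3, z4⟩ := hz
    simp only at z1 z2 z3 z4
    rw [Metric.mem_ball, Prod.dist_eq, max_lt_iff, Real.dist_eq, Real.dist_eq, abs_lt, abs_lt]
    simp only [Prod.fst_add, Prod.smul_fst, smul_eq_mul, Prod.snd_add, Prod.smul_snd]
    refine ⟨⟨?_, ?_⟩, ?_, ?_⟩ <;> linarith
  · rw [(he _ (ms' _ c1)).2]
    exact (he _ ((convex_segment _ _).segment_subset (ms' _ c1) (ms' _ c4) hz)).2
  · simp only [(he _ (ms' _ c1)).2]

theorem grad_null {U : ℝ × ℝ → ℝ} {g : ℝ × ℝ → ℝ × ℝ →L[ℝ] ℝ} {W : Set (ℝ × ℝ)} (hW : IsOpen W)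
    (hU : ∀ x ∈ W, HasFDerivAt U (g x) x) (hg : ContinuousOn g W) :
    volume ((fun x => (g x (1, 0), g x (0, 1))) ''
      {x | ∃ e : ℝ × ℝ, e ≠ 0 ∧ ∀ z ∈ segment ℝ x (x + e), z ∈ W ∧ g z = g x}) = 0 := by
  let σ : ℝ × ℝ →L[ℝ] ℝ × ℝ := ContinuousLinearEquiv.prodComm ℝ ℝ ℝ
  have h1 := (Measure.measurePreserving_swap (μ := (volume : Measure ℝ))
    (ν := volume)).quasiMeasurePreserving.preimage_null (plane_null hW hU hg)
  have h2 := plane_null (U := U ∘ σ) (g := fun x => (g (σ x)).comp σ) (hW.preimage σ.continuous)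
    (fun x hx => (hU _ hx).comp x σ.hasFDerivAt)
    ((hg.comp σ.continuous.continuousOn fun _ h => h).clm_comp continuousOn_const)
  refine measure_mono_null ?_ (measure_union_null h1 h2)
  rintro _ ⟨x, ⟨e, e0, he⟩, rfl⟩
  by_cases h : e.1 = 0
  · refine Or.inr ⟨σ x, ⟨σ e, fun h' => e0 (Prod.ext h h'), fun z hz => ?_⟩, rfl⟩
    have : σ z ∈ segment ℝ x (x + e) := by
      obtain ⟨a, b, ha, hb, hab, rfl⟩ := hz
      exact ⟨a, b, ha, hb, hab, rfl⟩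
    exact ⟨(he _ this).1, by rw [(he _ this).2]; rfl⟩
  · exact Or.inl ⟨x, ⟨e, h, he⟩, rfl⟩

end Pool.Agent.H48.ToA
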