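import Mathlib

set_option autoImplicit false

namespace Pool.Agent.H48.ToDefs

open Set MeasureTheory
open scoped Manifold Topology NNReal InnerProductSpace

abbrev E2 := EuclideanSpace ℝ (Fin 2)
abbrev E3 := EuclideanSpace ℝ (Fin 3)

variable (E : Type) [NormedAddCommGroup E] [NormedSpace ℝ E] {F : Type} [NormedAddCommGroup F]
  [InnerProductSpace ℝ F] {M : Type} [TopologicalSpace M] [ChartedSpace E M]

/-- tangent plane (as a linear plane) of the surface `r` at the point with preimage `q` -/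
def tangent (r : M → F) (q : M) : Set F :=
  range fun v : E => (mfderiv 𝓘(ℝ, E) 𝓘(ℝ, F) r q v : F)

/-- `r` is a `C¹` immersion -/
def Imm (r : M → F) : Prop :=
  ContMDiff 𝓘(ℝ, E) 𝓘(ℝ, F) 1 r ∧ ∀ q, Function.Injective (mfderiv 𝓘(ℝ, E) 𝓘(ℝ, F) r q)

/-- the segment `r p + t d`, `a ≤ t ≤ 1`, lies on the surface (it is traced by a continuous path
of preimages through `p`) and the tangent plane is constant along it -/
def Stat (r : M → F) (p : M) (a : ℝ) : Prop :=
  ∃ (γ : ℝ → M) (d : F), d ≠ 0 ∧ ContinuousOn γ (Icc a 1) ∧ γ 0 = p ∧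
    ∀ t ∈ Icc a 1, r (γ t) = r p + t • d ∧ tangent E r (γ t) = tangent E r p

/-- a stationary segment passes through every point -/
def Torse (r : M → F) : Prop := ∀ p, Stat E r p (-1)

/-- a stationary segment emanates from every point -/
def SemiTorse (r : M → F) : Prop := ∀ p, Stat E r p 0

/-- bounded extrinsic curvature in the sense of Pogorelov, for every choice of unit normals -/
def BECP [MeasurableSpace F] [BorelSpace F] (r : M → F) : Prop :=
  ∀ p, ∃ G ∈ 𝓝 p, ∃ C : ℝ≥0, ∀ n : M → F,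
    (∀ q ∈ G, ‖n q‖ = 1 ∧ ∀ w ∈ tangent E r q, ⟪n q, w⟫_ℝ = 0) →
    ∀ (k : ℕ) (H : Fin k → Set M), (∀ i, IsClosed (H i) ∧ H i ⊆ G) →
      Pairwise (fun i j => Disjoint (H i) (H j)) → ∑ i, μH[2] (n '' H i) ≤ C

end Pool.Agent.H48.ToDefs
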