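import Pool.Agent.H48.ToA
import Pool.Agent.H48.ToDefs

set_option autoImplicit false

namespace Pool.Agent.H48.ToB

open Set Filter Topology MeasureTheory Pool.Agent.H48.ToA Pool.Agent.H48.ToDefs
open scoped Manifold NNReal InnerProductSpace

lemma linalg {A : E2 →L[ℝ] E3} (hA : Function.Injective A) :
    ∃ (κ : E2 ≃L[ℝ] ℝ × ℝ) (π : E3 →L[ℝ] ℝ × ℝ) (A' : ℝ × ℝ →L[ℝ] E3) (s : E3 →L[ℝ] ℝ) (ν : E3),
      π.comp A = κ ∧ (∀ v, π (A' v) = v) ∧ π ν = 0 ∧ s ν = 1 ∧ (∀ v, s (A' v) = 0) ∧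
      ∀ w, w = A' (π w) + s w • ν := by
  let κ : E2 ≃L[ℝ] ℝ × ℝ := (EuclideanSpace.equiv _ _).trans (ContinuousLinearEquiv.finTwoArrow ℝ ℝ)
  obtain ⟨g, hg⟩ := LinearMap.exists_leftInverse_of_injective (A : E2 →ₗ[ℝ] E3)
    (LinearMap.ker_eq_bot.2 hA)
  have h1 : ∀ v, g (A v) = v := fun v => DFunLike.congr_fun hg v
  have h2 : Module.finrank ℝ (LinearMap.ker g) = 1 := by
    have := g.finrank_range_add_finrank_ker
    rw [LinearMap.range_eq_top.2 fun v => ⟨_, h1 v⟩] at this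
    simp at this
    omega
  obtain ⟨⟨ν, ν1⟩, ν0, hν⟩ := finrank_eq_one_iff'.1 h2
  have ν2 : ⟪ν, ν⟫_ℝ ≠ 0 := inner_self_ne_zero.2 fun h => ν0 (Subtype.ext h)
  have ν3 : g ν = 0 := ν1
  let G := LinearMap.toContinuousLinearMap g
  refine ⟨κ, κ ∘L G, A ∘L κ.symm, (⟪ν, ν⟫_ℝ)⁻¹ • (innerSL ℝ ν ∘L (1 - A ∘L G)), ν, ?_, ?_, ?_, ?_,
    ?_, fun w => ?_⟩
  · ext1 v; simp [G, h1]
  · simp [G, h1]
  · simp [G, ν3]
  · simp only [G, smul_apply, ContinuousLinearMap.comp_apply,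
      sub_apply, one_apply_eq_self,
      LinearMap.coe_toContinuousLinearMap', ν3, map_zero, sub_zero, innerSL_apply_apply, smul_eq_mul]
    exact inv_mul_cancel₀ ν2
  · simp [G, h1]
  · obtain ⟨c, hc⟩ := hν ⟨w - A (g w), by simp [h1]⟩
    have hc' : c • ν = w - A (g w) := congrArg Subtype.val hc
    simp only [G, smul_apply, ContinuousLinearMap.comp_apply,
      sub_apply, one_apply_eq_self,
      LinearMap.coe_toContinuousLinearMap', ← hc', innerSL_apply_apply, smul_eq_mul,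
      ContinuousLinearEquiv.coe_coe, ContinuousLinearEquiv.symm_apply_apply, inner_smul_right]
    rw [mul_comm c, inv_mul_cancel_left₀ ν2, hc', add_sub_cancel]

lemma nrm {w w' : E3} {c : ℝ} (hc : 0 < c) (h : c ≤ ‖w‖) (h' : c ≤ ‖w'‖) :
    ‖‖w‖⁻¹ • w - ‖w'‖⁻¹ • w'‖ ≤ 2 / c * ‖w - w'‖ := by
  have a := hc.trans_le h
  have b := hc.trans_le h'
  have e : ‖w‖⁻¹ • w - ‖w'‖⁻¹ • w' = ‖w‖⁻¹ • (w - w') + (‖w‖⁻¹ - ‖w'‖⁻¹) • w' := by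
    simp only [smul_sub, sub_smul]; abel
  have e2 : (‖w‖⁻¹ - ‖w'‖⁻¹) * ‖w'‖ = ‖w‖⁻¹ * (‖w'‖ - ‖w‖) := by field_simp
  rw [e]
  refine (norm_add_le _ _).trans ?_
  rw [norm_smul, norm_smul, Real.norm_eq_abs (_ - _), ← abs_norm w', ← abs_mul, abs_norm, e2, abs_mul,
    norm_inv, norm_norm, abs_of_pos (inv_pos.2 a), div_eq_mul_inv]
  have e3 := abs_norm_sub_norm_le w' w
  rw [norm_sub_rev] at e3
  nlinarith [mul_le_mul_of_nonneg_left e3 (inv_pos.2 a).le,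
    mul_le_mul_of_nonneg_right (inv_anti₀ hc h) (norm_nonneg (w - w'))]

lemma normals {π : E3 →L[ℝ] ℝ × ℝ} {A' : ℝ × ℝ →L[ℝ] E3} {s : E3 →L[ℝ] ℝ} {ν : E3}
    (h : ∀ w, w = A' (π w) + s w • ν) {Z : Set (ℝ × ℝ)} (hZ : volume Z = 0) :
    μH[2] {n : E3 | ‖n‖ = 1 ∧ ∃ z ∈ Z, ∀ v : ℝ × ℝ,
      ⟪n, A' v + (v.1 * z.1 + v.2 * z.2) • ν⟫_ℝ = 0} = 0 := by
  let T := (InnerProductSpace.toDual ℝ E3).symm
  let P : ℝ × ℝ →L[ℝ] E3 := (ContinuousLinearMap.fst ℝ ℝ ℝ).smulRight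
    (T (ContinuousLinearMap.fst ℝ ℝ ℝ ∘L π)) + (ContinuousLinearMap.snd ℝ ℝ ℝ).smulRight
    (T (ContinuousLinearMap.snd ℝ ℝ ℝ ∘L π))
  have c0 : 0 < (‖ν‖ + 1)⁻¹ := by positivity
  have hl : LipschitzOnWith (Real.toNNReal (2 / (‖ν‖ + 1)⁻¹ * ‖P‖))
      (fun z => ‖T s - P z‖⁻¹ • (T s - P z)) (Z ∩ {z | (‖ν‖ + 1)⁻¹ ≤ ‖T s - P z‖}) :=
    LipschitzOnWith.of_dist_le' fun z hz z' hz' => by
      rw [dist_eq_norm, dist_comm, dist_eq_norm, mul_assoc]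
      refine (nrm c0 hz.2 hz'.2).trans (mul_le_mul_of_nonneg_left ?_ (by positivity))
      rw [sub_sub_sub_cancel_left, ← map_sub]
      exact P.le_opNorm _
  have h0 : μH[2] (Z ∩ {z | (‖ν‖ + 1)⁻¹ ≤ ‖T s - P z‖}) = 0 := by
    rw [hausdorffMeasure_prod_real]; exact measure_mono_null inter_subset_left hZ
  have h1 := hl.hausdorffMeasure_image_le (d := 2) zero_le_two
  have h2 := (LipschitzWith.id.neg.comp_lipschitzOnWith hl).hausdorffMeasure_image_le (d := 2)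
    zero_le_two
  rw [h0, mul_zero, nonpos_iff_eq_zero] at h1 h2
  refine measure_mono_null ?_ (measure_union_null h1 h2)
  rintro n ⟨n1, z, z1, z2⟩
  have e1 : n = ⟪n, ν⟫_ℝ • (T s - P z) := ext_inner_right ℝ fun w => by
    have a1 := z2 (π w)
    have a2 : ⟪n, w⟫_ℝ = ⟪n, A' (π w) + s w • ν⟫_ℝ := by rw [← h]
    rw [inner_add_right, inner_smul_right] at a1 a2
    simp only [T, P, real_inner_smul_left, inner_sub_left, add_apply,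
      ContinuousLinearMap.smulRight_apply, inner_add_left, InnerProductSpace.toDual_symm_apply,
      ContinuousLinearMap.comp_apply, ContinuousLinearMap.coe_fst', ContinuousLinearMap.coe_snd']
    linear_combination a1 + a2
  have e2 := congrArg norm e1
  rw [n1, norm_smul, Real.norm_eq_abs] at e2
  have e3 := abs_real_inner_le_norm n ν
  rw [n1, one_mul] at e3
  have e4 : (‖ν‖ + 1)⁻¹ ≤ ‖T s - P z‖ := by
    rw [inv_le_iff_one_le_mul₀ (by positivity)]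
    nlinarith [norm_nonneg (T s - P z)]
  have e5 : ‖T s - P z‖⁻¹ = |⟪n, ν⟫_ℝ| := inv_eq_of_mul_eq_one_left e2.symm
  rcases abs_cases ⟪n, ν⟫_ℝ with a | a
  · exact Or.inl ⟨z, ⟨z1, e4⟩, by simp only [e5, a.1, ← e1]⟩
  · exact Or.inr ⟨z, ⟨z1, e4⟩, by simp [e5, a.1, ← e1]⟩

variable {M : Type} [TopologicalSpace M] [ChartedSpace E2 M] [IsManifold 𝓘(ℝ, E2) 1 M]

lemma graph {r : M → E3} (hr : Imm E2 r) (p : M) :
    ∃ (Ψ : OpenPartialHomeomorph M (ℝ × ℝ)) (π : E3 →L[ℝ] ℝ × ℝ) (A' : ℝ × ℝ →L[ℝ] E3)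
      (s : E3 →L[ℝ] ℝ) (ν : E3) (g : ℝ × ℝ → ℝ × ℝ →L[ℝ] ℝ), p ∈ Ψ.source ∧
      (∀ v, π (A' v) = v) ∧ π ν = 0 ∧ s ν = 1 ∧ (∀ v, s (A' v) = 0) ∧
      (∀ w, w = A' (π w) + s w • ν) ∧ (∀ q ∈ Ψ.source, Ψ q = π (r q)) ∧ ContinuousOn g Ψ.target ∧
      (∀ x ∈ Ψ.target, HasFDerivAt (fun x => s (r (Ψ.symm x))) (g x) x) ∧
      ∀ q ∈ Ψ.source, tangent E2 r q = range fun v => A' v + g (Ψ q) v • ν := by
  obtain ⟨κ, π, A', s, ν, k1, k2, k3, k4, k5, k6⟩ := linalg (hr.2 p)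
  set φ := chartAt E2 p
  have hφ : φ ∈ IsManifold.maximalAtlas 𝓘(ℝ, E2) 1 M := IsManifold.chart_mem_maximalAtlas _
  have hp : p ∈ φ.source := mem_chart_source _ _
  have c1 : ContDiffOn ℝ 1 (r ∘ φ.symm) φ.target := contMDiffOn_iff_contDiffOn.1
    (hr.1.comp_contMDiffOn (contMDiffOn_symm_of_mem_maximalAtlas hφ))
  have c2 : ContDiffAt ℝ 1 (π ∘ r ∘ φ.symm) (φ p) :=
    π.contDiff.contDiffAt.comp _ (c1.contDiffAt (φ.open_target.mem_nhds (φ.map_source hp)))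
  have c3 : HasFDerivAt (π ∘ r ∘ φ.symm) (κ : E2 →L[ℝ] ℝ × ℝ) (φ p) := by
    rw [← k1]
    refine π.hasFDerivAt.comp _ ?_
    have := (hr.1.mdifferentiableAt (x := p) one_ne_zero).hasMFDerivAt.2
    simp only [writtenInExtChartAt, Function.comp_def, chartAt_self_eq, mfld_simps] at this
    exact hasFDerivWithinAt_univ.1 this
  let ψ := c2.toOpenPartialHomeomorph _ c3 one_ne_zero
  obtain ⟨u, u1, u2⟩ := (c2.to_localInverse c3 one_ne_zero).contDiffOn le_rfl (by simp)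
  let Ψ := ((φ.trans ψ).symm.restrOpen (interior u) isOpen_interior).symm
  have d1 : ContMDiffOn 𝓘(ℝ, ℝ × ℝ) 𝓘(ℝ, E2) 1 Ψ.symm Ψ.target :=
    (contMDiffOn_symm_of_mem_maximalAtlas hφ).comp (contMDiffOn_iff_contDiffOn.2
      (u2.mono fun x hx => interior_subset hx.2)) fun x hx => hx.1.2
  have d2 : ContDiffOn ℝ 1 (r ∘ Ψ.symm) Ψ.target :=
    contMDiffOn_iff_contDiffOn.1 (hr.1.comp_contMDiffOn d1)
  have d3 : ∀ q ∈ Ψ.source, Ψ q = π (r q) := fun q hq => by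
    show π (r (φ.symm (φ q))) = _
    rw [φ.left_inv hq.1.1]
  have d4 : ∀ x ∈ Ψ.target, HasFDerivAt (r ∘ Ψ.symm) (fderiv ℝ (r ∘ Ψ.symm) x) x := fun x hx =>
    ((d2.contDiffAt (Ψ.open_target.mem_nhds hx)).differentiableAt one_ne_zero).hasFDerivAt
  have d5 : ∀ x ∈ Ψ.target, ∀ v, π (fderiv ℝ (r ∘ Ψ.symm) x v) = v := fun x hx v => by
    have := (π.hasFDerivAt.comp x (d4 x hx)).unique ((hasFDerivAt_id x).congr_of_eventuallyEq (by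
      filter_upwards [Ψ.open_target.mem_nhds hx] with y hy
      show π (r (Ψ.symm y)) = y
      rw [← d3 _ (Ψ.map_target hy), Ψ.right_inv hy]))
    exact DFunLike.congr_fun this v
  have d6 : ∀ x ∈ Ψ.target, ∀ v, A' v + (s ∘L fderiv ℝ (r ∘ Ψ.symm) x) v • ν
      = fderiv ℝ (r ∘ Ψ.symm) x v := fun x hx v => by
    conv_rhs => rw [k6 (fderiv ℝ (r ∘ Ψ.symm) x v), d5 x hx]
    rfl
  refine ⟨Ψ, π, A', s, ν, fun x => s ∘L fderiv ℝ (r ∘ Ψ.symm) x,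
    ⟨⟨hp, c2.mem_toOpenPartialHomeomorph_source c3 one_ne_zero⟩, mem_interior_iff_mem_nhds.2 u1⟩,
    k2, k3, k4, k5, k6, d3,
    continuousOn_const.clm_comp (d2.continuousOn_fderiv_of_isOpen Ψ.open_target le_rfl),
    fun x hx => s.hasFDerivAt.comp x (d4 x hx), fun q hq => ?_⟩
  simp only [d6 _ (Ψ.map_source hq)]
  refine Subset.antisymm ?_ ?_
  · rintro _ ⟨v, rfl⟩
    have h1 := (hr.1.mdifferentiableAt (x := q) one_ne_zero).hasMFDerivAt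
    have h2 := d4 _ (Ψ.map_source hq)
    rw [d3 q hq] at h2 ⊢
    have h3 := (((h2.comp (r q) π.hasFDerivAt).hasMFDerivAt.comp q h1).congr_of_eventuallyEq
      (f₁ := r) (by
        filter_upwards [Ψ.open_source.mem_nhds hq] with y hy
        show r y = r (Ψ.symm (π (r y)))
        rw [← d3 y hy, Ψ.left_inv hy])).mfderiv
    exact ⟨_, (DFunLike.congr_fun h3 v).symm⟩
  · rintro _ ⟨v, rfl⟩
    have hx := Ψ.map_source hq
    have h1 := hasMFDerivAt_unique (d4 _ hx).hasMFDerivAt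
      ((hr.1.mdifferentiableAt (x := Ψ.symm (Ψ q)) one_ne_zero).hasMFDerivAt.comp (Ψ q)
      ((d1.contMDiffAt (Ψ.open_target.mem_nhds hx)).mdifferentiableAt one_ne_zero).hasMFDerivAt)
    rw [← congrArg (tangent E2 r) (Ψ.left_inv hq)]
    exact ⟨_, (DFunLike.congr_fun h1 v).symm⟩

omit [IsManifold 𝓘(ℝ, E2) 1 M] in
lemma seg {r : M → E3} {Ψ : OpenPartialHomeomorph M (ℝ × ℝ)} {π : E3 →L[ℝ] ℝ × ℝ}
    {A' : ℝ × ℝ →L[ℝ] E3} {s : E3 →L[ℝ] ℝ} {ν : E3} {g : ℝ × ℝ → ℝ × ℝ →L[ℝ] ℝ}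
    (k2 : ∀ v, π (A' v) = v) (k3 : π ν = 0) (k4 : s ν = 1) (k5 : ∀ v, s (A' v) = 0)
    (d3 : ∀ q ∈ Ψ.source, Ψ q = π (r q))
    (ht : ∀ q ∈ Ψ.source, tangent E2 r q = range fun v => A' v + g (Ψ q) v • ν) {q : M}
    (hq : q ∈ Ψ.source) (h : Stat E2 r q 0) :
    ∃ e : ℝ × ℝ, e ≠ 0 ∧ ∀ z ∈ segment ℝ (Ψ q) (Ψ q + e), z ∈ Ψ.target ∧ g z = g (Ψ q) := by
  obtain ⟨γ, d, d0, γ1, γ2, γ3⟩ := h
  obtain ⟨δ, hδ, h1⟩ := Metric.mem_nhdsWithin_iff.1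
    ((γ1 0 ⟨le_rfl, zero_le_one⟩).preimage_mem_nhdsWithin (γ2 ▸ Ψ.open_source.mem_nhds hq))
  obtain ⟨τ, τ0, τ1, τ2⟩ : ∃ τ > 0, τ < δ ∧ τ ≤ 1 :=
    ⟨min (δ / 2) 1, by positivity, (min_le_left _ _).trans_lt (by linarith), min_le_right _ _⟩
  have h2 : ∀ t ∈ Icc 0 τ, γ t ∈ Ψ.source ∧ Ψ (γ t) = Ψ q + t • π d := fun t h => by
    have a : γ t ∈ Ψ.source := h1 ⟨by
      rw [Metric.mem_ball, Real.dist_eq, sub_zero, abs_of_nonneg h.1]; linarith [h.2],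
      h.1, h.2.trans τ2⟩
    exact ⟨a, by rw [d3 _ a, d3 _ hq, (γ3 t ⟨h.1, h.2.trans τ2⟩).1, map_add, map_smul]⟩
  refine ⟨τ • π d, fun h0 => ?_, fun z hz => ?_⟩
  · obtain ⟨a, b⟩ := h2 τ ⟨τ0.le, le_rfl⟩
    rw [h0, add_zero] at b
    have := (γ3 τ ⟨τ0.le, τ2⟩).1
    rw [Ψ.injOn a hq b, left_eq_add, smul_eq_zero] at this
    exact this.elim τ0.ne' d0
  · rw [segment_eq_image'] at hz
    obtain ⟨θ, hθ, rfl⟩ := hz
    have m : θ * τ ∈ Icc 0 τ := ⟨mul_nonneg hθ.1 τ0.le, mul_le_of_le_one_left τ0.le hθ.2⟩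
    obtain ⟨a, b⟩ := h2 _ m
    simp only [add_sub_cancel_left, smul_smul, ← b]
    refine ⟨Ψ.map_source a, ContinuousLinearMap.ext fun v => ?_⟩
    have c := (γ3 _ ⟨m.1, m.2.trans τ2⟩).2
    rw [ht _ a, ht _ hq] at c
    obtain ⟨w, hw⟩ : A' v + g (Ψ (γ (θ * τ))) v • ν ∈ range fun v => A' v + g (Ψ q) v • ν :=
      c ▸ ⟨v, rfl⟩
    have c1 := congrArg π hw
    have c2 := congrArg s hw
    simp only [map_add, map_smul, k2, k3, k4, k5, smul_zero, add_zero, zero_add, smul_eq_mul,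
      mul_one] at c1 c2
    rw [← c2, c1]

theorem null {r : M → E3} (hr : Imm E2 r) (h : SemiTorse E2 r) (p : M) : ∃ G ∈ 𝓝 p,
    μH[2] {n : E3 | ‖n‖ = 1 ∧ ∃ q ∈ G, ∀ w ∈ tangent E2 r q, ⟪n, w⟫_ℝ = 0} = 0 := by
  obtain ⟨Ψ, π, A', s, ν, g, hp, k2, k3, k4, k5, k6, d3, g1, g2, ht⟩ := graph hr p
  refine ⟨_, Ψ.open_source.mem_nhds hp, measure_mono_null ?_
    (normals k6 (grad_null Ψ.open_target g2 g1))⟩
  rintro n ⟨n1, q, hq, n2⟩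
  refine ⟨n1, _, ⟨Ψ q, seg k2 k3 k4 k5 d3 ht hq (h q), rfl⟩, fun v => n2 _ ?_⟩
  rw [ht q hq]
  refine ⟨v, ?_⟩
  simp only
  rw [← smul_eq_mul, ← smul_eq_mul, ← map_smul, ← map_smul, ← map_add]
  simp

theorem becp {r : M → E3} (hr : Imm E2 r) (h : SemiTorse E2 r) : BECP E2 r := by
  intro p
  obtain ⟨G, G1, G2⟩ := null hr h p
  refine ⟨G, G1, 0, fun n hn k H hH _ => le_of_eq_of_le (Finset.sum_eq_zero fun i _ =>
    measure_mono_null ?_ G2) zero_le⟩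
  rintro _ ⟨q, hq, rfl⟩
  exact ⟨(hn q ((hH i).2 hq)).1, q, (hH i).2 hq, (hn q ((hH i).2 hq)).2⟩

omit [IsManifold 𝓘(ℝ, E2) 1 M] in
lemma semi {r : M → E3} (h : Torse E2 r) : SemiTorse E2 r := fun p => by
  obtain ⟨γ, d, a, b, c, e⟩ := h p
  have : Icc (0 : ℝ) 1 ⊆ Icc (-1) 1 := Icc_subset_Icc_left (by norm_num)
  exact ⟨γ, d, a, b.mono this, c, fun t ht => e t (this ht)⟩

end Pool.Agent.H48.ToB
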