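import Mathlib

set_option autoImplicit false

namespace Pool.Agent.H48.WLoc

open Module

lemma mult_mul {M : Type*} [CommMonoidWithZero M] [IsCancelMulZero M] [WfDvdMonoid M]
    {p a b : M} (hp : Prime p) (ha : a ≠ 0) (hb : b ≠ 0) :
    multiplicity p (a * b) = multiplicity p a + multiplicity p b :=
  multiplicity_mul hp (FiniteMultiplicity.of_prime_left hp (mul_ne_zero ha hb))

lemma mult_pow {M : Type*} [CommMonoidWithZero M] [IsCancelMulZero M] [WfDvdMonoid M]
    {p a : M} (hp : Prime p) (ha : a ≠ 0) (n : ℕ) :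
    multiplicity p (a ^ n) = n * multiplicity p a :=
  (FiniteMultiplicity.of_prime_left hp ha).multiplicity_pow hp

section ideal

variable {A B : Type*} [CommRing A] [CommRing B] [IsDedekindDomain A] [IsDedekindDomain B]
  [Algebra A B] [Module.Finite A B] [IsTorsionFree A B] [PerfectField (FractionRing A)]

theorem mult_relNorm (p : Ideal A) [hpm : p.IsMaximal] (hp0 : p ≠ ⊥) (I : Ideal B) (hI : I ≠ ⊥) :
    multiplicity p (Ideal.relNorm A I) =
      ∑ P ∈ (IsDedekindDomain.primesOver_finite p B).toFinset,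
        P.inertiaDeg A * multiplicity P I := by
  classical
  have hp : Prime p := Ideal.prime_of_isPrime hp0 inferInstance
  have hPP : ∀ P ∈ (IsDedekindDomain.primesOver_finite p B).toFinset, Prime P := by
    intro P hP
    rw [Set.Finite.mem_toFinset] at hP
    have := hP.1
    have := hP.2
    exact Ideal.prime_of_isPrime (Ideal.ne_bot_of_liesOver_of_ne_bot hp0 P) inferInstance
  induction I using UniqueFactorizationMonoid.induction_on_prime with
  | h₁ => exact absurd rfl hI
  | h₂ x hx =>
    rw [multiplicity_of_isUnit_right hp.not_isUnit (hx.map _)]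
    symm
    refine Finset.sum_eq_zero fun P hP => ?_
    rw [multiplicity_of_isUnit_right (hPP P hP).not_isUnit hx, mul_zero]
  | h₃ J Q hJ hQ ih =>
    have hQ0 : Q ≠ ⊥ := hQ.ne_zero
    have hQp : Q.IsPrime := Ideal.isPrime_of_prime hQ
    have hQm : Q.IsMaximal := Ring.DimensionLEOne.maximalOfPrime hQ0 hQp
    have hq0 : Q.under A ≠ ⊥ := Ideal.under_ne_bot A hQ0
    have hqm : (Q.under A).IsMaximal := Ideal.IsMaximal.under A Q
    have hq : Prime (Q.under A) := Ideal.prime_of_isPrime hq0 inferInstance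
    rw [map_mul, mult_mul hp (by simpa using hQ0) (by simpa using hJ), ih hJ,
      Ideal.relNorm_eq_pow_of_isMaximal Q (Q.under A), mult_pow hp hq.ne_zero]
    have e : ∀ P ∈ (IsDedekindDomain.primesOver_finite p B).toFinset,
        P.inertiaDeg A * multiplicity P (Q * J) =
        (if Q = P then P.inertiaDeg A else 0) + P.inertiaDeg A * multiplicity P J := by
      intro P hP
      rw [mult_mul (hPP P hP) hQ.ne_zero hJ, mul_add]
      congr 1
      split_ifs with h
      · rw [h, multiplicity_self, mul_one]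
      · rw [multiplicity_eq_zero.mpr, mul_zero]
        intro hd
        exact h (associated_iff_eq.mp ((hPP P hP).associated_of_dvd hQ hd)).symm
    rw [Finset.sum_congr rfl e, Finset.sum_add_distrib, Finset.sum_ite_eq]
    congr 1
    split_ifs with h
    · rw [Set.Finite.mem_toFinset] at h
      have := h.2
      rw [← Ideal.over_def Q p, multiplicity_self, mul_one]
    · rw [multiplicity_eq_zero.mpr, mul_zero]
      intro hd
      apply h
      rw [Set.Finite.mem_toFinset]
      exact ⟨hQp, ⟨associated_iff_eq.mp (hp.associated_of_dvd hq hd)⟩⟩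

end ideal

open IsDedekindDomain in
theorem loc_aux {A F L B : Type} [CommRing A] [IsDomain A] [IsPrincipalIdealRing A] [Field F]
    [CharZero F]
    [Field L] [Algebra A F] [IsFractionRing A F] [Algebra F L] [Algebra A L] [IsScalarTower A F L]
    [FiniteDimensional F L] [CommRing B] [IsDedekindDomain B] [Algebra A B] [Algebra B L]
    [IsScalarTower A B L] [IsIntegralClosure B A L] [IsFractionRing B L] [Module.Finite A B]
    [IsTorsionFree A B]
    (π : A) (hπ : Prime π) (γ : L) (hγ : γ ≠ 0)
    (H : ∀ (O : ValuationSubring L) (κ : Type) [Field κ] [Algebra (A ⧸ Ideal.span {π}) κ]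
      (ρ : O →+* κ) (φ : A →+* O), (∀ a, (φ a : L) = algebraMap A L a) →
      (∀ a, ρ (φ a) = algebraMap (A ⧸ Ideal.span {π}) κ (Ideal.Quotient.mk _ a)) →
      (∀ x : O, ρ x ≠ 0 → (x : L)⁻¹ ∈ O) → Odd (finrank (A ⧸ Ideal.span {π}) κ) →
      ∃ (c : L) (x : O), (x : L) = γ * c ^ 2 ∧ ρ x ≠ 0) :
    ∃ (e : F) (a : A), ¬ π ∣ a ∧ Algebra.norm F γ * e ^ 2 = algebraMap A F a := by
  classical
  have : CharZero A := (algebraMap A F).charZero
  have : CharZero (FractionRing A) := IsFractionRing.charZero A
  have hinjAF := IsFractionRing.injective A F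
  have hinjBL := IsFractionRing.injective B L
  set p : Ideal A := Ideal.span {π} with hpdef
  have hp0 : p ≠ ⊥ := by simpa [hpdef] using hπ.ne_zero
  have hpm : p.IsMaximal := PrincipalIdealRing.isMaximal_of_irreducible hπ.irreducible
  have hp : Prime p := Ideal.prime_of_isPrime hp0 inferInstance
  -- make `γ` integral
  have halg : IsAlgebraic A γ :=
    (IsFractionRing.isAlgebraic_iff A F L).mpr (Algebra.IsAlgebraic.isAlgebraic γ)
  obtain ⟨a₀, ha₀, hint⟩ := halg.exists_integral_multiple
  have ha₀L : algebraMap A L a₀ ≠ 0 := by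
    rw [IsScalarTower.algebraMap_apply A F L]
    simpa using ha₀
  obtain ⟨β₀, hβ₀⟩ := (IsIntegralClosure.isIntegral_iff (A := B)).mp hint
  obtain ⟨β, hβ⟩ : ∃ β : B, algebraMap B L β = γ * (algebraMap A L a₀) ^ 2 := by
    refine ⟨algebraMap A B a₀ * β₀, ?_⟩
    rw [map_mul, hβ₀, ← IsScalarTower.algebraMap_apply, Algebra.smul_def]; ring
  have hβ0 : β ≠ 0 := by
    intro h
    rw [h, map_zero] at hβ
    exact mul_ne_zero hγ (pow_ne_zero 2 ha₀L) hβ.symm
  have hI : Ideal.span {β} ≠ ⊥ := by simpa using hβ0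
  have hm := mult_relNorm p hp0 (Ideal.span {β}) hI
  rw [Ideal.relNorm_singleton] at hm
  have hev : Even (multiplicity p (Ideal.span {Algebra.intNorm A B β})) := by
    rw [hm]
    refine Finset.even_sum _ fun P hP => ?_
    rw [Set.Finite.mem_toFinset] at hP
    have hPp := hP.1
    have hPo := hP.2
    have hP0 : P ≠ ⊥ := Ideal.ne_bot_of_liesOver_of_ne_bot hp0 P
    have hPm : P.IsMaximal := Ring.DimensionLEOne.maximalOfPrime hP0 hPp
    have hPpr : Prime P := Ideal.prime_of_isPrime hP0 hPp
    rcases Nat.even_or_odd (P.inertiaDeg A) with he | ho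
    · exact he.mul_right _
    refine Even.mul_left ?_ _
    let v : HeightOneSpectrum B := ⟨P, hPp, hP0⟩
    let O := v.valuationSubringAtPrime L
    have hloc : IsLocalization v.asIdeal.primeCompl O :=
      Localization.subalgebra.isLocalization_ofField L (v.asIdeal.primeCompl) _
    let : Field (B ⧸ P) := Ideal.Quotient.field P
    have hu : ∀ y : v.asIdeal.primeCompl, IsUnit (Ideal.Quotient.mk P y) := by
      intro y
      rw [isUnit_iff_ne_zero, Ne, Ideal.Quotient.eq_zero_iff_mem]
      exact y.2
    let ρ : O →+* B ⧸ P := IsLocalization.lift (M := v.asIdeal.primeCompl) hu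
    have hρ : ∀ b : B, ρ (algebraMap B O b) = Ideal.Quotient.mk P b :=
      fun b => IsLocalization.lift_eq hu b
    have hOL : ∀ b : B, ((algebraMap B O b : O) : L) = algebraMap B L b :=
      fun b => (IsScalarTower.algebraMap_apply B O L b).symm
    have hsurj : ∀ x : O, ρ x ≠ 0 → ∃ n d : B, n ∉ P ∧ d ∉ P ∧
        (x : L) * algebraMap B L d = algebraMap B L n := by
      intro x hx
      obtain ⟨⟨n, d⟩, hnd⟩ := IsLocalization.surj v.asIdeal.primeCompl x
      simp only at hnd
      refine ⟨n, d, ?_, d.2, ?_⟩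
      · intro hn
        have := congrArg ρ hnd
        rw [map_mul, hρ, hρ, Ideal.Quotient.eq_zero_iff_mem.mpr hn] at this
        exact mul_ne_zero hx (hu d).ne_zero this
      · have := congrArg (fun z : O => (z : L)) hnd
        simpa [hOL] using this
    obtain ⟨c, x, hx, hx0⟩ := H O (B ⧸ P) ρ ((algebraMap B O).comp (algebraMap A B))
      (fun a => by
        rw [RingHom.comp_apply, hOL, ← IsScalarTower.algebraMap_apply])
      (fun a => by
        rw [RingHom.comp_apply, hρ]; rfl)
      (fun x hx => by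
        obtain ⟨n, d, hn, hd, e⟩ := hsurj x hx
        have hnu : IsUnit (algebraMap B O n) :=
          IsLocalization.map_units O (⟨n, hn⟩ : v.asIdeal.primeCompl)
        obtain ⟨u, hu'⟩ := hnu.exists_right_inv
        have h1 : algebraMap B L n * (u : L) = 1 := by
          have := congrArg (fun z : O => (z : L)) hu'
          simpa [hOL] using this
        have h2 : (x : L)⁻¹ = ((algebraMap B O d * u : O) : L) := by
          symm
          apply eq_inv_of_mul_eq_one_right
          push_cast
          rw [hOL, ← mul_assoc, e, h1]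
        rw [h2]
        exact SetLike.coe_mem _)
      (by rwa [← Ideal.inertiaDeg_eq_of_isMaximal p P])
    obtain ⟨n, d, hn, hd, e⟩ := hsurj x hx0
    have hn0 : n ≠ 0 := fun h => hn (h ▸ P.zero_mem)
    have hd0 : d ≠ 0 := fun h => hd (h ▸ P.zero_mem)
    obtain ⟨c₁, c₂, hc₂, hc⟩ := IsFractionRing.div_surjective (A := B) (c / algebraMap A L a₀)
    have hc₂0 : c₂ ≠ 0 := nonZeroDivisors.ne_zero hc₂
    have hc₂L : algebraMap B L c₂ ≠ 0 := by simpa using hc₂0
    have key : β * c₁ ^ 2 * d = n * c₂ ^ 2 := by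
      apply hinjBL
      rw [map_mul, map_mul, map_mul, map_pow, map_pow, hβ, ← e, hx]
      have : algebraMap B L c₁ = c / algebraMap A L a₀ * algebraMap B L c₂ := by
        rw [← hc]; field_simp
      rw [this]
      field_simp
    have hc₁0 : c₁ ≠ 0 := by
      intro h
      rw [h] at key
      simp only [ne_eq, OfNat.ofNat_ne_zero, not_false_eq_true, zero_pow, mul_zero,
        zero_mul] at key
      exact mul_ne_zero hn0 (pow_ne_zero 2 hc₂0) key.symm
    have key2 : Ideal.span {β} * Ideal.span {c₁} ^ 2 * Ideal.span {d} =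
        Ideal.span {n} * Ideal.span {c₂} ^ 2 := by
      rw [Ideal.span_singleton_pow, Ideal.span_singleton_pow, Ideal.span_singleton_mul_span_singleton,
        Ideal.span_singleton_mul_span_singleton, Ideal.span_singleton_mul_span_singleton, key]
    have s0 : ∀ b : B, b ≠ 0 → Ideal.span {b} ≠ 0 := fun b hb => by simpa using hb
    have m0 : ∀ b : B, b ∉ P → multiplicity P (Ideal.span {b}) = 0 := fun b hb =>
      multiplicity_eq_zero.mpr (by rwa [Ideal.dvd_span_singleton])
    have key3 := congrArg (multiplicity P) key2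
    rw [mult_mul hPpr (mul_ne_zero (s0 _ hβ0) (pow_ne_zero 2 (s0 _ hc₁0))) (s0 _ hd0),
      mult_mul hPpr (s0 _ hβ0) (pow_ne_zero 2 (s0 _ hc₁0)),
      mult_mul hPpr (s0 _ hn0) (pow_ne_zero 2 (s0 _ hc₂0)), mult_pow hPpr (s0 _ hc₁0),
      mult_pow hPpr (s0 _ hc₂0), m0 _ hn, m0 _ hd] at key3
    rw [Nat.even_iff]
    omega
  have hn0 : Algebra.intNorm A B β ≠ 0 := by simpa using hβ0
  have hmm : multiplicity p (Ideal.span {Algebra.intNorm A B β}) =
      multiplicity π (Algebra.intNorm A B β) :=
    multiplicity_eq_of_emultiplicity_eq Ideal.emultiplicity_eq_emultiplicity_span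
  rw [hmm] at hev
  obtain ⟨a, ha, hpa⟩ := (FiniteMultiplicity.of_prime_left hπ hn0).exists_eq_pow_mul_and_not_dvd
  obtain ⟨m, hm2⟩ := hev
  refine ⟨algebraMap A F a₀ ^ finrank F L / algebraMap A F π ^ m, a, hpa, ?_⟩
  have h1 := Algebra.algebraMap_intNorm (A := A) (K := F) (L := L) (B := B) β
  rw [hβ, map_mul, map_pow, IsScalarTower.algebraMap_apply A F L, Algebra.norm_algebraMap, ha, hm2,
    map_mul, map_pow] at h1
  have hπF : algebraMap A F π ≠ 0 := by simpa using hπ.ne_zero
  field_simp
  linear_combination -h1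

/-- Local parity lemma for the norm. -/
theorem loc {A F L : Type} [CommRing A] [IsDomain A] [IsPrincipalIdealRing A] [Field F] [CharZero F]
    [Field L] [Algebra A F] [IsFractionRing A F] [Algebra F L] [Algebra A L] [IsScalarTower A F L]
    [FiniteDimensional F L] (π : A) (hπ : Prime π) (γ : L) (hγ : γ ≠ 0)
    (H : ∀ (O : ValuationSubring L) (κ : Type) [Field κ] [Algebra (A ⧸ Ideal.span {π}) κ]
      (ρ : O →+* κ) (φ : A →+* O), (∀ a, (φ a : L) = algebraMap A L a) →
      (∀ a, ρ (φ a) = algebraMap (A ⧸ Ideal.span {π}) κ (Ideal.Quotient.mk _ a)) →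
      (∀ x : O, ρ x ≠ 0 → (x : L)⁻¹ ∈ O) → Odd (finrank (A ⧸ Ideal.span {π}) κ) →
      ∃ (c : L) (x : O), (x : L) = γ * c ^ 2 ∧ ρ x ≠ 0) :
    ∃ (e : F) (a : A), ¬ π ∣ a ∧ Algebra.norm F γ * e ^ 2 = algebraMap A F a := by
  have : IsDedekindDomain (integralClosure A L) := integralClosure.isDedekindDomain A F L
  have : IsFractionRing (integralClosure A L) L :=
    integralClosure.isFractionRing_of_finite_extension F L
  have : Module.Finite A (integralClosure A L) := IsIntegralClosure.finite A F L _
  have : IsTorsionFree A L := IsTorsionFree.trans_faithfulSMul A F L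
  have : IsTorsionFree A (integralClosure A L) := IsIntegralClosure.isTorsionFree A L
  exact loc_aux (B := integralClosure A L) π hπ γ hγ H

end Pool.Agent.H48.WLoc
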