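import Mathlib
import Pool.Agent.H48.WLoc

set_option autoImplicit false

namespace Pool.Agent.H48.WPar

open Module Polynomial IntermediateField

/-- A `k`-place of `L` whose residue field has odd degree over `k`. -/
structure Place (k L : Type) [Field k] [Field L] [Algebra k L] : Type 1 where
  O : ValuationSubring L
  κ : Type
  [fκ : Field κ]
  [aκ : Algebra k κ]
  ρ : O →+* κ
  φ : k →+* O
  hφ : ∀ a, (φ a : L) = algebraMap k L a
  hρ : ∀ a, ρ (φ a) = algebraMap k κ a
  loc : ∀ x : O, ρ x ≠ 0 → (x : L)⁻¹ ∈ O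
  odd : Odd (finrank k κ)

attribute [instance] Place.fκ Place.aκ

/-- `γ` has even value at the place. -/
def Place.Ev {k L : Type} [Field k] [Field L] [Algebra k L] (pl : Place k L) (γ : L) : Prop :=
  ∃ (c : L) (x : pl.O), (x : L) = γ * c ^ 2 ∧ pl.ρ x ≠ 0

theorem loc_poly {k F L : Type} [Field k] [CharZero k] [Field F] [Field L] [Algebra k F]
    [Algebra F L] [Algebra k L] [IsScalarTower k F L] [FiniteDimensional F L] (T : F)
    (hT : Transcendental k T) (hgen : k⟮T⟯ = ⊤) (π : k[X]) (hπ : Irreducible π)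
    (hodd : Odd π.natDegree) (γ : L) (hγ : γ ≠ 0)
    (H : ∀ (pl : Place k L) (x : pl.O), (x : L) = algebraMap F L T → (π = X → pl.ρ x = 0) →
      pl.Ev γ) :
    ∃ (e : F) (a : k[X]), ¬ π ∣ a ∧ Algebra.norm F γ * e ^ 2 = aeval T a := by
  have : CharZero F := (algebraMap k F).charZero_iff (algebraMap k F).injective |>.mp inferInstance
  let : Algebra k[X] F := (aeval T : k[X] →ₐ[k] F).toRingHom.toAlgebra
  let : Algebra k[X] L := ((algebraMap F L).comp (aeval T : k[X] →ₐ[k] F).toRingHom).toAlgebra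
  have : IsScalarTower k[X] F L := IsScalarTower.of_algebraMap_eq fun _ => rfl
  have hinj : Function.Injective (algebraMap k[X] F) := transcendental_iff_injective.mp hT
  have : FaithfulSMul k[X] F := (faithfulSMul_iff_algebraMap_injective _ _).mpr hinj
  have : IsFractionRing k[X] F := IsFractionRing.of_field k[X] F fun z =>
    (mem_adjoin_simple_iff k z).mp (hgen ▸ mem_top)
  refine WLoc.loc π hπ.prime γ hγ ?_
  intro O κ _ _ ρ φ h1 h2 h3 h4
  let : Algebra k κ := ((algebraMap (k[X] ⧸ Ideal.span {π}) κ).comp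
    (algebraMap k (k[X] ⧸ Ideal.span {π}))).toAlgebra
  have : IsScalarTower k (k[X] ⧸ Ideal.span {π}) κ :=
    IsScalarTower.of_algebraMap_eq (R := k) (S := k[X] ⧸ Ideal.span {π}) (A := κ) fun _ => rfl
  have : (Ideal.span {π}).IsMaximal := PrincipalIdealRing.isMaximal_of_irreducible hπ
  have hfr : finrank k κ = π.natDegree * finrank (k[X] ⧸ Ideal.span {π}) κ := by
    let : Field (k[X] ⧸ Ideal.span {π}) := Ideal.Quotient.field _
    rw [← Module.finrank_mul_finrank k (k[X] ⧸ Ideal.span {π}) κ,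
      finrank_quotient_span_eq_natDegree]
  let pl : Place k L :=
    { O := O
      κ := κ
      ρ := ρ
      φ := φ.comp C
      hφ := fun a => by
        rw [RingHom.comp_apply, h1]
        change algebraMap F L (aeval T (C a)) = _
        rw [aeval_C, ← IsScalarTower.algebraMap_apply]
      hρ := fun a => by
        rw [RingHom.comp_apply, h2]
        rfl
      loc := h3
      odd := by rw [hfr]; exact hodd.mul h4 }
  refine H pl (φ X) ?_ ?_
  · rw [h1]
    change algebraMap F L (aeval T X) = _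
    rw [aeval_X]
  · intro hX
    change ρ (φ X) = 0
    rw [h2, Ideal.Quotient.eq_zero_iff_mem.mpr (by rw [hX]; exact Ideal.mem_span_singleton_self _),
      map_zero]

theorem odd_factor {k : Type} [Field k] (g : k[X]) (hg : g ≠ 0) (hodd : Odd g.natDegree) :
    ∃ π : k[X], Irreducible π ∧ Odd π.natDegree ∧ Odd (multiplicity π g) := by
  induction hn : g.natDegree using Nat.strong_induction_on generalizing g with
  | _ n ih =>
    have hu : ¬ IsUnit g := by
      intro hu
      rw [natDegree_eq_zero_of_isUnit hu] at hodd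
      exact absurd hodd (by decide)
    obtain ⟨π, hπ, hπg⟩ := WfDvdMonoid.exists_irreducible_factor hu hg
    obtain ⟨h, hh, hπh⟩ :=
      (FiniteMultiplicity.of_prime_left hπ.prime hg).exists_eq_pow_mul_and_not_dvd
    have hh0 : h ≠ 0 := by
      rintro rfl
      exact hπh (dvd_zero _)
    have hm : 0 < multiplicity π g := multiplicity_pos_of_dvd hπg
    have hd : g.natDegree = multiplicity π g * π.natDegree + h.natDegree := by
      conv_lhs => rw [hh]
      rw [natDegree_mul (pow_ne_zero _ hπ.ne_zero) hh0, natDegree_pow]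
    by_cases ho : Odd (multiplicity π g * π.natDegree)
    · rw [Nat.odd_mul] at ho
      exact ⟨π, hπ, ho.2, ho.1⟩
    · have hho : Odd h.natDegree := by
        rw [Nat.not_odd_iff_even] at ho
        rw [hd, Nat.odd_add'] at hodd
        exact hodd.mpr ho
      have hpos : 0 < π.natDegree := hπ.natDegree_pos
      have hlt : h.natDegree < n := by
        rw [← hn, hd]
        have := Nat.mul_pos hm hpos
        omega
      obtain ⟨π', h1, h2, h3⟩ := ih _ hlt h hh0 hho rfl
      refine ⟨π', h1, h2, ?_⟩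
      have hdv : π' ∣ h := dvd_of_multiplicity_pos h3.pos
      have hnd : ¬ π' ∣ π := by
        intro hd'
        exact hπh ((h1.associated_of_dvd hπ hd').symm.dvd.trans hdv)
      rw [hh, WLoc.mult_mul h1.prime (pow_ne_zero _ hπ.ne_zero) hh0,
        WLoc.mult_pow h1.prime hπ.ne_zero, multiplicity_eq_zero.mpr hnd, mul_zero, zero_add]
      exact h3

theorem par_aux {k F L : Type} [Field k] [CharZero k] [Field F] [Field L] [Algebra k F]
    [Algebra F L] [Algebra k L] [IsScalarTower k F L] (T : F)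
    (hT : Transcendental k T) (hgen : k⟮T⟯ = ⊤) (hodd : Odd (finrank F L)) (γ : L) (hγ : γ ≠ 0)
    (H1 : ∀ (pl : Place k L) (x : pl.O), (x : L) = algebraMap F L T → pl.Ev γ)
    (H2 : ∀ (pl : Place k L) (x : pl.O), (x : L) = (algebraMap F L T)⁻¹ → pl.ρ x = 0 →
      pl.Ev (algebraMap F L T * γ)) : False := by
  have : FiniteDimensional F L := Module.finite_of_finrank_pos hodd.pos
  have hinj : Function.Injective (aeval T : k[X] →ₐ[k] F) := transcendental_iff_injective.mp hT
  have hT0 : T ≠ 0 := by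
    rintro rfl
    exact hT isAlgebraic_zero
  have hfrac : ∀ z : F, ∃ r s : k[X], s ≠ 0 ∧ z * aeval T s = aeval T r := by
    intro z
    obtain ⟨r, s, h⟩ := (mem_adjoin_simple_iff k z).mp (hgen ▸ mem_top)
    by_cases hs : s = 0
    · refine ⟨0, 1, one_ne_zero, ?_⟩
      rw [h, hs]; simp
    · refine ⟨r, s, hs, ?_⟩
      have : aeval T s ≠ 0 := (map_ne_zero_iff _ hinj).mpr hs
      rw [h]; field_simp
  have hN : Algebra.norm F γ ≠ 0 := Algebra.norm_ne_zero_iff.mpr hγ
  obtain ⟨p, q, hq, hpq⟩ := hfrac (Algebra.norm F γ)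
  have hqT : aeval T q ≠ 0 := (map_ne_zero_iff _ hinj).mpr hq
  have hp : p ≠ 0 := by
    rintro rfl
    rw [map_zero] at hpq
    exact mul_ne_zero hN hqT hpq
  have hg : p * q ≠ 0 := mul_ne_zero hp hq
  have hNg : Algebra.norm F γ * aeval T q ^ 2 = aeval T (p * q) := by
    rw [map_mul, ← hpq]; ring
  generalize p * q = g at hg hNg
  have heven : Even g.natDegree := by
    by_contra ho
    rw [Nat.not_even_iff_odd] at ho
    obtain ⟨π, hπ, h1, h2⟩ := odd_factor g hg ho
    obtain ⟨e, a, hπa, he⟩ := loc_poly T hT hgen π hπ h1 γ hγ (fun pl x hx _ => H1 pl x hx)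
    obtain ⟨e₁, e₂, he₂, he12⟩ := hfrac e
    have ha : a ≠ 0 := by
      rintro rfl
      exact hπa (dvd_zero _)
    have key : g * e₁ ^ 2 = a * (q * e₂) ^ 2 := by
      apply hinj
      simp only [map_mul, map_pow]
      rw [← hNg, ← he12, ← he]; ring
    have he₁ : e₁ ≠ 0 := by
      rintro rfl
      simp only [ne_eq, OfNat.ofNat_ne_zero, not_false_eq_true, zero_pow, mul_zero] at key
      exact mul_ne_zero ha (pow_ne_zero 2 (mul_ne_zero hq he₂)) key.symm
    have := congrArg (multiplicity π) key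
    rw [WLoc.mult_mul hπ.prime hg (pow_ne_zero 2 he₁), WLoc.mult_pow hπ.prime he₁,
      WLoc.mult_mul hπ.prime ha (pow_ne_zero 2 (mul_ne_zero hq he₂)),
      WLoc.mult_pow hπ.prime (mul_ne_zero hq he₂), multiplicity_eq_zero.mpr hπa] at this
    rw [Nat.odd_iff] at h2
    omega
  have hT' : Transcendental k T⁻¹ := fun h => hT (IsAlgebraic.inv_iff.mp h)
  have hgen' : k⟮T⁻¹⟯ = ⊤ := by
    rw [eq_top_iff, ← hgen, adjoin_simple_le_iff]
    have := inv_mem (mem_adjoin_simple_self k T⁻¹)
    rwa [inv_inv] at this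
  have hTL : algebraMap F L T ≠ 0 := by simpa using hT0
  obtain ⟨e, a, hXa, he⟩ := loc_poly T⁻¹ hT' hgen' X irreducible_X (by simp)
    (algebraMap F L T * γ) (mul_ne_zero hTL hγ)
    (fun pl x hx h0 => H2 pl x (by rw [hx, map_inv₀]) (h0 rfl))
  rw [map_mul, Algebra.norm_algebraMap] at he
  obtain ⟨e₁, e₂, he₂, he12⟩ := hfrac e
  have ha0 : a.coeff 0 ≠ 0 := by rwa [X_dvd_iff] at hXa
  have ha : a ≠ 0 := by
    rintro rfl
    exact ha0 rfl
  have hrev : aeval T⁻¹ a * T ^ a.natDegree = aeval T a.reverse := by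
    let := invertibleOfNonzero (inv_ne_zero hT0)
    have := eval₂_reverse_mul_pow (algebraMap k F) T⁻¹ a
    rw [invOf_eq_inv, inv_inv] at this
    rw [aeval_def, aeval_def, ← this, mul_assoc, ← mul_pow, inv_mul_cancel₀ hT0, one_pow, mul_one]
  have hrd : a.reverse.natDegree = a.natDegree := by
    rw [reverse_natDegree, natTrailingDegree_eq_zero.mpr (Or.inr ha0), Nat.sub_zero]
  have hr0 : a.reverse ≠ 0 := by simpa using ha
  have key : X ^ (finrank F L + a.natDegree) * g * e₁ ^ 2 = a.reverse * (q * e₂) ^ 2 := by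
    apply hinj
    simp only [map_mul, map_pow, aeval_X]
    rw [← hNg, ← he12, ← hrev, ← he]; ring
  have he₁ : e₁ ≠ 0 := by
    rintro rfl
    simp only [ne_eq, OfNat.ofNat_ne_zero, not_false_eq_true, zero_pow, mul_zero] at key
    exact mul_ne_zero hr0 (pow_ne_zero 2 (mul_ne_zero hq he₂)) key.symm
  have := congrArg natDegree key
  rw [natDegree_mul (mul_ne_zero (pow_ne_zero _ X_ne_zero) hg) (pow_ne_zero 2 he₁),
    natDegree_mul (pow_ne_zero _ X_ne_zero) hg, natDegree_X_pow, natDegree_pow,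
    natDegree_mul hr0 (pow_ne_zero 2 (mul_ne_zero hq he₂)), natDegree_pow, hrd] at this
  rw [Nat.odd_iff] at hodd
  rw [Nat.even_iff] at heven
  omega

/-- The parity lemma. -/
theorem par {k L : Type} [Field k] [CharZero k] [Field L] [Algebra k L]
    [Algebra (RatFunc k) L] [IsScalarTower k (RatFunc k) L] (hodd : Odd (finrank (RatFunc k) L))
    (γ : L)
    (H1 : ∀ (pl : Place k L) (x : pl.O), (x : L) = algebraMap (RatFunc k) L RatFunc.X → pl.Ev γ)
    (H2 : ∀ (pl : Place k L) (x : pl.O), (x : L) = (algebraMap (RatFunc k) L RatFunc.X)⁻¹ →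
      pl.ρ x = 0 → pl.Ev (algebraMap (RatFunc k) L RatFunc.X * γ)) : False := by
  by_cases hγ : γ = 0
  · refine par_aux RatFunc.X RatFunc.transcendental_X RatFunc.adjoin_X hodd 1 one_ne_zero
      (fun pl _ _ => ⟨1, 1, by simp, by simp⟩) (fun pl x hx h0 => ?_)
    obtain ⟨c, z, hz, hz0⟩ := H2 pl x hx h0
    rw [hγ, mul_zero, zero_mul] at hz
    have : z = 0 := Subtype.ext hz
    rw [this, map_zero] at hz0
    exact absurd rfl hz0
  · exact par_aux RatFunc.X RatFunc.transcendental_X RatFunc.adjoin_X hodd γ hγ H1 H2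

/-- Existence of a place with odd residue degree. -/
theorem ex {k L : Type} [Field k] [CharZero k] [Field L] [Algebra k L]
    [Algebra (RatFunc k) L] [IsScalarTower k (RatFunc k) L] (hodd : Odd (finrank (RatFunc k) L)) :
    Nonempty (Place k L) := by
  by_contra h
  exact par (k := k) hodd 1 (fun pl _ _ => absurd ⟨pl⟩ h) (fun pl _ _ _ => absurd ⟨pl⟩ h)

end Pool.Agent.H48.WPar
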