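import Mathlib
import Pool.Agent.H48.WPar

set_option autoImplicit false

namespace Pool.Agent.H48.WSos

open Module

lemma sos_sq {E : Type*} [CommRing E] (a : E) : IsSumSq (a ^ 2) := by
  rw [sq]; exact IsSumSq.mul_self a

lemma sos_inv {E : Type*} [Field E] {s : E} (h : IsSumSq s) : IsSumSq s⁻¹ := by
  by_cases h0 : s = 0
  · rw [h0, inv_zero]; exact IsSumSq.zero
  · have : s⁻¹ = s * (s⁻¹ * s⁻¹) := by field_simp
    rw [this]
    exact h.mul (IsSumSq.mul_self _)

lemma sos_map {R S : Type*} [CommRing R] [CommRing S] (f : R →+* S) {s : R} (h : IsSumSq s) :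
    IsSumSq (f s) := by
  induction h with
  | zero => rw [map_zero]; exact IsSumSq.zero
  | sq_add a _ ih => rw [map_add, map_mul]; exact IsSumSq.sq_add _ ih

lemma sos_three {E : Type*} [CommRing E] : IsSumSq (3 : E) := by
  have := IsSumSq.natCast (R := E) 3
  exact_mod_cast this

lemma add_zero_left {E : Type*} [Field E] (hr : ¬ IsSumSq (-1 : E)) {s t : E} (hs : IsSumSq s)
    (ht : IsSumSq t) (h : s + t = 0) : s = 0 := by
  by_contra h0
  apply hr
  have : (-1 : E) = t * s⁻¹ := by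
    field_simp
    linear_combination -h
  rw [this]
  exact ht.mul (sos_inv hs)

lemma add_zero_right {E : Type*} [Field E] (hr : ¬ IsSumSq (-1 : E)) {s t : E} (hs : IsSumSq s)
    (ht : IsSumSq t) (h : s + t = 0) : t = 0 :=
  add_zero_left hr ht hs (by rw [add_comm]; exact h)

lemma three_ne {E : Type*} [Field E] (hr : ¬ IsSumSq (-1 : E)) : (3 : E) ≠ 0 := by
  intro h
  have h2 : IsSumSq (2 : E) := by
    have := IsSumSq.natCast (R := E) 2
    exact_mod_cast this
  exact one_ne_zero (add_zero_left hr IsSumSq.one h2 (by linear_combination h))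

section place

variable {L κ : Type*} [Field L] [Field κ] (O : ValuationSubring L) (ρ : O →+* κ)

lemma sq_mem {x : L} (h : x ^ 2 ∈ O) : x ∈ O := by
  rcases O.mem_or_inv_mem x with h1 | h1
  · exact h1
  · by_cases h0 : x = 0
    · rw [h0]; exact O.zero_mem
    · have : x = x ^ 2 * x⁻¹ := by field_simp
      rw [this]
      exact O.mul_mem _ _ h h1

lemma good (hr : ¬ IsSumSq (-1 : κ)) {s : L} (hs : IsSumSq s) (h0 : s ≠ 0) :
    ∃ (c : L) (r : O), c ≠ 0 ∧ (r : L) = s * c ^ 2 ∧ IsSumSq (ρ r) ∧ ρ r ≠ 0 := by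
  induction hs with
  | zero => exact absurd rfl h0
  | @sq_add a s hs ih =>
    by_cases ha : a = 0
    · rw [ha, mul_zero, zero_add] at h0 ⊢
      exact ih h0
    by_cases hs0 : s = 0
    · refine ⟨a⁻¹, 1, inv_ne_zero ha, ?_, by rw [map_one]; exact IsSumSq.one, by simp⟩
      rw [hs0]
      simp only [OneMemClass.coe_one]
      field_simp
      ring
    obtain ⟨c, r, hc, hr1, hr2, hr3⟩ := ih hs0
    rcases O.mem_or_inv_mem (a * c) with h | h
    · refine ⟨c, ⟨a * c, h⟩ ^ 2 + r, hc, ?_, ?_, ?_⟩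
      · push_cast
        rw [hr1]; ring
      · rw [map_add, map_pow]
        exact (sos_sq _).add hr2
      · rw [map_add, map_pow]
        intro h3
        exact hr3 (add_zero_right hr (sos_sq _) hr2 h3)
    · refine ⟨a⁻¹, 1 + ⟨(a * c)⁻¹, h⟩ ^ 2 * r, inv_ne_zero ha, ?_, ?_, ?_⟩
      · push_cast
        rw [hr1]; field_simp
      · rw [map_add, map_mul, map_pow, map_one]
        exact IsSumSq.one.add ((sos_sq _).mul hr2)
      · rw [map_add, map_mul, map_pow, map_one]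
        intro h3
        exact one_ne_zero (add_zero_left hr IsSumSq.one ((sos_sq _).mul hr2) h3)

lemma res_sos (hr : ¬ IsSumSq (-1 : κ)) (s : O) (hs : IsSumSq (s : L)) : IsSumSq (ρ s) := by
  by_cases h0 : (s : L) = 0
  · have : s = 0 := Subtype.ext h0
    rw [this, map_zero]; exact IsSumSq.zero
  obtain ⟨c, r, hc, hr1, hr2, hr3⟩ := good O ρ hr hs h0
  rcases O.mem_or_inv_mem c with h | h
  · have e : r = s * ⟨c, h⟩ ^ 2 := Subtype.ext (by push_cast; exact hr1)
    rw [e, map_mul, map_pow] at hr2 hr3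
    have h1 : ρ ⟨c, h⟩ ≠ 0 := by
      intro h1
      rw [h1] at hr3
      simp at hr3
    have : ρ s = ρ s * ρ ⟨c, h⟩ ^ 2 * (ρ ⟨c, h⟩)⁻¹ ^ 2 := by field_simp
    rw [this]
    exact hr2.mul (sos_sq _)
  · have e : s = r * ⟨c⁻¹, h⟩ ^ 2 := Subtype.ext (by push_cast; rw [hr1]; field_simp)
    rw [e, map_mul, map_pow]
    exact hr2.mul (sos_sq _)

include ρ in
lemma real_of (hr : ¬ IsSumSq (-1 : κ)) : ¬ IsSumSq (-1 : L) := by
  intro h
  have := res_sos O ρ hr (-1) (by push_cast; exact h)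
  rw [map_neg, map_one] at this
  exact hr this

lemma mem_of_add (hr : ¬ IsSumSq (-1 : κ)) (hloc : ∀ x : O, ρ x ≠ 0 → (x : L)⁻¹ ∈ O)
    {s t : L} (hs : IsSumSq s) (ht : IsSumSq t) (h : s + t ∈ O) : s ∈ O := by
  by_contra hn
  have h1 : s⁻¹ ∈ O := (O.mem_or_inv_mem s).resolve_left hn
  have h0 : s ≠ 0 := by
    rintro rfl
    exact hn O.zero_mem
  have h2 : ρ ⟨s⁻¹, h1⟩ = 0 := by
    by_contra h2
    have := hloc _ h2
    simp only [inv_inv] at this
    exact hn this
  have h3 := res_sos O ρ hr (⟨s + t, h⟩ * ⟨s⁻¹, h1⟩ - 1) (by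
    have : ((⟨s + t, h⟩ * ⟨s⁻¹, h1⟩ - 1 : O) : L) = t * s⁻¹ := by
      push_cast
      field_simp
      ring
    rw [this]
    exact ht.mul (sos_inv hs))
  rw [map_sub, map_mul, h2, map_one, mul_zero, zero_sub] at h3
  exact hr h3

/-- Normalisation of a nonzero solution. -/
lemma normalize (hr : ¬ IsSumSq (-1 : κ)) (hloc : ∀ x : O, ρ x ≠ 0 → (x : L)⁻¹ ∈ O)
    {m n : ℕ} (x : Fin m → L) (s : Fin n → L) (hs : ∀ j, IsSumSq (s j))
    (hne : ¬ ((∀ i, x i = 0) ∧ ∀ j, s j = 0)) :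
    ∃ (c : L) (X : Fin m → O) (S : Fin n → O), (∀ i, O.subtype (X i) = c * x i) ∧
      (∀ j, O.subtype (S j) = c ^ 2 * s j) ∧ (∀ j, IsSumSq (ρ (S j))) ∧
      ¬ ((∀ i, ρ (X i) = 0) ∧ ∀ j, ρ (S j) = 0) := by
  classical
  have hrL := real_of O ρ hr
  have hA : IsSumSq (∑ i, x i ^ 2) := IsSumSq.sum fun i _ => sos_sq _
  have hB : IsSumSq (∑ j, s j) := IsSumSq.sum fun j _ => hs j
  have hσ : ∑ i, x i ^ 2 + ∑ j, s j ≠ 0 := by
    intro h
    apply hne
    have h1 := add_zero_left hrL hA hB h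
    have h2 := add_zero_right hrL hA hB h
    constructor
    · intro i
      rw [← Finset.add_sum_erase _ _ (Finset.mem_univ i)] at h1
      exact pow_eq_zero_iff two_ne_zero |>.mp
        (add_zero_left hrL (sos_sq _) (IsSumSq.sum fun i _ => sos_sq _) h1)
    · intro j
      rw [← Finset.add_sum_erase _ _ (Finset.mem_univ j)] at h2
      exact add_zero_left hrL (hs j) (IsSumSq.sum fun j _ => hs j) h2
  obtain ⟨c, r, -, hr1, -, hr3⟩ := good O ρ hr (hA.add hB) hσ
  have hsum : (∑ i, x i ^ 2) * c ^ 2 + (∑ j, s j) * c ^ 2 ∈ O := by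
    rw [← add_mul, ← hr1]; exact r.2
  have hAO := mem_of_add O ρ hr hloc (hA.mul (sos_sq c)) (hB.mul (sos_sq c)) hsum
  have hBO := mem_of_add O ρ hr hloc (hB.mul (sos_sq c)) (hA.mul (sos_sq c))
    (by rw [add_comm]; exact hsum)
  have hx : ∀ i, c * x i ∈ O := by
    intro i
    apply sq_mem
    rw [← Finset.add_sum_erase _ _ (Finset.mem_univ i), add_mul] at hAO
    have := mem_of_add O ρ hr hloc ((sos_sq _).mul (sos_sq c))
      ((IsSumSq.sum fun i _ => sos_sq _).mul (sos_sq c)) hAO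
    rwa [← mul_pow, mul_comm] at this
  have hs' : ∀ j, c ^ 2 * s j ∈ O := by
    intro j
    rw [← Finset.add_sum_erase _ _ (Finset.mem_univ j), add_mul] at hBO
    have := mem_of_add O ρ hr hloc ((hs j).mul (sos_sq c))
      ((IsSumSq.sum fun j _ => hs j).mul (sos_sq c)) hBO
    rwa [mul_comm] at this
  refine ⟨c, fun i => ⟨c * x i, hx i⟩, fun j => ⟨c ^ 2 * s j, hs' j⟩, fun _ => rfl, fun _ => rfl,
    fun j => res_sos O ρ hr _ ((sos_sq c).mul (hs j)), ?_⟩
  rintro ⟨h1, h2⟩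
  apply hr3
  have e : r = ∑ i, (⟨c * x i, hx i⟩ : O) ^ 2 + ∑ j, (⟨c ^ 2 * s j, hs' j⟩ : O) := by
    apply Subtype.ext
    push_cast
    rw [hr1, add_mul, Finset.sum_mul, Finset.sum_mul]
    congr 1
    · exact Finset.sum_congr rfl fun i _ => by ring
    · exact Finset.sum_congr rfl fun i _ => by ring
  rw [e, map_add, map_sum, map_sum]
  simp only [map_pow, h1, h2]
  simp

end place

end Pool.Agent.H48.WSos
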