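import Mathlib
import Pool.Agent.H48.WSos

set_option autoImplicit false

namespace Pool.Agent.H48.WLev

open Module WPar WSos

/-- level 0. -/
def N0 (E : Type) [Field E] : Prop :=
  ∀ a b c d : E, a ^ 2 + b ^ 2 = 3 * (c ^ 2 + d ^ 2) → a = 0 ∧ b = 0 ∧ c = 0 ∧ d = 0

/-- level 1. -/
def N1 (E : Type) [Field E] (Y : E) : Prop :=
  ∀ z u a c d s : E, IsSumSq s → z ^ 2 + s = (1 + Y ^ 2) * a ^ 2 →
    u ^ 2 + s = 3 * (c ^ 2 + d ^ 2) → z = 0 ∧ u = 0 ∧ a = 0 ∧ c = 0 ∧ d = 0 ∧ s = 0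

/-- level 2. -/
def N2 (E : Type) [Field E] (Y Y' : E) : Prop :=
  ∀ z u a w u' a' s s' : E, IsSumSq s → IsSumSq s' → z ^ 2 + s = (1 + Y ^ 2) * a ^ 2 →
    3 * w ^ 2 + s' = 3 * (1 + Y' ^ 2) * a' ^ 2 → u ^ 2 + s = 3 * u' ^ 2 + s' →
    z = 0 ∧ u = 0 ∧ a = 0 ∧ w = 0 ∧ u' = 0 ∧ a' = 0 ∧ s = 0 ∧ s' = 0

/-- level 3. -/
def N3 (E : Type) [Field E] (Y Y' y : E) : Prop :=
  ∀ z u a w u' a' s s' : E, IsSumSq s → IsSumSq s' →
    3 * w ^ 2 + s' = 3 * (1 + Y' ^ 2) * a' ^ 2 →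
    y * (z ^ 2 + s - (1 + Y ^ 2) * a ^ 2) + (u ^ 2 + s - 3 * u' ^ 2 - s') = 0 →
    z = 0 ∧ u = 0 ∧ a = 0 ∧ w = 0 ∧ u' = 0 ∧ a' = 0 ∧ s = 0 ∧ s' = 0

/-- level 4. -/
def N4 (E : Type) [Field E] (Y Y' y t : E) : Prop :=
  ∀ z u a w u' a' s s' : E, IsSumSq s → IsSumSq s' →
    t * (3 * w ^ 2 + s' - 3 * (1 + Y' ^ 2) * a' ^ 2) +
      (y * (z ^ 2 + s - (1 + Y ^ 2) * a ^ 2) + (u ^ 2 + s - 3 * u' ^ 2 - s')) = 0 →
    z = 0 ∧ u = 0 ∧ a = 0 ∧ w = 0 ∧ u' = 0 ∧ a' = 0 ∧ s = 0 ∧ s' = 0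

/-- all odd-degree extensions are real. -/
def AllReal (k : Type) [Field k] : Prop :=
  ∀ (E : Type) [Field E] [Algebra k E], Odd (finrank k E) → ¬ IsSumSq (-1 : E)

variable {k L : Type} [Field k] [CharZero k] [Field L] [Algebra k L]
    [Algebra (RatFunc k) L] [IsScalarTower k (RatFunc k) L]

theorem real_step (hr : AllReal k) (hodd : Odd (finrank (RatFunc k) L)) : ¬ IsSumSq (-1 : L) := by
  obtain ⟨pl⟩ := ex (k := k) hodd
  exact real_of pl.O pl.ρ (hr pl.κ pl.odd)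

theorem lift_step (hr : AllReal k) (hodd : Odd (finrank (RatFunc k) L)) (a : k)
    (ha : ∀ (E : Type) [Field E] [Algebra k E], Odd (finrank k E) → ¬ IsSumSq (algebraMap k E a)) :
    ¬ IsSumSq (algebraMap k L a) := by
  obtain ⟨pl⟩ := ex (k := k) hodd
  intro h
  have := res_sos pl.O pl.ρ (hr pl.κ pl.odd) (pl.φ a) (by rw [pl.hφ]; exact h)
  rw [pl.hρ] at this
  exact ha pl.κ pl.odd this

omit [CharZero k] [Algebra k L] [IsScalarTower k (RatFunc k) L] in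
lemma T_ne : algebraMap (RatFunc k) L RatFunc.X ≠ 0 := by
  simpa using RatFunc.X_ne_zero

theorem lin_step (hr : AllReal k) (hodd : Odd (finrank (RatFunc k) L)) (ε : L)
    (hε : ε = 1 ∨ ε = -1) (h0 : 1 + ε * algebraMap (RatFunc k) L RatFunc.X ≠ 0) :
    ¬ IsSumSq (1 + ε * algebraMap (RatFunc k) L RatFunc.X) := by
  intro h
  set T := algebraMap (RatFunc k) L RatFunc.X with hT
  have hT0 : T ≠ 0 := T_ne
  refine par (k := k) hodd (1 + ε * T) (fun pl x hx => ?_) (fun pl x hx hx0 => ?_)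
  · obtain ⟨c, r, -, h1, -, h3⟩ := good pl.O pl.ρ (hr pl.κ pl.odd) h h0
    exact ⟨c, r, h1, h3⟩
  · rcases hε with rfl | rfl
    · refine ⟨T⁻¹, x + 1, ?_, by simp [hx0]⟩
      push_cast
      rw [hx, ← hT]; field_simp
    · refine ⟨T⁻¹, x - 1, ?_, by simp [hx0]⟩
      push_cast
      rw [hx, ← hT]; field_simp; ring

theorem step1 (hr : AllReal k) (hodd : Odd (finrank (RatFunc k) L))
    (h0 : ∀ (E : Type) [Field E] [Algebra k E], Odd (finrank k E) → N0 E) :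
    N1 L (algebraMap (RatFunc k) L RatFunc.X) := by
  intro z u a c d s hs e1 e2
  by_contra hne
  set T := algebraMap (RatFunc k) L RatFunc.X with hT
  have hT0 : T ≠ 0 := T_ne
  have main : ∀ pl : Place k L, ∃ (q : L) (U A B : pl.O), pl.O.subtype U = q * (u - z) ∧
      pl.O.subtype A = q * a ∧ pl.O.subtype B = q * (T * a) ∧ pl.ρ U ≠ 0 ∧
      ¬ (pl.ρ A = 0 ∧ pl.ρ B = 0) := by
    intro pl
    have hκ := hr pl.κ pl.odd
    obtain ⟨q, X, S, hX, hS, hS2, hn⟩ := normalize pl.O pl.ρ hκ pl.loc ![z, u, a, T * a, c, d] ![s]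
      (by simpa using hs) (by
        simp only [Fin.forall_fin_succ, Matrix.cons_val_zero, Matrix.cons_val_succ]
        tauto)
    have x0 := hX 0
    have x1 := hX 1
    have x2 := hX 2
    have x3 := hX 3
    have x4 := hX 4
    have x5 := hX 5
    have s0 := hS 0
    simp only [Matrix.cons_val] at x0 x1 x2 x3 x4 x5 s0
    have f1 : pl.ρ (X 0) ^ 2 + pl.ρ (S 0) = pl.ρ (X 2) ^ 2 + pl.ρ (X 3) ^ 2 := by
      have : X 0 ^ 2 + S 0 = X 2 ^ 2 + X 3 ^ 2 := pl.O.subtype_injective (by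
        simp only [map_add, map_pow, x0, x2, x3, s0]
        linear_combination q ^ 2 * e1)
      simpa only [map_add, map_pow] using congrArg pl.ρ this
    have f2 : pl.ρ (X 1) ^ 2 + pl.ρ (S 0) = 3 * (pl.ρ (X 4) ^ 2 + pl.ρ (X 5) ^ 2) := by
      have : X 1 ^ 2 + S 0 = 3 * (X 4 ^ 2 + X 5 ^ 2) := pl.O.subtype_injective (by
        simp only [map_add, map_pow, map_mul, map_ofNat, x1, x4, x5, s0]
        linear_combination q ^ 2 * e2)
      simpa only [map_add, map_pow, map_mul, map_ofNat] using congrArg pl.ρ this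
    have hN := h0 pl.κ pl.odd
    simp only [Fin.forall_fin_succ, IsEmpty.forall_iff, and_true] at hn
    refine ⟨q, X 1 - X 0, X 2, X 3, by rw [map_sub, x1, x0]; ring, x2, x3, ?_, ?_⟩
    · intro h
      rw [map_sub, sub_eq_zero] at h
      obtain ⟨g1, g2, g3, g4⟩ := hN (pl.ρ (X 2)) (pl.ρ (X 3)) (pl.ρ (X 4)) (pl.ρ (X 5))
        (by rw [← f1, ← f2, h])
      rw [g1, g2] at f1
      have g5 := add_zero_left hκ (sos_sq (pl.ρ (X 0))) (hS2 0) (by linear_combination f1)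
      have g6 := add_zero_right hκ (sos_sq (pl.ρ (X 0))) (hS2 0) (by linear_combination f1)
      have g7 := pow_eq_zero_iff two_ne_zero |>.mp g5
      exact hn ⟨⟨g7, h.trans g7, g1, g2, g3, g4⟩, g6⟩
    · rintro ⟨g1, g2⟩
      rw [g1, g2] at f1
      have g5 := add_zero_left hκ (sos_sq (pl.ρ (X 0))) (hS2 0) (by linear_combination f1)
      have g6 := add_zero_right hκ (sos_sq (pl.ρ (X 0))) (hS2 0) (by linear_combination f1)
      have g7 := pow_eq_zero_iff two_ne_zero |>.mp g5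
      obtain ⟨g8, -, g3, g4⟩ := hN (pl.ρ (X 1)) 0 (pl.ρ (X 4)) (pl.ρ (X 5))
        (by rw [← f2, g6]; ring)
      exact hn ⟨⟨g7, g8, g1, g2, g3, g4⟩, g6⟩
  refine par (k := k) hodd ((u - z) * a) (fun pl x hx => ?_) (fun pl x hx hx0 => ?_)
  · obtain ⟨q, U, A, B, hU, hA, hB, h1, h2⟩ := main pl
    have hx' : pl.O.subtype x = T := hx
    have e : B = x * A := pl.O.subtype_injective (by rw [map_mul, hB, hA, hx']; ring)
    refine ⟨q, U * A, ?_, ?_⟩
    · change pl.O.subtype (U * A) = _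
      rw [map_mul, hU, hA]; ring
    · rw [map_mul]
      refine mul_ne_zero h1 fun h3 => h2 ⟨h3, ?_⟩
      rw [e, map_mul, h3, mul_zero]
  · obtain ⟨q, U, A, B, hU, hA, hB, h1, h2⟩ := main pl
    have hx' : pl.O.subtype x = T⁻¹ := hx
    have e : A = x * B := pl.O.subtype_injective (by rw [map_mul, hB, hA, hx']; field_simp)
    refine ⟨q, U * B, ?_, ?_⟩
    · change pl.O.subtype (U * B) = _
      rw [map_mul, hU, hB]; ring
    · rw [map_mul]
      refine mul_ne_zero h1 fun h3 => h2 ⟨?_, h3⟩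
      rw [e, map_mul, h3, mul_zero]

theorem step2 (hr : AllReal k) (hodd : Odd (finrank (RatFunc k) L)) (Y : k)
    (h0 : ∀ (E : Type) [Field E] [Algebra k E], Odd (finrank k E) → N1 E (algebraMap k E Y)) :
    N2 L (algebraMap k L Y) (algebraMap (RatFunc k) L RatFunc.X) := by
  intro z u a w u' a' s s' hs hs' e1 e2 e3
  by_contra hne
  set T := algebraMap (RatFunc k) L RatFunc.X with hT
  have hT0 : T ≠ 0 := T_ne
  have main : ∀ pl : Place k L, ∃ (q : L) (U A B : pl.O), pl.O.subtype U = q * (u' - w) ∧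
      pl.O.subtype A = q * a' ∧ pl.O.subtype B = q * (T * a') ∧ pl.ρ U ≠ 0 ∧
      ¬ (pl.ρ A = 0 ∧ pl.ρ B = 0) := by
    intro pl
    have hκ := hr pl.κ pl.odd
    obtain ⟨q, X, S, hX, hS, hS2, hn⟩ := normalize pl.O pl.ρ hκ pl.loc
      ![z, u, a, w, u', a', T * a'] ![s, s']
      (by simp [Fin.forall_fin_succ, hs, hs']) (by
        simp only [Fin.forall_fin_succ, Matrix.cons_val_zero, Matrix.cons_val_succ]
        tauto)
    have x0 := hX 0
    have x1 := hX 1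
    have x2 := hX 2
    have x3 := hX 3
    have x4 := hX 4
    have x5 := hX 5
    have x6 := hX 6
    have s0 := hS 0
    have s1 := hS 1
    have hY : pl.O.subtype (pl.φ Y) = algebraMap k L Y := pl.hφ Y
    simp only [Matrix.cons_val] at x0 x1 x2 x3 x4 x5 x6 s0 s1
    have f1 : pl.ρ (X 0) ^ 2 + pl.ρ (S 0) = (1 + algebraMap k pl.κ Y ^ 2) * pl.ρ (X 2) ^ 2 := by
      have : X 0 ^ 2 + S 0 = (1 + pl.φ Y ^ 2) * X 2 ^ 2 := pl.O.subtype_injective (by
        simp only [map_add, map_pow, map_mul, map_one, x0, x2, s0, hY]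
        linear_combination q ^ 2 * e1)
      simpa only [map_add, map_pow, map_mul, map_one, pl.hρ] using congrArg pl.ρ this
    have f2 : 3 * pl.ρ (X 3) ^ 2 + pl.ρ (S 1) = 3 * (pl.ρ (X 5) ^ 2 + pl.ρ (X 6) ^ 2) := by
      have : 3 * X 3 ^ 2 + S 1 = 3 * (X 5 ^ 2 + X 6 ^ 2) := pl.O.subtype_injective (by
        simp only [map_add, map_pow, map_mul, map_ofNat, x3, x5, x6, s1]
        linear_combination q ^ 2 * e2)
      simpa only [map_add, map_pow, map_mul, map_ofNat] using congrArg pl.ρ this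
    have f3 : pl.ρ (X 1) ^ 2 + pl.ρ (S 0) = 3 * pl.ρ (X 4) ^ 2 + pl.ρ (S 1) := by
      have : X 1 ^ 2 + S 0 = 3 * X 4 ^ 2 + S 1 := pl.O.subtype_injective (by
        simp only [map_add, map_pow, map_mul, map_ofNat, x1, x4, s0, s1]
        linear_combination q ^ 2 * e3)
      simpa only [map_add, map_pow, map_mul, map_ofNat] using congrArg pl.ρ this
    have hN := h0 pl.κ pl.odd
    simp only [Fin.forall_fin_succ, IsEmpty.forall_iff, and_true] at hn
    have aux : pl.ρ (X 5) = 0 → pl.ρ (X 6) = 0 → pl.ρ (X 3) = 0 ∧ pl.ρ (S 1) = 0 := by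
      intro g1 g2
      rw [g1, g2] at f2
      have g5 := add_zero_left hκ (sos_three.mul (sos_sq (pl.ρ (X 3)))) (hS2 1)
        (by linear_combination f2)
      have g6 := add_zero_right hκ (sos_three.mul (sos_sq (pl.ρ (X 3)))) (hS2 1)
        (by linear_combination f2)
      exact ⟨pow_eq_zero_iff two_ne_zero |>.mp ((mul_eq_zero.mp g5).resolve_left (three_ne hκ)), g6⟩
    refine ⟨q, X 4 - X 3, X 5, X 6, by rw [map_sub, x4, x3]; ring, x5, x6, ?_, ?_⟩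
    · intro h
      rw [map_sub, sub_eq_zero] at h
      obtain ⟨g1, g2, g3, g4, g5, g6⟩ := hN (pl.ρ (X 0)) (pl.ρ (X 1)) (pl.ρ (X 2)) (pl.ρ (X 5))
        (pl.ρ (X 6)) (pl.ρ (S 0)) (hS2 0) f1 (by rw [f3, h, f2])
      obtain ⟨g7, g8⟩ := aux g4 g5
      exact hn ⟨⟨g1, g2, g3, g7, h.trans g7, g4, g5⟩, g6, g8⟩
    · rintro ⟨g4, g5⟩
      obtain ⟨g7, g8⟩ := aux g4 g5
      obtain ⟨g1, g2, g3, g9, -, g6⟩ := hN (pl.ρ (X 0)) (pl.ρ (X 1)) (pl.ρ (X 2)) (pl.ρ (X 4))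
        0 (pl.ρ (S 0)) (hS2 0) f1 (by rw [f3, g8]; ring)
      exact hn ⟨⟨g1, g2, g3, g7, g9, g4, g5⟩, g6, g8⟩
  refine par (k := k) hodd ((u' - w) * a') (fun pl x hx => ?_) (fun pl x hx hx0 => ?_)
  · obtain ⟨q, U, A, B, hU, hA, hB, h1, h2⟩ := main pl
    have hx' : pl.O.subtype x = T := hx
    have e : B = x * A := pl.O.subtype_injective (by rw [map_mul, hB, hA, hx']; ring)
    refine ⟨q, U * A, ?_, ?_⟩
    · change pl.O.subtype (U * A) = _
      rw [map_mul, hU, hA]; ring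
    · rw [map_mul]
      refine mul_ne_zero h1 fun h3 => h2 ⟨h3, ?_⟩
      rw [e, map_mul, h3, mul_zero]
  · obtain ⟨q, U, A, B, hU, hA, hB, h1, h2⟩ := main pl
    have hx' : pl.O.subtype x = T⁻¹ := hx
    have e : A = x * B := pl.O.subtype_injective (by rw [map_mul, hB, hA, hx']; field_simp)
    refine ⟨q, U * B, ?_, ?_⟩
    · change pl.O.subtype (U * B) = _
      rw [map_mul, hU, hB]; ring
    · rw [map_mul]
      refine mul_ne_zero h1 fun h3 => h2 ⟨?_, h3⟩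
      rw [e, map_mul, h3, mul_zero]

/-- the pencil step. -/
theorem pencil (hodd : Odd (finrank (RatFunc k) L)) (G H : L)
    (e : algebraMap (RatFunc k) L RatFunc.X * G + H = 0)
    (main : ∀ pl : Place k L, ∃ (q : L) (G' H' : pl.O), pl.O.subtype G' = q ^ 2 * G ∧
      pl.O.subtype H' = q ^ 2 * H ∧ ¬ (pl.ρ G' = 0 ∧ pl.ρ H' = 0)) : False := by
  set T := algebraMap (RatFunc k) L RatFunc.X with hT
  have hT0 : T ≠ 0 := T_ne
  refine par (k := k) hodd G (fun pl x hx => ?_) (fun pl x hx hx0 => ?_)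
  · obtain ⟨q, G', H', hG, hH, h2⟩ := main pl
    have hx' : pl.O.subtype x = T := hx
    have e' : H' = - (x * G') := pl.O.subtype_injective (by
      rw [map_neg, map_mul, hG, hH, hx']; linear_combination q ^ 2 * e)
    refine ⟨q, G', ?_, fun h3 => h2 ⟨h3, ?_⟩⟩
    · change pl.O.subtype G' = _
      rw [hG]; ring
    · rw [e', map_neg, map_mul, h3, mul_zero, neg_zero]
  · obtain ⟨q, G', H', hG, hH, h2⟩ := main pl
    have hx' : pl.O.subtype x = T⁻¹ := hx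
    have e' : G' = - (x * H') := pl.O.subtype_injective (by
      rw [map_neg, map_mul, hG, hH, hx']; field_simp; linear_combination q ^ 2 * e)
    refine ⟨q, -H', ?_, fun h3 => h2 ⟨?_, by simpa using h3⟩⟩
    · change pl.O.subtype (-H') = _
      rw [map_neg, hH, ← hT]; linear_combination -q ^ 2 * e
    · rw [e', map_neg, map_mul, hx0, zero_mul, neg_zero]

theorem step3 (hr : AllReal k) (hodd : Odd (finrank (RatFunc k) L)) (Y Y' : k)
    (h0 : ∀ (E : Type) [Field E] [Algebra k E], Odd (finrank k E) →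
      N2 E (algebraMap k E Y) (algebraMap k E Y')) :
    N3 L (algebraMap k L Y) (algebraMap k L Y') (algebraMap (RatFunc k) L RatFunc.X) := by
  intro z u a w u' a' s s' hs hs' e2 e3
  by_contra hne
  refine pencil (k := k) hodd _ _ e3 fun pl => ?_
  have hκ := hr pl.κ pl.odd
  obtain ⟨q, X, S, hX, hS, hS2, hn⟩ := normalize pl.O pl.ρ hκ pl.loc
    ![z, u, a, w, u', a'] ![s, s']
    (by simp [Fin.forall_fin_succ, hs, hs']) (by
      simp only [Fin.forall_fin_succ, Matrix.cons_val_zero, Matrix.cons_val_succ]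
      tauto)
  have x0 := hX 0
  have x1 := hX 1
  have x2 := hX 2
  have x3 := hX 3
  have x4 := hX 4
  have x5 := hX 5
  have s0 := hS 0
  have s1 := hS 1
  have hY : pl.O.subtype (pl.φ Y) = algebraMap k L Y := pl.hφ Y
  have hY' : pl.O.subtype (pl.φ Y') = algebraMap k L Y' := pl.hφ Y'
  simp only [Matrix.cons_val] at x0 x1 x2 x3 x4 x5 s0 s1
  have f2 : 3 * pl.ρ (X 3) ^ 2 + pl.ρ (S 1) =
      3 * (1 + algebraMap k pl.κ Y' ^ 2) * pl.ρ (X 5) ^ 2 := by
    have : 3 * X 3 ^ 2 + S 1 = 3 * (1 + pl.φ Y' ^ 2) * X 5 ^ 2 := pl.O.subtype_injective (by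
      simp only [map_add, map_pow, map_mul, map_ofNat, map_one, x3, x5, s1, hY']
      linear_combination q ^ 2 * e2)
    simpa only [map_add, map_pow, map_mul, map_ofNat, map_one, pl.hρ] using congrArg pl.ρ this
  simp only [Fin.forall_fin_succ, IsEmpty.forall_iff, and_true] at hn
  refine ⟨q, X 0 ^ 2 + S 0 - (1 + pl.φ Y ^ 2) * X 2 ^ 2, X 1 ^ 2 + S 0 - 3 * X 4 ^ 2 - S 1,
    ?_, ?_, ?_⟩
  · simp only [map_add, map_sub, map_pow, map_mul, map_one, x0, x2, s0, hY]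
    ring
  · simp only [map_add, map_sub, map_pow, map_mul, map_ofNat, x1, x4, s0, s1]
    ring
  · rintro ⟨f1, f3⟩
    simp only [map_add, map_sub, map_pow, map_mul, map_ofNat, map_one, pl.hρ] at f1 f3
    obtain ⟨g0, g1, g2, g3, g4, g5, g6, g7⟩ := h0 pl.κ pl.odd (pl.ρ (X 0)) (pl.ρ (X 1))
      (pl.ρ (X 2)) (pl.ρ (X 3)) (pl.ρ (X 4)) (pl.ρ (X 5)) (pl.ρ (S 0)) (pl.ρ (S 1)) (hS2 0) (hS2 1)
      (by linear_combination f1) f2 (by linear_combination f3)
    exact hn ⟨⟨g0, g1, g2, g3, g4, g5⟩, g6, g7⟩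

theorem step4 (hr : AllReal k) (hodd : Odd (finrank (RatFunc k) L)) (Y Y' y : k)
    (h0 : ∀ (E : Type) [Field E] [Algebra k E], Odd (finrank k E) →
      N3 E (algebraMap k E Y) (algebraMap k E Y') (algebraMap k E y)) :
    N4 L (algebraMap k L Y) (algebraMap k L Y') (algebraMap k L y)
      (algebraMap (RatFunc k) L RatFunc.X) := by
  intro z u a w u' a' s s' hs hs' e3
  by_contra hne
  refine pencil (k := k) hodd _ _ e3 fun pl => ?_
  have hκ := hr pl.κ pl.odd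
  obtain ⟨q, X, S, hX, hS, hS2, hn⟩ := normalize pl.O pl.ρ hκ pl.loc
    ![z, u, a, w, u', a'] ![s, s']
    (by simp [Fin.forall_fin_succ, hs, hs']) (by
      simp only [Fin.forall_fin_succ, Matrix.cons_val_zero, Matrix.cons_val_succ]
      tauto)
  have x0 := hX 0
  have x1 := hX 1
  have x2 := hX 2
  have x3 := hX 3
  have x4 := hX 4
  have x5 := hX 5
  have s0 := hS 0
  have s1 := hS 1
  have hY : pl.O.subtype (pl.φ Y) = algebraMap k L Y := pl.hφ Y
  have hY' : pl.O.subtype (pl.φ Y') = algebraMap k L Y' := pl.hφ Y'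
  have hy : pl.O.subtype (pl.φ y) = algebraMap k L y := pl.hφ y
  simp only [Matrix.cons_val] at x0 x1 x2 x3 x4 x5 s0 s1
  simp only [Fin.forall_fin_succ, IsEmpty.forall_iff, and_true] at hn
  refine ⟨q, 3 * X 3 ^ 2 + S 1 - 3 * (1 + pl.φ Y' ^ 2) * X 5 ^ 2,
    pl.φ y * (X 0 ^ 2 + S 0 - (1 + pl.φ Y ^ 2) * X 2 ^ 2) + (X 1 ^ 2 + S 0 - 3 * X 4 ^ 2 - S 1),
    ?_, ?_, ?_⟩
  · simp only [map_add, map_sub, map_pow, map_mul, map_ofNat, map_one, x3, x5, s1, hY']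
    ring
  · simp only [map_add, map_sub, map_pow, map_mul, map_ofNat, map_one, x0, x1, x2, x4, s0, s1, hY,
      hy]
    ring
  · rintro ⟨f2, f3⟩
    simp only [map_add, map_sub, map_pow, map_mul, map_ofNat, map_one, pl.hρ] at f2 f3
    obtain ⟨g0, g1, g2, g3, g4, g5, g6, g7⟩ := h0 pl.κ pl.odd (pl.ρ (X 0)) (pl.ρ (X 1))
      (pl.ρ (X 2)) (pl.ρ (X 3)) (pl.ρ (X 4)) (pl.ρ (X 5)) (pl.ρ (S 0)) (pl.ρ (S 1)) (hS2 0) (hS2 1)
      (by linear_combination f2) f3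
    exact hn ⟨⟨g0, g1, g2, g3, g4, g5⟩, g6, g7⟩

end Pool.Agent.H48.WLev
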