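import Mathlib
import Pool.Agent.H48.WLev

set_option autoImplicit false

namespace Pool.Agent.H48.WTop

open Module WPar WSos WLev

theorem real_rat : AllReal ℚ := by
  intro E _ inst hodd h
  have : CharZero E := (algebraMap ℚ E).charZero_iff (algebraMap ℚ E).injective |>.mp inferInstance
  obtain rfl : inst = DivisionRing.toRatAlgebra := Subsingleton.elim _ _
  have : FiniteDimensional ℚ E := Module.finite_of_finrank_pos hodd.pos
  have : NumberField E := ⟨⟩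
  classical
  have hpos := NumberField.InfinitePlace.nrRealPlaces_pos_of_odd_finrank hodd
  obtain ⟨w, hw⟩ := Fintype.card_pos_iff.mp hpos
  have h1 := sos_map (NumberField.InfinitePlace.embedding_of_isReal hw) h
  rw [map_neg, map_one] at h1
  linarith [h1.nonneg]

theorem n0_rat (E : Type) [Field E] [inst : Algebra ℚ E] (hodd : Odd (finrank ℚ E)) : N0 E := by
  have hr := real_rat E hodd
  have : CharZero E := (algebraMap ℚ E).charZero_iff (algebraMap ℚ E).injective |>.mp inferInstance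
  obtain rfl : inst = DivisionRing.toRatAlgebra := Subsingleton.elim _ _
  have : FiniteDimensional ℚ E := Module.finite_of_finrank_pos hodd.pos
  intro a b c d e
  have two : ∀ a b : E, a ^ 2 + b ^ 2 = 0 → a = 0 ∧ b = 0 := fun a b h =>
    ⟨pow_eq_zero_iff two_ne_zero |>.mp (add_zero_left hr (sos_sq a) (sos_sq b) h),
      pow_eq_zero_iff two_ne_zero |>.mp (add_zero_right hr (sos_sq a) (sos_sq b) h)⟩
  by_cases hcd : c ^ 2 + d ^ 2 = 0
  · rw [hcd, mul_zero] at e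
    exact ⟨(two a b e).1, (two a b e).2, (two c d hcd).1, (two c d hcd).2⟩
  exfalso
  have hab : a ^ 2 + b ^ 2 ≠ 0 := by
    rw [e]; exact mul_ne_zero three_ne_zero hcd
  have h3 : Prime (3 : ℤ) := Int.prime_three
  obtain ⟨q, m, hm, hq⟩ := WLoc.loc (A := ℤ) (F := ℚ) (L := E) 3 h3 3 three_ne_zero (by
    intro O κ _ _ ρ φ _ _ _ hf
    have hmax : (Ideal.span {(3 : ℤ)}).IsMaximal :=
      PrincipalIdealRing.isMaximal_of_irreducible h3.irreducible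
    have hns : ∀ i : κ, i ^ 2 + 1 ≠ 0 := by
      let : Field (ℤ ⧸ Ideal.span {(3 : ℤ)}) := Ideal.Quotient.field _
      have hfin : Module.Finite (ℤ ⧸ Ideal.span {(3 : ℤ)}) κ := Module.finite_of_finrank_pos hf.pos
      have hc : Nat.card (ℤ ⧸ Ideal.span {(3 : ℤ)}) = 3 := by
        rw [Nat.card_congr (Int.quotientSpanEquivZMod 3).toEquiv, Nat.card_zmod]; rfl
      have hc2 := Module.natCard_eq_pow_finrank (K := ℤ ⧸ Ideal.span {(3 : ℤ)}) (V := κ)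
      rw [hc] at hc2
      have : Finite κ := Nat.finite_of_card_ne_zero (by rw [hc2]; positivity)
      have := Fintype.ofFinite κ
      intro i hi
      have hsq : IsSquare (-1 : κ) := ⟨i, by linear_combination -hi⟩
      rw [FiniteField.isSquare_neg_one_iff, ← Nat.card_eq_fintype_card, hc2] at hsq
      apply hsq
      obtain ⟨r, hr⟩ := hf
      rw [hr, pow_succ, pow_mul, Nat.mul_mod, Nat.pow_mod]
      norm_num
    have unit : ∀ a b : E, a ^ 2 + b ^ 2 ≠ 0 →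
        ∃ (c : E) (x : O), (x : E) = (a ^ 2 + b ^ 2) * c ^ 2 ∧ ρ x ≠ 0 := by
      intro a b hab
      by_cases hb : b = 0
      · have ha : a ≠ 0 := by
          rintro rfl
          apply hab; rw [hb]; ring
        refine ⟨a⁻¹, 1, ?_, by simp⟩
        rw [hb]; push_cast; field_simp; ring
      rcases O.mem_or_inv_mem (a / b) with h | h
      · refine ⟨b⁻¹, ⟨a / b, h⟩ ^ 2 + 1, ?_, ?_⟩
        · push_cast; field_simp
        · rw [map_add, map_pow, map_one]; exact hns _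
      · by_cases ha : a = 0
        · refine ⟨b⁻¹, 1, ?_, by simp⟩
          rw [ha]; push_cast; field_simp; ring
        refine ⟨a⁻¹, ⟨(a / b)⁻¹, h⟩ ^ 2 + 1, ?_, ?_⟩
        · push_cast; field_simp; ring
        · rw [map_add, map_pow, map_one]; exact hns _
    obtain ⟨c₁, x₁, h1, h1'⟩ := unit a b hab
    obtain ⟨c₂, x₂, h2, h2'⟩ := unit c d hcd
    refine ⟨(c ^ 2 + d ^ 2) * c₁ * c₂, x₁ * x₂, ?_, by rw [map_mul]; exact mul_ne_zero h1' h2'⟩
    push_cast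
    rw [h1, h2, e]; ring)
  have hN : Algebra.norm ℚ (3 : E) = 3 ^ finrank ℚ E := by
    rw [← Algebra.norm_algebraMap (S := E) (3 : ℚ)]
    congr 1
    simp
  rw [hN] at hq
  have hm0 : m ≠ 0 := by
    rintro rfl
    exact hm (dvd_zero _)
  have key : (3 : ℤ) ^ finrank ℚ E * q.num ^ 2 = m * (q.den : ℤ) ^ 2 := by
    have h1 : (q.num : ℚ) = q * q.den := by rw [Rat.mul_den_eq_num]
    have : ((3 : ℚ) ^ finrank ℚ E * (q.num : ℚ) ^ 2) = m * (q.den : ℚ) ^ 2 := by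
      rw [h1, mul_pow, ← mul_assoc, hq]; simp
    exact_mod_cast this
  have hd0 : (q.den : ℤ) ≠ 0 := by exact_mod_cast q.den_ne_zero
  have hn0 : q.num ≠ 0 := by
    intro h
    rw [h] at key
    simp only [ne_eq, OfNat.ofNat_ne_zero, not_false_eq_true, zero_pow, mul_zero] at key
    exact mul_ne_zero hm0 (pow_ne_zero 2 hd0) key.symm
  have := congrArg (multiplicity (3 : ℤ)) key
  rw [WLoc.mult_mul h3 (pow_ne_zero _ h3.ne_zero) (pow_ne_zero 2 hn0),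
    WLoc.mult_mul h3 hm0 (pow_ne_zero 2 hd0), WLoc.mult_pow h3 hn0, WLoc.mult_pow h3 hd0,
    multiplicity_pow_self_of_prime h3, multiplicity_eq_zero.mpr hm] at this
  rw [Nat.odd_iff] at hodd
  omega

lemma lagrange {K : Type*} [Field K] {c₀ c₂ d₀ d₂ : K} (h₀ : c₀ * d₀ = 1) (h₂ : c₂ * d₂ = 1)
    (a₀ a₂ x₀ x₂ : K) :
    (c₀ * x₀ ^ 2 + c₂ * x₂ ^ 2) * (a₀ ^ 2 * d₀ + a₂ ^ 2 * d₂) =
      (a₀ * x₀ + a₂ * x₂) ^ 2 + c₀ * c₂ * (x₀ * a₂ * d₂ - x₂ * a₀ * d₀) ^ 2 := by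
  linear_combination (a₀ ^ 2 * x₀ ^ 2 - c₂ * d₀ * x₂ ^ 2 * a₀ ^ 2 + 2 * a₀ * a₂ * x₀ * x₂ * c₂ * d₂) * h₀
    + (a₂ ^ 2 * x₂ ^ 2 - c₀ * d₂ * x₀ ^ 2 * a₂ ^ 2 + 2 * a₀ * a₂ * x₀ * x₂) * h₂

theorem top_core {K : Type} [Field K] (hr : ¬ IsSumSq (-1 : K)) (Y Y' y t : K)
    (hN : N4 K Y Y' y t) (h1 : ¬ IsSumSq (1 + y)) (h2 : ¬ IsSumSq (1 - t))
    (a₀ a₁ a₂ a₃ α₀ α₁ α₂ α₃ σ₁ σ₂ ρ : K) (s₀ : IsSumSq α₀) (s₁ : IsSumSq α₁) (s₂ : IsSumSq α₂)
    (s₃ : IsSumSq α₃) (t₁ : IsSumSq σ₁) (t₂ : IsSumSq σ₂)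
    (e1 : ρ = (1 + y) / y * α₀ - 1 / y * α₂) (e2 : -ρ = (1 - t) / t * α₁ - 1 / t * α₃)
    (e3 : ρ * (a₀ ^ 2 * (y / (1 + y)) + a₁ ^ 2 * (3 * t / (1 - t)) - a₂ ^ 2 * (y * (1 + Y ^ 2))
      - a₃ ^ 2 * (t * (3 * (1 + Y' ^ 2)))) = -(1 + y) * σ₁ - (t - 1) * σ₂) :
    (α₀ = 0 ∧ α₁ = 0 ∧ α₂ = 0 ∧ α₃ = 0) ∨ (a₀ = 0 ∧ a₁ = 0 ∧ a₂ = 0 ∧ a₃ = 0) := by
  have hy : y ≠ 0 := by
    rintro rfl
    exact h1 (by rw [add_zero]; exact IsSumSq.one)
  have ht : t ≠ 0 := by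
    rintro rfl
    exact h2 (by rw [sub_zero]; exact IsSumSq.one)
  have hy1 : 1 + y ≠ 0 := fun h => h1 (by rw [h]; exact IsSumSq.zero)
  have ht1 : 1 - t ≠ 0 := fun h => h2 (by rw [h]; exact IsSumSq.zero)
  have ht1' : t - 1 ≠ 0 := fun h => ht1 (by linear_combination -h)
  by_cases hρ : ρ = 0
  · left
    have f1 : (1 + y) * α₀ = α₂ := by
      rw [hρ] at e1
      field_simp at e1
      linear_combination -e1
    have f2 : (1 - t) * α₁ = α₃ := by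
      rw [hρ, neg_zero] at e2
      field_simp at e2
      linear_combination -e2
    have g0 : α₀ = 0 := by
      by_contra h
      apply h1
      have : 1 + y = α₂ * α₀⁻¹ := by rw [← f1]; field_simp
      rw [this]; exact s₂.mul (sos_inv s₀)
    have g1 : α₁ = 0 := by
      by_contra h
      apply h2
      have : 1 - t = α₃ * α₁⁻¹ := by rw [← f2]; field_simp
      rw [this]; exact s₃.mul (sos_inv s₁)
    exact ⟨g0, g1, by rw [← f1, g0, mul_zero], by rw [← f2, g1, mul_zero]⟩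
  right
  set α := ((1 + y) / y) ^ 2 * α₀ + (1 / y) ^ 2 * α₂ with hα
  set α' := ((1 - t) / t) ^ 2 * α₁ + (1 / t) ^ 2 * α₃ with hα'
  have sα : IsSumSq α := ((sos_sq _).mul s₀).add ((sos_sq _).mul s₂)
  have sα' : IsSumSq α' := ((sos_sq _).mul s₁).add ((sos_sq _).mul s₃)
  have hsum : α + α' ≠ 0 := by
    intro h
    have g := add_zero_left hr sα sα' h
    have g0 := add_zero_left hr ((sos_sq _).mul s₀) ((sos_sq _).mul s₂) g
    have g2 := add_zero_right hr ((sos_sq _).mul s₀) ((sos_sq _).mul s₂) g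
    have g0' : α₀ = 0 := (mul_eq_zero.mp g0).resolve_left (pow_ne_zero 2 (div_ne_zero hy1 hy))
    have g2' : α₂ = 0 := (mul_eq_zero.mp g2).resolve_left (pow_ne_zero 2 (one_div_ne_zero hy))
    apply hρ
    rw [e1, g0', g2']; ring
  have r1 : ρ - α = -((1 + y) * ((1 / y) ^ 2 * (α₀ + α₂))) := by
    rw [e1, hα]; field_simp; ring
  have r2 : ρ - α' = (t - 1) * ((1 / t) ^ 2 * (α₁ + α₃)) := by
    have : ρ = -((1 - t) / t * α₁ - 1 / t * α₃) := by rw [← e2, neg_neg]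
    rw [this, hα']; field_simp; ring
  set β := (1 / y) ^ 2 * (α₀ + α₂) * ((1 / t) ^ 2 * (α₁ + α₃)) with hβ
  have sβ : IsSumSq β := ((sos_sq _).mul (s₀.add s₂)).mul ((sos_sq _).mul (s₁.add s₃))
  have r3 : ρ * (α + α') = ρ ^ 2 + α * α' + (1 + y) * (t - 1) * β := by
    have : (ρ - α) * (ρ - α') = -((1 + y) * (t - 1) * β) := by rw [r1, r2, hβ]; ring
    linear_combination -this
  set A := (ρ ^ 2 + α * α') * ((α + α')⁻¹ * ρ⁻¹ ^ 2) with hA
  set B := β * ((α + α')⁻¹ * ρ⁻¹ ^ 2) with hB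
  have sA : IsSumSq A := ((sos_sq _).add (sα.mul sα')).mul ((sos_inv (sα.add sα')).mul (sos_sq _))
  have sB : IsSumSq B := sβ.mul ((sos_inv (sα.add sα')).mul (sos_sq _))
  have r4 : ρ * (A + (1 + y) * (t - 1) * B) = 1 := by
    have : A + (1 + y) * (t - 1) * B = (ρ * (α + α')) * ((α + α')⁻¹ * ρ⁻¹ ^ 2) := by
      rw [r3, hA, hB]; ring
    rw [this]; field_simp
  obtain ⟨g0, -, g2, g1, -, g3, -, -⟩ := hN (a₀ / (1 + y)) (y * (a₀ / (1 + y))) a₂ (a₁ / (t - 1))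
    (t * (a₁ / (t - 1))) a₃ (σ₁ * A + (t - 1) ^ 2 * σ₂ * B) (σ₂ * A + (1 + y) ^ 2 * σ₁ * B)
    ((t₁.mul sA).add (((sos_sq _).mul t₂).mul sB)) ((t₂.mul sA).add (((sos_sq _).mul t₁).mul sB))
    (by
      have q0 : y * (a₀ / (1 + y)) ^ 2 + (y * (a₀ / (1 + y))) ^ 2 = a₀ ^ 2 * (y / (1 + y)) := by
        field_simp
      have q1 : t * (3 * (a₁ / (t - 1)) ^ 2) - 3 * (t * (a₁ / (t - 1))) ^ 2 =
          a₁ ^ 2 * (3 * t / (1 - t)) := by
        field_simp; ring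
      linear_combination q0 + q1 + (A + (1 + y) * (t - 1) * B) * e3 -
        (a₀ ^ 2 * (y / (1 + y)) + a₁ ^ 2 * (3 * t / (1 - t)) - a₂ ^ 2 * (y * (1 + Y ^ 2))
          - a₃ ^ 2 * (t * (3 * (1 + Y' ^ 2)))) * r4)
  exact ⟨(div_eq_zero_iff.mp g0).resolve_right hy1, (div_eq_zero_iff.mp g1).resolve_right ht1', g2,
    g3⟩

/-- the coefficients of the form. -/
def coef {K : Type} [Field K] (Y Y' y t : K) : Fin 4 → K :=
  ![(1 + y) / y, (1 - t) / (3 * t), -1 / (y * (1 + Y ^ 2)), -1 / (t * (3 * (1 + Y' ^ 2)))]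

lemma sum_sq_zero {K : Type} [Field K] (hr : ¬ IsSumSq (-1 : K)) {n : ℕ} (x : Fin n → K)
    (h : ∑ j, x j ^ 2 = 0) (j : Fin n) : x j = 0 := by
  classical
  rw [← Finset.add_sum_erase _ _ (Finset.mem_univ j)] at h
  exact pow_eq_zero_iff two_ne_zero |>.mp
    (add_zero_left hr (sos_sq _) (IsSumSq.sum fun i _ => sos_sq _) h)

theorem top {K : Type} [Field K] (hr : ¬ IsSumSq (-1 : K)) (Y Y' y t : K)
    (hN : N4 K Y Y' y t) (h1 : ¬ IsSumSq (1 + y)) (h2 : ¬ IsSumSq (1 - t)) {n : ℕ}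
    (x : Fin n → Fin 4 → K) (a : Fin 4 → K) (ha : a ≠ 0) (hx : ∀ j, ∑ i, a i * x j i = 0)
    (hq : ∑ j, ∑ i, coef Y Y' y t i * (x j i * x j i) = 0) : x = 0 := by
  have hy : y ≠ 0 := by
    rintro rfl
    exact h1 (by rw [add_zero]; exact IsSumSq.one)
  have ht : t ≠ 0 := by
    rintro rfl
    exact h2 (by rw [sub_zero]; exact IsSumSq.one)
  have hy1 : 1 + y ≠ 0 := fun h => h1 (by rw [h]; exact IsSumSq.zero)
  have ht1 : 1 - t ≠ 0 := fun h => h2 (by rw [h]; exact IsSumSq.zero)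
  have h3 := three_ne hr
  have hY : 1 + Y ^ 2 ≠ 0 := fun h => one_ne_zero (add_zero_left hr IsSumSq.one (sos_sq _) h)
  have hY' : 1 + Y' ^ 2 ≠ 0 := fun h => one_ne_zero (add_zero_left hr IsSumSq.one (sos_sq _) h)
  have sY : IsSumSq (1 + Y ^ 2) := IsSumSq.one.add (sos_sq _)
  have sY' : IsSumSq (3 * (1 + Y' ^ 2)) := sos_three.mul (IsSumSq.one.add (sos_sq _))
  have sg : ∀ f : Fin n → K, IsSumSq (∑ j, f j ^ 2) := fun f => IsSumSq.sum fun j _ => sos_sq _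
  simp only [Fin.sum_univ_four, coef, Matrix.cons_val] at hq hx
  simp only [Finset.sum_add_distrib, ← Finset.mul_sum, ← sq] at hq
  have l1 := Finset.sum_congr (s₁ := Finset.univ) rfl fun (j : Fin n) _ =>
    lagrange (c₀ := (1 + y) / y) (c₂ := -1 / (y * (1 + Y ^ 2))) (d₀ := y / (1 + y))
      (d₂ := -(y * (1 + Y ^ 2))) (by field_simp) (by field_simp) (a 0) (a 2) (x j 0) (x j 2)
  have l2 := Finset.sum_congr (s₁ := Finset.univ) rfl fun (j : Fin n) _ =>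
    lagrange (c₀ := (1 - t) / (3 * t)) (c₂ := -1 / (t * (3 * (1 + Y' ^ 2))))
      (d₀ := 3 * t / (1 - t))
      (d₂ := -(t * (3 * (1 + Y' ^ 2)))) (by field_simp) (by field_simp) (a 1) (a 3) (x j 1) (x j 3)
  have l3 : ∑ j, (a 0 * x j 0 + a 2 * x j 2) ^ 2 = ∑ j, (a 1 * x j 1 + a 3 * x j 3) ^ 2 :=
    Finset.sum_congr rfl fun j _ => by
      have : a 0 * x j 0 + a 2 * x j 2 = -(a 1 * x j 1 + a 3 * x j 3) := by
        linear_combination hx j
      rw [this]; ring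
  simp only [← Finset.sum_mul, Finset.sum_add_distrib, ← Finset.mul_sum] at l1 l2
  have core := top_core hr Y Y' y t hN h1 h2 (a 0) (a 1) (a 2) (a 3) (∑ j, x j 0 ^ 2)
    ((∑ j, x j 1 ^ 2) * 3⁻¹) ((∑ j, x j 2 ^ 2) * (1 + Y ^ 2)⁻¹)
    ((∑ j, x j 3 ^ 2) * (3 * (1 + Y' ^ 2))⁻¹)
    ((∑ j, (x j 0 * a 2 * -(y * (1 + Y ^ 2)) - x j 2 * a 0 * (y / (1 + y))) ^ 2) *
      (y⁻¹ ^ 2 * (1 + Y ^ 2)⁻¹))
    ((∑ j, (x j 1 * a 3 * -(t * (3 * (1 + Y' ^ 2))) - x j 3 * a 1 * (3 * t / (1 - t))) ^ 2) *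
      (t⁻¹ ^ 2 * (3⁻¹ * (3 * (1 + Y' ^ 2))⁻¹)))
    ((1 + y) / y * ∑ j, x j 0 ^ 2 + -1 / (y * (1 + Y ^ 2)) * ∑ j, x j 2 ^ 2)
    (sg _) ((sg _).mul (sos_inv sos_three)) ((sg _).mul (sos_inv sY)) ((sg _).mul (sos_inv sY'))
    ((sg _).mul ((sos_sq _).mul (sos_inv sY)))
    ((sg _).mul ((sos_sq _).mul ((sos_inv sos_three).mul (sos_inv sY'))))
    (by field_simp; ring)
    (by
      have : (1 - t) / t * ((∑ j, x j 1 ^ 2) * 3⁻¹) -
          1 / t * ((∑ j, x j 3 ^ 2) * (3 * (1 + Y' ^ 2))⁻¹) =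
          (1 - t) / (3 * t) * ∑ j, x j 1 ^ 2 +
            -1 / (t * (3 * (1 + Y' ^ 2))) * ∑ j, x j 3 ^ 2 := by
        field_simp; ring
      rw [this]
      linear_combination -hq)
    (by
      have c1 : (1 + y) / y * (-1 / (y * (1 + Y ^ 2))) = -(1 + y) * (y⁻¹ ^ 2 * (1 + Y ^ 2)⁻¹) := by
        field_simp
      have c2 : (1 - t) / (3 * t) * (-1 / (t * (3 * (1 + Y' ^ 2)))) =
          (t - 1) * (t⁻¹ ^ 2 * (3⁻¹ * (3 * (1 + Y' ^ 2))⁻¹)) := by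
        field_simp; ring
      rw [c1] at l1
      rw [c2] at l2
      linear_combination l1 - l2 + l3 +
        (a 1 ^ 2 * (3 * t / (1 - t)) + a 3 ^ 2 * -(t * (3 * (1 + Y' ^ 2)))) * hq)
  rcases core with ⟨g0, g1, g2, g3⟩ | ⟨g0, g1, g2, g3⟩
  · have g1' := (mul_eq_zero.mp g1).resolve_right (inv_ne_zero h3)
    have g2' := (mul_eq_zero.mp g2).resolve_right (inv_ne_zero hY)
    have g3' := (mul_eq_zero.mp g3).resolve_right (inv_ne_zero (mul_ne_zero h3 hY'))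
    funext j i
    fin_cases i
    · exact sum_sq_zero hr _ g0 j
    · exact sum_sq_zero hr _ g1' j
    · exact sum_sq_zero hr _ g2' j
    · exact sum_sq_zero hr _ g3' j
  · exfalso
    apply ha
    funext i
    fin_cases i
    · exact g0
    · exact g1
    · exact g2
    · exact g3

end Pool.Agent.H48.WTop
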