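import Mathlib
import Pool.Agent.H48.WTop

set_option autoImplicit false

namespace Pool.Agent.H48.WTower

open Module WPar WSos WLev WTop

section

variable {k : Type} [Field k] [CharZero k]

theorem allReal (hr : AllReal k) : AllReal (RatFunc k) := by
  intro L _ _ hodd
  let : Algebra k L := ((algebraMap (RatFunc k) L).comp (algebraMap k (RatFunc k))).toAlgebra
  have : IsScalarTower k (RatFunc k) L :=
    IsScalarTower.of_algebraMap_eq (R := k) (S := RatFunc k) (A := L) fun _ => rfl
  exact real_step hr hodd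

theorem all1 (hr : AllReal k)
    (h0 : ∀ (E : Type) [Field E] [Algebra k E], Odd (finrank k E) → N0 E)
    (L : Type) [Field L] [Algebra (RatFunc k) L] (hodd : Odd (finrank (RatFunc k) L)) :
    N1 L (algebraMap (RatFunc k) L RatFunc.X) := by
  let : Algebra k L := ((algebraMap (RatFunc k) L).comp (algebraMap k (RatFunc k))).toAlgebra
  have : IsScalarTower k (RatFunc k) L :=
    IsScalarTower.of_algebraMap_eq (R := k) (S := RatFunc k) (A := L) fun _ => rfl
  exact step1 hr hodd h0

theorem all2 (hr : AllReal k) (Y : k)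
    (h0 : ∀ (E : Type) [Field E] [Algebra k E], Odd (finrank k E) → N1 E (algebraMap k E Y))
    (L : Type) [Field L] [Algebra (RatFunc k) L] (hodd : Odd (finrank (RatFunc k) L)) :
    N2 L (algebraMap (RatFunc k) L (algebraMap k (RatFunc k) Y))
      (algebraMap (RatFunc k) L RatFunc.X) := by
  let : Algebra k L := ((algebraMap (RatFunc k) L).comp (algebraMap k (RatFunc k))).toAlgebra
  have : IsScalarTower k (RatFunc k) L :=
    IsScalarTower.of_algebraMap_eq (R := k) (S := RatFunc k) (A := L) fun _ => rfl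
  exact step2 hr hodd Y h0

theorem all3 (hr : AllReal k) (Y Y' : k)
    (h0 : ∀ (E : Type) [Field E] [Algebra k E], Odd (finrank k E) →
      N2 E (algebraMap k E Y) (algebraMap k E Y'))
    (L : Type) [Field L] [Algebra (RatFunc k) L] (hodd : Odd (finrank (RatFunc k) L)) :
    N3 L (algebraMap (RatFunc k) L (algebraMap k (RatFunc k) Y))
      (algebraMap (RatFunc k) L (algebraMap k (RatFunc k) Y'))
      (algebraMap (RatFunc k) L RatFunc.X) := by
  let : Algebra k L := ((algebraMap (RatFunc k) L).comp (algebraMap k (RatFunc k))).toAlgebra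
  have : IsScalarTower k (RatFunc k) L :=
    IsScalarTower.of_algebraMap_eq (R := k) (S := RatFunc k) (A := L) fun _ => rfl
  exact step3 hr hodd Y Y' h0

theorem all4 (hr : AllReal k) (Y Y' y : k)
    (h0 : ∀ (E : Type) [Field E] [Algebra k E], Odd (finrank k E) →
      N3 E (algebraMap k E Y) (algebraMap k E Y') (algebraMap k E y)) :
    N4 (RatFunc k) (algebraMap k (RatFunc k) Y) (algebraMap k (RatFunc k) Y')
      (algebraMap k (RatFunc k) y) RatFunc.X :=
  step4 (L := RatFunc k) hr (by simp) Y Y' y h0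

theorem allLin (hr : AllReal k) (L : Type) [Field L] [Algebra (RatFunc k) L]
    (hodd : Odd (finrank (RatFunc k) L)) (ε : RatFunc k) (hε : ε = 1 ∨ ε = -1) :
    ¬ IsSumSq (algebraMap (RatFunc k) L (1 + ε * RatFunc.X)) := by
  let : Algebra k L := ((algebraMap (RatFunc k) L).comp (algebraMap k (RatFunc k))).toAlgebra
  have : IsScalarTower k (RatFunc k) L :=
    IsScalarTower.of_algebraMap_eq (R := k) (S := RatFunc k) (A := L) fun _ => rfl
  have h0 : (1 + ε * RatFunc.X : RatFunc k) ≠ 0 := by
    intro h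
    apply RatFunc.transcendental_X (K := k)
    rcases hε with rfl | rfl
    · have : (RatFunc.X : RatFunc k) = -1 := by linear_combination h
      rw [this]; exact isAlgebraic_one.neg
    · have : (RatFunc.X : RatFunc k) = 1 := by linear_combination -h
      rw [this]; exact isAlgebraic_one
  have h1 : algebraMap (RatFunc k) L (1 + ε * RatFunc.X) ≠ 0 := by
    rwa [Ne, map_eq_zero_iff _ (algebraMap (RatFunc k) L).injective]
  rw [map_add, map_mul, map_one] at h1 ⊢
  refine lin_step (k := k) hr hodd _ ?_ h1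
  rcases hε with rfl | rfl
  · left; simp
  · right; simp

theorem fin1 (hr : AllReal k) (a : k)
    (ha : ∀ (E : Type) [Field E] [Algebra k E], Odd (finrank k E) → ¬ IsSumSq (algebraMap k E a)) :
    ¬ IsSumSq (algebraMap k (RatFunc k) a) :=
  lift_step (L := RatFunc k) hr (by simp) a ha

theorem fin2 (hr : AllReal k) : ¬ IsSumSq (1 - (RatFunc.X : RatFunc k)) := by
  have := allLin hr (RatFunc k) (by simp) (-1) (Or.inr rfl)
  simpa [sub_eq_add_neg] using this

theorem fin3 (hr : AllReal k) : ¬ IsSumSq (-1 : RatFunc k) :=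
  allReal hr (RatFunc k) (by simp)

theorem fin4 (hr : AllReal k) (Y Y' y : k)
    (h0 : ∀ (E : Type) [Field E] [Algebra k E], Odd (finrank k E) →
      N3 E (algebraMap k E Y) (algebraMap k E Y') (algebraMap k E y))
    (h1 : ∀ (E : Type) [Field E] [Algebra k E], Odd (finrank k E) →
      ¬ IsSumSq (algebraMap k E (1 + 1 * y))) :
    ∃ (K : Type) (_ : Field K) (Y Y' y t : K), ¬ IsSumSq (-1 : K) ∧
      N4 K Y Y' y t ∧ ¬ IsSumSq (1 + y) ∧ ¬ IsSumSq (1 - t) := by
  refine ⟨RatFunc k, inferInstance, _, _, _, _, fin3 hr, all4 hr Y Y' y h0, ?_, fin2 hr⟩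
  have := fin1 hr _ h1
  rwa [map_add, map_one, one_mul] at this

end

theorem exists_field : ∃ (K : Type) (_ : Field K) (Y Y' y t : K), ¬ IsSumSq (-1 : K) ∧
    N4 K Y Y' y t ∧ ¬ IsSumSq (1 + y) ∧ ¬ IsSumSq (1 - t) := by
  have r0 := real_rat
  have r1 := allReal r0
  have r2 := allReal r1
  have r3 := allReal r2
  have n1 := all1 r0 (fun E _ _ h => n0_rat E h)
  have n2 := all2 r1 _ n1
  have n3 := all3 r2 _ _ n2
  exact fin4 r3 _ _ _ n3 (fun E _ _ h => allLin r2 E h 1 (Or.inl rfl))

end Pool.Agent.H48.WTower
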