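import Mathlib
import Pool.Agent.H48.BAlg

set_option autoImplicit false

namespace Pool.Agent.H48.Wedge

open Pool.Agent.H48.BAlg

/-- coordinates: 0,1,2 = v ; 3 = s ; 4,5,6 = u ; 7,8,9 = w -/
def prod (a b : Fin 10 → ℚ) : Fin 10 → ℚ :=
  ![0, 0, 0,
    a 0 * b 7 + a 1 * b 8 + a 2 * b 9 - (b 0 * a 7 + b 1 * a 8 + b 2 * a 9),
    b 3 * a 0 - a 3 * b 0, b 3 * a 1 - a 3 * b 1, b 3 * a 2 - a 3 * b 2,
    a 1 * b 6 - a 2 * b 5 - (b 1 * a 6 - b 2 * a 5),
    a 2 * b 4 - a 0 * b 6 - (b 2 * a 4 - b 0 * a 6),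
    a 0 * b 5 - a 1 * b 4 - (b 0 * a 5 - b 1 * a 4)]

def pm : (Fin 10 → ℚ) →ₗ[ℚ] (Fin 10 → ℚ) →ₗ[ℚ] (Fin 10 → ℚ) :=
  LinearMap.mk₂ ℚ prod
    (by intro a a' b; ext i; fin_cases i <;> simp [prod] <;> ring)
    (by intro c a b; ext i; fin_cases i <;> simp [prod] <;> ring)
    (by intro a b b'; ext i; fin_cases i <;> simp [prod] <;> ring)
    (by intro c a b; ext i; fin_cases i <;> simp [prod] <;> ring)

abbrev A := Alg pm

def co (a : A) : Fin 10 → ℚ := (mk pm).symm a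

theorem co_mul (a b : A) : co (a * b) = prod (co a) (co b) := rfl

theorem co_inj {a b : A} (h : co a = co b) : a = b := (mk pm).symm.injective h

theorem co_zero : co 0 = 0 := rfl

theorem sq_zero (a : A) : a * a = 0 := by
  apply co_inj
  rw [co_mul, co_zero]
  ext i; fin_cases i <;> simp [prod]

section two
variable (p q : Fin 10 → ℚ)

/-- the vector `(x,y,z)` lies in the span of the `v`-parts of `p`, `q` -/
def W (x y z : ℚ) : Prop :=
  ∃ α β : ℚ, x = α * p 0 + β * q 0 ∧ y = α * p 1 + β * q 1 ∧ z = α * p 2 + β * q 2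

def P1 (a : Fin 10 → ℚ) : Prop := W p q (a 0) (a 1) (a 2)
def P2 (a : Fin 10 → ℚ) : Prop := a 0 = 0 ∧ a 1 = 0 ∧ a 2 = 0 ∧ W p q (a 4) (a 5) (a 6)
def P3 (a : Fin 10 → ℚ) : Prop :=
  p 0 * a 7 + p 1 * a 8 + p 2 * a 9 = 0 ∧ q 0 * a 7 + q 1 * a 8 + q 2 * a 9 = 0
def P4 (a : Fin 10 → ℚ) : Prop := a 3 = 0
def P5 (a : Fin 10 → ℚ) : Prop := a 4 = 0 ∧ a 5 = 0 ∧ a 6 = 0

def Inv (k : ℕ) (a : Fin 10 → ℚ) : Prop :=
  P1 p q a ∧ (2 ≤ k → P2 p q a) ∧ (3 ≤ k → P3 p q a) ∧ (4 ≤ k → P4 a) ∧ (5 ≤ k → P5 a) ∧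
    (6 ≤ k → a = 0)

theorem prod_swap (a b : Fin 10 → ℚ) : prod b a = - prod a b := by
  ext i; fin_cases i <;> simp [prod] <;> ring

theorem inv_neg {k : ℕ} {a : Fin 10 → ℚ} (h : Inv p q k a) : Inv p q k (-a) := by
  obtain ⟨⟨α, β, h1, h2, h3⟩, g2, g3, g4, g5, g6⟩ := h
  refine ⟨⟨-α, -β, ?_, ?_, ?_⟩, fun hk => ?_, fun hk => ?_, fun hk => ?_, fun hk => ?_,
    fun hk => ?_⟩
  · simp only [Pi.neg_apply]; linear_combination -h1
  · simp only [Pi.neg_apply]; linear_combination -h2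
  · simp only [Pi.neg_apply]; linear_combination -h3
  · obtain ⟨a0, a1, a2, γ, δ, k1, k2, k3⟩ := g2 hk
    refine ⟨by simp [a0], by simp [a1], by simp [a2], -γ, -δ, ?_, ?_, ?_⟩
    · simp only [Pi.neg_apply]; linear_combination -k1
    · simp only [Pi.neg_apply]; linear_combination -k2
    · simp only [Pi.neg_apply]; linear_combination -k3
  · obtain ⟨k1, k2⟩ := g3 hk
    refine ⟨?_, ?_⟩
    · simp only [Pi.neg_apply]; linear_combination -k1
    · simp only [Pi.neg_apply]; linear_combination -k2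
  · have := g4 hk
    simpa [P4] using this
  · have := g5 hk
    simpa [P5] using this
  · simp [g6 hk]

theorem inv_step {k : ℕ} {a b : Fin 10 → ℚ} (ha : P1 p q a) (hb : Inv p q k b) :
    Inv p q (k + 1) (prod a b) := by
  obtain ⟨⟨α', β', b0, b1, b2⟩, g2, g3, g4, g5, g6⟩ := hb
  obtain ⟨α, β, a0, a1, a2⟩ := ha
  refine ⟨⟨0, 0, by simp [prod], by simp [prod], by simp [prod]⟩, fun _ => ?_, fun hk => ?_,
    fun hk => ?_, fun hk => ?_, fun hk => ?_⟩
  · refine ⟨by simp [prod], by simp [prod], by simp [prod], b 3 * α - a 3 * α',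
      b 3 * β - a 3 * β', ?_, ?_, ?_⟩
    · simp [prod, a0, b0]; ring
    · simp [prod, a1, b1]; ring
    · simp [prod, a2, b2]; ring
  · obtain ⟨c0, c1, c2, γ, δ, k1, k2, k3⟩ := g2 (by omega)
    refine ⟨?_, ?_⟩
    · simp [prod, c0, c1, c2, a0, a1, a2, k1, k2, k3]; ring
    · simp [prod, c0, c1, c2, a0, a1, a2, k1, k2, k3]; ring
  · obtain ⟨c0, c1, c2, -⟩ := g2 (by omega)
    obtain ⟨k1, k2⟩ := g3 (by omega)
    simp [P4, prod, c0, c1, c2, a0, a1, a2]
    linear_combination α * k1 + β * k2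
  · obtain ⟨c0, c1, c2, -⟩ := g2 (by omega)
    have k1 : b 3 = 0 := g4 (by omega)
    simp [P5, prod, c0, c1, c2, k1]
  · obtain ⟨c0, c1, c2, -⟩ := g2 (by omega)
    obtain ⟨k1, k2⟩ := g3 (by omega)
    have k3 : b 3 = 0 := g4 (by omega)
    obtain ⟨k4, k5, k6⟩ := g5 (by omega)
    ext i
    fin_cases i <;> simp [prod, c0, c1, c2, k3, k4, k5, k6]
    rw [a0, a1, a2]
    linear_combination α * k1 + β * k2

theorem inv_zero (k : ℕ) : Inv p q k 0 := by
  refine ⟨⟨0, 0, by simp, by simp, by simp⟩, fun _ => ⟨rfl, rfl, rfl, 0, 0, by simp, by simp,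
    by simp⟩, fun _ => ⟨by simp, by simp⟩, fun _ => rfl, fun _ => ⟨rfl, rfl, rfl⟩, fun _ => rfl⟩

theorem inv_mul {i j : ℕ} {a b : Fin 10 → ℚ} (hi : 1 ≤ i) (hj : 1 ≤ j) (ha : Inv p q i a)
    (hb : Inv p q j b) : Inv p q (i + j) (prod a b) := by
  rcases Nat.eq_or_lt_of_le hi with h1 | h1
  · rw [← h1, add_comm]; exact inv_step p q ha.1 hb
  rcases Nat.eq_or_lt_of_le hj with h2 | h2
  · rw [← h2, prod_swap]; exact inv_neg p q (inv_step p q hb.1 ha)
  obtain ⟨a0, a1, a2, -⟩ := ha.2.1 h1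
  obtain ⟨b0, b1, b2, -⟩ := hb.2.1 h2
  have : prod a b = 0 := by
    ext t; fin_cases t <;> simp [prod, a0, a1, a2, b0, b1, b2]
  rw [this]; exact inv_zero p q _

end two

theorem length_pos {X : Type} (w : FreeMagma X) : 1 ≤ w.length := by
  induction w using FreeMagma.recOnMul with
  | ih1 x => simp [FreeMagma.length]
  | ih2 x y hx hy => 
    change 1 ≤ x.length + y.length
    omega

theorem inv_lift (x : Fin 2 → A) (w : FreeMagma (Fin 2)) :
    Inv (co (x 0)) (co (x 1)) w.length (co (FreeMagma.lift x w)) := by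
  induction w using FreeMagma.recOnMul with
  | ih1 t =>
    have hl : (FreeMagma.of t).length = 1 := rfl
    rw [hl, FreeMagma.lift_of]
    refine ⟨?_, by omega, by omega, by omega, by omega, by omega⟩
    fin_cases t
    · exact ⟨1, 0, by simp, by simp, by simp⟩
    · exact ⟨0, 1, by simp, by simp, by simp⟩
  | ih2 u v hu hv =>
    have hl : (u * v).length = u.length + v.length := rfl
    rw [hl, map_mul, co_mul]
    exact inv_mul _ _ (length_pos u) (length_pos v) hu hv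

theorem two_nil (x : Fin 2 → A) (w : FreeMagma (Fin 2)) (h : 6 ≤ w.length) :
    FreeMagma.lift x w = 0 := by
  apply co_inj
  rw [co_zero]
  exact (inv_lift x w).2.2.2.2.2 h

def gens : Fin 4 → A := fun i => mk pm (Pi.single (Fin.castLE (by norm_num) i) 1)

def word : ℕ → FreeMagma (Fin 4)
  | 0 => FreeMagma.of 3
  | k + 1 => FreeMagma.of 0 * (FreeMagma.of 1 * (FreeMagma.of 2 * word k))

theorem word_length (k : ℕ) : k ≤ (word k).length := by
  induction k with
  | zero => omega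
  | succ k ih =>
    change k + 1 ≤ 1 + (1 + (1 + (word k).length))
    omega

theorem co_gens (i : Fin 4) : co (gens i) = Pi.single (Fin.castLE (by norm_num) i) 1 := rfl

theorem lift_word (k : ℕ) : FreeMagma.lift gens (word k) = gens 3 := by
  induction k with
  | zero => rfl
  | succ k ih =>
    simp only [word, map_mul, FreeMagma.lift_of, ih]
    apply co_inj
    simp only [co_mul, co_gens]
    ext i; fin_cases i <;> simp [prod, Fin.castLE, Pi.single_apply]

theorem gens_ne : gens 3 ≠ 0 := by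
  intro h
  have := congrFun (congrArg co h) 3
  rw [co_gens, co_zero] at this
  simp [Fin.castLE] at this

theorem lift_map {B : Type} [Mul B] (v : ℕ → B) (w : FreeMagma (Fin 2)) :
    FreeMagma.lift v (FreeMagma.map (fun i : Fin 2 => (i : ℕ)) w) =
      FreeMagma.lift (fun i : Fin 2 => v i) w := by
  induction w using FreeMagma.recOnMul with
  | ih1 t => simp
  | ih2 u v hu hv => simp only [map_mul, hu, hv]

end Pool.Agent.H48.Wedge
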