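import Mathlib

set_option autoImplicit false

namespace Pool.Agent.H48.WeylA

open Finset Complex

/-- sum over `range p` of a function of the residue equals the sum over `ZMod p`. -/
lemma sum_range_zmod {p : ℕ} [NeZero p] (F : ZMod p → ℂ) :
    ∑ r ∈ range p, F (r : ZMod p) = ∑ y : ZMod p, F y := by
  refine Finset.sum_bij (fun r _ => (r : ZMod p)) (fun _ _ => mem_univ _) ?_ ?_ (fun _ _ => rfl)
  · intro a ha b hb hab
    have := congrArg ZMod.val hab
    rwa [ZMod.val_cast_of_lt (mem_range.mp ha), ZMod.val_cast_of_lt (mem_range.mp hb)] at this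
  · intro y _
    exact ⟨y.val, mem_range.mpr (ZMod.val_lt y), ZMod.natCast_zmod_val y⟩

lemma norm_std {p : ℕ} [NeZero p] (y : ZMod p) : ‖(ZMod.stdAddChar y : ℂ)‖ = 1 := by
  rw [ZMod.stdAddChar_apply]
  exact Circle.norm_coe _

lemma conj_std {p : ℕ} [NeZero p] (y : ZMod p) :
    (starRingEnd ℂ) (ZMod.stdAddChar y : ℂ) = ZMod.stdAddChar (-y) := by
  rw [AddChar.map_neg_eq_inv, ← Complex.inv_eq_conj (norm_std y)]

/-- Quadratic Gauss sums have modulus `√p`. -/
lemma gauss {p : ℕ} [NeZero p] [Fact p.Prime] (h2 : (2 : ZMod p) ≠ 0) (a b : ZMod p) (ha : a ≠ 0) :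
    ‖∑ y : ZMod p, (ZMod.stdAddChar (b * y + a * y ^ 2) : ℂ)‖ = Real.sqrt p := by
  set S := ∑ y : ZMod p, (ZMod.stdAddChar (b * y + a * y ^ 2) : ℂ) with hS
  have h1 : S * (starRingEnd ℂ) S = p := by
    rw [hS, map_sum, mul_comm, Finset.sum_mul_sum]
    have : ∀ y : ZMod p, ∑ x : ZMod p, (starRingEnd ℂ) (ZMod.stdAddChar (b * y + a * y ^ 2) : ℂ) *
        (ZMod.stdAddChar (b * x + a * x ^ 2) : ℂ) =
        ∑ h : ZMod p, (ZMod.stdAddChar (b * h + a * h ^ 2) : ℂ) *
          ZMod.stdAddChar (y * (2 * a * h)) := by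
      intro y
      rw [← Equiv.sum_comp (Equiv.addLeft y)]
      refine Finset.sum_congr rfl fun h _ => ?_
      rw [conj_std, ← AddChar.map_add_eq_mul, ← AddChar.map_add_eq_mul]
      congr 1
      simp only [Equiv.coe_addLeft]
      ring
    simp_rw [this]
    rw [Finset.sum_comm]
    simp_rw [← Finset.mul_sum, AddChar.sum_mulShift _ (ZMod.isPrimitive_stdAddChar p)]
    rw [Finset.sum_eq_single (0 : ZMod p)]
    · simp [ZMod.card]
    · intro h _ hh
      have : 2 * a * h ≠ 0 := mul_ne_zero (mul_ne_zero h2 ha) hh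
      simp [this]
    · simp
  rw [Complex.mul_conj, Complex.normSq_eq_norm_sq] at h1
  have h3 : ‖S‖ ^ 2 = p := by exact_mod_cast h1
  rw [← h3, Real.sqrt_sq (norm_nonneg _)]

/-- partial sums of a periodic sequence minus its mean are bounded. -/
lemma periodic_bound (q : ℕ) (hq : 0 < q) (u : ℕ → ℂ) (hu : ∀ x, ‖u x‖ ≤ 1)
    (hp : ∀ x, u (x + q) = u x) (n : ℕ) :
    ‖∑ x ∈ range n, (u x - (∑ r ∈ range q, u r) / q)‖ ≤ 2 * q := by
  set S := ∑ r ∈ range q, u r with hS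
  have hq' : (q : ℂ) ≠ 0 := by exact_mod_cast hq.ne'
  have hW : ∀ m, ∑ i ∈ range q, u (m + i) = S := by
    intro m
    induction m with
    | zero => simp [hS]
    | succ m ih =>
      have h1 := Finset.sum_range_succ (fun i => u (m + i)) q
      have h2 := Finset.sum_range_succ' (fun i => u (m + i)) q
      have h3 : ∑ i ∈ range q, u (m + 1 + i) = ∑ i ∈ range q, u (m + (i + 1)) :=
        Finset.sum_congr rfl fun i _ => by congr 1; ring
      rw [h3]
      rw [h1, hp, ih] at h2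
      simp only [add_zero] at h2
      linear_combination -h2
  have hSn : ‖S / q‖ ≤ 1 := by
    rw [norm_div, Complex.norm_natCast, div_le_one (by exact_mod_cast hq)]
    calc ‖S‖ ≤ ∑ r ∈ range q, ‖u r‖ := norm_sum_le _ _
      _ ≤ ∑ r ∈ range q, (1 : ℝ) := Finset.sum_le_sum fun r _ => hu r
      _ = q := by simp
  induction n using Nat.strong_induction_on with
  | _ n ih =>
    by_cases hn : n < q
    · calc ‖∑ x ∈ range n, (u x - S / q)‖ ≤ ∑ x ∈ range n, ‖u x - S / q‖ := norm_sum_le _ _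
        _ ≤ ∑ x ∈ range n, (2 : ℝ) := Finset.sum_le_sum fun r _ => by
            have := norm_sub_le (u r) (S / q)
            linarith [hu r]
        _ = 2 * n := by simp [mul_comm]
        _ ≤ 2 * q := by gcongr
    · obtain ⟨m, rfl⟩ : ∃ m, n = m + q := ⟨n - q, by omega⟩
      rw [Finset.sum_range_add]
      have : ∑ x ∈ range q, (u (m + x) - S / q) = 0 := by
        rw [Finset.sum_sub_distrib, hW]
        simp only [sum_const, card_range, nsmul_eq_mul]
        field_simp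
        ring
      rw [this, add_zero]
      exact ih m (by omega)

/-- Perturbation of a periodic sum by a slowly varying factor. -/
lemma perturb (q : ℕ) (hq : 0 < q) (u g : ℕ → ℂ) (hu : ∀ x, ‖u x‖ ≤ 1)
    (hp : ∀ x, u (x + q) = u x) (X : ℕ) (η δ : ℝ) (hδ : 0 ≤ δ) (hg0 : ∀ x, ‖g x‖ ≤ 1)
    (hg1 : ∀ x < X, ‖g x - 1‖ ≤ η) (hg2 : ∀ x, x + 1 < X → ‖g (x + 1) - g x‖ ≤ δ) :
    ‖∑ r ∈ range q, u r‖ / q * (X * (1 - η)) - 2 * q * (1 + X * δ) ≤
      ‖∑ x ∈ range X, g x * u x‖ := by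
  set S := ∑ r ∈ range q, u r with hS
  have hb := periodic_bound q hq u hu hp
  rw [← hS] at hb
  have hsplit : ∑ x ∈ range X, g x * u x =
      S / q * ∑ x ∈ range X, g x + ∑ x ∈ range X, g x • (u x - S / q) := by
    rw [Finset.mul_sum, ← Finset.sum_add_distrib]
    refine Finset.sum_congr rfl fun x _ => ?_
    simp only [smul_eq_mul]
    ring
  have h1 : X * (1 - η) ≤ ‖∑ x ∈ range X, g x‖ := by
    have e : (X : ℂ) = ∑ x ∈ range X, g x - ∑ x ∈ range X, (g x - 1) := by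
      rw [Finset.sum_sub_distrib]; simp
    have h2 : ‖∑ x ∈ range X, (g x - 1)‖ ≤ X * η := by
      calc _ ≤ ∑ x ∈ range X, ‖g x - 1‖ := norm_sum_le _ _
        _ ≤ ∑ x ∈ range X, η := Finset.sum_le_sum fun x hx => hg1 x (mem_range.mp hx)
        _ = X * η := by simp
    have h3 : (X : ℝ) ≤ ‖∑ x ∈ range X, g x‖ + ‖∑ x ∈ range X, (g x - 1)‖ := by
      calc (X : ℝ) = ‖(X : ℂ)‖ := by simp
        _ ≤ _ := by rw [e]; exact norm_sub_le _ _
    linarith
  have h2 : ‖∑ x ∈ range X, g x • (u x - S / q)‖ ≤ 2 * q * (1 + X * δ) := by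
    rw [Finset.sum_range_by_parts]
    have hA : ‖g (X - 1) • ∑ i ∈ range X, (u i - S / q)‖ ≤ 2 * q := by
      rw [norm_smul]
      calc _ ≤ 1 * (2 * q : ℝ) := by
            gcongr
            · exact hg0 _
            · exact hb _
        _ = _ := by ring
    have hB : ‖∑ i ∈ range (X - 1), (g (i + 1) - g i) • ∑ j ∈ range (i + 1), (u j - S / q)‖ ≤
        X * (δ * (2 * q)) := by
      calc _ ≤ ∑ i ∈ range (X - 1), ‖(g (i + 1) - g i) • ∑ j ∈ range (i + 1), (u j - S / q)‖ :=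
            norm_sum_le _ _
        _ ≤ ∑ i ∈ range (X - 1), δ * (2 * q) := by
            refine Finset.sum_le_sum fun i hi => ?_
            rw [norm_smul]
            have := mem_range.mp hi
            gcongr
            · exact hg2 i (by omega)
            · exact hb _
        _ = ((X - 1 : ℕ) : ℝ) * (δ * (2 * q)) := by simp
        _ ≤ _ := by
            gcongr
            omega
    calc _ ≤ _ := norm_sub_le _ _
      _ ≤ 2 * q + X * (δ * (2 * q)) := add_le_add hA hB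
      _ = _ := by ring
  rw [hsplit]
  have h4 : ‖S‖ / q * (X * (1 - η)) ≤ ‖S / q * ∑ x ∈ range X, g x‖ := by
    rw [norm_mul, norm_div, Complex.norm_natCast]
    gcongr
  have h5 := norm_sub_le (S / q * ∑ x ∈ range X, g x + ∑ x ∈ range X, g x • (u x - S / q))
    (∑ x ∈ range X, g x • (u x - S / q))
  rw [add_sub_cancel_right] at h5
  linarith

lemma norm_e_sub (s t : ℝ) :
    ‖Complex.exp (2 * Real.pi * I * s) - Complex.exp (2 * Real.pi * I * t)‖ ≤
      2 * Real.pi * |s - t| := by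
  have e : Complex.exp (2 * Real.pi * I * s) - Complex.exp (2 * Real.pi * I * t) =
      Complex.exp (I * ((2 * Real.pi * t : ℝ) : ℂ)) *
        (Complex.exp (I * ((2 * Real.pi * (s - t) : ℝ) : ℂ)) - 1) := by
    rw [mul_sub, ← Complex.exp_add]
    push_cast
    congr 1
    · congr 1; ring
    · rw [mul_one]; congr 1; ring
  rw [e, norm_mul, Complex.norm_exp_I_mul_ofReal, one_mul]
  refine le_trans Real.norm_exp_I_mul_ofReal_sub_one_le ?_
  rw [Real.norm_eq_abs, abs_mul, abs_of_pos (by positivity : 0 < 2 * Real.pi)]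

lemma norm_e (t : ℝ) : ‖Complex.exp (2 * Real.pi * I * t)‖ = 1 := by
  have e : Complex.exp (2 * Real.pi * I * t) = Complex.exp (I * ((2 * Real.pi * t : ℝ) : ℂ)) := by
    push_cast; congr 1; ring
  rw [e, Complex.norm_exp_I_mul_ofReal]

/-- The quadratic Weyl sum is large near `(b/p, a/p)`. -/
lemma large (p : ℕ) (hp : p.Prime) (hp2 : 2 < p) (a b : ℕ) (ha0 : 0 < a) (hap : a < p)
    (X : ℕ) (hX : 0 < X) (hXp : 8 * p * Real.sqrt p ≤ X) (β₁ β₂ : ℝ) (h10 : 0 ≤ β₁) (h20 : 0 ≤ β₂)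
    (h11 : β₁ ≤ 1 / (100 * X)) (h21 : β₂ ≤ 1 / (100 * X ^ 2)) :
    X / (2 * Real.sqrt p) ≤ ‖∑ x ∈ Finset.Icc 1 X, Complex.exp (2 * (Real.pi : ℂ) * I *
      ((((b : ℝ) / p + β₁ : ℝ) : ℂ) * (x : ℂ) + (((a : ℝ) / p + β₂ : ℝ) : ℂ) * (x : ℂ) ^ 2))‖ := by
  have : NeZero p := ⟨hp.ne_zero⟩
  have : Fact p.Prime := ⟨hp⟩
  have hp0 : (0 : ℝ) < p := by exact_mod_cast hp.pos
  have hX0 : (0 : ℝ) < X := by exact_mod_cast hX
  have hX1 : (1 : ℝ) ≤ X := by exact_mod_cast hX
  set F : ZMod p → ℂ := fun y => ZMod.stdAddChar ((b : ZMod p) * y + (a : ZMod p) * y ^ 2) with hF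
  set u : ℕ → ℂ := fun x => F ((x : ZMod p) + 1) with hu
  set g : ℕ → ℂ := fun x => Complex.exp (2 * Real.pi * I *
    ((β₁ * (x + 1) + β₂ * (x + 1) ^ 2 : ℝ) : ℂ)) with hg
  have hsum : ∑ x ∈ Finset.Icc 1 X, Complex.exp (2 * (Real.pi : ℂ) * I *
      ((((b : ℝ) / p + β₁ : ℝ) : ℂ) * (x : ℂ) + (((a : ℝ) / p + β₂ : ℝ) : ℂ) * (x : ℂ) ^ 2)) =
      ∑ x ∈ range X, g x * u x := by
    rw [← Finset.Ico_add_one_right_eq_Icc, Finset.sum_Ico_eq_sum_range]
    simp only [add_tsub_cancel_right]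
    refine Finset.sum_congr rfl fun x _ => ?_
    have e1 : (b : ZMod p) * ((x : ZMod p) + 1) + (a : ZMod p) * ((x : ZMod p) + 1) ^ 2 =
        ((b * (x + 1) + a * (x + 1) ^ 2 : ℤ) : ZMod p) := by push_cast; ring
    simp only [hg, hu, hF]
    rw [e1, ZMod.stdAddChar_coe, ← Complex.exp_add]
    congr 1
    push_cast
    ring
  have hS : ‖∑ r ∈ range p, u r‖ = Real.sqrt p := by
    have e1 : ∑ r ∈ range p, u r = ∑ y : ZMod p, F (y + 1) :=
      sum_range_zmod (fun y => F (y + 1))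
    have e2 : ∑ y : ZMod p, F (y + 1) = ∑ y : ZMod p, F y := Equiv.sum_comp (Equiv.addRight 1) F
    rw [e1, e2]
    refine gauss ?_ _ _ ?_
    · intro h
      have : ((2 : ℕ) : ZMod p) = 0 := by exact_mod_cast h
      rw [ZMod.natCast_eq_zero_iff] at this
      have := Nat.le_of_dvd (by norm_num) this
      omega
    · intro h
      rw [ZMod.natCast_eq_zero_iff] at h
      have := Nat.le_of_dvd ha0 h
      omega
  have hpi : Real.pi ≤ 4 := Real.pi_le_four
  have hpi0 : 0 < Real.pi := Real.pi_pos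
  have h11' : β₁ * X ≤ 1 / 100 := by
    rw [le_div_iff₀ (by positivity)] at h11; linarith
  have h21' : β₂ * X ^ 2 ≤ 1 / 100 := by
    rw [le_div_iff₀ (by positivity)] at h21; linarith
  have key := perturb p hp.pos u g (fun x => (norm_std _).le)
    (fun x => by simp [hu]) X (4 / 25) (6 / (25 * X)) (by positivity) (fun x => (norm_e _).le) ?_ ?_
  · rw [hsum]
    refine le_trans ?_ key
    rw [hS]
    have hs : 0 < Real.sqrt p := Real.sqrt_pos.mpr hp0
    have hs2 : Real.sqrt p * Real.sqrt p = p := Real.mul_self_sqrt hp0.le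
    have e1 : Real.sqrt p / p = 1 / Real.sqrt p := by
      field_simp
      rw [sq, hs2]
    have e2 : (X : ℝ) * (6 / (25 * X)) = 6 / 25 := by field_simp
    rw [e1, e2]
    have e3 : (p : ℝ) ≤ X / (8 * Real.sqrt p) := by
      rw [le_div_iff₀ (by positivity)]; linarith
    have e4 : (X : ℝ) / (8 * Real.sqrt p) = 1 / Real.sqrt p * X / 8 := by field_simp
    have e5 : (X : ℝ) / (2 * Real.sqrt p) = 1 / Real.sqrt p * X / 2 := by field_simp
    rw [e5]
    rw [e4] at e3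
    have e6 : 0 ≤ 1 / Real.sqrt p * X := by positivity
    nlinarith
  · intro x hx
    have hx' : (x : ℝ) + 1 ≤ X := by exact_mod_cast hx
    have hx0 : (0 : ℝ) ≤ x := Nat.cast_nonneg _
    have := norm_e_sub (β₁ * (x + 1) + β₂ * (x + 1) ^ 2) 0
    simp only [ofReal_zero, mul_zero, Complex.exp_zero, sub_zero] at this
    refine le_trans this ?_
    rw [abs_of_nonneg (by positivity)]
    have a1 : β₁ * (x + 1) ≤ β₁ * X := by gcongr
    have a2 : β₂ * (x + 1) ^ 2 ≤ β₂ * X ^ 2 := by gcongr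
    calc 2 * Real.pi * (β₁ * (x + 1) + β₂ * (x + 1) ^ 2) ≤ 2 * 4 * (1 / 100 + 1 / 100) := by
          gcongr <;> linarith
      _ = 4 / 25 := by norm_num
  · intro x hx
    have hx' : (x : ℝ) + 2 ≤ X := by exact_mod_cast hx
    have hx0 : (0 : ℝ) ≤ x := Nat.cast_nonneg _
    have := norm_e_sub (β₁ * (((x + 1 : ℕ) : ℝ) + 1) + β₂ * (((x + 1 : ℕ) : ℝ) + 1) ^ 2)
      (β₁ * (x + 1) + β₂ * (x + 1) ^ 2)
    refine le_trans this ?_
    have e : β₁ * (((x + 1 : ℕ) : ℝ) + 1) + β₂ * (((x + 1 : ℕ) : ℝ) + 1) ^ 2 -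
        (β₁ * (x + 1) + β₂ * (x + 1) ^ 2) = β₁ + β₂ * (2 * x + 3) := by push_cast; ring
    rw [e, abs_of_nonneg (by positivity), le_div_iff₀ (by positivity)]
    have a2 : β₂ * (2 * x + 3) * X ≤ 2 * (β₂ * X ^ 2) := by
      have : β₂ * (2 * x + 3) * X ≤ β₂ * (2 * X) * X := by gcongr; linarith
      linarith
    calc 2 * Real.pi * (β₁ + β₂ * (2 * x + 3)) * (25 * X)
        = 50 * Real.pi * (β₁ * X + β₂ * (2 * x + 3) * X) := by ring
      _ ≤ 50 * 4 * (3 / 100) := by gcongr; linarith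
      _ = 6 := by norm_num

end Pool.Agent.H48.WeylA
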