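import Mathlib
import Pool.Agent.H48.WeylA

set_option autoImplicit false

namespace Pool.Agent.H48.WeylB

open Finset MeasureTheory

lemma cross (a a' p p' : ℕ) (hp : 0 < p) (hp' : 0 < p') (Y : ℝ) (hY : (p : ℝ) * p' ≤ Y)
    (h : |(a : ℝ) / p - (a' : ℝ) / p'| < 1 / Y) : a * p' = a' * p := by
  have hp0 : (0 : ℝ) < p := by exact_mod_cast hp
  have hp0' : (0 : ℝ) < p' := by exact_mod_cast hp'
  by_contra hne
  have h1 : (1 : ℝ) ≤ |(a : ℝ) * p' - a' * p| := by
    have : (1 : ℤ) ≤ |(a : ℤ) * p' - a' * p| := by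
      apply Int.one_le_abs
      intro h0
      apply hne
      have : (a : ℤ) * p' = a' * p := by linarith
      exact_mod_cast this
    exact_mod_cast this
  have e : (a : ℝ) / p - (a' : ℝ) / p' = ((a : ℝ) * p' - a' * p) / (p * p') := by
    field_simp
  rw [e, abs_div, abs_of_pos (mul_pos hp0 hp0')] at h
  have h2 : 1 / Y ≤ 1 / ((p : ℝ) * p') := one_div_le_one_div_of_le (mul_pos hp0 hp0') hY
  have h3 : 1 / ((p : ℝ) * p') ≤ |(a : ℝ) * p' - a' * p| / (p * p') := by gcongr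
  linarith

lemma many_primes (w : ℕ) (hw : 256 ≤ w) :
    w ^ 30 ≤ ((Nat.primesLE (w ^ 32)).filter (fun p => w ^ 30 < p)).card := by
  have hw' : (256 : ℝ) ≤ w := by exact_mod_cast hw
  have h1 := Chebyshev.pi_ge (w ^ 32)
  have hlogw : Real.log w ≤ w := (Real.log_le_sub_one_of_pos (by linarith)).trans (by linarith)
  have hlogw0 : 0 < Real.log w := Real.log_pos (by linarith)
  have h2 : 2 * (w : ℝ) ^ 30 ≤ Nat.primeCounting (w ^ 32) := by
    refine le_trans ?_ h1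
    push_cast
    rw [Real.log_pow, le_div_iff₀ (by positivity)]
    have h3 : Real.log ((w : ℝ) ^ 32 + 1) ≤ 64 * w := by
      have : (w : ℝ) ^ 32 + 1 ≤ (2 * w) ^ 32 := by
        have : (1 : ℝ) ≤ w ^ 32 := one_le_pow₀ (by linarith)
        rw [mul_pow]
        nlinarith
      calc _ ≤ Real.log ((2 * w) ^ 32) := Real.log_le_log (by positivity) this
        _ = 32 * Real.log (2 * w) := by rw [Real.log_pow]; norm_num
        _ ≤ 32 * (2 * w) := by
            gcongr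
            exact (Real.log_le_sub_one_of_pos (by linarith)).trans (by linarith)
        _ = 64 * w := by ring
    have h4 : (1 / 2 : ℝ) ≤ Real.log 2 := by linarith [Real.log_two_gt_d9]
    have h5 : (w : ℝ) ≤ w ^ 31 := le_self_pow₀ (by linarith) (by norm_num)
    have h6 : (w : ℝ) ^ 30 * Real.log w ≤ w ^ 31 := by
      calc (w : ℝ) ^ 30 * Real.log w ≤ w ^ 30 * w := by gcongr
        _ = (w : ℝ) ^ 31 := by ring
    have h7 : 256 * (w : ℝ) ^ 31 ≤ w ^ 32 := by
      calc 256 * (w : ℝ) ^ 31 ≤ w * w ^ 31 := by gcongr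
        _ = (w : ℝ) ^ 32 := by ring
    have h8 : (w : ℝ) ^ 32 * (1 / 2) ≤ w ^ 32 * Real.log 2 := by gcongr
    push_cast
    linarith
  have h3 : 2 * w ^ 30 ≤ (Nat.primesLE (w ^ 32)).card := by
    rw [Nat.primesLE_card_eq_primeCounting]
    exact_mod_cast h2
  have h4 := Finset.card_filter_add_card_filter_not (s := Nat.primesLE (w ^ 32))
    (fun p => w ^ 30 < p)
  have h5 : ((Nat.primesLE (w ^ 32)).filter (fun p => ¬ w ^ 30 < p)).card ≤ w ^ 30 := by
    calc _ ≤ (Finset.Icc 1 (w ^ 30)).card := by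
          apply Finset.card_le_card
          intro p hp
          rw [Finset.mem_filter, Nat.mem_primesLE] at hp
          rw [Finset.mem_Icc]
          exact ⟨hp.1.2.pos, by omega⟩
      _ = w ^ 30 := by simp
  omega

/-- centre of a box. -/
noncomputable def ctr (t : ℕ × ℕ × ℕ) : Fin 2 → ℝ := ![(t.2.2 : ℝ) / t.1, (t.2.1 : ℝ) / t.1]

/-- side lengths of a box. -/
noncomputable def rad (X : ℕ) : Fin 2 → ℝ := ![1 / (100 * X), 1 / (100 * X ^ 2)]

/-- a box. -/
def box (X : ℕ) (t : ℕ × ℕ × ℕ) : Set (Fin 2 → ℝ) :=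
  Set.pi Set.univ (fun j => Set.Ico (ctr t j) (ctr t j + rad X j))

lemma mem_box {X : ℕ} {t : ℕ × ℕ × ℕ} {α : Fin 2 → ℝ} : α ∈ box X t ↔
    ((t.2.2 : ℝ) / t.1 ≤ α 0 ∧ α 0 < (t.2.2 : ℝ) / t.1 + 1 / (100 * X)) ∧
    ((t.2.1 : ℝ) / t.1 ≤ α 1 ∧ α 1 < (t.2.1 : ℝ) / t.1 + 1 / (100 * X ^ 2)) := by
  simp [box, ctr, rad, Fin.forall_fin_two]

lemma box_meas (X : ℕ) (t : ℕ × ℕ × ℕ) : MeasurableSet (box X t) :=
  MeasurableSet.univ_pi fun _ => measurableSet_Ico

lemma box_vol (X : ℕ) (t : ℕ × ℕ × ℕ) :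
    volume.real (box X t) = 1 / (100 * X) * (1 / (100 * X ^ 2)) := by
  rw [Measure.real, box, Real.volume_pi_Ico_toReal]
  · simp [rad, Fin.prod_univ_two]
  · intro j
    simp only [le_add_iff_nonneg_right]
    fin_cases j <;> simp [rad]

lemma box_fin (X : ℕ) (t : ℕ × ℕ × ℕ) : volume (box X t) ≠ ⊤ := by
  rw [box, Real.volume_pi_Ico]
  exact ENNReal.prod_ne_top fun _ _ => ENNReal.ofReal_ne_top

theorem main (C : ℝ) : ∃ X : ℕ, 1 ≤ X ∧ ∃ B : Set (Fin 2 → ℝ), MeasurableSet B ∧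
    B ⊆ Set.pi Set.univ (fun _ => Set.Ico (0:ℝ) 1) ∧
    (X : ℝ) ^ (-(1 / 2) : ℝ) ≤ (volume B).toReal ∧
    C * (X : ℝ) ^ (1 / 64 : ℝ) * ((X : ℝ) ^ (11 / 4 : ℝ) * (volume B).toReal
              + (X : ℝ) ^ (5 / 2 : ℝ)) <
      ∫ α in B, ‖∑ x ∈ Finset.Icc 1 X,
            Complex.exp (2 * (Real.pi:ℂ) * Complex.I *
              ∑ j : Fin 2, (α j : ℂ) * (x:ℂ) ^ ((j:ℕ) + 1))‖ ^ (11 / 2 : ℝ) := by
  obtain ⟨w, hw⟩ := exists_nat_gt (max 256 (3 * 2 ^ 11 * 10000 * |C|))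
  have hw1 : (256 : ℝ) < w := lt_of_le_of_lt (le_max_left _ _) hw
  have hw2 : 3 * 2 ^ 11 * 10000 * |C| < w := lt_of_le_of_lt (le_max_right _ _) hw
  have hwn : 256 ≤ w := by exact_mod_cast hw1.le
  have hw0 : (0 : ℝ) < w := by linarith
  have hw1' : (1 : ℝ) ≤ w := by linarith
  set X : ℕ := w ^ 64 with hX
  have hXr : (X : ℝ) = (w : ℝ) ^ 64 := by simp [hX]
  have hXpos : 0 < X := by positivity
  have hX1 : (1 : ℝ) ≤ X := by exact_mod_cast hXpos
  set P := (Nat.primesLE (w ^ 32)).filter (fun p => w ^ 30 < p) with hP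
  set T : Finset (ℕ × ℕ × ℕ) := P ×ˢ (Finset.Icc 1 (w ^ 30) ×ˢ Finset.range (w ^ 30)) with hT
  have memT : ∀ t ∈ T, t.1.Prime ∧ t.1 ≤ w ^ 32 ∧ 2 < t.1 ∧ 0 < t.2.1 ∧ t.2.1 < t.1 ∧
      t.2.2 < t.1 := by
    intro t ht
    simp only [hT, hP, Finset.mem_product, Finset.mem_filter, Nat.mem_primesLE, Finset.mem_Icc,
      Finset.mem_range] at ht
    have : w ≤ w ^ 30 := Nat.le_self_pow (by norm_num) w
    refine ⟨ht.1.1.2, ht.1.1.1, by omega, by omega, by omega, by omega⟩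
  have cardT1 : (w : ℝ) ^ 90 ≤ T.card := by
    have h := many_primes w hwn
    have : w ^ 90 ≤ T.card := by
      rw [hT, Finset.card_product, Finset.card_product]
      simp only [Nat.card_Icc, add_tsub_cancel_right, card_range]
      calc w ^ 90 = w ^ 30 * (w ^ 30 * w ^ 30) := by ring
        _ ≤ _ := by gcongr
    exact_mod_cast this
  have cardT2 : (T.card : ℝ) ≤ (w : ℝ) ^ 92 := by
    have h : P.card ≤ w ^ 32 := by
      calc _ ≤ (Finset.Icc 1 (w ^ 32)).card := by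
            apply Finset.card_le_card
            intro p hp
            rw [hP, Finset.mem_filter, Nat.mem_primesLE] at hp
            rw [Finset.mem_Icc]
            exact ⟨hp.1.2.pos, hp.1.1⟩
        _ = w ^ 32 := by simp
    have : T.card ≤ w ^ 92 := by
      rw [hT, Finset.card_product, Finset.card_product]
      simp only [Nat.card_Icc, add_tsub_cancel_right, card_range]
      calc _ ≤ w ^ 32 * (w ^ 30 * w ^ 30) := by gcongr
        _ = w ^ 92 := by ring
    exact_mod_cast this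
  set B₀ : Set (Fin 2 → ℝ) := ⋃ t ∈ T, box X t with hB₀
  set F : Set (Fin 2 → ℝ) :=
    Set.pi Set.univ (fun j => Set.Ico ((0 : Fin 2 → ℝ) j) (![1, 1 / (w : ℝ) ^ 32] j)) with hF
  have hFm : MeasurableSet F := MeasurableSet.univ_pi fun _ => measurableSet_Ico
  have hFv : volume.real F = 1 / (w : ℝ) ^ 32 := by
    rw [Measure.real, hF, Real.volume_pi_Ico_toReal]
    · simp [Fin.prod_univ_two]
    · intro j
      fin_cases j <;> simp
  have hB₀m : MeasurableSet B₀ := Finset.measurableSet_biUnion T fun t _ => box_meas X t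
  have hdisj : Set.PairwiseDisjoint (↑T : Set (ℕ × ℕ × ℕ)) (box X) := by
    intro t ht t' ht' hne
    rw [Function.onFun, Set.disjoint_left]
    intro α h1 h2
    apply hne
    obtain ⟨hp, hpQ, -, ha0, hap, -⟩ := memT t ht
    obtain ⟨hp', hpQ', -, ha0', hap', -⟩ := memT t' ht'
    rw [mem_box] at h1 h2
    have hY : (t.1 : ℝ) * t'.1 ≤ X := by
      have : t.1 * t'.1 ≤ X := by
        calc t.1 * t'.1 ≤ w ^ 32 * w ^ 32 := by gcongr
          _ = X := by rw [hX]; ring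
      exact_mod_cast this
    have r1 : 1 / (100 * (X : ℝ)) ≤ 1 / X := one_div_le_one_div_of_le (by positivity) (by linarith)
    have r2 : 1 / (100 * (X : ℝ) ^ 2) ≤ 1 / X :=
      one_div_le_one_div_of_le (by positivity) (by nlinarith)
    have c1 := cross t.2.1 t'.2.1 t.1 t'.1 hp.pos hp'.pos X hY
      (by rw [abs_lt]; constructor <;> linarith [h1.2.1, h1.2.2, h2.2.1, h2.2.2])
    have c2 := cross t.2.2 t'.2.2 t.1 t'.1 hp.pos hp'.pos X hY
      (by rw [abs_lt]; constructor <;> linarith [h1.1.1, h1.1.2, h2.1.1, h2.1.2])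
    have hpp : t.1 = t'.1 := by
      have : t.1 ∣ t.2.1 * t'.1 := ⟨t'.2.1, by rw [c1, mul_comm]⟩
      rcases (Nat.Prime.dvd_mul hp).mp this with h | h
      · exact absurd (Nat.le_of_dvd ha0 h) (by omega)
      · exact (Nat.prime_dvd_prime_iff_eq hp hp').mp h
    rw [← hpp] at c1 c2
    have e1 := Nat.eq_of_mul_eq_mul_right hp.pos c1
    have e2 := Nat.eq_of_mul_eq_mul_right hp.pos c2
    exact Prod.ext hpp (Prod.ext e1 e2)
  have hB₀v : volume.real B₀ = T.card * (1 / (10000 * (w : ℝ) ^ 192)) := by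
    rw [hB₀, measureReal_biUnion_finset hdisj (fun t _ => box_meas X t) (fun t _ => box_fin X t)]
    simp only [box_vol, sum_const, nsmul_eq_mul]
    rw [hXr]
    field_simp
    norm_num
  have hsub : B₀ ∪ F ⊆ Set.pi Set.univ (fun _ => Set.Ico (0:ℝ) 1) := by
    intro α hα
    rcases hα with hα | hα
    · simp only [hB₀, Set.mem_iUnion] at hα
      obtain ⟨t, ht, hα⟩ := hα
      obtain ⟨hp, hpQ, -, ha0, hap, hbp⟩ := memT t ht
      rw [mem_box] at hα
      have hp0 : (0 : ℝ) < t.1 := by exact_mod_cast hp.pos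
      have hpX : (t.1 : ℝ) ≤ X := by
        have : t.1 ≤ X := le_trans hpQ (by rw [hX]; exact Nat.pow_le_pow_right (by omega) (by norm_num))
        exact_mod_cast this
      have r1 : 1 / (100 * (X : ℝ)) ≤ 1 / t.1 := one_div_le_one_div_of_le hp0 (by linarith)
      have r2 : 1 / (100 * (X : ℝ) ^ 2) ≤ 1 / t.1 := one_div_le_one_div_of_le hp0 (by nlinarith)
      have s1 : (t.2.2 : ℝ) / t.1 + 1 / t.1 ≤ 1 := by
        rw [← add_div, div_le_one hp0]; exact_mod_cast hbp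
      have s2 : (t.2.1 : ℝ) / t.1 + 1 / t.1 ≤ 1 := by
        rw [← add_div, div_le_one hp0]; exact_mod_cast hap
      have s3 : (0 : ℝ) ≤ (t.2.2 : ℝ) / t.1 := by positivity
      have s4 : (0 : ℝ) ≤ (t.2.1 : ℝ) / t.1 := by positivity
      simp only [Set.mem_pi, Set.mem_univ, Set.mem_Ico, forall_const, Fin.forall_fin_two]
      refine ⟨⟨by linarith [hα.1.1], by linarith [hα.1.2]⟩, by linarith [hα.2.1],
        by linarith [hα.2.2]⟩
    · simp only [hF, Set.mem_pi, Set.mem_univ, Set.mem_Ico, forall_const, Fin.forall_fin_two,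
        Pi.zero_apply, Matrix.cons_val_zero, Matrix.cons_val_one] at hα ⊢
      have : 1 / (w : ℝ) ^ 32 ≤ 1 := by
        rw [div_le_one (by positivity)]; exact one_le_pow₀ hw1'
      exact ⟨hα.1, hα.2.1, by linarith [hα.2.2]⟩
  have hK : IsCompact (Set.Icc (0 : Fin 2 → ℝ) 1) := isCompact_Icc
  have hsubK : B₀ ∪ F ⊆ Set.Icc (0 : Fin 2 → ℝ) 1 := by
    intro α hα
    have := hsub hα
    simp only [Set.mem_pi, Set.mem_univ, Set.mem_Ico, forall_const] at this
    exact ⟨fun j => (this j).1, fun j => (this j).2.le⟩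
  have hfin : volume (B₀ ∪ F) ≠ ⊤ := ne_top_of_le_ne_top hK.measure_ne_top (measure_mono hsubK)
  have rp : ∀ (n : ℕ) (e : ℝ), 64 * e = n → (X : ℝ) ^ e = (w : ℝ) ^ n := by
    intro n e he
    rw [hXr, ← Real.rpow_natCast, ← Real.rpow_mul hw0.le, ← Real.rpow_natCast]
    congr 1
  refine ⟨X, hXpos, B₀ ∪ F, hB₀m.union hFm, hsub, ?_, ?_⟩
  · rw [Real.rpow_neg (by positivity), rp 32 (1 / 2) (by norm_num), ← one_div, ← hFv]
    exact measureReal_mono Set.subset_union_right hfin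
  · set h : (Fin 2 → ℝ) → ℝ := fun α => ‖∑ x ∈ Finset.Icc 1 X,
            Complex.exp (2 * (Real.pi:ℂ) * Complex.I *
              ∑ j : Fin 2, (α j : ℂ) * (x:ℂ) ^ ((j:ℕ) + 1))‖ ^ (11 / 2 : ℝ) with hh
    have hcont : Continuous h := by
      refine Continuous.rpow_const ?_ (fun _ => Or.inr (by norm_num))
      fun_prop
    have hint : IntegrableOn h (B₀ ∪ F) volume :=
      (hcont.continuousOn.integrableOn_compact hK).mono_set hsubK
    have hlow : ∀ α ∈ B₀, ((w : ℝ) ^ 24 / 2) ^ 11 ≤ h α := by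
      intro α hα
      simp only [hB₀, Set.mem_iUnion] at hα
      obtain ⟨t, ht, hα⟩ := hα
      obtain ⟨hp, hpQ, hp2, ha0, hap, hbp⟩ := memT t ht
      rw [mem_box] at hα
      have hp0 : (0 : ℝ) < t.1 := by exact_mod_cast hp.pos
      have hpQ' : (t.1 : ℝ) ≤ (w : ℝ) ^ 32 := by exact_mod_cast hpQ
      have hsq : Real.sqrt t.1 ≤ (w : ℝ) ^ 16 := by
        rw [Real.sqrt_le_iff]
        exact ⟨by positivity, by rw [← pow_mul]; exact hpQ'⟩
      have hs0 : 0 < Real.sqrt t.1 := Real.sqrt_pos.mpr hp0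
      have hXp : 8 * (t.1 : ℝ) * Real.sqrt t.1 ≤ X := by
        have : (8 : ℝ) ≤ (w : ℝ) ^ 16 := le_trans (by linarith) (le_self_pow₀ hw1' (by norm_num))
        calc 8 * (t.1 : ℝ) * Real.sqrt t.1 ≤ (w : ℝ) ^ 16 * w ^ 32 * w ^ 16 := by gcongr
          _ = X := by rw [hXr]; ring
      have key := WeylA.large t.1 hp hp2 t.2.1 t.2.2 ha0 hap X hXpos hXp
        (α 0 - t.2.2 / t.1) (α 1 - t.2.1 / t.1) (by linarith [hα.1.1]) (by linarith [hα.2.1])
        (by linarith [hα.1.2]) (by linarith [hα.2.2])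
      simp only [add_sub_cancel] at key
      have e : ∀ x : ℕ, ∑ j : Fin 2, (α j : ℂ) * (x:ℂ) ^ ((j:ℕ) + 1) =
          (α 0 : ℂ) * x + (α 1 : ℂ) * (x : ℂ) ^ 2 := by
        intro x
        simp [Fin.sum_univ_two]
      simp only [hh, e]
      have l1 : ((w : ℝ) ^ 24 / 2) ^ 2 ≤ X / (2 * Real.sqrt t.1) := by
        rw [le_div_iff₀ (by positivity)]
        calc ((w : ℝ) ^ 24 / 2) ^ 2 * (2 * Real.sqrt t.1)
            ≤ ((w : ℝ) ^ 24 / 2) ^ 2 * (2 * w ^ 16) := by gcongr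
          _ = (w : ℝ) ^ 64 / 2 := by ring
          _ ≤ X := by rw [hXr]; linarith [pow_pos hw0 64]
      calc ((w : ℝ) ^ 24 / 2) ^ 11 = (((w : ℝ) ^ 24 / 2) ^ 2) ^ (11 / 2 : ℝ) := by
            rw [← Real.rpow_natCast _ 2, ← Real.rpow_mul (by positivity), ← Real.rpow_natCast _ 11]
            norm_num
        _ ≤ _ := Real.rpow_le_rpow (by positivity) (l1.trans key) (by norm_num)
    have i1 : ((w : ℝ) ^ 24 / 2) ^ 11 * volume.real B₀ ≤ ∫ α in B₀, h α :=
      setIntegral_ge_of_const_le_real hB₀m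
        (ne_top_of_le_ne_top hfin (measure_mono Set.subset_union_left)) hlow
        (hint.mono_set Set.subset_union_left)
    have i2 : ∫ α in B₀, h α ≤ ∫ α in B₀ ∪ F, h α :=
      setIntegral_mono_set hint (Filter.Eventually.of_forall fun α => by simp only [hh]; positivity)
        (Set.subset_union_left : B₀ ⊆ B₀ ∪ F).eventuallyLE
    refine lt_of_lt_of_le ?_ (i1.trans i2)
    rw [rp 1 (1 / 64) (by norm_num), rp 176 (11 / 4) (by norm_num), rp 160 (5 / 2) (by norm_num)]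
    have v1 : (volume (B₀ ∪ F)).toReal ≤ 2 / (w : ℝ) ^ 16 := by
      have := measureReal_union_le (μ := volume) B₀ F
      rw [hB₀v, hFv] at this
      have a1 : (T.card : ℝ) * (1 / (10000 * (w : ℝ) ^ 192)) ≤ 1 / (w : ℝ) ^ 16 := by
        rw [mul_one_div, div_le_div_iff₀ (by positivity) (by positivity)]
        calc (T.card : ℝ) * w ^ 16 ≤ w ^ 92 * w ^ 16 := by gcongr
          _ = (w : ℝ) ^ 108 := by ring
          _ ≤ (w : ℝ) ^ 192 := pow_le_pow_right₀ hw1' (by norm_num)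
          _ ≤ _ := by linarith [pow_pos hw0 192]
      have a2 : 1 / (w : ℝ) ^ 32 ≤ 1 / (w : ℝ) ^ 16 :=
        one_div_le_one_div_of_le (by positivity) (pow_le_pow_right₀ hw1' (by norm_num))
      have a3 : 2 / (w : ℝ) ^ 16 = 1 / (w : ℝ) ^ 16 + 1 / (w : ℝ) ^ 16 := by ring
      rw [a3]
      exact this.trans (add_le_add a1 a2)
    have v2 : (w : ℝ) ^ 176 * (volume (B₀ ∪ F)).toReal + w ^ 160 ≤ 3 * (w : ℝ) ^ 160 := by
      have : (w : ℝ) ^ 176 * (volume (B₀ ∪ F)).toReal ≤ (w : ℝ) ^ 176 * (2 / (w : ℝ) ^ 16) := by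
        gcongr
      have e : (w : ℝ) ^ 176 * (2 / (w : ℝ) ^ 16) = 2 * w ^ 160 := by field_simp
      linarith
    calc C * (w : ℝ) ^ 1 * ((w : ℝ) ^ 176 * (volume (B₀ ∪ F)).toReal + w ^ 160)
        ≤ |C| * (w : ℝ) ^ 1 * ((w : ℝ) ^ 176 * (volume (B₀ ∪ F)).toReal + w ^ 160) := by
          refine mul_le_mul_of_nonneg_right ?_ (add_nonneg (mul_nonneg (by positivity)
            ENNReal.toReal_nonneg) (by positivity))
          exact mul_le_mul_of_nonneg_right (le_abs_self C) (by positivity)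
      _ ≤ |C| * (w : ℝ) ^ 1 * (3 * (w : ℝ) ^ 160) := by gcongr
      _ = (3 * 2 ^ 11 * 10000 * |C|) * (w ^ 161 / (2 ^ 11 * 10000)) := by ring
      _ < w * (w ^ 161 / (2 ^ 11 * 10000)) := by gcongr
      _ = ((w : ℝ) ^ 24 / 2) ^ 11 * (w ^ 90 * (1 / (10000 * (w : ℝ) ^ 192))) := by
          field_simp
      _ ≤ _ := by rw [hB₀v]; gcongr

end Pool.Agent.H48.WeylB
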