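import Mathlib

/-! Automorphisms of the Lie algebra of finitary polynomial vector fields in countably many
variables. -/

namespace Pool.Agent.H48.Winf

open MvPolynomial

lemma comp_mem {F V ι : Type*} [Field F] [AddCommGroup V] [Module F V] (h : ℕ → V →ₗ[F] V)
    (S : Submodule F V) (hS : ∀ i, ∀ v ∈ S, h i v ∈ S) (wt : ι → ℕ → F)
    (hwt : Function.Injective wt) (m : ι) (s : Finset ι) (hm : m ∉ s) :
    ∀ f : ι → V, (∀ k i, h i (f k) = wt k i • f k) → f m + ∑ k ∈ s, f k ∈ S → f m ∈ S := by
  classical
  induction s using Finset.induction_on with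
  | empty => intro f _ h; simpa using h
  | insert a s ha ih =>
    intro f hf hs
    have hma : m ≠ a := fun e => hm (e ▸ Finset.mem_insert_self _ _)
    obtain ⟨i, hi⟩ := Function.ne_iff.1 (hwt.ne hma)
    have h1 := S.sub_mem (hS i _ hs) (S.smul_mem (wt a i) hs)
    have h2 := ih (fun e => hm (Finset.mem_insert_of_mem e)) (fun k => (wt k i - wt a i) • f k)
      (fun k j => by rw [map_smul, hf, smul_comm]) (by
        convert h1 using 1
        simp only [Finset.sum_insert ha, map_add, map_sum, hf, sub_smul, smul_add,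
          Finset.sum_sub_distrib, Finset.smul_sum]
        abel)
    exact (S.smul_mem_iff (sub_ne_zero.2 hi)).1 h2

lemma comp_mem' {F V ι : Type*} [Field F] [AddCommGroup V] [Module F V] (h : ℕ → V →ₗ[F] V)
    (S : Submodule F V) (hS : ∀ i, ∀ v ∈ S, h i v ∈ S) (wt : ι → ℕ → F)
    (hwt : Function.Injective wt) (s : Finset ι) (f : ι → V)
    (hf : ∀ k i, h i (f k) = wt k i • f k) (hs : ∑ k ∈ s, f k ∈ S) (m : ι) (hm : m ∈ s) :
    f m ∈ S := by
  classical
  refine comp_mem h S hS wt hwt m (s.erase m) (Finset.notMem_erase _ _) f hf ?_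
  rwa [Finset.add_sum_erase _ _ hm]

variable (F : Type) [Field F]

/-- Polynomials in countably many variables. -/
abbrev A := MvPolynomial ℕ F

/-- The finitary vector fields. -/
def W : LieSubalgebra F (Derivation F (A F) (A F)) where
  carrier := {d | Set.Finite {i : ℕ | d (X i) ≠ 0}}
  add_mem' {a b} ha hb := (Set.Finite.union ha hb).subset fun i hi => by
    by_contra h
    simp only [Set.mem_union, Set.mem_ofPred_eq, not_or, not_not] at h
    exact hi (by simp [h.1, h.2])
  zero_mem' := by simp
  smul_mem' c a ha := Set.Finite.subset ha fun i hi h => hi (by simp [h])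
  lie_mem' {a b} ha hb := (Set.Finite.union ha hb).subset fun i hi => by
    by_contra h
    simp only [Set.mem_union, Set.mem_ofPred_eq, not_or, not_not] at h
    exact hi (by simp [Derivation.commutator_apply, h.1, h.2])

variable {F}

/-- Multiplication of a vector field by a polynomial. -/
noncomputable def sm (w : W F) : A F →ₗ[F] W F where
  toFun a := ⟨a • w.1, Set.Finite.subset w.2 fun i hi h => hi (by simp [h])⟩
  map_add' a b := Subtype.ext (add_smul a b w.1)
  map_smul' c a := Subtype.ext (smul_assoc c a w.1)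

@[simp] lemma sm_apply (w : W F) (a p : A F) : (sm w a).1 p = a * w.1 p := rfl

/-- The coordinate vector fields. -/
noncomputable def pd (j : ℕ) : W F :=
  ⟨pderiv j, (Set.finite_singleton j).subset fun i hi => by
    by_contra h
    exact hi (pderiv_X_of_ne h)⟩

@[simp] lemma pd_apply (j : ℕ) (p : A F) : (pd j : W F).1 p = pderiv j p := rfl

lemma br_apply (u w : W F) (p : A F) : (⁅u, w⁆ : W F).1 p = u.1 (w.1 p) - w.1 (u.1 p) := rfl

lemma wext {u w : W F} (h : ∀ i, u.1 (X i) = w.1 (X i)) : u = w :=
  Subtype.ext (derivation_ext h)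

lemma br_sm (u w : W F) (a : A F) : ⁅u, sm w a⁆ = sm w (u.1 a) + sm ⁅u, w⁆ a := by
  apply wext
  intro i
  change _ = (sm w (u.1 a)).1 (X i) + (sm ⁅u, w⁆ a).1 (X i)
  simp only [br_apply, sm_apply, Derivation.leibniz, smul_eq_mul]
  ring

/-- Kronecker symbol. -/
def dl (i j : ℕ) : F := if i = j then 1 else 0

lemma pderiv_X' (i j : ℕ) : pderiv i (X j : A F) = C (dl i j) := by
  unfold dl
  split_ifs with h
  · subst h; simp
  · rw [pderiv_X_of_ne (Ne.symm h), C_0]

lemma br_pd (i j : ℕ) : ⁅(pd i : W F), (pd j : W F)⁆ = 0 := by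
  apply wext
  intro l
  simp only [br_apply, pd_apply, pderiv_X', pderiv_C, sub_zero]
  rfl

/-- The torus. -/
noncomputable def eu (i : ℕ) : W F := sm (pd i) (X i)

lemma sm_C (w : W F) (c : F) : sm w (C c) = c • w := by
  rw [← mul_one (C c), ← smul_eq_C_mul, map_smul]
  congr 1
  exact Subtype.ext (one_smul _ _)

lemma br_eu (i j : ℕ) : ⁅(eu i : W F), (pd j : W F)⁆ = -((dl j i : F) • pd j) := by
  rw [← lie_skew, eu, br_sm, br_pd, pd_apply, pderiv_X', sm_C]
  have : sm (0 : W F) (X i) = 0 := wext fun l => by simp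
  rw [this, add_zero]
  unfold dl
  split_ifs with h
  · rw [h]
  · simp

lemma eu_monomial (i : ℕ) (α : ℕ →₀ ℕ) (c : F) :
    (eu i : W F).1 (monomial α c) = (α i : F) • monomial α c := by
  rw [eu, sm_apply, pd_apply, X_mul_pderiv_monomial, Nat.cast_smul_eq_nsmul]

lemma W_ind (S : Submodule F (W F)) (h : ∀ α l, sm (pd l) (monomial α 1) ∈ S) (w : W F) :
    w ∈ S := by
  classical
  have h1 : ∀ l p, sm (pd l) p ∈ S := fun l p => by
    induction p using MvPolynomial.induction_on' with
    | monomial α c =>
      rw [← mul_one c, ← smul_eq_mul, ← smul_monomial, map_smul]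
      exact S.smul_mem _ (h α l)
    | add p q hp hq => rw [map_add]; exact S.add_mem hp hq
  have h2 : w = ∑ l ∈ w.2.toFinset, sm (pd l) (w.1 (X l)) := by
    apply wext
    intro i
    have : ∀ s : Finset ℕ, (∑ l ∈ s, sm (pd l) (w.1 (X l))).1 (X i) =
        ∑ l ∈ s, w.1 (X l) * pderiv l (X i) := fun s => by
      induction s using Finset.induction_on with
      | empty => rfl
      | insert a s ha ih => rw [Finset.sum_insert ha, Finset.sum_insert ha, ← ih]; rfl
    rw [this, Finset.sum_eq_single i]
    · simp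
    · intro b _ hb; rw [pderiv_X_of_ne (Ne.symm hb), mul_zero]
    · intro hi
      have : w.1 (X i) = 0 := by
        by_contra e
        exact hi ((Set.Finite.mem_toFinset _).2 e)
      rw [this, zero_mul]
  rw [h2]
  exact S.sum_mem fun l _ => h1 l _

lemma br_eu_mon (i l : ℕ) (α : ℕ →₀ ℕ) : ⁅(eu i : W F), sm (pd l) (monomial α (1 : F))⁆ =
    ((α i : F) - dl l i) • sm (pd l) (monomial α (1 : F)) := by
  rw [br_sm, eu_monomial, br_eu, map_smul, sub_smul, sub_eq_add_neg]
  congr 1
  apply wext
  intro k
  change monomial α (1 : F) * -((dl l i : F) • pderiv l (X k)) =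
    -((dl l i : F) • (monomial α (1 : F) * pderiv l (X k)))
  rw [mul_neg, mul_smul_comm]

lemma wt_W (w : W F) (κ : ℕ → F) (h : ∀ i, ⁅(eu i : W F), w⁆ = κ i • w) (l : ℕ) (α : ℕ →₀ ℕ)
    (hα : coeff α (w.1 (X l)) ≠ 0) (i : ℕ) : κ i + dl i l = α i := by
  have h1 := congrArg (fun u : W F => coeff α (u.1 (X l))) (h i)
  have h2 : ∀ p : A F, coeff α ((eu i : W F).1 p) = α i * coeff α p := fun p => by
    induction p using MvPolynomial.induction_on' with
    | monomial β c =>
      rw [eu_monomial, coeff_smul, smul_eq_mul, coeff_monomial]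
      split_ifs with e
      · rw [e]
      · simp
    | add p q hp hq => rw [map_add, coeff_add, coeff_add, hp, hq, mul_add]
  have h3 : (eu i : W F).1 (X l) = (dl i l : F) • X l := by
    rw [eu, sm_apply, pd_apply, pderiv_X', smul_eq_C_mul, mul_comm]
    unfold dl
    split_ifs with e
    · rw [e]
    · simp
  simp only [br_apply, coeff_sub, h2, h3, Derivation.map_smul, coeff_smul, smul_eq_mul] at h1
  change _ = coeff α (κ i • w.1 (X l)) at h1
  rw [coeff_smul, smul_eq_mul] at h1
  apply mul_right_cancel₀ hα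
  linear_combination -h1

lemma const_of_pderiv [CharZero F] (p : A F) (h : ∀ j, pderiv j p = 0) : p = C (coeff 0 p) := by
  classical
  ext α
  rw [coeff_C]
  split_ifs with e
  · rw [e]
  · obtain ⟨j, hj⟩ := Finsupp.ne_iff.1 (Ne.symm e)
    have h1 := congrArg (fun q => coeff α (X j * q)) (h j)
    have h2 : ∀ p : A F, coeff α (X j * pderiv j p) = α j * coeff α p := fun p => by
      induction p using MvPolynomial.induction_on' with
      | monomial β c =>
        rw [X_mul_pderiv_monomial, coeff_smul, coeff_monomial]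
        split_ifs with e
        · rw [e, nsmul_eq_mul]
        · simp
      | add p q hp hq => rw [map_add, mul_add, coeff_add, coeff_add, hp, hq, mul_add]
    simp only [h2, mul_zero, coeff_zero, mul_eq_zero, Nat.cast_eq_zero] at h1
    exact h1.resolve_left hj

lemma pderiv_ne_of_vars [CharZero F] (p : A F) (j : ℕ) (h : j ∈ p.vars) : pderiv j p ≠ 0 := by
  classical
  intro e
  obtain ⟨α, hα, hj⟩ := (mem_vars_iff_mem_support j).1 h
  have h1 := congrArg (fun q => coeff α (X j * q)) e
  have h2 : ∀ p : A F, coeff α (X j * pderiv j p) = α j * coeff α p := fun p => by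
    induction p using MvPolynomial.induction_on' with
    | monomial β c =>
      rw [X_mul_pderiv_monomial, coeff_smul, coeff_monomial]
      split_ifs with e
      · rw [e, nsmul_eq_mul]
      · simp
    | add p q hp hq => rw [map_add, mul_add, coeff_add, coeff_add, hp, hq, mul_add]
  simp only [h2, mul_zero, coeff_zero, mul_eq_zero, Nat.cast_eq_zero] at h1
  rcases h1 with h1 | h1
  · exact Finsupp.mem_support_iff.1 hj h1
  · exact mem_support_iff.1 hα h1

end Pool.Agent.H48.Winf
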