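import Mathlib
import Pool.Agent.H48.Winf

/-! Automorphisms of the Lie algebra of finitary polynomial vector fields are conjugations. -/

namespace Pool.Agent.H48.Winf

open MvPolynomial

variable {F : Type} [Field F] (T : W F ≃ₗ⁅F⁆ W F)

/-- Images of the coordinate fields. -/
noncomputable def D (j : ℕ) : Derivation F (A F) (A F) := (T (pd j)).1

/-- Images of the torus. -/
noncomputable def E (i : ℕ) : Derivation F (A F) (A F) := (T (eu i)).1

/-- Pulling back multiples of an image field. -/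
noncomputable def Psi (N : ℕ) : A F →ₗ[F] W F := T.symm.toLinearEquiv.toLinearMap ∘ₗ sm (T (pd N))

lemma T_Psi (N : ℕ) (a : A F) : T (Psi T N a) = sm (T (pd N)) a := T.apply_symm_apply _

lemma sm_zero (a : A F) : sm (0 : W F) a = 0 := wext fun l => by simp

lemma D_ne (N : ℕ) : ∃ p, D T N p ≠ 0 := by
  by_contra h
  simp only [not_exists, not_not] at h
  have h1 : T (pd N) = 0 := wext fun l => h _
  have h2 : (pd N : W F) = 0 := by simpa using h1
  have := congrArg (fun u : W F => u.1 (X N)) h2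
  simp at this

lemma Psi_inj (N : ℕ) : Function.Injective (Psi T N) := by
  intro a b h
  obtain ⟨p, hp⟩ := D_ne T N
  have := congrArg (fun u : W F => (T u).1 p) h
  simp only [T_Psi, sm_apply] at this
  exact mul_right_cancel₀ hp this

lemma Psi_pd (N j : ℕ) (a : A F) : ⁅(pd j : W F), Psi T N a⁆ = Psi T N (D T j a) := by
  apply T.injective
  change T _ = T _
  rw [T.map_lie, T_Psi, T_Psi, br_sm, ← T.map_lie, br_pd, map_zero, sm_zero, add_zero]
  rfl

lemma Psi_eu (N i : ℕ) (a : A F) :
    ⁅(eu i : W F), Psi T N a⁆ = Psi T N (E T i a - (dl N i : F) • a) := by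
  apply T.injective
  change T _ = T _
  rw [T.map_lie, T_Psi, T_Psi, br_sm, ← T.map_lie, br_eu, map_sub, map_neg, map_smul, map_smul,
    sub_eq_add_neg]
  congr 1
  apply wext
  intro k
  change a * -((dl N i : F) • (T (pd N)).1 (X k)) = -((dl N i : F) • (a * (T (pd N)).1 (X k)))
  rw [mul_neg, mul_smul_comm]

lemma DD (i j : ℕ) (a : A F) : D T i (D T j a) = D T j (D T i a) := by
  have h := congrArg (fun u : W F => u.1 a) (T.map_lie (pd i) (pd j))
  simp only [br_pd, map_zero, br_apply] at h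
  exact (sub_eq_zero.1 h.symm)

lemma ED (i j : ℕ) (a : A F) : E T i (D T j a) = D T j (E T i a) - (dl j i : F) • D T j a := by
  have h := congrArg (fun u : W F => u.1 a) (T.map_lie (eu i) (pd j))
  simp only [br_eu, map_neg, map_smul, br_apply] at h
  change -((dl j i : F) • D T j a) = E T i (D T j a) - D T j (E T i a) at h
  linear_combination -h

/-- Weight vectors. -/
def Wt (μ : ℕ → F) : Submodule F (A F) where
  carrier := {a | ∀ i, E T i a = μ i • a}
  add_mem' {a b} ha hb i := by rw [map_add, ha i, hb i, smul_add]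
  zero_mem' i := by simp
  smul_mem' c a ha i := by rw [Derivation.map_smul, ha i, smul_comm]

lemma Wt_top (a : A F) : a ∈ ⨆ μ, Wt T μ := by
  classical
  let U : (ℕ → F) → Submodule F (W F) := fun κ =>
    { carrier := {w | ∀ i, ⁅(eu i : W F), w⁆ = κ i • w}
      add_mem' := fun {a b} ha hb i => by rw [lie_add, ha i, hb i, smul_add]
      zero_mem' := fun i => by simp
      smul_mem' := fun c a ha i => by rw [lie_smul, ha i, smul_comm] }
  have h1 : Psi T 0 a ∈ ⨆ κ, U κ := W_ind _ (fun α l =>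
    Submodule.mem_iSup_of_mem (p := U) (fun i => (α i : F) - dl l i)
      fun i => br_eu_mon i l α) _
  obtain ⟨f, hf, hs⟩ := (Submodule.mem_iSup_iff_exists_finsupp _ _).1 h1
  have h2 : ∀ κ ∈ f.support, f κ ∈ LinearMap.range (Psi T 0) := fun κ hκ =>
    comp_mem' (fun i => LieAlgebra.ad F (W F) (eu i)) (LinearMap.range (Psi T 0))
      (by
        rintro i _ ⟨b, rfl⟩
        exact ⟨_, (Psi_eu T 0 i b).symm⟩)
      id Function.injective_id f.support f (fun k i => hf k i) ⟨a, hs.symm⟩ κ hκ
  have h3 : Psi T 0 a ∈ (⨆ μ, Wt T μ).map (Psi T 0) := by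
    rw [← hs]
    refine Submodule.sum_mem _ fun κ hκ => ?_
    obtain ⟨b, hb⟩ := h2 κ hκ
    refine ⟨b, Submodule.mem_iSup_of_mem (p := Wt T) (fun i => κ i + dl 0 i) fun i => ?_, hb⟩
    have := hf κ i
    rw [← hb, Psi_eu, ← map_smul] at this
    rw [add_smul, ← Psi_inj T 0 this, sub_add_cancel]
  obtain ⟨b, hb, e⟩ := h3
  rwa [← Psi_inj T 0 e]

lemma Psi_wt {μ : ℕ → F} {a : A F} (h : a ∈ Wt T μ) (i : ℕ) :
    ⁅(eu i : W F), Psi T 0 a⁆ = (μ i - dl 0 i) • Psi T 0 a := by
  rw [Psi_eu, h i, ← sub_smul, map_smul]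

lemma exists_coeff {w : W F} (h : w ≠ 0) : ∃ l α, coeff α (w.1 (X l)) ≠ 0 := by
  by_contra e
  simp only [not_exists, not_not] at e
  exact h (wext fun l => MvPolynomial.ext _ _ fun α => e l α)

lemma wt_aux {μ : ℕ → F} {a : A F} (h : a ∈ Wt T μ) (ha : a ≠ 0) :
    ∃ (l : ℕ) (α : ℕ →₀ ℕ), ∀ i, μ i - dl 0 i + dl i l = α i := by
  obtain ⟨l, α, hα⟩ := exists_coeff (w := Psi T 0 a) fun e =>
    ha (Psi_inj T 0 (e.trans (map_zero _).symm))
  exact ⟨l, α, wt_W _ _ (Psi_wt T h) l α hα⟩

lemma Wt_mul {μ ν : ℕ → F} {a b : A F} (h : a ∈ Wt T μ) (h' : b ∈ Wt T ν) :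
    a * b ∈ Wt T (μ + ν) := fun i => by
  rw [Derivation.leibniz, h i, h' i, Pi.add_apply, add_smul, smul_eq_mul, smul_eq_mul,
    mul_smul_comm, mul_smul_comm, mul_comm b a, add_comm]

lemma Wt_D {μ : ℕ → F} {a : A F} (h : a ∈ Wt T μ) (j : ℕ) :
    D T j a ∈ Wt T fun i => μ i - dl j i := fun i => by
  rw [ED, h i, Derivation.map_smul, sub_smul]

variable [CharZero F]

lemma wt_ne {μ : ℕ → F} {a : A F} (h : a ∈ Wt T μ) (ha : a ≠ 0) (i : ℕ) : μ i ≠ -1 := by
  intro e
  obtain ⟨l, α, hα⟩ := wt_aux T (Wt_mul T h h) (mul_ne_zero ha ha)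
  have h1 := hα i
  rw [Pi.add_apply, e] at h1
  unfold dl at h1
  split_ifs at h1
  · have : ((α i + 2 : ℕ) : F) = 0 := by push_cast; linear_combination -h1
    exact absurd (Nat.cast_eq_zero.1 this) (by omega)
  · have : ((α i + 3 : ℕ) : F) = 0 := by push_cast; linear_combination -h1
    exact absurd (Nat.cast_eq_zero.1 this) (by omega)
  · have : ((α i + 1 : ℕ) : F) = 0 := by push_cast; linear_combination -h1
    exact absurd (Nat.cast_eq_zero.1 this) (by omega)
  · have : ((α i + 2 : ℕ) : F) = 0 := by push_cast; linear_combination -h1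
    exact absurd (Nat.cast_eq_zero.1 this) (by omega)

lemma wt_nat {μ : ℕ → F} {a : A F} (h : a ∈ Wt T μ) (ha : a ≠ 0) :
    ∃ β : ℕ →₀ ℕ, μ = fun i => (β i : F) := by
  obtain ⟨l, α, hα⟩ := wt_aux T h ha
  have h1 : ∀ i, μ i + dl i l = ((α + Finsupp.single 0 1 : ℕ →₀ ℕ) i : F) := fun i => by
    rw [Finsupp.add_apply, Nat.cast_add, ← hα i, Finsupp.single_apply]
    unfold dl
    split_ifs <;> simp
  generalize α + Finsupp.single 0 1 = γ at h1
  have h2 : 1 ≤ γ l := by
    rw [Nat.one_le_iff_ne_zero]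
    intro e
    have := h1 l
    rw [e, dl, if_pos rfl, Nat.cast_zero] at this
    exact wt_ne T h ha l (eq_neg_of_add_eq_zero_left this)
  refine ⟨γ - Finsupp.single l 1, funext fun i => ?_⟩
  have := h1 i
  rw [Finsupp.tsub_apply, Finsupp.single_apply]
  unfold dl at this
  by_cases e : i = l
  · subst e
    rw [if_pos rfl] at this ⊢
    rw [Nat.cast_sub h2, ← this]
    simp
  · rw [if_neg e, add_zero] at this
    rw [if_neg (Ne.symm e), this]
    simp

lemma kerD {μ : ℕ → F} {a : A F} (h : a ∈ Wt T μ) (ha : a ≠ 0) (hD : ∀ j, D T j a = 0) :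
    μ = 0 ∧ ∃ c, a = C c := by
  have h1 : ∀ l, (Psi T 0 a).1 (X l) = C (coeff 0 ((Psi T 0 a).1 (X l))) := fun l =>
    const_of_pderiv _ fun j => by
      have := congrArg (fun u : W F => u.1 (X l)) (Psi_pd T 0 j a)
      simp only [hD, map_zero, br_apply, pd_apply, pderiv_X', derivation_C, sub_zero] at this
      exact this
  have h2 : ∀ l, coeff 0 ((Psi T 0 a).1 (X l)) ≠ 0 → l = 0 ∧ μ = 0 := fun l hl => by
    have h3 := wt_W _ _ (Psi_wt T h) l 0 hl
    have h4 : l = 0 := by
      by_contra e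
      have := h3 l
      simp only [dl, if_neg (Ne.symm e), if_true, Finsupp.zero_apply, Nat.cast_zero,
        sub_zero] at this
      exact wt_ne T h ha l (eq_neg_of_add_eq_zero_left this)
    refine ⟨h4, funext fun i => ?_⟩
    have := h3 i
    simp only [h4, dl, eq_comm (a := 0), sub_add_cancel, Finsupp.zero_apply, Nat.cast_zero] at this
    exact this
  constructor
  · obtain ⟨l, α, hα⟩ := exists_coeff (w := Psi T 0 a) fun e =>
      ha (Psi_inj T 0 (e.trans (map_zero _).symm))
    refine (h2 l fun e => hα ?_).2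
    rw [h1, e, C_0, coeff_zero]
  · refine ⟨coeff 0 ((Psi T 0 a).1 (X 0)), Psi_inj T 0 ?_⟩
    have h5 : Psi T 0 (C (coeff 0 ((Psi T 0 a).1 (X 0)))) =
        coeff 0 ((Psi T 0 a).1 (X 0)) • pd 0 := by
      apply T.injective
      change T _ = T _
      rw [T_Psi, sm_C, map_smul]
    rw [h5]
    apply wext
    intro l
    change _ = coeff 0 ((Psi T 0 a).1 (X 0)) • pderiv 0 (X l)
    by_cases e : l = 0
    · subst e
      rw [pderiv_X_self, smul_eq_C_mul, mul_one]
      exact h1 0
    · rw [pderiv_X_of_ne e, smul_zero, h1, of_not_not fun e' => e (h2 l e').1, C_0]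

lemma wt_ind (P : (ℕ → F) → A F → Prop) (h0 : ∀ μ, P μ 0)
    (hs : ∀ μ, ∀ a ∈ Wt T μ, a ≠ 0 → (∀ j, P (fun i => μ i - dl j i) (D T j a)) → P μ a)
    (μ : ℕ → F) (a : A F) (h : a ∈ Wt T μ) : P μ a := by
  have key : ∀ n, ∀ β : ℕ →₀ ℕ, β.degree = n → ∀ a ∈ Wt T fun i => (β i : F),
      P (fun i => (β i : F)) a := by
    intro n
    induction n using Nat.strong_induction_on with
    | _ n ih =>
      intro β hβ a h
      by_cases ha : a = 0
      · rw [ha]; exact h0 _
      refine hs _ a h ha fun j => ?_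
      by_cases hj : D T j a = 0
      · rw [hj]; exact h0 _
      obtain ⟨γ, hγ⟩ := wt_nat T (Wt_D T h j) hj
      have e : β = γ + Finsupp.single j 1 := by
        ext i
        have := congrFun hγ i
        apply Nat.cast_injective (R := F)
        rw [Finsupp.add_apply, Nat.cast_add, ← this, Finsupp.single_apply]
        unfold dl
        split_ifs <;> simp
      have hW := Wt_D T h j
      rw [hγ] at hW ⊢
      exact ih γ.degree (by rw [← hβ, e, map_add]; simp) γ rfl _ hW
  by_cases ha : a = 0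
  · rw [ha]; exact h0 _
  obtain ⟨β, rfl⟩ := wt_nat T h ha
  exact key _ β rfl a h

lemma exists_slice (i : ℕ) : ∃ y ∈ Wt T (dl i), ∀ j, D T j y = C (dl j i) := by
  have h1 : ∃ μ, ∃ a ∈ Wt T μ, D T i a ≠ 0 := by
    by_contra e
    simp only [not_exists, not_and, not_not] at e
    obtain ⟨p, hp⟩ := D_ne T i
    have : (⨆ μ, Wt T μ) ≤ LinearMap.ker (D T i : A F →ₗ[F] A F) := iSup_le fun μ a ha => e μ a ha
    exact hp (this (Wt_top T p))
  obtain ⟨μ, a, ha, hD⟩ := h1
  refine wt_ind T (fun _ a => D T i a ≠ 0 → ∃ y ∈ Wt T (dl i), ∀ j, D T j y = C (dl j i))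
    (fun _ h => absurd (map_zero _) h) (fun μ a ha _ ih hD => ?_) μ a ha hD
  by_cases e : ∃ j, D T j (D T i a) ≠ 0
  · obtain ⟨j, hj⟩ := e
    exact ih j (by rwa [DD])
  simp only [not_exists, not_not] at e
  obtain ⟨h1, c, hc⟩ := kerD T (Wt_D T ha i) hD e
  have hμ : μ = dl i := funext fun k => sub_eq_zero.1 (congrFun h1 k)
  subst hμ
  have hc0 : c ≠ 0 := fun e => hD (by rw [hc, e, C_0])
  refine ⟨c⁻¹ • a, Submodule.smul_mem _ _ ha, fun j => ?_⟩
  rw [Derivation.map_smul]
  by_cases hj : j = i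
  · rw [hj, hc, smul_eq_C_mul, ← C_mul, inv_mul_cancel₀ hc0, dl, if_pos rfl]
  · rw [dl, if_neg hj, C_0, of_not_not fun e' => wt_ne T (Wt_D T ha j) e' j (by
      simp [dl, Ne.symm hj]), smul_zero]

/-- The new coordinates. -/
noncomputable def y (i : ℕ) : A F := (exists_slice T i).choose

lemma y_wt (i : ℕ) : y T i ∈ Wt T (dl i) := (exists_slice T i).choose_spec.1

lemma D_y (j i : ℕ) : D T j (y T i) = C (dl j i) := (exists_slice T i).choose_spec.2 j

lemma euler (i : ℕ) (μ : ℕ → F) (a : A F) (h : a ∈ Wt T μ) : μ i • a = y T i * D T i a := by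
  refine wt_ind T (fun μ a => μ i • a = y T i * D T i a) (fun _ => by simp)
    (fun μ a ha h0 ih => ?_) μ a h
  by_contra e
  have h1 : μ i • a - y T i * D T i a ∈ Wt T μ := by
    refine Submodule.sub_mem _ (Submodule.smul_mem _ _ ha) ?_
    convert Wt_mul T (y_wt T i) (Wt_D T ha i) using 2
    ext k
    simp
  have h2 := (kerD T h1 (sub_ne_zero.2 e) fun j => by
    rw [map_sub, Derivation.map_smul, Derivation.leibniz, D_y, DD T j i, smul_eq_mul, ← ih j,
      smul_eq_mul, sub_smul, mul_comm, ← smul_eq_C_mul]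
    unfold dl
    split_ifs with e
    · subst e; simp
    · simp).1
  subst h2
  apply e
  rw [of_not_not fun e' => wt_ne T (Wt_D T ha i) e' i (by simp [dl])]
  simp

/-- The coordinate change. -/
noncomputable def phi : A F →ₐ[F] A F := aeval (y T)

lemma D_phi (j : ℕ) (p : A F) : D T j (phi T p) = phi T (pderiv j p) := by
  induction p using MvPolynomial.induction_on with
  | C c => simp [phi]
  | add p q hp hq => simp only [map_add, hp, hq]
  | mul_X p i hp =>
    simp only [map_mul, Derivation.leibniz, smul_eq_mul, map_add, hp, pderiv_X']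
    simp [phi, D_y]

lemma phi_surj : Function.Surjective (phi T) := by
  intro a
  have : (⨆ μ, Wt T μ) ≤ LinearMap.range (phi T).toLinearMap := iSup_le fun μ a ha => by
    refine wt_ind T (fun _ a => a ∈ LinearMap.range (phi T).toLinearMap) (fun _ => zero_mem _)
      (fun μ a ha h0 ih => ?_) μ a ha
    by_cases e : μ = 0
    · subst e
      obtain ⟨-, c, hc⟩ := kerD T ha h0 fun j =>
        of_not_not fun e' => wt_ne T (Wt_D T ha j) e' j (by simp [dl])
      exact ⟨C c, by simp [hc]⟩
    · obtain ⟨i, hi⟩ := Function.ne_iff.1 e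
      obtain ⟨p, hp⟩ := ih i
      refine (Submodule.smul_mem_iff _ hi).1 ⟨X i * p, ?_⟩
      rw [euler T i μ a ha, ← hp]
      simp [phi]
  exact this (Wt_top T a)

lemma phi_inj : Function.Injective (phi T) := by
  rw [injective_iff_map_eq_zero]
  intro p hp
  ext α
  by_contra hα
  have h1 := comp_mem' (fun i => ((eu i : W F).1 : A F →ₗ[F] A F))
    (LinearMap.ker (phi T).toLinearMap)
    (fun i v hv => by
      rw [LinearMap.mem_ker, AlgHom.toLinearMap_apply] at hv ⊢
      rw [Derivation.coeFn_coe, eu, sm_apply, pd_apply, map_mul, ← D_phi, hv, map_zero, mul_zero])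
    (fun (α : ℕ →₀ ℕ) i => (α i : F))
    (fun α β h => Finsupp.ext fun i => Nat.cast_injective (R := F) (congrFun h i))
    p.support (fun α => monomial α (coeff α p)) (fun k i => eu_monomial i k _)
    (by rw [← p.as_sum, LinearMap.mem_ker, AlgHom.toLinearMap_apply]; exact hp) α
    (mem_support_iff.2 hα)
  rw [LinearMap.mem_ker, AlgHom.toLinearMap_apply] at h1
  rw [phi, aeval_monomial, mul_eq_zero, Finsupp.prod, Finset.prod_eq_zero_iff] at h1
  rcases h1 with h1 | ⟨i, -, h1⟩
  · exact hα (by simpa using h1)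
  · have := D_y T i i
    rw [pow_eq_zero_iff'] at h1
    rw [h1.1, map_zero, dl, if_pos rfl, C_1] at this
    exact zero_ne_one this

lemma phi_wt (α : ℕ →₀ ℕ) : phi T (monomial α 1) ∈ Wt T fun i => (α i : F) := by
  have h : ∀ i p, E T i (phi T p) = phi T ((eu i : W F).1 p) := fun i p => by
    induction p using MvPolynomial.induction_on with
    | C c => simp [phi]
    | add p q hp hq => simp only [map_add, hp, hq]
    | mul_X p k hp =>
      simp only [map_mul, Derivation.leibniz, smul_eq_mul, map_add, hp]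
      congr 2
      rw [eu, sm_apply, pd_apply, pderiv_X', phi, aeval_X, y_wt T k i, map_mul, aeval_X, aeval_C,
        smul_eq_C_mul, mul_comm]
      unfold dl
      by_cases e : i = k
      · rw [e]; rfl
      · simp [e, Ne.symm e]
  intro i
  rw [h, eu_monomial, map_smul]

lemma T_mon (l : ℕ) (α : ℕ →₀ ℕ) :
    T (sm (pd l) (monomial α 1)) = sm (T (pd l)) (phi T (monomial α 1)) := by
  induction hn : α.degree using Nat.strong_induction_on generalizing α with
  | _ n ih =>
  by_cases h0 : α = 0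
  · subst h0
    have : (monomial 0 1 : A F) = C 1 := rfl
    rw [this, sm_C, phi, aeval_C, map_smul]
    exact (sm_C _ _).symm
  set Z := T (sm (pd l) (monomial α 1)) - sm (T (pd l)) (phi T (monomial α 1)) with hZ
  have h1 : ∀ i, ⁅T (pd i), Z⁆ = 0 := fun i => by
    rw [hZ, lie_sub, ← T.map_lie, br_sm, br_sm, ← T.map_lie, br_pd, map_zero, sm_zero, sm_zero,
      add_zero, add_zero, sub_eq_zero]
    change _ = sm (T (pd l)) (D T i _)
    rw [D_phi, pd_apply, pderiv_monomial, mul_comm, ← smul_eq_mul, ← smul_monomial]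
    simp only [map_smul]
    by_cases e : α i = 0
    · simp [e]
    rw [ih _ _ _ rfl]
    have e2 : α = α - Finsupp.single i 1 + Finsupp.single i 1 :=
      (tsub_add_cancel_of_le (Finsupp.single_le_iff.2 (by omega))).symm
    rw [← hn]
    conv_rhs => rw [e2, map_add]
    simp
  have h2 : ∀ i, ⁅T (eu i), Z⁆ = ((α i : F) - dl l i) • Z := fun i => by
    rw [hZ, lie_sub, ← T.map_lie, br_eu_mon, br_sm, ← T.map_lie, br_eu, map_smul, smul_sub]
    congr 1
    change sm (T (pd l)) (E T i _) + _ = _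
    rw [phi_wt T α i, map_smul, map_neg, map_smul, sub_smul, sub_eq_add_neg]
    congr 1
    apply wext
    intro k
    change phi T (monomial α 1) * -((dl l i : F) • (T (pd l)).1 (X k)) =
      -((dl l i : F) • (phi T (monomial α 1) * (T (pd l)).1 (X k)))
    rw [mul_neg, mul_smul_comm]
  have h3 : ∀ k, Z.1 (y T k) = 0 := fun k => by
    by_contra e
    have hw : Z.1 (y T k) ∈ Wt T fun i => (α i : F) - dl l i + dl k i := fun i => by
      have := congrArg (fun u : W F => u.1 (y T k)) (h2 i)
      simp only [br_apply] at this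
      change E T i _ - Z.1 (E T i _) = ((α i : F) - dl l i) • Z.1 (y T k) at this
      rw [y_wt T k i, Derivation.map_smul] at this
      rw [add_smul, ← this, sub_add_cancel]
    have h4 := (kerD T hw e fun j => by
      have := congrArg (fun u : W F => u.1 (y T k)) (h1 j)
      simp only [br_apply] at this
      change D T j _ - Z.1 (D T j _) = 0 at this
      rwa [D_y, derivation_C, sub_zero] at this).1
    by_cases e' : k = l
    · apply h0
      ext i
      have := congrFun h4 i
      simpa [e'] using this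
    · have := congrFun h4 k
      simp only [dl, if_neg (Ne.symm e'), if_true, sub_zero, Pi.zero_apply] at this
      exact Nat.cast_add_one_ne_zero _ this
  have h5 : ∀ p, Z.1 (phi T p) = 0 := fun p => by
    induction p using MvPolynomial.induction_on with
    | C c => simp [phi]
    | add p q hp hq => simp only [map_add, hp, hq, add_zero]
    | mul_X p k hp =>
      rw [map_mul, Derivation.leibniz, hp, phi, aeval_X, h3, smul_zero, smul_zero, add_zero]
  rw [← sub_eq_zero]
  apply wext
  intro k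
  obtain ⟨p, hp⟩ := phi_surj T (X k)
  rw [← hp]
  exact h5 p

theorem T_phi (w : W F) (p : A F) : (T w).1 (phi T p) = phi T (w.1 p) := by
  let S : Submodule F (W F) :=
    { carrier := {w | (T w).1 (phi T p) = phi T (w.1 p)}
      add_mem' := fun {a b} ha hb => by
        change (T (a + b)).1 _ = phi T (a.1 p + b.1 p)
        rw [map_add, map_add, ← ha, ← hb]; rfl
      zero_mem' := by
        change (T 0).1 _ = phi T 0
        rw [map_zero, map_zero]; rfl
      smul_mem' := fun c a ha => by
        change (T (c • a)).1 _ = phi T (c • a.1 p)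
        rw [map_smul, map_smul, ← ha]; rfl }
  refine W_ind S (fun α l => ?_) w
  change (T _).1 _ = _
  rw [T_mon, sm_apply, sm_apply, map_mul, pd_apply, ← D_phi]
  rfl

end Pool.Agent.H48.Winf
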