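import Mathlib

/-! Locally nilpotent inner derivations and a Hermite interpolation argument. -/

namespace Pool.Agent.H48.Witt

open Finset

section LN
variable {R : Type*} [Ring R]

/-- The inner derivation. -/
def ad (x : R) : R →+ R where
  toFun a := x * a - a * x
  map_zero' := by simp
  map_add' a b := by noncomm_ring

lemma ad_apply (x a : R) : ad x a = x * a - a * x := rfl

lemma ad_mul (x a b : R) : ad x (a * b) = ad x a * b + a * ad x b := by
  simp only [ad_apply]; noncomm_ring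

lemma leib (x a b : R) (n : ℕ) : (ad x)^[n] (a * b) =
    ∑ p ∈ antidiagonal n, n.choose p.1 • ((ad x)^[p.1] a * (ad x)^[p.2] b) := by
  induction n with
  | zero => simp
  | succ n ih =>
    rw [sum_antidiagonal_choose_succ_nsmul (fun i j => (ad x)^[i] a * (ad x)^[j] b) n,
      Function.iterate_succ_apply', ih, map_sum, ← sum_add_distrib]
    refine sum_congr rfl fun p hp => ?_
    rw [map_nsmul, ad_mul, Function.iterate_succ_apply', Function.iterate_succ_apply', nsmul_add,
      add_comm, Nat.choose_symm_of_eq_add (mem_antidiagonal.1 hp).symm]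

lemma it_zero (x : R) (n : ℕ) : (ad x)^[n] 0 = 0 := iterate_map_zero _ _

lemma it_of_le {x a : R} {m n : ℕ} (h : (ad x)^[m] a = 0) (hmn : m ≤ n) : (ad x)^[n] a = 0 := by
  obtain ⟨k, rfl⟩ := Nat.exists_eq_add_of_le' hmn
  rw [Function.iterate_add_apply, h, it_zero]

lemma top_mul {x a b : R} {p q : ℕ} (ha : (ad x)^[p + 1] a = 0) (hb : (ad x)^[q + 1] b = 0) :
    (ad x)^[p + q] (a * b) = (p + q).choose p • ((ad x)^[p] a * (ad x)^[q] b) := by
  rw [leib, sum_eq_single (p, q)]
  · rintro ⟨i, j⟩ hij hne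
    have h1 : i + j = p + q := mem_antidiagonal.1 hij
    by_cases h : p < i
    · rw [it_of_le ha h, zero_mul, smul_zero]
    · have : q < j := by
        by_contra h'
        exact hne (Prod.ext (by simp; omega) (by simp; omega))
      rw [it_of_le hb this, mul_zero, smul_zero]
  · intro h; exact absurd (by simp) h

lemma deg_mul {x a b : R} {p q : ℕ} (ha : (ad x)^[p + 1] a = 0) (hb : (ad x)^[q + 1] b = 0) :
    (ad x)^[p + q + 1] (a * b) = 0 := by
  rw [Function.iterate_succ_apply', top_mul ha hb, map_nsmul, ad_mul,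
    ← Function.iterate_succ_apply' (ad x), ← Function.iterate_succ_apply' (ad x), ha, hb]
  simp

lemma exists_deg {x a : R} (h : ∃ n, (ad x)^[n] a = 0) (ha : a ≠ 0) :
    ∃ p, (ad x)^[p + 1] a = 0 ∧ (ad x)^[p] a ≠ 0 := by
  classical
  have h0 : Nat.find h ≠ 0 := fun e => ha (by simpa [e] using Nat.find_spec h)
  obtain ⟨p, hp⟩ := Nat.exists_eq_succ_of_ne_zero h0
  exact ⟨p, by simpa [hp] using Nat.find_spec h, Nat.find_min h (by omega)⟩

lemma ad_comm {x y : R} (h : x * y = y * x) (a : R) : ad x (ad y a) = ad y (ad x a) := by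
  simp only [ad_apply, mul_sub, sub_mul, ← mul_assoc, h]
  simp only [mul_assoc, h]
  abel

variable [Algebra ℚ R]

lemma nsmul_ne {n : ℕ} (hn : n ≠ 0) {a : R} (ha : a ≠ 0) : n • a ≠ 0 := fun e => ha (by
  have : a = (n : ℚ)⁻¹ • (n • a) := by
    rw [← Nat.cast_smul_eq_nsmul ℚ, smul_smul, inv_mul_cancel₀ (by exact_mod_cast hn), one_smul]
  rw [this, e, smul_zero])

lemma mul_ne_of_ker (x : R) (S : Set R) (hS : ∀ a ∈ S, ad x a ∈ S)
    (hn : ∀ a, ∃ n, (ad x)^[n] a = 0)
    (hk : ∀ a ∈ S, ∀ b ∈ S, ad x a = 0 → ad x b = 0 → a ≠ 0 → b ≠ 0 → a * b ≠ 0)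
    (a : R) (haS : a ∈ S) (b : R) (hbS : b ∈ S) (ha : a ≠ 0) (hb : b ≠ 0) : a * b ≠ 0 := by
  obtain ⟨p, hp, hp'⟩ := exists_deg (hn a) ha
  obtain ⟨q, hq, hq'⟩ := exists_deg (hn b) hb
  have hm : ∀ n, ∀ c ∈ S, (ad x)^[n] c ∈ S := fun n => by
    induction n with
    | zero => exact fun c hc => hc
    | succ n ih => exact fun c hc => ih _ (hS c hc)
  intro e
  have := top_mul hp hq
  rw [e, it_zero] at this
  refine nsmul_ne (Nat.choose_pos (Nat.le_add_right p q)).ne' (hk _ (hm p a haS) _ (hm q b hbS)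
    ?_ ?_ hp' hq') this.symm
  · rwa [Function.iterate_succ_apply'] at hp
  · rwa [Function.iterate_succ_apply'] at hq

lemma noZeroDiv (x y : R) (hxy : x * y = y * x) (hx : ∀ a, ∃ n, (ad x)^[n] a = 0)
    (hy : ∀ a, ∃ n, (ad y)^[n] a = 0)
    (hk : ∀ a b, ad x a = 0 → ad y a = 0 → ad x b = 0 → ad y b = 0 → a ≠ 0 → b ≠ 0 → a * b ≠ 0) :
    NoZeroDivisors R := ⟨fun {a b} h => by
  by_contra hc
  rw [not_or] at hc
  refine mul_ne_of_ker x Set.univ (fun _ _ => trivial) hx (fun a _ b _ ha hb => ?_) a trivial b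
    trivial hc.1 hc.2 h
  exact mul_ne_of_ker y {c | ad x c = 0} (fun c hc => by
    change ad x (ad y c) = 0
    rw [ad_comm hxy, show ad x c = 0 from hc, map_zero]) hy
    (fun a ha b hb ha' hb' => hk a b ha ha' hb hb') a ha b hb⟩

lemma deg_pow [NoZeroDivisors R] [Nontrivial R] {x t : R} {d : ℕ} (h : (ad x)^[d + 1] t = 0)
    (h' : (ad x)^[d] t ≠ 0) (k : ℕ) :
    (ad x)^[k * d + 1] (t ^ k) = 0 ∧ (ad x)^[k * d] (t ^ k) ≠ 0 := by
  induction k with
  | zero => simp [ad_apply]
  | succ k ih =>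
    rw [pow_succ, Nat.succ_mul]
    refine ⟨deg_mul ih.1 h, ?_⟩
    rw [top_mul ih.1 h]
    exact nsmul_ne (Nat.choose_pos (Nat.le_add_right _ _)).ne' (mul_ne_zero ih.2 h')

lemma ad_of_monic [NoZeroDivisors R] [Nontrivial R] (x t : R) (hn : ∃ n, (ad x)^[n] t = 0) (n : ℕ)
    (a b : ℕ → R) (ha : ∀ r, ad x (a r) = 0) (hb : ∀ r, ad x (b r) = 0)
    (h : t ^ n = ∑ r ∈ range n, a r * t ^ r * b r) : ad x t = 0 := by
  by_cases ht : t = 0
  · rw [ht, map_zero]
  obtain ⟨d, hd, hd'⟩ := exists_deg hn ht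
  rcases Nat.eq_zero_or_pos d with rfl | hpos
  · exact hd
  exfalso
  apply (deg_pow hd hd' n).2
  rw [h]
  refine sum_induction _ (fun c => (ad x)^[n * d] c = 0)
    (fun a b ha hb => by rw [iterate_map_add, ha, hb, add_zero]) (it_zero _ _) fun r hr => ?_
  have := deg_mul (q := 0) (deg_mul (p := 0) (ha r) (deg_pow hd hd' r).1) (hb r)
  refine it_of_le this ?_
  have := mem_range.1 hr
  nlinarith

end LN

section Core
open Polynomial
variable {R C : Type*} [Ring R] [CommRing C]

lemma taylor_coeff_top (x : C) (h : C[X]) (m j : ℕ) (hj : j ≤ m) :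
    (taylor x (h * (X - Polynomial.C x) ^ m)).coeff j = if j = m then h.eval x else 0 := by
  rw [taylor_mul, taylor_pow, map_sub, taylor_X, taylor_C, add_sub_cancel_right, coeff_mul_X_pow']
  split_ifs with h1 h2 h2
  · rw [h2, Nat.sub_self, taylor_coeff_zero]
  · omega
  · omega
  · rfl

lemma lin_ext (Λ : C[X] →+ R) (h : ∀ c k, Λ (Polynomial.C c * X ^ k) = 0) (g : C[X]) : Λ g = 0 := by
  induction g using Polynomial.induction_on' with
  | add p q hp hq => rw [map_add, hp, hq, add_zero]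
  | monomial n a => rw [← C_mul_X_pow_eq_monomial, h]

theorem core [NoZeroDivisors R] [Nontrivial R] {ℓ : ℕ} (ψ : C →+* R) (x : Fin ℓ → C)
    (D : Fin ℓ → R) (N : ℕ) (v : Fin ℓ → ℕ → R) (hv : ∀ i j, N ≤ j → v i j = 0)
    (hD : ∀ i j, D i * ψ (x j) - ψ (x j) * D i = if i = j then 1 else 0)
    (hvc : ∀ i j c, v i j * ψ c = ψ c * v i j) (P : ℕ → R)
    (hP : ∀ k, P k = ∑ i, (ψ (x i ^ k) * D i +
      ∑ j ∈ range N, ψ ((taylor (x i) (X ^ k)).coeff (j + 1)) * v i j))
    (e₁ e₂ : R) (Q : ℕ → R) (h0 : P 0 ≠ 0)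
    (hL : ∀ k, P (k + 2) - e₁ * P (k + 1) + e₂ * P k = 0)
    (hR : ∀ k, ∑ r ∈ range 5, P (k + r) * Q r = 0)
    (n1 : ∀ t : R, t ^ 2 - e₁ * t + e₂ ≠ 0) (n2 : ∀ t : R, ∑ r ∈ range 5, t ^ r * Q r ≠ 0) :
    False := by
  classical
  have hne : ∀ i i', i' ≠ i → ψ (x i - x i') ≠ 0 := fun i i' h e => by
    have h1 := hD i i
    have h2 := hD i i'
    rw [map_sub, sub_eq_zero] at e
    rw [if_pos rfl, e, h2, if_neg h.symm] at h1
    exact zero_ne_one h1
  have hprod : ∀ i M, ψ ((∏ i' ∈ univ.erase i, (X - Polynomial.C (x i')) ^ M).eval (x i)) ≠ 0 := by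
    intro i M
    rw [eval_prod]
    refine Finset.prod_induction _ (fun c => ψ c ≠ 0)
      (fun a b ha hb => by rw [map_mul]; exact mul_ne_zero ha hb) (by simp) fun i' hi' => ?_
    rw [eval_pow, eval_sub, eval_X, eval_C, map_pow]
    exact pow_ne_zero _ (hne i i' (ne_of_mem_erase hi'))
  have hoth : ∀ i i' M (h : C[X]) j, i' ≠ i → j < M →
      (taylor (x i') (h * ∏ i' ∈ univ.erase i, (X - Polynomial.C (x i')) ^ M)).coeff j = 0 := by
    intro i i' M h j hi hj
    rw [← Finset.prod_erase_mul _ _ (mem_erase.2 ⟨hi, mem_univ i'⟩), ← mul_assoc,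
      taylor_coeff_top _ _ _ _ hj.le, if_neg hj.ne]
  let Λ : C[X] →+ R :=
    { toFun := fun g => ∑ i, (ψ ((taylor (x i) g).coeff 0) * D i +
        ∑ j ∈ range N, ψ ((taylor (x i) g).coeff (j + 1)) * v i j)
      map_zero' := by simp
      map_add' := fun a b => by
        simp only [map_add, coeff_add, add_mul, sum_add_distrib]
        abel }
  have hΛ : ∀ c k, Λ (Polynomial.C c * X ^ k) = ψ c * P k := fun c k => by
    simp only [Λ, hP, AddMonoidHom.coe_mk, ZeroHom.coe_mk, taylor_mul, taylor_C, coeff_C_mul,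
      map_mul, mul_sum, mul_add, mul_assoc, taylor_coeff_zero, eval_pow, eval_X, eval_mul, eval_C]
  have hRel : ∀ g, ∑ r ∈ range 5, Λ (X ^ r * g) * Q r = 0 := fun g =>
    lin_ext
      { toFun := fun g => ∑ r ∈ range 5, Λ (X ^ r * g) * Q r
        map_zero' := by simp
        map_add' := fun a b => by simp only [mul_add, map_add, add_mul, sum_add_distrib] }
      (fun c k => by
        change ∑ r ∈ range 5, Λ (X ^ r * (Polynomial.C c * X ^ k)) * Q r = 0
        simp only [mul_left_comm (X ^ _), ← pow_add, hΛ, mul_assoc, ← mul_sum, add_comm _ k, hR,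
          mul_zero]) g
  have hv0 : ∀ i j, v i j = 0 := by
    intro i
    by_contra hc
    rw [not_forall] at hc
    have hex : ∃ m, v i m ≠ 0 ∧ ∀ j, m < j → v i j = 0 := by
      obtain ⟨j, hj⟩ := hc
      have hb : ∀ j, v i j ≠ 0 → j ≤ N := fun j h => by
        by_contra h'
        exact h (hv i j (by omega))
      exact ⟨Nat.findGreatest (fun j => v i j ≠ 0) N, Nat.findGreatest_spec (P := fun j => v i j ≠ 0)
        (hb j hj) hj, fun k hk => by
          by_contra h
          exact absurd (Nat.le_findGreatest (P := fun j => v i j ≠ 0) (hb k h) h) (by omega)⟩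
    obtain ⟨m, hm, hm'⟩ := hex
    have hmN : m < N := by
      by_contra h
      exact hm (hv i m (by omega))
    set G := ∏ i' ∈ univ.erase i, (X - Polynomial.C (x i')) ^ (N + 1) with hG
    have := hRel (G * (X - Polynomial.C (x i)) ^ (m + 1))
    have e : ∀ r, Λ (X ^ r * (G * (X - Polynomial.C (x i)) ^ (m + 1))) =
        ψ (G.eval (x i)) * (v i m * ψ (x i) ^ r) := fun r => by
      simp only [Λ, AddMonoidHom.coe_mk, ZeroHom.coe_mk]
      rw [sum_eq_single i, ← mul_assoc, taylor_coeff_top _ _ _ _ (Nat.zero_le _),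
        if_neg (by omega), map_zero, zero_mul, zero_add, sum_eq_single m,
        taylor_coeff_top _ _ _ _ le_rfl, if_pos rfl, ← map_pow, hvc, ← mul_assoc, ← map_mul]
      · simp [mul_comm]
      · intro j _ hj
        rcases lt_or_gt_of_ne hj with h | h
        · rw [taylor_coeff_top _ _ _ _ (by omega), if_neg (by omega), map_zero, zero_mul]
        · rw [hm' j h, mul_zero]
      · intro h; exact absurd (mem_range.2 hmN) h
      · intro i' _ hi
        rw [mul_comm G, ← mul_assoc, hoth i i' _ _ _ hi (by omega), map_zero, zero_mul, zero_add]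
        exact sum_eq_zero fun j hj => by
          rw [hoth i i' _ _ _ hi (by have := mem_range.1 hj; omega), map_zero, zero_mul]
      · intro h; exact absurd (mem_univ _) h
    simp only [e, mul_assoc, ← mul_sum] at this
    exact mul_ne_zero (hprod i _) (mul_ne_zero hm (n2 _)) this
  let Λ' : C[X] →+ R :=
    { toFun := fun g => ∑ i, (D i * ψ ((taylor (x i) g).coeff 0) - ψ ((taylor (x i) g).coeff 1))
      map_zero' := by simp
      map_add' := fun a b => by
        simp only [map_add, coeff_add, mul_add, sum_add_distrib, sum_sub_distrib]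
        abel }
  have hDk : ∀ i k, D i * ψ (x i ^ k) - ψ ((taylor (x i) (X ^ k)).coeff 1) = ψ (x i ^ k) * D i := by
    intro i k
    rw [taylor_coeff_one, derivative_X_pow, eval_mul, eval_C, eval_pow, eval_X, map_mul, map_pow,
      map_pow, map_natCast]
    have h1 := hD i i
    rw [if_pos rfl, sub_eq_iff_eq_add] at h1
    induction k with
    | zero => simp
    | succ k ih =>
      rw [sub_eq_iff_eq_add] at ih
      rw [pow_succ, ← mul_assoc, ih, add_mul, mul_assoc, h1, Nat.add_sub_cancel]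
      rcases k with _ | k
      · simp
      · simp only [Nat.add_sub_cancel, pow_succ, Nat.cast_add, Nat.cast_one]
        noncomm_ring
  have hΛ' : ∀ c k, Λ' (Polynomial.C c * X ^ k) = P k * ψ c := fun c k => by
    simp only [Λ', hP, AddMonoidHom.coe_mk, ZeroHom.coe_mk, taylor_mul, taylor_C, coeff_C_mul,
      hv0, mul_zero, sum_const_zero, add_zero, sum_mul, ← hDk, mul_comm c, map_mul, sub_mul,
      mul_assoc, taylor_coeff_zero, eval_pow, eval_X, eval_mul, eval_C]
  have hRel' : ∀ g, Λ' (X ^ 2 * g) - e₁ * Λ' (X ^ 1 * g) + e₂ * Λ' (X ^ 0 * g) = 0 := fun g =>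
    lin_ext
      { toFun := fun g => Λ' (X ^ 2 * g) - e₁ * Λ' (X ^ 1 * g) + e₂ * Λ' (X ^ 0 * g)
        map_zero' := by simp
        map_add' := fun a b => by simp only [mul_add, map_add]; abel }
      (fun c k => by
        change Λ' (X ^ 2 * (Polynomial.C c * X ^ k)) - e₁ * Λ' (X ^ 1 * (Polynomial.C c * X ^ k)) +
          e₂ * Λ' (X ^ 0 * (Polynomial.C c * X ^ k)) = 0
        simp only [mul_left_comm (X ^ _), ← pow_add, hΛ', ← mul_assoc, ← sub_mul, ← add_mul,
          add_comm _ k, add_zero, hL, zero_mul]) g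
  rcases Nat.eq_zero_or_pos ℓ with rfl | hl
  · exact h0 (by simp [hP])
  let i : Fin ℓ := ⟨0, hl⟩
  set G := ∏ i' ∈ univ.erase i, (X - Polynomial.C (x i')) ^ 2 with hG
  have := hRel' (G * (X - Polynomial.C (x i)) ^ 1)
  have e : ∀ r, Λ' (X ^ r * (G * (X - Polynomial.C (x i)) ^ 1)) =
      -(ψ (x i) ^ r * ψ (G.eval (x i))) := fun r => by
    simp only [Λ', AddMonoidHom.coe_mk, ZeroHom.coe_mk]
    rw [sum_eq_single i, ← mul_assoc, taylor_coeff_top _ _ _ _ (Nat.zero_le _),
      if_neg (by omega), map_zero, mul_zero, zero_sub, taylor_coeff_top _ _ _ _ le_rfl, if_pos rfl]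
    · simp
    · intro i' _ hi
      rw [mul_comm G, ← mul_assoc, hoth i i' _ _ _ hi (by omega), hoth i i' _ _ _ hi (by omega)]
      simp
    · intro h; exact absurd (mem_univ _) h
  rw [e, e, e] at this
  refine mul_ne_zero (n1 (ψ (x i))) (hprod i 2) ?_
  rw [← hG, ← neg_eq_zero, ← this]
  noncomm_ring

end Core

end Pool.Agent.H48.Witt
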