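import Mathlib
import Pool.Agent.H48.WittA

/-! Differential operators on the quotient of the plane by the symmetric group. -/

namespace Pool.Agent.H48.Witt

open Finset

variable {B : Type*} [CommRing B] [Algebra ℂ B]

lemma ln_adjoin (e : B) (S : Set (Module.End ℂ B))
    (hS : ∀ T ∈ S, (∃ b, T = LinearMap.mulLeft ℂ b) ∨ ∃ d : Derivation ℂ B B, T = d)
    (T : Module.End ℂ B) (hT : T ∈ Algebra.adjoin ℂ S) :
    ∃ n, (ad (LinearMap.mulLeft ℂ e))^[n] T = 0 := by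
  have hm : ∀ b, ad (LinearMap.mulLeft ℂ e) (LinearMap.mulLeft ℂ b) = 0 := fun b => by
    ext x; simp [ad_apply, mul_left_comm]
  induction hT using Algebra.adjoin_induction with
  | mem T hT =>
    rcases hS T hT with ⟨b, rfl⟩ | ⟨d, rfl⟩
    · exact ⟨1, hm b⟩
    · refine ⟨2, ?_⟩
      have : ad (LinearMap.mulLeft ℂ e) (d : Module.End ℂ B) = LinearMap.mulLeft ℂ (-d e) := by
        ext x; simp [ad_apply, mul_comm]
      change ad _ (ad _ _) = 0
      rw [this, hm]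
  | algebraMap c => exact ⟨1, by simp [ad_apply, Algebra.commutes]⟩
  | add a b _ _ ha hb =>
    obtain ⟨m, hm⟩ := ha
    obtain ⟨n, hn⟩ := hb
    exact ⟨m + n, by
      rw [iterate_map_add, it_of_le hm (Nat.le_add_right _ _), it_of_le hn (Nat.le_add_left _ _),
        add_zero]⟩
  | mul a b _ _ ha hb =>
    obtain ⟨m, hm⟩ := ha
    obtain ⟨n, hn⟩ := hb
    exact ⟨_, deg_mul (it_of_le hm m.le_succ) (it_of_le hn n.le_succ)⟩

lemma coe_it {R : Subalgebra ℂ (Module.End ℂ B)} (x a : R) (n : ℕ) :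
    ((ad x)^[n] a).1 = (ad x.1)^[n] a.1 := by
  induction n with
  | zero => rfl
  | succ n ih => rw [Function.iterate_succ_apply', Function.iterate_succ_apply', ← ih]; rfl

lemma monic_aux {R : Type*} [Ring R] (t : R) (q : ℕ → R)
    (h : ∑ r ∈ range 4, t ^ r * q r + t ^ 4 * 1 = 0) :
    t ^ 4 = ∑ r ∈ range 4, -1 * t ^ r * q r := by
  simp only [neg_mul, one_mul, sum_neg_distrib]
  rw [eq_neg_iff_add_eq_zero, add_comm, ← h, mul_one]

theorem nofactor [IsDomain B] (S : Set (Module.End ℂ B))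
    (hS : ∀ T ∈ S, (∃ b, T = LinearMap.mulLeft ℂ b) ∨ ∃ d : Derivation ℂ B B, T = d)
    (μ : B →+* Algebra.adjoin ℂ S) (hμ : ∀ b x, (μ b).1 x = b * x) (e₁ e₂ : B)
    (hc : ∀ T : Module.End ℂ B, (∀ x, T (e₁ * x) = e₁ * T x) → (∀ x, T (e₂ * x) = e₂ * T x) →
      ∀ x, T x = T 1 * x)
    (hq : ∀ b : B, b ^ 2 - e₁ * b + e₂ ≠ 0) (p : ℕ → B) (hp0 : p 0 ≠ 0)
    (hp : ∀ k, p (k + 2) = e₁ * p (k + 1) - e₂ * p k) (d₁ d₂ : Derivation ℂ B B)
    (h11 : d₁ e₁ = 1) (h12 : d₁ e₂ = 0) (h21 : d₂ e₁ = 0) (h22 : d₂ e₂ = 1)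
    (P : ℕ → Algebra.adjoin ℂ S)
    (hP : ∀ k x, (P k).1 x = p k * d₁ x + (e₁ * p k - p (k + 1)) * d₂ x)
    {C : Type*} [CommRing C] {ℓ : ℕ} (ψ : C →+* Algebra.adjoin ℂ S) (x : Fin ℓ → C)
    (D : Fin ℓ → Algebra.adjoin ℂ S) (N : ℕ) (v : Fin ℓ → ℕ → Algebra.adjoin ℂ S)
    (hv : ∀ i j, N ≤ j → v i j = 0)
    (hD : ∀ i j, D i * ψ (x j) - ψ (x j) * D i = if i = j then 1 else 0)
    (hvc : ∀ i j c, v i j * ψ c = ψ c * v i j)
    (hPk : ∀ k, P k = ∑ i, (ψ (x i ^ k) * D i +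
      ∑ j ∈ range N, ψ ((Polynomial.taylor (x i) (Polynomial.X ^ k)).coeff (j + 1)) * v i j)) :
    False := by
  let _ : Algebra ℚ (Algebra.adjoin ℂ S) :=
    ((algebraMap ℂ (Algebra.adjoin ℂ S)).comp (algebraMap ℚ ℂ)).toAlgebra'
      fun c a => Algebra.commutes (algebraMap ℚ ℂ c) a
  have hμ' : ∀ b, (μ b).1 = LinearMap.mulLeft ℂ b := fun b => LinearMap.ext (hμ b)
  have hinj : ∀ b, μ b = 0 → b = 0 := fun b h => by simpa [h] using (hμ b 1).symm
  have hln : ∀ e (a : Algebra.adjoin ℂ S), ∃ n, (ad (μ e))^[n] a = 0 := fun e a => by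
    obtain ⟨n, hn⟩ := ln_adjoin e S hS a.1 a.2
    exact ⟨n, Subtype.ext (by rw [coe_it, hμ', hn]; rfl)⟩
  have hker : ∀ a, ad (μ e₁) a = 0 → ad (μ e₂) a = 0 → a = μ (a.1 1) := fun a h1 h2 => by
    apply Subtype.ext
    ext y
    rw [hμ]
    refine hc a.1 (fun y => ?_) (fun y => ?_) y
    · have := congrArg (fun T : Algebra.adjoin ℂ S => T.1 y) (sub_eq_zero.1 h1)
      simpa [hμ] using this.symm
    · have := congrArg (fun T : Algebra.adjoin ℂ S => T.1 y) (sub_eq_zero.1 h2)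
      simpa [hμ] using this.symm
  have hmm : ∀ a b, ad (μ a) (μ b) = 0 := fun a b => by
    rw [ad_apply, ← map_mul, ← map_mul, mul_comm, sub_self]
  have : NoZeroDivisors (Algebra.adjoin ℂ S) :=
    noZeroDiv (μ e₁) (μ e₂) (sub_eq_zero.1 (hmm _ _)) (hln _) (hln _) fun a b h1 h2 h3 h4 ha hb => by
      rw [hker a h1 h2, hker b h3 h4, ← map_mul]
      intro e
      rcases mul_eq_zero.1 (hinj _ e) with h | h
      · exact ha (by rw [hker a h1 h2, h, map_zero])
      · exact hb (by rw [hker b h3 h4, h, map_zero])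
  have : Nontrivial (Algebra.adjoin ℂ S) := 
    ⟨1, 0, fun h => one_ne_zero (hinj 1 (by rw [map_one, h]))⟩
  let Q : ℕ → B := fun r =>
    if r = 0 then e₂ ^ 2 else if r = 1 then -(2 * e₁ * e₂) else if r = 2 then e₁ ^ 2 + 2 * e₂
    else if r = 3 then -(2 * e₁) else 1
  have hmon : ∀ (t : Algebra.adjoin ℂ S) (n : ℕ) (a b : ℕ → B),
      t ^ n = ∑ r ∈ range n, μ (a r) * t ^ r * μ (b r) → ∃ c, t = μ c := fun t n a b h =>
    ⟨_, hker t (ad_of_monic _ t (hln _ _) n _ _ (fun _ => hmm _ _) (fun _ => hmm _ _) h)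
      (ad_of_monic _ t (hln _ _) n _ _ (fun _ => hmm _ _) (fun _ => hmm _ _) h)⟩
  refine core ψ x D N v hv hD hvc P hPk (μ e₁) (μ e₂) (fun r => μ (Q r)) (fun h => hp0 ?_)
    (fun k => ?_) (fun k => ?_) (fun t h => ?_) (fun t h => ?_)
  · simpa [h, h11, h21] using (hP 0 e₁).symm
  · apply Subtype.ext
    ext y
    simp only [AddMemClass.coe_add, AddSubgroupClass.coe_sub, MulMemClass.coe_mul,
      LinearMap.add_apply, LinearMap.sub_apply, Module.End.mul_apply, hμ, hP, hp,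
      ZeroMemClass.coe_zero, LinearMap.zero_apply]
    ring
  · apply Subtype.ext
    ext y
    have e4 := hp (k + 3)
    have e3 := hp (k + 2)
    have e2 := hp (k + 1)
    have h2 : ∀ d : Derivation ℂ B B, d 2 = 0 := fun d => by
      rw [← one_add_one_eq_two, map_add, d.map_one_eq_zero, add_zero]
    simp only [sum_range_succ, sum_range_zero, zero_add, AddMemClass.coe_add, MulMemClass.coe_mul,
      LinearMap.add_apply, Module.End.mul_apply, hμ, hP, ZeroMemClass.coe_zero,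
      LinearMap.zero_apply, Q, add_assoc k]
    simp only [add_assoc k] at e2 e3 e4
    norm_num at e2 e3 e4 ⊢
    simp only [e4, e3, e2, hp k, h11, h12, h21, h22, h2]
    ring
  · obtain ⟨c, rfl⟩ := hmon t 2 (fun r => if r = 0 then -e₂ else e₁) (fun _ => 1) (by
      rw [← sub_eq_zero, ← h]
      simp [sum_range_succ]
      abel)
    exact hq c (hinj _ (by simpa using h))
  · obtain ⟨c, rfl⟩ := hmon t 4 (fun _ => -1) Q (by
      rw [sum_range_succ, show Q 4 = 1 from rfl, map_one] at h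
      simpa only [map_neg, map_one] using monic_aux t _ h)
    refine hq c ((pow_eq_zero_iff two_ne_zero).1 (hinj _ ?_))
    rw [← h]
    simp only [← map_pow, ← map_mul, ← map_sum]
    congr 1
    simp [sum_range_succ, Q]
    ring

end Pool.Agent.H48.Witt
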