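import Mathlib
import Pool.Agent.H48.WittB

/-! Power sums under the diagonal vector fields. -/

namespace Pool.Agent.H48.Witt

variable {B : Type*} [CommRing B] [Algebra ℂ B]

lemma der_pow (e₁ e₂ : B) (p q : ℕ → B) (p0 : p 0 = 2) (p1 : p 1 = e₁)
    (hp : ∀ k, p (k + 2) = e₁ * p (k + 1) - e₂ * p k)
    (hq : ∀ k, q (k + 2) = e₁ * q (k + 1) - e₂ * q k) (δ : Derivation ℂ B B)
    (h1 : δ e₁ = q 0) (h2 : δ e₂ = e₁ * q 0 - q 1) (k : ℕ) :
    δ (p k) = k * q (k - 1) := by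
  have aux : ∀ k, q 0 * p (k + 1) - (e₁ * q 0 - q 1) * p k = 2 * q (k + 1) - e₁ * q k := by
    intro k
    induction k using Nat.twoStepInduction with
    | zero => rw [p0, zero_add, p1]; ring
    | one => rw [hp 0, hq 0, p0, zero_add, p1]; ring
    | more k h0 h1 =>
      rw [hp (k + 1), hq (k + 1), hp k, hq k] at *
      linear_combination e₁ * h1 - e₂ * h0
  induction k using Nat.twoStepInduction with
  | zero =>
    rw [p0, ← one_add_one_eq_two, map_add, δ.map_one_eq_zero]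
    simp
  | one => simp [p1, h1]
  | more k a0 a1 =>
    rw [hp, map_sub, Derivation.leibniz, Derivation.leibniz, a0, a1, h1, h2]
    simp only [smul_eq_mul, Nat.add_sub_cancel, show k + 2 - 1 = k + 1 from rfl]
    push_cast
    rcases k with _ | k
    · linear_combination aux 0
    · rw [Nat.add_sub_cancel]
      have := hq k
      push_cast
      linear_combination aux (k + 1) - (k + 1) * this

variable {A : Type*} [CommRing A] [Algebra ℂ A]

/-- The vector field on the quotient attached to `f`. -/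
noncomputable def Phi (t : A) (pA : A →ₗ[ℂ] B) (e₁ : B) (d₁ d₂ : Derivation ℂ B B) (f : A) :
    Derivation ℂ B B :=
  pA f • d₁ + (e₁ * pA f - pA (t * f)) • d₂

lemma Phi_apply (t : A) (pA : A →ₗ[ℂ] B) (e₁ : B) (d₁ d₂ : Derivation ℂ B B) (f : A) (x : B) :
    Phi t pA e₁ d₁ d₂ f x = pA f * d₁ x + (e₁ * pA f - pA (t * f)) * d₂ x := rfl

lemma Phi_lie (t : A) (D : Derivation ℂ A A) (hDt : D t = 1)
    (hD : ∀ (d : Derivation ℂ A A) f, d f = d t * D f) (pA : A →ₗ[ℂ] B) (e₁ e₂ : B)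
    (d₁ d₂ : Derivation ℂ B B) (h11 : d₁ e₁ = 1) (h12 : d₁ e₂ = 0) (h21 : d₂ e₁ = 0)
    (h22 : d₂ e₂ = 1) (hext : ∀ a b : Derivation ℂ B B, a e₁ = b e₁ → a e₂ = b e₂ → a = b)
    (key : ∀ f g, Phi t pA e₁ d₁ d₂ f (pA g) = pA (f * D g)) (a b : Derivation ℂ A A) :
    Phi t pA e₁ d₁ d₂ (⁅a, b⁆ t) = ⁅Phi t pA e₁ d₁ d₂ (a t), Phi t pA e₁ d₁ d₂ (b t)⁆ := by
  have a1 : ∀ f, Phi t pA e₁ d₁ d₂ f e₁ = pA f := fun f => by simp [Phi_apply, h11, h21]
  have a2 : ∀ f, Phi t pA e₁ d₁ d₂ f e₂ = e₁ * pA f - pA (t * f) := fun f => by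
    simp [Phi_apply, h12, h22]
  rw [Derivation.commutator_apply, hD a (b t), hD b (a t)]
  generalize a t = f
  generalize b t = g
  apply hext
  · rw [Derivation.commutator_apply, a1, a1, a1, key, key, map_sub]
  · have e : t * (f * D g - g * D f) = f * (t * D g + g) - g * (t * D f + f) := by ring
    rw [Derivation.commutator_apply, a2, a2, a2, e]
    simp only [map_sub, Derivation.leibniz, key, a1, smul_eq_mul, hDt, mul_one]
    ring

open Polynomial in
lemma taylor_aeval (x : B) (k j : ℕ) :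
    (taylor x (X ^ k)).coeff j = aeval x (hasseDeriv j (X ^ k : ℂ[X])) := by
  rw [taylor_coeff, ← monomial_one_right_eq_X_pow, ← monomial_one_right_eq_X_pow,
    hasseDeriv_monomial, hasseDeriv_monomial]
  simp

open Polynomial TensorProduct in
/-- Reduction of a factorisation to the data used in `nofactor`. -/
theorem data_of_factor {C R R' U : Type*} [CommRing C] [Algebra ℂ C] [Ring R] [Algebra ℂ R]
    [Ring U] [Algebra ℂ U] [Ring R'] {ℓ : ℕ} (μ : C →ₐ[ℂ] R) (x : Fin ℓ → C) (d : Fin ℓ → R)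
    (hd : ∀ i j, d i * μ (x j) - μ (x j) * d i = if i = j then 1 else 0) (n : Fin ℓ → ℕ)
    (v : Fin ℓ → ℕ → U) (F : R ⊗[ℂ] U →+* R') (P : ℕ → R')
    (hP : ∀ k, P k = F (∑ i, ((μ (x i ^ k) * d i) ⊗ₜ[ℂ] 1 + ∑ j ∈ Finset.range (n i),
      μ (aeval (x i) (hasseDeriv (j + 1) (X ^ k : ℂ[X]))) ⊗ₜ[ℂ] v i j))) :
    ∃ (ψ : C →+* R') (D : Fin ℓ → R') (N : ℕ) (w : Fin ℓ → ℕ → R'), (∀ i j, N ≤ j → w i j = 0) ∧
      (∀ i j, D i * ψ (x j) - ψ (x j) * D i = if i = j then 1 else 0) ∧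
      (∀ i j c, w i j * ψ c = ψ c * w i j) ∧
      ∀ k, P k = ∑ i, (ψ (x i ^ k) * D i +
        ∑ j ∈ Finset.range N, ψ ((taylor (x i) (X ^ k)).coeff (j + 1)) * w i j) := by
  let L : R →+* R' := F.comp (Algebra.TensorProduct.includeLeftRingHom)
  have hL : ∀ a, L a = F (a ⊗ₜ[ℂ] 1) := fun _ => rfl
  have hle : ∀ i, n i ≤ Finset.univ.sup n := fun i => Finset.le_sup (Finset.mem_univ i)
  refine ⟨L.comp μ.toRingHom, fun i => L (d i), Finset.univ.sup n,
    fun i j => if j < n i then F (1 ⊗ₜ[ℂ] v i j) else 0,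
    fun i j h => if_neg (by have := hle i; omega), fun i j => ?_, fun i j c => ?_, fun k => ?_⟩
  · change L _ * L (μ _) - L (μ _) * L _ = _
    rw [← map_mul, ← map_mul, ← map_sub, hd]
    split_ifs <;> simp
  · change _ * L (μ c) = L (μ c) * _
    beta_reduce
    split_ifs
    · rw [hL, ← map_mul, ← map_mul]; simp
    · simp
  · rw [hP, map_sum]
    refine Finset.sum_congr rfl fun i _ => ?_
    rw [map_add, ← hL, map_mul, map_sum]
    congr 1
    rw [← Finset.sum_subset (Finset.range_subset_range.2 (hle i))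
      fun j _ hj => by beta_reduce; rw [if_neg (by simpa using hj), mul_zero]]
    refine Finset.sum_congr rfl fun j hj => ?_
    beta_reduce
    rw [if_pos (Finset.mem_range.1 hj), taylor_aeval]
    change _ = L (μ _) * _
    rw [hL, ← map_mul]
    simp

/-- Power sums. -/
def psum (e₁ e₂ : B) : ℕ → B
  | 0 => 2
  | 1 => e₁
  | k + 2 => e₁ * psum e₁ e₂ (k + 1) - e₂ * psum e₁ e₂ k

end Pool.Agent.H48.Witt
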