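import Mathlib

set_option autoImplicit false

namespace Pool.Agent.H48.WittLDefs

open AddMonoidAlgebra

/-- The Euler derivation `x^g ↦ χ(g) x^g` of a group algebra. -/
noncomputable def eul {G : Type} [AddCommGroup G] (χ : G →+ ℤ) :
    Derivation ℂ (AddMonoidAlgebra ℂ G) (AddMonoidAlgebra ℂ G) :=
  Derivation.mk' (Finsupp.linearCombination ℂ (fun g => single g (χ g : ℂ)) ∘ₗ
    (coeffLinearEquiv ℂ).toLinearMap) fun a b => by
    induction a using AddMonoidAlgebra.induction_linear with
    | zero => simp
    | add a a' h h' => simp only [add_mul, map_add, h, h', add_smul, smul_add]; abel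
    | single g c =>
      induction b using AddMonoidAlgebra.induction_linear with
      | zero => simp
      | add b b' h h' => simp only [mul_add, map_add, h, h', add_smul, smul_add]; abel
      | single g' c' =>
        have h : ∀ (g : G) (c : ℂ), (Finsupp.linearCombination ℂ (fun g => single g (χ g : ℂ)) ∘ₗ
            (coeffLinearEquiv ℂ).toLinearMap) (single g c) = single g (c * χ g) := fun g c => by
          simp
        rw [single_mul_single, h, h, h, smul_eq_mul, smul_eq_mul, single_mul_single,
          single_mul_single, add_comm g' g, ← single_add, map_add]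
        congr 1
        push_cast
        ring

/-- Laurent polynomials `ℂ[t_1^{±1}, …, t_k^{±1}]`. -/
abbrev L (k : ℕ) : Type := AddMonoidAlgebra ℂ (Fin k → ℤ)

/-- The monomial `t_i^m`. -/
noncomputable def tp {k : ℕ} (i : Fin k) (m : ℤ) : L k := single (Pi.single i m) 1

/-- The partial derivative `∂_i = t_i⁻¹ (t_i ∂_i)`. -/
noncomputable def pd {k : ℕ} (i : Fin k) : Derivation ℂ (L k) (L k) :=
  tp i (-1) • eul (Pi.evalAddMonoidHom (fun _ => ℤ) i)

/-- The derivative `∂_t` of `ℂ[t, t⁻¹]`. -/
noncomputable def dt : Derivation ℂ (LaurentPolynomial ℂ) (LaurentPolynomial ℂ) :=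
  (LaurentPolynomial.T (-1) : LaurentPolynomial ℂ) • eul (AddMonoidHom.id ℤ)

/-- The substitution `f ↦ f(t_i)`. -/
noncomputable def sub {k : ℕ} (i : Fin k) : LaurentPolynomial ℂ →ₐ[ℂ] L k :=
  mapDomainAlgHom ℂ ℂ (AddMonoidHom.single (fun _ => ℤ) i)

/-- The algebra `Ã_k`, generated by `t_i`, `t_i⁻¹` and `∂_i` acting on Laurent polynomials. -/
noncomputable def WeylLS (k : ℕ) : Subalgebra ℂ (Module.End ℂ (L k)) :=
  Algebra.adjoin ℂ (Set.range (fun i => LinearMap.mulLeft ℂ (tp i 1 : L k)) ∪
    Set.range (fun i => LinearMap.mulLeft ℂ (tp i (-1) : L k)) ∪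
    Set.range fun i => (pd i : Derivation ℂ (L k) (L k)).toLinearMap)

/-- `Ã_k` as a type. -/
def WeylL (k : ℕ) : Type := WeylLS k

noncomputable instance (k : ℕ) : Ring (WeylL k) := (inferInstance : Ring (WeylLS k))

noncomputable instance (k : ℕ) : Algebra ℂ (WeylL k) := (inferInstance : Algebra ℂ (WeylLS k))

/-- The generator `∂_i` of `Ã_k`. -/
noncomputable def del {k : ℕ} (i : Fin k) : WeylL k :=
  (⟨(pd i).toLinearMap, Algebra.subset_adjoin (Or.inr ⟨i, rfl⟩)⟩ : WeylLS k)

lemma lmul_mem {k : ℕ} (p : L k) : Algebra.lmul ℂ _ p ∈ WeylLS k := by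
  have h1 : ∀ (i : Fin k) (m : ℤ), Algebra.lmul ℂ _ (tp i m) ∈ WeylLS k := fun i m => by
    have e : ∀ a b : ℤ, (tp i (a + b) : L k) = tp i a * tp i b := fun a b => by
      simp [tp, single_mul_single, Pi.single_add]
    induction m using Int.induction_on with
    | zero =>
      rw [tp, Pi.single_zero, ← one_def, map_one]
      exact one_mem _
    | succ m ih =>
      rw [e, map_mul]
      exact mul_mem ih (Algebra.subset_adjoin (Or.inl (Or.inl ⟨i, rfl⟩)))
    | pred m ih =>
      rw [sub_eq_add_neg, e, map_mul]
      exact mul_mem ih (Algebra.subset_adjoin (Or.inl (Or.inr ⟨i, rfl⟩)))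
  induction p using AddMonoidAlgebra.induction_linear with
  | zero => rw [map_zero]; exact zero_mem _
  | add a b ha hb => rw [map_add]; exact add_mem ha hb
  | single g c =>
    have : (single g c : L k) = c • single g 1 := by simp
    rw [this, map_smul]
    refine Subalgebra.smul_mem _ ?_ c
    induction g using Pi.single_induction with
    | zero => rw [← one_def, map_one]; exact one_mem _
    | add g g' h h' =>
      have : (single (g + g') 1 : L k) = single g 1 * single g' 1 := by simp [single_mul_single]
      rw [this, map_mul]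
      exact mul_mem (h (by simp)) (h' (by simp))
    | single i m => exact h1 i m

/-- A Laurent polynomial as a multiplication operator in `Ã_k`. -/
noncomputable def mu (k : ℕ) : L k →ₐ[ℂ] WeylL k := 
  (Algebra.lmul ℂ _).codRestrict (WeylLS k) lmul_mem

end Pool.Agent.H48.WittLDefs
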