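import Mathlib
import Pool.Agent.H48.WittC
import Pool.Agent.H48.WittLDefs

/-! Laurent polynomial lemmas. -/

namespace Pool.Agent.H48.Witt

open AddMonoidAlgebra Pool.Agent.H48.WittLDefs

lemma eul_single {G : Type} [AddCommGroup G] (χ : G →+ ℤ) (g : G) (c : ℂ) :
    eul χ (single g c) = single g (c * χ g) := by
  simp [eul]

section gen
variable {G : Type} [AddCommGroup G]

lemma single_neg_mul (g : G) : (single (-g) 1 : AddMonoidAlgebra ℂ G) * single g 1 = 1 := by
  simp [single_mul_single, one_def]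

/-- Exponents on which two derivations agree. -/
def agree (a b : Derivation ℂ (AddMonoidAlgebra ℂ G) (AddMonoidAlgebra ℂ G)) : AddSubgroup G where
  carrier := {g | a (single g 1) = b (single g 1)}
  zero_mem' := by
    change a 1 = b 1
    rw [a.map_one_eq_zero, b.map_one_eq_zero]
  add_mem' {g g'} h h' := by
    have : (single (g + g') 1 : AddMonoidAlgebra ℂ G) = single g 1 * single g' 1 := by
      simp [single_mul_single]
    change a _ = b _
    rw [this, a.leibniz, b.leibniz, h, h']
  neg_mem' {g} h := by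
    change a _ = b _
    rw [a.leibniz_of_mul_eq_one (single_neg_mul g), b.leibniz_of_mul_eq_one (single_neg_mul g), h]

lemma ext_of_agree {a b : Derivation ℂ (AddMonoidAlgebra ℂ G) (AddMonoidAlgebra ℂ G)}
    (h : ∀ g, g ∈ agree a b) : a = b := by
  ext x : 1
  induction x using AddMonoidAlgebra.induction_linear with
  | zero => simp
  | add x y hx hy => rw [map_add, map_add, hx, hy]
  | single g c =>
    have : (single g c : AddMonoidAlgebra ℂ G) = c • single g 1 := by simp
    rw [this, a.map_smul, b.map_smul, h g]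

/-- Exponents whose monomials commute with an operator. -/
def commS (T : Module.End ℂ (AddMonoidAlgebra ℂ G)) : AddSubgroup G where
  carrier := {g | ∀ x, T (single g 1 * x) = single g 1 * T x}
  zero_mem' x := by rw [← one_def, one_mul, one_mul]
  add_mem' {g g'} h h' x := by
    have : (single (g + g') 1 : AddMonoidAlgebra ℂ G) = single g 1 * single g' 1 := by
      simp [single_mul_single]
    rw [this, mul_assoc, h, h', mul_assoc]
  neg_mem' {g} h x := by
    have := h (single (-g) 1 * x)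
    rw [← mul_assoc, mul_comm (single g 1), single_neg_mul, one_mul] at this
    rw [this, ← mul_assoc, single_neg_mul, one_mul]

lemma mul_of_commS (T : Module.End ℂ (AddMonoidAlgebra ℂ G)) (h : ∀ g, g ∈ commS T) (x) :
    T x = T 1 * x := by
  induction x using AddMonoidAlgebra.induction_linear with
  | zero => simp
  | add x y hx hy => rw [map_add, hx, hy, mul_add]
  | single g c =>
    have : (single g c : AddMonoidAlgebra ℂ G) = c • single g 1 := by simp
    rw [this, map_smul, mul_smul_comm, mul_comm, ← h g 1, mul_one]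

end gen

lemma top_two (S : AddSubgroup (Fin 2 → ℤ)) (h0 : Pi.single 0 1 ∈ S) (h1 : Pi.single 1 1 ∈ S)
    (g : Fin 2 → ℤ) : g ∈ S := by
  have : g = g 0 • Pi.single 0 1 + g 1 • Pi.single 1 1 := by
    ext i; fin_cases i <;> simp
  rw [this]
  exact S.add_mem (S.zsmul_mem h0 _) (S.zsmul_mem h1 _)

lemma pd_tp {k : ℕ} (i j : Fin k) : pd i (tp j 1) = if i = j then 1 else 0 := by
  change tp i (-1) * eul _ (single _ _) = _
  rw [eul_single, tp, single_mul_single]
  split_ifs with h
  · subst h; simp [← Pi.single_add, one_def]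
  · simp [Pi.single_eq_of_ne h]

open LaurentPolynomial

lemma dt_T (n : ℤ) : dt (T n) = (n : ℂ) • T (n - 1) := by
  change T (-1) * eul _ (single _ _) = _
  rw [eul_single, T, single_mul_single, T]
  rw [AddMonoidAlgebra.smul_single, sub_eq_neg_add]
  simp

lemma der_laurent (d : Derivation ℂ (LaurentPolynomial ℂ) (LaurentPolynomial ℂ))
    (f : LaurentPolynomial ℂ) : d f = d (T 1) * dt f := by
  have : d = d (T 1) • dt := ext_of_agree fun g => by
    have h1 : (1 : ℤ) ∈ agree d (d (T 1) • dt) := by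
      change d (T 1) = d (T 1) * dt (T 1)
      simp [dt_T]
    simpa using AddSubgroup.zsmul_mem _ h1 g
  conv_lhs => rw [this]
  rfl

lemma dt_toLaurent (p : Polynomial ℂ) :
    dt (Polynomial.toLaurent p) = Polynomial.toLaurent (Polynomial.derivative p) := by
  induction p using Polynomial.induction_on' with
  | add a b ha hb => simp only [map_add, ha, hb]
  | monomial n a =>
    rw [Polynomial.derivative_monomial, Polynomial.toLaurent_C_mul_T,
      Polynomial.toLaurent_C_mul_T, ← LaurentPolynomial.smul_eq_C_mul, Derivation.map_smul, dt_T,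
      ← LaurentPolynomial.smul_eq_C_mul, smul_smul]
    rcases n with _ | n
    · simp
    · simp

lemma sub_toLaurent {k : ℕ} (i : Fin k) (p : Polynomial ℂ) :
    sub i (Polynomial.toLaurent p) = Polynomial.aeval (tp i 1) p := by
  have : (sub i).comp Polynomial.toLaurentAlg = Polynomial.aeval (tp i 1) := by
    apply Polynomial.algHom_ext
    rw [Polynomial.aeval_X]
    change sub i (Polynomial.toLaurent Polynomial.X) = _
    rw [Polynomial.toLaurent_X]
    exact AddMonoidAlgebra.mapDomain_single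
  exact congrArg (fun F : Polynomial ℂ →ₐ[ℂ] L k => F p) this

lemma sub_hasse {k : ℕ} (i : Fin k) (p : Polynomial ℂ) (m : ℕ) :
    sub i ((m.factorial : ℂ)⁻¹ • dt^[m] (Polynomial.toLaurent p)) =
      Polynomial.aeval (tp i 1) (Polynomial.hasseDeriv m p) := by
  have h : dt^[m] (Polynomial.toLaurent p) =
      Polynomial.toLaurent (Polynomial.derivative^[m] p) := by
    induction m with
    | zero => rfl
    | succ m ih => rw [Function.iterate_succ_apply', Function.iterate_succ_apply', ih, dt_toLaurent]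
  rw [h, map_smul, sub_toLaurent, ← Polynomial.factorial_smul_hasseDeriv]
  simp only [LinearMap.smul_apply, ← Nat.cast_smul_eq_nsmul ℂ, map_smul, smul_smul]
  rw [inv_mul_cancel₀ (by exact_mod_cast m.factorial_ne_zero), one_smul]

lemma no_root (b : L 2) : b ^ 2 - tp 0 1 * b + tp 1 1 ≠ 0 := by
  intro hb
  let χ : Multiplicative (Fin 2 → ℤ) →* LaurentPolynomial ℂ :=
    { toFun := fun g => C ((2 : ℂ) ^ g.toAdd 0) * T (g.toAdd 1)
      map_one' := by simp
      map_mul' := fun a b => by
        simp only [toAdd_mul, Pi.add_apply, zpow_add₀ (two_ne_zero (α := ℂ)), map_mul, T_add]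
        ring }
  have h := congrArg (AddMonoidAlgebra.lift ℂ _ _ χ) hb
  simp only [map_add, map_sub, map_pow, map_mul, map_zero, tp, AddMonoidAlgebra.lift_single] at h
  generalize AddMonoidAlgebra.lift ℂ _ _ χ b = c at h
  simp [χ] at h
  obtain ⟨n, f, hf⟩ := exists_T_pow (c - 1)
  have e : f ^ 2 = (1 - Polynomial.X) * Polynomial.X ^ (2 * n) := by
    apply Polynomial.toLaurent_injective
    rw [map_pow, hf, map_mul, map_sub, map_one, Polynomial.toLaurent_X, mul_comm 2, pow_mul,
      map_pow, Polynomial.toLaurent_X_pow]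
    have h2 : (C (2 : ℂ) : LaurentPolynomial ℂ) = 2 := map_ofNat _ _
    rw [h2] at h
    linear_combination (T n) ^ 2 * h
  have := congrArg Polynomial.natDegree e
  have h1 : (1 - Polynomial.X : Polynomial ℂ).natDegree = 1 := by
    rw [← neg_sub, Polynomial.natDegree_neg]
    exact Polynomial.natDegree_X_sub_C 1
  rw [Polynomial.natDegree_pow, Polynomial.natDegree_mul_X_pow, h1] at this
  · omega
  · intro e; simp [e] at h1

section zsum
variable {B : Type*} [CommRing B] [Algebra ℂ B]

/-- Power sums with integer exponent; `u` is the inverse of `e₂`. -/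
def zsum (e₁ e₂ u : B) (n : ℤ) : B :=
  if 0 ≤ n then psum e₁ e₂ n.toNat else psum e₁ e₂ (-n).toNat * u ^ (-n).toNat

omit [Algebra ℂ B] in
lemma zsum_nat (e₁ e₂ u : B) (k : ℕ) : zsum e₁ e₂ u k = psum e₁ e₂ k := by simp [zsum]

omit [Algebra ℂ B] in
lemma zsum_neg (e₁ e₂ u : B) (k : ℕ) : zsum e₁ e₂ u (-k) = psum e₁ e₂ k * u ^ k := by
  rcases k with _ | k
  · simp [zsum]
  · rw [zsum, if_neg (by omega)]; simp

omit [Algebra ℂ B] in
lemma zsum_rec (e₁ e₂ u : B) (hu : e₂ * u = 1) (n : ℤ) :
    zsum e₁ e₂ u (n + 2) = e₁ * zsum e₁ e₂ u (n + 1) - e₂ * zsum e₁ e₂ u n := by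
  rcases le_or_gt 0 n with h | h
  · obtain ⟨k, rfl⟩ := Int.eq_ofNat_of_zero_le h
    exact_mod_cast (by rw [zsum_nat, zsum_nat, zsum_nat]; rfl :
      zsum e₁ e₂ u (k + 2 : ℕ) = e₁ * zsum e₁ e₂ u (k + 1 : ℕ) - e₂ * zsum e₁ e₂ u k)
  rcases eq_or_lt_of_le (show n ≤ -1 by omega) with rfl | h'
  · have a0 := zsum_nat e₁ e₂ u 0
    have a1 := zsum_nat e₁ e₂ u 1
    have a2 := zsum_neg e₁ e₂ u 1
    norm_num [psum] at a0 a1 a2 ⊢
    rw [a0, a1, a2]
    linear_combination e₁ * hu
  · obtain ⟨k, rfl⟩ : ∃ k : ℕ, n = -((k + 2 : ℕ) : ℤ) := ⟨(-n - 2).toNat, by omega⟩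
    have e1 : -((k + 2 : ℕ) : ℤ) + 2 = -(k : ℤ) := by omega
    have e2 : -((k + 2 : ℕ) : ℤ) + 1 = -((k + 1 : ℕ) : ℤ) := by omega
    rw [e1, e2, zsum_neg, zsum_neg, zsum_neg, psum]
    linear_combination (e₁ * psum e₁ e₂ (k + 1) * u ^ (k + 1) -
      psum e₁ e₂ k * u ^ k * (e₂ * u + 1)) * hu

lemma der_zsum (e₁ e₂ u : B) (hu : e₂ * u = 1) (m : ℤ) (δ : Derivation ℂ B B)
    (h1 : δ e₁ = zsum e₁ e₂ u m) (h2 : δ e₂ = e₁ * zsum e₁ e₂ u m - zsum e₁ e₂ u (m + 1))
    (n : ℤ) : δ (zsum e₁ e₂ u n) = n * zsum e₁ e₂ u (m + (n - 1)) := by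
  have hr := zsum_rec e₁ e₂ u hu
  set p := zsum e₁ e₂ u with hp
  have p0 : p 0 = 2 := zsum_nat e₁ e₂ u 0
  have p1 : p 1 = e₁ := zsum_nat e₁ e₂ u 1
  rcases le_or_gt 0 n with h | h
  · obtain ⟨k, rfl⟩ := Int.eq_ofNat_of_zero_le h
    have := der_pow e₁ e₂ (fun k => p k) (fun k => p (m + k)) p0 p1
      (fun k => by exact_mod_cast hr k) (fun k => by
        have := hr (m + k)
        push_cast
        rwa [add_assoc, add_assoc] at this) δ (by simpa using h1) (by simpa using h2) k
    rcases k with _ | k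
    · simpa using this
    · simpa using this
  · obtain ⟨k, rfl⟩ : ∃ k : ℕ, n = -((k + 1 : ℕ) : ℤ) := ⟨(-n - 1).toNat, by omega⟩
    have hr' : ∀ n, p n = e₁ * u * p (n + 1) - u * p (n + 2) := fun n => by
      rw [hr n]; linear_combination (-p n) * hu
    have hδu : δ u = -u * p (m - 1) := by
      rw [δ.leibniz_of_mul_eq_one ((mul_comm _ _).trans hu), h2, smul_eq_mul]
      have := hr (m - 1)
      rw [show m - 1 + 2 = m + 1 by ring, sub_add_cancel] at this
      rw [this]
      linear_combination (-u * p (m - 1)) * hu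
    have := der_pow (e₁ * u) u (fun k => p (-k)) (fun k => -p (m - k - 2)) (by simpa using p0)
      (by have := zsum_neg e₁ e₂ u 1; simpa [psum] using this)
      (fun k => by
        rw [hr' (-((k + 2 : ℕ) : ℤ))]
        congr 3 <;> omega)
      (fun k => by
        rw [hr' (m - ((k + 2 : ℕ) : ℤ) - 2), show m - ((k + 2 : ℕ) : ℤ) - 2 + 1 =
          m - ((k + 1 : ℕ) : ℤ) - 2 by omega, show m - ((k + 2 : ℕ) : ℤ) - 2 + 2 = m - k - 2 by omega]
        ring) δ
      (by
        rw [δ.leibniz, hδu, h1, hr' (m - (0 : ℕ) - 2), show m - (0 : ℕ) - 2 + 1 = m - 1 by omega,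
          show m - (0 : ℕ) - 2 + 2 = m by omega]
        simp only [smul_eq_mul]
        ring)
      (by
        rw [hδu, hr' (m - (1 : ℕ) - 2), show m - (1 : ℕ) - 2 + 1 = m - (0 : ℕ) - 2 by omega,
          show m - (1 : ℕ) - 2 + 2 = m - 1 by omega]
        ring) (k + 1)
    rw [this, Nat.add_sub_cancel, show m + (-((k + 1 : ℕ) : ℤ) - 1) = m - k - 2 by omega]
    push_cast
    ring

end zsum

end Pool.Agent.H48.Witt
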