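import Mathlib

set_option autoImplicit false

namespace Pool.Agent.H48.WittDefs

open Polynomial

/-- `W_{-1} = ℂ[t]∂`, the Lie algebra of derivations of `ℂ[t]`; `f∂` is `mkDerivation ℂ f`. -/
abbrev Wm : Type := Derivation ℂ ℂ[X] ℂ[X]

lemma der_eq (d : Wm) (f : ℂ[X]) : d f = derivative f * d X := by
  simpa using d.comp_aeval_eq X f

lemma dvd_lie (n : ℕ) (a b : Wm) (ha : X ∣ a X) (hb : X ^ (n + 1) ∣ b X) :
    X ^ (n + 1) ∣ ⁅a, b⁆ X := by
  rw [Derivation.commutator_apply, der_eq a (b X), der_eq b (a X)]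
  refine dvd_sub ?_ (Dvd.dvd.mul_left hb _)
  rw [pow_succ X n]
  exact mul_dvd_mul (pow_sub_one_dvd_derivative_of_pow_dvd (n := n + 1) hb) ha

/-- `W_{≥0}`: the `f∂` with `t ∣ f`. -/
def W0s : LieSubalgebra ℂ Wm where
  carrier := {d | X ∣ d X}
  add_mem' ha hb := dvd_add ha hb
  zero_mem' := dvd_zero _
  smul_mem' c a ha := by
    change X ∣ c • a X
    rw [smul_eq_C_mul]
    exact Dvd.dvd.mul_left ha _
  lie_mem' {a b} ha hb := by simpa using dvd_lie 0 a b ha (by simpa using hb)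

/-- `W_{≥0}` as a type. -/
def W0 : Type := W0s

noncomputable instance : LieRing W0 := (inferInstance : LieRing W0s)

noncomputable instance : LieAlgebra ℂ W0 := (inferInstance : LieAlgebra ℂ W0s)

/-- The coefficient `f` of `f∂`. -/
noncomputable def coef (d : W0) : ℂ[X] := (Subtype.val d : Wm) X

/-- `W_{≥n}` as an ideal of `W_{≥0}`: the `f∂` with `t^(n+1) ∣ f`. -/
def Wge (n : ℕ) : LieIdeal ℂ W0 where
  carrier := {d | X ^ (n + 1) ∣ coef d}
  add_mem' ha hb := dvd_add ha hb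
  zero_mem' := dvd_zero _
  smul_mem' c a ha := by
    change X ^ (n + 1) ∣ c • coef a
    rw [smul_eq_C_mul]
    exact Dvd.dvd.mul_left ha _
  lie_mem {a b} hb := dvd_lie n a.1 b.1 a.2 hb

/-- `𝔤_n = W_{≥0}/W_{≥n}`. -/
def g (n : ℕ) : Type := W0 ⧸ Wge n

noncomputable instance (n : ℕ) : LieRing (g n) := (inferInstance : LieRing (W0 ⧸ Wge n))

noncomputable instance (n : ℕ) : LieAlgebra ℂ (g n) := (inferInstance : LieAlgebra ℂ (W0 ⧸ Wge n))

/-- `e_j = t^(j+1)∂` as an element of `W_{≥0}`. -/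
noncomputable def e (j : ℕ) : W0 :=
  (⟨mkDerivation ℂ (X ^ (j + 1)), by
    change X ∣ mkDerivation ℂ (X ^ (j + 1) : ℂ[X]) X
    rw [mkDerivation_X]
    exact dvd_pow_self _ j.succ_ne_zero⟩ : W0s)

/-- `v_j = e_j + W_{≥n}` in `𝔤_n`. -/
noncomputable def vq (n j : ℕ) : g n := LieSubmodule.Quotient.mk (N := Wge n) (e j)

/-- `𝔤_𝐧 = 𝔤_{n₁} ⊕ ⋯ ⊕ 𝔤_{n_ℓ}`. -/
def G {ℓ : ℕ} (n : Fin ℓ → ℕ) : Type := DirectSum (Fin ℓ) fun i => g (n i)

noncomputable instance {ℓ : ℕ} (n : Fin ℓ → ℕ) : LieRing (G n) :=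
  (inferInstance : LieRing (DirectSum (Fin ℓ) fun i => g (n i)))

noncomputable instance {ℓ : ℕ} (n : Fin ℓ → ℕ) : LieAlgebra ℂ (G n) :=
  (inferInstance : LieAlgebra ℂ (DirectSum (Fin ℓ) fun i => g (n i)))

/-- The universal enveloping algebra. -/
def U (L : Type) [LieRing L] [LieAlgebra ℂ L] : Type := UniversalEnvelopingAlgebra ℂ L

noncomputable instance (L : Type) [LieRing L] [LieAlgebra ℂ L] : Ring (U L) :=
  (inferInstance : Ring (UniversalEnvelopingAlgebra ℂ L))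

noncomputable instance (L : Type) [LieRing L] [LieAlgebra ℂ L] : Algebra ℂ (U L) :=
  (inferInstance : Algebra ℂ (UniversalEnvelopingAlgebra ℂ L))

/-- The canonical map from a Lie algebra to its universal enveloping algebra. -/
noncomputable def iota {L : Type} [LieRing L] [LieAlgebra ℂ L] (x : L) : U L :=
  UniversalEnvelopingAlgebra.ι ℂ x

/-- `v_j` of the `i`-th summand, as an element of `U(𝔤_𝐧)`. -/
noncomputable def v {ℓ : ℕ} (n : Fin ℓ → ℕ) (i : Fin ℓ) (j : ℕ) : U (G n) :=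
  iota (L := G n) (DirectSum.of (fun i => g (n i)) i (vq (n i) j))

/-- The tensor product algebra `A ⊗ B` over `ℂ`. -/
def Tn (A B : Type) [Ring A] [Algebra ℂ A] [Ring B] [Algebra ℂ B] : Type := TensorProduct ℂ A B

noncomputable instance (A B : Type) [Ring A] [Algebra ℂ A] [Ring B] [Algebra ℂ B] :
    Ring (Tn A B) :=
  (inferInstance : Ring (TensorProduct ℂ A B))

/-- The pure tensor `a ⊗ b`. -/
noncomputable def tm {A B : Type} [Ring A] [Algebra ℂ A] [Ring B] [Algebra ℂ B] (a : A) (b : B) :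
    Tn A B :=
  TensorProduct.tmul ℂ a b

end Pool.Agent.H48.WittDefs
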