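import Mathlib

set_option autoImplicit false

namespace H48.Wr

open Polynomial

noncomputable def W {m : ℕ} (f : Fin m → ℂ[X]) : ℂ[X] :=
  (Matrix.of fun (i k : Fin m) => derivative^[k] (f i)).det

lemma prop_of_wr (a b : ℂ[X]) (hb : b ≠ 0) (h : derivative a * b - a * derivative b = 0) :
    ∃ c : ℂ, a = C c * b := by
  obtain ⟨a1, b1, h1, h2, h3⟩ := extract_gcd a b
  have hg : gcd a b ≠ 0 := fun h0 => hb (by rw [h2, h0, zero_mul])
  have hcop : IsCoprime a1 b1 := (gcd_isUnit_iff a1 b1).1 h3
  obtain ⟨g, hgd⟩ : ∃ g, g = gcd a b := ⟨_, rfl⟩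
  rw [← hgd] at h1 h2 hg
  have hw : wronskian a1 b1 = 0 := by
    have : g * g * wronskian a1 b1 = 0 := by
      rw [h1, h2] at h
      simp only [derivative_mul] at h
      unfold wronskian
      linear_combination (-1 : ℂ[X]) * h
    exact (mul_eq_zero.1 this).resolve_left (mul_ne_zero hg hg)
  obtain ⟨ha1, hb1⟩ := hcop.wronskian_eq_zero_iff.1 hw
  have e1 := eq_C_of_derivative_eq_zero ha1
  have e2 := eq_C_of_derivative_eq_zero hb1
  have hb0 : b1.coeff 0 ≠ 0 := fun h0 => hb (by rw [h2, e2, h0]; simp)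
  refine ⟨a1.coeff 0 / b1.coeff 0, ?_⟩
  rw [h1, h2, e1, e2]
  simp only [coeff_C_zero]
  rw [mul_left_comm, ← C_mul, div_mul_cancel₀ _ hb0]

lemma coef_zero {ι : Type} [DecidableEq ι] (f : ι → ℂ[X]) (s : Finset ι) :
    (∀ c : ι → ℂ, ∑ i ∈ s, C (c i) * f i = 0 → ∀ i ∈ s, c i = 0) →
    ∀ a : ι → ℂ[X], (∀ k < s.card, ∑ i ∈ s, a i * derivative^[k] (f i) = 0) → ∀ i ∈ s, a i = 0 := by
  induction s using Finset.induction_on with
  | empty => intro _ a _ i hi; simp at hi
  | insert j s hj ih =>
    intro hind a ha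
    have hind' : ∀ c : ι → ℂ, ∑ i ∈ s, C (c i) * f i = 0 → ∀ i ∈ s, c i = 0 := by
      intro c hc i hi
      have := hind (Function.update c j 0) (by
        rw [Finset.sum_insert hj]
        simp only [Function.update_self, C_0, zero_mul, zero_add]
        rw [← hc]
        refine Finset.sum_congr rfl fun x hx => ?_
        rw [Function.update_of_ne (by rintro rfl; exact hj hx)]) i (Finset.mem_insert_of_mem hi)
      rwa [Function.update_of_ne (by rintro rfl; exact hj hi)] at this
    rw [Finset.card_insert_of_notMem hj] at ha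
    by_cases haj : a j = 0
    · have := ih hind' a (fun k hk => by
        have := ha k (by omega)
        rwa [Finset.sum_insert hj, haj, zero_mul, zero_add] at this)
      intro i hi
      rcases Finset.mem_insert.1 hi with rfl | hi
      · exact haj
      · exact this i hi
    · exfalso
      have hb := ih hind' (fun i => derivative (a i) * a j - a i * derivative (a j)) (fun k hk => by
        have h0 := ha k (by omega)
        have h1 := ha (k + 1) (by omega)
        have h2 := congrArg derivative h0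
        rw [derivative_sum, derivative_zero] at h2
        simp only [derivative_mul, Finset.sum_add_distrib] at h2
        simp only [Function.iterate_succ_apply'] at h1
        rw [h1, add_zero] at h2
        rw [Finset.sum_insert hj] at h0 h2
        simp only [sub_mul, Finset.sum_sub_distrib]
        have e1 : ∑ x ∈ s, derivative (a x) * a j * derivative^[k] (f x)
            = a j * ∑ x ∈ s, derivative (a x) * derivative^[k] (f x) := by
          rw [Finset.mul_sum]; exact Finset.sum_congr rfl fun _ _ => by ring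
        have e2 : ∑ x ∈ s, a x * derivative (a j) * derivative^[k] (f x)
            = derivative (a j) * ∑ x ∈ s, a x * derivative^[k] (f x) := by
          rw [Finset.mul_sum]; exact Finset.sum_congr rfl fun _ _ => by ring
        rw [e1, e2]
        linear_combination a j * h2 - derivative (a j) * h0)
      have hc : ∀ i ∈ insert j s, ∃ c : ℂ, a i = C c * a j := by
        intro i hi
        rcases Finset.mem_insert.1 hi with rfl | hi
        · exact ⟨1, by simp⟩
        · exact prop_of_wr _ _ haj (hb i hi)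
      choose! c hc using hc
      have h0 := ha 0 (by omega)
      simp only [Function.iterate_zero_apply] at h0
      have h1 : a j * ∑ i ∈ insert j s, C (c i) * f i = 0 := by
        rw [← h0, Finset.mul_sum]
        refine Finset.sum_congr rfl fun i hi => ?_
        rw [hc i hi]; ring
      have h2 := hind c ((mul_eq_zero.1 h1).resolve_left haj) j (Finset.mem_insert_self _ _)
      have h3 := hc j (Finset.mem_insert_self _ _)
      rw [h2] at h3
      exact haj (by simpa using h3)

lemma W_ne {m : ℕ} (f : Fin m → ℂ[X])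
    (h : ∀ c : Fin m → ℂ, ∑ i, C (c i) * f i = 0 → ∀ i, c i = 0) : W f ≠ 0 := by
  intro h0
  obtain ⟨v, hv, hv0⟩ := Matrix.exists_vecMul_eq_zero_iff.2 h0
  apply hv
  funext i
  refine coef_zero f Finset.univ (fun c hc i _ => h c hc i) v (fun k hk => ?_) i (Finset.mem_univ _)
  have := congrFun hv0 ⟨k, by simpa using hk⟩
  simpa [Matrix.vecMul, dotProduct] using this

lemma sum_ge (s : Finset ℕ) : s.card * (s.card - 1) ≤ 2 * ∑ x ∈ s, x := by
  induction s using Finset.induction_on_max with
  | empty => simp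
  | insert a s ha ih =>
    have hn : a ∉ s := fun h => lt_irrefl _ (ha a h)
    rw [Finset.card_insert_of_notMem hn, Finset.sum_insert hn]
    have hc : s.card ≤ a := by
      have : s ⊆ Finset.range a := fun x hx => Finset.mem_range.2 (ha x hx)
      simpa using Finset.card_le_card this
    obtain ⟨c, hc'⟩ : ∃ c, c = s.card := ⟨_, rfl⟩
    rw [← hc'] at ih hc ⊢
    rcases c with _ | c
    · simp
    · simp only [Nat.add_sub_cancel] at ih ⊢
      nlinarith

lemma W_mono {m N : ℕ} (φ : Fin m → Fin (N + 1)) :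
    W (fun i => X ^ (φ i : ℕ)) = 0 ∨
      (W (fun i => X ^ (φ i : ℕ))).natDegree + m * (m - 1) ≤ m * N := by
  by_cases hφ : Function.Injective φ
  swap
  · left
    unfold W
    have : ¬ Function.Injective
        (fun (i : Fin m) (k : Fin m) => derivative^[k] ((X : ℂ[X]) ^ (φ i : ℕ))) := by
      intro h
      apply hφ
      intro i j hij
      apply h
      simp only [hij]
    exact (Matrix.detRowAlternating (n := Fin m) (R := ℂ[X])).map_eq_zero_of_not_injective _ this
  by_cases h0 : W (fun i => (X : ℂ[X]) ^ (φ i : ℕ)) = 0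
  · exact Or.inl h0
  right
  have h1 : m * (m - 1) ≤ 2 * ∑ i, (N - (φ i : ℕ)) := by
    have hinj : Function.Injective (fun i => N - (φ i : ℕ)) := by
      intro i j hij
      apply hφ
      have := (φ i).2
      have := (φ j).2
      ext
      simp only at hij
      omega
    have := sum_ge (Finset.univ.image fun i => N - (φ i : ℕ))
    rw [Finset.card_image_of_injective _ hinj, Finset.sum_image (fun x _ y _ h => hinj h)] at this
    simpa using this
  have h2 : ∑ i, (N - (φ i : ℕ)) + ∑ i, (φ i : ℕ) = m * N := by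
    rw [← Finset.sum_add_distrib]
    rw [Finset.sum_congr rfl (fun i _ => Nat.sub_add_cancel (Nat.lt_succ_iff.1 (φ i).2))]
    simp
  have h3 : (∑ i : Fin m, (i : ℕ)) * 2 = m * (m - 1) := by
    rw [Fin.sum_univ_eq_sum_range (fun i => i) m]; exact Finset.sum_range_id_mul_two m
  have key : ∀ σ : Equiv.Perm (Fin m),
      (∏ i : Fin m, derivative^[(i : ℕ)] ((X : ℂ[X]) ^ (φ (σ i) : ℕ))) = 0 ∨
      (∏ i : Fin m, derivative^[(i : ℕ)] ((X : ℂ[X]) ^ (φ (σ i) : ℕ))).natDegree + ∑ i : Fin m, (i : ℕ)
        ≤ ∑ i, (φ i : ℕ) := by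
    intro σ
    by_cases hall : ∀ i : Fin m, (i : ℕ) ≤ φ (σ i)
    · right
      have e : ∑ i, (φ i : ℕ) = ∑ i, (φ (σ i) : ℕ) := (Equiv.sum_comp σ (fun i => (φ i : ℕ))).symm
      rw [e]
      refine le_trans (Nat.add_le_add_right (natDegree_prod_le _ _) _) ?_
      rw [← Finset.sum_add_distrib]
      refine Finset.sum_le_sum fun i _ => ?_
      have := natDegree_iterate_derivative ((X : ℂ[X]) ^ (φ (σ i) : ℕ)) i
      rw [natDegree_X_pow] at this
      have := hall i
      omega
    · left
      push Not at hall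
      obtain ⟨i, hi⟩ := hall
      exact Finset.prod_eq_zero (Finset.mem_univ i)
        (iterate_derivative_eq_zero (by rw [natDegree_X_pow]; exact hi))
  have hex : ∑ i : Fin m, (i : ℕ) ≤ ∑ i, (φ i : ℕ) := by
    by_contra hlt
    apply h0
    unfold W
    rw [Matrix.det_apply]
    refine Finset.sum_eq_zero fun σ _ => ?_
    rcases key σ with h | h
    · simp only [Matrix.of_apply]; rw [h, smul_zero]
    · omega
  have hdeg : (W (fun i => (X : ℂ[X]) ^ (φ i : ℕ))).natDegree
      ≤ ∑ i, (φ i : ℕ) - ∑ i : Fin m, (i : ℕ) := by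
    unfold W
    rw [Matrix.det_apply]
    refine natDegree_sum_le_of_forall_le _ _ fun σ _ => ?_
    simp only [Matrix.of_apply]
    refine le_trans (natDegree_smul_le _ _) ?_
    rcases key σ with h | h
    · rw [h]; simp
    · omega
  have h4 := Nat.sub_add_cancel hex
  omega

lemma W_deg {m N : ℕ} (f : Fin m → ℂ[X]) (hf : ∀ i, (f i).natDegree ≤ N) (h0 : W f ≠ 0) :
    (W f).natDegree + m * (m - 1) ≤ m * N := by
  have e : W f = ∑ φ : Fin m → Fin (N + 1),
      (∏ i, C ((f i).coeff (φ i))) * W (fun i => X ^ (φ i : ℕ)) := by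
    have hrow : (fun (i : Fin m) (k : Fin m) => derivative^[k] (f i)) =
        fun i => ∑ a : Fin (N + 1), (C ((f i).coeff a) : ℂ[X]) •
          (fun k : Fin m => derivative^[k] ((X : ℂ[X]) ^ (a : ℕ))) := by
      funext i k
      simp only [Finset.sum_apply, Pi.smul_apply, smul_eq_mul]
      conv_lhs => rw [as_sum_range_C_mul_X_pow' (f i) (Nat.lt_succ_iff.2 (hf i))]
      rw [iterate_derivative_sum, Finset.sum_range (fun a => derivative^[k] (C ((f i).coeff a) * X ^ a))]
      exact Finset.sum_congr rfl fun a _ => iterate_derivative_C_mul _ _ _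
    have := (Matrix.detRowAlternating (n := Fin m) (R := ℂ[X])).toMultilinearMap.map_sum
      (fun (i : Fin m) (a : Fin (N + 1)) => (C ((f i).coeff a) : ℂ[X]) •
          (fun k : Fin m => derivative^[k] ((X : ℂ[X]) ^ (a : ℕ))))
    rw [← hrow] at this
    refine this.trans (Finset.sum_congr rfl fun φ _ => ?_)
    rw [MultilinearMap.map_smul_univ]
    rfl
  have hex : m * (m - 1) ≤ m * N := by
    by_contra hlt
    apply h0
    rw [e]
    refine Finset.sum_eq_zero fun φ _ => ?_
    rcases W_mono φ with h | h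
    · rw [h, mul_zero]
    · omega
  have : (W f).natDegree ≤ m * N - m * (m - 1) := by
    rw [e]
    refine natDegree_sum_le_of_forall_le _ _ fun φ _ => ?_
    rw [← map_prod]
    refine le_trans (natDegree_C_mul_le _ _) ?_
    rcases W_mono φ with h | h
    · rw [h]; simp
    · omega
  omega

lemma prod_dvd_det {m : ℕ} (A : Matrix (Fin m) (Fin m) ℂ[X]) (v : Fin m → ℂ[X])
    (h : ∀ i k, v i ∣ A i k) : ∏ i, v i ∣ A.det := by
  choose B hB using h
  have : A = Matrix.of fun i k => v i * (Matrix.of B) i k := by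
    ext1 i k; simp [hB]
  rw [this, Matrix.det_mul_column]
  exact dvd_mul_right _ _

lemma prod_dvd_W {m d : ℕ} (g : Fin m → ℂ[X]) :
    ∏ i, g i ^ (d - (m - 1)) ∣ W (fun i => g i ^ d) := by
  refine prod_dvd_det _ _ fun i k => ?_
  refine dvd_trans (pow_dvd_pow _ ?_) (pow_sub_dvd_iterate_derivative_pow (g i) d k)
  have := k.2
  omega

lemma all_dvd {m d : ℕ} (g : Fin (m + 1) → ℂ[X]) (c : Fin (m + 1) → ℂ) (hc : ∀ i, c i ≠ 0)
    (hrel : ∑ i, C (c i) * g i ^ d = 0) (hroot : ∀ z, ∃ i, (g i).eval z ≠ 0) :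
    ∏ i, g i ^ (d - (m - 1)) ∣ W (fun i : Fin m => g i.succ ^ d) := by
  obtain ⟨e, he⟩ : ∃ e, e = d - (m - 1) := ⟨_, rfl⟩
  obtain ⟨w, hw⟩ : ∃ w, w = W (fun i : Fin m => g i.succ ^ d) := ⟨_, rfl⟩
  have hj : ∀ j, ∏ i, g i ^ e ∣ w * g j ^ e := by
    intro j
    refine Fin.cases ?_ (fun l => ?_) j
    · rw [Fin.prod_univ_succ, mul_comm, he, hw]
      exact mul_dvd_mul_right (prod_dvd_W _) _
    · have h1 := prod_dvd_W (d := d) (fun i => g (Function.update Fin.succ l 0 i))
      rw [← he] at h1
      have h2 : W (fun i => g (Function.update Fin.succ l 0 i) ^ d)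
          = C (- c l.succ / c 0) * w := by
        rw [hw]
        unfold W
        rw [← smul_eq_mul, ← Matrix.det_updateRow_sum _ l (fun k => C (- c k.succ / c 0))]
        congr 1
        ext1 i k
        by_cases hi : i = l
        · subst hi
          simp only [Matrix.of_apply, Function.update_self, Matrix.updateRow_self,
            Finset.sum_apply, Pi.smul_apply, smul_eq_mul]
          have : g 0 ^ d = ∑ x : Fin m, C (- c x.succ / c 0) * g x.succ ^ d := by
            rw [Fin.sum_univ_succ] at hrel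
            have h0 : (C (c 0) : ℂ[X]) ≠ 0 := by simpa using hc 0
            apply mul_left_cancel₀ h0
            rw [Finset.mul_sum, eq_neg_of_add_eq_zero_left hrel, ← Finset.sum_neg_distrib]
            refine Finset.sum_congr rfl fun x _ => ?_
            rw [← mul_assoc, ← C_mul, mul_div_cancel₀ _ (hc 0)]
            simp
          rw [this, iterate_derivative_sum]
          exact Finset.sum_congr rfl fun a _ => iterate_derivative_C_mul _ _ _
        · simp only [Matrix.of_apply, Function.update_of_ne hi, Matrix.updateRow_ne hi]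
      rw [h2] at h1
      have hu : IsUnit (C (- c l.succ / c 0) : ℂ[X]) :=
        isUnit_C.2 (IsUnit.mk0 _ (div_ne_zero (neg_ne_zero.2 (hc _)) (hc 0)))
      have h3 := (hu.dvd_mul_left).1 h1
      have h4 : ∏ i, g i ^ e = (∏ i, g (Function.update Fin.succ l 0 i) ^ e) * g l.succ ^ e := by
        rw [Fin.prod_univ_succ, ← Finset.mul_prod_erase _ _ (Finset.mem_univ l),
          ← Finset.mul_prod_erase _ (fun i => g (Function.update Fin.succ l 0 i) ^ e)
            (Finset.mem_univ l)]
        simp only [Function.update_self]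
        have : ∏ x ∈ Finset.univ.erase l, g (Function.update Fin.succ l 0 x) ^ e
            = ∏ x ∈ Finset.univ.erase l, g x.succ ^ e :=
          Finset.prod_congr rfl fun x hx => by
            rw [Function.update_of_ne (Finset.ne_of_mem_erase hx)]
        rw [this]; ring
      rw [h4]
      exact mul_dvd_mul_right h3 _
  rw [← he, ← hw]
  let J : Ideal ℂ[X] := Ideal.span (Set.range fun j => g j ^ e)
  have hJ : ∀ x ∈ J, ∏ i, g i ^ e ∣ w * x := by
    intro x hx
    refine Submodule.span_induction (p := fun x _ => ∏ i, g i ^ e ∣ w * x) ?_ ?_ ?_ ?_ hx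
    · rintro _ ⟨j, rfl⟩; exact hj j
    · simp
    · intro x y _ _ h1 h2; rw [mul_add]; exact dvd_add h1 h2
    · intro a x _ h1; rw [smul_eq_mul, mul_left_comm]; exact dvd_mul_of_dvd_right h1 _
  have hp := Submodule.IsPrincipal.generator_mem J
  by_cases hu : IsUnit (Submodule.IsPrincipal.generator J)
  · exact (hu.dvd_mul_right).1 (hJ _ hp)
  · exfalso
    rw [isUnit_iff_degree_eq_zero] at hu
    obtain ⟨z, hz⟩ := IsAlgClosed.exists_root _ hu
    obtain ⟨i, hi⟩ := hroot z
    have : Submodule.IsPrincipal.generator J ∣ g i ^ e :=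
      (Submodule.IsPrincipal.mem_iff_generator_dvd J).1 (Ideal.subset_span ⟨i, rfl⟩)
    have := hz.dvd this
    rw [IsRoot, eval_pow] at this
    exact hi (pow_eq_zero_iff'.1 this).1

lemma bound {m d n : ℕ} (g : Fin (m + 1) → ℂ[X]) (hg0 : ∀ i, g i ≠ 0)
    (hg : ∀ i, (g i).natDegree = n) (c : Fin (m + 1) → ℂ) (hc : ∀ i, c i ≠ 0)
    (hrel : ∑ i, C (c i) * g i ^ d = 0)
    (hmin : ∀ c' : Fin m → ℂ, ∑ i, C (c' i) * g i.succ ^ d = 0 → ∀ i, c' i = 0)
    (hroot : ∀ z, ∃ i, (g i).eval z ≠ 0) :
    (m + 1) * ((d - (m - 1)) * n) + m * (m - 1) ≤ m * (d * n) := by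
  have h0 := W_ne _ hmin
  have h1 := natDegree_le_of_dvd (all_dvd g c hc hrel hroot) h0
  have h2 := W_deg (N := d * n) (fun i : Fin m => g i.succ ^ d)
    (fun i => by rw [natDegree_pow, hg]) h0
  rw [natDegree_prod _ _ (fun i _ => pow_ne_zero _ (hg0 i))] at h1
  simp only [natDegree_pow, hg, Finset.sum_const, Finset.card_univ, Fintype.card_fin,
    smul_eq_mul] at h1
  omega

lemma arith (m d n : ℕ) (hm : m ≤ 5) (hd : 15 ≤ d) (hn : n ≤ 1)
    (h : (m + 1) * ((d - (m - 1)) * (n + 1)) + m * (m - 1) ≤ m * (d * (n + 1))) : False := by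
  interval_cases m <;> interval_cases n <;> omega

lemma main {m d : ℕ} (hm : m ≤ 5) (hd : 15 ≤ d) (c : Fin (m + 1) → ℂ) (hc : ∀ i, c i ≠ 0) :
    ∀ n, n ≤ 2 → ∀ g : Fin (m + 1) → ℂ[X], (∀ i, g i ≠ 0) → (∀ i, (g i).natDegree = n) →
    ∑ i, C (c i) * g i ^ d = 0 →
    (∀ c' : Fin m → ℂ, ∑ i, C (c' i) * g i.succ ^ d = 0 → ∀ i, c' i = 0) →
    ∃ i j, i ≠ j ∧ ∃ a b : ℂ, a ≠ 0 ∧ C a * g i = C b * g j := by
  intro n
  induction n with
  | zero =>
    intro _ g hg0 hg hrel _
    rcases m with _ | m
    · exfalso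
      rw [Fin.sum_univ_succ, Fin.sum_univ_zero, add_zero, mul_eq_zero] at hrel
      rcases hrel with h | h
      · exact hc _ (C_eq_zero.1 h)
      · exact hg0 _ (pow_eq_zero_iff'.1 h).1
    · have e0 := eq_C_of_natDegree_eq_zero (hg 0)
      have e1 := eq_C_of_natDegree_eq_zero (hg 1)
      refine ⟨0, 1, Fin.zero_ne_one, (g 1).coeff 0, (g 0).coeff 0, fun h => hg0 1 ?_, ?_⟩
      · rw [e1, h, C_0]
      · rw [← e0, ← e1, mul_comm]
  | succ n ih =>
    intro hn g hg0 hg hrel hmin
    by_cases hroot : ∀ z, ∃ i, (g i).eval z ≠ 0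
    · exfalso
      have := bound g hg0 hg c hc hrel hmin hroot
      exact arith m d n hm hd (by omega) this
    · push Not at hroot
      obtain ⟨z, hz⟩ := hroot
      have : ∀ i, ∃ h, g i = (X - C z) * h := fun i => dvd_iff_isRoot.2 (hz i)
      choose h hh using this
      have hX : ((X : ℂ[X]) - C z) ≠ 0 := X_sub_C_ne_zero z
      have hh0 : ∀ i, h i ≠ 0 := fun i h0 => hg0 i (by rw [hh i, h0, mul_zero])
      obtain ⟨i, j, hij, a, b, ha, hab⟩ := ih (by omega) h hh0 (fun i => by
          have := hg i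
          rw [hh i, natDegree_mul hX (hh0 i), natDegree_X_sub_C] at this
          omega)
        (by
          apply mul_left_cancel₀ (pow_ne_zero d hX)
          rw [mul_zero, ← hrel, Finset.mul_sum]
          refine Finset.sum_congr rfl fun i _ => ?_
          rw [hh i, mul_pow]; ring)
        (fun c' hc' => hmin c' (by
          have : (X - C z) ^ d * ∑ i, C (c' i) * h i.succ ^ d = 0 := by rw [hc', mul_zero]
          rw [← this, Finset.mul_sum]
          refine Finset.sum_congr rfl fun i _ => ?_
          rw [hh i.succ, mul_pow]; ring))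
      refine ⟨i, j, hij, a, b, ha, ?_⟩
      rw [hh i, hh j]
      linear_combination (X - C z) * hab

lemma six {d : ℕ} (hd : 15 ≤ d) (g : Fin 6 → ℂ[X]) (hg0 : ∀ i, g i ≠ 0)
    (hg : ∀ i, (g i).natDegree = 2) (c0 : Fin 6 → ℂ) (hc0 : c0 ≠ 0)
    (hrel0 : ∑ i, C (c0 i) * g i ^ d = 0) :
    ∃ i j, i ≠ j ∧ ∃ a b : ℂ, a ≠ 0 ∧ C a * g i = C b * g j := by
  classical
  have hex : ∃ r, ∃ c : Fin 6 → ℂ, c ≠ 0 ∧ ∑ i, C (c i) * g i ^ d = 0 ∧
      (Finset.univ.filter fun i => c i ≠ 0).card = r := ⟨_, c0, hc0, hrel0, rfl⟩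
  obtain ⟨c, hc, hrel, hcard⟩ := Nat.find_spec hex
  have hmin : ∀ c' : Fin 6 → ℂ, c' ≠ 0 → ∑ i, C (c' i) * g i ^ d = 0 →
      Nat.find hex ≤ (Finset.univ.filter fun i => c' i ≠ 0).card :=
    fun c' h1 h2 => Nat.find_min' hex ⟨c', h1, h2, rfl⟩
  obtain ⟨r, hr⟩ : ∃ r, r = Nat.find hex := ⟨_, rfl⟩
  rw [← hr] at hcard hmin
  obtain ⟨S, hS⟩ : ∃ S, S = Finset.univ.filter fun i => c i ≠ 0 := ⟨_, rfl⟩
  rw [← hS] at hcard
  have hmem : ∀ i, i ∈ S ↔ c i ≠ 0 := by intro i; simp [hS]
  have hr6 : r ≤ 6 := by rw [← hcard]; simpa using Finset.card_le_univ S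
  rcases r with _ | m
  · exfalso
    apply hc
    funext i
    by_contra h
    have := (hmem i).2 h
    rw [Finset.card_eq_zero.1 hcard] at this
    simp at this
  let e := S.orderEmbOfFin hcard
  have he : ∀ i, e i ∈ S := fun i => S.orderEmbOfFin_mem hcard i
  have hinj : Function.Injective e := e.injective
  have himg : Finset.univ.image e = S := by
    apply Finset.eq_of_subset_of_card_le
    · intro x hx
      obtain ⟨i, _, rfl⟩ := Finset.mem_image.1 hx
      exact he i
    · rw [Finset.card_image_of_injective _ hinj]; simp [hcard]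
  obtain ⟨i, j, hij, a, b, ha, hab⟩ := main (m := m) (by omega) hd (fun i => c (e i))
    (fun i => (hmem _).1 (he i)) 2 le_rfl (fun i => g (e i)) (fun i => hg0 _) (fun i => hg _)
    (by
      rw [← Finset.sum_image (f := fun i => C (c i) * g i ^ d) (fun x _ y _ h => hinj h), himg,
        ← hrel]
      refine Finset.sum_subset (Finset.subset_univ _) fun x _ hx => ?_
      rw [hmem, not_not] at hx
      rw [hx]; simp)
    (fun c' hc' => by
      have hinj' : Function.Injective (fun i : Fin m => e i.succ) :=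
        hinj.comp (Fin.succ_injective m)
      let c'' : Fin 6 → ℂ := Function.extend (fun i : Fin m => e i.succ) c' 0
      have h1 : ∀ i, c'' (e i.succ) = c' i := fun i => hinj'.extend_apply _ _ i
      have h2 : ∀ x, x ∉ Finset.univ.image (fun i : Fin m => e i.succ) → c'' x = 0 := by
        intro x hx
        refine Function.extend_apply' _ _ _ ?_
        rintro ⟨i, rfl⟩
        exact hx (Finset.mem_image_of_mem _ (Finset.mem_univ _))
      by_cases h0 : c'' = 0
      · intro i; rw [← h1, h0]; rfl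
      · exfalso
        have h3 := hmin c'' h0 (by
          rw [← hc', ← Finset.sum_subset (Finset.subset_univ
            (Finset.univ.image (fun i : Fin m => e i.succ))) (fun x _ hx => by rw [h2 x hx]; simp),
            Finset.sum_image (fun x _ y _ h => hinj' h)]
          exact Finset.sum_congr rfl fun i _ => by rw [h1])
        have h4 : (Finset.univ.filter fun i => c'' i ≠ 0) ⊆
            Finset.univ.image (fun i : Fin m => e i.succ) := by
          intro x hx
          by_contra hn
          exact (Finset.mem_filter.1 hx).2 (h2 x hn)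
        have h5 := Finset.card_le_card h4
        rw [Finset.card_image_of_injective _ hinj'] at h5
        simp only [Finset.card_univ, Fintype.card_fin] at h5
        omega)
  exact ⟨e i, e j, fun h => hij (hinj h), a, b, ha, hab⟩

end H48.Wr
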